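import Pool.Agent.Lib.MP_a47f92_an.ApproxA

set_option autoImplicit false
set_option linter.unusedSectionVars false

/-! Approximation of potentials by smooth potentials. -/

namespace Pool.Agent.Lib.MP_a47f92_an

open MeasureTheory Filter Topology Set Complex Metric Function
open scoped ContDiff ComplexConjugate ComplexOrder Matrix ENNReal NNReal

variable {n : ℕ}

variable {u g : E n → ℝ}

theorem Approx_unit (hn : 1 ≤ n) : ∃ x : E n, ‖x‖ = 1 := ⟨ev ⟨0, hn⟩, by simp [ev]⟩

theorem Approx_ae (hn : 1 ≤ n) : ∀ᵐ z : E n, z ≠ 0 := by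
  obtain ⟨x, hx⟩ := Approx_unit hn
  have : Nontrivial (E n) := nontrivial_of_ne x 0 (norm_ne_zero_iff.1 (hx ▸ one_ne_zero))
  exact measure_eq_zero_iff_ae_notMem.1 (measure_singleton (μ := volume) (0 : E n))

theorem Approx_ball {z : E n} (hz : z ≠ 0) : closedBall z (1 / 2 * ‖z‖) ⊆ {0}ᶜ := by
  rintro y hy rfl
  rw [mem_closedBall, dist_zero_left] at hy
  linarith [norm_pos_iff.2 hz]

/-- Maximum principle: at a maximum point `z` on the sphere, `p z ≤ sm κ r p z` forces `p = p z` on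
a ball (`ae_eq_zero_of_sm` and continuity); the complement of the origin is connected
(`isConnected_compl_singleton_of_one_lt_rank`). -/
theorem const_of_smooth (hn : 1 ≤ n) {p : E n → ℝ} (hp : ContDiffOn ℝ ∞ p {0}ᶜ) (hh : XHom 0 p)
    (hl : ∀ z, z ≠ 0 → ∀ v, 0 ≤ levi p z v) : ∃ c, ∀ z, z ≠ 0 → p z = c := by
  obtain ⟨κ⟩ := exists_ker hn
  obtain ⟨x, hx, hm⟩ := (isCompact_sphere (0 : E n) 1).exists_isMaxOn
    ((Approx_unit hn).imp fun x hx => mem_sphere_zero_iff_norm.2 hx)
    (hp.continuousOn.mono fun y hy => ne_of_mem_sphere hy one_ne_zero)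
  have h1 : ∀ z, z ≠ 0 → p z ≤ p x := by
    intro z hz
    have a := norm_ne_zero_iff.2 hz
    have b := hh (‖z‖⁻¹ : ℝ) (ofReal_ne_zero.2 (inv_ne_zero a)) z hz
    rw [zero_mul, add_zero] at b
    refine b ▸ hm (mem_sphere_zero_iff_norm.2 ?_)
    rw [norm_smul, norm_real, norm_inv, norm_norm, inv_mul_cancel₀ a]
  have li := hh.locInt hn hp.continuousOn
  have lc := locallyIntegrable_const (μ := (volume : Measure (E n))) (p x)
  have h2 : ∀ z, z ≠ 0 → p z = p x → ∀ᶠ y in 𝓝 z, p y = p x := by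
    intro z hz e
    have a := sm_ge_smooth κ hn one_half_pos isOpen_compl_singleton hp hl hz (Approx_ball hz)
    have b := sm_mono κ one_half_pos li lc hz ((Approx_ae hn).mono fun y hy _ => h1 y hy)
    rw [sm_const κ hn] at b
    have c := ae_eq_zero_of_sm κ one_half_pos (g := fun y => p x - p y) (lc.sub li)
      ((Approx_ae hn).mono fun y hy => sub_nonneg.2 (h1 y hy)) hz (by
        rw [sm_sub κ one_half_pos lc li hz, sm_const κ hn]
        linarith)
    exact eventually_of_mem (ball_mem_nhds z (mul_pos one_half_pos (norm_pos_iff.2 hz)))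
      (Measure.eqOn_open_of_ae_eq ((ae_restrict_iff' measurableSet_ball).2
        (c.mono fun y hy hy' => (sub_eq_zero.1 (hy hy')).symm)) isOpen_ball
        (hp.continuousOn.mono (ball_subset_closedBall.trans (Approx_ball hz))) continuousOn_const)
  have hr : 1 < Module.rank ℝ (E n) := Module.one_lt_rank_of_one_lt_finrank (by
    rw [finrank_real_of_complex, finrank_euclideanSpace_fin]
    omega)
  have hx0 : x ≠ 0 := ne_of_mem_sphere hx one_ne_zero
  refine ⟨p x, fun z hz => Eventually.self_of_nhds (p := fun y => p y = p x)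
    ((isConnected_compl_singleton_of_one_lt_rank hr 0).isPreconnected.subset_of_closure_inter_subset
      isOpen_setOfPred_eventually_nhds ⟨x, hx0, h2 x hx0 rfl⟩ (fun y hy => h2 y hy.2 ?_) hz)⟩
  exact tendsto_nhds_unique_of_frequently_eq
    (hp.continuousOn.continuousAt (isOpen_compl_singleton.mem_nhds hy.2)) tendsto_const_nhds
    ((mem_closure_iff_frequently.1 hy.1).mono fun w hw => hw.self_of_nhds)

/-- `sm κ r g` is a constant `c r`; by `sm_weak_tendsto` with a fixed `h₀ ≥ 0` of positive integral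
`c r` converges to some `c`, and `∫ (g - c) h = 0` for all `h` (`ae_nonneg_of_cc` twice). -/
theorem const_of_wpsh (hn : 1 ≤ n) (hg : LocallyIntegrable g) (hh : LHom 0 g) (h : WPsh g univ) :
    ∃ c, ∀ᵐ z, g z = c := by
  obtain ⟨κ⟩ := exists_ker hn
  have h1 : ∀ r : ℝ, ∃ c, r ∈ Ioo (0 : ℝ) 1 → ∀ z, z ≠ 0 → sm κ r g z = c := by
    intro r
    by_cases hr : r ∈ Ioo (0 : ℝ) 1
    · have a := sm_contDiffOn κ hr.1 hg
      exact (const_of_smooth hn a (sm_xhom κ hn hr.1 hg hh) fun z hz v =>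
        levi_nonneg_of_wpsh isOpen_univ (a.mono fun _ b => b.2)
          (sm_wpsh κ hn hr.1 hr.2 hg h fun _ _ _ => subset_univ _) (mem_univ z) hz v).imp
        fun c hc _ => hc
    · exact ⟨0, fun a => absurd a hr⟩
  choose c hc using h1
  have h2 : ∀ f, IsCC f → Tendsto (fun r => c r * ∫ z, f z) (𝓝[>] 0) (𝓝 (∫ z, g z * f z)) := by
    intro f hf
    refine (sm_weak_tendsto κ hn hg hf).congr' ?_
    filter_upwards [Ioo_mem_nhdsGT one_pos] with r hr
    rw [← integral_const_mul]
    exact integral_congr_ae ((Approx_ae hn).mono fun z hz => by simp only [hc r hr z hz])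
  obtain ⟨x, hx⟩ := Approx_unit hn
  let θ : ContDiffBump x := ⟨1 / 4, 1 / 2, by norm_num, by norm_num⟩
  have h3 := (h2 θ ⟨θ.continuous, θ.hasCompactSupport, fun a => by
    rw [θ.tsupport_eq, mem_closedBall, dist_zero_left, hx] at a
    norm_num [θ] at a⟩).div_const (∫ z, θ z)
  simp only [mul_div_cancel_right₀ _ (θ.integral_pos (μ := volume)).ne'] at h3
  generalize (∫ z, g z * θ z) / ∫ z, θ z = a at h3
  have lc := locallyIntegrable_const (μ := (volume : Measure (E n))) a
  have h4 : ∀ f, IsCC f → ∫ z, g z * f z = ∫ z, a * f z := fun f hf => by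
    rw [integral_const_mul]
    exact tendsto_nhds_unique (h2 f hf) (h3.mul_const _)
  have h5 := ae_nonneg_of_cc isOpen_univ (u := fun z => g z - a) (hg.sub lc) fun f hf _ _ => by
    simp only [sub_mul]
    rw [integral_sub (hf.integrable_mul hg) (hf.integrable_mul lc), h4 f hf, sub_self]
  have h6 := ae_nonneg_of_cc isOpen_univ (u := fun z => a - g z) (lc.sub hg) fun f hf _ _ => by
    simp only [sub_mul]
    rw [integral_sub (hf.integrable_mul lc) (hf.integrable_mul hg), h4 f hf, sub_self]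
  refine ⟨a, ?_⟩
  filter_upwards [h5, h6, Approx_ae hn] with z a1 a2 hz
  linarith [a1 (mem_univ z) hz, a2 (mem_univ z) hz]

theorem Approx_neg (hn : 2 ≤ n) {c : ℝ} (hc : c ≤ 0) (hg : LocallyIntegrable g) (hh : LHom c g)
    (h : WPh g univ) : c = 0 ∧ ∃ c', ∀ᵐ z, g z = c' := by
  have hn' : 1 ≤ n := one_le_two.trans hn
  have l1 : LocallyIntegrable fun z : E n => c * Real.log ‖z‖ := (locInt_log hn').smul c
  have e : ∀ ψ, IsTest ψ → (∀ z, 0 ≤ ψ z) → ∀ v, pair (fun z => g z - c * Real.log ‖z‖) ψ v =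
      -c * pair (fun z => Real.log ‖z‖) ψ v := fun ψ h1 h2 v => by
    rw [pair_sub hg l1 h1, pair_const_mul, h ψ h1 h2 (subset_univ _), zero_sub, neg_mul]
  obtain ⟨c', hc'⟩ := const_of_wpsh hn' (g := fun z => g z - c * Real.log ‖z‖) (hg.sub l1)
    (fun a ha => by
      filter_upwards [hh a ha, Approx_ae hn'] with z h1 h2
      rw [h1, norm_smul, Real.log_mul (norm_ne_zero_iff.2 ha) (norm_ne_zero_iff.2 h2)]
      ring)
    fun ψ h1 h2 _ v => (e ψ h1 h2 v).symm ▸
      mul_nonneg (neg_nonneg.2 hc) ((spot_log.isPot hn').psh ψ h1 h2 v)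
  obtain rfl : c = 0 := by
    by_contra h0
    obtain ⟨z, v, hz, hv⟩ := exists_levi_log_pos hn
    refine hv.ne' (levi_of_hess_eq_zero (hess_eq_zero_of_wph isOpen_univ
      (contDiffOn_log.mono fun _ a => a.2) (fun ψ h1 h2 _ v => ?_) (mem_univ z) hz) v)
    refine (mul_eq_zero.1 ((e ψ h1 h2 v).symm.trans ?_)).resolve_left (neg_ne_zero.2 h0)
    exact (pair_congr (hc'.mono fun z a _ => a)).trans (pair_const c' h1 v)
  exact ⟨rfl, c', hc'.mono fun z a => by rwa [zero_mul, sub_zero] at a⟩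

/-- For `c ≤ 0`, `g - c log ‖z‖` is weakly plurisubharmonic and homogeneous of degree zero, hence
constant; so `c log ‖z‖` is weakly pluriharmonic and `c = 0` by `exists_levi_log_pos`,
`hess_eq_zero_of_wph`. For `c ≥ 0` use `-g`. -/
theorem const_of_wph (hn : 2 ≤ n) {c : ℝ} (hg : LocallyIntegrable g) (hh : LHom c g)
    (h : WPh g univ) : c = 0 ∧ ∃ c', ∀ᵐ z, g z = c' := by
  rcases le_total c 0 with hc | hc
  · exact Approx_neg hn hc hg hh h
  obtain ⟨h1, c', h2⟩ := Approx_neg hn (g := fun z => -g z) (neg_nonpos.2 hc) hg.neg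
    (fun a ha => (hh a ha).mono fun z hz => by linarith)
    fun ψ h1 h2 h3 v => by rw [pair_neg, h ψ h1 h2 h3, neg_zero]
  exact ⟨neg_eq_zero.1 h1, -c', h2.mono fun z hz => neg_eq_iff_eq_neg.1 hz⟩

end Pool.Agent.Lib.MP_a47f92_an
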