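import Pool.Agent.Lib.MP_a47f92_an.BallA

set_option autoImplicit false
set_option linter.unusedSectionVars false

/-! Means over balls. -/

namespace Pool.Agent.Lib.MP_a47f92_an

open MeasureTheory Filter Topology Set Complex Metric Function
open scoped ContDiff ComplexConjugate ComplexOrder Matrix ENNReal NNReal

variable {n : ℕ}

variable {p : E n → ℝ} {Ω : Set (E n)} {y : E n} {r : ℝ}

theorem Ball_pos (y : E n) (hr : 0 < r) : 0 < volume.real (ball y r) :=
  ENNReal.toReal_pos (measure_ball_pos _ _ hr).ne' measure_ball_lt_top.ne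

theorem Ball_avg (hr : 0 < r) (p : E n → ℝ) (y : E n) :
    ∫ q in ball y r, p q = volume.real (ball (0 : E n) r) * ⨍ q in ball y r, p q := by
  rw [setAverage_eq, smul_eq_mul, ← mul_assoc]
  have h : volume.real (ball (0 : E n) r) = volume.real (ball y r) := by
    simp only [Measure.real, Measure.addHaar_ball_center volume y]
  rw [h, mul_inv_cancel₀ (Ball_pos y hr).ne', one_mul]

theorem Ball_const (c : ℝ) (y : E n) (r : ℝ) :
    ∫ _ in ball y r, c = volume.real (ball (0 : E n) r) * c := by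
  rw [setIntegral_const, smul_eq_mul]
  simp only [Measure.real, Measure.addHaar_ball_center volume y]

theorem Ball_intconst (c : ℝ) (y : E n) (r : ℝ) : IntegrableOn (fun _ : E n => c) (ball y r) :=
  integrableOn_const measure_ball_lt_top.ne

theorem Ball_int (hn : 2 ≤ n) (hp : SPot p) (y : E n) (r : ℝ) : IntegrableOn p (ball y r) :=
  ((hp.hom.locInt (by omega) hp.smooth.continuousOn).integrableOn_isCompact
    (isCompact_closedBall y r)).mono_set ball_subset_closedBall

theorem Ball_avg_mono {f g : E n → ℝ} (hf : IntegrableOn f (ball y r))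
    (hg : IntegrableOn g (ball y r)) (h : ∀ᵐ w, w ∈ ball y r → f w ≤ g w) :
    ⨍ w in ball y r, f w ≤ ⨍ w in ball y r, g w := by
  rw [setAverage_eq, setAverage_eq, smul_eq_mul, smul_eq_mul]
  exact mul_le_mul_of_nonneg_left
    (integral_mono_ae hf hg ((ae_restrict_iff' measurableSet_ball).2 h))
    (inv_nonneg.2 measureReal_nonneg)

theorem Ball_avg_const (hr : 0 < r) (c : ℝ) : ⨍ _ in ball y r, c = c :=
  setAverage_const (measure_ball_pos _ _ hr).ne' measure_ball_lt_top.ne c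

/-- For `w` outside the null set `ℂ y` the line `y + ℂ w` avoids the origin
(`Measure.addHaar_submodule`, the span over `ℝ` of `y`, `I • y` is proper as `2 < 2 n`). -/
theorem ae_line (hn : 2 ≤ n) (hy : y ≠ 0) : ∀ᵐ w : E n, ∀ ζ : ℂ, y + ζ • w ≠ 0 := by
  have h1 : (Submodule.span ℂ {y}).restrictScalars ℝ ≠ ⊤ := by
    intro h
    rw [Submodule.restrictScalars_eq_top_iff] at h
    have h2 := finrank_span_singleton (K := ℂ) hy
    rw [h, finrank_top, finrank_euclideanSpace_fin] at h2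
    omega
  have h3 := Measure.addHaar_submodule (volume : Measure (E n)) _ h1
  refine (measure_eq_zero_iff_ae_notMem.1 h3).mono fun w hw ζ h0 => hw ?_
  have hζ : ζ ≠ 0 := by
    rintro rfl
    exact hy (by simpa using h0)
  refine Submodule.mem_span_singleton.2 ⟨-ζ⁻¹, ?_⟩
  have h4 : y = -(ζ • w) := eq_neg_of_add_eq_zero_left h0
  rw [h4, smul_neg, neg_smul, neg_neg, smul_smul, inv_mul_cancel₀ hζ, one_smul]

theorem SPot.submean (hn : 2 ≤ n) (hp : SPot p) (hy : y ≠ 0) (hr : 0 < r) :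
    p y ≤ ⨍ q in ball y r, p q := by
  obtain ⟨h1, h2⟩ := setAverage_ball_cm hr (Ball_int hn hp y r)
  rw [h2, ← Ball_avg_const (y := (0 : E n)) one_pos (p y)]
  refine Ball_avg_mono (Ball_intconst _ _ _) h1 ((ae_line hn hy).mono fun w hw _ => ?_)
  rw [← cm_zero p y w]
  exact cm_mono (Ω := {0}ᶜ) (R := r) isOpen_compl_singleton hp.smooth hp.psh (fun ζ _ => hw ζ)
    ⟨le_rfl, hr.le⟩ ⟨hr.le, le_rfl⟩ hr.le

theorem SPot.convex (hn : 2 ≤ n) (hp : SPot p) (hy : y ≠ 0) :
    ConvexOn ℝ univ fun t => ⨍ q in ball y (Real.exp t), p q := by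
  refine ⟨convex_univ, fun s _ t _ a b ha hb hab => ?_⟩
  have h := fun u : ℝ => setAverage_ball_cm (Real.exp_pos u) (Ball_int hn hp y (Real.exp u))
  simp only [smul_eq_mul]
  rw [(h _).2, (h s).2, (h t).2]
  have h1 : a * (⨍ w in ball (0 : E n) 1, cm p y w (Real.exp s)) +
      b * ⨍ w in ball (0 : E n) 1, cm p y w (Real.exp t) =
      ⨍ w in ball (0 : E n) 1, (a * cm p y w (Real.exp s) + b * cm p y w (Real.exp t)) := by
    simp only [setAverage_eq, smul_eq_mul]
    rw [integral_add ((h s).1.const_mul a) ((h t).1.const_mul b), integral_const_mul,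
      integral_const_mul]
    ring
  rw [h1]
  refine Ball_avg_mono (h _).1 (((h s).1.const_mul a).add ((h t).1.const_mul b))
    ((ae_line hn hy).mono fun w hw _ => ?_)
  have h2 := cm_convex (Ω := {0}ᶜ) (z := y) (w := w) isOpen_compl_singleton hp.smooth hp.psh
    (Real.exp_pos (max s t)) fun ζ _ => hw ζ
  rw [Real.log_exp] at h2
  exact h2.2 (mem_Iic.2 (le_max_left s t)) (mem_Iic.2 (le_max_right s t)) ha hb hab

/-- Let `x₀` be a maximum point of `p` on the sphere, `m = p x₀`, so `p z ≤ m + log ‖z‖`. Then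
`∫_{B(y,2)} (m + log 5 - p) ≤ ∫_{B(x₀,4)} (m + log 5 - p) ≤ vol B(0,4) log 5` by `SPot.submean`,
so the mean `M 2` over `B(y,2)` is at least `m + log 5 - 2 ^ (2 n) log 5`, and `M 4 ≤ m + log 5`.
By convexity in `log r`, `M r ≥ M 2 - (log (2 / r) / log 2) (M 4 - M 2)`. -/
theorem mean_lower (hn : 2 ≤ n) : ∃ C : ℝ, 0 ≤ C ∧ ∀ p : E n → ℝ, SPot p → ∀ x y : E n, ‖x‖ = 1 →
    ‖y‖ = 1 → ∀ r : ℝ, 0 < r → r ≤ 1 → p x - C * (1 + Real.log r⁻¹) ≤ ⨍ q in ball y r, p q := by
  set V2 := volume.real (ball (0 : E n) 2) with hV2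
  set V4 := volume.real (ball (0 : E n) 4) with hV4
  have p2 : 0 < V2 := Ball_pos _ two_pos
  have p4 : 0 < V4 := Ball_pos _ four_pos
  have l5 : 0 ≤ Real.log 5 := Real.log_nonneg (by norm_num)
  have l2 : 0 < Real.log 2 := Real.log_pos one_lt_two
  set K := V4 / V2 * Real.log 5 with hK
  have hK0 : 0 ≤ K := by positivity
  refine ⟨2 * K + K / Real.log 2, by positivity, fun p hp x y hx hy r hr hr1 => ?_⟩
  have hs : sphere (0 : E n) 1 ⊆ {0}ᶜ := fun z hz h0 => by
    rw [mem_singleton_iff.1 h0] at hz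
    simp at hz
  obtain ⟨x₀, hx₀, hmax⟩ := (isCompact_sphere (0 : E n) 1).exists_isMaxOn
    ⟨x, mem_sphere_zero_iff_norm.2 hx⟩ (hp.smooth.continuousOn.mono hs)
  have hx₀n : ‖x₀‖ = 1 := mem_sphere_zero_iff_norm.1 hx₀
  have hy0 : y ≠ 0 := fun h0 => by simp [h0] at hy
  have hup : ∀ z : E n, z ≠ 0 → ‖z‖ ≤ 5 → p z ≤ p x₀ + Real.log 5 := by
    intro z hz h5
    have hz' : 0 < ‖z‖ := norm_pos_iff.2 hz
    have h1 := hp.hom (((‖z‖⁻¹ : ℝ) : ℂ)) (ofReal_ne_zero.2 (inv_pos.2 hz').ne') z hz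
    have h2 : ((‖z‖⁻¹ : ℝ) : ℂ) • z ∈ sphere (0 : E n) 1 := by
      rw [mem_sphere_zero_iff_norm, norm_smul, norm_real, norm_inv, norm_norm,
        inv_mul_cancel₀ hz'.ne']
    have h3 : p (((‖z‖⁻¹ : ℝ) : ℂ) • z) ≤ p x₀ := hmax h2
    rw [norm_real, norm_inv, norm_norm, Real.log_inv] at h1
    have h4 := Real.log_le_log hz' h5
    linarith
  have hne : ∀ᵐ z : E n, z ≠ 0 := by
    have : Nontrivial (E n) := ⟨⟨y, 0, hy0⟩⟩
    exact measure_eq_zero_iff_ae_notMem.1 (measure_singleton (0 : E n))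
  have hup' : ∀ c : E n, ‖c‖ = 1 → ∀ᵐ z, z ∈ ball c 4 → p z ≤ p x₀ + Real.log 5 := fun c hc =>
    hne.mono fun z hz hz' => hup z hz (by
      have h1 := norm_le_norm_add_norm_sub' z c
      have h2 := mem_ball_iff_norm.1 hz'
      linarith)
  have hM4 : ⨍ q in ball y 4, p q ≤ p x₀ + Real.log 5 := by
    rw [← Ball_avg_const (y := y) four_pos (p x₀ + Real.log 5)]
    exact Ball_avg_mono (Ball_int hn hp _ _) (Ball_intconst _ _ _) (hup' y hy)
  have hsub : ball y 2 ⊆ ball x₀ 4 := ball_subset_ball' (by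
    have h1 := norm_sub_le y x₀
    rw [dist_eq_norm]
    linarith)
  have h1 : ∫ q in ball y 2, (p x₀ + Real.log 5 - p q) ≤
      ∫ q in ball x₀ 4, (p x₀ + Real.log 5 - p q) :=
    setIntegral_mono_set ((Ball_intconst _ _ _).sub (Ball_int hn hp _ _))
      ((ae_restrict_iff' measurableSet_ball).2 ((hup' x₀ hx₀n).mono fun z hz hz' =>
        sub_nonneg.2 (hz hz'))) hsub.eventuallyLE
  rw [integral_sub (Ball_intconst _ _ _) (Ball_int hn hp _ _),
    integral_sub (Ball_intconst _ _ _) (Ball_int hn hp _ _), Ball_const, Ball_const,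
    Ball_avg two_pos, Ball_avg four_pos, ← hV2, ← hV4] at h1
  have h2 := mul_le_mul_of_nonneg_left (hp.submean hn (hs hx₀) four_pos) p4.le
  have hM2 : p x₀ + Real.log 5 - K ≤ ⨍ q in ball y 2, p q := by
    have h3 : V2 * K = V4 * Real.log 5 := by
      rw [hK]
      field_simp
    refine le_of_mul_le_mul_left ?_ p2
    nlinarith
  have hlr : Real.log r ≤ 0 := Real.log_nonpos hr.le hr1
  have h4 : Real.log 4 = 2 * Real.log 2 := by
    rw [show (4 : ℝ) = 2 ^ 2 by norm_num, Real.log_pow]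
    norm_num
  have h5 := (hp.convex hn hy0).slope_mono_adjacent (x := Real.log r) (y := Real.log 2)
    (z := Real.log 4) (mem_univ _) (mem_univ _) (by linarith) (by linarith)
  simp only [Real.exp_log hr, Real.exp_log two_pos, Real.exp_log four_pos] at h5
  rw [h4, show 2 * Real.log 2 - Real.log 2 = Real.log 2 by ring,
    div_le_iff₀ (by linarith)] at h5
  have h6 : ((⨍ q in ball y 4, p q) - ⨍ q in ball y 2, p q) / Real.log 2 ≤ K / Real.log 2 :=
    div_le_div_of_nonneg_right (by linarith) l2.le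
  have h7 := mul_le_mul_of_nonneg_right h6 (show 0 ≤ Real.log 2 - Real.log r by linarith)
  have h8 : K / Real.log 2 * (Real.log 2 - Real.log r) = K - K / Real.log 2 * Real.log r := by
    field_simp
  have h9 : p x ≤ p x₀ := hmax (mem_sphere_zero_iff_norm.2 hx)
  have h10 : 0 ≤ K / Real.log 2 := by positivity
  have h11 := mul_nonneg hK0 (neg_nonneg.2 hlr)
  rw [Real.log_inv]
  nlinarith

/-- `ball y ρ ⊆ ball q₀ (2 ρ)` and `closedBall q₀ (2 ρ) ⊆ ball y (3 ρ)`; use `submean` at `q₀`. -/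
theorem l1_bound {a : E n → ℝ} {ρ M : ℝ} {q₀ : E n} (hρ : 0 < ρ)
    (ha : ContDiffOn ℝ ∞ a (ball y (4 * ρ))) (hl : ∀ z ∈ ball y (4 * ρ), ∀ v, 0 ≤ levi a z v)
    (hM : ∀ z ∈ ball y (4 * ρ), a z ≤ M) (hq : q₀ ∈ ball y ρ) :
    ∫ z in ball y ρ, |a z - M| ≤ (volume (ball (0 : E n) (2 * ρ))).toReal * (M - a q₀) := by
  have hq' := mem_ball.1 hq
  have hc : closedBall q₀ (2 * ρ) ⊆ ball y (4 * ρ) := closedBall_subset_ball' (by linarith)
  have hs : ball y ρ ⊆ ball q₀ (2 * ρ) := ball_subset_ball' (by rw [dist_comm]; linarith)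
  have h2 : 0 < 2 * ρ := by linarith
  have hi : IntegrableOn a (ball q₀ (2 * ρ)) :=
    ((ha.continuousOn.mono hc).integrableOn_compact (isCompact_closedBall _ _)).mono_set
      ball_subset_closedBall
  have hM' : ∀ z ∈ ball q₀ (2 * ρ), a z ≤ M := fun z hz => hM z (hc (ball_subset_closedBall hz))
  have h3 := mul_le_mul_of_nonneg_left (submean isOpen_ball ha hl h2 hc)
    (Ball_pos (0 : E n) h2).le
  calc ∫ z in ball y ρ, |a z - M| = ∫ z in ball y ρ, (M - a z) :=
        setIntegral_congr_fun measurableSet_ball fun z hz => by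
          rw [abs_sub_comm, abs_of_nonneg (sub_nonneg.2 (hM' z (hs hz)))]
    _ ≤ ∫ z in ball q₀ (2 * ρ), (M - a z) :=
        setIntegral_mono_set ((Ball_intconst _ _ _).sub hi)
          ((ae_restrict_iff' measurableSet_ball).2 (Eventually.of_forall fun z hz =>
            sub_nonneg.2 (hM' z hz))) hs.eventuallyLE
    _ ≤ volume.real (ball (0 : E n) (2 * ρ)) * (M - a q₀) := by
        rw [integral_sub (Ball_intconst _ _ _) hi, Ball_const, Ball_avg h2]
        linarith

end Pool.Agent.Lib.MP_a47f92_an
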