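import Pool.Agent.Lib.MP_a47f92_an.Pair

set_option autoImplicit false
set_option linter.unusedSectionVars false

/-! Existence of the smoothing kernel. -/

namespace Pool.Agent.Lib.MP_a47f92_an

open MeasureTheory Filter Topology Set Complex Metric Function
open scoped ContDiff ComplexConjugate ComplexOrder Matrix ENNReal NNReal

variable {n : ℕ}

/-- The unitary group. -/
noncomputable abbrev KerEx_U (n : ℕ) := unitary (E n →L[ℂ] E n)

theorem KerEx_norm (U : KerEx_U n) : ‖(U : E n →L[ℂ] E n)‖ ≤ 1 :=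
  ContinuousLinearMap.opNorm_le_bound _ zero_le_one fun x => by rw [Unitary.norm_map, one_mul]

theorem KerEx_star : ContinuousStar (E n →L[ℂ] E n) := ⟨ContinuousLinearMap.adjoint.continuous⟩

theorem KerEx_compact : CompactSpace (KerEx_U n) := by
  have := KerEx_star (n := n)
  have : ProperSpace (E n →L[ℂ] E n) := FiniteDimensional.proper ℂ _
  exact isCompact_iff_compactSpace.1 ((isCompact_closedBall 0 1).of_isClosed_subset
    isClosed_unitary fun U hU => mem_closedBall_zero_iff.2 (KerEx_norm ⟨U, hU⟩))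

/-- A right invariant probability measure on the unitary group. -/
theorem KerEx_haar : ∃ h : Measure (KerEx_U n), IsProbabilityMeasure h ∧ h.IsMulRightInvariant := by
  have := KerEx_star (n := n)
  have := KerEx_compact (n := n)
  have h1 : IsProbabilityMeasure (Measure.haarMeasure (⊤ : TopologicalSpace.PositiveCompacts
    (KerEx_U n))) := ⟨Measure.haarMeasure_self⟩
  exact ⟨(Measure.haarMeasure ⊤).inv, Measure.isProbabilityMeasure_map measurable_inv.aemeasurable,
    inferInstance⟩

/-- The unitary group acts transitively on spheres. -/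
theorem KerEx_trans {x y : E n} (h : ‖x‖ = ‖y‖) :
    ∃ V : KerEx_U n, (V : E n →L[ℂ] E n) x = y := by
  have key : ∀ x y : E n, ‖x‖ = 1 → ‖y‖ = 1 → ∃ V : KerEx_U n, (V : E n →L[ℂ] E n) x = y := by
    intro x y hx hy
    let L : (ℂ ∙ x) →ₗᵢ[ℂ] E n := (ℂ ∙ y).subtypeₗᵢ.comp
      ((LinearIsometryEquiv.toSpanUnitSingleton x hx).symm.trans
        (LinearIsometryEquiv.toSpanUnitSingleton y hy)).toLinearIsometry
    refine ⟨Unitary.linearIsometryEquiv.symm (L.extend.toLinearIsometryEquiv rfl), ?_⟩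
    have h1 := L.extend_apply (LinearIsometryEquiv.toSpanUnitSingleton x hx 1)
    simpa [L, -LinearIsometryEquiv.toSpanUnitSingleton_apply] using
      (by simp : L.extend x = _).trans (h1.trans (by
        simp only [L, LinearIsometry.coe_comp, LinearIsometryEquiv.coe_toLinearIsometry,
          Function.comp_apply, LinearIsometryEquiv.trans_apply,
          LinearIsometryEquiv.symm_apply_apply]
        simp : _ = y))
  rcases eq_or_ne x 0 with rfl | hx
  · exact ⟨1, by rw [map_zero, eq_comm, ← norm_eq_zero, ← h, norm_zero]⟩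
  · have h0 : (‖x‖ : ℂ) ≠ 0 := ofReal_ne_zero.2 (norm_ne_zero_iff.2 hx)
    obtain ⟨V, hV⟩ := key ((‖x‖ : ℂ)⁻¹ • x) ((‖x‖ : ℂ)⁻¹ • y) (by simp [norm_smul, hx])
      (by simp [norm_smul, ← h, hx])
    rw [map_smul] at hV
    exact ⟨V, smul_right_injective _ (inv_ne_zero h0) hV⟩

/-- A radial density is invariant under the unitary group. -/
theorem KerEx_inv {f : E n → ℝ≥0∞} (hf : Measurable f) (hr : ∀ x y, ‖x‖ = ‖y‖ → f x = f y)
    (U : KerEx_U n) {s : Set (E n)} (hs : MeasurableSet s) :
    volume.withDensity f ((U : E n →L[ℂ] E n) ⁻¹' s) = volume.withDensity f s := by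
  let V : E n ≃ₗᵢ[ℝ] E n :=
    { (Unitary.linearIsometryEquiv U).toLinearEquiv.restrictScalars ℝ with
      norm_map' := Unitary.norm_map U }
  rw [withDensity_apply _ hs, withDensity_apply _ ((U : E n →L[ℂ] E n).continuous.measurable hs),
    ← V.measurePreserving.setLIntegral_comp_preimage hs hf]
  exact lintegral_congr fun x => hr _ _ (V.norm_map x).symm

theorem KerEx_law (μ : Measure (E n)) [IsProbabilityMeasure μ] (h : Measure (KerEx_U n))
    [IsProbabilityMeasure h] [h.IsMulRightInvariant] (hμ : ∀ (U : KerEx_U n) (s : Set (E n)),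
      MeasurableSet s → μ ((U : E n →L[ℂ] E n) ⁻¹' s) = μ s) (z : E n) :
    (μ.prod h).map (fun p => ‖p.1‖ • (p.2 : E n →L[ℂ] E n) z) = μ.map fun w => ‖z‖ • w := by
  ext s hs
  have h1 : Measurable fun p : E n × KerEx_U n => ‖p.1‖ • (p.2 : E n →L[ℂ] E n) z :=
    Continuous.measurable (by fun_prop)
  have h2 : Measurable fun p : E n × KerEx_U n => ‖z‖ • (p.2 : E n →L[ℂ] E n) p.1 :=
    Continuous.measurable (by fun_prop)
  have h3 : Measurable fun w : E n => ‖z‖ • w := Continuous.measurable (by fun_prop)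
  rw [Measure.map_apply h1 hs, Measure.map_apply h3 hs, Measure.prod_apply (h1 hs)]
  trans μ.prod h ((fun p => ‖z‖ • (p.2 : E n →L[ℂ] E n) p.1) ⁻¹' s)
  · rw [Measure.prod_apply (h2 hs)]
    refine lintegral_congr fun w => ?_
    obtain ⟨V, hV⟩ := KerEx_trans (x := ‖w‖ • z) (y := ‖z‖ • w) (by simp [norm_smul, mul_comm])
    rw [← measure_preimage_mul_right h V]
    congr 1
    ext U
    simp only [mem_preimage, Submonoid.coe_mul, ContinuousLinearMap.mul_apply]
    rw [← ContinuousLinearMap.map_smul_of_tower, ← ContinuousLinearMap.map_smul_of_tower, hV,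
      ContinuousLinearMap.map_smul_of_tower]
  · rw [Measure.prod_apply_symm (h2 hs), ← mul_one (μ _), ← measure_univ (μ := h),
      ← lintegral_const]
    exact lintegral_congr fun U => hμ U _ (h3 hs)

/-- A smooth radial probability density with support the unit ball. -/
theorem KerEx_dens : ∃ k : E n → ℝ, ContDiff ℝ ∞ k ∧ (∀ w, 0 ≤ k w) ∧ (∀ w, 0 < k w ↔ ‖w‖ < 1) ∧
    (∀ x y, ‖x‖ = ‖y‖ → k x = k y) ∧
    IsProbabilityMeasure (volume.withDensity fun w => ENNReal.ofReal (k w)) := by
  obtain ⟨g, hg⟩ : ∃ g : E n → ℝ, g = fun w => expNegInvGlue (1 - ‖w‖ ^ 2) := ⟨_, rfl⟩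
  have h1 : ContDiff ℝ ∞ g := hg ▸ expNegInvGlue.contDiff.comp
    (contDiff_const.sub (contDiff_norm_sq ℝ))
  have h2 : ∀ w, 0 ≤ g w := fun w => hg ▸ expNegInvGlue.nonneg _
  have h3 : ∀ w, 0 < g w ↔ ‖w‖ < 1 := fun w => by
    rw [(h2 w).lt_iff_ne', hg, Ne, expNegInvGlue.zero_iff_nonpos, not_le, sub_pos,
      sq_lt_one_iff₀ (norm_nonneg _)]
  have h4 : HasCompactSupport g := HasCompactSupport.intro (isCompact_closedBall 0 1)
    fun w hw => le_antisymm (not_lt.1 fun h => hw (mem_closedBall_zero_iff.2 ((h3 w).1 h).le))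
      (h2 w)
  have h5 : 0 < ∫ w, g w := h1.continuous.integral_pos_of_hasCompactSupport_nonneg_nonzero h4 h2
    (x := 0) ((h3 0).2 (by simp)).ne'
  refine ⟨fun w => (∫ w, g w)⁻¹ * g w, contDiff_const.mul h1,
    fun w => mul_nonneg (inv_pos.2 h5).le (h2 w),
    fun w => (mul_pos_iff_of_pos_left (inv_pos.2 h5)).trans (h3 w), fun x y h => ?_, ⟨?_⟩⟩
  · simp only [hg, h]
  · rw [withDensity_apply _ MeasurableSet.univ, Measure.restrict_univ,
      ← ofReal_integral_eq_lintegral_ofReal
        ((h1.continuous.integrable_of_hasCompactSupport h4).const_mul _)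
        (Eventually.of_forall fun w => mul_nonneg (inv_pos.2 h5).le (h2 w)),
      integral_const_mul, inv_mul_cancel₀ h5.ne', ENNReal.ofReal_one]

/-- The kernel is the law of `‖w‖ • U`, where `w` has a smooth radial density and `U` is an
independent unitary operator with the Haar law. -/
theorem exists_ker (hn : 1 ≤ n) : Nonempty (Ker n) := by
  obtain ⟨k, h1, h2, h3, h4, h5⟩ := KerEx_dens (n := n)
  obtain ⟨h, h6, h7⟩ := KerEx_haar (n := n)
  have h8 : Measurable fun w => ENNReal.ofReal (k w) := h1.continuous.measurable.ennreal_ofReal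
  have h9 : Measurable fun p : E n × KerEx_U n => ‖p.1‖ • (p.2 : E n →L[ℂ] E n) :=
    Continuous.measurable (by fun_prop)
  have h10 : ∀ p : E n × KerEx_U n, ‖‖p.1‖ • (p.2 : E n →L[ℂ] E n)‖ ≤ ‖p.1‖ := fun p => by
    rw [norm_smul, norm_norm]
    exact mul_le_of_le_one_right (norm_nonneg _) (KerEx_norm _)
  refine ⟨⟨((volume.withDensity fun w => ENNReal.ofReal (k w)).prod h).map
    fun p => ‖p.1‖ • (p.2 : E n →L[ℂ] E n), k, Measure.isProbabilityMeasure_map h9.aemeasurable,
    ?_, fun ε hε => ?_, h1, h2, h3, fun c hc w => h4 _ _ (by rw [norm_smul, hc, one_mul]),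
    fun z _ => ?_⟩⟩
  · rw [ae_map_iff h9.aemeasurable (measurableSet_le measurable_norm measurable_const)]
    have : ∀ᵐ w ∂(volume.withDensity fun w => ENNReal.ofReal (k w)), ‖w‖ ≤ 1 :=
      (ae_withDensity_iff h8).2 (Eventually.of_forall fun w hw =>
        ((h3 w).1 (ENNReal.ofReal_ne_zero_iff.1 hw)).le)
    filter_upwards [Measure.quasiMeasurePreserving_fst.ae this] with p hp
    exact (h10 p).trans hp
  · rw [Measure.map_apply h9 measurableSet_ball]
    refine lt_of_lt_of_le ?_ (measure_mono (s := ball 0 ε ×ˢ univ) fun p hp =>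
      mem_ball_zero_iff.2 ((h10 p).trans_lt (mem_ball_zero_iff.1 hp.1)))
    rw [Measure.prod_prod, measure_univ, mul_one, pos_iff_ne_zero, Ne,
      withDensity_apply_eq_zero h8]
    refine ((measure_ball_pos volume (0 : E n) (lt_min hε one_pos)).trans_le
      (measure_mono fun w hw => ?_)).ne'
    rw [mem_ball_zero_iff, lt_min_iff] at hw
    exact ⟨ENNReal.ofReal_ne_zero_iff.2 ((h3 w).2 hw.2), mem_ball_zero_iff.2 hw.1⟩
  · rw [Measure.map_map (Continuous.measurable (by fun_prop)) h9]
    exact KerEx_law _ h (fun U s hs => KerEx_inv h8 (fun x y e => by rw [h4 x y e]) U hs) z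

end Pool.Agent.Lib.MP_a47f92_an
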