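import Pool.Agent.Lib.MP_a47f92_an.Sm3
import Pool.Agent.Lib.MP_a47f92_an.KerEx
import Pool.Agent.Lib.MP_a47f92_an.Ball

set_option autoImplicit false
set_option linter.unusedSectionVars false

/-! Approximation of potentials by smooth potentials. -/

namespace Pool.Agent.Lib.MP_a47f92_an

open MeasureTheory Filter Topology Set Complex Metric Function
open scoped ContDiff ComplexConjugate ComplexOrder Matrix ENNReal NNReal

variable {n : ℕ}

variable {u g : E n → ℝ}

theorem ApproxA_bump {K : Set (E n)} (hK : IsCompact K) (h0 : (0 : E n) ∉ K) :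
    ∃ h : E n → ℝ, IsCC h ∧ (∀ z, 0 ≤ h z) ∧ ∀ z ∈ K, h z = 1 := by
  obtain ⟨δ, hδ, hb⟩ := Metric.nhds_basis_closedBall.mem_iff.1
    (hK.isClosed.isOpen_compl.mem_nhds h0)
  obtain ⟨f, h1, h2, h3, h4⟩ := exists_continuous_one_zero_of_isCompact hK
    (isClosed_closedBall (x := (0 : E n)) (ε := δ)) (Set.disjoint_left.2 fun z hz hz' => hb hz' hz)
  refine ⟨f, ⟨f.continuous, h3, ?_⟩, fun z => (h4 z).1, fun z hz => h1 hz⟩
  rw [notMem_tsupport_iff_eventuallyEq]
  filter_upwards [closedBall_mem_nhds (0 : E n) hδ] with z hz using h2 hz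

theorem ApproxA_l1 {p : ℕ → E n → ℝ} (hu : LocallyIntegrable u) (hp : ∀ i, LocallyIntegrable (p i))
    (hle : ∀ i, ∀ᵐ z, u z ≤ p i z)
    (hw : ∀ h, IsCC h → Tendsto (fun i => ∫ z, p i z * h z) atTop (𝓝 (∫ z, u z * h z)))
    {K : Set (E n)} (hK : IsCompact K) (h0 : (0 : E n) ∉ K) :
    Tendsto (fun i => ∫ z in K, |p i z - u z|) atTop (𝓝 0) := by
  obtain ⟨h, hh, h1, h2⟩ := ApproxA_bump hK h0
  have h3 := (hw h hh).sub_const (∫ z, u z * h z)
  rw [sub_self] at h3
  refine squeeze_zero (fun i => integral_nonneg fun z => abs_nonneg _) (fun i => ?_) h3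
  have hi1 := hh.integrable_mul (hp i)
  have hi2 := hh.integrable_mul hu
  rw [← integral_sub hi1 hi2, ← integral_indicator hK.measurableSet]
  refine integral_mono_of_nonneg (Eventually.of_forall fun z => ?_) (hi1.sub hi2) ?_
  · exact indicator_nonneg (fun z _ => abs_nonneg _) z
  · filter_upwards [hle i] with z hz
    by_cases hzK : z ∈ K
    · rw [indicator_of_mem hzK, h2 z hzK, abs_of_nonneg (sub_nonneg.2 hz)]
      simp
    · rw [indicator_of_notMem hzK, ← sub_mul]
      exact mul_nonneg (sub_nonneg.2 hz) (h1 z)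

/-- Take `p i = sm κ (r i) u` with `r i → 0`. Since `u ≤ p i`, for a compact `K` avoiding `0` and
`h ≥ 0` in `IsCC` with `h = 1` on `K`, `∫_K |p i - u| ≤ ∫ (p i - u) h → 0`. Upper bound: `submean`
on `ball x (1 / 4)`. Lower bound at the maximum point `x` of `p i` on the sphere: on the annulus
`1 / 2 ≤ ‖z‖ ≤ 1` we have `u ≤ p i ≤ p i x` almost everywhere, so the mean of `u` is at most `p i x`.
The last property: `exists_room` with `r = 0`, `sm_wph`, `hess_eq_zero_of_wph`. -/
theorem exists_approx (hn : 1 ≤ n) (hu : IsPot u) : ∃ (p : ℕ → E n → ℝ) (C : ℝ),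
    (∀ i, SPot (p i)) ∧ (∀ i, ∀ᵐ z, u z ≤ p i z) ∧ (∀ i x, ‖x‖ = 1 → p i x ≤ C) ∧
    (∀ i, ∃ x, ‖x‖ = 1 ∧ -C ≤ p i x) ∧
    (∀ h, IsCC h → Tendsto (fun i => ∫ z, p i z * h z) atTop (𝓝 (∫ z, u z * h z))) ∧
    (∀ K, IsCompact K → (0 : E n) ∉ K →
      Tendsto (fun i => ∫ z in K, |p i z - u z|) atTop (𝓝 0)) ∧
    ∀ N K, IsOpen N → WPh u N → IsCompact K → K ⊆ N → (0 : E n) ∉ K →
      ∀ᶠ i in atTop, ∀ z ∈ K, hess (p i) z = 0 := by
  obtain ⟨κ⟩ := exists_ker hn
  let r : ℕ → ℝ := fun i => 1 / ((i : ℝ) + 1) / 2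
  have hr0 : ∀ i, 0 < r i := fun i => by positivity
  have hr1 : ∀ i, r i < 1 := fun i => by
    have h1 : 1 / ((i : ℝ) + 1) ≤ 1 := by
      rw [div_le_one (by positivity)]
      linarith [(Nat.cast_nonneg i : (0 : ℝ) ≤ i)]
    simp only [r]
    linarith
  have hrt : Tendsto r atTop (𝓝[>] 0) := by
    refine tendsto_nhdsWithin_iff.2 ⟨?_, Eventually.of_forall hr0⟩
    have := (tendsto_one_div_add_atTop_nhds_zero_nat (𝕜 := ℝ)).div_const 2
    rwa [zero_div] at this
  let p : ℕ → E n → ℝ := fun i => sm κ (r i) u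
  have hsp : ∀ i, SPot (p i) := fun i => IsPot.sm_spot κ hn (hr0 i) (hr1 i) hu
  have hpi : ∀ i, LocallyIntegrable (p i) := fun i => sm_locInt κ hn (hr0 i) (hr1 i) hu.int
  have hle : ∀ i, ∀ᵐ z, u z ≤ p i z := fun i => by
    filter_upwards [sm_ge κ hn (hr0 i) (hr1 i) hu.int isOpen_univ (hu.wpsh univ) isOpen_univ
      (fun _ _ _ => subset_univ _)] with z hz using hz (mem_univ z)
  have hw : ∀ h, IsCC h → Tendsto (fun i => ∫ z, p i z * h z) atTop (𝓝 (∫ z, u z * h z)) :=
    fun h hh => (sm_weak_tendsto κ hn hu.int hh).comp hrt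
  have hl1 : ∀ K, IsCompact K → (0 : E n) ∉ K →
      Tendsto (fun i => ∫ z in K, |p i z - u z|) atTop (𝓝 0) :=
    fun K hK h0 => ApproxA_l1 hu.int hpi hle hw hK h0
  let K₀ : Set (E n) := closedBall 0 2 \ ball 0 (1 / 2)
  have hK₀ : IsCompact K₀ := (isCompact_closedBall _ _).diff isOpen_ball
  have h0K : (0 : E n) ∉ K₀ := fun h => h.2 (mem_ball_self (by norm_num))
  obtain ⟨B, hB⟩ := (hl1 K₀ hK₀ h0K).bddAbove_range
  have hB' : ∀ i, ∫ z in K₀, |p i z - u z| ≤ B := fun i => hB ⟨i, rfl⟩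
  let v : ℝ := volume.real (ball (0 : E n) (1 / 4))
  have hv : 0 < v := ENNReal.toReal_pos (measure_ball_pos _ _ (by norm_num)).ne'
    measure_ball_lt_top.ne
  have hvx : ∀ x : E n, volume.real (ball x (1 / 4)) = v := fun x => by
    simp only [v, Measure.real]
    rw [Measure.addHaar_ball_center]
  have hup : ∀ i x, ‖x‖ = 1 → p i x ≤ v⁻¹ * (B + ∫ z in K₀, |u z|) := by
    intro i x hx
    have hsub : closedBall x (1 / 4) ⊆ K₀ := by
      intro z hz
      rw [mem_closedBall, dist_eq_norm] at hz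
      have h1 := abs_norm_sub_norm_le z x
      rw [hx, abs_le] at h1
      refine ⟨mem_closedBall_zero_iff.2 (by linarith [h1.2]), fun h => ?_⟩
      rw [mem_ball_zero_iff] at h
      linarith [h1.1]
    have h1 := submean isOpen_compl_singleton (hsp i).smooth (fun y hy => (hsp i).psh y hy)
      (by norm_num : (0 : ℝ) < 1 / 4) (fun z hz (h : z = 0) => h0K (h ▸ hsub hz))
    refine h1.trans ?_
    rw [setAverage_eq, smul_eq_mul, hvx]
    refine mul_le_mul_of_nonneg_left ?_ (inv_nonneg.2 hv.le)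
    have hi1 : IntegrableOn (p i) K₀ := (hpi i).integrableOn_isCompact hK₀
    have hi2 : IntegrableOn u K₀ := hu.int.integrableOn_isCompact hK₀
    have hb := ball_subset_closedBall.trans hsub
    calc ∫ z in ball x (1 / 4), p i z ≤ ∫ z in ball x (1 / 4), |p i z| :=
          integral_mono (hi1.mono_set hb) (hi1.mono_set hb).abs fun z => le_abs_self _
      _ ≤ ∫ z in K₀, |p i z| :=
          setIntegral_mono_set hi1.abs (Eventually.of_forall fun z => abs_nonneg _) hb.eventuallyLE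
      _ ≤ ∫ z in K₀, (|p i z - u z| + |u z|) := by
          refine integral_mono hi1.abs ((hi1.sub hi2).abs.add hi2.abs) fun z => ?_
          have := abs_add_le (p i z - u z) (u z)
          rwa [sub_add_cancel] at this
      _ ≤ B + ∫ z in K₀, |u z| := by
          have h5 : IntegrableOn (fun z => |p i z - u z|) K₀ := (hi1.sub hi2).abs
          rw [integral_add h5 hi2.abs]
          linarith [hB' i]
  let y : E n := (3 / 4 : ℝ) • ev ⟨0, hn⟩
  have hy : ‖y‖ = 3 / 4 := by
    simp only [y, ev]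
    rw [norm_smul, EuclideanSpace.norm_single]
    norm_num
  have hlow : ∀ i, ∃ x, ‖x‖ = 1 ∧ ⨍ z in ball y (1 / 4), u z ≤ p i x := by
    intro i
    have hi1 : IntegrableOn (p i) (ball y (1 / 4)) :=
      ((hpi i).integrableOn_isCompact (isCompact_closedBall y (1 / 4))).mono_set
        ball_subset_closedBall
    have hi2 : IntegrableOn u (ball y (1 / 4)) :=
      (hu.int.integrableOn_isCompact (isCompact_closedBall y (1 / 4))).mono_set
        ball_subset_closedBall
    obtain ⟨z, hz, h1⟩ := exists_setAverage_le (measure_ball_pos volume y (by norm_num)).ne'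
      measure_ball_lt_top.ne hi1
    rw [mem_ball, dist_eq_norm] at hz
    have h2 := abs_norm_sub_norm_le z y
    rw [hy, abs_le] at h2
    have hz0 : 0 < ‖z‖ := by linarith [h2.1]
    have hz1 : ‖z‖ ≤ 1 := by linarith [h2.2]
    have hc : ((‖z‖⁻¹ : ℝ) : ℂ) ≠ 0 := by exact_mod_cast (inv_pos.2 hz0).ne'
    refine ⟨((‖z‖⁻¹ : ℝ) : ℂ) • z, ?_, ?_⟩
    · rw [norm_smul, Complex.norm_real, norm_inv, norm_norm, inv_mul_cancel₀ hz0.ne']
    · rw [(hsp i).hom _ hc z (norm_pos_iff.1 hz0), Complex.norm_real, norm_inv, norm_norm, one_mul]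
      have h3 : 0 ≤ Real.log ‖z‖⁻¹ := Real.log_nonneg (one_le_inv₀ hz0 |>.2 hz1)
      have h4 : ⨍ z in ball y (1 / 4), u z ≤ ⨍ z in ball y (1 / 4), p i z := by
        rw [setAverage_eq, setAverage_eq, smul_eq_mul, smul_eq_mul]
        exact mul_le_mul_of_nonneg_left (integral_mono_ae hi2 hi1 (ae_restrict_of_ae (hle i)))
          (inv_nonneg.2 measureReal_nonneg)
      linarith
  refine ⟨p, max (v⁻¹ * (B + ∫ z in K₀, |u z|)) (-⨍ z in ball y (1 / 4), u z), hsp, hle,
    fun i x hx => (hup i x hx).trans (le_max_left _ _), fun i => ?_, hw, hl1, ?_⟩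
  · obtain ⟨x, hx, h1⟩ := hlow i
    refine ⟨x, hx, le_trans ?_ h1⟩
    rw [neg_le]
    exact le_max_right _ _
  · intro N K hN hph hK hKN h0
    obtain ⟨Ω₁, ho, h01, hK1, hev⟩ := exists_room (r := 0) le_rfl zero_lt_one hN hK h0
      (fun z hz => by simpa using hKN hz)
    filter_upwards [hrt.eventually hev] with i hi z hz
    have hz1 : z ∈ Ω₁ := by simpa using hK1 z hz
    exact hess_eq_zero_of_wph ho ((hsp i).smooth.mono fun _ h => h.2)
      (sm_wph κ hn (hr0 i) (hr1 i) hu.int hph fun y hy _ => hi y hy) hz1 (fun h => h0 (h ▸ hz))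

/-- `mean_lower` for the approximants and convergence in `L¹` of the ball. -/
theorem IsPot.mean_lower (hn : 2 ≤ n) (hu : IsPot u) : ∃ C : ℝ, 0 ≤ C ∧ ∀ y : E n, ‖y‖ = 1 →
    ∀ r : ℝ, 0 < r → r ≤ 1 / 2 → -(C * (1 + Real.log r⁻¹)) ≤ ⨍ q in ball y r, u q := by
  have hn1 : 1 ≤ n := by omega
  obtain ⟨p, C, hsp, -, -, hlow, -, hl1, -⟩ := exists_approx hn1 hu
  obtain ⟨C₀, hC₀, hm⟩ := Pool.Agent.Lib.MP_a47f92_an.mean_lower hn
  refine ⟨|C| + C₀, by positivity, fun y hy r hr hr2 => ?_⟩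
  have hlog : 0 ≤ Real.log r⁻¹ := Real.log_nonneg ((one_le_inv₀ hr).2 (by linarith))
  have hK := isCompact_closedBall y r
  have h0 : (0 : E n) ∉ closedBall y r := by
    rw [mem_closedBall, dist_zero_left, hy]
    linarith
  have hi2 : IntegrableOn u (closedBall y r) := hu.int.integrableOn_isCompact hK
  have ht : Tendsto (fun i => ∫ q in ball y r, p i q) atTop (𝓝 (∫ q in ball y r, u q)) := by
    rw [tendsto_iff_norm_sub_tendsto_zero]
    refine squeeze_zero (fun i => norm_nonneg _) (fun i => ?_) (hl1 _ hK h0)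
    have hi1 : IntegrableOn (p i) (closedBall y r) :=
      ((hsp i).isPot hn1).int.integrableOn_isCompact hK
    rw [← integral_sub (hi1.mono_set ball_subset_closedBall) (hi2.mono_set ball_subset_closedBall)]
    refine (norm_integral_le_integral_norm _).trans ?_
    exact setIntegral_mono_set (hi1.sub hi2).abs (Eventually.of_forall fun z => abs_nonneg _)
      ball_subset_closedBall.eventuallyLE
  have ht' : Tendsto (fun i => ⨍ q in ball y r, p i q) atTop (𝓝 (⨍ q in ball y r, u q)) := by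
    simp only [setAverage_eq, smul_eq_mul]
    exact ht.const_mul _
  refine ge_of_tendsto' ht' fun i => ?_
  obtain ⟨x, hx, h1⟩ := hlow i
  refine le_trans ?_ (hm (p i) (hsp i) x y hx hy r hr (by linarith))
  have h2 : |C| ≤ |C| * (1 + Real.log r⁻¹) := le_mul_of_one_le_right (abs_nonneg _) (by linarith)
  have h3 := le_abs_self C
  nlinarith

end Pool.Agent.Lib.MP_a47f92_an
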