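import Pool.Agent.Lib.MP_a47f92_an.Lift

set_option autoImplicit false
set_option linter.unusedSectionVars false

/-! The area formula. -/

namespace Pool.Agent.Lib.MP_a47f92_an

open MeasureTheory Filter Topology Set Complex Metric Function
open scoped ContDiff ComplexConjugate ComplexOrder Matrix ENNReal NNReal

variable {n : ℕ}

variable {d : ℕ} {F : E n → E n} {g g' : E n → ℝ}

theorem Area_hasF (hF : IsLift d F) (s : Set (E n)) (z : E n) :
    HasFDerivWithinAt F ((fderiv ℂ F z).restrictScalars ℝ) s z :=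
  ((hF.differentiable z).hasFDerivAt.restrictScalars ℝ).hasFDerivWithinAt

theorem Area_det (F : E n → E n) (z : E n) :
    |((fderiv ℂ F z).restrictScalars ℝ).det| = jac F z := by
  rw [det_restrict, jac, abs_of_nonneg (sq_nonneg _)]

/-- Images of null sets are null (`addHaar_image_eq_zero_of_differentiableOn_of_addHaar_eq_zero`). -/
theorem ae_fib (hF : IsLift d F) {P : E n → Prop} (h : ∀ᵐ z, P z) :
    ∀ᵐ q, ∀ w, F w = q → P w := by
  have h1 : volume (F '' {z | ¬ P z}) = 0 :=
    addHaar_image_eq_zero_of_differentiableOn_of_addHaar_eq_zero volume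
      (fun z _ => (Area_hasF hF _ z).differentiableWithinAt) (ae_iff.1 h)
  filter_upwards [measure_eq_zero_iff_ae_notMem.1 h1] with q hq w hw
  by_contra hp
  exact hq ⟨w, hp, hw⟩

/-- Sard (`addHaar_image_eq_zero_of_det_fderivWithin_eq_zero`, `det_restrict`); a fibre made of
regular points is compact and discrete. -/
theorem ae_good (hF : IsLift d F) (hd : 1 ≤ d) :
    ∀ᵐ q, (F ⁻¹' {q}).Finite ∧ F ⁻¹' {q} ⊆ Reg F := by
  have h1 : volume (F '' (Reg F)ᶜ) = 0 := by
    refine addHaar_image_eq_zero_of_det_fderivWithin_eq_zero volume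
      (f' := fun z => (fderiv ℂ F z).restrictScalars ℝ) (fun z _ => Area_hasF hF _ z) ?_
    intro z hz
    have hz' : (fderiv ℂ F z).det = 0 := not_not.1 hz
    rw [det_restrict, hz']
    simp
  filter_upwards [measure_eq_zero_iff_ae_notMem.1 h1] with q hq
  have hsub : F ⁻¹' {q} ⊆ Reg F := fun w hw => by
    by_contra hp
    exact hq ⟨w, hp, hw⟩
  refine ⟨?_, hsub⟩
  have hc : IsCompact (F ⁻¹' {q}) := hF.isCompact_preimage hd isCompact_singleton
  have hloc : ∀ z ∈ F ⁻¹' {q}, ∃ U ∈ 𝓝 z, InjOn F U := fun z hz => by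
    obtain ⟨e, he, hef⟩ := hF.exists_local (hsub hz)
    exact ⟨e.source, e.open_source.mem_nhds he, hef ▸ e.injOn⟩
  choose! U hU hUi using hloc
  obtain ⟨t, ht, hcov⟩ := hc.elim_nhds_subcover U hU
  refine t.finite_toSet.subset fun w hw => ?_
  obtain ⟨z, hz, hwz⟩ := mem_iUnion₂.1 (hcov hw)
  have hzq := ht z hz
  have : w = z := hUi z hzq hwz (mem_of_mem_nhds (hU z hzq)) (by
    rw [mem_preimage, mem_singleton_iff] at hw hzq
    rw [hw, hzq])
  rw [this]
  exact hz

/-- A countable measurable partition of the regular set into pieces on which `F` is injective. -/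
theorem exists_pieces (hF : IsLift d F) : ∃ P : ℕ → Set (E n), (∀ i, MeasurableSet (P i)) ∧
    Pairwise (Disjoint on P) ∧ (⋃ i, P i) = Reg F ∧ ∀ i, InjOn F (P i) := by
  let S : Set (Set (E n)) := {U | IsOpen U ∧ U ⊆ Reg F ∧ InjOn F U}
  obtain ⟨T, hTc, hTS, hT⟩ := TopologicalSpace.isOpen_sUnion_countable S fun U hU => hU.1
  have hS : ⋃₀ S = Reg F := by
    refine Subset.antisymm (sUnion_subset fun U hU => hU.2.1) fun z hz => ?_
    obtain ⟨e, he, hef⟩ := hF.exists_local hz
    exact ⟨e.source ∩ Reg F, ⟨e.open_source.inter hF.isOpen_reg, inter_subset_right,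
      (hef ▸ e.injOn).mono inter_subset_left⟩, he, hz⟩
  obtain ⟨V, hV⟩ := (hTc.insert ∅).exists_eq_range (insert_nonempty _ _)
  have hVS : ∀ i, V i ∈ S := fun i => by
    have : V i ∈ insert ∅ T := hV ▸ mem_range_self i
    rcases this with h | h
    · rw [h]
      exact ⟨isOpen_empty, empty_subset _, injOn_empty _⟩
    · exact hTS h
  refine ⟨disjointed V, MeasurableSet.disjointed fun i => (hVS i).1.measurableSet,
    disjoint_disjointed V, ?_, fun i => (hVS i).2.2.mono (disjointed_subset V i)⟩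
  rw [iUnion_disjointed, ← sUnion_range, ← hV, sUnion_insert, empty_union, hT, hS]

/-- Change of variables on a set of injectivity. -/
theorem integral_image_lift (hF : IsLift d F) {s : Set (E n)} (hs : MeasurableSet s)
    (hi : InjOn F s) (g : E n → ℝ) : ∫ q in F '' s, g q = ∫ z in s, jac F z * g (F z) := by
  rw [integral_image_eq_integral_abs_det_fderiv_smul volume hs (fun z _ => Area_hasF hF s z) hi g]
  simp only [Area_det, smul_eq_mul]

theorem Area_piece (hF : IsLift d F) {s : Set (E n)} (hs : MeasurableSet s) (hi : InjOn F s)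
    {g : E n → ℝ≥0∞} (hg : Measurable g) :
    Measurable (fun q => ∑' w, (s ∩ F ⁻¹' {q}).indicator g w) ∧
    ∫⁻ q, ∑' w, (s ∩ F ⁻¹' {q}).indicator g w = ∫⁻ z in s, ENNReal.ofReal (jac F z) * g z := by
  have he : MeasurableEmbedding (s.domRestrict F) :=
    measurableEmbedding_of_fderivWithin hs (fun z _ => Area_hasF hF s z) hi
  have h1 : ∀ z ∈ s, ∑' w, (s ∩ F ⁻¹' {F z}).indicator g w = g z := fun z hz => by
    rw [tsum_eq_single z, indicator_of_mem (show z ∈ s ∩ F ⁻¹' {F z} from ⟨hz, rfl⟩)]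
    intro w hw
    exact indicator_of_notMem (fun h => hw (hi h.1 hz h.2)) _
  have h0 : ∀ q, q ∉ F '' s → ∑' w, (s ∩ F ⁻¹' {q}).indicator g w = 0 := fun q hq => by
    rw [ENNReal.tsum_eq_zero]
    intro w
    exact indicator_of_notMem (fun h => hq ⟨w, h.1, h.2⟩) _
  have hfun : (fun q => ∑' w, (s ∩ F ⁻¹' {q}).indicator g w) =
      extend (s.domRestrict F) (fun z : s => g z) fun _ => 0 := by
    funext q
    by_cases hq : q ∈ F '' s
    · obtain ⟨z, hz, rfl⟩ := hq
      rw [h1 z hz]
      exact (he.injective.extend_apply (fun z : s => g z) (fun _ => 0) ⟨z, hz⟩).symm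
    · rw [h0 q hq, extend_apply']
      rintro ⟨z, hz⟩
      exact hq ⟨z, z.2, hz⟩
  refine ⟨hfun ▸ he.measurable_extend (hg.comp measurable_subtype_coe) measurable_const, ?_⟩
  have hm : MeasurableSet (F '' s) :=
    measurable_image_of_fderivWithin hs (fun z _ => Area_hasF hF s z) hi
  rw [← setLIntegral_eq_of_support_subset (s := F '' s) fun q hq => by
      by_contra h
      exact hq (h0 q h),
    lintegral_image_eq_lintegral_abs_det_fderiv_mul volume hs (fun z _ => Area_hasF hF s z) hi]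
  refine setLIntegral_congr_fun hs fun z hz => ?_
  simp only [Area_det, h1 z hz]

/-- Area formula for nonnegative functions. On a piece `P i` let `g i = g ∘ invFunOn F (P i)` on
`F '' P i` and `0` elsewhere; it is measurable (`MeasurableSet.image_of_continuousOn_injOn`,
`MeasurableEmbedding.measurable_extend`) and the fibre sum is `∑' i, g i q`. -/
theorem area_lintegral (hF : IsLift d F) {g : E n → ℝ≥0∞} (hg : Measurable g) :
    Measurable (fun q => ∑' w, (Reg F ∩ F ⁻¹' {q}).indicator g w) ∧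
    ∫⁻ q, ∑' w, (Reg F ∩ F ⁻¹' {q}).indicator g w = ∫⁻ z, ENNReal.ofReal (jac F z) * g z := by
  obtain ⟨P, hPm, hPd, hPu, hPi⟩ := exists_pieces hF
  have hsum : ∀ q, ∑' w, (Reg F ∩ F ⁻¹' {q}).indicator g w =
      ∑' i, ∑' w, (P i ∩ F ⁻¹' {q}).indicator g w := fun q => by
    rw [ENNReal.tsum_comm]
    refine tsum_congr fun w => ?_
    by_cases hw : w ∈ Reg F ∩ F ⁻¹' {q}
    · obtain ⟨i, hi⟩ := mem_iUnion.1 (hPu.symm ▸ hw.1 : w ∈ ⋃ i, P i)
      rw [indicator_of_mem hw, tsum_eq_single i,
        indicator_of_mem (show w ∈ P i ∩ F ⁻¹' {q} from ⟨hi, hw.2⟩)]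
      intro j hj
      exact indicator_of_notMem (fun h => Set.disjoint_left.1 (hPd hj) h.1 hi) _
    · rw [indicator_of_notMem hw, eq_comm, ENNReal.tsum_eq_zero]
      intro i
      exact indicator_of_notMem (fun h => hw ⟨hPu ▸ mem_iUnion.2 ⟨i, h.1⟩, h.2⟩) _
  have hp := fun i => Area_piece hF (hPm i) (hPi i) hg
  simp only [hsum]
  refine ⟨Measurable.tsum fun i => (hp i).1, ?_⟩
  rw [lintegral_tsum fun i => (hp i).1.aemeasurable]
  simp only [fun i => (hp i).2]
  rw [← lintegral_iUnion hPm hPd, hPu]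
  refine setLIntegral_eq_of_support_subset fun z hz => ?_
  intro h
  apply hz
  simp [jac, h]

end Pool.Agent.Lib.MP_a47f92_an
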