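import Pool.Agent.Lib.MP_a47f92_an.Area2A

set_option autoImplicit false
set_option linter.unusedSectionVars false

/-! The trace of a function along the fibres. -/

namespace Pool.Agent.Lib.MP_a47f92_an

open MeasureTheory Filter Topology Set Complex Metric Function
open scoped ContDiff ComplexConjugate ComplexOrder Matrix ENNReal NNReal

variable {n : ℕ}

variable {d : ℕ} {F : E n → E n} {g g' : E n → ℝ}

theorem Area2_smul (hF : IsLift d F) {b : ℂ} (hb : b ≠ 0) (g : E n → ℝ) (q : E n) :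
    tr F g (b ^ d • q) = tr F (fun w => g (b • w)) q := by
  unfold tr
  symm
  refine finsum_mem_eq_of_bijOn (fun w => b • w) ⟨?_, ?_, ?_⟩ fun _ _ => rfl
  · intro w hw
    simp only [mem_preimage, mem_singleton_iff] at hw ⊢
    rw [hF.hom, hw]
  · intro w _ w' _ h
    exact smul_right_injective (E n) hb h
  · intro w hw
    simp only [mem_preimage, mem_singleton_iff] at hw
    refine ⟨b⁻¹ • w, ?_, ?_⟩
    · simp only [mem_preimage, mem_singleton_iff]
      rw [hF.hom, hw, smul_smul, ← mul_pow, inv_mul_cancel₀ hb, one_pow, one_smul]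
    · simp only [smul_smul, mul_inv_cancel₀ hb, one_smul]

theorem Area2_root (hd : 1 ≤ d) {a : ℂ} (ha : a ≠ 0) : ∃ b : ℂ, b ≠ 0 ∧ b ^ d = a := by
  obtain ⟨b, hb⟩ := IsAlgClosed.exists_pow_nat_eq a (show 0 < d from hd)
  refine ⟨b, ?_, hb⟩
  rintro rfl
  rw [zero_pow (by omega)] at hb
  exact ha hb.symm

/-- Write `a = b ^ d`; the fibre over `a • q` is `b •` the fibre over `q`. -/
theorem tr_lhom (hF : IsLift d F) (hd : 1 ≤ d) {c N : ℝ} (hg : LHom c g)
    (hN : ∀ᵐ q, tr F (fun _ => 1) q = N) : LHom (c * N / d) (tr F g) := by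
  intro a ha
  obtain ⟨b, hb, rfl⟩ := Area2_root hd ha
  have hd0 : (d : ℝ) ≠ 0 := Nat.cast_ne_zero.2 (by omega)
  filter_upwards [hN, ae_good hF hd, ae_fib hF (hg b hb)] with q h1 h2 h3
  rw [Area2_smul hF hb, tr_eq_sum h2.1, tr_eq_sum h2.1]
  rw [tr_eq_sum h2.1] at h1
  rw [Finset.sum_congr rfl (g := fun w => g w + c * Real.log ‖b‖ * 1) fun w hw => by
    rw [h3 w (by simpa using hw), mul_one]]
  rw [Finset.sum_add_distrib, ← Finset.mul_sum, h1, norm_pow, Real.log_pow]
  field_simp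

theorem tr_one_lhom (hF : IsLift d F) (hd : 1 ≤ d) : LHom 0 (tr F fun _ => 1) := by
  intro a ha
  obtain ⟨b, hb, rfl⟩ := Area2_root hd ha
  refine Eventually.of_forall fun q => ?_
  rw [Area2_smul hF hb, zero_mul, add_zero]

theorem tr_tendsto (hF : IsLift d F) (hd : 1 ≤ d) {gs : ℕ → E n → ℝ}
    (h : ∀ᵐ z, Tendsto (fun i => gs i z) atTop (𝓝 (g z))) :
    ∀ᵐ q, Tendsto (fun i => tr F (gs i) q) atTop (𝓝 (tr F g q)) := by
  filter_upwards [ae_good hF hd, ae_fib hF h] with q h2 h3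
  simp only [tr_eq_sum h2.1]
  exact tendsto_finsetSum _ fun w hw => h3 w (by simpa using hw)

theorem push_zero (d : ℕ) (F : E n → E n) (g : E n → ℝ) : push d F 0 g = g := by
  funext q
  simp [push, tr]

theorem push_one (d : ℕ) (F : E n → E n) (g : E n → ℝ) (q : E n) :
    push d F 1 g q = ((d : ℝ) ^ (n - 1))⁻¹ * tr F g q := by
  simp only [push, mul_one, iterate_one]

theorem push_succ (hF : IsLift d F) (hd : 1 ≤ d) (m : ℕ) (g : E n → ℝ) :
    push d F (m + 1) g =ᵐ[volume] push d F 1 (push d F m g) := by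
  filter_upwards [tr_comp hF hd (hF.iterate m) (Nat.one_le_pow _ _ hd) g] with q hq
  rw [push_one]
  have e : tr F (push d F m g) q = ((d : ℝ) ^ ((n - 1) * m))⁻¹ * tr F (tr F^[m] g) q :=
    tr_const_mul F _ _ q
  rw [e, ← hq, push, iterate_succ', mul_add, mul_one, pow_add, mul_inv]
  ring

theorem push_succ' (hF : IsLift d F) (hd : 1 ≤ d) (m : ℕ) (g : E n → ℝ) :
    push d F (m + 1) g =ᵐ[volume] push d F m (push d F 1 g) := by
  filter_upwards [tr_comp (hF.iterate m) (Nat.one_le_pow _ _ hd) hF hd g] with q hq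
  have e0 : push d F 1 g = fun z => ((d : ℝ) ^ (n - 1))⁻¹ * tr F g z := funext (push_one d F g)
  rw [e0, push, push, tr_const_mul, ← hq, iterate_succ, mul_add, mul_one, pow_add, mul_inv]
  ring

theorem push_locInt (hF : IsLift d F) (hd : 1 ≤ d) (m : ℕ) (hg : LocallyIntegrable g) :
    LocallyIntegrable (push d F m g) := by
  exact (tr_locInt (hF.iterate m) (Nat.one_le_pow _ _ hd) hg).smul
    (((d : ℝ) ^ ((n - 1) * m))⁻¹)

theorem push_mono (hF : IsLift d F) (hd : 1 ≤ d) (m : ℕ) (h : g ≤ᵐ[volume] g') :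
    push d F m g ≤ᵐ[volume] push d F m g' := by
  filter_upwards [tr_mono (hF.iterate m) (Nat.one_le_pow _ _ hd) h] with q hq
  exact mul_le_mul_of_nonneg_left hq (by positivity)

/-- If `T` is a set of regular preimages of `q`, then all points near `q` have at least `T.card`
preimages (`IsLift.exists_local`, disjoint neighbourhoods), and a neighbourhood is not null. -/
theorem card_le_of_tr (hF : IsLift d F) (hd : 1 ≤ d) {N : ℕ} (hN : ∀ᵐ q, tr F (fun _ => 1) q = N)
    (q : E n) (T : Finset (E n)) (h : ∀ w ∈ T, w ∈ Reg F ∧ F w = q) : T.card ≤ N := by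
  classical
  obtain ⟨U, hU, hdis⟩ := T.finite_toSet.t2_separation
  have hV : (⋂ w ∈ T, F '' U w) ∈ 𝓝 q := by
    rw [biInter_finset_mem]
    intro w hw
    obtain ⟨e, he, heF⟩ := hF.exists_local (h w hw).1
    have := e.image_mem_nhds he ((hU w).2.mem_nhds (hU w).1)
    rwa [heF, (h w hw).2] at this
  obtain ⟨q', ⟨h1, h2⟩, h3⟩ :=
    (Measure.dense_of_ae (hN.and (ae_good hF hd))).inter_nhds_nonempty hV
  have h4 : ∀ w, ∃ p, w ∈ T → p ∈ U w ∧ F p = q' := fun w => by
    by_cases hw : w ∈ T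
    · obtain ⟨p, hp⟩ := mem_iInter₂.1 h3 w hw
      exact ⟨p, fun _ => hp⟩
    · exact ⟨w, fun h' => absurd h' hw⟩
  choose p hp using h4
  rw [tr_eq_sum h2.1, Finset.sum_const, nsmul_eq_mul, mul_one, Nat.cast_inj] at h1
  rw [← h1]
  refine Finset.card_le_card_of_injOn p (fun w hw => ?_) fun w hw w' hw' hww => ?_
  · simpa using (hp w hw).2
  · by_contra hne
    exact Set.disjoint_left.1 (hdis hw hw' hne) (hp w hw).1 (hww ▸ (hp w' hw').1)

theorem reg_nonempty_of_tr (hF : IsLift d F) (hd : 1 ≤ d) {N : ℝ} (h0 : N ≠ 0)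
    (hN : ∀ᵐ q, tr F (fun _ => 1) q = N) : (Reg F).Nonempty := by
  obtain ⟨q, h1, h2⟩ := (hN.and (ae_good hF hd)).exists
  by_contra hne
  rw [not_nonempty_iff_eq_empty] at hne
  rw [hne, subset_empty_iff] at h2
  rw [tr, h2.2, finsum_mem_empty] at h1
  exact h0 h1.symm

end Pool.Agent.Lib.MP_a47f92_an
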