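import Pool.Agent.Lib.MP_a47f92_an.Area

set_option autoImplicit false
set_option linter.unusedSectionVars false

/-! The trace of a function along the fibres. -/

namespace Pool.Agent.Lib.MP_a47f92_an

open MeasureTheory Filter Topology Set Complex Metric Function
open scoped ContDiff ComplexConjugate ComplexOrder Matrix ENNReal NNReal

variable {n : ℕ}

variable {d : ℕ} {F : E n → E n} {g g' : E n → ℝ}

theorem tr_eq_sum {q : E n} (h : (F ⁻¹' {q}).Finite) (g : E n → ℝ) :
    tr F g q = ∑ w ∈ h.toFinset, g w := by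
  exact finsum_mem_eq_finite_toFinset_sum g h

theorem tr_mono (hF : IsLift d F) (hd : 1 ≤ d) (h : g ≤ᵐ[volume] g') :
    tr F g ≤ᵐ[volume] tr F g' := by
  filter_upwards [ae_good hF hd, ae_fib hF h] with q hq hw
  rw [tr_eq_sum hq.1, tr_eq_sum hq.1]
  exact Finset.sum_le_sum fun w hw' => hw w (hq.1.mem_toFinset.1 hw')

theorem tr_congr (hF : IsLift d F) (h : g =ᵐ[volume] g') : tr F g =ᵐ[volume] tr F g' := by
  filter_upwards [ae_fib hF h] with q hw
  exact finsum_mem_congr rfl fun w hw' => hw w hw'

theorem Area2A_nonneg (hF : IsLift d F) (hd : 1 ≤ d) (hm : Measurable g) (h0 : ∀ z, 0 ≤ g z)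
    (hg : Integrable fun z => jac F z * g z) :
    Integrable (tr F g) ∧ ∫ q, tr F g q = ∫ z, jac F z * g z := by
  have hj : ∀ z, 0 ≤ jac F z := fun z => sq_nonneg _
  obtain ⟨h1, h2⟩ := area_lintegral hF (g := fun z => ENNReal.ofReal (g z)) hm.ennreal_ofReal
  have h3 : ∫⁻ z, ENNReal.ofReal (jac F z) * ENNReal.ofReal (g z) =
      ∫⁻ z, ENNReal.ofReal (jac F z * g z) :=
    lintegral_congr fun z => (ENNReal.ofReal_mul (hj z)).symm
  rw [h3] at h2
  have h4 : ∫⁻ z, ENNReal.ofReal (jac F z * g z) ≠ ⊤ := hg.lintegral_lt_top.ne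
  have h5 : tr F g =ᵐ[volume] fun q =>
      (∑' w, (Reg F ∩ F ⁻¹' {q}).indicator (fun z => ENNReal.ofReal (g z)) w).toReal := by
    filter_upwards [ae_good hF hd] with q hq
    rw [tr_eq_sum hq.1, inter_eq_right.2 hq.2, tsum_eq_sum (s := hq.1.toFinset)]
    · rw [ENNReal.toReal_sum]
      · refine Finset.sum_congr rfl fun w hw => ?_
        rw [indicator_of_mem (hq.1.mem_toFinset.1 hw), ENNReal.toReal_ofReal (h0 w)]
      · intro w hw
        rw [indicator_of_mem (hq.1.mem_toFinset.1 hw)]
        exact ENNReal.ofReal_ne_top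
    · intro w hw
      exact indicator_of_notMem (fun h => hw (hq.1.mem_toFinset.2 h)) _
  refine ⟨(integrable_toReal_of_lintegral_ne_top h1.aemeasurable (h2 ▸ h4)).congr h5.symm, ?_⟩
  rw [integral_congr_ae h5, integral_toReal h1.aemeasurable (ae_lt_top h1 (h2 ▸ h4)), h2,
    integral_eq_lintegral_of_nonneg_ae (Eventually.of_forall fun z => mul_nonneg (hj z) (h0 z))
      hg.aestronglyMeasurable]

/-- Replace `g` by a measurable modification, split into positive and negative parts and use
`area_lintegral`, `ae_good`. -/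
theorem area (hF : IsLift d F) (hd : 1 ≤ d) (hm : AEStronglyMeasurable g)
    (hg : Integrable fun z => jac F z * g z) :
    Integrable (tr F g) ∧ ∫ q, tr F g q = ∫ z, jac F z * g z := by
  have hj : ∀ z, 0 ≤ jac F z := fun z => sq_nonneg _
  have he := hm.ae_eq_mk
  set g₀ := hm.mk g with hg₀
  have hm₀ : Measurable g₀ := hm.stronglyMeasurable_mk.measurable
  have he' : (fun z => jac F z * g z) =ᵐ[volume] fun z => jac F z * g₀ z := by
    filter_upwards [he] with z hz
    rw [hz]
  have hi : Integrable fun z => jac F z * g₀ z := hg.congr he'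
  have hp : Integrable fun z => jac F z * max (g₀ z) 0 := by
    refine hi.pos_part.congr (Eventually.of_forall fun z => ?_)
    simp only [mul_max_of_nonneg _ _ (hj z), mul_zero]
  have hn : Integrable fun z => jac F z * max (-g₀ z) 0 := by
    refine hi.neg_part.congr (Eventually.of_forall fun z => ?_)
    simp only [mul_max_of_nonneg _ _ (hj z), mul_zero, mul_neg]
  obtain ⟨p1, p2⟩ := Area2A_nonneg hF hd (g := fun z => max (g₀ z) 0)
    (hm₀.max measurable_const) (fun z => le_max_right _ _) hp
  obtain ⟨n1, n2⟩ := Area2A_nonneg hF hd (g := fun z => max (-g₀ z) 0)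
    (hm₀.neg.max measurable_const) (fun z => le_max_right _ _) hn
  have h1 : tr F g =ᵐ[volume] fun q =>
      tr F (fun z => max (g₀ z) 0) q - tr F (fun z => max (-g₀ z) 0) q := by
    filter_upwards [ae_good hF hd, tr_congr hF he] with q hq hq'
    rw [hq', tr_eq_sum hq.1, tr_eq_sum hq.1, tr_eq_sum hq.1, ← Finset.sum_sub_distrib]
    exact Finset.sum_congr rfl fun w _ => (max_zero_sub_max_neg_zero_eq_self _).symm
  refine ⟨(p1.sub n1).congr h1.symm, ?_⟩
  rw [integral_congr_ae h1, integral_sub p1 n1, p2, n2, ← integral_sub hp hn,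
    integral_congr_ae he']
  refine integral_congr_ae (Eventually.of_forall fun z => ?_)
  simp only [← mul_sub, max_zero_sub_max_neg_zero_eq_self]

/-- For a compact `K`, `indicator K (tr F g) = tr F (indicator (F ⁻¹' K) g)`. -/
theorem tr_locInt (hF : IsLift d F) (hd : 1 ≤ d) (hg : LocallyIntegrable g) :
    LocallyIntegrable (tr F g) := by
  refine locallyIntegrable_iff.2 fun K hK => ?_
  have hK' := hF.isCompact_preimage hd hK
  have h1 : IntegrableOn g (F ⁻¹' K) := hg.integrableOn_isCompact hK'
  have h2 : Integrable fun z => jac F z * (F ⁻¹' K).indicator g z := by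
    have h3 := (integrable_indicator_iff hK'.measurableSet).2
      (h1.continuousOn_mul hF.continuous_jac.continuousOn hK')
    refine h3.congr (Eventually.of_forall fun z => ?_)
    exact indicator_mul_right _ _ _
  have h4 := (area hF hd (hg.aestronglyMeasurable.indicator hK'.measurableSet) h2).1
  refine h4.integrableOn.congr_fun (fun q hq => ?_) hK.measurableSet
  refine finsum_mem_congr rfl fun w hw => indicator_of_mem ?_ _
  rw [mem_preimage, show F w = q from hw]
  exact hq

theorem area_mul (hF : IsLift d F) (hd : 1 ≤ d) (hg : LocallyIntegrable g) {h : E n → ℝ}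
    (hh : IsCC h) : ∫ q, tr F g q * h q = ∫ z, g z * (jac F z * h (F z)) := by
  have hc := hF.cc_comp hd hh
  have h1 : Integrable fun z => g z * (jac F z * h (F z)) :=
    hg.integrable_smul_right_of_hasCompactSupport (hF.continuous_jac.mul hc.1) hc.2.1.mul_left
  have h2 : (fun z => jac F z * (g z * h (F z))) = fun z => g z * (jac F z * h (F z)) :=
    funext fun z => mul_left_comm _ _ _
  have h3 := (area hF hd (g := fun z => g z * h (F z))
    (hg.aestronglyMeasurable.mul hc.1.aestronglyMeasurable) (h2 ▸ h1)).2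
  rw [h2] at h3
  rw [← h3]
  refine integral_congr_ae (Eventually.of_forall fun q => ?_)
  simp only [tr]
  rw [finsum_mem_mul]
  exact finsum_mem_congr rfl fun w hw => by rw [show F w = q from hw]

theorem tr_comp {d' : ℕ} {G : E n → E n} (hF : IsLift d F) (hd : 1 ≤ d) (hG : IsLift d' G)
    (hd' : 1 ≤ d') (g : E n → ℝ) : tr (F ∘ G) g =ᵐ[volume] tr F (tr G g) := by
  filter_upwards [ae_good hF hd, ae_fib hF (ae_good hG hd')] with q hq hw
  have h1 : (F ∘ G) ⁻¹' {q} = ⋃ w ∈ F ⁻¹' {q}, G ⁻¹' {w} := by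
    ext z
    simp
  simp only [tr]
  rw [h1]
  refine finsum_mem_biUnion (fun a _ b _ hab => ?_) hq.1 fun w hw' => (hw w hw').1
  exact Set.disjoint_left.2 fun z h2 h3 => hab ((show G z = a from h2).symm.trans h3)

theorem tr_add (hF : IsLift d F) (hd : 1 ≤ d) (g g' : E n → ℝ) :
    tr F (fun z => g z + g' z) =ᵐ[volume] fun q => tr F g q + tr F g' q := by
  filter_upwards [ae_good hF hd] with q hq
  exact finsum_mem_add_distrib hq.1

theorem tr_const_mul (F : E n → E n) (c : ℝ) (g : E n → ℝ) (q : E n) :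
    tr F (fun z => c * g z) q = c * tr F g q := by
  exact (mul_finsum_mem g c).symm

theorem tr_sum {ι : Type} (hF : IsLift d F) (hd : 1 ≤ d) (s : Finset ι) (g : ι → E n → ℝ) :
    tr F (fun z => ∑ i ∈ s, g i z) =ᵐ[volume] fun q => ∑ i ∈ s, tr F (g i) q := by
  filter_upwards [ae_good hF hd] with q hq
  simp only [tr_eq_sum hq.1]
  exact Finset.sum_comm

end Pool.Agent.Lib.MP_a47f92_an
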