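import Pool.Agent.Lib.MP_a47f92_an.PairA

set_option autoImplicit false
set_option linter.unusedSectionVars false

/-! The pairing with test functions. -/

namespace Pool.Agent.Lib.MP_a47f92_an

open MeasureTheory Filter Topology Set Complex Metric Function
open scoped ContDiff ComplexConjugate ComplexOrder Matrix ENNReal NNReal

variable {n : ℕ}

variable {u u' p ψ : E n → ℝ} {Ω : Set (E n)}

/-- The real determinant of a complex linear map (`LinearMap.det_restrictScalars`,
`Algebra.norm_complex_apply`). -/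
theorem det_restrict (T : E n →L[ℂ] E n) : (T.restrictScalars ℝ).det = ‖T.det‖ ^ 2 := by
  have h := LinearMap.det_restrictScalars (R := ℝ) (S := ℂ) (f := (T : E n →ₗ[ℂ] E n))
  rw [Algebra.norm_complex_apply, Complex.normSq_eq_norm_sq] at h
  exact h

theorem Pair_det_pos (T : E n ≃L[ℂ] E n) : 0 < ‖(T : E n →L[ℂ] E n).det‖ ^ 2 := by
  have h : (T : E n →L[ℂ] E n).det ≠ 0 := (LinearEquiv.isUnit_det' T.toLinearEquiv).ne_zero
  positivity

theorem Pair_map (T : E n ≃L[ℂ] E n) : Measure.map T.toHomeomorph.toMeasurableEquiv volume =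
    ENNReal.ofReal (‖(T : E n →L[ℂ] E n).det‖ ^ 2)⁻¹ • (volume : Measure (E n)) := by
  have h1 : LinearMap.det (((T : E n →L[ℂ] E n).restrictScalars ℝ : E n →L[ℝ] E n) :
      E n →ₗ[ℝ] E n) = ‖(T : E n →L[ℂ] E n).det‖ ^ 2 := det_restrict _
  have h2 := Measure.map_linearMap_addHaar_eq_smul_addHaar (volume : Measure (E n))
    (h1.trans_ne (Pair_det_pos T).ne')
  rw [h1, abs_of_pos (inv_pos.2 (Pair_det_pos T))] at h2
  exact h2

/-- Linear change of variables (`map_linearMap_addHaar_eq_smul_addHaar`, or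
`integral_image_eq_integral_abs_det_fderiv_smul`). -/
theorem integral_comp_equiv (T : E n ≃L[ℂ] E n) (g : E n → ℝ) :
    ∫ z, g (T z) = (‖(T : E n →L[ℂ] E n).det‖ ^ 2)⁻¹ * ∫ y, g y := by
  have h := integral_map_equiv (μ := volume) T.toHomeomorph.toMeasurableEquiv g
  rw [Pair_map, integral_smul_measure, ENNReal.toReal_ofReal (inv_pos.2 (Pair_det_pos T)).le,
    smul_eq_mul] at h
  exact h.symm

theorem lintegral_comp_equiv (T : E n ≃L[ℂ] E n) (g : E n → ℝ≥0∞) :
    ∫⁻ z, g (T z) = ENNReal.ofReal (‖(T : E n →L[ℂ] E n).det‖ ^ 2)⁻¹ * ∫⁻ y, g y := by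
  have h := lintegral_map_equiv (μ := volume) g T.toHomeomorph.toMeasurableEquiv
  rw [Pair_map, lintegral_smul_measure, smul_eq_mul] at h
  exact h.symm

theorem qmp_equiv (T : E n ≃L[ℂ] E n) : Measure.QuasiMeasurePreserving T := by
  refine ⟨T.continuous.measurable, ?_⟩
  have h : Measure.map T volume = _ := Pair_map T
  rw [h]
  exact Measure.smul_absolutelyContinuous

theorem locInt_comp_equiv (T : E n ≃L[ℂ] E n) (hu : LocallyIntegrable u) :
    LocallyIntegrable fun z => u (T z) := by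
  refine (locallyIntegrable_map_homeomorph T.toHomeomorph).1 ?_
  have h : Measure.map T.toHomeomorph volume = _ := Pair_map T
  rw [h]
  intro x
  obtain ⟨s, hs, h1⟩ := hu x
  refine ⟨s, hs, ?_⟩
  rw [IntegrableOn, Measure.restrict_smul]
  exact h1.smul_measure ENNReal.ofReal_ne_top

theorem IsTest.comp_equiv (hψ : IsTest ψ) (T : E n ≃L[ℂ] E n) :
    IsTest (fun y => ψ (T.symm y)) ∧ tsupport (fun y => ψ (T.symm y)) = T '' tsupport ψ := by
  have h1 : tsupport (fun y => ψ (T.symm y)) = T '' tsupport ψ := by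
    rw [T.image_eq_preimage_symm]
    exact tsupport_comp_eq_preimage ψ T.symm.toHomeomorph
  refine ⟨⟨hψ.1.comp ((T.symm : E n →L[ℂ] E n).restrictScalars ℝ).contDiff,
    hψ.2.1.comp_homeomorph T.symm.toHomeomorph, ?_⟩, h1⟩
  rw [h1]
  rintro ⟨y, hy, h0⟩
  rw [T.map_eq_zero_iff] at h0
  exact hψ.2.2 (h0 ▸ hy)

theorem pair_comp_equiv (T : E n ≃L[ℂ] E n) (u : E n → ℝ) (hψ : IsTest ψ) (v : E n) :
    pair (fun z => u (T z)) ψ v =
      (‖(T : E n →L[ℂ] E n).det‖ ^ 2)⁻¹ * pair u (fun y => ψ (T.symm y)) (T v) := by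
  rw [pair, pair, ← integral_comp_equiv T]
  refine integral_congr_ae (Eventually.of_forall fun z => ?_)
  have h1 := levi_comp (ψ := ψ) (Φ := T.symm) (z := T z) T.symm.contDiff.contDiffAt
    (hψ.1.of_le (m := 2) (WithTop.coe_le_coe.2 (le_top (a := (2 : ℕ∞))))).contDiffAt (T v)
  simp only [h1, T.symm.fderiv, ContinuousLinearEquiv.coe_coe,
    ContinuousLinearEquiv.symm_apply_apply]

/-- Use `pair_comp_equiv` for the homothety of ratio `a⁻¹` and `pair_add_const`. -/
theorem WPh.smul {c : ℝ} (hu : LocallyIntegrable u) (hh : LHom c u) (h : WPh u Ω) {a : ℂ}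
    (ha : a ≠ 0) : WPh u ((fun z => a • z) '' Ω) := by
  intro ψ h1 h2 h3 v
  let T : E n ≃L[ℂ] E n := ContinuousLinearEquiv.smulLeft (Units.mk0 a ha)
  have hT : ∀ w, T w = a • w := fun w => rfl
  obtain ⟨h4, h5⟩ := h1.comp_equiv T.symm
  have h6 : tsupport (fun y => ψ (T.symm.symm y)) ⊆ Ω := by
    rw [h5]
    rintro _ ⟨y, hy, rfl⟩
    obtain ⟨x, hx, rfl⟩ := h3 hy
    simpa only [← hT, ContinuousLinearEquiv.symm_apply_apply] using hx
  have h7 := pair_comp_equiv T u h4 (T.symm v)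
  have h8 : pair (fun z => u (T z)) (fun y => ψ (T.symm.symm y)) (T.symm v) = 0 := by
    rw [← h _ h4 (fun z => h2 _) h6 (T.symm v), ← pair_add_const hu (c * Real.log ‖a‖) h4]
    refine pair_congr ?_
    filter_upwards [hh a ha] with z hz _
    exact hz
  rw [h8] at h7
  simp only [ContinuousLinearEquiv.symm_symm, ContinuousLinearEquiv.apply_symm_apply] at h7
  exact (mul_eq_zero.1 h7.symm).resolve_left (inv_pos.2 (Pair_det_pos T)).ne'

theorem Pair_finrank : Module.finrank ℝ (E n) = 2 * n := by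
  rw [← Module.finrank_mul_finrank ℝ ℂ (E n)]
  simp

theorem Pair_ae_ne (hn : 1 ≤ n) : ∀ᵐ z : E n, z ≠ 0 := by
  have : Nontrivial (E n) := Module.nontrivial_of_finrank_pos (R := ℝ) (by
    rw [Pair_finrank]; omega)
  exact compl_mem_ae_iff.2 (measure_singleton (0 : E n))

theorem XHom.lhom (hn : 1 ≤ n) {c : ℝ} (h : XHom c p) : LHom c p := by
  intro a ha
  filter_upwards [Pair_ae_ne hn] with z hz
  exact h a ha z hz

/-- `|log t| ≤ 2 t ^ (-1 / 2)` for `t ≤ 1` and `integrableOn_ball_of_norm_le_rpow`, or polar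
coordinates. -/
theorem locInt_log (hn : 1 ≤ n) : LocallyIntegrable fun z : E n => Real.log ‖z‖ := by
  intro x
  refine ⟨ball 0 (‖x‖ + 1), isOpen_ball.mem_nhds (by simp), ?_⟩
  refine integrableOn_ball_of_norm_le_rpow (α := 1) (C := 1 + (‖x‖ + 1) ^ 2)
    (by rw [Pair_finrank]; omega) ?_ ?_ (by fun_prop : Measurable _).aestronglyMeasurable
  · rw [Pair_finrank]
    exact_mod_cast (by omega : 1 < 2 * n)
  · filter_upwards [ae_restrict_mem measurableSet_ball] with z hz
    rw [mem_ball_zero_iff] at hz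
    rcases (norm_nonneg z).eq_or_lt with h0 | h0
    · rw [← h0, Real.log_zero, norm_zero]
      positivity
    rw [Real.rpow_neg_one, ← div_eq_mul_inv, le_div_iff₀ h0, Real.norm_eq_abs]
    rcases le_total ‖z‖ 1 with h1 | h1
    · have := Real.abs_log_mul_self_lt _ h0 h1
      rw [abs_mul, abs_of_pos h0] at this
      nlinarith [sq_nonneg (‖x‖ + 1)]
    · rw [abs_of_nonneg (Real.log_nonneg h1)]
      have h2 := Real.log_le_sub_one_of_pos h0
      nlinarith [norm_nonneg x]

theorem XHom.bound {c : ℝ} (h : XHom c p) (hp : ContinuousOn p {0}ᶜ) :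
    ∃ C, ∀ z, z ≠ 0 → |p z - c * Real.log ‖z‖| ≤ C := by
  obtain ⟨C, hC⟩ := (isCompact_sphere (0 : E n) 1).exists_bound_of_continuousOn
    (hp.mono fun z hz h0 => by
      rw [mem_singleton_iff.1 h0] at hz
      simp at hz)
  refine ⟨C, fun z hz => ?_⟩
  have h0 : 0 < ‖z‖ := norm_pos_iff.2 hz
  have h1 : (‖z‖ : ℂ) ≠ 0 := by exact_mod_cast h0.ne'
  have h2 := h _ h1 ((‖z‖ : ℂ)⁻¹ • z) (smul_ne_zero (inv_ne_zero h1) hz)
  rw [smul_smul, mul_inv_cancel₀ h1, one_smul, Complex.norm_real, norm_norm] at h2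
  rw [h2, add_sub_cancel_right]
  refine hC _ ?_
  rw [mem_sphere_zero_iff_norm, norm_smul, norm_inv, Complex.norm_real, norm_norm,
    inv_mul_cancel₀ h0.ne']

theorem XHom.locInt (hn : 1 ≤ n) {c : ℝ} (h : XHom c p) (hp : ContinuousOn p {0}ᶜ) :
    LocallyIntegrable p := by
  obtain ⟨C, hC⟩ := h.bound hp
  have hm : AEStronglyMeasurable p := by
    have h1 := hp.aestronglyMeasurable (μ := volume) (measurableSet_singleton (0 : E n)).compl
    rwa [Measure.restrict_eq_self_of_ae_mem (s := {0}ᶜ) (Pair_ae_ne hn)] at h1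
  have hl : LocallyIntegrable fun z : E n => c * Real.log ‖z‖ := (locInt_log hn).smul c
  have h2 : LocallyIntegrable fun z : E n => p z - c * Real.log ‖z‖ := by
    refine (locallyIntegrable_const C).mono (hm.sub hl.aestronglyMeasurable) ?_
    filter_upwards [Pair_ae_ne hn] with z hz
    exact (hC z hz).trans (le_abs_self C)
  have h3 : p = (fun z : E n => p z - c * Real.log ‖z‖) + fun z : E n => c * Real.log ‖z‖ := by
    funext z
    simp only [Pi.add_apply, sub_add_cancel]
  rw [h3]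
  exact h2.add hl

theorem SPot.isPot (hn : 1 ≤ n) (h : SPot p) : IsPot p := by
  refine IsPot.of (h.hom.locInt hn h.smooth.continuousOn) (h.hom.lhom hn)
    (wpsh_of_levi isOpen_univ ?_ fun z _ hz v => h.psh z hz v)
  rw [← compl_eq_univ_sdiff]
  exact h.smooth

/-- Nonnegative test functions detect the sign almost everywhere. Apply
`ae_nonneg_of_forall_setIntegral_nonneg`-type lemmas, or approximate the indicator of a compact
subset of `{u < 0}` by continuous bumps (inner regularity and dominated convergence). -/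
theorem ae_nonneg_of_cc (hΩ : IsOpen Ω) (hu : LocallyIntegrable u)
    (h : ∀ g, IsCC g → (∀ z, 0 ≤ g z) → tsupport g ⊆ Ω → 0 ≤ ∫ z, u z * g z) :
    ∀ᵐ z, z ∈ Ω → z ≠ 0 → 0 ≤ u z := by
  let φ : ℕ → ContDiffBump (0 : E n) := fun i =>
    ⟨1 / ((i : ℝ) + 1) / 2, 1 / ((i : ℝ) + 1), by positivity, half_lt_self (by positivity)⟩
  have h1 : Tendsto (fun i => (φ i).rOut) atTop (𝓝 0) := tendsto_one_div_add_atTop_nhds_zero_nat
  have h2 : ∀ᶠ i in atTop, (φ i).rOut ≤ 2 * (φ i).rIn :=
    Eventually.of_forall fun i => le_of_eq (by simp only [φ]; ring)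
  filter_upwards [ContDiffBump.ae_convolution_tendsto_right_of_locallyIntegrable h1 h2 hu]
    with z hz hzΩ hz0
  obtain ⟨ε, hε, hb⟩ := Metric.isOpen_iff.1 (hΩ.inter isOpen_compl_singleton) z ⟨hzΩ, hz0⟩
  refine ge_of_tendsto hz ?_
  filter_upwards [h1.eventually (gt_mem_nhds hε)] with i hi
  have h3 : tsupport (fun y => (φ i).normed volume (z - y)) ⊆ closedBall z (φ i).rOut := by
    refine closure_minimal (fun y hy => ?_) isClosed_closedBall
    have h4 : z - y ∈ support ((φ i).normed volume) := hy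
    rw [ContDiffBump.support_normed_eq, mem_ball_zero_iff] at h4
    rw [mem_closedBall', dist_eq_norm]
    exact h4.le
  have h5 := h3.trans ((closedBall_subset_ball hi).trans hb)
  have h6 := h (fun y => (φ i).normed volume (z - y)) ⟨(φ i).continuous_normed.comp (by fun_prop),
    (isCompact_closedBall z _).of_isClosed_subset (isClosed_tsupport _) h3,
    fun h0 => (h5 h0).2 rfl⟩ (fun y => (φ i).nonneg_normed _) (h5.trans inter_subset_left)
  rw [convolution_lsmul_swap]
  simpa only [smul_eq_mul, mul_comm] using h6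

end Pool.Agent.Lib.MP_a47f92_an
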