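import Pool.Agent.Lib.MP_a47f92_an.Circle2
import Pool.Agent.Lib.MP_a47f92_an.Pair

set_option autoImplicit false
set_option linter.unusedSectionVars false

/-! Means over balls. -/

namespace Pool.Agent.Lib.MP_a47f92_an

open MeasureTheory Filter Topology Set Complex Metric Function
open scoped ContDiff ComplexConjugate ComplexOrder Matrix ENNReal NNReal

variable {n : ℕ}

variable {p : E n → ℝ} {Ω : Set (E n)} {y : E n} {r : ℝ}

theorem BallA_mem (hr : 0 < r) (y w : E n) : y + r • w ∈ ball y r ↔ w ∈ ball (0 : E n) 1 := by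
  rw [mem_ball_iff_norm, add_sub_cancel_left, mem_ball_zero_iff, norm_smul, Real.norm_of_nonneg hr.le,
    mul_lt_iff_lt_one_right hr]

theorem BallA_ind (hr : 0 < r) (p : E n → ℝ) (y : E n) :
    (ball (0 : E n) 1).indicator (fun w => p (y + r • w)) =
      fun w => (ball y r).indicator p (y + r • w) := by
  funext w
  by_cases hw : w ∈ ball (0 : E n) 1
  · rw [indicator_of_mem hw, indicator_of_mem ((BallA_mem hr y w).2 hw)]
  · rw [indicator_of_notMem hw, indicator_of_notMem fun h => hw ((BallA_mem hr y w).1 h)]

theorem BallA_mul (g : E n → ℝ) :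
    (fun w => g w * (ball (0 : E n) 1).indicator (fun _ => (1 : ℝ)) w) =
      (ball (0 : E n) 1).indicator g := by
  funext w
  by_cases hw : w ∈ ball (0 : E n) 1 <;> simp [hw]

/-- Rescaling to the unit ball. -/
theorem setAverage_ball (hr : 0 < r) (p : E n → ℝ) (y : E n) :
    ⨍ q in ball y r, p q = ⨍ w in ball (0 : E n) 1, p (y + r • w) := by
  have h1 : ∫ w in ball (0 : E n) 1, p (y + r • w) =
      (r ^ Module.finrank ℝ (E n))⁻¹ * ∫ q in ball y r, p q := by
    rw [← integral_indicator measurableSet_ball, BallA_ind hr,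
      Measure.integral_comp_smul volume (fun w => (ball y r).indicator p (y + w)) r,
      integral_add_left_eq_self ((ball y r).indicator p) y, integral_indicator measurableSet_ball,
      abs_of_pos (by positivity), smul_eq_mul]
  have h2 : (volume : Measure (E n)).real (ball y r) =
      r ^ Module.finrank ℝ (E n) * (volume : Measure (E n)).real (ball 0 1) := by
    rw [measureReal_def, Measure.addHaar_ball_of_pos volume y hr, ENNReal.toReal_mul,
      ENNReal.toReal_ofReal (by positivity), measureReal_def]
  rw [setAverage_eq, setAverage_eq, h1, h2, smul_eq_mul, smul_eq_mul, mul_inv]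
  ring

/-- `integral_rot` with the indicator function of the unit ball. -/
theorem setAverage_ball_cm (hr : 0 < r) (hp : IntegrableOn p (ball y r)) :
    IntegrableOn (fun w => cm p y w r) (ball (0 : E n) 1) ∧
      ⨍ q in ball y r, p q = ⨍ w in ball (0 : E n) 1, cm p y w r := by
  have hi : Integrable fun w => p (y + r • w) * (ball (0 : E n) 1).indicator (fun _ => (1 : ℝ)) w := by
    rw [BallA_mul, BallA_ind hr]
    exact (((integrable_indicator_iff measurableSet_ball).2 hp).comp_add_left y).comp_smul hr.ne'
  obtain ⟨h1, h2⟩ := integral_rot (fun c hc w => by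
    simp only [indicator, mem_ball_zero_iff, norm_smul, hc, one_mul]) hi
  rw [BallA_mul, integrable_indicator_iff measurableSet_ball] at h1
  rw [BallA_mul, BallA_mul, integral_indicator measurableSet_ball,
    integral_indicator measurableSet_ball] at h2
  exact ⟨h1, by rw [setAverage_ball hr, setAverage_eq, setAverage_eq, h2]⟩

theorem submean (hΩ : IsOpen Ω) (hp : ContDiffOn ℝ ∞ p Ω) (hl : ∀ y ∈ Ω, ∀ v, 0 ≤ levi p y v)
    (hr : 0 < r) (h : closedBall y r ⊆ Ω) : p y ≤ ⨍ q in ball y r, p q := by
  have hi : IntegrableOn p (ball y r) :=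
    ((hp.continuousOn.mono h).integrableOn_compact (isCompact_closedBall y r)).mono_set
      ball_subset_closedBall
  obtain ⟨h1, h2⟩ := setAverage_ball_cm hr hi
  have h0 : volume (ball (0 : E n) 1) ≠ 0 := (measure_ball_pos _ _ one_pos).ne'
  have h3 : volume (ball (0 : E n) 1) ≠ ⊤ := measure_ball_lt_top.ne
  rw [h2, ← setAverage_const h0 h3 (p y), setAverage_eq, setAverage_eq]
  refine mul_le_mul_of_nonneg_left ?_ (by positivity)
  refine setIntegral_mono_on (integrableOn_const h3) h1 measurableSet_ball fun w hw => ?_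
  have := cm_mono (z := y) (w := w) (R := r) hΩ hp hl (fun ζ hζ => h ?_) ⟨le_rfl, hr.le⟩
    ⟨hr.le, le_rfl⟩ hr.le
  · rwa [cm_zero] at this
  · rw [mem_closedBall_iff_norm, add_sub_cancel_left, norm_smul]
    exact (mul_le_of_le_one_right (norm_nonneg _) (mem_ball_zero_iff.1 hw).le).trans hζ

end Pool.Agent.Lib.MP_a47f92_an
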