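import Pool.Agent.Lib.MP_a47f92_an.ChainA

set_option autoImplicit false
set_option linter.unusedSectionVars false

/-! Chain rule and explicit Hessians. -/

namespace Pool.Agent.Lib.MP_a47f92_an

open MeasureTheory Filter Topology Set Complex Metric Function
open scoped ContDiff ComplexConjugate ComplexOrder Matrix ENNReal NNReal

variable {n : ℕ}

variable {ψ p : E n → ℝ} {z : E n}

theorem Chain_two : (2 : WithTop ℕ∞) ≤ ((⊤ : ℕ∞) : WithTop ℕ∞) := by
  rw [show (2 : WithTop ℕ∞) = ((2 : ℕ∞) : WithTop ℕ∞) from rfl]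
  exact WithTop.coe_le_coe.2 le_top

theorem contDiffOn_log : ContDiffOn ℝ ∞ (fun w : E n => Real.log ‖w‖) {0}ᶜ := fun _ hw =>
  ((contDiffAt_norm ℂ hw).log (norm_ne_zero_iff.2 hw)).contDiffWithinAt

/-- The real inner product with `a`. -/
noncomputable def Chain_R (a : E n) : E n →L[ℝ] ℝ :=
  reCLM.comp ((innerSL ℂ a).restrictScalars ℝ)

theorem Chain_R_apply (a w : E n) : Chain_R a w = (inner ℂ a w).re := rfl

theorem Chain_R_symm (a w : E n) : Chain_R a w = Chain_R w a := inner_re_symm (𝕜 := ℂ) a w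

theorem Chain_R_self (a : E n) : Chain_R a a = ‖a‖ ^ 2 := inner_self_eq_norm_sq (𝕜 := ℂ) a

theorem Chain_sq (w : E n) : HasFDerivAt (fun w : E n => ‖w‖ ^ 2) ((2 : ℝ) • Chain_R w) w := by
  have h := reCLM.hasFDerivAt.comp w ((hasFDerivAt_id w).inner ℂ (hasFDerivAt_id w))
  refine (h.congr_of_eventuallyEq
    (Eventually.of_forall fun x => (Chain_R_self x).symm)).congr_fderiv ?_
  ext a
  change (inner ℂ w a + inner ℂ a w).re = 2 * Chain_R w a
  rw [add_re, ← Chain_R_apply, ← Chain_R_apply, Chain_R_symm a w, two_mul]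

theorem Chain_log {w : E n} (hw : w ≠ 0) (a : E n) :
    fderiv ℝ (fun w : E n => Real.log ‖w‖) w a = Chain_R a w * (‖w‖ ^ 2)⁻¹ := by
  have h0 : ‖w‖ ^ 2 ≠ 0 := pow_ne_zero 2 (norm_ne_zero_iff.2 hw)
  have h := ((Chain_sq w).log h0).const_mul (1 / 2 : ℝ)
  have e : (fun w : E n => Real.log ‖w‖) = fun w : E n => 1 / 2 * Real.log (‖w‖ ^ 2) := by
    funext x
    rw [Real.log_pow]
    push_cast
    ring
  rw [e, h.fderiv, Chain_R_symm a w]
  simp only [ContinuousLinearMap.smul_apply, smul_eq_mul]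
  ring

theorem Chain_log2 (hz : z ≠ 0) (a : E n) :
    fderiv ℝ (fun w => fderiv ℝ (fun w : E n => Real.log ‖w‖) w a) z a =
      ‖a‖ ^ 2 / ‖z‖ ^ 2 - 2 * (inner ℂ z a).re ^ 2 / ‖z‖ ^ 4 := by
  have h0 : ‖z‖ ≠ 0 := norm_ne_zero_iff.2 hz
  have e : (fun w => fderiv ℝ (fun w : E n => Real.log ‖w‖) w a) =ᶠ[𝓝 z]
      fun w => Chain_R a w * (‖w‖ ^ 2)⁻¹ := by
    filter_upwards [isOpen_compl_singleton.mem_nhds hz] with w hw using Chain_log hw a
  have h := (Chain_R a).hasFDerivAt.fun_mul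
    ((hasDerivAt_inv (pow_ne_zero 2 h0)).comp_hasFDerivAt z (Chain_sq z))
  rw [e.fderiv_eq]
  refine (congrArg (fun T : E n →L[ℝ] ℝ => T a) h.fderiv).trans ?_
  simp only [ContinuousLinearMap.smul_apply, ContinuousLinearMap.add_apply, smul_eq_mul,
    comp_apply, Chain_R_self, Chain_R_symm a z, Chain_R_apply z a]
  field_simp
  ring

/-- `log ‖w‖ = log (‖w‖ ^ 2) / 2`, `wb v (‖w‖ ^ 2) = inner v w`, `wd v (‖w‖ ^ 2) = inner w v`. -/
theorem levi_log (hz : z ≠ 0) (v : E n) : levi (fun w : E n => Real.log ‖w‖) z v =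
    (‖z‖ ^ 2 * ‖v‖ ^ 2 - ‖inner ℂ z v‖ ^ 2) / (2 * ‖z‖ ^ 4) := by
  have h0 : ‖z‖ ≠ 0 := norm_ne_zero_iff.2 hz
  rw [levi_eq_real ((contDiffOn_log.contDiffAt (isOpen_compl_singleton.mem_nhds hz)).of_le
    Chain_two), Chain_log2 hz, Chain_log2 hz, norm_smul, norm_I, one_mul, inner_smul_right,
    Complex.sq_norm (inner ℂ z v), normSq_apply]
  simp only [mul_re, I_re, I_im]
  field_simp
  ring

theorem spot_log : SPot fun w : E n => Real.log ‖w‖ := by
  refine ⟨contDiffOn_log, fun a ha z hz => ?_, fun z hz v => ?_⟩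
  · rw [norm_smul, Real.log_mul (norm_ne_zero_iff.2 ha) (norm_ne_zero_iff.2 hz), one_mul,
      add_comm]
  · rw [levi_log hz, ← mul_pow]
    exact div_nonneg (sub_nonneg.2 (pow_le_pow_left₀ (norm_nonneg _) (norm_inner_le_norm z v) 2))
      (by positivity)

theorem exists_levi_log_pos (hn : 2 ≤ n) :
    ∃ z v : E n, z ≠ 0 ∧ 0 < levi (fun w : E n => Real.log ‖w‖) z v := by
  have h1 : ∀ i : Fin n, ‖ev i‖ = 1 := fun i => by simp [ev]
  have h2 : ev (⟨0, by omega⟩ : Fin n) ≠ 0 := norm_ne_zero_iff.1 (by rw [h1]; exact one_ne_zero)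
  refine ⟨_, ev ⟨1, by omega⟩, h2, ?_⟩
  rw [levi_log h2, h1, h1]
  simp [ev, EuclideanSpace.inner_single_left]

theorem Chain_euler {c : ℝ} (hp : ContDiffOn ℝ ∞ p {0}ᶜ) (hh : XHom c p) {w : E n} (hw : w ≠ 0)
    (b : ℂ) : fderiv ℝ (fun x => (p x : ℂ)) w (b • w) = (c * b.re : ℝ) := by
  have h1 : DifferentiableAt ℝ p w :=
    (hp.contDiffAt (isOpen_compl_singleton.mem_nhds hw)).differentiableAt (by simp)
  have h2 : HasDerivAt (fun t : ℝ => cexp (t * b) • w) (b • w) 0 := by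
    simpa using (((hasDerivAt_id (0 : ℝ)).ofReal_comp.mul_const b).cexp).smul_const w
  have h3 := h1.hasFDerivAt.comp_hasDerivAt_of_eq (0 : ℝ) h2 (by simp)
  have h4 : HasDerivAt (p ∘ fun t : ℝ => cexp (t * b) • w) (c * b.re) 0 := by
    have e : (p ∘ fun t : ℝ => cexp (t * b) • w) = fun t : ℝ => p w + c * (t * b.re) := by
      funext t
      rw [comp_apply, hh _ (exp_ne_zero _) w hw, Complex.norm_exp, Real.log_exp, re_ofReal_mul]
    rw [e]
    simpa using (((hasDerivAt_id (0 : ℝ)).mul_const b.re).const_mul c).const_add (p w)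
  rw [← h3.unique h4]
  exact congrArg (fun T : E n →L[ℝ] ℂ => T (b • w))
    (ofRealCLM.hasFDerivAt.comp w h1.hasFDerivAt).fderiv

/-- Euler relations. Differentiating `p (a • w) = p w + c log ‖a‖` in `a` at `a = 1` gives
`fderiv p w w = c`, `fderiv p w (I • w) = 0`, so `∑ i, w i * wd (ev i) p w = c / 2` for `w ≠ 0`.
Apply `wb (ev j)`. The second relation is the conjugate of the first (`hess_isHermitian`). -/
theorem euler_hess {c : ℝ} (hp : ContDiffOn ℝ ∞ p {0}ᶜ) (hh : XHom c p) (hz : z ≠ 0) :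
    (∀ j, ∑ i, z i * hess p z i j = 0) ∧ ∀ i, ∑ j, conj (z j) * hess p z i j = 0 := by
  have hp2 : ContDiffAt ℝ 2 p z :=
    (hp.contDiffAt (isOpen_compl_singleton.mem_nhds hz)).of_le Chain_two
  have hf : ContDiffAt ℝ 2 (fun x => (p x : ℂ)) z := ofRealCLM.contDiff.contDiffAt.comp z hp2
  have h1 : (fun w : E n => ∑ i, w i * wd (ev i) (fun x => (p x : ℂ)) w) =ᶠ[𝓝 z]
      fun _ => (c : ℂ) / 2 := by
    filter_upwards [isOpen_compl_singleton.mem_nhds hz] with w hw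
    have e := Chain_euler hp hh hw 1
    rw [one_smul] at e
    rw [← wd_vec, wd, e, Chain_euler hp hh hw I]
    simp
  have h2 : ∀ i, DifferentiableAt ℂ (fun w : E n => w i) z := fun i =>
    (EuclideanSpace.proj i : E n →L[ℂ] ℂ).differentiableAt
  have h3 : ∀ i, DifferentiableAt ℝ (wd (ev i) fun x => (p x : ℂ)) z := fun i =>
    (contDiffAt_wd (m := 1) hf le_rfl _).differentiableAt one_ne_zero
  have h4 : ∀ j, ∑ i, z i * hess p z i j = 0 := fun j => by
    have e := (wb_congr h1 (ev j)).eq_of_nhds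
    rw [wb_const, wb_sum _ fun i _ => ((h2 i).restrictScalars ℝ).fun_mul (h3 i)] at e
    rw [← e]
    refine Finset.sum_congr rfl fun i _ => ?_
    rw [wb_mul ((h2 i).restrictScalars ℝ) (h3 i), wb_holo (h2 i), zero_mul, zero_add, hess_apply,
      wd_wb_comm hf]
  refine ⟨h4, fun i => ?_⟩
  have e := congrArg conj (h4 i)
  rw [map_sum, map_zero] at e
  rw [← e]
  refine Finset.sum_congr rfl fun j _ => ?_
  rw [map_mul, ← (hess_isHermitian hp2).apply i j]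
  rfl

theorem Chain_levi_bd (h : ContDiff ℝ ∞ ψ) (hc : HasCompactSupport ψ) :
    ∃ C : ℝ, 0 ≤ C ∧ ∀ z v, |levi ψ z v| ≤ C * ‖v‖ ^ 2 := by
  have h1 : ∀ i j, ∃ C : ℝ, ∀ z, ‖hess ψ z i j‖ ≤ C := fun i j =>
    (contDiffOn_univ.1 (contDiffOn_hess isOpen_univ h.contDiffOn i j)).continuous
      |>.bounded_above_of_compact_support (HasCompactSupport.intro hc fun z hz => by
        rw [hess_of_notMem_tsupport hz, Matrix.zero_apply])
  choose C hC using h1
  refine ⟨∑ i, ∑ j, C i j, Finset.sum_nonneg fun i _ => Finset.sum_nonneg fun j _ =>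
    (norm_nonneg _).trans (hC i j 0), fun z v => (abs_re_le_norm _).trans ?_⟩
  rw [Finset.sum_mul]
  refine norm_sum_le_of_le _ fun i _ => ?_
  rw [Finset.sum_mul]
  refine norm_sum_le_of_le _ fun j _ => ?_
  rw [norm_mul, norm_mul, RCLike.norm_conj, mul_comm, sq]
  exact mul_le_mul (hC i j z) (mul_le_mul (PiLp.norm_apply_le v i) (PiLp.norm_apply_le v j)
    (norm_nonneg _) (norm_nonneg _)) (by positivity) ((norm_nonneg _).trans (hC i j 0))

/-- Rescale a fixed bump function (`ContDiffBump (0 : E n)` with radii `1` and `3 / 2`). -/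
theorem exists_bump (n : ℕ) : ∃ C : ℝ, 0 ≤ C ∧ ∀ (y : E n) (ρ : ℝ), 0 < ρ → ∃ χ : E n → ℝ,
    ContDiff ℝ ∞ χ ∧ HasCompactSupport χ ∧ tsupport χ ⊆ ball y (2 * ρ) ∧ (∀ z, 0 ≤ χ z) ∧
    (∀ z, χ z ≤ 1) ∧ (∀ z ∈ closedBall y ρ, χ z = 1) ∧
    ∀ z v, |levi χ z v| ≤ C * (ρ ^ 2)⁻¹ * ‖v‖ ^ 2 := by
  let φ : ContDiffBump (0 : E n) := ⟨1, 3 / 2, one_pos, by norm_num⟩
  obtain ⟨C, hC0, hC⟩ := Chain_levi_bd (ψ := φ) φ.contDiff φ.hasCompactSupport
  refine ⟨C, hC0, fun y ρ hρ => ?_⟩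
  have hn : ‖((ρ⁻¹ : ℝ) : ℂ)‖ = ρ⁻¹ := by
    rw [Complex.norm_real, Real.norm_of_nonneg (inv_pos.2 hρ).le]
  have hΦ : ContDiff ℂ 2 fun w : E n => ((ρ⁻¹ : ℝ) : ℂ) • (w - y) :=
    (contDiff_id.sub contDiff_const).const_smul _
  have hΦ' : ContDiff ℝ ∞ fun w : E n => ((ρ⁻¹ : ℝ) : ℂ) • (w - y) :=
    (contDiff_id.sub contDiff_const).const_smul _
  have hs : tsupport (fun w : E n => φ (((ρ⁻¹ : ℝ) : ℂ) • (w - y))) ⊆
      closedBall y (3 / 2 * ρ) := by
    refine closure_minimal (fun w hw => ?_) isClosed_closedBall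
    by_contra h0
    refine hw (φ.zero_of_le_dist ?_)
    rw [mem_closedBall, dist_eq_norm, not_le] at h0
    rw [dist_zero_right, norm_smul, hn, ← div_eq_inv_mul, le_div_iff₀ hρ]
    exact h0.le
  refine ⟨fun w => φ (((ρ⁻¹ : ℝ) : ℂ) • (w - y)), φ.contDiff.comp hΦ',
    (isCompact_closedBall _ _).of_isClosed_subset (isClosed_tsupport _) hs,
    hs.trans (closedBall_subset_ball (by linarith)), fun _ => φ.nonneg, fun _ => φ.le_one,
    fun z hz => φ.one_of_mem_closedBall ?_, fun z v => ?_⟩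
  · rw [mem_closedBall, dist_eq_norm] at hz
    rw [mem_closedBall, dist_zero_right, norm_smul, hn, ← div_eq_inv_mul]
    exact (div_le_one hρ).2 hz
  · have e : fderiv ℂ (fun w : E n => ((ρ⁻¹ : ℝ) : ℂ) • (w - y)) z v = ((ρ⁻¹ : ℝ) : ℂ) • v :=
      congrArg (fun T : E n →L[ℂ] E n => T v)
        (((hasFDerivAt_id z).sub_const y).const_smul ((ρ⁻¹ : ℝ) : ℂ)).fderiv
    rw [levi_comp (ψ := φ) hΦ.contDiffAt φ.contDiff.contDiffAt, e]
    refine (hC _ _).trans (le_of_eq ?_)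
    rw [norm_smul, hn, mul_pow, inv_pow, mul_assoc]

end Pool.Agent.Lib.MP_a47f92_an
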