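import Pool.Agent.Lib.MP_a47f92_an.HessA

set_option autoImplicit false
set_option linter.unusedSectionVars false

/-! Second order Wirtinger calculus and the complex Hessian. -/

namespace Pool.Agent.Lib.MP_a47f92_an

open MeasureTheory Filter Topology Set Complex Metric Function
open scoped ContDiff ComplexConjugate ComplexOrder Matrix ENNReal NNReal

variable {n : ℕ}

variable {f : E n → ℂ} {ψ φ : E n → ℝ} {z : E n}

theorem Hess_qf (H : Mat n) (v : E n) :
    qf H v = star (star v.ofLp) ⬝ᵥ H *ᵥ (star v.ofLp) := by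
  rw [star_star]
  simp only [qf, dotProduct, Matrix.mulVec, Finset.mul_sum, Pi.star_apply, Complex.star_def]
  exact Finset.sum_congr rfl fun i _ => Finset.sum_congr rfl fun j _ => by ring

theorem Hess_qf' (H : Mat n) (x : Fin n → ℂ) :
    star x ⬝ᵥ H *ᵥ x = qf H (WithLp.toLp 2 (star x)) := by
  rw [Hess_qf, star_star x]

theorem qf_im {H : Mat n} (hH : H.IsHermitian) (v : E n) : (qf H v).im = 0 := by
  rw [Hess_qf]
  exact hH.im_star_dotProduct_mulVec_self _

/-- Apply the definition of `PosSemidef` to the conjugate vector. -/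
theorem psd_of_qf {H : Mat n} (hH : H.IsHermitian) (h : ∀ v, 0 ≤ (qf H v).re) : H.PosSemidef := by
  refine .of_dotProduct_mulVec_nonneg hH fun x => ?_
  rw [Hess_qf', Complex.nonneg_iff]
  exact ⟨h _, (qf_im hH _).symm⟩

theorem qf_nonneg {H : Mat n} (hH : H.PosSemidef) (v : E n) : 0 ≤ (qf H v).re := by
  rw [Hess_qf]
  exact (Complex.nonneg_iff.1 (hH.dotProduct_mulVec_nonneg _)).1

/-- Polarisation. -/
theorem eq_zero_of_qf {H : Mat n} (hH : H.IsHermitian) (h : ∀ v, (qf H v).re = 0) : H = 0 := by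
  have hp := psd_of_qf hH fun v => (h v).ge
  have h1 : ∀ x, H *ᵥ x = 0 := fun x => by
    rw [← hp.dotProduct_mulVec_zero_iff, Hess_qf']
    exact Complex.ext (h _) (qf_im hH _)
  ext i j
  simpa using congrFun (h1 (Pi.single j 1)) i

theorem psd_hess (h : ContDiffAt ℝ 2 ψ z) (h' : ∀ v, 0 ≤ levi ψ z v) : (hess ψ z).PosSemidef :=
  psd_of_qf (hess_isHermitian h) h'

theorem hess_eq_zero (h : ContDiffAt ℝ 2 ψ z) (h' : ∀ v, levi ψ z v = 0) : hess ψ z = 0 :=
  eq_zero_of_qf (hess_isHermitian h) h'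

theorem levi_of_hess_eq_zero (h : hess ψ z = 0) (v : E n) : levi ψ z v = 0 := by
  simp [levi, h]

theorem qf_smul (H : Mat n) (c : ℂ) (v : E n) : qf H (c • v) = ((‖c‖ ^ 2 : ℝ) : ℂ) * qf H v := by
  simp only [qf, Finset.mul_sum, PiLp.smul_apply, smul_eq_mul, map_mul]
  refine Finset.sum_congr rfl fun i _ => Finset.sum_congr rfl fun j _ => ?_
  rw [ofReal_pow, ← Complex.mul_conj']
  ring

theorem qf_one (v : E n) : qf 1 v = ((‖v‖ ^ 2 : ℝ) : ℂ) := by
  simp only [qf, Matrix.one_apply, mul_ite, mul_one, mul_zero, Finset.sum_ite_eq, Finset.mem_univ,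
    if_true, Complex.mul_conj', EuclideanSpace.norm_sq_eq]
  push_cast
  rfl

theorem levi_smul (ψ : E n → ℝ) (z : E n) (c : ℂ) (v : E n) :
    levi ψ z (c • v) = ‖c‖ ^ 2 * levi ψ z v := by
  rw [levi_eq_qf, levi_eq_qf, qf_smul, re_ofReal_mul]

theorem levi_const_mul (c : ℝ) (ψ : E n → ℝ) (z v : E n) :
    levi (fun w => c * ψ w) z v = c * levi ψ z v := by
  rw [levi_eq_qf, levi_eq_qf, hess_const_mul, ← re_ofReal_mul]
  congr 1
  simp only [qf, Finset.mul_sum, Matrix.smul_apply, smul_eq_mul]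
  exact Finset.sum_congr rfl fun i _ => Finset.sum_congr rfl fun j _ => by ring

theorem levi_neg (ψ : E n → ℝ) (z v : E n) : levi (fun w => -ψ w) z v = -levi ψ z v := by
  simpa only [neg_mul, one_mul] using levi_const_mul (-1) ψ z v

theorem levi_add (h : ContDiffAt ℝ 2 ψ z) (h' : ContDiffAt ℝ 2 φ z) (v : E n) :
    levi (fun w => ψ w + φ w) z v = levi ψ z v + levi φ z v := by
  rw [levi_eq_qf, levi_eq_qf, levi_eq_qf, hess_add h h', ← add_re]
  simp only [qf, Matrix.add_apply, mul_add, Finset.sum_add_distrib]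

theorem tsupport_levi_subset (ψ : E n → ℝ) (v : E n) :
    tsupport (fun z => levi ψ z v) ⊆ tsupport ψ := by
  refine closure_minimal (fun z hz => ?_) (isClosed_tsupport ψ)
  by_contra h
  exact hz (levi_of_hess_eq_zero (hess_of_notMem_tsupport h) v)

theorem IsTest.isCC_levi (h : IsTest ψ) (v : E n) : IsCC fun z => levi ψ z v := by
  refine ⟨?_, h.2.1.of_isClosed_subset (isClosed_tsupport _) (tsupport_levi_subset ψ v),
    fun h0 => h.2.2 (tsupport_levi_subset ψ v h0)⟩
  exact (contDiffOn_univ.1 (contDiffOn_levi isOpen_univ h.1.contDiffOn v)).continuous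

end Pool.Agent.Lib.MP_a47f92_an
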