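import Pool.Agent.Lib.MP_a47f92_an.MDisc
import Pool.Agent.Lib.MP_a47f92_an.Hess

set_option autoImplicit false
set_option linter.unusedSectionVars false

/-! Algebra of the mixed discriminant: positivity and horizontality. -/

namespace Pool.Agent.Lib.MP_a47f92_an

open MeasureTheory Filter Topology Set Complex Metric Function
open scoped ContDiff ComplexConjugate ComplexOrder Matrix ENNReal NNReal

variable {n : ℕ}

variable {A : Fin n → Mat n} {l : Fin n}

/-- Write `A l = (B l)ᴴ * B l` as a sum of rank one matrices, expand by multilinearity (for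
instance directly in the definition with `Finset.prod_univ_sum`) and use `mdC_rank_one`. -/
theorem md_nonneg (h : ∀ l, (A l).PosSemidef) : 0 ≤ md A := by
  choose m v hv using fun l => Matrix.posSemidef_iff_eq_sum_vecMulVec.1 (h l)
  have h1 : mdC A = ∑ κ ∈ Fintype.piFinset fun l => (Finset.univ : Finset (Fin (m l))),
      mdC (fun l => Matrix.of fun i j => v l (κ l) i * conj (v l (κ l) j)) := by
    unfold mdC
    rw [Finset.sum_comm (s := Fintype.piFinset _)]
    refine Finset.sum_congr rfl fun σ _ => ?_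
    rw [Finset.sum_comm (s := Fintype.piFinset _)]
    refine Finset.sum_congr rfl fun π _ => ?_
    rw [← Finset.mul_sum]
    congr 1
    simp only [Matrix.of_apply]
    rw [← Finset.prod_univ_sum (fun l => (Finset.univ : Finset (Fin (m l))))
      (fun l k => v l k (σ l) * conj (v l k (π l)))]
    refine Finset.prod_congr rfl fun l _ => ?_
    rw [hv l, Matrix.sum_apply]
    rfl
  unfold md
  rw [h1, Complex.re_sum]
  refine Finset.sum_nonneg fun κ _ => ?_
  rw [mdC_rank_one, Complex.ofReal_re]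
  positivity

theorem MDisc2_qf_lin (a b : ℂ) (B C : Mat n) (v : E n) :
    qf (a • B + b • C) v = a * qf B v + b * qf C v := by
  simp only [qf, Finset.mul_sum, ← Finset.sum_add_distrib, Matrix.add_apply, Matrix.smul_apply,
    smul_eq_mul]
  exact Finset.sum_congr rfl fun i _ => Finset.sum_congr rfl fun j _ => by ring

/-- `c • 1 - B` and `c • 1 + B` are positive semidefinite. -/
theorem md_abs_le (hA : ∀ l', l' ≠ l → (A l').PosSemidef) {B : Mat n} (hB : B.IsHermitian) {c : ℝ}
    (hc : ∀ v, |(qf B v).re| ≤ c * ‖v‖ ^ 2) : |md (update A l B)| ≤ c * md (update A l 1) := by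
  have key : ∀ t : ℝ, (t = 1 ∨ t = -1) →
      0 ≤ c * md (update A l 1) + t * md (update A l B) := by
    intro t ht
    have h1 : ((c : ℂ) • (1 : Mat n) + (t : ℂ) • B).PosSemidef := by
      refine psd_of_qf ?_ fun v => ?_
      · unfold Matrix.IsHermitian
        rw [Matrix.conjTranspose_add, Matrix.conjTranspose_smul, Matrix.conjTranspose_smul,
          Matrix.conjTranspose_one, hB.eq]
        simp
      · rw [MDisc2_qf_lin, qf_one, ← Complex.ofReal_mul, Complex.add_re, Complex.ofReal_re,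
          Complex.re_ofReal_mul]
        have h2 := abs_le.1 (hc v)
        rcases ht with rfl | rfl <;> linarith [h2.1, h2.2]
    have h2 := md_nonneg (A := update A l ((c : ℂ) • (1 : Mat n) + (t : ℂ) • B)) fun l' => by
      by_cases h : l' = l
      · rw [h, update_self]; exact h1
      · rw [update_of_ne h]; exact hA l' h
    unfold md at h2 ⊢
    rwa [mdC_update_add, mdC_update_smul, mdC_update_smul, Complex.add_re, Complex.re_ofReal_mul,
      Complex.re_ofReal_mul] at h2
  have h1 := key 1 (Or.inl rfl)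
  have h2 := key (-1) (Or.inr rfl)
  rw [abs_le]
  constructor <;> linarith

/-- A nonzero vector is a column of an invertible map. -/
theorem exists_equiv_ev {e : E n} (he : e ≠ 0) (l : Fin n) :
    ∃ T : E n ≃L[ℂ] E n, T (ev l) = e := by
  refine SeparatingDual.exists_continuousLinearEquiv_apply_eq (fun h => ?_) he
  simpa [ev] using congrArg (fun z : E n => z l) h

theorem MDisc2_cong_apply (P H : Mat n) (i j : Fin n) :
    cong P H i j = ∑ a, ∑ b, P a i * H a b * conj (P b j) := by
  simp only [cong, Matrix.mul_apply, Matrix.transpose_apply, Matrix.map_apply, Finset.sum_mul]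
  exact Finset.sum_comm

theorem MDisc2_qf_ev (H : Mat n) (l : Fin n) : qf H (ev l) = H l l := by
  simp [qf, ev, PiLp.single_apply, apply_ite]

theorem MDisc2_only (h : ∀ l', l' ≠ l → (∀ j, A l' l j = 0) ∧ ∀ i, A l' i l = 0) (B : Mat n) :
    mdC (update A l B) = B l l * cof A l l l := by
  have h1 : ∀ i j, i ≠ l ∨ j ≠ l → cof A l i j = 0 := by
    intro i j hij
    rw [cof_eq]
    refine Finset.sum_eq_zero fun σ _ => Finset.sum_eq_zero fun π _ => ?_
    split_ifs with hc
    · refine mul_eq_zero_of_right _ ?_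
      rcases hij with hi | hj
      · have h2 : σ.symm l ≠ l := fun h3 => hi (by rw [← hc.1, ← h3, Equiv.apply_symm_apply, h3])
        refine Finset.prod_eq_zero (Finset.mem_erase.2 ⟨h2, Finset.mem_univ _⟩) ?_
        rw [Equiv.apply_symm_apply]
        exact (h _ h2).1 _
      · have h2 : π.symm l ≠ l := fun h3 => hj (by rw [← hc.2, ← h3, Equiv.apply_symm_apply, h3])
        refine Finset.prod_eq_zero (Finset.mem_erase.2 ⟨h2, Finset.mem_univ _⟩) ?_
        rw [Equiv.apply_symm_apply]
        exact (h _ h2).2 _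
    · rfl
  rw [mdC_update_eq, Finset.sum_eq_single l, Finset.sum_eq_single l]
  · intro j _ hj
    rw [h1 l j (Or.inr hj), mul_zero]
  · simp
  · intro i _ hi
    exact Finset.sum_eq_zero fun j _ => by rw [h1 i j (Or.inl hi), mul_zero]
  · simp

theorem MDisc2_det (T : E n ≃L[ℂ] E n) :
    ((‖(cmat (T : E n →L[ℂ] E n)).det‖ ^ 2 : ℝ) : ℂ) ≠ 0 := by
  have h1 : cmat (T : E n →L[ℂ] E n) * cmat (T.symm : E n →L[ℂ] E n) = 1 := by
    rw [← cmat_comp, T.coe_comp_coe_symm, cmat_id]
  have h2 := Matrix.det_ne_zero_of_right_inverse h1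
  exact Complex.ofReal_ne_zero.2 (pow_ne_zero _ (norm_ne_zero_iff.2 h2))

theorem MDisc2_cong (T : E n ≃L[ℂ] E n) (l : Fin n)
    (h : ∀ l', l' ≠ l → (∀ j, cong (cmat (T : E n →L[ℂ] E n)) (A l') l j = 0) ∧
      ∀ i, cong (cmat (T : E n →L[ℂ] E n)) (A l') i l = 0) (B : Mat n) :
    ((‖(cmat (T : E n →L[ℂ] E n)).det‖ ^ 2 : ℝ) : ℂ) * mdC (update A l B) =
      qf B (T (ev l)) * cof (fun l' => cong (cmat (T : E n →L[ℂ] E n)) (A l')) l l l := by
  have h1 : (fun l' => cong (cmat (T : E n →L[ℂ] E n)) (update A l B l')) =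
      update (fun l' => cong (cmat (T : E n →L[ℂ] E n)) (A l')) l
        (cong (cmat (T : E n →L[ℂ] E n)) B) := by
    funext l'
    by_cases hl : l' = l
    · rw [hl, update_self, update_self]
    · rw [update_of_ne hl, update_of_ne hl]
  rw [← mdC_cong, h1, MDisc2_only h, ← MDisc2_qf_ev (cong _ B), qf_cong]
  rfl

/-- Horizontality. Take `T` with `T (ev l) = e`, `P = cmat T`. The matrices `cong P (A l')` have
zero row and column `l`, so in `mdC (update (cong P ∘ A) l B')` only the entry `B' l l` matters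
(`mdC_update_eq`, `cof_eq`: if `σ l ≠ l` then `σ l' = l` for some `l' ≠ l`), and
`cong P B l l = qf B e`. Cancel `‖det P‖ ^ 2` using `mdC_cong`. -/
theorem mdC_horiz {e : E n} (he : e ≠ 0)
    (h : ∀ l', l' ≠ l → (∀ j, ∑ i, e i * A l' i j = 0) ∧ ∀ i, ∑ j, conj (e j) * A l' i j = 0)
    (B : Mat n) : ((‖e‖ ^ 2 : ℝ) : ℂ) * mdC (update A l B) = qf B e * mdC (update A l 1) := by
  obtain ⟨T, hT⟩ := exists_equiv_ev he l
  have hP : ∀ a, cmat (T : E n →L[ℂ] E n) a l = e a := fun a => by rw [← hT]; rfl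
  have key := MDisc2_cong (A := A) T l (fun l' hl' => ⟨fun j => by
      rw [MDisc2_cong_apply, Finset.sum_comm]
      refine Finset.sum_eq_zero fun b _ => ?_
      simp only [hP]
      rw [← Finset.sum_mul, (h l' hl').1 b, zero_mul], fun i => by
      rw [MDisc2_cong_apply]
      refine Finset.sum_eq_zero fun a _ => ?_
      simp only [hP, mul_assoc, mul_comm (A l' a _)]
      rw [← Finset.mul_sum, (h l' hl').2 a, mul_zero]⟩)
  have h1 := key B
  have h2 := key 1
  rw [hT] at h1 h2
  rw [qf_one] at h2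
  apply mul_left_cancel₀ (MDisc2_det T)
  linear_combination ((‖e‖ ^ 2 : ℝ) : ℂ) * h1 - qf B e * h2

/-- The form `B ↦ qf B v` is a mixed discriminant with rank one matrices: for `v ≠ 0` take `T` with
`T (ev l) = v`, `ℓ l' = (l'`-th coordinate of `T.symm)`, so that `cong (cmat T) (r1 (ℓ l'))` is the
elementary matrix at `(l', l')`, and `c = ‖det T‖ ^ 2`. -/
theorem exists_r1 (l : Fin n) (v : E n) : ∃ (ℓ : Fin n → E n →L[ℂ] ℂ) (c : ℝ), 0 ≤ c ∧
    ∀ B : Mat n, qf B v = c * mdC (update (fun l' => r1 (ℓ l')) l B) := by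
  rcases eq_or_ne v 0 with rfl | hv
  · exact ⟨0, 0, le_rfl, fun B => by simp [qf]⟩
  obtain ⟨T, hT⟩ := exists_equiv_ev hv l
  let ℓ : Fin n → E n →L[ℂ] ℂ := fun l' =>
    (EuclideanSpace.proj l' : E n →L[ℂ] ℂ).comp (T.symm : E n →L[ℂ] E n)
  have h0 : ∀ l' i, ∑ a, cmat (T : E n →L[ℂ] E n) a i * ℓ l' (ev a) = (1 : Mat n) l' i := by
    intro l' i
    have h1 : ℓ l' (T (ev i)) = (1 : Mat n) l' i := by
      simp [ℓ, ev, Matrix.one_apply]
    rw [← h1]
    conv_rhs => rw [← sum_ev (T (ev i)), map_sum]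
    exact Finset.sum_congr rfl fun a _ => by rw [map_smul]; rfl
  have h1 : ∀ l', cong (cmat (T : E n →L[ℂ] E n)) (r1 (ℓ l')) =
      Matrix.of fun i j => (1 : Mat n) l' i * conj ((1 : Mat n) l' j) := by
    intro l'
    ext i j
    rw [MDisc2_cong_apply, Matrix.of_apply, ← h0, ← h0, map_sum, Finset.sum_mul_sum]
    refine Finset.sum_congr rfl fun a _ => Finset.sum_congr rfl fun b _ => ?_
    simp only [r1, Matrix.of_apply, map_mul]
    ring
  refine ⟨ℓ, ‖(cmat (T : E n →L[ℂ] E n)).det‖ ^ 2, by positivity, fun B => ?_⟩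
  have h2 := MDisc2_cong (A := fun l' => r1 (ℓ l')) T l (fun l' hl' => ⟨fun j => by
    simp [h1, Matrix.one_apply, hl'], fun i => by simp [h1, Matrix.one_apply, hl']⟩) B
  have h3 : cof (fun l' => cong (cmat (T : E n →L[ℂ] E n)) (r1 (ℓ l'))) l l l = 1 := by
    have h4 : Matrix.single l l (1 : ℂ) = cong (cmat (T : E n →L[ℂ] E n)) (r1 (ℓ l)) := by
      rw [h1]
      ext i j
      by_cases hi : l = i <;> by_cases hj : l = j <;> simp [Matrix.single, Matrix.one_apply, hi, hj]
    unfold cof
    rw [h4, update_eq_self l fun l' => cong (cmat (T : E n →L[ℂ] E n)) (r1 (ℓ l'))]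
    simp only [h1]
    rw [mdC_rank_one]
    change ((‖(1 : Mat n).det‖ ^ 2 : ℝ) : ℂ) = 1
    simp
  rw [h2, h3, hT, mul_one]

theorem r1_psd (ℓ : E n →L[ℂ] ℂ) : (r1 ℓ).PosSemidef := by
  exact Matrix.posSemidef_vecMulVec_self_star fun i => ℓ (ev i)

theorem cong_psd (P : Mat n) {H : Mat n} (h : H.PosSemidef) : (cong P H).PosSemidef := by
  exact h.mul_mul_conjTranspose_same Pᵀ

end Pool.Agent.Lib.MP_a47f92_an
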