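import Pool.Agent.Lib.MP_a47f92_an.Parts
import Pool.Agent.Lib.MP_a47f92_an.Chain
import Pool.Agent.Lib.MP_a47f92_an.MDisc2

set_option autoImplicit false
set_option linter.unusedSectionVars false

/-! The Chern-Levine-Nirenberg inequality for smooth functions. -/

namespace Pool.Agent.Lib.MP_a47f92_an

open MeasureTheory Filter Topology Set Complex Metric Function
open scoped ContDiff ComplexConjugate ComplexOrder Matrix ENNReal NNReal

variable {n : ℕ}

/-- The family with `A` in the slot `l₀`, `B` in the slots of `S` and `1` elsewhere. -/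
noncomputable def sfam (l₀ : Fin n) (S : Finset (Fin n)) (A B : Mat n) : Fin n → Mat n :=
  fun l => if l = l₀ then A else if l ∈ S then B else 1

theorem CLN_update (p : Fin n → E n → ℝ) (l : Fin n) (q : E n → ℝ) (z : E n) :
    (fun l' => hess (update p l q l') z) = update (fun l' => hess (p l') z) l (hess q z) := by
  funext l'
  by_cases h : l' = l
  · subst h
    simp
  · simp [update_of_ne h]

theorem CLN_two_le : (2 : WithTop ℕ∞) ≤ (∞ : WithTop ℕ∞) := by
  exact WithTop.coe_le_coe.2 (le_top : (2 : ℕ∞) ≤ ⊤)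

theorem CLN_intOn {y : E n} {r r' : ℝ} (h : r < r') {F : E n → ℝ} (hF : ContinuousOn F (ball y r')) :
    IntegrableOn F (ball y r) :=
  ((hF.mono (closedBall_subset_ball h)).integrableOn_compact (isCompact_closedBall y r)).mono_set
    ball_subset_closedBall

theorem CLN_psd {Ω : Set (E n)} (hΩ : IsOpen Ω) {q : E n → ℝ} (hq : ContDiffOn ℝ ∞ q Ω)
    (h : ∀ z ∈ Ω, ∀ v, 0 ≤ levi q z v) {z : E n} (hz : z ∈ Ω) : (hess q z).PosSemidef :=
  psd_hess ((hq.contDiffAt (hΩ.mem_nhds hz)).of_le CLN_two_le) (h z hz)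

theorem CLN_step (n : ℕ) : ∃ C : ℝ, 0 ≤ C ∧ ∀ (l : Fin n) (y : E n) (ρ : ℝ)
    (p : Fin n → E n → ℝ), 0 < ρ → (∀ l', ContDiffOn ℝ ∞ (p l') (ball y (4 * ρ))) →
      (∀ l', ∀ z ∈ ball y (4 * ρ), ∀ v, 0 ≤ levi (p l') z v) →
      ∫ z in ball y ρ, md (fun l' => hess (p l') z) ≤ C * (ρ ^ 2)⁻¹ *
        ∫ z in ball y (2 * ρ), |p l z| * md (update (fun l' => hess (p l') z) l 1) := by
  obtain ⟨C, hC, hb⟩ := exists_bump n
  refine ⟨C, hC, fun l y ρ p hρ hp hpsh => ?_⟩
  obtain ⟨χ, hχ, hχc, hχs, hχ0, -, hχ1, hχl⟩ := hb y ρ hρ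
  have h24 : ball y (2 * ρ) ⊆ ball y (4 * ρ) := ball_subset_ball (by linarith)
  have hs : tsupport χ ⊆ ball y (4 * ρ) := hχs.trans h24
  have hpsd : ∀ z ∈ ball y (4 * ρ), ∀ l', (hess (p l') z).PosSemidef := fun z hz l' =>
    CLN_psd isOpen_ball (hp l') (hpsh l') hz
  have hF : ContinuousOn (fun z => md fun l' => hess (p l') z) (ball y (4 * ρ)) :=
    continuousOn_md isOpen_ball hp
  have hFχ : Continuous fun z => (md fun l' => hess (p l') z) * χ z :=
    continuous_mul_of_tsupport isOpen_ball hF hχ.continuous hs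
  have hint : Integrable fun z => (md fun l' => hess (p l') z) * χ z :=
    hFχ.integrable_of_hasCompactSupport hχc.mul_left
  have hnn : ∀ z, 0 ≤ (md fun l' => hess (p l') z) * χ z := by
    intro z
    by_cases hz : z ∈ tsupport χ
    · exact mul_nonneg (md_nonneg (hpsd z (hs hz))) (hχ0 z)
    · rw [image_eq_zero_of_notMem_tsupport hz, mul_zero]
  have e1 : ∫ z in ball y ρ, md (fun l' => hess (p l') z) =
      ∫ z in ball y ρ, (md fun l' => hess (p l') z) * χ z := by
    refine setIntegral_congr_fun measurableSet_ball fun z hz => ?_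
    simp only [hχ1 z (ball_subset_closedBall hz), mul_one]
  have e2 : ∫ z, (md fun l' => hess (p l') z) * χ z =
      ∫ z, p l z * md (update (fun l' => hess (p l') z) l (hess χ z)) := by
    rw [byparts isOpen_ball (fun l' _ => hp l') (hp l) hχ hχc hs]
    congr 1
    funext z
    rw [update_eq_self l (fun l' => hess (p l') z), mul_comm]
  have e3 : ∫ z in ball y (2 * ρ), p l z * md (update (fun l' => hess (p l') z) l (hess χ z)) =
      ∫ z, p l z * md (update (fun l' => hess (p l') z) l (hess χ z)) := by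
    refine setIntegral_eq_integral_of_forall_compl_eq_zero fun z hz => ?_
    rw [md_update_of_notMem fun h => hz (hχs h), mul_zero]
  have hG : ContinuousOn (fun z => p l z * md (update (fun l' => hess (p l') z) l (hess χ z)))
      (ball y (4 * ρ)) :=
    (hp l).continuousOn.mul
      (continuous_md_update isOpen_ball (fun l' _ => hp l') hχ hs).continuousOn
  have h1 : ContinuousOn (fun z => md (update (fun l' => hess (p l') z) l 1)) (ball y (4 * ρ)) := by
    have h2 := continuousOn_md (p := update p l fun w : E n => ‖w‖ ^ 2) (Ω := ball y (4 * ρ))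
      isOpen_ball (fun l' => by
        by_cases h : l' = l
        · subst h
          rw [update_self]
          exact contDiff_normSq.contDiffOn
        · rw [update_of_ne h]
          exact hp l')
    simpa only [CLN_update, hess_normSq] using h2
  have hH : ContinuousOn (fun z => C * (ρ ^ 2)⁻¹ *
      (|p l z| * md (update (fun l' => hess (p l') z) l 1))) (ball y (4 * ρ)) :=
    continuousOn_const.mul ((hp l).continuousOn.abs.mul h1)
  rw [e1, ← integral_const_mul]
  refine (setIntegral_le_integral hint (Eventually.of_forall hnn)).trans ?_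
  rw [e2, ← e3]
  refine setIntegral_mono_on (CLN_intOn (by linarith) hG) (CLN_intOn (by linarith) hH)
    measurableSet_ball fun z hz => ?_
  have h3 := md_abs_le (A := fun l' => hess (p l') z) (l := l) (fun l' _ => hpsd z (h24 hz) l')
    (hess_isHermitian (hχ.contDiffAt.of_le CLN_two_le)) (c := C * (ρ ^ 2)⁻¹) (hχl z)
  calc p l z * md (update (fun l' => hess (p l') z) l (hess χ z))
      ≤ |p l z * md (update (fun l' => hess (p l') z) l (hess χ z))| := le_abs_self _
    _ = |p l z| * |md (update (fun l' => hess (p l') z) l (hess χ z))| := abs_mul _ _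
    _ ≤ |p l z| * (C * (ρ ^ 2)⁻¹ * md (update (fun l' => hess (p l') z) l 1)) :=
        mul_le_mul_of_nonneg_left h3 (abs_nonneg _)
    _ = _ := by ring

/-- The family of potentials behind `sfam`. -/
noncomputable def CLNp (l₀ : Fin n) (S : Finset (Fin n)) (a g : E n → ℝ) : Fin n → E n → ℝ :=
  fun l => if l = l₀ then a else if l ∈ S then g else fun w => ‖w‖ ^ 2

theorem CLN_hess (l₀ : Fin n) (S : Finset (Fin n)) (a g : E n → ℝ) (z : E n) :
    (fun l => hess (CLNp l₀ S a g l) z) = sfam l₀ S (hess a z) (hess g z) := by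
  funext l
  unfold CLNp sfam
  split_ifs
  · rfl
  · rfl
  · exact hess_normSq z

theorem CLN_smooth (l₀ : Fin n) (S : Finset (Fin n)) {a g : E n → ℝ} {Ω : Set (E n)}
    (ha : ContDiffOn ℝ ∞ a Ω) (hg : ContDiffOn ℝ ∞ g Ω) (l : Fin n) :
    ContDiffOn ℝ ∞ (CLNp l₀ S a g l) Ω := by
  unfold CLNp
  split_ifs
  · exact ha
  · exact hg
  · exact contDiff_normSq.contDiffOn

theorem CLN_levi (l₀ : Fin n) (S : Finset (Fin n)) {a g : E n → ℝ} {Ω : Set (E n)}
    (ha : ∀ z ∈ Ω, ∀ v, 0 ≤ levi a z v) (hg : ∀ z ∈ Ω, ∀ v, 0 ≤ levi g z v) (l : Fin n) :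
    ∀ z ∈ Ω, ∀ v, 0 ≤ levi (CLNp l₀ S a g l) z v := by
  unfold CLNp
  split_ifs
  · exact ha
  · exact hg
  · intro z _ v
    rw [levi_eq_qf, hess_normSq, qf_one, ofReal_re]
    positivity

/-- Induction on `S`. Let `χ` be the bump of `exists_bump`. For `S = ∅`:
`∫_{B(ρ)} md ≤ ∫ χ md (update 1 l₀ (hess a)) = ∫ a md (update 1 l₀ (hess χ))` (`byparts`, with
`1 = hess (‖·‖ ^ 2)`), and `md_abs_le`. For `insert l S`:
`∫ χ md (update _ l (hess g)) = ∫ g md (update _ l (hess χ)) ≤ M C ρ⁻² ∫_{B(2ρ)} md (update _ l 1)`.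
All integrands are nonnegative (`md_nonneg`) and continuous on the big ball. -/
theorem cln (l₀ : Fin n) (S : Finset (Fin n)) (hl : l₀ ∉ S) : ∃ C : ℝ, 0 ≤ C ∧
    ∀ (y : E n) (ρ M : ℝ) (a g : E n → ℝ), 0 < ρ → 0 ≤ M →
      ContDiffOn ℝ ∞ a (ball y (2 ^ (S.card + 2) * ρ)) →
      ContDiffOn ℝ ∞ g (ball y (2 ^ (S.card + 2) * ρ)) →
      (∀ z ∈ ball y (2 ^ (S.card + 2) * ρ), ∀ v, 0 ≤ levi a z v) →
      (∀ z ∈ ball y (2 ^ (S.card + 2) * ρ), ∀ v, 0 ≤ levi g z v) →
      (∀ z ∈ ball y (2 ^ (S.card + 2) * ρ), |g z| ≤ M) →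
      ∫ z in ball y ρ, md (sfam l₀ S (hess a z) (hess g z)) ≤
        C * M ^ S.card * (ρ ^ 2)⁻¹ ^ (S.card + 1) *
          ∫ z in ball y (2 ^ (S.card + 1) * ρ), |a z| := by
  obtain ⟨C, hC, hstep⟩ := CLN_step n
  induction S using Finset.induction_on with
  | empty =>
    have h0 : 0 ≤ md (fun _ : Fin n => (1 : Mat n)) := md_nonneg fun _ => Matrix.PosSemidef.one
    refine ⟨C * md (fun _ : Fin n => (1 : Mat n)), mul_nonneg hC h0, ?_⟩
    intro y ρ M a g hρ _ ha hg hla hlg _
    simp only [Finset.card_empty, zero_add, pow_zero, pow_one, mul_one] at ha hg hla hlg ⊢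
    rw [show (2 : ℝ) ^ 2 = 4 by norm_num] at ha hg hla hlg
    have h1 := hstep l₀ y ρ (CLNp l₀ ∅ a g) hρ (CLN_smooth l₀ ∅ ha hg) (CLN_levi l₀ ∅ hla hlg)
    have e1 : ∀ A B : Mat n, update (sfam l₀ ∅ A B) l₀ 1 = fun _ => 1 := by
      intro A B
      funext l
      by_cases h : l = l₀
      · subst h
        simp
      · simp [sfam, h]
    have e2 : CLNp l₀ ∅ a g l₀ = a := by simp [CLNp]
    simp only [CLN_hess, e1, e2] at h1
    rw [integral_mul_const] at h1
    refine h1.trans (le_of_eq ?_)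
    ring
  | insert l S hlS ih =>
    have hne : l ≠ l₀ := fun h => hl (h ▸ Finset.mem_insert_self l S)
    obtain ⟨C', hC', ih⟩ := ih fun h => hl (Finset.mem_insert_of_mem h)
    refine ⟨C * C', mul_nonneg hC hC', ?_⟩
    intro y ρ M a g hρ hM ha hg hla hlg hgM
    rw [Finset.card_insert_of_notMem hlS] at ha hg hla hlg hgM ⊢
    have r1 : (2 : ℝ) ^ (S.card + 1 + 2) * ρ = 2 ^ (S.card + 2) * (2 * ρ) := by ring
    have r2 : (2 : ℝ) ^ (S.card + 1 + 1) * ρ = 2 ^ (S.card + 1) * (2 * ρ) := by ring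
    rw [r1] at ha hg hla hlg hgM
    rw [r2]
    have hsub : ball y (4 * ρ) ⊆ ball y (2 ^ (S.card + 2) * (2 * ρ)) := by
      apply ball_subset_ball
      have : (1 : ℝ) ≤ 2 ^ S.card := one_le_pow₀ (by norm_num)
      rw [pow_add]
      nlinarith
    have h24 : ball y (2 * ρ) ⊆ ball y (4 * ρ) := ball_subset_ball (by linarith)
    have ha' := ha.mono hsub
    have hg' := hg.mono hsub
    have hla' : ∀ z ∈ ball y (4 * ρ), ∀ v, 0 ≤ levi a z v := fun z hz => hla z (hsub hz)
    have hlg' : ∀ z ∈ ball y (4 * ρ), ∀ v, 0 ≤ levi g z v := fun z hz => hlg z (hsub hz)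
    have h1 := hstep l y ρ (CLNp l₀ (insert l S) a g) hρ (CLN_smooth l₀ _ ha' hg')
      (CLN_levi l₀ _ hla' hlg')
    have e1 : ∀ A B : Mat n, update (sfam l₀ (insert l S) A B) l 1 = sfam l₀ S A B := by
      intro A B
      funext l'
      by_cases h : l' = l
      · subst h
        simp [sfam, hne, hlS]
      · simp [sfam, h]
    have e2 : CLNp l₀ (insert l S) a g l = g := by simp [CLNp, hne]
    simp only [CLN_hess, e1, e2] at h1
    have h2 := ih y (2 * ρ) M a g (by linarith) hM ha hg hla hlg hgM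
    have hF : ContinuousOn (fun z => md (sfam l₀ S (hess a z) (hess g z))) (ball y (4 * ρ)) := by
      simpa only [CLN_hess] using continuousOn_md isOpen_ball (CLN_smooth l₀ S ha' hg')
    have h3 : ∫ z in ball y (2 * ρ), |g z| * md (sfam l₀ S (hess a z) (hess g z)) ≤
        M * ∫ z in ball y (2 * ρ), md (sfam l₀ S (hess a z) (hess g z)) := by
      rw [← integral_const_mul]
      refine setIntegral_mono_on (CLN_intOn (by linarith) (hg'.continuousOn.abs.mul hF))
        (CLN_intOn (by linarith) (continuousOn_const.mul hF)) measurableSet_ball fun z hz => ?_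
      refine mul_le_mul_of_nonneg_right (hgM z (hsub (h24 hz))) ?_
      rw [← CLN_hess]
      exact md_nonneg fun l' => CLN_psd isOpen_ball (CLN_smooth l₀ S ha' hg' l')
        (CLN_levi l₀ S hla' hlg' l') (h24 hz)
    have hI : 0 ≤ ∫ z in ball y (2 ^ (S.card + 1) * (2 * ρ)), |a z| :=
      integral_nonneg fun z => abs_nonneg _
    have h4 : ((2 * ρ) ^ 2)⁻¹ ≤ (ρ ^ 2)⁻¹ := inv_anti₀ (by positivity) (by nlinarith)
    calc _ ≤ _ := h1
      _ ≤ C * (ρ ^ 2)⁻¹ * (M * (C' * M ^ S.card * ((2 * ρ) ^ 2)⁻¹ ^ (S.card + 1) *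
            ∫ z in ball y (2 ^ (S.card + 1) * (2 * ρ)), |a z|)) :=
          mul_le_mul_of_nonneg_left (h3.trans (mul_le_mul_of_nonneg_left h2 hM)) (by positivity)
      _ ≤ C * (ρ ^ 2)⁻¹ * (M * (C' * M ^ S.card * (ρ ^ 2)⁻¹ ^ (S.card + 1) *
            ∫ z in ball y (2 ^ (S.card + 1) * (2 * ρ)), |a z|)) := by gcongr
      _ = _ := by ring

/-- `fam A 1 B = sfam 0 S A B` with `S = univ \ {0, 1}` of cardinality `s`. -/
theorem cln_fam (s : ℕ) : ∃ C : ℝ, 0 ≤ C ∧
    ∀ (y : E (s + 2)) (ρ M : ℝ) (a g : E (s + 2) → ℝ), 0 < ρ → 0 ≤ M →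
      ContDiffOn ℝ ∞ a (ball y (2 ^ (s + 2) * ρ)) → ContDiffOn ℝ ∞ g (ball y (2 ^ (s + 2) * ρ)) →
      (∀ z ∈ ball y (2 ^ (s + 2) * ρ), ∀ v, 0 ≤ levi a z v) →
      (∀ z ∈ ball y (2 ^ (s + 2) * ρ), ∀ v, 0 ≤ levi g z v) →
      (∀ z ∈ ball y (2 ^ (s + 2) * ρ), |g z| ≤ M) →
      ∫ z in ball y ρ, md (fam (hess a z) 1 (hess g z)) ≤
        C * M ^ s * (ρ ^ 2)⁻¹ ^ (s + 1) * ∫ z in ball y (2 ^ (s + 1) * ρ), |a z| := by
  have h01 : (0 : Fin (s + 2)) ≠ 1 := Fin.zero_ne_one
  have hcard : ((Finset.univ.erase (0 : Fin (s + 2))).erase 1).card = s := by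
    rw [Finset.card_erase_of_mem (by simp), Finset.card_erase_of_mem (Finset.mem_univ _)]
    simp
  have e : ∀ A B : Mat (s + 2),
      fam A 1 B = sfam 0 ((Finset.univ.erase (0 : Fin (s + 2))).erase 1) A B := by
    intro A B
    funext l
    refine Fin.cases ?_ (fun i => ?_) l
    · simp [sfam, fam]
    · refine Fin.cases ?_ (fun j => ?_) i
      · simp [sfam, fam]
      · have h1 : j.succ.succ ≠ (1 : Fin (s + 2)) := by
          intro h
          have := congrArg Fin.val h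
          simp at this
        simp [sfam, fam, h1, Fin.succ_ne_zero]
  have h := cln (0 : Fin (s + 2)) ((Finset.univ.erase (0 : Fin (s + 2))).erase 1) (by simp)
  rw [hcard] at h
  simpa only [e] using h

end Pool.Agent.Lib.MP_a47f92_an
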