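import Pool.Agent.Lib.MP_a47f92_an.MDisc
import Pool.Agent.Lib.MP_a47f92_an.Hess

set_option autoImplicit false
set_option linter.unusedSectionVars false

/-! Chain rule and explicit Hessians. -/

namespace Pool.Agent.Lib.MP_a47f92_an

open MeasureTheory Filter Topology Set Complex Metric Function
open scoped ContDiff ComplexConjugate ComplexOrder Matrix ENNReal NNReal

variable {n : ℕ}

variable {ψ p : E n → ℝ} {z : E n}

theorem ChainA_wd_clm (ℓ : E n →L[ℂ] ℂ) (v z : E n) : wd v (fun w => ℓ w) z = ℓ v := by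
  rw [wd_holo (f := fun w => ℓ w) ℓ.differentiableAt]
  exact congrArg (fun T : E n →L[ℂ] ℂ => T v) ℓ.fderiv

theorem ChainA_diff_clm (ℓ : E n →L[ℂ] ℂ) (z : E n) : DifferentiableAt ℝ (fun w => ℓ w) z :=
  (ℓ.differentiableAt (x := z)).restrictScalars ℝ

theorem ChainA_diff_conj {g : E n → ℂ} (h : DifferentiableAt ℝ g z) :
    DifferentiableAt ℝ (fun w => conj (g w)) z :=
  (Complex.conjCLE.differentiableAt (x := g z)).comp z h

theorem ChainA_wb_mul_conj (ℓ : E n →L[ℂ] ℂ) (v z : E n) :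
    wb v (fun w => ℓ w * conj (ℓ w)) z = conj (ℓ v) * ℓ z := by
  rw [wb_mul (ChainA_diff_clm ℓ z) (ChainA_diff_conj (ChainA_diff_clm ℓ z)),
    wb_holo (f := fun w => ℓ w) ℓ.differentiableAt, wb_conj (fun w => ℓ w), ChainA_wd_clm]
  ring

/-- Near `z`, `wb (ev j) (ψ ∘ Φ) = ∑ b, conj (∂_j Φ_b) * (wb (ev b) ψ) ∘ Φ` by `wb_comp` and `wb_vec`;
apply `wd (ev i)`: the factor `conj (∂_j Φ_b)` is antiholomorphic (`wd_conj`, `wb_holo`). -/
theorem hess_comp {Φ : E n → E n} (hΦ : ContDiffAt ℂ 2 Φ z) (hψ : ContDiffAt ℝ 2 ψ (Φ z)) :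
    hess (fun w => ψ (Φ w)) z = cong (cmat (fderiv ℂ Φ z)) (hess ψ (Φ z)) := by
  ext i j
  have hf : ContDiffAt ℝ 2 (fun w => (ψ w : ℂ)) (Φ z) :=
    (Complex.ofRealCLM.contDiff.contDiffAt (x := ψ (Φ z))).comp (Φ z) hψ
  have hΦd : DifferentiableAt ℂ Φ z := hΦ.differentiableAt (by norm_num)
  have e1 : ∀ᶠ w in 𝓝 z, ContDiffAt ℂ 2 Φ w := hΦ.eventually (by simp)
  have e2 : ∀ᶠ w in 𝓝 z, ContDiffAt ℝ 2 (fun w => (ψ w : ℂ)) (Φ w) :=
    hΦ.continuousAt.eventually (hf.eventually (by simp))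
  have e3 : (wb (ev j) fun w => (ψ (Φ w) : ℂ)) =ᶠ[𝓝 z]
      fun w => ∑ b, conj (fderiv ℂ Φ w (ev j) b) * wb (ev b) (fun w => (ψ w : ℂ)) (Φ w) := by
    filter_upwards [e1, e2] with w h1 h2
    rw [wb_comp (f := fun w => (ψ w : ℂ)) (h1.differentiableAt (by norm_num))
      (h2.differentiableAt (by norm_num)), wb_vec]
  have hD : DifferentiableAt ℂ (fun w => fderiv ℂ Φ w) z :=
    (hΦ.fderiv_right (m := 1) (by norm_num)).differentiableAt (by norm_num)
  have hg : ∀ b, DifferentiableAt ℂ (fun w => fderiv ℂ Φ w (ev j) b) z := fun b =>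
    ((EuclideanSpace.proj (𝕜 := ℂ) b).differentiableAt).comp z
      (hD.clm_apply (differentiableAt_const (ev j)))
  have hw : ∀ b, DifferentiableAt ℝ (wb (ev b) fun w => (ψ w : ℂ)) (Φ z) := fun b =>
    (contDiffAt_wb (m := 1) hf (by norm_num) (ev b)).differentiableAt (by norm_num)
  have hw' : ∀ b, DifferentiableAt ℝ (fun w => wb (ev b) (fun w => (ψ w : ℂ)) (Φ w)) z := fun b =>
    (hw b).comp z (hΦd.restrictScalars ℝ)
  rw [hess_apply, (wd_congr e3 (ev i)).eq_of_nhds, wd_sum _ fun b _ =>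
    (ChainA_diff_conj ((hg b).restrictScalars ℝ)).fun_mul (hw' b)]
  simp only [cong, Matrix.mul_apply, Matrix.transpose_apply, Matrix.map_apply, cmat,
    Matrix.of_apply]
  refine Finset.sum_congr rfl fun b _ => ?_
  rw [wd_mul (ChainA_diff_conj ((hg b).restrictScalars ℝ)) (hw' b),
    wd_conj (fun w => fderiv ℂ Φ w (ev j) b), wb_holo (hg b), wd_comp hΦd (hw b), wd_vec]
  simp only [hess_apply, map_zero, zero_mul, zero_add]
  ring

theorem levi_comp {Φ : E n → E n} (hΦ : ContDiffAt ℂ 2 Φ z) (hψ : ContDiffAt ℝ 2 ψ (Φ z))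
    (v : E n) : levi (fun w => ψ (Φ w)) z v = levi ψ (Φ z) (fderiv ℂ Φ z v) := by
  rw [levi_eq_qf, levi_eq_qf, hess_comp hΦ hψ, qf_cong]

theorem hess_comp_smul {a : ℝ} (hψ : ContDiffAt ℝ 2 ψ (a • z)) :
    hess (fun w => ψ (a • w)) z = ((a ^ 2 : ℝ) : ℂ) • hess ψ (a • z) := by
  have hΦ : ContDiffAt ℂ 2 (fun w : E n => (a : ℂ) • w) z := contDiffAt_id.const_smul _
  have e : ∀ w : E n, a • w = (a : ℂ) • w := fun w => (Complex.coe_smul a w).symm
  have hd : fderiv ℂ (fun w : E n => (a : ℂ) • w) z = (a : ℂ) • ContinuousLinearMap.id ℂ (E n) :=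
    ((hasFDerivAt_id z).const_smul (a : ℂ)).fderiv
  have hc : cmat ((a : ℂ) • ContinuousLinearMap.id ℂ (E n)) = (a : ℂ) • (1 : Mat n) := by
    rw [← cmat_id]
    ext i j
    simp [cmat]
  simp only [e] at hψ ⊢
  rw [hess_comp hΦ hψ, hd, hc, cong]
  have hm : ((a : ℂ) • (1 : Mat n)).map conj = (a : ℂ) • (1 : Mat n) := by
    ext i j
    by_cases h : i = j <;> simp [h]
  rw [hm]
  simp only [Matrix.transpose_smul, Matrix.transpose_one, Matrix.smul_mul, Matrix.mul_smul,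
    Matrix.one_mul, Matrix.mul_one, smul_smul]
  congr 1
  push_cast
  ring

theorem hess_normSq (z : E n) : hess (fun w : E n => ‖w‖ ^ 2) z = 1 := by
  ext i j
  have e : (fun w : E n => ((‖w‖ ^ 2 : ℝ) : ℂ)) = fun w =>
      ∑ k, EuclideanSpace.proj (𝕜 := ℂ) k w * conj (EuclideanSpace.proj (𝕜 := ℂ) k w) := by
    funext w
    rw [EuclideanSpace.norm_sq_eq]
    push_cast
    refine Finset.sum_congr rfl fun k _ => ?_
    rw [Complex.mul_conj']
    rfl
  have e2 : (wb (ev j) fun w : E n =>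
      ∑ k, EuclideanSpace.proj (𝕜 := ℂ) k w * conj (EuclideanSpace.proj (𝕜 := ℂ) k w)) =
      fun w => EuclideanSpace.proj (𝕜 := ℂ) j w := by
    funext w
    rw [wb_sum _ fun k _ => (ChainA_diff_clm _ w).fun_mul (ChainA_diff_conj (ChainA_diff_clm _ w))]
    simp only [ChainA_wb_mul_conj]
    rw [Finset.sum_eq_single j]
    · simp [ev]
    · intro k _ hk
      simp [ev, hk]
    · simp
  rw [hess_apply, e, e2, ChainA_wd_clm]
  by_cases h : i = j
  · subst h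
    simp [ev]
  · simp [h, ev, Ne.symm h]

theorem contDiff_normSq : ContDiff ℝ ∞ fun w : E n => ‖w‖ ^ 2 := by
  exact contDiff_norm_sq ℂ

theorem hess_r1 (ℓ : E n →L[ℂ] ℂ) (z : E n) : hess (fun w => ‖ℓ w‖ ^ 2) z = r1 ℓ := by
  ext i j
  have e : (fun w : E n => ((‖ℓ w‖ ^ 2 : ℝ) : ℂ)) = fun w => ℓ w * conj (ℓ w) := by
    funext w
    rw [Complex.mul_conj']
    push_cast
    rfl
  have e2 : (wb (ev j) fun w : E n => ℓ w * conj (ℓ w)) = fun w => conj (ℓ (ev j)) * ℓ w := by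
    funext w
    exact ChainA_wb_mul_conj ℓ _ w
  rw [hess_apply, e, e2, wd_const_mul _ (fun w => ℓ w), ChainA_wd_clm]
  simp only [r1, Matrix.of_apply]
  ring

end Pool.Agent.Lib.MP_a47f92_an
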