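import Pool.Agent.Lib.MP_a47f92_an.Chain

set_option autoImplicit false
set_option linter.unusedSectionVars false

/-! Means over circles. -/

namespace Pool.Agent.Lib.MP_a47f92_an

open MeasureTheory Filter Topology Set Complex Metric Function
open scoped ContDiff ComplexConjugate ComplexOrder Matrix ENNReal NNReal

variable {n : ℕ}

variable {p : E n → ℝ} {Ω : Set (E n)} {z w : E n} {R : ℝ}

/-- Mean of `p` over the circle of radius `r` in the complex line `z + ℂ w`. -/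
noncomputable def cm (p : E n → ℝ) (z w : E n) (r : ℝ) : ℝ :=
  (2 * Real.pi)⁻¹ * ∫ θ in (0 : ℝ)..2 * Real.pi, p (z + ((r : ℂ) * exp (θ * I)) • w)

theorem Circle_cont {G : ℝ → ℝ → ℝ} {T s : ℝ}
    (hG : ContinuousOn (fun q : ℝ × ℝ => G q.1 q.2) (Iio T ×ˢ univ)) (hs : s < T) :
    Continuous (G s) :=
  hG.comp_continuous (f := fun θ : ℝ => (s, θ)) (by fun_prop) fun _ => ⟨hs, trivial⟩

theorem Circle_der {F F' : ℝ → ℝ → ℝ} {T t : ℝ} (a b : ℝ) (ht : t < T)
    (hF : ContinuousOn (fun q : ℝ × ℝ => F q.1 q.2) (Iio T ×ˢ univ))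
    (hF' : ContinuousOn (fun q : ℝ × ℝ => F' q.1 q.2) (Iio T ×ˢ univ))
    (hd : ∀ s < T, ∀ θ, HasDerivAt (fun s => F s θ) (F' s θ) s) :
    HasDerivAt (fun s => ∫ θ in a..b, F s θ) (∫ θ in a..b, F' t θ) t := by
  have hc : ∀ {G : ℝ → ℝ → ℝ}, ContinuousOn (fun q : ℝ × ℝ => G q.1 q.2) (Iio T ×ˢ univ) →
      ∀ s < T, Continuous (G s) := fun hG s hs => Circle_cont hG hs
  have hs : Icc (t - 1) ((t + T) / 2) ⊆ Iio T := fun s hs => by
    have := hs.2
    simp only [mem_Iio]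
    linarith
  obtain ⟨C, hC⟩ := ((isCompact_Icc (a := t - 1) (b := (t + T) / 2)).prod
    (isCompact_uIcc (a := a) (b := b))).exists_bound_of_continuousOn
      (hF'.mono (prod_mono hs (subset_univ _)))
  refine (intervalIntegral.hasDerivAt_integral_of_dominated_loc_of_deriv_le (μ := volume)
    (s := Icc (t - 1) ((t + T) / 2)) (bound := fun _ => C)
    (Icc_mem_nhds (by linarith) (by linarith)) ?_ ((hc hF t ht).intervalIntegrable _ _)
    (hc hF' t ht).aestronglyMeasurable ?_ intervalIntegrable_const ?_).2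
  · filter_upwards [Iio_mem_nhds ht] with s hs using (hc hF s hs).aestronglyMeasurable
  · exact Eventually.of_forall fun θ hθ s hs => hC (s, θ) ⟨hs, uIoc_subset_uIcc hθ⟩
  · exact Eventually.of_forall fun θ _ s hs' => hd s (hs hs') θ

theorem Circle_norm (r θ : ℝ) : ‖(r : ℂ) * exp (θ * I)‖ = |r| := by
  rw [norm_mul, norm_exp_ofReal_mul_I, mul_one, norm_real, Real.norm_eq_abs]

theorem Circle_dt (w : E n) (t θ : ℝ) :
    HasDerivAt (fun s : ℝ => ((Real.exp s : ℂ) * exp (θ * I)) • w)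
      (((Real.exp t : ℂ) * exp (θ * I)) • w) t :=
  ((Real.hasDerivAt_exp t).ofReal_comp.mul_const _).smul_const w

theorem Circle_dth (w : E n) (r θ : ℝ) :
    HasDerivAt (fun s : ℝ => ((r : ℂ) * exp (s * I)) • w) (I • ((r : ℂ) * exp (θ * I)) • w) θ := by
  have h := ((((hasDerivAt_id θ).ofReal_comp.mul_const I).cexp).const_mul (r : ℂ)).smul_const w
  refine h.congr_deriv ?_
  rw [smul_smul]
  congr 1
  simp only [id, ofReal_one]
  ring

theorem cm_zero (p : E n → ℝ) (z w : E n) : cm p z w 0 = p z := by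
  have := Real.pi_pos
  simp only [cm, ofReal_zero, zero_mul, zero_smul, add_zero, intervalIntegral.integral_const,
    sub_zero, smul_eq_mul]
  field_simp

theorem cm_continuousOn (hp : ContinuousOn p Ω) (h : ∀ ζ : ℂ, ‖ζ‖ ≤ R → z + ζ • w ∈ Ω) :
    ContinuousOn (cm p z w) (Icc 0 R) := by
  refine continuousOn_const.mul ?_
  rw [continuousOn_iff_continuous_domRestrict]
  refine intervalIntegral.continuous_parametric_intervalIntegral_of_continuous' (μ := volume)
    (f := fun (r : Icc (0 : ℝ) R) (θ : ℝ) => p (z + (((r : ℝ) : ℂ) * exp (θ * I)) • w)) ?_ _ _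
  refine hp.comp_continuous (f := fun q : Icc (0 : ℝ) R × ℝ =>
    z + (((q.1 : ℝ) : ℂ) * exp (q.2 * I)) • w) (by fun_prop) fun q => h _ ?_
  rw [Circle_norm, abs_of_nonneg q.1.2.1]
  exact q.1.2.2

/-- Put `γ t θ = z + exp (t + θ I) • w`, `v = γ t θ - z`. Then `∂_t γ = v`, `∂_θ γ = I • v`, so with
`P = p ∘ γ`: `P_tt = D²p (v, v) + Dp v`, `P_θθ = D²p (I v, I v) - Dp v`, hence
`P_tt + P_θθ = 4 levi p γ v` (`levi_eq_real`). The integral of `P_θθ` over a period vanishes.
Differentiate twice under the integral sign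
(`intervalIntegral.hasDerivAt_integral_of_dominated_loc_of_deriv_le`; the integrands are continuous
on compact rectangles). Since `Ω` is open the hypothesis `h` also holds for a radius `R' > R`. -/
theorem cm_deriv (hΩ : IsOpen Ω) (hp : ContDiffOn ℝ ∞ p Ω) (hR : 0 < R)
    (h : ∀ ζ : ℂ, ‖ζ‖ ≤ R → z + ζ • w ∈ Ω) : ∃ m' : ℝ → ℝ, ∀ t ≤ Real.log R,
      HasDerivAt (fun t => cm p z w (Real.exp t)) (m' t) t ∧
      HasDerivAt m' ((2 * Real.pi)⁻¹ * ∫ θ in (0 : ℝ)..2 * Real.pi,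
        4 * levi p (z + ((Real.exp t : ℂ) * exp (θ * I)) • w)
          (((Real.exp t : ℂ) * exp (θ * I)) • w)) t := by
  obtain ⟨δ, hδ, hU⟩ := (isCompact_closedBall (0 : ℂ) R).exists_thickening_subset_open
    (hΩ.preimage (f := fun ζ : ℂ => z + ζ • w) (by fun_prop)) fun ζ hζ => h ζ (by simpa using hζ)
  rw [thickening_closedBall hδ hR.le] at hU
  have hT : Real.log R < Real.log (δ + R) := Real.log_lt_log hR (by linarith)
  set T := Real.log (δ + R) with hTd
  set v : ℝ → ℝ → E n := fun t θ => ((Real.exp t : ℂ) * exp (θ * I)) • w with hv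
  have hmem : ∀ s < T, ∀ θ, z + v s θ ∈ Ω := fun s hs θ => hU (by
    rw [mem_ball_zero_iff, Circle_norm, abs_of_pos (Real.exp_pos s)]
    exact (Real.lt_log_iff_exp_lt (by linarith)).1 hs)
  have hA : ContDiffOn ℝ ∞ (fderiv ℝ p) Ω := hp.fderiv_of_isOpen hΩ (by simp)
  have hB : ContDiffOn ℝ ∞ (fderiv ℝ (fderiv ℝ p)) Ω := hA.fderiv_of_isOpen hΩ (by simp)
  have dp : ∀ y ∈ Ω, HasFDerivAt p (fderiv ℝ p y) y := fun y hy =>
    ((hp.contDiffAt (hΩ.mem_nhds hy)).differentiableAt (by simp)).hasFDerivAt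
  have dA : ∀ y ∈ Ω, HasFDerivAt (fderiv ℝ p) (fderiv ℝ (fderiv ℝ p) y) y := fun y hy =>
    ((hA.contDiffAt (hΩ.mem_nhds hy)).differentiableAt (by simp)).hasFDerivAt
  have cv : Continuous fun q : ℝ × ℝ => v q.1 q.2 := by
    simp only [hv]
    fun_prop
  have cγ : ContinuousOn (fun q : ℝ × ℝ => z + v q.1 q.2) (Iio T ×ˢ univ) :=
    (continuous_const.add cv).continuousOn
  have mγ : MapsTo (fun q : ℝ × ℝ => z + v q.1 q.2) (Iio T ×ˢ univ) Ω :=
    fun q hq => hmem _ hq.1 _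
  have c0 := hp.continuousOn.comp cγ mγ
  have cA := hA.continuousOn.comp cγ mγ
  have cB := hB.continuousOn.comp cγ mγ
  have c1 : ContinuousOn (fun q : ℝ × ℝ => fderiv ℝ p (z + v q.1 q.2) (v q.1 q.2))
      (Iio T ×ˢ univ) := cA.clm_apply cv.continuousOn
  have c2 : ContinuousOn (fun q : ℝ × ℝ =>
      fderiv ℝ (fderiv ℝ p) (z + v q.1 q.2) (v q.1 q.2) (v q.1 q.2) +
        fderiv ℝ p (z + v q.1 q.2) (v q.1 q.2)) (Iio T ×ˢ univ) :=
    ((cB.clm_apply cv.continuousOn).clm_apply cv.continuousOn).add c1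
  have c3 : ContinuousOn (fun q : ℝ × ℝ =>
      fderiv ℝ (fderiv ℝ p) (z + v q.1 q.2) (I • v q.1 q.2) (I • v q.1 q.2) +
        fderiv ℝ p (z + v q.1 q.2) (I • I • v q.1 q.2)) (Iio T ×ˢ univ) :=
    ((cB.clm_apply (cv.const_smul I).continuousOn).clm_apply (cv.const_smul I).continuousOn).add
      (cA.clm_apply ((cv.const_smul I).const_smul I).continuousOn)
  refine ⟨fun t => (2 * Real.pi)⁻¹ * ∫ θ in (0 : ℝ)..2 * Real.pi, fderiv ℝ p (z + v t θ) (v t θ),
    fun t ht => ⟨?_, ?_⟩⟩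
  · exact (Circle_der (F := fun t θ => p (z + v t θ)) 0 (2 * Real.pi) (ht.trans_lt hT) c0 c1
      fun s hs θ => (dp _ (hmem s hs θ)).comp_hasDerivAt s
        ((Circle_dt w s θ).const_add z)).const_mul _
  · have ht' := ht.trans_lt hT
    have h1 := Circle_der (F := fun t θ => fderiv ℝ p (z + v t θ) (v t θ))
      (F' := fun t θ => fderiv ℝ (fderiv ℝ p) (z + v t θ) (v t θ) (v t θ) +
        fderiv ℝ p (z + v t θ) (v t θ)) 0 (2 * Real.pi) ht' c1 c2 fun s hs θ => by
      have k1 : HasDerivAt (fun s => v s θ) (v s θ) s := Circle_dt w s θ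
      have k3 : HasDerivAt (fun s => fderiv ℝ p (z + v s θ))
          (fderiv ℝ (fderiv ℝ p) (z + v s θ) (v s θ)) s :=
        (dA _ (hmem s hs θ)).comp_hasDerivAt s (k1.const_add z)
      exact k3.clm_apply k1
    have i2 := (Circle_cont (G := fun t θ => fderiv ℝ (fderiv ℝ p) (z + v t θ) (v t θ) (v t θ) +
      fderiv ℝ p (z + v t θ) (v t θ)) c2 ht').intervalIntegrable (μ := volume) 0 (2 * Real.pi)
    have i3 := (Circle_cont (G := fun t θ =>
      fderiv ℝ (fderiv ℝ p) (z + v t θ) (I • v t θ) (I • v t θ) +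
        fderiv ℝ p (z + v t θ) (I • I • v t θ)) c3 ht').intervalIntegrable (μ := volume) 0
          (2 * Real.pi)
    have hd : ∀ θ, HasDerivAt (fun θ => fderiv ℝ p (z + v t θ) (I • v t θ))
        (fderiv ℝ (fderiv ℝ p) (z + v t θ) (I • v t θ) (I • v t θ) +
          fderiv ℝ p (z + v t θ) (I • I • v t θ)) θ := fun θ => by
      have k1 : HasDerivAt (v t) (I • v t θ) θ := Circle_dth w (Real.exp t) θ
      have k2 : HasDerivAt (fun θ => I • v t θ) (I • I • v t θ) θ := k1.const_smul I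
      have k3 : HasDerivAt (fun θ => fderiv ℝ p (z + v t θ))
          (fderiv ℝ (fderiv ℝ p) (z + v t θ) (I • v t θ)) θ :=
        (dA _ (hmem t ht' θ)).comp_hasDerivAt θ (k1.const_add z)
      exact k3.clm_apply k2
    have h2 := intervalIntegral.integral_eq_sub_of_hasDerivAt (fun θ _ => hd θ) i3
    have h3 : v t (2 * Real.pi) = v t 0 := by simp [hv]
    rw [h3, sub_self] at h2
    have h4 : ∫ θ in (0 : ℝ)..2 * Real.pi, 4 * levi p (z + v t θ) (v t θ) =
        ∫ θ in (0 : ℝ)..2 * Real.pi, fderiv ℝ (fderiv ℝ p) (z + v t θ) (v t θ) (v t θ) +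
          fderiv ℝ p (z + v t θ) (v t θ) := by
      have h5 := intervalIntegral.integral_add i2 i3
      rw [h2, add_zero] at h5
      refine Eq.trans ?_ h5
      refine intervalIntegral.integral_congr fun θ _ => ?_
      have hy := hmem t ht' θ
      have e : ∀ u : E n, fderiv ℝ (fun y => fderiv ℝ p y u) (z + v t θ) u =
          fderiv ℝ (fderiv ℝ p) (z + v t θ) u u := fun u => by
        rw [((dA _ hy).clm_apply (hasFDerivAt_const u _)).fderiv]
        simp
      rw [levi_eq_real ((hp.contDiffAt (hΩ.mem_nhds hy)).of_le (by norm_cast)), e, e, smul_smul I I,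
        I_mul_I, neg_one_smul, map_neg]
      ring
    rw [← h4] at h1
    exact h1.const_mul _

end Pool.Agent.Lib.MP_a47f92_an
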