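import Pool.Agent.Lib.MP_a47f92_an.Circle

set_option autoImplicit false
set_option linter.unusedSectionVars false

/-! Convexity and monotonicity of circle means. -/

namespace Pool.Agent.Lib.MP_a47f92_an

open MeasureTheory Filter Topology Set Complex Metric Function
open scoped ContDiff ComplexConjugate ComplexOrder Matrix ENNReal NNReal

variable {n : ℕ}

variable {p : E n → ℝ} {Ω : Set (E n)} {z w : E n} {R : ℝ}

theorem Circle2_norm (t θ : ℝ) : ‖((Real.exp t : ℝ) : ℂ) * exp (θ * I)‖ = Real.exp t := by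
  rw [norm_mul, norm_exp_ofReal_mul_I, mul_one, norm_real, Real.norm_eq_abs,
    abs_of_pos (Real.exp_pos t)]

theorem Circle2_mp {c : ℂ} (hc : ‖c‖ = 1) : MeasurePreserving fun w : E n => c • w := by
  have h0 : c ≠ 0 := by
    rintro rfl
    simp at hc
  let e : E n ≃ₗᵢ[ℝ] E n :=
    { toLinearEquiv := (LinearEquiv.smulOfNeZero ℂ (E n) c h0).restrictScalars ℝ
      norm_map' := fun w => by
        show ‖c • w‖ = ‖w‖
        rw [norm_smul, hc, one_mul] }
  exact e.measurePreserving

theorem cm_convex (hΩ : IsOpen Ω) (hp : ContDiffOn ℝ ∞ p Ω) (hl : ∀ y ∈ Ω, ∀ v, 0 ≤ levi p y v)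
    (hR : 0 < R) (h : ∀ ζ : ℂ, ‖ζ‖ ≤ R → z + ζ • w ∈ Ω) :
    ConvexOn ℝ (Iic (Real.log R)) fun t => cm p z w (Real.exp t) := by
  obtain ⟨m', hm⟩ := cm_deriv hΩ hp hR h
  refine convexOn_of_hasDerivWithinAt2_nonneg (convex_Iic _)
    (fun t ht => (hm t ht).1.continuousAt.continuousWithinAt)
    (fun t ht => (hm t (mem_Iic.1 (interior_subset ht))).1.hasDerivWithinAt)
    (fun t ht => (hm t (mem_Iic.1 (interior_subset ht))).2.hasDerivWithinAt) fun t ht => ?_
  refine mul_nonneg (by positivity) (intervalIntegral.integral_nonneg (by positivity)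
    fun θ _ => mul_nonneg (by norm_num) (hl _ (h _ ?_) _))
  rw [Circle2_norm]
  exact (Real.le_log_iff_exp_le hR).1 (mem_Iic.1 (interior_subset ht))

/-- A convex function on `Iic a` which has a finite limit at `-∞` is monotone. -/
theorem monotoneOn_of_convexOn {m : ℝ → ℝ} {a L : ℝ} (hm : ConvexOn ℝ (Iic a) m)
    (hL : Tendsto m atBot (𝓝 L)) : MonotoneOn m (Iic a) ∧ ∀ t ≤ a, L ≤ m t := by
  have h1 : MonotoneOn m (Iic a) := by
    intro s hs t ht hst
    rcases hst.eq_or_lt with rfl | hlt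
    · exact le_rfl
    have h2 : Tendsto (fun u => (m s - m u) / (s - u)) atBot (𝓝 0) :=
      (tendsto_const_nhds.sub hL).div_atTop
        (tendsto_atTop_add_const_left _ s tendsto_neg_atBot_atTop)
    have h3 : 0 ≤ (m t - m s) / (t - s) := by
      refine le_of_tendsto h2 ?_
      filter_upwards [eventually_lt_atBot s] with u hu
      exact hm.slope_mono_adjacent (hu.le.trans hs) ht hu hlt
    have h4 := mul_nonneg h3 (sub_pos.2 hlt).le
    rw [div_mul_cancel₀ _ (sub_pos.2 hlt).ne'] at h4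
    linarith
  refine ⟨h1, fun t ht => le_of_tendsto hL ?_⟩
  filter_upwards [eventually_le_atBot t] with u hu
  exact h1 (hu.trans ht) ht hu

theorem cm_mono (hΩ : IsOpen Ω) (hp : ContDiffOn ℝ ∞ p Ω) (hl : ∀ y ∈ Ω, ∀ v, 0 ≤ levi p y v)
    (h : ∀ ζ : ℂ, ‖ζ‖ ≤ R → z + ζ • w ∈ Ω) : MonotoneOn (cm p z w) (Icc 0 R) := by
  rcases le_or_gt R 0 with hR | hR
  · exact (subsingleton_Icc_of_ge hR).monotoneOn _
  have hL : Tendsto (fun t => cm p z w (Real.exp t)) atBot (𝓝 (cm p z w 0)) := by
    refine (cm_continuousOn hp.continuousOn h 0 ⟨le_rfl, hR.le⟩).tendsto.comp ?_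
    refine tendsto_nhdsWithin_iff.2 ⟨Real.tendsto_exp_atBot, ?_⟩
    filter_upwards [eventually_le_atBot (Real.log R)] with t ht
    exact ⟨(Real.exp_pos t).le, (Real.le_log_iff_exp_le hR).1 ht⟩
  obtain ⟨h1, h2⟩ := monotoneOn_of_convexOn (cm_convex hΩ hp hl hR h) hL
  intro a ha b hb hab
  rcases hb.1.eq_or_lt with rfl | hb0
  · rw [le_antisymm hab ha.1]
  have hb1 := Real.log_le_log hb0 hb.2
  rcases ha.1.eq_or_lt with rfl | ha0
  · have := h2 _ hb1
    rwa [Real.exp_log hb0] at this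
  · have := h1 (Real.log_le_log ha0 ha.2) hb1 (Real.log_le_log ha0 hab)
    simp only [Real.exp_log ha0, Real.exp_log hb0] at this
    exact this

/-- If `cm p z w R = p z` then the monotone function `cm p z w` is constant, so the second
derivative in `cm_deriv` vanishes; but `levi p y (ζ • w) = ‖ζ‖ ^ 2 levi p y w` is positive for `y`
near `z`. -/
theorem cm_strict (hΩ : IsOpen Ω) (hp : ContDiffOn ℝ ∞ p Ω) (hl : ∀ y ∈ Ω, ∀ v, 0 ≤ levi p y v)
    (hR : 0 < R) (h : ∀ ζ : ℂ, ‖ζ‖ ≤ R → z + ζ • w ∈ Ω) (hw : 0 < levi p z w) :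
    p z < cm p z w R := by
  by_contra hle
  rw [not_lt, ← cm_zero p z w] at hle
  have hm := cm_mono hΩ hp hl h
  have hc : ∀ t ≤ Real.log R, cm p z w (Real.exp t) = cm p z w 0 := fun t ht => by
    have h1 : Real.exp t ∈ Icc 0 R := ⟨(Real.exp_pos t).le, (Real.le_log_iff_exp_le hR).1 ht⟩
    exact le_antisymm ((hm h1 ⟨hR.le, le_rfl⟩ h1.2).trans hle) (hm ⟨le_rfl, hR.le⟩ h1 h1.1)
  obtain ⟨m', hd⟩ := cm_deriv hΩ hp hR h
  have h1 : ∀ t < Real.log R, m' t = 0 := fun t ht => by
    refine (hd t ht.le).1.unique ((hasDerivAt_const t (cm p z w 0)).congr_of_eventuallyEq ?_)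
    filter_upwards [Iio_mem_nhds ht] with s hs using hc s (le_of_lt hs)
  have hz : z ∈ Ω := by simpa using h 0 (by simpa using hR.le)
  have hcl := (contDiffOn_levi hΩ hp w).continuousOn
  have h2 : ∀ᶠ ζ : ℂ in 𝓝 0, 0 < levi p (z + ζ • w) w := by
    have h3 : ContinuousAt (fun ζ : ℂ => levi p (z + ζ • w) w) 0 :=
      ContinuousAt.comp (g := fun y => levi p y w) (f := fun ζ : ℂ => z + ζ • w)
        (by simpa using hcl.continuousAt (hΩ.mem_nhds hz)) (by fun_prop)
    exact h3.eventually (lt_mem_nhds (by simpa using hw))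
  obtain ⟨ε, hε, h3⟩ := Metric.eventually_nhds_iff.1 h2
  obtain ⟨t, ht, ht'⟩ := ((eventually_lt_atBot (Real.log R)).and
    (eventually_lt_atBot (Real.log ε))).exists
  have h4 := (hd t ht.le).2.unique ((hasDerivAt_const t (0 : ℝ)).congr_of_eventuallyEq (by
    filter_upwards [Iio_mem_nhds ht] with s hs using h1 s hs))
  simp only [levi_smul, Circle2_norm] at h4
  refine (mul_pos (by positivity) (intervalIntegral.intervalIntegral_pos_of_pos ?_ (fun θ => ?_)
    (by positivity))).ne' h4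
  · refine (continuous_const.mul (continuous_const.mul ?_)).intervalIntegrable _ _
    refine hcl.comp_continuous (by fun_prop) fun θ => h _ ?_
    rw [Circle2_norm]
    exact (Real.le_log_iff_exp_le hR).1 ht.le
  · refine mul_pos (by norm_num) (mul_pos (by positivity) (h3 ?_))
    rw [dist_zero_right, Circle2_norm]
    exact (Real.lt_log_iff_exp_lt hε).1 ht'

/-- Averaging over rotations: for `‖c‖ = 1` the map `w ↦ c • w` preserves the measure
(`integral_comp_equiv`); Fubini on `(0, 2π] × E n`. -/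
theorem integral_rot {k : E n → ℝ} (hk : ∀ c : ℂ, ‖c‖ = 1 → ∀ w, k (c • w) = k w) {r : ℝ}
    (hi : Integrable fun w => p (z + r • w) * k w) :
    Integrable (fun w => cm p z w r * k w) ∧
      ∫ w, p (z + r • w) * k w = ∫ w, cm p z w r * k w := by
  set μ : Measure ℝ := volume.restrict (Ioc 0 (2 * Real.pi)) with hμ
  have hn : ∀ θ : ℝ, ‖exp (θ * I)‖ = 1 := norm_exp_ofReal_mul_I
  have hs : MeasurePreserving (fun q : ℝ × E n => (id q.1, exp (q.1 * I) • q.2))
      (μ.prod volume) (μ.prod volume) :=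
    (MeasurePreserving.id μ).skew_product (g := fun (θ : ℝ) (w : E n) => exp (θ * I) • w)
      (Continuous.measurable (by unfold uncurry; fun_prop))
      (Eventually.of_forall fun θ => (Circle2_mp (hn θ)).map_eq)
  have e : ∀ (θ : ℝ) (w : E n), p (z + r • exp (θ * I) • w) * k (exp (θ * I) • w) =
      p (z + ((r : ℂ) * exp (θ * I)) • w) * k w := fun θ w => by
    rw [hk _ (hn θ), mul_smul, coe_smul]
  have hG : Integrable (uncurry fun (θ : ℝ) (w : E n) =>
      p (z + ((r : ℂ) * exp (θ * I)) • w) * k w) (μ.prod volume) := by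
    refine (hs.integrable_comp_of_integrable (hi.comp_snd μ)).congr
      (Eventually.of_forall fun q => e q.1 q.2)
  have h1 : ∀ w : E n, cm p z w r * k w =
      (2 * Real.pi)⁻¹ * ∫ θ, p (z + ((r : ℂ) * exp (θ * I)) • w) * k w ∂μ := fun w => by
    rw [cm, intervalIntegral.integral_of_le (by positivity), integral_mul_const, mul_assoc]
  simp only [h1]
  refine ⟨hG.integral_prod_right.const_mul _, ?_⟩
  rw [integral_const_mul, ← integral_integral_swap hG]
  have h2 : ∀ θ : ℝ, ∫ w : E n, p (z + ((r : ℂ) * exp (θ * I)) • w) * k w =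
      ∫ w, p (z + r • w) * k w := fun θ => by
    simp only [← e]
    have h3 := Circle2_mp (n := n) (hn θ)
    rw [← integral_map (f := fun w => p (z + r • w) * k w) h3.aemeasurable
      (by rw [h3.map_eq]; exact hi.1), h3.map_eq]
  simp only [h2]
  rw [integral_const, hμ, measureReal_restrict_apply_univ, Real.volume_real_Ioc_of_le (by positivity),
    sub_zero, smul_eq_mul, inv_mul_cancel_left₀ (by positivity)]

end Pool.Agent.Lib.MP_a47f92_an
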