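import Pool.Agent.Lib.MP_a47f92_an.KWA

set_option autoImplicit false
set_option linter.unusedSectionVars false

/-! Elementary ergodic lemmas. -/

namespace Pool.Agent.Lib.MP_a47f92_an

open MeasureTheory Filter Topology Set Complex Metric Function
open scoped ContDiff ComplexConjugate ComplexOrder Matrix ENNReal NNReal

variable {n : ℕ}

variable {X : Type} [MeasurableSpace X] {f : X → X} {μ : Measure X}

/-- `B ⊆ f ⁻¹' B` have the same finite measure, so they agree almost everywhere. Take the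
conditional measure `ProbabilityTheory.cond ν B`. -/
theorem exists_restrict {ν : Measure X} [IsFiniteMeasure ν] (hf : MeasurePreserving f ν ν)
    {B : Set X} (hB : MeasurableSet B) (hi : MapsTo f B B) (h0 : ν B ≠ 0) :
    ∃ (μ : Measure X) (C : ℝ), IsProbabilityMeasure μ ∧ MeasurePreserving f μ μ ∧
      (∀ᵐ x ∂μ, x ∈ B) ∧ 0 ≤ C ∧ ∀ A, μ A ≤ ENNReal.ofReal C * ν A := by
  have hfin : ν B ≠ ⊤ := measure_ne_top ν B
  have h1 : B =ᵐ[ν] f ⁻¹' B :=
    ae_eq_of_subset_of_measure_ge hi (hf.measure_preimage hB.nullMeasurableSet).le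
      hB.nullMeasurableSet (measure_ne_top ν _)
  have h2 : MeasurePreserving f (ν.restrict B) (ν.restrict B) := by
    have := hf.restrict_preimage hB
    rwa [← Measure.restrict_congr_set h1] at this
  refine ⟨(ν B)⁻¹ • ν.restrict B, ((ν B)⁻¹).toReal, ⟨?_⟩, h2.smul_measure _, ?_,
    ENNReal.toReal_nonneg, fun A => ?_⟩
  · rw [Measure.smul_apply, Measure.restrict_apply_univ, smul_eq_mul,
      ENNReal.inv_mul_cancel h0 hfin]
  · exact Measure.ae_smul_measure (ae_restrict_mem hB) _
  · rw [Measure.smul_apply, smul_eq_mul, ENNReal.ofReal_toReal (ENNReal.inv_ne_top.2 h0)]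
    exact mul_le_mul' le_rfl (Measure.restrict_le_self A)

theorem KW_card {r : ℝ} (hr : 0 < r) (hr1 : r ≤ 1) (T : Finset (Sph n))
    (h : ∀ c ∈ T, ∀ d ∈ T, c ≠ d → r ≤ dist c d) :
    (T.card : ℝ) ≤ 4 ^ (2 * n) * r⁻¹ ^ (2 * n) := by
  have hdim : Module.finrank ℝ (E n) = 2 * n := by
    rw [finrank_real_of_complex, finrank_euclideanSpace_fin]
  have hδ : 0 < r / 2 := by positivity
  have D : Set.Pairwise (T : Set (Sph n)) (Disjoint on fun c => ball (c : E n) (r / 2)) := by
    intro c hc d hd hcd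
    apply ball_disjoint_ball
    rw [add_halves]
    exact h c hc d hd hcd
  have A : (⋃ c ∈ T, ball (c : E n) (r / 2)) ⊆ ball (0 : E n) 2 := by
    refine iUnion₂_subset fun x _ => ?_
    apply ball_subset_ball'
    rw [dist_zero_right, mem_sphere_zero_iff_norm.1 x.2]
    linarith
  have I : (T.card : ℝ≥0∞) * ENNReal.ofReal ((r / 2) ^ (2 * n)) * volume (ball (0 : E n) 1) ≤
      ENNReal.ofReal (2 ^ (2 * n)) * volume (ball (0 : E n) 1) := by
    have := measure_mono (μ := volume) A
    rw [measure_biUnion_finset D fun c _ => measurableSet_ball] at this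
    simp only [Measure.addHaar_ball_of_pos volume _ hδ, Finset.sum_const, nsmul_eq_mul, hdim] at this
    rwa [Measure.addHaar_ball_of_pos volume _ two_pos, hdim, ← mul_assoc] at this
  have J := (ENNReal.mul_le_mul_iff_left (measure_ball_pos volume (0 : E n) zero_lt_one).ne'
    measure_ball_lt_top.ne).1 I
  have K := ENNReal.toReal_le_of_le_ofReal (by positivity) J
  rw [ENNReal.toReal_mul, ENNReal.toReal_natCast, ENNReal.toReal_ofReal (by positivity),
    ← le_div_iff₀ (by positivity), ← div_pow] at K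
  rw [← mul_pow]
  refine K.trans (le_of_eq ?_)
  congr 1
  field_simp
  norm_num

/-- Take a maximal `r`-separated subset of the sphere; the balls of radius `r / 2` are disjoint and
contained in `ball 0 2` (`Measure.addHaar_ball`). -/
theorem exists_net (n : ℕ) : ∃ C : ℝ, 0 ≤ C ∧ ∀ r : ℝ, 0 < r → r ≤ 1 → ∃ Y : Finset (Sph n),
    (Y.card : ℝ) ≤ C * r⁻¹ ^ (2 * n) ∧ ∀ x : Sph n, ∃ y ∈ Y, dist x y < r := by
  classical
  refine ⟨4 ^ (2 * n), by positivity, fun r hr hr1 => ?_⟩
  let S : Set ℕ := {k | ∃ T : Finset (Sph n), (∀ c ∈ T, ∀ d ∈ T, c ≠ d → r ≤ dist c d) ∧ T.card = k}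
  have hne : S.Nonempty := ⟨0, ∅, by simp, rfl⟩
  have hbd : BddAbove S := by
    refine ⟨⌈(4 : ℝ) ^ (2 * n) * r⁻¹ ^ (2 * n)⌉₊, ?_⟩
    rintro _ ⟨T, hT, rfl⟩
    exact_mod_cast (KW_card hr hr1 T hT).trans (Nat.le_ceil _)
  obtain ⟨Y, hY, hc⟩ := Nat.sSup_mem hne hbd
  refine ⟨Y, KW_card hr hr1 Y hY, fun x => ?_⟩
  by_contra hx
  push Not at hx
  have hxY : x ∉ Y := fun h => by
    have := hx x h
    rw [dist_self] at this
    linarith
  have h1 : Y.card + 1 ∈ S := by
    refine ⟨insert x Y, fun c hc d hd hcd => ?_, Finset.card_insert_of_notMem hxY⟩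
    rcases Finset.mem_insert.1 hc with rfl | hc' <;> rcases Finset.mem_insert.1 hd with rfl | hd'
    · exact absurd rfl hcd
    · exact hx d hd'
    · rw [dist_comm]
      exact hx c hc'
    · exact hY c hc' d hd' hcd
  have := le_csSup hbd h1
  omega

end Pool.Agent.Lib.MP_a47f92_an
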