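import Pool.Agent.Lib.MP_a47f92_an.Wt2
import Pool.Agent.Lib.MP_a47f92_an.KW

set_option autoImplicit false
set_option linter.unusedSectionVars false

/-! The counting estimate bounds the folding entropy from above. -/

namespace Pool.Agent.Lib.MP_a47f92_an

open MeasureTheory Filter Topology Set Complex Metric Function
open scoped ContDiff ComplexConjugate ComplexOrder Matrix ENNReal NNReal

variable {n : ℕ}

variable {X : Type} [MetricSpace X] [CompactSpace X] [MeasurableSpace X] [BorelSpace X]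
  {f : X → X} {R : Set X} {μ μ' : Measure X} {lam : ℝ}

theorem ClaimA_count (hlam : 0 < lam) {p : ℕ → X → Prop} [∀ j, DecidablePred (p j)] {N : ℕ} {B : ℝ}
    (h : ∀ A : ℕ → Finset X, (∀ j < N, ∀ x ∈ A j, p j x) →
      ∑ j ∈ Finset.range N, ((A j).card : ℝ) / lam ^ j ≤ B) :
    ∑' x, ∑ j ∈ Finset.range N, (if p j x then ENNReal.ofReal (1 / lam ^ j) else 0) ≤
      ENNReal.ofReal B := by
  rw [ENNReal.tsum_eq_iSup_sum]
  refine iSup_le fun s => ?_
  rw [Finset.sum_comm]
  refine le_trans (le_of_eq ?_) (ENNReal.ofReal_le_ofReal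
    (h (fun j => s.filter (p j)) fun j _ x hx => (Finset.mem_filter.1 hx).2))
  rw [ENNReal.ofReal_sum_of_nonneg fun j _ => by positivity]
  refine Finset.sum_congr rfl fun j _ => ?_
  rw [← Finset.sum_filter, Finset.sum_const, nsmul_eq_mul, ← ENNReal.ofReal_natCast,
    ← ENNReal.ofReal_mul (Nat.cast_nonneg _), mul_one_div]

theorem ClaimA_layer {t T : ℝ} (ht : 0 ≤ t) (hT : 0 < T) :
    ∃ i : ℕ, t ≤ (i + 1) * T ∧ Real.exp (-t / T) ≤ (1 / 2) ^ i := by
  refine ⟨⌊t / T⌋₊, (div_le_iff₀ hT).1 (Nat.lt_floor_add_one _).le, ?_⟩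
  have h1 : Real.exp (-1) ≤ 1 / 2 := by
    rw [Real.exp_neg, one_div]
    exact inv_anti₀ two_pos (by linarith [Real.add_one_le_exp 1])
  refine le_trans ?_ (pow_le_pow_left₀ (Real.exp_pos _).le h1 _)
  rw [← Real.exp_nat_mul, neg_div, mul_neg_one]
  exact Real.exp_le_exp.2 (neg_le_neg (Nat.floor_le (by positivity)))

theorem ClaimA_geo (C T : ℝ) :
    HasSum (fun i : ℕ => (1 / 2 : ℝ) ^ i * (C * (1 + (i + 1) * T))) (C * (2 + 4 * T)) := by
  have h1 := (hasSum_geometric_two.mul_left (C * (1 + T))).add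
    ((hasSum_coe_mul_geometric_of_norm_lt_one (r := (1 / 2 : ℝ)) (by norm_num)).mul_left (C * T))
  convert! h1 using 1
  · funext i
    ring
  · ring

theorem ClaimA_ofReal {φ : X → ℝ} (hφ : Integrable φ μ) :
    ENNReal.ofReal (∫ x, φ x ∂μ) ≤ ∫⁻ x, ENNReal.ofReal (φ x) ∂μ := by
  refine (ENNReal.ofReal_le_ofReal (integral_mono hφ hφ.pos_part fun x => le_max_left _ _)).trans ?_
  rw [ofReal_integral_eq_lintegral_ofReal hφ.pos_part (ae_of_all _ fun x => le_max_right _ _)]
  simp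

theorem ClaimA_sum (g : ℕ → X → ℝ≥0∞) (N : ℕ) :
    ∑ j ∈ Finset.range N, ∫⁻ x, g j x ∂μ ≤ ∫⁻ x, ∑ j ∈ Finset.range N, g j x ∂μ := by
  induction N with
  | zero => simp
  | succ N ih =>
    simp only [Finset.sum_range_succ]
    exact (add_le_add ih le_rfl).trans (le_lintegral_add _ _)

/-- Layer decomposition: `exp (-t / T) ≤ ∑' i, 2 ^ (-i) 1 {t ≤ (i + 1) T}` and
`∑' i, 2 ^ (-i) (1 + (i + 1) T) ≤ 4 (1 + T)`. A `tsum` of an indicator function is the supremum of
finite sums (`ENNReal.tsum_eq_iSup_sum`). -/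
theorem weighted_count (hlam : 0 < lam) {S : Set X} {t : ℕ → X → ℝ} {C T : ℝ} (hC : 0 ≤ C)
    (hT : 0 < T) (h0 : ∀ j x, 0 ≤ t j x) {y : X} {N : ℕ}
    (h : ∀ (τ : ℝ) (A : ℕ → Finset X), 0 ≤ τ →
      (∀ j < N, ∀ x ∈ A j, x ∈ S ∧ f^[j] x = y ∧ t j x ≤ τ) →
      ∑ j ∈ Finset.range N, ((A j).card : ℝ) / lam ^ j ≤ C * (1 + τ)) :
    ∑ j ∈ Finset.range N, ∑' x, (f^[j] ⁻¹' {y}).indicator
      (S.indicator fun x => ENNReal.ofReal (Real.exp (-t j x / T) / lam ^ j)) x ≤
      ENNReal.ofReal (4 * C * (1 + T)) := by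
  classical
  have h1 : ∀ j x, (f^[j] ⁻¹' {y}).indicator
      (S.indicator fun x => ENNReal.ofReal (Real.exp (-t j x / T) / lam ^ j)) x ≤
      ∑' i : ℕ, ENNReal.ofReal ((1 / 2) ^ i) * (if x ∈ S ∧ f^[j] x = y ∧ t j x ≤ (i + 1) * T then
        ENNReal.ofReal (1 / lam ^ j) else 0) := fun j x => by
    by_cases hy : x ∈ f^[j] ⁻¹' {y}
    swap
    · simp [indicator_of_notMem hy]
    by_cases hS : x ∈ S
    swap
    · simp [indicator_of_mem hy, indicator_of_notMem hS]
    obtain ⟨i, h2, h3⟩ := ClaimA_layer (h0 j x) hT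
    refine le_trans ?_ (ENNReal.le_tsum i)
    rw [indicator_of_mem hy, indicator_of_mem hS, if_pos ⟨hS, hy, h2⟩,
      ← ENNReal.ofReal_mul (by positivity), mul_one_div]
    exact ENNReal.ofReal_le_ofReal (by gcongr)
  refine (Finset.sum_le_sum fun j _ => ENNReal.tsum_le_tsum (h1 j)).trans ?_
  rw [← Summable.tsum_finsetSum fun _ _ => ENNReal.summable]
  simp only [← Summable.tsum_finsetSum fun _ _ => ENNReal.summable]
  rw [ENNReal.tsum_comm]
  simp only [← Finset.mul_sum, ENNReal.tsum_mul_left]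
  refine (ENNReal.tsum_le_tsum fun i : ℕ => mul_le_mul_right
    (ClaimA_count hlam fun A hA => h ((i + 1) * T) A (by positivity) hA) _).trans ?_
  simp only [← ENNReal.ofReal_mul (pow_nonneg one_half_pos.le _)]
  rw [← ENNReal.ofReal_tsum_of_nonneg (fun i => by positivity) (ClaimA_geo C T).summable,
    (ClaimA_geo C T).tsum_eq]
  exact ENNReal.ofReal_le_ofReal (by nlinarith)

/-- Suppose `log lam ≤ h = ∫ -log w`. Let `r j = lam ^ (-j) ∏_{i<j} (w ∘ f^[i])⁻¹`. Then
`r j exp (-t j / T) ≥ 1 + log (r j) - t j / T` and `∫ log (r j) = j (h - log lam) ≥ 0`, so for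
`T = 2 (|C'| + ε N) + 1` each integral is at least `1 / 2`. By `lintegral_prod`, `le_lintegral_add`
and `weighted_count`, `N / 2 ≤ 4 C (1 + T)`, which fails for `ε` small and `N` large. (The case
`N = 0`, `τ = 0` of the hypothesis gives `0 ≤ C`.) -/
theorem claimA [IsProbabilityMeasure μ] (h : IsPull f R μ μ') (hf : MeasurePreserving f μ μ)
    (hlam : 0 < lam) (hc : Cnt f μ lam) : ∫ x, -Real.log (wt μ μ' x) ∂μ < Real.log lam := by
  by_contra hne
  have hne := not_lt.1 hne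
  obtain ⟨C, S, hS, hS', H⟩ := hc
  have hC : 0 ≤ C := by
    obtain ⟨t, C', -, -, -, h1⟩ := H 1 one_pos
    obtain ⟨y⟩ := μ.nonempty_of_neZero
    simpa using h1 y 0 0 (fun _ => ∅) le_rfl (by simp)
  obtain ⟨ε, hε⟩ : ∃ ε, ε = 1 / (32 * (C + 1)) := ⟨_, rfl⟩
  have hε0 : 0 < ε := by rw [hε]; positivity
  have hε1 : 32 * C * ε ≤ 1 := by
    rw [hε, mul_one_div, div_le_one (by positivity)]
    linarith
  obtain ⟨t, C', hm, h0, hi, h1⟩ := H ε hε0
  obtain ⟨N, hN⟩ := exists_nat_gt (32 * C * (1 + |C'|))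
  obtain ⟨T, hT⟩ : ∃ T, T = 2 * (|C'| + ε * N) + 1 := ⟨_, rfl⟩
  have hT0 : 0 < T := by rw [hT]; positivity
  have hw : ∀ᵐ x ∂μ, ∀ i, 0 < wt μ μ' (f^[i] x) := ae_all_iff.2 fun i =>
    (hf.iterate i).quasiMeasurePreserving.ae (h.wt_mem.2.mono fun _ hx => hx.1)
  have h2 : ∀ j ∈ Finset.range N, ENNReal.ofReal (1 / 2) ≤ ∫⁻ y, ∑' x, (f^[j] ⁻¹' {y}).indicator
      (S.indicator fun x => ENNReal.ofReal (Real.exp (-t j x / T) / lam ^ j)) x ∂μ := by
    intro j hj
    refine le_trans ?_ (h.lintegral_prod hf.measurable j (Measurable.indicator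
      (((hm j).neg.div_const T).exp.div_const _).ennreal_ofReal hS))
    obtain ⟨i1, e1⟩ := integral_birkhoffSum hf (g := fun x => -Real.log (wt μ μ' x))
      h.integrable_log.neg j
    have i2 : Integrable (fun x => birkhoffSum f (fun x => -Real.log (wt μ μ' x)) j x -
        t j x / T) μ := i1.sub ((hi j).1.div_const T)
    have i3 : Integrable (fun x => birkhoffSum f (fun x => -Real.log (wt μ μ' x)) j x -
        t j x / T + (1 - j * Real.log lam)) μ := i2.add (integrable_const _)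
    refine le_trans (ENNReal.ofReal_le_ofReal ?_) ((ClaimA_ofReal i3).trans (lintegral_mono_ae ?_))
    · rw [integral_add i2 (integrable_const _), integral_sub i1 ((hi j).1.div_const T), e1,
        integral_div, integral_const, probReal_univ, one_smul]
      have a1 : (j : ℝ) ≤ N := by exact_mod_cast (Finset.mem_range.1 hj).le
      have a2 : (∫ x, t j x ∂μ) / T ≤ 1 / 2 := by
        rw [div_le_iff₀ hT0, hT]
        nlinarith [(hi j).2, le_abs_self C']
      nlinarith [mul_le_mul_of_nonneg_left hne (Nat.cast_nonneg j)]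
    · filter_upwards [hS', hw] with x hx hp
      rw [indicator_of_mem hx, ← ENNReal.ofReal_mul (by positivity)]
      refine ENNReal.ofReal_le_ofReal ?_
      have a1 : ∏ i ∈ Finset.range j, (wt μ μ' (f^[i] x))⁻¹ =
          Real.exp (birkhoffSum f (fun x => -Real.log (wt μ μ' x)) j x) := by
        rw [birkhoffSum, Real.exp_sum]
        exact Finset.prod_congr rfl fun i _ => by rw [Real.exp_neg, Real.exp_log (hp i)]
      have a2 : lam ^ j = Real.exp (j * Real.log lam) := by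
        rw [Real.exp_nat_mul, Real.exp_log hlam]
      rw [a1, a2, ← Real.exp_sub, ← Real.exp_add, neg_div]
      exact le_trans (by linarith) (Real.add_one_le_exp _)
  have h3 := (Finset.sum_le_sum h2).trans ((ClaimA_sum _ N).trans (lintegral_mono fun y =>
    weighted_count hlam hC hT0 h0 fun τ A hτ hA => h1 y N τ A hτ hA))
  rw [Finset.sum_const, Finset.card_range, nsmul_eq_mul, ← ENNReal.ofReal_natCast,
    ← ENNReal.ofReal_mul (Nat.cast_nonneg _), lintegral_const, measure_univ, mul_one,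
    ENNReal.ofReal_le_ofReal_iff (by positivity), hT] at h3
  nlinarith [mul_le_mul_of_nonneg_right hε1 (Nat.cast_nonneg N)]

end Pool.Agent.Lib.MP_a47f92_an
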