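import Pool.Agent.Lib.MP_a47f92_an.KW

set_option autoImplicit false
set_option linter.unusedSectionVars false

/-! Shadowing bounds the folding entropy from below. -/

namespace Pool.Agent.Lib.MP_a47f92_an

open MeasureTheory Filter Topology Set Complex Metric Function
open scoped ContDiff ComplexConjugate ComplexOrder Matrix ENNReal NNReal

variable {n : ℕ}

variable {X : Type} [MetricSpace X] [CompactSpace X] [MeasurableSpace X] [BorelSpace X]
  {f : X → X} {R : Set X} {μ : Measure X} {lam : ℝ} {w : X → ℝ}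

/-- Induction on `j`, grouping the points of `T` by the image `f^[j] x`, or by `f x`. -/
theorem CWt.sum_prod_le (h : CWt f R w) (j : ℕ) (y : X) (T : Finset X)
    (hT : ∀ x ∈ T, f^[j] x = y ∧ ∀ i < j, f^[i] x ∈ R) :
    ∑ x ∈ T, ∏ i ∈ Finset.range j, w (f^[i] x) ≤ 1 := by
  classical
  induction j generalizing y T with
  | zero =>
    have : T ⊆ {y} := fun x hx => Finset.mem_singleton.2 (hT x hx).1
    simpa using (Nat.cast_le (α := ℝ)).2 (Finset.card_le_card this)
  | succ j ih =>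
    rw [← Finset.sum_fiberwise_of_maps_to (t := T.image f^[j]) (g := f^[j])
      fun x hx => Finset.mem_image_of_mem _ hx]
    refine le_trans (Finset.sum_le_sum fun z _ => ?_) (h.fib y (T.image f^[j]) fun z hz => ?_)
    · have h1 := ih z (T.filter fun x => f^[j] x = z) fun x hx =>
        ⟨(Finset.mem_filter.1 hx).2, fun i hi =>
          (hT x (Finset.mem_filter.1 hx).1).2 i (Nat.lt_succ_of_lt hi)⟩
      calc _ = (∑ x ∈ T.filter fun x => f^[j] x = z, ∏ i ∈ Finset.range j, w (f^[i] x)) * w z := by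
            rw [Finset.sum_mul]
            refine Finset.sum_congr rfl fun x hx => ?_
            rw [Finset.prod_range_succ, (Finset.mem_filter.1 hx).2]
        _ ≤ 1 * w z := mul_le_mul_of_nonneg_right h1 (h.pos z).le
        _ = w z := one_mul _
    · obtain ⟨x, hx, rfl⟩ := Finset.mem_image.1 hz
      exact ⟨(hT x hx).2 j (Nat.lt_succ_self j), by
        rw [← (hT x hx).1, Function.iterate_succ_apply']⟩

/-- Markov's inequality twice. -/
theorem good_measure [IsProbabilityMeasure μ] {a b : X → ℝ} (ha : Integrable a μ)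
    (hb : Integrable b μ) (ha0 : ∀ x, 0 ≤ a x) (hb0 : ∀ x, 0 ≤ b x) {A B p : ℝ} (hA : 0 < A)
    (hB : 0 < B) (h : (∫ x, a x ∂μ) / A + (∫ x, b x ∂μ) / B ≤ 1 - p) :
    ENNReal.ofReal p ≤ μ {x | a x ≤ A ∧ b x ≤ B} := by
  have h1 := mul_meas_ge_le_integral_of_nonneg (μ := μ) (f := a) (Eventually.of_forall ha0) ha A
  have h2 := mul_meas_ge_le_integral_of_nonneg (μ := μ) (f := b) (Eventually.of_forall hb0) hb B
  have h3 : μ.real {x | A ≤ a x} ≤ (∫ x, a x ∂μ) / A := by rw [le_div_iff₀ hA]; linarith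
  have h4 : μ.real {x | B ≤ b x} ≤ (∫ x, b x ∂μ) / B := by rw [le_div_iff₀ hB]; linarith
  have h5 : (univ : Set X) ⊆ {x | a x ≤ A ∧ b x ≤ B} ∪ ({x | A ≤ a x} ∪ {x | B ≤ b x}) := by
    intro x _
    rcases le_total (a x) A with h6 | h6
    · rcases le_total (b x) B with h7 | h7
      · exact Or.inl ⟨h6, h7⟩
      · exact Or.inr (Or.inr h7)
    · exact Or.inr (Or.inl h6)
  have h6 := (measureReal_mono (μ := μ) h5).trans (measureReal_union_le _ _)
  have h7 := measureReal_union_le (μ := μ) {x | A ≤ a x} {x | B ≤ b x}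
  rw [probReal_univ] at h6
  rw [ENNReal.ofReal_le_iff_le_toReal (measure_ne_top _ _)]
  change p ≤ μ.real _
  linarith

theorem ClaimB_block (g : X → ℝ) (m J : ℕ) (x : X) :
    birkhoffSum f g (m * J) x = ∑ i ∈ Finset.range J, birkhoffSum f g m (f^[m * i] x) := by
  induction J with
  | zero => simp
  | succ J ih => rw [Nat.mul_succ, birkhoffSum_add, ih, Finset.sum_range_succ]

theorem ClaimB_count (hw : CWt f R w) (j : ℕ) (Y : Finset X) (P : Set X) {c : ℝ}
    (hP : ∀ x ∈ P, f^[j] x ∈ Y ∧ (∀ i < j, f^[i] x ∈ R) ∧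
      birkhoffSum f (fun x => -Real.log (w x)) j x ≤ c) :
    ∃ T : Finset X, P ⊆ T ∧ (T.card : ℝ) ≤ Y.card * Real.exp c := by
  classical
  have key : ∀ T : Finset X, (T : Set X) ⊆ P → (T.card : ℝ) ≤ Y.card * Real.exp c := by
    intro T hT
    have h1 : ∑ x ∈ T, ∏ i ∈ Finset.range j, w (f^[i] x) ≤ Y.card := by
      rw [← Finset.sum_fiberwise_of_maps_to (t := Y) (g := f^[j]) fun x hx => (hP x (hT hx)).1]
      calc _ ≤ ∑ _y ∈ Y, (1 : ℝ) := Finset.sum_le_sum fun y _ => hw.sum_prod_le j y _ fun x hx =>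
            ⟨(Finset.mem_filter.1 hx).2, (hP x (hT (Finset.mem_filter.1 hx).1)).2.1⟩
        _ = Y.card := by simp
    have h2 : ∀ x ∈ T, Real.exp (-c) ≤ ∏ i ∈ Finset.range j, w (f^[i] x) := by
      intro x hx
      have h3 := (hP x (hT hx)).2.2
      have h4 : ∏ i ∈ Finset.range j, w (f^[i] x) =
          Real.exp (-birkhoffSum f (fun x => -Real.log (w x)) j x) := by
        rw [birkhoffSum, ← Finset.sum_neg_distrib, Real.exp_sum]
        exact Finset.prod_congr rfl fun i _ => by rw [neg_neg, Real.exp_log (hw.pos _)]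
      rw [h4]
      exact Real.exp_le_exp.2 (neg_le_neg h3)
    have h5 := (Finset.card_nsmul_le_sum T _ _ h2).trans h1
    rw [nsmul_eq_mul, Real.exp_neg, ← div_eq_mul_inv, div_le_iff₀ (Real.exp_pos c)] at h5
    exact h5
  have fin : P.Finite := by
    by_contra hinf
    obtain ⟨N, hN⟩ := exists_nat_gt (Y.card * Real.exp c)
    obtain ⟨T, hT, hc⟩ := Set.Infinite.exists_subset_card_eq hinf N
    have := key T hT
    rw [hc] at this
    linarith
  exact ⟨fin.toFinset, by simp, key _ (by simp)⟩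

theorem ClaimB_large (C : ℝ) {γ q : ℝ} (hγ : 0 < γ) (hq : 0 < q) :
    ∃ J : ℕ, 1 ≤ J ∧ C * (1 + J) * Real.exp (-(γ * J)) < q := by
  have h1 : Tendsto (fun J : ℕ => γ * (J : ℝ)) atTop atTop :=
    tendsto_natCast_atTop_atTop.const_mul_atTop hγ
  have h2 := (Real.tendsto_pow_mul_exp_neg_atTop_nhds_zero 0).comp h1
  have h3 := (Real.tendsto_pow_mul_exp_neg_atTop_nhds_zero 1).comp h1
  have h4 := (h2.add (h3.const_mul γ⁻¹)).const_mul C
  simp only [mul_zero, add_zero] at h4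
  obtain ⟨J, hJ, hJ1⟩ := ((h4.eventually (gt_mem_nhds hq)).and (eventually_ge_atTop 1)).exists
  refine ⟨J, hJ1, lt_of_eq_of_lt ?_ hJ⟩
  simp only [Function.comp]
  field_simp

/-- Suppose `h = ∫ -log w < log lam` and let `3 γ = log lam - h`, `p = γ / (h + γ)`, `M = 2 / p`.
Take `ε` with `2 C₁ M ε ≤ γ / 2`, then `m`, `ℓ`, and `δ` by uniform continuity of
`b = birkhoffSum f (-log w) m` for the error `γ / 2`. For `j = m J`, `τ = M ε j` the set
`G = {x ∈ S | birkhoffSum f (-log w) j x ≤ (h + γ) j, birkhoffSum f^[m] ℓ J x ≤ τ}` has measure at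
least `p / 2` (`good_measure`). For `x ∈ G`, `∏_{i<j} w (f^[i] (π x)) ≥ exp (-(h + 3 γ / 2) j)`
(split the Birkhoff sum into blocks), so by `sum_prod_le` the set `π '' G` is finite with at most
`Y.card * exp ((h + 3 γ / 2) j)` points. Hence `p / 2 ≤ C₂ ^ 2 (1 + J) exp (-γ J)`, false for large
`J`. -/
theorem claimB [IsProbabilityMeasure μ] (hw : CWt f R w) (hc : Continuous f)
    (hf : MeasurePreserving f μ μ) (hlam : 0 < lam) (hg : Geo f R μ lam) :
    Real.log lam ≤ ∫ x, -Real.log (w x) ∂μ := by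
  set g : X → ℝ := fun x => -Real.log (w x) with hgdef
  have gc : Continuous g := (hw.cont.log fun x => (hw.pos x).ne').neg
  have g0 : ∀ x, 0 ≤ g x := fun x => neg_nonneg.2 (Real.log_nonpos (hw.pos x).le (hw.le_one x))
  have gi : Integrable g μ := gc.integrable_of_hasCompactSupport (HasCompactSupport.of_compactSpace g)
  set h : ℝ := ∫ x, g x ∂μ with hh
  have h0 : 0 ≤ h := integral_nonneg g0
  by_contra hlt
  push Not at hlt
  obtain ⟨γ, hγ, hγe⟩ : ∃ γ : ℝ, 0 < γ ∧ Real.log lam = h + 3 * γ :=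
    ⟨(Real.log lam - h) / 3, by linarith, by ring⟩
  have hhγ : 0 < h + γ := by linarith
  obtain ⟨p, hp, hpe⟩ : ∃ p : ℝ, 0 < p ∧ h / (h + γ) = 1 - p :=
    ⟨γ / (h + γ), div_pos hγ hhγ, by field_simp; ring⟩
  obtain ⟨C₁, S, hC₁, hS, hg⟩ := hg
  obtain ⟨η, hη, hηe⟩ : ∃ η : ℝ, 0 < η ∧ 2 * C₁ * η ≤ γ / 2 :=
    ⟨γ / (4 * (C₁ + 1)), by positivity, by
      rw [← mul_div_assoc, div_le_iff₀ (by positivity)]; nlinarith⟩
  obtain ⟨m, ℓ, hm, -, ℓ0, ℓi, ℓe, hg⟩ := hg (p / 2 * η) (by positivity)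
  have bc : Continuous (birkhoffSum f g m) :=
    continuous_finsetSum _ fun i _ => gc.comp (hc.iterate i)
  obtain ⟨δ, hδ, hδe⟩ := Metric.uniformContinuous_iff.1
    (CompactSpace.uniformContinuous_of_continuous bc) (γ / 2) (by positivity)
  obtain ⟨C₂, hg⟩ := hg (δ / 2) (by positivity)
  obtain ⟨J, hJ, hJe⟩ := ClaimB_large (C₂ ^ 2) hγ (half_pos hp)
  have hm' : (1 : ℝ) ≤ m := by exact_mod_cast hm
  have hJ' : (1 : ℝ) ≤ J := by exact_mod_cast hJ
  have hJj : (J : ℝ) ≤ m * J := by nlinarith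
  have hj : (0 : ℝ) < m * J := by positivity
  obtain ⟨Y, π, hY, hπ, hμ⟩ := hg J (η * (m * J)) (by positivity)
  have hC₂ : 0 ≤ C₂ := by
    by_contra hneg
    push Not at hneg
    have := mul_neg_of_neg_of_pos hneg (Real.exp_pos (C₁ * (η * (m * J))))
    have h1 : (0 : ℝ) ≤ Y.card := Nat.cast_nonneg _
    linarith
  obtain ⟨a1, a2⟩ := integral_birkhoffSum hf gi (m * J)
  obtain ⟨b1, b2⟩ := integral_birkhoffSum (hf.iterate m) ℓi J
  have hG := good_measure (μ := μ) a1 b1 (fun x => Finset.sum_nonneg fun i _ => g0 _)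
    (fun x => Finset.sum_nonneg fun i _ => ℓ0 _) (A := (h + γ) * (m * J)) (B := η * (m * J))
    (p := p / 2) (by positivity) (by positivity) (by
      rw [a2, b2, ← hh]
      have e1 : ((m * J : ℕ) : ℝ) * h / ((h + γ) * (m * J)) = 1 - p := by
        rw [← hpe]; push_cast; field_simp
      have e2 : (J : ℝ) * (∫ x, ℓ x ∂μ) / (η * (m * J)) ≤ p / 2 := by
        rw [div_le_iff₀ (by positivity)]
        have := mul_le_mul_of_nonneg_left ℓe (Nat.cast_nonneg (α := ℝ) J)
        linarith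
      linarith)
  set G : Set X := {x | x ∈ S ∧ birkhoffSum f g (m * J) x ≤ (h + γ) * (m * J) ∧
    birkhoffSum f^[m] ℓ J x ≤ η * (m * J)} with hGdef
  have hG' : ENNReal.ofReal (p / 2) ≤ μ G :=
    hG.trans (measure_mono_ae (hS.mono fun x hx hx' => ⟨hx, hx'⟩))
  obtain ⟨T, hT, hTc⟩ := ClaimB_count hw (m * J) Y (π '' G) (c := (h + 3 / 2 * γ) * (m * J)) (by
    rintro _ ⟨x, ⟨hx, hx1, hx2⟩, rfl⟩
    obtain ⟨c1, c2, c3⟩ := hπ x hx hx2
    refine ⟨c1, c2, ?_⟩
    rw [ClaimB_block] at hx1 ⊢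
    have : ∑ i ∈ Finset.range J, birkhoffSum f g m (f^[m * i] (π x)) ≤
        ∑ i ∈ Finset.range J, (birkhoffSum f g m (f^[m * i] x) + γ / 2) :=
      Finset.sum_le_sum fun i hi => by
        have := hδe ((c3 i (Finset.mem_range.1 hi)).trans_lt (half_lt_self hδ))
        rw [Real.dist_eq, abs_lt] at this
        linarith
    rw [Finset.sum_add_distrib, Finset.sum_const, Finset.card_range, nsmul_eq_mul] at this
    nlinarith)
  set K : ℝ := C₂ * (1 + J) * Real.exp (C₁ * (η * (m * J))) / lam ^ (m * J) with hK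
  have hK0 : 0 ≤ K := by positivity
  have hsub : G ⊆ ⋃ q ∈ T, {x | x ∈ S ∧ birkhoffSum f^[m] ℓ J x ≤ η * (m * J) ∧ π x = q} :=
    fun x hx => mem_biUnion (hT (mem_image_of_mem π hx)) ⟨hx.1, hx.2.2, rfl⟩
  have hfin : ENNReal.ofReal (p / 2) ≤ ENNReal.ofReal (T.card * K) := by
    refine hG'.trans ((measure_mono hsub).trans ((measure_biUnion_finset_le _ _).trans ?_))
    refine (Finset.sum_le_sum fun q _ => hμ q).trans (le_of_eq ?_)
    rw [Finset.sum_const, nsmul_eq_mul, ENNReal.ofReal_mul (Nat.cast_nonneg _),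
      ENNReal.ofReal_natCast]
  rw [ENNReal.ofReal_le_ofReal_iff (by positivity)] at hfin
  have hl : lam ^ (m * J) = Real.exp ((h + 3 * γ) * (m * J)) := by
    rw [← hγe, ← Nat.cast_mul, mul_comm (Real.log lam), Real.exp_nat_mul, Real.exp_log hlam]
  have hT2 : (T.card : ℝ) ≤
      C₂ * Real.exp (C₁ * (η * (m * J))) * Real.exp ((h + 3 / 2 * γ) * (m * J)) :=
    hTc.trans (mul_le_mul_of_nonneg_right hY (Real.exp_pos _).le)
  have hT3 := mul_le_mul_of_nonneg_right hT2 hK0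
  have e3 : C₂ * Real.exp (C₁ * (η * (m * J))) * Real.exp ((h + 3 / 2 * γ) * (m * J)) * K =
      C₂ ^ 2 * (1 + J) * Real.exp (C₁ * (η * (m * J)) + (h + 3 / 2 * γ) * (m * J) +
        C₁ * (η * (m * J)) - (h + 3 * γ) * (m * J)) := by
    rw [hK, hl, Real.exp_sub, Real.exp_add, Real.exp_add]
    ring
  have e4 : Real.exp (C₁ * (η * (m * J)) + (h + 3 / 2 * γ) * (m * J) +
      C₁ * (η * (m * J)) - (h + 3 * γ) * (m * J)) ≤ Real.exp (-(γ * J)) := by
    refine Real.exp_le_exp.2 ?_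
    have := mul_le_mul_of_nonneg_right hηe hj.le
    have := mul_le_mul_of_nonneg_left hJj hγ.le
    linarith
  have e5 := mul_le_mul_of_nonneg_left e4 (show 0 ≤ C₂ ^ 2 * (1 + (J : ℝ)) by positivity)
  linarith

end Pool.Agent.Lib.MP_a47f92_an
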