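import Pool.Agent.Lib.MP_a47f92_an.Coc3

set_option autoImplicit false
set_option linter.unusedSectionVars false

/-! The counting hypothesis on the sphere. -/

namespace Pool.Agent.Lib.MP_a47f92_an

open MeasureTheory Filter Topology Set Complex Metric Function
open scoped ContDiff ComplexConjugate ComplexOrder Matrix ENNReal NNReal

variable {n : ℕ}

variable {d : ℕ} {F : E n → E n} {μ : Measure (Sph n)}

theorem Cnt_nonneg (G : E n → E n) (k : ℕ) (x : Sph n) : 0 ≤ birkhoffSum (sf G) (ell G) k x :=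
  Finset.sum_nonneg fun _ _ => ell_nonneg G _

theorem Cnt_lip {G : E n → E n} {x : Sph n} {w : E n} {L : ℝ}
    (h : ‖‖G^[0] x‖⁻¹ • G^[0] w - nm G^[0] x‖ ≤ L) : ‖w - x‖ ≤ L := by
  simpa only [nm, iterate_zero, id_eq, sph_norm, inv_one, one_smul] using h

/-- A branch for every time `j = i + m J` (`i = j % m`, `J = j / m`): compose the branch of `F^[i]`
at `x` with the branch of `(F^[m])^[J]` at `(sf F)^[i] x` (`exists_nb` for `F` and `F^[m]`). With
`a = birkhoffSum (sf F) (ell F) i x`, `b = birkhoffSum (sf F^[m]) (ell F^[m]) J ((sf F)^[i] x)` take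
`t j x = c₀ + 2 a + 2 b` where `exp (-c₀) ≤ min c₁ c₂ δ`, `0 ≤ c₀`. Finally rescale by
`exists_scale` to get an honest branch `H = s • h` of `F^[j]`. -/
theorem exists_branch (hF : IsLift d F) (hd : 1 ≤ d) {m : ℕ} (hm : 1 ≤ m) {δ : ℝ} (hδ : 0 < δ) :
    ∃ c₀ : ℝ, 0 ≤ c₀ ∧ ∀ (j : ℕ), ∀ x ∈ RegI F, ∃ (H : E n → E n) (s : ℝ), 0 < s ∧
      let r := Real.exp (-(c₀ + 2 * birkhoffSum (sf F) (ell F) (j % m) x +
        2 * birkhoffSum (sf F^[m]) (ell F^[m]) (j / m) ((sf F)^[j % m] x)))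
      let y : E n := ((sf F)^[j] x : Sph n)
      DifferentiableOn ℂ H (ball y r) ∧ H y = s • (x : E n) ∧
        ∀ q ∈ ball y r, F^[j] (H q) = q ∧ s⁻¹ • H q ∈ ball (x : E n) δ := by
  have hG := hF.iterate m
  have hD : ∀ k : ℕ, 1 ≤ d ^ k := fun k => Nat.one_le_pow _ _ hd
  obtain ⟨c₁, hc₁, h₁⟩ := exists_nb hF hd
  obtain ⟨c₂, hc₂, h₂⟩ := exists_nb hG (hD m)
  obtain ⟨c₀, h0, e1, e2, e3⟩ : ∃ c₀ : ℝ, 0 ≤ c₀ ∧ Real.exp (-c₀) ≤ c₁ ∧ Real.exp (-c₀) ≤ c₂ ∧
      Real.exp (-c₀) ≤ δ := by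
    have hp : 0 < min (min c₁ c₂) (min δ 1) := lt_min (lt_min hc₁ hc₂) (lt_min hδ one_pos)
    refine ⟨-Real.log (min (min c₁ c₂) (min δ 1)), neg_nonneg.2
      (Real.log_nonpos hp.le ((min_le_right _ _).trans (min_le_right _ _))), ?_, ?_, ?_⟩ <;>
      rw [neg_neg, Real.exp_log hp]
    exacts [(min_le_left _ _).trans (min_le_left _ _), (min_le_left _ _).trans (min_le_right _ _),
      (min_le_right _ _).trans (min_le_left _ _)]
  refine ⟨c₀, h0, fun j x hx => ?_⟩
  have hx' : (sf F)^[j % m] x ∈ RegI F := (regI_maps F).iterate _ hx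
  obtain ⟨g₁, hg₁⟩ := h₁ (j % m) x hx
  obtain ⟨g₂, hg₂⟩ := h₂ (j / m) _ (regI_iterate hF hd hx' m)
  have ha := Cnt_nonneg F (j % m) x
  have hb := Cnt_nonneg F^[m] (j / m) ((sf F)^[j % m] x)
  generalize birkhoffSum (sf F) (ell F) (j % m) x = a at hg₁ ha ⊢
  generalize birkhoffSum (sf F^[m]) (ell F^[m]) (j / m) ((sf F)^[j % m] x) = b at hg₂ hb ⊢
  have hj : F^[j] = (F^[m])^[j / m] ∘ F^[j % m] := by
    rw [← iterate_mul, ← iterate_add, Nat.div_add_mod]
  have c1 : nm F^[j % m] x = ((sf F)^[j % m] x : Sph n) := (coe_sf_iterate hF _ x).symm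
  have c2 : nm (F^[m])^[j / m] ((sf F)^[j % m] x : Sph n) = ((sf F)^[j] x : Sph n) := by
    rw [← coe_sf_iterate hG, sf_iterate hF, ← iterate_mul, ← iterate_add_apply, Nat.div_add_mod]
  obtain ⟨s1, t1, i1, l1⟩ := hg₁
  obtain ⟨s2, t2, i2, l2⟩ := hg₂
  have l1' := fun q hq => Cnt_lip (l1 q hq 0 (Nat.zero_le _))
  have l2' := fun q hq => Cnt_lip (l2 q hq 0 (Nat.zero_le _))
  rw [c1] at s1 t1 i1 l1'
  rw [c2] at s2 t2 i2 l2'
  have p1 : 0 < ‖F^[j % m] x‖ := norm_pos_iff.2 ((hF.iterate _).ne (sph_ne x))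
  have p2 : 0 < ‖(F^[m])^[j / m] ((sf F)^[j % m] x : Sph n)‖ :=
    norm_pos_iff.2 ((hG.iterate _).ne (sph_ne _))
  obtain ⟨s, hs, hs'⟩ := exists_scale (hD j) (mul_pos (pow_pos p1 ((d ^ m) ^ (j / m))) p2)
  have hr : ball (((sf F)^[j] x : Sph n) : E n) (Real.exp (-(c₀ + 2 * a + 2 * b))) ⊆
      ball (((sf F)^[j] x : Sph n) : E n) (c₂ * Real.exp (-2 * b)) := by
    refine ball_subset_ball (le_trans ?_ (mul_le_mul_of_nonneg_right e2 (Real.exp_pos _).le))
    rw [← Real.exp_add]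
    exact Real.exp_le_exp.2 (by linarith)
  have m1 : ∀ q ∈ ball (((sf F)^[j] x : Sph n) : E n) (Real.exp (-(c₀ + 2 * a + 2 * b))),
      ‖g₂ q - ((sf F)^[j % m] x : Sph n)‖ < Real.exp (-(c₀ + 2 * a + b)) := by
    intro q hq
    refine (l2' q (hr hq)).trans_lt ((mul_lt_mul_of_pos_left (mem_ball_iff_norm.1 hq)
      (Real.exp_pos b)).trans_le (le_of_eq ?_))
    rw [← Real.exp_add]
    congr 1
    ring
  have m2 : MapsTo g₂ (ball (((sf F)^[j] x : Sph n) : E n) (Real.exp (-(c₀ + 2 * a + 2 * b))))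
      (ball (((sf F)^[j % m] x : Sph n) : E n) (c₁ * Real.exp (-2 * a))) := by
    intro q hq
    refine mem_ball_iff_norm.2 ((m1 q hq).trans_le
      (le_trans ?_ (mul_le_mul_of_nonneg_right e1 (Real.exp_pos _).le)))
    rw [← Real.exp_add]
    exact Real.exp_le_exp.2 (by linarith)
  refine ⟨fun q => s • g₁ (g₂ q), s, hs, ?_, ?_, fun q hq => ⟨?_, ?_⟩⟩
  · exact ((s1.differentiableOn (by simp)).comp ((s2.differentiableOn (by simp)).mono hr)
      m2).const_smul s
  · simp only [t2, t1]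
  · have e : F^[j] (g₁ (g₂ q)) = (‖F^[j % m] x‖ ^ (d ^ m) ^ (j / m) *
        ‖(F^[m])^[j / m] ((sf F)^[j % m] x : Sph n)‖) • q := by
      conv_lhs => rw [hj]
      rw [comp_apply, i1 _ (m2 hq), (hG.iterate _).homR, i2 q (hr hq), smul_smul]
    rw [(hF.iterate j).homR, e, smul_smul, hs', one_smul]
  · rw [smul_smul, inv_mul_cancel₀ hs.ne', one_smul]
    refine mem_ball_iff_norm.2 ((l1' _ (m2 hq)).trans_lt
      ((mul_lt_mul_of_pos_left (m1 q hq) (Real.exp_pos a)).trans_le (le_trans ?_ e3)))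
    rw [← Real.exp_add]
    exact Real.exp_le_exp.2 (by linarith)

/-- Take `S = RegI F \ O`, `t` as in `exists_branch` with `m` from `small_ell`. For `q` in
`ball y (exp (-τ) / 2)` the points `H x q`, `x ∈ T j`, lie in `W` and are distinct: if
`H x q = H x' q` then `H x y = H x' y` (`IsLift.lift_unique`, `IsLift.mem_reg_of_section`), so
`x = x'`. -/
theorem cnt_sphere [IsProbabilityMeasure μ] (hF : IsLift d F) (hd : 2 ≤ d)
    (hf : MeasurePreserving (sf F) μ μ) (hB : ∀ᵐ x ∂μ, x ∈ Bad F) {O W : Set (E n)} {δ C : ℝ}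
    (hO : IsOpen O) (hO' : ∀ᵐ x : Sph n ∂μ, (x : E n) ∉ O) (hδ : 0 < δ) (hW : IsCone W)
    (hball : ∀ x, ‖x‖ = 1 → x ∉ O → ball x δ ⊆ W) (hAG : AG d F W C) :
    Cnt (sf F) μ ((d : ℝ) ^ (n - 1)) := by
  have hd1 : 1 ≤ d := by omega
  refine ⟨2 * max C 0, RegI F \ {x | (x : E n) ∈ O}, (measurableSet_regI hF).diff
    (hO.preimage continuous_subtype_val).measurableSet, ?_, fun ε hε => ?_⟩
  · filter_upwards [hB, hO'] with x h1 h2 using ⟨h1.1, h2⟩
  obtain ⟨m, hm, hi, hi'⟩ := small_ell hF hd hf hB (half_pos hε)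
  obtain ⟨c₀, h0, hbr⟩ := exists_branch hF hd1 hm hδ
  have hG := hF.iterate m
  have hfm : MeasurePreserving (sf F^[m]) μ μ := by
    rw [sf_iterate hF]
    exact hf.iterate m
  have hi1 := integrable_ell hF hd1 hf hB
  refine ⟨fun j x => c₀ + 2 * birkhoffSum (sf F) (ell F) (j % m) x +
      2 * birkhoffSum (sf F^[m]) (ell F^[m]) (j / m) ((sf F)^[j % m] x),
    c₀ + 2 * (m * ∫ x, ell F x ∂μ), fun j => ?_, fun j x => ?_, fun j => ?_,
    fun y N τ T hτ hT => ?_⟩
  · exact (measurable_const.add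
      ((measurable_birkhoffSum hf.measurable (measurable_ell hF) _).const_mul 2)).add
      (((measurable_birkhoffSum hfm.measurable (measurable_ell hG) _).comp
        (hf.iterate _).measurable).const_mul 2)
  · have h1 := Cnt_nonneg F (j % m) x
    have h2 := Cnt_nonneg F^[m] (j / m) ((sf F)^[j % m] x)
    simp only
    linarith
  · obtain ⟨a1, a2⟩ := integral_birkhoffSum hf hi1 (j % m)
    obtain ⟨b1, b2⟩ := integral_birkhoffSum hfm hi (j / m)
    have hk := hf.iterate (j % m)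
    have b3 : Integrable (fun x =>
        birkhoffSum (sf F^[m]) (ell F^[m]) (j / m) ((sf F)^[j % m] x)) μ :=
      hk.integrable_comp_of_integrable b1
    have b4 : ∫ x, birkhoffSum (sf F^[m]) (ell F^[m]) (j / m) ((sf F)^[j % m] x) ∂μ =
        ∫ x, birkhoffSum (sf F^[m]) (ell F^[m]) (j / m) x ∂μ := by
      rw [← integral_map hk.measurable.aemeasurable (by rw [hk.map_eq]; exact b1.1), hk.map_eq]
    have a3 : Integrable (fun x => c₀ + 2 * birkhoffSum (sf F) (ell F) (j % m) x) μ :=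
      (integrable_const c₀).add (a1.const_mul 2)
    refine ⟨a3.add (b3.const_mul 2), ?_⟩
    rw [integral_add a3 (b3.const_mul 2), integral_add (integrable_const c₀) (a1.const_mul 2),
      integral_const_mul, integral_const_mul, b4, a2, b2]
    have q0 : 0 ≤ ∫ x, ell F x ∂μ := integral_nonneg (ell_nonneg F)
    have q1 : ((j % m : ℕ) : ℝ) ≤ m := by exact_mod_cast (Nat.mod_lt j hm).le
    have q2 : ((j / m : ℕ) : ℝ) * m ≤ j := by exact_mod_cast Nat.div_mul_le_self j m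
    have q3 := mul_le_mul_of_nonneg_right q1 q0
    have q4 := mul_le_mul_of_nonneg_left hi' (Nat.cast_nonneg (α := ℝ) (j / m))
    have q5 := mul_le_mul_of_nonneg_left q2 hε.le
    simp only [integral_const, probReal_univ, one_smul]
    linarith
  choose! H s hs hH using hbr
  have he : Real.exp (-τ) ≤ 1 := Real.exp_le_one_iff.2 (by linarith)
  have hp := Real.exp_pos (-τ)
  have key := hAG y (Real.exp (-τ) / 2) N (fun j => (T j).card) (sph_norm y) (by linarith)
    (by linarith) fun j hj q hq => ?_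
  · refine key.trans ?_
    rw [Real.log_inv, Real.log_div hp.ne' two_ne_zero, Real.log_exp]
    have l1 : Real.log 2 ≤ 1 := by linarith [Real.log_le_sub_one_of_pos (x := 2) two_pos]
    have l2 : 0 ≤ Real.log 2 := Real.log_nonneg one_le_two
    calc _ ≤ max C 0 * (1 + -(-τ - Real.log 2)) :=
          mul_le_mul_of_nonneg_right (le_max_left _ _) (by linarith)
      _ ≤ max C 0 * (2 * (1 + τ)) := mul_le_mul_of_nonneg_left (by linarith) (le_max_right _ _)
      _ = _ := by ring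
  have hP : ∀ x ∈ T j, 0 < s j x ∧ DifferentiableOn ℂ (H j x) (ball y (Real.exp (-τ) / 2)) ∧
      H j x y = s j x • (x : E n) ∧ ∀ q ∈ ball (y : E n) (Real.exp (-τ) / 2),
        F^[j] (H j x q) = q ∧ (s j x)⁻¹ • H j x q ∈ ball (x : E n) δ := by
    intro x hx
    obtain ⟨a1, a2, a3⟩ := hT j hj x hx
    obtain ⟨b1, b2, b3⟩ := hH j x a1.1
    rw [a2] at b1 b2 b3
    have hsub := ball_subset_ball (x := (y : E n))
      ((half_le_self hp.le).trans (Real.exp_le_exp.2 (neg_le_neg a3)))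
    exact ⟨hs j x a1.1, b1.mono hsub, b2, fun q hq => b3 q (hsub hq)⟩
  classical
  refine ⟨(T j).image fun x => H j x q, Finset.card_image_of_injOn fun x hx x' hx' h => ?_,
    fun w hw => ?_⟩
  · obtain ⟨a1, a2, a3, a4⟩ := hP x hx
    obtain ⟨b1, b2, b3, b4⟩ := hP x' hx'
    have e := (hF.iterate j).lift_unique (convex_ball _ _).isPreconnected a2.continuousOn
      b2.continuousOn (fun q' hq' => (hF.iterate j).mem_reg_of_section one_ne_zero
        (a2.differentiableAt (isOpen_ball.mem_nhds hq'))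
        (by filter_upwards [isOpen_ball.mem_nhds hq'] with z hz using by rw [(a4 z hz).1, one_smul]))
      (fun q' hq' => by rw [(a4 q' hq').1, (b4 q' hq').1]) hq h (mem_ball_self (half_pos hp))
    rw [a3, b3] at e
    have e' := congrArg norm e
    rw [norm_smul, norm_smul, sph_norm, sph_norm, Real.norm_of_nonneg a1.le,
      Real.norm_of_nonneg b1.le, mul_one, mul_one] at e'
    rw [e'] at e
    exact Subtype.ext (smul_right_injective _ b1.ne' e)
  · obtain ⟨x, hx, rfl⟩ := Finset.mem_image.1 hw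
    obtain ⟨a1, -, -, a4⟩ := hP x hx
    refine ⟨?_, (a4 q hq).1⟩
    have e := hW (s j x) (ofReal_ne_zero.2 a1.ne') _
      (hball x (sph_norm x) (hT j hj x hx).1.2 (a4 q hq).2)
    rwa [Complex.coe_smul, smul_smul, mul_inv_cancel₀ a1.ne', one_smul] at e

end Pool.Agent.Lib.MP_a47f92_an
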