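import Pool.Agent.Lib.MP_a47f92_an.Green

set_option autoImplicit false
set_option linter.unusedSectionVars false

/-! The derivative cocycle. -/

namespace Pool.Agent.Lib.MP_a47f92_an

open MeasureTheory Filter Topology Set Complex Metric Function
open scoped ContDiff ComplexConjugate ComplexOrder Matrix ENNReal NNReal

variable {n : ℕ}

variable {d : ℕ} {F : E n → E n}

theorem Coc1_coe_smul (t : ℝ) (z : E n) : ((t : ℝ) : ℂ) • z = t • z := by
  ext i
  simp

theorem Coc1_nd_comp {D : ℕ} {G : E n → E n} (hF : IsLift d F) (hG : IsLift D G) (hD : 1 ≤ D)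
    (x : Sph n) : nd (G ∘ F) x = (nd G (sf F x : Sph n)).comp (nd F x) := by
  have h0 : F x ≠ 0 := hF.ne (sph_ne x)
  have hN : 0 < ‖F x‖ := norm_pos_iff.2 h0
  have hN' : ((‖F x‖ : ℝ) : ℂ) ≠ 0 := by exact_mod_cast hN.ne'
  have e : F x = ((‖F x‖ : ℝ) : ℂ) • ((sf F x : Sph n) : E n) := by
    rw [coe_sf hF, nm, Coc1_coe_smul, smul_smul, mul_inv_cancel₀ hN.ne', one_smul]
  have h1 : 0 < ‖G (sf F x : Sph n)‖ := norm_pos_iff.2 (hG.ne (sph_ne _))
  have h1' : ((‖G (sf F x : Sph n)‖ : ℝ) : ℂ) ≠ 0 := by exact_mod_cast h1.ne'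
  have e1 : fderiv ℂ G (F x) = ((‖F x‖ : ℝ) : ℂ) ^ (D - 1) • fderiv ℂ G (sf F x : Sph n) := by
    rw [← hG.fderiv_smul hD hN', ← e]
  have e2 : ‖G (F x)‖ = ‖F x‖ ^ D * ‖G (sf F x : Sph n)‖ := by
    conv_lhs => rw [e, hG.hom, norm_smul, norm_pow, Complex.norm_real, norm_norm]
  obtain ⟨k, rfl⟩ : ∃ k, D = k + 1 := ⟨D - 1, by omega⟩
  rw [nd, nd, nd, fderiv_comp _ (hG.differentiable _) (hF.differentiable _), e1,
    Function.comp_apply, e2, ContinuousLinearMap.smul_comp, ContinuousLinearMap.smul_comp,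
    ContinuousLinearMap.comp_smul, smul_smul, smul_smul]
  congr 1
  push_cast
  field_simp
  ring

theorem Coc1_continuous_nd (hF : IsLift d F) : Continuous fun x : Sph n => nd F x := by
  have h1 : Continuous fun x : Sph n => ‖F x‖⁻¹ :=
    ((hF.differentiable.continuous.comp continuous_subtype_val).norm).inv₀
      fun x => norm_ne_zero_iff.2 (hF.ne (sph_ne x))
  have h2 : Continuous fun x : Sph n => fderiv ℂ F x :=
    (hF.contDiff.continuous_fderiv (by simp)).comp continuous_subtype_val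
  exact (Complex.continuous_ofReal.comp h1).smul h2

theorem Coc1_isInvertible (T : E n →L[ℂ] E n) : T.IsInvertible ↔ T.det ≠ 0 := by
  refine ⟨?_, fun h => exists_equiv_of_det h⟩
  rintro ⟨A, rfl⟩
  exact (LinearEquiv.isUnit_det' A.toLinearEquiv).ne_zero

theorem nd_apply_self (hF : IsLift d F) (x : Sph n) : nd F x x = (d : ℂ) • (sf F x : E n) := by
  rw [nd, _root_.smul_apply, hF.euler, coe_sf hF, nm, smul_comm, Coc1_coe_smul]

/-- Chain rule and `IsLift.fderiv_smul`. -/
theorem nd_iterate_add (hF : IsLift d F) (hd : 1 ≤ d) (a b : ℕ) (x : Sph n) :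
    nd F^[a + b] x = (nd F^[b] ((sf F)^[a] x : Sph n)).comp (nd F^[a] x) := by
  rw [add_comm, Function.iterate_add, ← sf_iterate hF]
  exact Coc1_nd_comp (hF.iterate a) (hF.iterate b) (Nat.one_le_pow _ _ hd) x

theorem nd_bound (hF : IsLift d F) (hd : 1 ≤ d) : ∃ K : ℝ, 1 ≤ K ∧ ∀ x : Sph n, ‖nd F x‖ ≤ K := by
  have _ := hd
  obtain ⟨K, hK⟩ := (isCompact_range (Coc1_continuous_nd hF)).isBounded.exists_norm_le
  exact ⟨max 1 K, le_max_left _ _, fun x => (hK _ ⟨x, rfl⟩).trans (le_max_right _ _)⟩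

theorem nd_isInvertible (hF : IsLift d F) (x : Sph n) :
    (nd F x).IsInvertible ↔ (x : E n) ∈ Reg F := by
  have hN : 0 < ‖F x‖ := norm_pos_iff.2 (hF.ne (sph_ne x))
  have hN' : ((‖F x‖⁻¹ : ℝ) : ℂ) ≠ 0 := by exact_mod_cast (inv_pos.2 hN).ne'
  have e : (nd F x).det = ((‖F x‖⁻¹ : ℝ) : ℂ) ^ Module.finrank ℂ (E n) * (fderiv ℂ F x).det := by
    rw [nd, ContinuousLinearMap.det, ContinuousLinearMap.det, ContinuousLinearMap.toLinearMap_smul,
      LinearMap.det_smul]
  rw [Coc1_isInvertible, e, mul_ne_zero_iff]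
  exact ⟨fun h => h.2, fun h => ⟨pow_ne_zero _ hN', h⟩⟩

theorem continuous_nd (hF : IsLift d F) : Continuous fun x : Sph n => nd F x := by
  exact Coc1_continuous_nd hF

/-- `ContinuousLinearMap.inverse` is continuous on the open set of invertible maps and zero
elsewhere. -/
theorem measurable_inverse :
    Measurable fun T : E n →L[ℂ] E n => T.inverse := by
  classical
  have hop : IsOpen {T : E n →L[ℂ] E n | T.IsInvertible} := by
    simp only [Coc1_isInvertible]
    exact isOpen_ne_fun ContinuousLinearMap.continuous_det continuous_const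
  have h1 : ContinuousOn (fun T : E n →L[ℂ] E n => T.inverse) {T | T.IsInvertible} :=
    fun T hT => (ContinuousLinearMap.IsInvertible.contDiffAt_map_inverse (n := 0)
      hT).continuousAt.continuousWithinAt
  have h2 := ContinuousOn.measurable_piecewise h1
    (continuousOn_const (c := (0 : E n →L[ℂ] E n))) hop.measurableSet
  convert h2 using 1
  funext T
  by_cases hT : T.IsInvertible
  · rw [Set.piecewise_eq_of_mem _ _ _ (show T ∈ {T : E n →L[ℂ] E n | T.IsInvertible} from hT)]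
  · rw [Set.piecewise_eq_of_notMem _ _ _ (show T ∉ {T : E n →L[ℂ] E n | T.IsInvertible} from hT),
      ContinuousLinearMap.inverse_of_not_isInvertible hT]

theorem measurable_ell (hF : IsLift d F) : Measurable (ell F) := by
  have h := (measurable_inverse.comp (continuous_nd hF).measurable).norm
  exact ((measurable_const.max h).const_mul 2).log

theorem Coc1_cont_prj : Continuous fun x : E n => prj x := by
  refine continuous_clm_apply.2 fun v => ?_
  change Continuous fun x : E n => v - inner ℂ x v • x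
  fun_prop

theorem Coc1_meas_comp :
    Measurable fun p : (E n →L[ℂ] E n) × (E n →L[ℂ] E n) => ‖p.1.comp p.2‖ :=
  Continuous.measurable (continuous_fst.clm_comp continuous_snd).norm

theorem measurable_beta (hF : IsLift d F) : Measurable (beta F) := by
  have h : Measurable fun x : Sph n => (nd F x).inverse :=
    measurable_inverse.comp (continuous_nd hF).measurable
  have h1 : Measurable fun x : Sph n => prj (x : E n) :=
    (Coc1_cont_prj.comp continuous_subtype_val).measurable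
  have h2 := Coc1_meas_comp.comp (h1.prodMk h)
  have e : beta F = (fun p : (E n →L[ℂ] E n) × (E n →L[ℂ] E n) => ‖p.1.comp p.2‖) ∘
      fun x : Sph n => (prj (x : E n), (nd F x).inverse) := by
    funext x
    simp only [beta, Function.comp_apply]
  rw [e]
  exact h2

theorem prj_apply (x v : E n) : prj x v = v - inner ℂ x v • x := rfl

theorem prj_self (x : Sph n) : prj (x : E n) x = 0 := by
  rw [prj_apply, inner_self_eq_norm_sq_to_K, sph_norm]
  simp

theorem Coc1_prj_le (x : Sph n) (v : E n) (c : ℂ) :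
    ‖prj (x : E n) v‖ ≤ ‖v - c • (x : E n)‖ := by
  have h1 : inner ℂ (x : E n) (prj (x : E n) v) = 0 := by
    rw [prj_apply, inner_sub_right, inner_smul_right, inner_self_eq_norm_sq_to_K, sph_norm]
    simp
  have h2 : inner ℂ (prj (x : E n) v) ((inner ℂ (x : E n) v - c) • (x : E n)) = 0 := by
    rw [inner_smul_right, inner_eq_zero_symm.1 h1, mul_zero]
  have e : v - c • (x : E n) = prj (x : E n) v + (inner ℂ (x : E n) v - c) • (x : E n) := by
    rw [prj_apply, sub_smul]
    abel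
  have h3 := norm_add_sq_eq_norm_sq_add_norm_sq_of_inner_eq_zero _ _ h2
  rw [← e] at h3
  refine (mul_self_le_mul_self_iff (norm_nonneg _) (norm_nonneg _)).2 ?_
  rw [h3]
  exact le_add_of_nonneg_right (mul_self_nonneg _)

theorem norm_prj_le (x : Sph n) (v : E n) : ‖prj (x : E n) v‖ ≤ ‖v‖ := by
  simpa using Coc1_prj_le x v 0

theorem infDist_span (x : Sph n) (v : E n) :
    infDist v (Submodule.span ℂ {(x : E n)} : Set (E n)) = ‖prj (x : E n) v‖ := by
  refine le_antisymm ?_ ((le_infDist ⟨0, Submodule.zero_mem _⟩).2 fun y hy => ?_)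
  · rw [prj_apply, ← dist_eq_norm]
    exact infDist_le_dist_of_mem (Submodule.smul_mem _ _ (Submodule.mem_span_singleton_self _))
  · obtain ⟨c, rfl⟩ := Submodule.mem_span_singleton.1 hy
    rw [dist_eq_norm]
    exact Coc1_prj_le x v c

/-- If `A x ∈ ℂ y` then `prj y ∘ A = prj y ∘ A ∘ prj x`. -/
theorem prj_comp {x y : Sph n} {A : E n →L[ℂ] E n} {c : ℂ} (h : A x = c • (y : E n)) :
    (prj (y : E n)).comp A = ((prj (y : E n)).comp A).comp (prj (x : E n)) := by
  refine ContinuousLinearMap.ext fun v => ?_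
  simp only [ContinuousLinearMap.comp_apply]
  rw [prj_apply (x : E n) v, map_sub, map_smul, h, map_sub, map_smul, map_smul, prj_self,
    smul_zero, smul_zero, sub_zero]

theorem inverse_nd_apply (hF : IsLift d F) (hd : 1 ≤ d) {x : Sph n} (hx : (x : E n) ∈ Reg F) :
    (nd F x).inverse (sf F x) = (d : ℂ)⁻¹ • (x : E n) := by
  have hd' : (d : ℂ) ≠ 0 := by exact_mod_cast (by omega : d ≠ 0)
  rw [((nd_isInvertible hF x).2 hx).inverse_apply_eq, map_smul, nd_apply_self hF, smul_smul,
    inv_mul_cancel₀ hd', one_smul]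

theorem beta_add_le (hF : IsLift d F) (hd : 1 ≤ d) {x : Sph n} (hx : x ∈ RegI F) (a b : ℕ) :
    beta F^[a + b] x ≤ beta F^[a] x * beta F^[b] ((sf F)^[a] x) := by
  have hA := (nd_isInvertible (hF.iterate a) x).2 (mem_reg_iterate_of_regI hF hd hx a)
  have h1 := inverse_nd_apply (hF.iterate a) (Nat.one_le_pow _ _ hd)
    (mem_reg_iterate_of_regI hF hd hx a)
  rw [sf_iterate hF] at h1
  rw [beta, beta, beta, nd_iterate_add hF hd, hA.inverse_comp_of_right,
    ← ContinuousLinearMap.comp_assoc, prj_comp h1, ContinuousLinearMap.comp_assoc]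
  refine (ContinuousLinearMap.opNorm_comp_le _ _).trans (le_of_eq ?_)
  rw [← prj_comp h1]

theorem Coc1_prj_comp_le (x : Sph n) (T : E n →L[ℂ] E n) : ‖(prj (x : E n)).comp T‖ ≤ ‖T‖ :=
  ContinuousLinearMap.opNorm_le_bound _ (norm_nonneg _) fun v =>
    (norm_prj_le x _).trans (T.le_opNorm v)

theorem beta_le (F : E n → E n) (x : Sph n) : beta F x ≤ ‖(nd F x).inverse‖ := by
  exact Coc1_prj_comp_le x _

/-- `prj (f x) ∘ (nd F^[m] (f x))⁻¹ = prj (f x) ∘ nd F x ∘ prj x ∘ (nd F^[m + 1] x)⁻¹`. -/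
theorem beta_shift (hF : IsLift d F) (hd : 1 ≤ d) : ∃ K : ℝ, 1 ≤ K ∧ ∀ x ∈ RegI F, ∀ m,
    beta F^[m] (sf F x) ≤ K * beta F^[m + 1] x := by
  obtain ⟨K, hK1, hK⟩ := nd_bound hF hd
  refine ⟨K, hK1, fun x hx m => ?_⟩
  have hA := (nd_isInvertible hF x).2 (hx 0)
  have e : nd F^[m + 1] x = (nd F^[m] (sf F x : Sph n)).comp (nd F x) := by
    rw [add_comm]
    exact nd_iterate_add hF hd 1 m x
  have e2 : (nd F^[m] (sf F x : Sph n)).inverse = (nd F x).comp (nd F^[m + 1] x).inverse := by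
    rw [e, hA.inverse_comp_of_right, ← ContinuousLinearMap.comp_assoc, hA.self_comp_inverse,
      ContinuousLinearMap.id_comp]
  rw [beta, beta, e2, ← ContinuousLinearMap.comp_assoc, prj_comp (nd_apply_self hF x),
    ContinuousLinearMap.comp_assoc]
  refine (ContinuousLinearMap.opNorm_comp_le _ _).trans ?_
  exact mul_le_mul_of_nonneg_right ((Coc1_prj_comp_le _ _).trans (hK x)) (norm_nonneg _)

theorem bad_maps (hF : IsLift d F) (hd : 1 ≤ d) : MapsTo (sf F) (Bad F) (Bad F) := by
  obtain ⟨K, hK1, hK⟩ := beta_shift hF hd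
  intro x hx
  refine ⟨regI_maps F hx.1, fun ε hε => ?_⟩
  rw [frequently_atTop]
  intro N
  obtain ⟨N', hN'⟩ := exists_nat_ge (2 * Real.log K / ε + 1)
  obtain ⟨k, hk, hk'⟩ := frequently_atTop.1 (hx.2 (ε / 2) (by positivity)) (N + N' + 1)
  obtain ⟨m, rfl⟩ : ∃ m, k = m + 1 := ⟨k - 1, by omega⟩
  refine ⟨m, by omega, (hK x hx.1 m).trans ?_⟩
  have h1 : (N' : ℝ) ≤ m := by exact_mod_cast (by omega : N' ≤ m)
  have h2 : 2 * Real.log K / ε + 1 ≤ m := hN'.trans h1
  have h3 : 2 * Real.log K ≤ (m - 1) * ε := by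
    rw [← div_le_iff₀ hε]
    linarith
  calc K * beta F^[m + 1] x ≤ K * Real.exp (ε / 2 * ((m + 1 : ℕ) : ℝ)) :=
        mul_le_mul_of_nonneg_left hk' (by linarith)
    _ = Real.exp (Real.log K + ε / 2 * ((m + 1 : ℕ) : ℝ)) := by
        rw [Real.exp_add, Real.exp_log (by linarith)]
    _ ≤ Real.exp (ε * m) := by
        refine Real.exp_le_exp.2 ?_
        push_cast
        linarith

theorem measurableSet_bad (hF : IsLift d F) : MeasurableSet (Bad F) := by
  have e : Bad F = RegI F ∩ ⋂ j : ℕ, ⋂ N : ℕ, ⋃ m : ℕ, ⋃ _ : N ≤ m,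
      {x | beta F^[m] x ≤ Real.exp (1 / ((j : ℝ) + 1) * m)} := by
    ext x
    simp only [Bad, mem_ofPred_eq, mem_inter_iff, mem_iInter, mem_iUnion, frequently_atTop,
      exists_prop]
    refine and_congr_right fun _ => ⟨fun h j N => h _ (by positivity) N, fun h ε hε N => ?_⟩
    obtain ⟨j, hj⟩ := exists_nat_one_div_lt hε
    obtain ⟨m, hm, hm'⟩ := h j N
    refine ⟨m, hm, hm'.trans (Real.exp_le_exp.2 ?_)⟩
    exact mul_le_mul_of_nonneg_right hj.le (Nat.cast_nonneg _)
  rw [e]
  refine (measurableSet_regI hF).inter (MeasurableSet.iInter fun j => MeasurableSet.iInter fun N =>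
    MeasurableSet.iUnion fun m => MeasurableSet.iUnion fun _ => ?_)
  exact measurableSet_le (measurable_beta (hF.iterate m)) measurable_const

end Pool.Agent.Lib.MP_a47f92_an
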