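import Pool.Agent.Lib.MP_a47f92_an.Coc2A

set_option autoImplicit false
set_option linter.unusedSectionVars false

/-! The derivative cocycle: relation with the statement and norm estimates. -/

namespace Pool.Agent.Lib.MP_a47f92_an

open MeasureTheory Filter Topology Set Complex Metric Function
open scoped ContDiff ComplexConjugate ComplexOrder Matrix ENNReal NNReal

variable {n : ℕ}

variable {d : ℕ} {F : E n → E n}

theorem Coc2_split (x : Sph n) (v : E n) :
    ‖v‖ ≤ ‖prj (x : E n) v‖ + ‖inner ℂ (x : E n) v‖ := by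
  have e : v = prj (x : E n) v + inner ℂ (x : E n) v • (x : E n) := by
    rw [prj_apply, sub_add_cancel]
  calc ‖v‖ = ‖prj (x : E n) v + inner ℂ (x : E n) v • (x : E n)‖ := by rw [← e]
    _ ≤ ‖prj (x : E n) v‖ + ‖inner ℂ (x : E n) v • (x : E n)‖ := norm_add_le _ _
    _ = _ := by rw [norm_smul, sph_norm, mul_one]

theorem Coc2_inner_le (x : Sph n) (v : E n) : ‖inner ℂ (x : E n) v‖ ≤ ‖v‖ := by
  simpa only [sph_norm, one_mul] using norm_inner_le_norm (𝕜 := ℂ) (x : E n) v

theorem Coc2_key {x y : Sph n} {A : E n →L[ℂ] E n} {c : ℕ} (h : A x = (c : ℂ) • (y : E n))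
    (v : E n) : (c : ℝ) * ‖inner ℂ (x : E n) v‖ ≤
      ‖inner ℂ (y : E n) (A v)‖ + ‖A‖ * ‖prj (x : E n) v‖ := by
  have e : A (prj (x : E n) v) = A v - (inner ℂ (x : E n) v * c) • (y : E n) := by
    rw [prj_apply, map_sub, map_smul, h, smul_smul]
  have e1 : inner ℂ (y : E n) (y : E n) = (1 : ℂ) := by
    rw [inner_self_eq_norm_sq_to_K, sph_norm]; simp
  have e2 : inner ℂ (x : E n) v * c =
      inner ℂ (y : E n) (A v) - inner ℂ (y : E n) (A (prj (x : E n) v)) := by
    rw [e, inner_sub_right, inner_smul_right, e1]; ring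
  have e3 : (c : ℝ) * ‖inner ℂ (x : E n) v‖ = ‖inner ℂ (x : E n) v * c‖ := by
    rw [norm_mul, Complex.norm_natCast, mul_comm]
  rw [e3, e2]
  refine (norm_sub_le _ _).trans (add_le_add le_rfl ?_)
  exact (Coc2_inner_le y _).trans (A.le_opNorm _)

theorem Coc2_zero (F : E n → E n) (x : Sph n) :
    nd F^[0] x = ContinuousLinearMap.id ℂ (E n) := by
  rw [nd, Function.iterate_zero, fderiv_id, id, sph_norm]
  simp

theorem Coc2_mulVec (T : E n →L[ℂ] E n) (w : E n) (i : Fin n) :
    T w i = ∑ j, cmat T i j * w j := by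
  conv_lhs => rw [← sum_ev w, map_sum]
  simp only [map_smul, cmat, Matrix.of_apply]
  rw [WithLp.ofLp_sum, Finset.sum_apply]
  refine Finset.sum_congr rfl fun j _ => ?_
  simp [mul_comm]

theorem Coc2_norm_ev (i : Fin n) : ‖ev i‖ = 1 := by
  simp [ev]

theorem Coc2_entry (T : E n →L[ℂ] E n) (i j : Fin n) : ‖cmat T i j‖ ≤ ‖T‖ := by
  have h1 : ‖T (ev j) i‖ ≤ ‖T (ev j)‖ := PiLp.norm_apply_le _ i
  have h2 := T.le_opNorm (ev j)
  rw [Coc2_norm_ev, mul_one] at h2
  exact h1.trans h2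

theorem Coc2_det (A : Mat n) {b : ℝ} (h : ∀ i j, ‖A i j‖ ≤ b) :
    ‖A.det‖ ≤ (Nat.factorial n : ℝ) * b ^ n := by
  have h1 := Matrix.det_le (A := A) (abv := NormedField.toAbsoluteValue ℂ) (x := b) h
  rw [Fintype.card_fin, nsmul_eq_mul] at h1
  exact h1

/-- Let `v = (nd G^[N] x)⁻¹ u`. Induction on `N` (generalising `x`) for the two statements
`‖prj x v‖ ≤ P ‖u‖` and `‖inner x v‖ ≤ (1 + K P) ‖u‖`, where `P` is the product and `K` bounds
`nd G`: with `v' = nd G x v`, `inner (g x) v' = D inner x v + inner (g x) (nd G x (prj x v))` and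
`D ≥ 2`. -/
theorem norm_inverse_le {D : ℕ} {G : E n → E n} (hG : IsLift D G) (hD : 2 ≤ D) : ∃ K : ℝ, 1 ≤ K ∧
    ∀ (N : ℕ), ∀ x ∈ RegI G, ‖(nd G^[N] x).inverse‖ ≤
      K * ∏ l ∈ Finset.range N, max 1 (beta G ((sf G)^[l] x)) := by
  have hD1 : 1 ≤ D := by omega
  obtain ⟨K, hK1, hK⟩ := nd_bound hG hD1
  have hP : ∀ (N : ℕ) (x : Sph n),
      1 ≤ ∏ l ∈ Finset.range N, max 1 (beta G ((sf G)^[l] x)) := fun N x =>
    Finset.prod_induction _ (fun t : ℝ => 1 ≤ t) (fun a b ha hb => one_le_mul_of_one_le_of_one_le ha hb)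
      le_rfl fun l _ => le_max_left _ _
  have key : ∀ (N : ℕ), ∀ x ∈ RegI G, ∀ v : E n,
      ‖prj (x : E n) v‖ ≤
          (∏ l ∈ Finset.range N, max 1 (beta G ((sf G)^[l] x))) * ‖nd G^[N] x v‖ ∧
        ‖inner ℂ (x : E n) v‖ ≤
          (1 + K * ∏ l ∈ Finset.range N, max 1 (beta G ((sf G)^[l] x))) * ‖nd G^[N] x v‖ := by
    intro N
    induction N with
    | zero =>
      intro x _ v
      rw [Coc2_zero, Finset.prod_range_zero, ContinuousLinearMap.id_apply, one_mul]
      refine ⟨norm_prj_le x v, (Coc2_inner_le x v).trans ?_⟩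
      nlinarith [norm_nonneg v]
    | succ N ih =>
      intro x hx v
      have hr : (x : E n) ∈ Reg G := hx 0
      have e : nd G^[N + 1] x v = nd G^[N] (sf G x : Sph n) (nd G x v) := by
        rw [add_comm, nd_iterate_add hG hD1 1 N x]
        rfl
      obtain ⟨h1, h2⟩ := ih (sf G x) (regI_maps G hx) (nd G x v)
      have hP' := hP N (sf G x)
      have eP : ∏ l ∈ Finset.range (N + 1), max 1 (beta G ((sf G)^[l] x)) =
          (∏ l ∈ Finset.range N, max 1 (beta G ((sf G)^[l] (sf G x)))) * max 1 (beta G x) := by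
        rw [Finset.prod_range_succ']
        rfl
      rw [e, eP]
      set Q := ∏ l ∈ Finset.range N, max 1 (beta G ((sf G)^[l] (sf G x))) with hQ
      set U := ‖nd G^[N] (sf G x : Sph n) (nd G x v)‖ with hU
      have hU0 : 0 ≤ U := norm_nonneg _
      set b := max 1 (beta G x) with hb
      have hb1 : 1 ≤ b := le_max_left _ _
      have h3 : ‖prj (x : E n) v‖ ≤ Q * b * U := by
        have e1 := prj_comp (x := sf G x) (y := x) (inverse_nd_apply hG hD1 hr)
        have e2 : prj (x : E n) v =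
            ((prj (x : E n)).comp (nd G x).inverse) (prj (sf G x : E n) (nd G x v)) := by
          have e3 := congrArg (fun T : E n →L[ℂ] E n => T (nd G x v)) e1
          simp only [ContinuousLinearMap.comp_apply] at e3 ⊢
          rw [← e3, ((nd_isInvertible hG x).2 hr).inverse_apply_self]
        rw [e2]
        refine (ContinuousLinearMap.le_opNorm _ _).trans ?_
        calc beta G x * ‖prj (sf G x : E n) (nd G x v)‖ ≤ b * (Q * U) :=
              mul_le_mul (le_max_right _ _) h1 (norm_nonneg _) (by linarith)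
          _ = Q * b * U := by ring
      refine ⟨h3, ?_⟩
      have h4 := Coc2_key (nd_apply_self hG x) v
      have h5 : ‖nd G x‖ * ‖prj (x : E n) v‖ ≤ K * (Q * b * U) :=
        mul_le_mul (hK x) h3 (norm_nonneg _) (by linarith)
      have h6 : (2 : ℝ) * ‖inner ℂ (x : E n) v‖ ≤ (D : ℝ) * ‖inner ℂ (x : E n) v‖ :=
        mul_le_mul_of_nonneg_right (by exact_mod_cast hD) (norm_nonneg _)
      have h7 : K * Q * U ≤ K * Q * U * b :=
        le_mul_of_one_le_right (by positivity) hb1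
      nlinarith
  refine ⟨2 + K, by linarith, fun N x hx => ?_⟩
  have hP' := hP N x
  refine ContinuousLinearMap.opNorm_le_bound _ (by positivity) fun u => ?_
  have hi := (nd_isInvertible (hG.iterate N) x).2 (mem_reg_iterate_of_regI hG hD1 hx N)
  obtain ⟨h1, h2⟩ := key N x hx ((nd G^[N] x).inverse u)
  rw [hi.self_apply_inverse] at h1 h2
  refine (Coc2_split x _).trans ?_
  have h3 := le_mul_of_one_le_left (norm_nonneg u) hP'
  nlinarith

/-- Exponential version with a single block: `‖(nd F^[m] x)⁻¹‖ ≤ 1 + (1 + K ^ m) beta F^[m] x`. -/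
theorem norm_inverse_le' (hF : IsLift d F) (hd : 1 ≤ d) : ∃ K : ℝ, 1 ≤ K ∧ ∀ (m : ℕ), ∀ x ∈ RegI F,
    ‖(nd F^[m] x).inverse‖ ≤ 1 + (1 + K ^ m) * beta F^[m] x := by
  obtain ⟨K, hK1, hK⟩ := nd_bound hF hd
  have hKm : ∀ (m : ℕ) (x : Sph n), ‖nd F^[m] x‖ ≤ K ^ m := by
    intro m x
    induction m with
    | zero =>
      rw [Coc2_zero, pow_zero]
      exact ContinuousLinearMap.norm_id_le
    | succ m ih =>
      rw [nd_iterate_add hF hd m 1 x, pow_succ']
      exact (ContinuousLinearMap.opNorm_comp_le _ _).trans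
        (mul_le_mul (hK _) ih (norm_nonneg _) (by linarith))
  refine ⟨K, hK1, fun m x hx => ?_⟩
  have hb : 0 ≤ beta F^[m] x := norm_nonneg _
  refine ContinuousLinearMap.opNorm_le_bound _ (by positivity) fun u => ?_
  have hi := (nd_isInvertible (hF.iterate m) x).2 (mem_reg_iterate_of_regI hF hd hx m)
  have h1 : ‖prj (x : E n) ((nd F^[m] x).inverse u)‖ ≤ beta F^[m] x * ‖u‖ :=
    ((prj (x : E n)).comp (nd F^[m] x).inverse).le_opNorm u
  have h2 := Coc2_key (nd_apply_self (hF.iterate m) x) ((nd F^[m] x).inverse u)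
  rw [hi.self_apply_inverse] at h2
  have h3 := Coc2_inner_le (sf F^[m] x) u
  have h4 : ‖nd F^[m] x‖ * ‖prj (x : E n) ((nd F^[m] x).inverse u)‖ ≤
      K ^ m * (beta F^[m] x * ‖u‖) :=
    mul_le_mul (hKm m x) h1 (norm_nonneg _) (by positivity)
  have h5 : ‖inner ℂ (x : E n) ((nd F^[m] x).inverse u)‖ ≤
      ((d ^ m : ℕ) : ℝ) * ‖inner ℂ (x : E n) ((nd F^[m] x).inverse u)‖ :=
    le_mul_of_one_le_left (norm_nonneg _) (by exact_mod_cast Nat.one_le_pow m d hd)
  refine (Coc2_split x _).trans ?_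
  nlinarith

/-- Entries of `cmat T` are bounded by `‖T‖`; `Matrix.det_apply`. -/
theorem norm_det_le (n : ℕ) : ∃ C : ℝ, 1 ≤ C ∧ ∀ T : E n →L[ℂ] E n, ‖T.det‖ ≤ C * ‖T‖ ^ n := by
  refine ⟨Nat.factorial n, by exact_mod_cast Nat.factorial_pos n, fun T => ?_⟩
  rw [← cmat_det]
  exact Coc2_det _ (Coc2_entry T)

/-- Cramer's rule; or: `T ↦ Matrix.adjugate (cmat T)` is continuous, hence bounded on a compact
ball, and `cmat T⁻¹ = (det T)⁻¹ • adjugate (cmat T)`. -/
theorem norm_inverse_det (n : ℕ) (K : ℝ) : ∃ C : ℝ, 1 ≤ C ∧ ∀ T : E n →L[ℂ] E n, ‖T‖ ≤ K →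
    ‖T.inverse‖ * ‖T.det‖ ≤ C := by
  set B : ℝ := (Nat.factorial n : ℝ) * max 1 K ^ n with hB
  have hB0 : 0 ≤ B := by positivity
  refine ⟨1 + n * (n * B), by nlinarith [(by positivity : (0 : ℝ) ≤ n * (n * B))], fun T hT => ?_⟩
  by_cases hi : T.IsInvertible
  swap
  · rw [ContinuousLinearMap.inverse_of_not_isInvertible hi, norm_zero, zero_mul]
    positivity
  have hadj : ∀ i j, ‖(cmat T).adjugate i j‖ ≤ B := by
    intro i j
    rw [Matrix.adjugate_apply]
    refine Coc2_det _ fun a b => ?_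
    rw [Matrix.updateRow_apply]
    split_ifs
    · rw [Pi.single_apply]
      split_ifs
      · simp
      · simp
    · exact (Coc2_entry T a b).trans (hT.trans (le_max_right _ _))
  have h1 : ‖T.det • T.inverse‖ ≤ n * (n * B) := by
    refine ContinuousLinearMap.opNorm_le_bound _ (by positivity) fun u => ?_
    set w := T.inverse u with hw
    have hTw : T w = u := hi.self_apply_inverse u
    have h2 : ∀ i, T.det * w i = ∑ j, (cmat T).adjugate i j * u j := by
      intro i
      have h3 : (cmat T) *ᵥ w.ofLp = u.ofLp := by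
        funext j
        rw [← hTw, Coc2_mulVec]
        rfl
      have h4 : (cmat T).adjugate *ᵥ u.ofLp = T.det • w.ofLp := by
        rw [← h3, Matrix.mulVec_mulVec, Matrix.adjugate_mul, cmat_det, Matrix.smul_mulVec,
          Matrix.one_mulVec]
      exact (congrFun h4 i).symm
    have h5 : ∀ i, ‖T.det * w i‖ ≤ n * B * ‖u‖ := by
      intro i
      rw [h2]
      refine (norm_sum_le _ _).trans ?_
      calc ∑ j, ‖(cmat T).adjugate i j * u j‖ ≤ ∑ _j : Fin n, B * ‖u‖ :=
            Finset.sum_le_sum fun j _ => by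
              rw [norm_mul]
              exact mul_le_mul (hadj i j) (PiLp.norm_apply_le u j) (norm_nonneg _) hB0
        _ = n * B * ‖u‖ := by simp [mul_assoc]
    change ‖T.det • w‖ ≤ _
    rw [← sum_ev (T.det • w)]
    refine (norm_sum_le _ _).trans ?_
    calc ∑ i, ‖(T.det • w) i • ev i‖ ≤ ∑ _i : Fin n, n * B * ‖u‖ :=
          Finset.sum_le_sum fun i _ => by
            rw [norm_smul, Coc2_norm_ev, mul_one]
            exact h5 i
      _ = n * (n * B) * ‖u‖ := by simp [mul_assoc]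
  rw [norm_smul, mul_comm] at h1
  linarith

theorem det_nd_iterate (hF : IsLift d F) (hd : 1 ≤ d) (m : ℕ) (x : Sph n) :
    (nd F^[m] x).det = ∏ i ∈ Finset.range m, (nd F ((sf F)^[i] x : Sph n)).det := by
  induction m with
  | zero =>
    rw [Coc2_zero, Finset.prod_range_zero, ← cmat_det, cmat_id, Matrix.det_one]
  | succ m ih =>
    rw [nd_iterate_add hF hd m 1 x, Finset.prod_range_succ, ← ih, ← cmat_det, cmat_comp,
      Matrix.det_mul, cmat_det, cmat_det, mul_comm]
    rfl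

end Pool.Agent.Lib.MP_a47f92_an
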