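import Pool.Agent.Lib.MP_a47f92_an.Coc1

set_option autoImplicit false
set_option linter.unusedSectionVars false

/-! The derivative cocycle: relation with the statement and norm estimates. -/

namespace Pool.Agent.Lib.MP_a47f92_an

open MeasureTheory Filter Topology Set Complex Metric Function
open scoped ContDiff ComplexConjugate ComplexOrder Matrix ENNReal NNReal

variable {n : ℕ}

variable {d : ℕ} {F : E n → E n}

theorem fsNorm_smul {c : ℂ} (hc : c ≠ 0) (z v : E n) : fsNorm (c • z) (c • v) = fsNorm z v := by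
  have h1 : (Submodule.span ℂ {c • z} : Set (E n)) =
      (fun w => c • w) '' (Submodule.span ℂ {z} : Set (E n)) := by
    rw [Submodule.span_singleton_smul_eq (IsUnit.mk0 c hc)]
    ext w
    refine ⟨fun hw => ⟨c⁻¹ • w, Submodule.smul_mem _ _ hw, smul_inv_smul₀ hc w⟩, ?_⟩
    rintro ⟨w, hw, rfl⟩
    exact Submodule.smul_mem _ _ hw
  have h2 := infDist_smul₀ hc (Submodule.span ℂ {z} : Set (E n)) v
  rw [fsNorm, fsNorm, h1, Set.image_smul, h2, norm_smul,
    mul_div_mul_left _ _ (norm_ne_zero_iff.2 hc)]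

/-- `fderiv F^[m] (t • z) (t • v) = t ^ (d ^ m) • fderiv F^[m] z v`. -/
theorem NegExp.smul (hF : IsLift d F) (hd : 1 ≤ d) {z : E n} (h : NegExp F z) {t : ℝ} (ht : 0 < t) :
    NegExp F (t • z) := by
  obtain ⟨θ, h0, h1, h2⟩ := h
  have hc : (t : ℂ) ≠ 0 := ofReal_ne_zero.2 ht.ne'
  refine ⟨θ, h0, h1, h2.mono fun m hm => ?_⟩
  obtain ⟨v, hv, hle⟩ := hm
  have hG := hF.iterate m
  have hD : 1 ≤ d ^ m := Nat.one_le_pow _ _ hd
  rw [← Complex.coe_smul]
  refine ⟨(t : ℂ) • v, by rwa [fsNorm_smul hc], ?_⟩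
  have e1 : fderiv ℂ F^[m] ((t : ℂ) • z) ((t : ℂ) • v) = (t : ℂ) ^ d ^ m • fderiv ℂ F^[m] z v := by
    rw [hG.fderiv_smul hD hc, _root_.smul_apply, map_smul, smul_smul, ← pow_succ,
      Nat.sub_add_cancel hD]
  rwa [e1, hG.hom, fsNorm_smul (pow_ne_zero _ hc), fsNorm_smul hc]

theorem Coc2A_fs (x : Sph n) (v : E n) : fsNorm (x : E n) v = ‖prj (x : E n) v‖ := by
  rw [fsNorm, infDist_span, sph_norm, div_one]

theorem Coc2A_fs' (hF : IsLift d F) (x : Sph n) (v : E n) :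
    fsNorm (F x) (fderiv ℂ F x v) = ‖prj (sf F x : E n) (nd F x v)‖ := by
  have hc : ((‖F x‖⁻¹ : ℝ) : ℂ) ≠ 0 :=
    ofReal_ne_zero.2 (inv_ne_zero (norm_ne_zero_iff.2 (hF.ne (sph_ne x))))
  rw [← Coc2A_fs, ← fsNorm_smul hc, coe_sf hF, nm, ← Complex.coe_smul]
  rfl

theorem Coc2A_key (hF : IsLift d F) (hd : 1 ≤ d) {x : Sph n} {θ : ℝ} (hθ : 0 < θ)
    (h : ∀ v, 0 < fsNorm (x : E n) v →
      θ * fsNorm (x : E n) v < fsNorm (F x) (fderiv ℂ F x v)) :
    (x : E n) ∈ Reg F ∧ beta F x ≤ θ⁻¹ := by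
  have h' : ∀ v, θ * ‖prj (x : E n) v‖ ≤ ‖nd F x v‖ := fun v => by
    rcases (norm_nonneg (prj (x : E n) v)).eq_or_lt with h0 | h0
    · rw [← h0, mul_zero]
      exact norm_nonneg _
    · have := h v (by rwa [Coc2A_fs])
      rw [Coc2A_fs, Coc2A_fs' hF] at this
      exact this.le.trans (norm_prj_le _ _)
  have hinj : Injective (nd F x) := by
    rw [injective_iff_map_eq_zero]
    intro v hv
    have h1 := h' v
    rw [hv, norm_zero] at h1
    have h2 : prj (x : E n) v = 0 :=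
      norm_le_zero_iff.1 (le_of_mul_le_mul_left (by rwa [mul_zero]) hθ)
    rw [prj_apply, sub_eq_zero] at h2
    rw [h2, map_smul, nd_apply_self hF, smul_smul, smul_eq_zero, mul_eq_zero] at hv
    rcases hv with (hv | hv) | hv
    · rw [h2, hv, zero_smul]
    · exact absurd (Nat.cast_eq_zero.1 hv) (by omega)
    · exact absurd hv (sph_ne _)
  have hinv : (nd F x).IsInvertible :=
    ⟨(LinearEquiv.ofInjectiveEndo (nd F x : E n →ₗ[ℂ] E n) hinj).toContinuousLinearEquiv, by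
      ext1 v
      rfl⟩
  refine ⟨(nd_isInvertible hF x).1 hinv, ?_⟩
  refine ContinuousLinearMap.opNorm_le_bound _ (inv_nonneg.2 hθ.le) fun w => ?_
  have h1 := h' ((nd F x).inverse w)
  rw [hinv.self_apply_inverse] at h1
  rw [ContinuousLinearMap.comp_apply, inv_mul_eq_div, le_div_iff₀' hθ]
  exact h1

/-- If `θ ^ m fsNorm x v < fsNorm (F^[m] x) (fderiv F^[m] x v)` for all `v` with `0 < fsNorm x v`,
that is `θ ^ m ‖prj x v‖ < ‖prj y (nd F^[m] x v)‖` with `y = (sf F)^[m] x`, then `nd F^[m] x` is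
injective (`nd_apply_self`), hence invertible, and `beta F^[m] x ≤ θ⁻¹ ^ m`. This happens for
infinitely many `m`, so the orbit is regular (`IsLift.mem_reg_iterate`, `IsLift.cone_reg`). -/
theorem mem_bad (hF : IsLift d F) (hd : 1 ≤ d) {x : Sph n} (h : ¬ NegExp F x) : x ∈ Bad F := by
  have key : ∀ ε : ℝ, 0 < ε → ∃ᶠ m : ℕ in atTop,
      (x : E n) ∈ Reg F^[m] ∧ beta F^[m] x ≤ Real.exp (ε * m) := fun ε hε => by
    have h0 : 0 < Real.exp (-ε) := Real.exp_pos _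
    have h1 : Real.exp (-ε) < 1 := Real.exp_lt_one_iff.2 (neg_neg_of_pos hε)
    have h2 : ¬ ∀ᶠ m in atTop, ∃ v, 0 < fsNorm (x : E n) v ∧
        fsNorm (F^[m] x) (fderiv ℂ F^[m] x v) ≤ Real.exp (-ε) ^ m * fsNorm (x : E n) v :=
      fun h2 => h ⟨_, h0, h1, h2⟩
    rw [not_eventually] at h2
    refine h2.mono fun m hm => ?_
    have h3 := Coc2A_key (hF.iterate m) (Nat.one_le_pow _ _ hd) (x := x) (pow_pos h0 m)
      fun v hv => lt_of_not_ge fun hle => hm ⟨v, hv, hle⟩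
    refine ⟨h3.1, h3.2.trans_eq ?_⟩
    rw [← Real.exp_nat_mul, ← Real.exp_neg]
    congr 1
    ring
  refine ⟨fun i => ?_, fun ε hε => (key ε hε).mono fun m hm => hm.2⟩
  obtain ⟨m, hm, hr⟩ := frequently_atTop.1 (key 1 one_pos) (i + 1)
  have h1 := (hF.mem_reg_iterate m x).1 hr.1 i (by omega)
  rw [coe_sf_iterate hF, nm, ← Complex.coe_smul]
  exact hF.cone_reg hd _ (ofReal_ne_zero.2
    (inv_ne_zero (norm_ne_zero_iff.2 ((hF.iterate i).ne (sph_ne x))))) _ h1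

end Pool.Agent.Lib.MP_a47f92_an
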