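import Pool.Agent.Lib.MP_a47f92_an.IFTA

set_option autoImplicit false
set_option linter.unusedSectionVars false

/-! A quantitative inverse function theorem and branches along orbits. -/

namespace Pool.Agent.Lib.MP_a47f92_an

open MeasureTheory Filter Topology Set Complex Metric Function
open scoped ContDiff ComplexConjugate ComplexOrder Matrix ENNReal NNReal

variable {n : ℕ}

variable {D : ℕ} {G : E n → E n}

theorem ell_nonneg (G : E n → E n) (x : Sph n) : 0 ≤ ell G x := by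
  refine Real.log_nonneg ?_
  linarith [le_max_left (1 : ℝ) ‖(nd G x).inverse‖]

theorem IFT_lip (hG : IsLift D G) : ∃ K : ℝ, 0 < K ∧ ∀ x z : E n, ‖x‖ ≤ 2 → ‖z‖ ≤ 2 →
    ‖fderiv ℂ G z - fderiv ℂ G x‖ ≤ K * ‖z - x‖ := by
  have h1 : ContDiff ℂ 1 (fderiv ℂ G) :=
    hG.contDiff.fderiv_right (m := 1) (WithTop.coe_le_coe.2 (le_top : (1 + 1 : ℕ∞) ≤ ⊤))
  have h2 : Continuous (fderiv ℂ (fderiv ℂ G)) := h1.continuous_fderiv one_ne_zero
  obtain ⟨K, hK⟩ := (isCompact_closedBall (0 : E n) 2).exists_bound_of_continuousOn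
    (f := fderiv ℂ (fderiv ℂ G)) h2.continuousOn
  refine ⟨|K| + 1, by positivity, fun x z hx hz => ?_⟩
  refine (convex_closedBall (0 : E n) 2).norm_image_sub_le_of_norm_fderiv_le
    (fun y _ => h1.differentiable one_ne_zero y) (fun y hy => (hK y hy).trans ?_)
    (mem_closedBall_zero_iff.2 hx) (mem_closedBall_zero_iff.2 hz)
  linarith [le_abs_self K]

theorem IFT_norm (x : Sph n) : ‖(x : E n)‖ = 1 := mem_sphere_zero_iff_norm.1 x.2

theorem IFT_ne (x : Sph n) : (x : E n) ≠ 0 := norm_ne_zero_iff.1 (by rw [IFT_norm]; exact one_ne_zero)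

theorem IFT_nm_zero (G : E n → E n) (x : Sph n) : nm G^[0] x = x := by
  simp only [nm, iterate_zero, id, IFT_norm, inv_one, one_smul]

theorem IFT_sf (hG : IsLift D G) (x : Sph n) : (sf G x : E n) = nm G x := by
  rw [sf, dif_neg (hG.ne (IFT_ne x))]

/-- One step: apply `quant_ift` to `g = ‖G x‖⁻¹ • G`; `fderiv ℂ G` is Lipschitz on the ball of
radius two and `‖G x‖` is bounded below on the sphere. -/
theorem exists_step (hG : IsLift D G) (hD : 1 ≤ D) : ∃ c : ℝ, 0 < c ∧ ∀ x : Sph n,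
    (x : E n) ∈ Reg G → ∃ h : E n → E n,
      ContDiffOn ℂ ∞ h (ball (nm G x) (c * Real.exp (-2 * ell G x))) ∧ h (nm G x) = x ∧
      ∀ q ∈ ball (nm G x) (c * Real.exp (-2 * ell G x)),
        G (h q) = ‖G x‖ • q ∧ ‖h q - x‖ ≤ Real.exp (ell G x) * ‖q - nm G x‖ := by
  obtain ⟨K, hK, hL⟩ := IFT_lip hG
  obtain ⟨b, C, hb, -, hbd⟩ := hG.bounds hD
  obtain ⟨c, hc, H⟩ := quant_ift (n := n) (M := b⁻¹ * K) (by positivity)
  refine ⟨4 * c, by positivity, fun x hx => ?_⟩
  have hb1 : b ≤ ‖G x‖ := by simpa only [IFT_norm, one_pow, mul_one] using (hbd x).1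
  have hpos : 0 < ‖G x‖ := hb.trans_le hb1
  set t : ℂ := ((‖G x‖⁻¹ : ℝ) : ℂ) with ht
  have ht0 : t ≠ 0 := ofReal_ne_zero.2 (inv_ne_zero hpos.ne')
  have hfd : ∀ z, fderiv ℂ (fun w => t • G w) z = t • fderiv ℂ G z := fun z =>
    ((hG.differentiable z).hasFDerivAt.const_smul t).fderiv
  have hdet : (nd G x).det ≠ 0 := by
    have e : (nd G x).det = t ^ Module.finrank ℂ (E n) * (fderiv ℂ G x).det :=
      LinearMap.det_smul t (fderiv ℂ G x : E n →ₗ[ℂ] E n)
    rw [e]
    exact mul_ne_zero (pow_ne_zero _ ht0) hx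
  obtain ⟨A, hA⟩ := exists_equiv_of_det hdet
  set α : ℝ := max 1 ‖(nd G x).inverse‖ with hα
  have hα1 : 1 ≤ α := le_max_left _ _
  have he : Real.exp (ell G x) = 2 * α := Real.exp_log (by positivity)
  have he2 : 4 * c * Real.exp (-2 * ell G x) = c / α ^ 2 := by
    rw [show -2 * ell G x = -(ell G x + ell G x) by ring, Real.exp_neg, Real.exp_add, he]
    field_simp
    ring
  have hg : t • G x = nm G x := Complex.coe_smul _ _
  obtain ⟨h, h1, h2, h3⟩ := H (fun w => t • G w) x A α (hG.contDiff.const_smul t)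
    (by rw [hfd, hA]; rfl) hα1
    (by rw [← ContinuousLinearMap.inverse_equiv, hA]; exact le_max_right _ _)
    (fun z hz => by
      have hz2 : ‖z‖ ≤ 2 := by
        have := norm_add_le (z - x) (x : E n)
        rw [sub_add_cancel, IFT_norm] at this
        linarith
      rw [hfd, hfd, ← smul_sub t (fderiv ℂ G z) (fderiv ℂ G x), norm_smul, mul_assoc]
      refine mul_le_mul ?_ (hL x z (by rw [IFT_norm]; norm_num) hz2) (norm_nonneg _)
        (by positivity)
      rw [ht, norm_real, norm_inv, norm_norm]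
      exact inv_anti₀ hb hb1)
  simp only [hg] at h1 h2 h3
  rw [he2, he]
  refine ⟨h, h1, h2, fun q hq => ⟨?_, (h3 q hq).2⟩⟩
  have e := (h3 q hq).1
  rw [ht, Complex.coe_smul] at e
  exact (inv_smul_eq_iff₀ hpos.ne').1 e

/-- The norm cocycle: `G^[i + 1] x = ‖G x‖ ^ (D ^ i) • G^[i] (nm G x)`. -/
theorem iterate_succ_eq (hG : IsLift D G) {x : E n} (hx : x ≠ 0) (i : ℕ) {w w' : E n}
    (h : G w = ‖G x‖ • w') :
    ‖G^[i + 1] x‖⁻¹ • G^[i + 1] w = ‖G^[i] (nm G x)‖⁻¹ • G^[i] w' ∧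
      nm G^[i + 1] x = nm G^[i] (nm G x) := by
  have hpos : 0 < ‖G x‖ := norm_pos_iff.2 (hG.ne hx)
  have key : ∀ {w w' : E n}, G w = ‖G x‖ • w' → G^[i + 1] w = ‖G x‖ ^ D ^ i • G^[i] w' := by
    intro w w' h
    rw [iterate_succ_apply, h, (hG.iterate i).homR]
  have hx' : G x = ‖G x‖ • nm G x := by rw [nm, smul_inv_smul₀ hpos.ne']
  have hp : 0 < ‖G x‖ ^ D ^ i := pow_pos hpos _
  have key2 : ∀ {w w' : E n}, G w = ‖G x‖ • w' →
      ‖G^[i + 1] x‖⁻¹ • G^[i + 1] w = ‖G^[i] (nm G x)‖⁻¹ • G^[i] w' := by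
    intro w w' h
    rw [key h, key hx', norm_smul, Real.norm_of_nonneg hp.le, smul_smul, mul_inv, mul_right_comm,
      inv_mul_cancel₀ hp.ne', one_mul]
  exact ⟨key2 h, key2 hx'⟩

/-- Induction on `J`, generalising `x`: compose the branch of `exists_step` at `x` with the branch
at `sf G x` (`birkhoffSum_succ'`). -/
theorem exists_nb (hG : IsLift D G) (hD : 1 ≤ D) : ∃ c : ℝ, 0 < c ∧ ∀ (J : ℕ) (x : Sph n),
    x ∈ RegI G → ∃ h, NB G J x (c * Real.exp (-2 * birkhoffSum (sf G) (ell G) J x))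
      (Real.exp (birkhoffSum (sf G) (ell G) J x)) h := by
  obtain ⟨c, hc, H⟩ := exists_step hG hD
  refine ⟨c, hc, fun J => ?_⟩
  induction J with
  | zero =>
    intro x _
    refine ⟨id, contDiffOn_id, IFT_nm_zero G x, fun q _ => ?_, fun q _ i hi => ?_⟩
    · simp only [iterate_zero, id, IFT_norm, one_smul]
    · obtain rfl : i = 0 := Nat.le_zero.1 hi
      simp only [iterate_zero, id, IFT_norm, inv_one, one_smul, birkhoffSum_zero, Real.exp_zero,
        one_mul, le_refl]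
  | succ J ih =>
    intro x hx
    obtain ⟨h₀, a1, a2, a3⟩ := H x (hx 0)
    obtain ⟨h', b⟩ := ih (sf G x) fun i => by
      have := hx (i + 1)
      rwa [iterate_succ_apply] at this
    rw [birkhoffSum_succ']
    set S := birkhoffSum (sf G) (ell G) J (sf G x) with hS
    have hS0 : 0 ≤ S := Finset.sum_nonneg fun i _ => ell_nonneg G _
    have hl0 := ell_nonneg G x
    have hx' : G x = ‖G x‖ • nm G x := by
      rw [nm, smul_inv_smul₀ (norm_ne_zero_iff.2 (hG.ne (IFT_ne x)))]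
    have hc1 : ∀ i, nm G^[i + 1] x = nm G^[i] (sf G x) := fun i => by
      rw [IFT_sf hG]
      exact (iterate_succ_eq hG (IFT_ne x) i hx').2
    have hsub : ball (nm G^[J + 1] x) (c * Real.exp (-2 * (ell G x + S))) ⊆
        ball (nm G^[J] (sf G x)) (c * Real.exp (-2 * S)) := by
      rw [hc1]
      exact ball_subset_ball (mul_le_mul_of_nonneg_left (Real.exp_le_exp.2 (by linarith)) hc.le)
    have hl : ∀ q ∈ ball (nm G^[J + 1] x) (c * Real.exp (-2 * (ell G x + S))),
        ‖h' q - nm G x‖ ≤ Real.exp S * ‖q - nm G^[J + 1] x‖ := by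
      intro q hq
      have h1 := b.lip q (hsub hq) 0 (Nat.zero_le _)
      rw [IFT_nm_zero] at h1
      simp only [iterate_zero, id, IFT_norm, inv_one, one_smul] at h1
      rwa [hc1, ← IFT_sf hG]
    have hm : ∀ q ∈ ball (nm G^[J + 1] x) (c * Real.exp (-2 * (ell G x + S))),
        h' q ∈ ball (nm G x) (c * Real.exp (-2 * ell G x)) := by
      intro q hq
      rw [mem_ball_iff_norm]
      refine (hl q hq).trans_lt ((mul_lt_mul_of_pos_left (mem_ball_iff_norm.1 hq)
        (Real.exp_pos S)).trans_le ?_)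
      rw [mul_left_comm, ← Real.exp_add]
      exact mul_le_mul_of_nonneg_left (Real.exp_le_exp.2 (by linarith)) hc.le
    refine ⟨h₀ ∘ h', a1.comp (b.smooth.mono hsub) hm, ?_, fun q hq => ?_, fun q hq i hi => ?_⟩
    · rw [comp_apply, hc1, b.ctr, IFT_sf hG, a2]
    · have h1 := (iterate_succ_eq hG (IFT_ne x) J (a3 _ (hm q hq)).1).1
      rw [b.inv q (hsub hq), ← IFT_sf hG,
        inv_smul_smul₀ (norm_ne_zero_iff.2 ((hG.iterate J).ne (IFT_ne _)))] at h1
      rw [comp_apply, ← inv_smul_eq_iff₀ (norm_ne_zero_iff.2 ((hG.iterate (J + 1)).ne (IFT_ne x)))]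
      exact h1
    · rcases i with _ | i
      · rw [IFT_nm_zero]
        simp only [iterate_zero, id, IFT_norm, inv_one, one_smul, comp_apply]
        refine (a3 _ (hm q hq)).2.trans ?_
        rw [Real.exp_add, mul_assoc]
        exact mul_le_mul_of_nonneg_left (hl q hq) (Real.exp_pos _).le
      · rw [comp_apply, (iterate_succ_eq hG (IFT_ne x) i (a3 _ (hm q hq)).1).1, hc1 i,
          ← IFT_sf hG]
        refine (b.lip q (hsub hq) i (Nat.le_of_succ_le_succ hi)).trans ?_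
        rw [hc1 J]
        exact mul_le_mul_of_nonneg_right (Real.exp_le_exp.2 (by linarith)) (norm_nonneg _)

end Pool.Agent.Lib.MP_a47f92_an
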