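import Pool.Agent.Lib.MP_a47f92_an.Coc2
import Pool.Agent.Lib.MP_a47f92_an.KW
import Pool.Agent.Lib.MP_a47f92_an.IFT

set_option autoImplicit false
set_option linter.unusedSectionVars false

/-! Integrability and smallness of the inverse cocycle. -/

namespace Pool.Agent.Lib.MP_a47f92_an

open MeasureTheory Filter Topology Set Complex Metric Function
open scoped ContDiff ComplexConjugate ComplexOrder Matrix ENNReal NNReal

variable {n : ℕ}

variable {d : ℕ} {F : E n → E n} {μ : Measure (Sph n)}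

theorem Coc3_det {T : E n →L[ℂ] E n} (h : T.IsInvertible) :
    T.det ≠ 0 ∧ T.inverse.det = T.det⁻¹ := by
  obtain ⟨A, rfl⟩ := h
  exact ⟨A.toLinearEquiv.isUnit_det'.ne_zero, by
    rw [ContinuousLinearMap.inverse_equiv, ContinuousLinearEquiv.det_coe_symm]⟩

/-- Let `C₀ ≥ 1` bound `‖det (nd F x)‖` and `g x = log C₀ - log ‖det (nd F x)‖` (replace by `max 0`
if convenient). For `x ∈ Bad F` there is `m ≥ 1` with `beta F^[m] x ≤ exp m`, so
`‖det (nd F^[m] x)‖⁻¹ = ‖det (nd F^[m] x)⁻¹‖ ≤ C (1 + (1 + K ^ m) exp m) ^ n ≤ exp (L m)`, and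
`birkhoffSum g m x ≤ L' m` by `det_nd_iterate`. So `g` is integrable (`integrable_of_birkhoff`), and
`ell F ≤ C' + g` on the regular set by `norm_inverse_det`. -/
theorem integrable_ell [IsProbabilityMeasure μ] (hF : IsLift d F) (hd : 1 ≤ d)
    (hf : MeasurePreserving (sf F) μ μ) (hB : ∀ᵐ x ∂μ, x ∈ Bad F) : Integrable (ell F) μ := by
  obtain ⟨K₀, hK₀, hb⟩ := nd_bound hF hd
  obtain ⟨C, hC, hdet⟩ := norm_det_le n
  obtain ⟨K, hK, hinv⟩ := norm_inverse_le' hF hd
  obtain ⟨C₁, hC₁, hcr⟩ := norm_inverse_det n K₀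
  set C₀ : ℝ := C * K₀ ^ n with hC₀
  have hC₀1 : 1 ≤ C₀ := one_le_mul_of_one_le_of_one_le hC (one_le_pow₀ hK₀)
  have hle : ∀ x : Sph n, ‖(nd F x).det‖ ≤ C₀ := fun x =>
    (hdet _).trans (mul_le_mul_of_nonneg_left (pow_le_pow_left₀ (norm_nonneg _) (hb x) n)
      (by linarith))
  set g : Sph n → ℝ := fun x => Real.log C₀ - Real.log ‖(nd F x).det‖ with hg
  have hgm : Measurable g := measurable_const.sub
    (ContinuousLinearMap.continuous_det.comp (continuous_nd hF)).norm.measurable.log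
  have hg0 : ∀ x, 0 ≤ g x := fun x => by
    rcases (norm_nonneg (nd F x).det).eq_or_lt with h | h
    · simp only [hg]
      rw [← h, Real.log_zero, sub_zero]
      exact Real.log_nonneg hC₀1
    · exact sub_nonneg.2 (Real.log_le_log h (hle x))
  have he : (1 : ℝ) ≤ Real.exp 1 := Real.one_le_exp zero_le_one
  set Q : ℝ := 3 * (K * Real.exp 1) with hQ
  have hgi : Integrable g μ := by
    refine integrable_of_birkhoff hf hgm hg0 (L := Real.log C₀ + Real.log (C * Q ^ n)) ?_
    filter_upwards [hB] with x hx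
    obtain ⟨m, hm, hm1⟩ := ((hx.2 1 one_pos).and_eventually (eventually_ge_atTop 1)).exists
    refine ⟨m, hm1, ?_⟩
    obtain ⟨h0, h1⟩ := Coc3_det ((nd_isInvertible (hF.iterate m) x).2
      (mem_reg_iterate_of_regI hF hd hx.1 m))
    have hKm : 1 ≤ K ^ m := one_le_pow₀ hK
    have hem : 1 ≤ Real.exp 1 ^ m := one_le_pow₀ he
    have h2 : ‖(nd F^[m] x).inverse‖ ≤ Q ^ m := by
      rw [mul_comm, Real.exp_nat_mul] at hm
      have e1 : (1 + K ^ m) * beta F^[m] x ≤ (1 + K ^ m) * Real.exp 1 ^ m :=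
        mul_le_mul_of_nonneg_left hm (by linarith)
      have e2 : (3 : ℝ) ≤ 3 ^ m := le_self_pow₀ (by norm_num) (by omega)
      have e3 : 1 + (1 + K ^ m) * Real.exp 1 ^ m ≤ 3 * (K ^ m * Real.exp 1 ^ m) := by nlinarith
      rw [hQ, mul_pow, mul_pow]
      exact ((hinv m x hx.1).trans (by linarith)).trans
        (mul_le_mul_of_nonneg_right e2 (by positivity))
    have h3 : ‖(nd F^[m] x).det‖⁻¹ ≤ (C * Q ^ n) ^ m := by
      rw [← norm_inv, ← h1, mul_pow, ← pow_mul, mul_comm n, pow_mul]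
      exact (hdet _).trans (mul_le_mul (le_self_pow₀ hC (by omega))
        (pow_le_pow_left₀ (norm_nonneg _) h2 n) (by positivity) (by positivity))
    have h4 := Real.log_le_log (inv_pos.2 (norm_pos_iff.2 h0)) h3
    rw [Real.log_inv, Real.log_pow, det_nd_iterate hF hd, norm_prod, Real.log_prod] at h4
    · simp only [birkhoffSum, hg, Finset.sum_sub_distrib, Finset.sum_const, Finset.card_range,
        nsmul_eq_mul]
      linarith
    · exact fun i _ => norm_ne_zero_iff.2 (Coc3_det ((nd_isInvertible hF _).2 (hx.1 i))).1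
  refine ((integrable_const (Real.log (2 * C₁))).add hgi).mono'
    (measurable_ell hF).aestronglyMeasurable ?_
  filter_upwards [hB] with x hx
  have h0 := norm_pos_iff.2 (Coc3_det ((nd_isInvertible hF x).2 (hx.1 0))).1
  have h1 : 1 ≤ C₀ / ‖(nd F x).det‖ := (one_le_div h0).2 (hle x)
  have h2 : max 1 ‖(nd F x).inverse‖ ≤ C₁ * (C₀ / ‖(nd F x).det‖) := by
    refine max_le (one_le_mul_of_one_le_of_one_le hC₁ h1) ?_
    rw [← mul_div_assoc, le_div_iff₀ h0]
    exact (hcr _ (hb x)).trans (le_mul_of_one_le_right (by linarith) hC₀1)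
  rw [Real.norm_of_nonneg (ell_nonneg F x), Pi.add_apply]
  simp only [hg]
  rw [← Real.log_div (by linarith) h0.ne', ← Real.log_mul (by linarith) (by linarith), mul_assoc]
  exact Real.log_le_log (by positivity) (by linarith)

/-- Apply `kw` to `c k x = log (max 1 (beta F^[k] x))` (`beta_add_le`, `beta_le`) to get `p` with
`∫ c p ≤ ε p / 2`. With `G = F^[p]`, `norm_inverse_le` gives
`ell F^[p N] ≤ log (2 K) + birkhoffSum (sf G) (c p) N` on `RegI F`; take `N` large. -/
theorem small_ell [IsProbabilityMeasure μ] (hF : IsLift d F) (hd : 2 ≤ d)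
    (hf : MeasurePreserving (sf F) μ μ) (hB : ∀ᵐ x ∂μ, x ∈ Bad F) {ε : ℝ} (hε : 0 < ε) :
    ∃ m, 1 ≤ m ∧ Integrable (ell F^[m]) μ ∧ ∫ x, ell F^[m] x ∂μ ≤ ε * m := by
  have hd1 : 1 ≤ d := by omega
  set c : ℕ → Sph n → ℝ := fun k x => Real.log (max 1 (beta F^[k] x)) with hc
  have hS : ∀ᵐ x ∂μ, x ∈ RegI F := hB.mono fun x hx => hx.1
  have hm : ∀ k, Measurable (c k) := fun k =>
    (measurable_const.max (measurable_beta (hF.iterate k))).log
  have h0 : ∀ k x, 0 ≤ c k x := fun k x => Real.log_nonneg (le_max_left _ _)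
  have hpos : ∀ t : ℝ, 0 < max 1 t := fun t => lt_max_of_lt_left one_pos
  obtain ⟨p, hp, hpi, hpe⟩ := kw (c := c) (L := ε / 4) (ε := ε / 4) hf hS (regI_maps F) hm h0
    (fun a b x hx => by
      simp only [hc]
      rw [← Real.log_mul (hpos _).ne' (hpos _).ne']
      refine Real.log_le_log (hpos _) (max_le
        (one_le_mul_of_one_le_of_one_le (le_max_left _ _) (le_max_left _ _)) ?_)
      exact (beta_add_le hF hd1 hx a b).trans (mul_le_mul (le_max_right _ _) (le_max_right _ _)
        (norm_nonneg _) (hpos _).le))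
    ((integrable_ell hF hd1 hf hB).mono' (hm 1).aestronglyMeasurable
      (Eventually.of_forall fun x => by
        rw [Real.norm_of_nonneg (h0 1 x)]
        refine Real.log_le_log (hpos _) ?_
        have h1 : max 1 (beta F^[1] x) ≤ max 1 ‖(nd F x).inverse‖ :=
          max_le_max le_rfl (beta_le F x)
        linarith [hpos ‖(nd F x).inverse‖]))
    (by positivity)
    (by
      filter_upwards [hB] with x hx
      obtain ⟨k, hk, hk1⟩ := ((hx.2 (ε / 4) (by positivity)).and_eventually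
        (eventually_ge_atTop 1)).exists
      refine ⟨k, hk1, (Real.log_le_iff_le_exp (hpos _)).2 (max_le ?_ hk)⟩
      exact Real.one_le_exp (by positivity))
    (by positivity)
  obtain ⟨K, hK, hinv⟩ := norm_inverse_le (hF.iterate p)
    (hd.trans (Nat.le_self_pow (by omega) d))
  obtain ⟨N₀, hN₀⟩ := exists_nat_ge (Real.log (2 * K) / (ε / 2))
  set N : ℕ := N₀ + 1 with hN
  have hG : MeasurePreserving (sf F^[p]) μ μ := by
    rw [sf_iterate hF]
    exact hf.iterate p
  obtain ⟨i1, i2⟩ := integral_birkhoffSum hG hpi N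
  have hle : ∀ᵐ x ∂μ, ell F^[p * N] x ≤ Real.log (2 * K) + birkhoffSum (sf F^[p]) (c p) N x := by
    filter_upwards [hS] with x hx
    have h1 := hinv N x (regI_iterate hF hd1 hx p)
    have h2 : 1 ≤ ∏ l ∈ Finset.range N, max 1 (beta F^[p] ((sf F^[p])^[l] x)) :=
      Finset.one_le_prod fun l _ => le_max_left _ _
    simp only [birkhoffSum, hc]
    rw [← Real.log_prod fun l _ => (hpos _).ne', ← Real.log_mul (by linarith) (by linarith),
      Function.iterate_mul, mul_assoc]
    refine Real.log_le_log (mul_pos two_pos (hpos _)) (mul_le_mul_of_nonneg_left ?_ zero_le_two)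
    exact max_le (one_le_mul_of_one_le_of_one_le hK h2) h1
  have hi0 := (integrable_const (μ := μ) (Real.log (2 * K))).add i1
  have hi : Integrable (ell F^[p * N]) μ :=
    hi0.mono' (measurable_ell (hF.iterate _)).aestronglyMeasurable (hle.mono fun x hx => by
      rw [Real.norm_of_nonneg (ell_nonneg _ x)]
      exact hx)
  refine ⟨p * N, Nat.mul_pos hp (by omega), hi, (integral_mono_ae hi hi0 hle).trans ?_⟩
  simp only [Pi.add_apply]
  rw [integral_add (integrable_const _) i1, i2, integral_const, probReal_univ, one_smul]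
  have hp' : (1 : ℝ) ≤ p := by exact_mod_cast hp
  have hN' : (N : ℝ) = N₀ + 1 := by rw [hN]; push_cast; rfl
  have e1 : Real.log (2 * K) ≤ N * (ε / 2) := by
    rw [div_le_iff₀ (by positivity)] at hN₀
    nlinarith
  have e2 : (N : ℝ) * ∫ x, c p x ∂μ ≤ N * ((ε / 4 + ε / 4) * p) :=
    mul_le_mul_of_nonneg_left hpe (by positivity)
  have e3 : (N : ℝ) * (ε / 2) ≤ N * (ε / 2) * p := le_mul_of_one_le_right (by positivity) hp'
  push_cast
  nlinarith

end Pool.Agent.Lib.MP_a47f92_an
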