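import Pool.Agent.Lib.MP_a47f92_an.Wt3

set_option autoImplicit false
set_option linter.unusedSectionVars false

/-! Continuous weights with almost the same entropy. -/

namespace Pool.Agent.Lib.MP_a47f92_an

open MeasureTheory Filter Topology Set Complex Metric Function
open scoped ContDiff ComplexConjugate ComplexOrder Matrix ENNReal NNReal

variable {n : ℕ}

variable {X : Type} [MetricSpace X] [CompactSpace X] [MeasurableSpace X] [BorelSpace X]
  {f : X → X} {R : Set X} {L : ℕ} {μ μ' : Measure X}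

theorem Wt4_fsum (hl : LocH f R L) (g : X → ℝ) (y : X) :
    fsum f R g y = ∑ x ∈ (hl.finite y).toFinset, g x :=
  finsum_mem_eq_finite_toFinset_sum g (hl.finite y)

theorem Wt4_int [IsFiniteMeasure μ] {g : X → ℝ} (hg : Continuous g) : Integrable g μ :=
  hg.integrable_of_hasCompactSupport (HasCompactSupport.of_compactSpace g)

theorem Wt4_l1 [IsProbabilityMeasure μ] (h : IsPull f R μ μ') (hl : LocH f R L)
    (hf : MeasurePreserving f μ μ) {g : X → ℝ} (hg : Continuous g)
    (hs : Continuous (fsum f R g)) (hi : Integrable (fun x => |g x - wt μ μ' x|) μ') :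
    ∫ x, |fsum f R g (f x) - 1| ∂μ ≤ ∫ x, |g x - wt μ μ' x| ∂μ' := by
  have hc : Continuous fun y => |fsum f R g y - 1| := (hs.sub continuous_const).abs
  rw [← integral_map hf.measurable.aemeasurable hc.aestronglyMeasurable, hf.map_eq,
    ← ENNReal.ofReal_le_ofReal_iff (integral_nonneg fun x => abs_nonneg _),
    ofReal_integral_eq_lintegral_ofReal (Wt4_int hc) (.of_forall fun x => abs_nonneg _),
    ofReal_integral_eq_lintegral_ofReal hi (.of_forall fun x => abs_nonneg _),
    h.eq _ (hg.measurable.fun_sub (measurable_wt μ μ')).abs.ennreal_ofReal]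
  refine lintegral_mono_ae ((h.lop_wt hf).mono fun y hy => ?_)
  rw [hl.lop_ofReal (g := wt μ μ') fun x => ENNReal.toReal_nonneg, ENNReal.ofReal_eq_one] at hy
  rw [hl.lop_ofReal fun x => abs_nonneg _, ← hy, Wt4_fsum hl, Wt4_fsum hl, Wt4_fsum hl,
    ← Finset.sum_sub_distrib]
  exact ENNReal.ofReal_le_ofReal (Finset.abs_sum_le_sum_abs _ _)

theorem Wt4_pt {k c w g s : ℝ} (hk : 0 < k) (hk1 : k ≤ 1) (hc : 0 < c) (hw : 0 < w) (h0 : 0 ≤ g)
    (h1 : g ≤ 1) : -Real.log (k * (g / max 1 s) + c) ≤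
      -Real.log k + -Real.log w + c⁻¹ * (|g - w| + |s - 1|) := by
  have hm : 1 ≤ max 1 s := le_max_left _ _
  have a0 : 0 ≤ k * (g / max 1 s) := by positivity
  have a1 : g - g / max 1 s ≤ |s - 1| := by
    have b : max 1 s - 1 ≤ |s - 1| :=
      sub_le_iff_le_add.2 (max_le (by linarith [abs_nonneg (s - 1)])
        (by linarith [le_abs_self (s - 1)]))
    have b2 : g / max 1 s ≤ 1 := (div_le_one (by linarith)).2 (h1.trans hm)
    have b3 : g = g / max 1 s * max 1 s := (div_mul_cancel₀ _ (by linarith)).symm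
    nlinarith
  have a2 : k * w - (k * (g / max 1 s) + c) ≤ |g - w| + |s - 1| := by
    nlinarith [neg_le_abs (g - w), abs_nonneg (g - w), abs_nonneg (s - 1)]
  have a3 := Real.log_le_sub_one_of_pos (x := k * w / (k * (g / max 1 s) + c)) (by positivity)
  rw [Real.log_div (by positivity) (by positivity), Real.log_mul hk.ne' hw.ne',
    div_sub_one (by positivity)] at a3
  have a4 := div_le_div₀ (by positivity) a2 hc (le_add_of_nonneg_left a0)
  rw [div_eq_inv_mul _ c] at a4
  linarith

/-- Let `0 < κ < 1`, `g` from `exists_cont` with error `η`, `s = fsum f R g`,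
`g' x = g x / max 1 (s (f x))` and `w' = (1 - κ) g' + κ / (L + 1)`. Then
`|g' - w| ≤ |g - w| + |s ∘ f - 1|`, `∫ |g - w| dμ ≤ η` as `μ ≤ μ'`, and
`∫ |s - 1| dμ ≤ ∫ Lop |g - w| dμ ≤ η` by `lop_wt`. With `a = (1 - κ) w + κ / (L + 1)`,
`-log w' ≤ -log a + ((L + 1) / κ) |w' - a|` and `-log a ≤ -log (1 - κ) - log w`. -/
theorem IsPull.exists_cwt [IsProbabilityMeasure μ] (h : IsPull f R μ μ') (hl : LocH f R L)
    (hf : MeasurePreserving f μ μ) {ε : ℝ} (hε : 0 < ε) : ∃ w, CWt f R w ∧
      ∫ x, -Real.log (w x) ∂μ ≤ ∫ x, -Real.log (wt μ μ' x) ∂μ + ε := by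
  have := h.fin
  obtain ⟨k, hk, hk1, hke⟩ : ∃ k : ℝ, 0 < k ∧ k < 1 ∧ -Real.log k = ε / 2 :=
    ⟨Real.exp (-(ε / 2)), Real.exp_pos _, Real.exp_lt_one_iff.2 (by linarith),
      by rw [Real.log_exp, neg_neg]⟩
  obtain ⟨c, hc, hcL⟩ : ∃ c : ℝ, 0 < c ∧ c * (L + 1) = 1 - k :=
    ⟨(1 - k) / (L + 1), div_pos (by linarith) (by positivity), div_mul_cancel₀ _ (by positivity)⟩
  obtain ⟨g, gc, gs, g0, g1, gi⟩ := h.exists_cont hl.op (ε := c * (ε / 4)) (by positivity)
  have sc := hl.continuous_fsum gc gs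
  have hm : ∀ y, 0 < max 1 (fsum f R g y) := fun y => lt_max_of_lt_left one_pos
  have hL : (0 : ℝ) ≤ L := L.cast_nonneg
  have wc : Continuous fun x => k * (g x / max 1 (fsum f R g (f x))) + c :=
    (continuous_const.mul (gc.div (continuous_const.max (sc.comp hl.cont))
      fun x => (hm _).ne')).add continuous_const
  have wp : ∀ x, 0 < k * (g x / max 1 (fsum f R g (f x))) + c := fun x =>
    add_pos_of_nonneg_of_pos (mul_nonneg hk.le (div_nonneg (g0 x) (hm _).le)) hc
  refine ⟨_, ⟨wc, wp, fun x => ?_, fun y T hT => ?_⟩, ?_⟩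
  · have a : g x / max 1 (fsum f R g (f x)) ≤ 1 :=
      (div_le_one (hm _)).2 ((g1 x).trans (le_max_left _ _))
    nlinarith
  · have a : ∑ x ∈ T, g x / max 1 (fsum f R g (f x)) ≤ 1 := by
      rw [Finset.sum_congr rfl fun x hx => by rw [(hT x hx).2], ← Finset.sum_div,
        div_le_one (hm _)]
      refine le_max_of_le_right ?_
      rw [Wt4_fsum hl]
      exact Finset.sum_le_sum_of_subset_of_nonneg
        (fun x hx => (hl.finite y).mem_toFinset.2 (hT x hx)) fun x _ _ => g0 x
    have b : (T.card : ℝ) ≤ L := Nat.cast_le.2 (hl.fib y T hT)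
    rw [Finset.sum_add_distrib, ← Finset.mul_sum, Finset.sum_const, nsmul_eq_mul]
    nlinarith
  have i1 : Integrable (fun x => |g x - wt μ μ' x|) μ' := ((Wt4_int gc).sub
    ((integrable_const 1).mono' (measurable_wt μ μ').aestronglyMeasurable
      (h.wt_mem.1.mono fun x hx => (Real.norm_of_nonneg ENNReal.toReal_nonneg).trans_le hx))).abs
  have i2 := i1.mono_measure h.le
  have i3 : Integrable (fun x => |fsum f R g (f x) - 1|) μ :=
    Wt4_int ((sc.comp hl.cont).sub continuous_const).abs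
  have i4 : Integrable (fun x => -Real.log k + -Real.log (wt μ μ' x)) μ :=
    (integrable_const _).add h.integrable_log.neg
  have i5 : Integrable (fun x => c⁻¹ * (|g x - wt μ μ' x| + |fsum f R g (f x) - 1|)) μ :=
    (i2.add i3).const_mul _
  refine (integral_mono_ae (Wt4_int (wc.log fun x => (wp x).ne').neg) (i4.add i5)
    (h.wt_mem.2.mono fun x hx => Wt4_pt hk hk1.le hc hx.1 (g0 x) (g1 x))).trans ?_
  have b1 := integral_mono_measure h.le (.of_forall fun x => abs_nonneg _) i1
  have b2 := Wt4_l1 h hl hf gc sc i1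
  have b3 := (inv_mul_le_iff₀ hc).2 (((add_le_add b1 b2).trans (add_le_add gi gi)).trans_eq
    (mul_add _ _ _).symm)
  rw [integral_add' i4 i5, integral_add (integrable_const _) h.integrable_log.fun_neg,
    integral_const_mul, integral_add i2 i3, integral_const, probReal_univ, one_smul]
  linarith

end Pool.Agent.Lib.MP_a47f92_an
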