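import Pool.Agent.Lib.MP_a47f92_an.ClaimA
import Pool.Agent.Lib.MP_a47f92_an.ClaimB
import Pool.Agent.Lib.MP_a47f92_an.Wt4

set_option autoImplicit false
set_option linter.unusedSectionVars false

/-! The abstract contradiction. -/

namespace Pool.Agent.Lib.MP_a47f92_an

open MeasureTheory Filter Topology Set Complex Metric Function
open scoped ContDiff ComplexConjugate ComplexOrder Matrix ENNReal NNReal

variable {n : ℕ}

theorem core {X : Type} [MetricSpace X] [CompactSpace X] [MeasurableSpace X] [BorelSpace X]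
    {f : X → X} {R : Set X} {L : ℕ} {μ : Measure X} {lam : ℝ} [IsProbabilityMeasure μ]
    (hl : LocH f R L) (hf : MeasurePreserving f μ μ) (hR : ∀ᵐ x ∂μ, x ∈ R) (hlam : 0 < lam)
    (hc : Cnt f μ lam) (hg : Geo f R μ lam) : False := by
  obtain ⟨μ', h⟩ := hl.exists_pull hf hR
  have hA := claimA h hf hlam hc
  obtain ⟨w, hw, hle⟩ := h.exists_cwt hl hf (half_pos (sub_pos.2 hA))
  have hB := claimB hw hl.cont hf hlam hg
  linarith

end Pool.Agent.Lib.MP_a47f92_an
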