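import Pool.Agent.Lib.MP_a47f92_an.MDiscA

set_option autoImplicit false
set_option linter.unusedSectionVars false

/-! Algebra of the mixed discriminant, first part. -/

namespace Pool.Agent.Lib.MP_a47f92_an

open MeasureTheory Filter Topology Set Complex Metric Function
open scoped ContDiff ComplexConjugate ComplexOrder Matrix ENNReal NNReal

variable {n : ℕ}

variable {A : Fin n → Mat n} {l : Fin n}

theorem MDisc_cmat (T : E n →L[ℂ] E n) : cmat T =
    LinearMap.toMatrix (EuclideanSpace.basisFun (Fin n) ℂ).toBasis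
      (EuclideanSpace.basisFun (Fin n) ℂ).toBasis (T : E n →ₗ[ℂ] E n) := by
  ext i j
  simp [LinearMap.toMatrix_apply, cmat, ev]

theorem MDisc_qf (H : Mat n) (v : E n) :
    qf H v = (fun i => v i) ⬝ᵥ H *ᵥ fun i => conj (v i) := by
  simp only [qf, dotProduct, Matrix.mulVec, Finset.mul_sum]
  exact Finset.sum_congr rfl fun i _ => Finset.sum_congr rfl fun j _ => by ring

theorem cong_cong (P Q H : Mat n) : cong P (cong Q H) = cong (Q * P) H := by
  simp only [cong, Matrix.transpose_mul, Matrix.map_mul, Matrix.mul_assoc]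

theorem cong_one (H : Mat n) : cong 1 H = H := by
  rw [cong, Matrix.transpose_one, Matrix.map_one _ (map_zero _) (map_one _), Matrix.one_mul,
    Matrix.mul_one]

theorem cong_smul (P : Mat n) (c : ℂ) (H : Mat n) : cong P (c • H) = c • cong P H := by
  simp only [cong, Matrix.mul_smul, Matrix.smul_mul]

theorem cmat_det (T : E n →L[ℂ] E n) : (cmat T).det = T.det := by
  rw [MDisc_cmat, LinearMap.det_toMatrix]

theorem cmat_comp (S T : E n →L[ℂ] E n) : cmat (S.comp T) = cmat S * cmat T := by
  rw [MDisc_cmat, MDisc_cmat, MDisc_cmat, ← LinearMap.toMatrix_comp]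
  rfl

theorem cmat_id : cmat (ContinuousLinearMap.id ℂ (E n)) = 1 := by
  rw [MDisc_cmat]
  exact LinearMap.toMatrix_id _

theorem qf_cong (T : E n →L[ℂ] E n) (H : Mat n) (v : E n) :
    qf (cong (cmat T) H) v = qf H (T v) := by
  have h1 : (fun i => T v i) = cmat T *ᵥ fun i => v i := by
    have h2 := LinearMap.toMatrix_mulVec_repr (EuclideanSpace.basisFun (Fin n) ℂ).toBasis
      (EuclideanSpace.basisFun (Fin n) ℂ).toBasis (T : E n →ₗ[ℂ] E n) v
    rw [← MDisc_cmat] at h2
    exact h2.symm
  have h2 : (fun i => conj (T v i)) = (cmat T).map conj *ᵥ fun i => conj (v i) := by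
    funext i
    rw [congrFun h1 i]
    exact RingHom.map_mulVec (starRingEnd ℂ) _ _ i
  rw [MDisc_qf, MDisc_qf, h1, h2, cong, ← Matrix.mulVec_mulVec, ← Matrix.mulVec_mulVec,
    Matrix.dotProduct_mulVec, Matrix.vecMul_transpose]

section Fam

variable {s : ℕ} {α β : Type}

theorem fam_zero (a b c : α) : fam (s := s) a b c 0 = a := rfl

theorem fam_one (a b c : α) : fam (s := s) a b c 1 = b := rfl

theorem fam_map (g : α → β) (a b c : α) :
    (fun l => g (fam (s := s) a b c l)) = fam (g a) (g b) (g c) := by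
  funext l
  refine Fin.cases rfl (fun l => ?_) l
  exact Fin.cases rfl (fun _ => rfl) l

theorem fam_update_zero (a a' b c : α) : update (fam (s := s) a b c) 0 a' = fam a' b c := by
  exact Fin.update_cons_zero (α := fun _ => α) _ _ _

theorem fam_update_one (a b b' c : α) : update (fam (s := s) a b c) 1 b' = fam a b' c := by
  unfold fam
  rw [← Fin.update_cons_zero (α := fun _ => α) b (fun _ => c) b', Fin.cons_update]
  rfl

theorem fam_forall {p : α → Prop} {a b c : α} (ha : p a) (hb : p b) (hc : p c) (l : Fin (s + 2)) :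
    p (fam a b c l) := by
  refine Fin.cases ha (fun l => ?_) l
  exact Fin.cases hb (fun _ => hc) l

theorem fam_forall_ne_zero {p : α → Prop} (a : α) {b c : α} (hb : p b) (hc : p c)
    (l : Fin (s + 2)) (hl : l ≠ 0) : p (fam a b c l) := by
  obtain ⟨l, rfl⟩ := Fin.exists_succ_eq.2 hl
  exact Fin.cases hb (fun _ => hc) l

theorem fam_forall_ne_one {p : α → Prop} {a c : α} (b : α) (ha : p a) (hc : p c)
    (l : Fin (s + 2)) (hl : l ≠ 1) : p (fam a b c l) := by
  revert hl
  refine Fin.cases (fun _ => ha) (fun l => ?_) l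
  exact Fin.cases (fun h => absurd rfl h) (fun _ _ => hc) l

theorem mdC_fam_smul (x y w : ℂ) (A B C : Mat (s + 2)) :
    mdC (fam (x • A) (y • B) (w • C)) = x * y * w ^ s * mdC (fam A B C) := by
  have h1 : fam (s := s) (x • A) (y • B) (w • C) = fun l => fam x y w l • fam A B C l := by
    funext l
    refine Fin.cases rfl (fun l => ?_) l
    exact Fin.cases rfl (fun _ => rfl) l
  rw [h1, mdC_smul, fam, Fin.prod_cons, Fin.prod_cons, Fin.prod_const, mul_assoc x y]

theorem mdC_fam_cong (P A B C : Mat (s + 2)) :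
    mdC (fam (cong P A) (cong P B) (cong P C)) = ((‖P.det‖ ^ 2 : ℝ) : ℂ) * mdC (fam A B C) := by
  rw [← fam_map (cong P), mdC_cong]

end Fam

end Pool.Agent.Lib.MP_a47f92_an
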