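import Mathlib

set_option autoImplicit false

/-! Definitions used in the statement. Everything on the projective space of `E n = ℂ ^ n` is
lifted to `E n` minus the origin. -/

namespace Pool.Agent.Lib.MP_a47f92_an

open MeasureTheory Filter Topology Set Complex
open scoped ContDiff ComplexConjugate

/-- The space `ℂ ^ n` with its Hermitian norm. -/
abbrev E (n : ℕ) := EuclideanSpace ℂ (Fin n)

/-- Complex `n × n` matrices. -/
abbrev Mat (n : ℕ) := Matrix (Fin n) (Fin n) ℂ

variable {n : ℕ}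

/-- `F` is a homogeneous lift of a holomorphic endomorphism of degree `d`. -/
structure IsLift (d : ℕ) (F : E n → E n) : Prop where
  an : AnalyticOnNhd ℂ F univ
  hom : ∀ (c : ℂ) (z : E n), F (c • z) = c ^ d • F z
  nz : ∀ z, F z = 0 → z = 0

/-- The coordinate vectors. -/
noncomputable def ev (i : Fin n) : E n := EuclideanSpace.single i 1

/-- Holomorphic Wirtinger derivative in the direction `v`. -/
noncomputable def wd (v : E n) (f : E n → ℂ) (z : E n) : ℂ :=
  (fderiv ℝ f z v - I * fderiv ℝ f z (I • v)) / 2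

/-- Antiholomorphic Wirtinger derivative in the direction `v`. -/
noncomputable def wb (v : E n) (f : E n → ℂ) (z : E n) : ℂ :=
  (fderiv ℝ f z v + I * fderiv ℝ f z (I • v)) / 2

/-- The complex Hessian matrix of a real function. -/
noncomputable def hess (ψ : E n → ℝ) (z : E n) : Mat n :=
  Matrix.of fun i j => wd (ev i) (wb (ev j) fun w => (ψ w : ℂ)) z

/-- The Levi form. -/
noncomputable def levi (ψ : E n → ℝ) (z v : E n) : ℝ :=
  (∑ i, ∑ j, v i * conj (v j) * hess ψ z i j).re

/-- The mixed discriminant: the density of the wedge product of `n` forms of bidegree `(1,1)`. -/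
noncomputable def mdC (A : Fin n → Mat n) : ℂ :=
  ∑ σ : Equiv.Perm (Fin n), ∑ π : Equiv.Perm (Fin n),
    ((Equiv.Perm.sign σ : ℤ) : ℂ) * ((Equiv.Perm.sign π : ℤ) : ℂ) * ∏ l, A l (σ l) (π l)

/-- Test functions on `E n` minus the origin. -/
def IsTest (ψ : E n → ℝ) : Prop := ContDiff ℝ ∞ ψ ∧ HasCompactSupport ψ ∧ 0 ∉ tsupport ψ

/-- The distribution `∂_v ∂bar_v u` evaluated at `ψ`. -/
noncomputable def pair (u ψ : E n → ℝ) (v : E n) : ℝ := ∫ z, u z * levi ψ z v

/-- `u` is the potential of a positive closed `(1,1)`-current of mass one on projective space. -/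
structure IsPot (u : E n → ℝ) : Prop where
  int : LocallyIntegrable u
  hom : ∀ c : ℂ, c ≠ 0 → ∀ᵐ z, u (c • z) = u z + Real.log ‖c‖
  psh : ∀ ψ, IsTest ψ → (∀ z, 0 ≤ ψ z) → ∀ v, 0 ≤ pair u ψ v

/-- Invariance under nonzero complex scalars. -/
def IsCone (D : Set (E n)) : Prop := ∀ c : ℂ, c ≠ 0 → ∀ z ∈ D, c • z ∈ D

/-- The current with potential `u` is supported in `D`. -/
def SuppIn (u : E n → ℝ) (D : Set (E n)) : Prop :=
  ∃ K, IsClosed K ∧ IsCone K ∧ K \ {0} ⊆ D ∧
    ∀ ψ, IsTest ψ → Disjoint (tsupport ψ) K → ∀ v, pair u ψ v = 0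

/-- `D` is the cone over a trapping region. -/
structure Trap (F : E n → E n) (D : Set (E n)) : Prop where
  op : IsOpen D
  cone : IsCone D
  trap : closure (F '' D) \ {0} ⊆ D

/-- The sum of `u` over the fibres of `G`. -/
noncomputable def tr (G : E n → E n) (u : E n → ℝ) (q : E n) : ℝ := ∑ᶠ w ∈ G ⁻¹' {q}, u w

/-- The potential of `d ^ (-m s) (f ^ m)_* R` for `s = n - 2`, if `u` is the potential of `R`. -/
noncomputable def push (d : ℕ) (F : E n → E n) (m : ℕ) (u : E n → ℝ) (q : E n) : ℝ :=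
  ((d : ℝ) ^ ((n - 1) * m))⁻¹ * tr F^[m] u q

/-- The Cesàro means of the normalised push-forwards of every current with smooth potential
supported in `D` converge to the current with potential `u`. -/
def Attracting (d : ℕ) (F : E n → E n) (D : Set (E n)) (u : E n → ℝ) : Prop :=
  ∀ R, IsPot R → ContDiffOn ℝ ∞ R {0}ᶜ → SuppIn R D → ∀ ψ, IsTest ψ → ∀ v,
    Tendsto (fun N : ℕ => (N : ℝ)⁻¹ * ∑ m ∈ Finset.range N, pair (push d F m R) ψ v) atTop
      (𝓝 (pair u ψ v))

/-- The potential of `d ^ (-m) (f ^ m)^* ω`. -/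
noncomputable def green (d : ℕ) (F : E n → E n) (m : ℕ) (z : E n) : ℝ :=
  ((d : ℝ) ^ m)⁻¹ * Real.log ‖F^[m] z‖

/-- The family `a, b, c, …, c`. -/
def fam {α : Type} {s : ℕ} (a b c : α) : Fin (s + 2) → α := Fin.cons a (Fin.cons b fun _ => c)

/-- `ν` is, up to a positive constant, the trace measure of the pull-back to `E (s + 2)` of
`τ ∧ T ^ s = lim τ ∧ (d ^ (-m) (f ^ m)^* ω) ^ s`, where `τ` has potential `u`. -/
structure IsEqMeasure {s : ℕ} (d : ℕ) (F : E (s + 2) → E (s + 2)) (u : E (s + 2) → ℝ)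
    (ν : Measure (E (s + 2))) : Prop where
  fin : IsFiniteMeasureOnCompacts ν
  lim : ∀ ψ, IsTest ψ →
    Tendsto (fun m => ∫ z, u z * (mdC (fam (hess ψ z) 1 (hess (green d F m) z))).re) atTop
      (𝓝 (∫ z, ψ z ∂ν))

/-- The Fubini-Study norm of the tangent vector at the point `[z]` represented by `v`. -/
noncomputable def fsNorm (z v : E n) : ℝ :=
  Metric.infDist v (Submodule.span ℂ {z} : Set (E n)) / ‖z‖

/-- The smallest singular value of the differential of `f ^ m` at `[z]` decays exponentially. -/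
def NegExp (F : E n → E n) (z : E n) : Prop :=
  ∃ θ : ℝ, 0 < θ ∧ θ < 1 ∧ ∀ᶠ m in atTop, ∃ v, 0 < fsNorm z v ∧
    fsNorm (F^[m] z) (fderiv ℂ F^[m] z v) ≤ θ ^ m * fsNorm z v

end Pool.Agent.Lib.MP_a47f92_an
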