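import Pool.Agent.Lib.MP_a47f92_an.MDisc
import Pool.Agent.Lib.MP_a47f92_an.Hess

set_option autoImplicit false
set_option linter.unusedSectionVars false

/-! The cofactors of a family of Hessians are divergence free. -/

namespace Pool.Agent.Lib.MP_a47f92_an

open MeasureTheory Filter Topology Set Complex Metric Function
open scoped ContDiff ComplexConjugate ComplexOrder Matrix ENNReal NNReal

variable {n : ℕ}

variable {p : Fin n → E n → ℝ} {l : Fin n} {z : E n}

theorem Div_prod {m m' : WithTop ℕ∞} (hp : ∀ l', l' ≠ l → ContDiffAt ℝ m' (p l') z)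
    (hm : m + 2 ≤ m') (σ π : Equiv.Perm (Fin n)) :
    ContDiffAt ℝ m (fun w => ∏ l' ∈ Finset.univ.erase l, hess (p l') w (σ l') (π l')) z :=
  contDiffAt_prod fun l' hl' => contDiffAt_hess (hp l' (Finset.ne_of_mem_erase hl')) hm _ _

theorem Div_cof (p : Fin n → E n → ℝ) (l i j : Fin n) :
    (fun w => cof (fun l' => hess (p l') w) l i j) = fun w =>
      ∑ σ : Equiv.Perm (Fin n), ∑ π : Equiv.Perm (Fin n),
        (if σ l = i ∧ π l = j then
          ((Equiv.Perm.sign σ : ℤ) : ℂ) * ((Equiv.Perm.sign π : ℤ) : ℂ) else 0) *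
        ∏ l' ∈ Finset.univ.erase l, hess (p l') w (σ l') (π l') := by
  funext w
  rw [cof_eq]
  refine Finset.sum_congr rfl fun σ _ => Finset.sum_congr rfl fun π _ => ?_
  split_ifs <;> simp

theorem Div_alt {l' : Fin n} (hne : l' ≠ l) (G B : Fin n → Fin n → ℂ) (hG : ∀ a b, G a b = G b a) :
    ∑ σ : Equiv.Perm (Fin n), ((Equiv.Perm.sign σ : ℤ) : ℂ) *
      (G (σ l) (σ l') * ∏ k ∈ (Finset.univ.erase l).erase l', B k (σ k)) = 0 := by
  set F : Equiv.Perm (Fin n) → ℂ := fun σ => ((Equiv.Perm.sign σ : ℤ) : ℂ) *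
      (G (σ l) (σ l') * ∏ k ∈ (Finset.univ.erase l).erase l', B k (σ k)) with hF
  have h1 : ∀ σ, F (σ * Equiv.swap l l') = -F σ := by
    intro σ
    have h2 : ∏ k ∈ (Finset.univ.erase l).erase l', B k ((σ * Equiv.swap l l') k) =
        ∏ k ∈ (Finset.univ.erase l).erase l', B k (σ k) := by
      refine Finset.prod_congr rfl fun k hk => ?_
      rw [Equiv.Perm.mul_apply, Equiv.swap_apply_of_ne_of_ne
        (Finset.ne_of_mem_erase (Finset.mem_of_mem_erase hk)) (Finset.ne_of_mem_erase hk)]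
    simp only [hF]
    rw [h2, Equiv.Perm.mul_apply, Equiv.Perm.mul_apply, Equiv.swap_apply_left,
      Equiv.swap_apply_right, Equiv.Perm.sign_mul, Equiv.Perm.sign_swap hne.symm, hG]
    simp
  have h3 := Equiv.sum_comp (Equiv.mulRight (Equiv.swap l l')) F
  simp only [Equiv.coe_mulRight, h1, Finset.sum_neg_distrib] at h3
  linear_combination (-1 / 2 : ℂ) * h3

theorem Div_ofReal {m : WithTop ℕ∞} {a : E n → ℝ} (ha : ContDiffAt ℝ m a z) :
    ContDiffAt ℝ m (fun w => (a w : ℂ)) z :=
  ofRealCLM.contDiff.contDiffAt.comp z ha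

theorem contDiffAt_cof {m m' : WithTop ℕ∞} (hp : ∀ l', l' ≠ l → ContDiffAt ℝ m' (p l') z)
    (hm : m + 2 ≤ m') (i j : Fin n) :
    ContDiffAt ℝ m (fun w => cof (fun l' => hess (p l') w) l i j) z := by
  rw [Div_cof]
  exact ContDiffAt.sum fun σ _ => ContDiffAt.sum fun π _ =>
    contDiffAt_const.mul (Div_prod hp hm σ π)

/-- By `cof_eq` and `wd_prod` the sum is a sum over `(σ, π, l')` with `π l = j`, `l' ≠ l` of
`sign σ sign π ∂_{σ l} ∂_{σ l'} ∂bar_{π l'} p l' * ∏ (others)`. For fixed `π, l'` the involution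
`σ ↦ σ * swap l l'` changes the sign and fixes the rest (`wd_wd_comm`), so the sum over `σ`
vanishes (`Finset.sum_involution`, or `S = -S` after reindexing). -/
theorem cof_div_wd (hp : ∀ l', l' ≠ l → ContDiffAt ℝ 3 (p l') z) (j : Fin n) :
    ∑ i, wd (ev i) (fun w => cof (fun l' => hess (p l') w) l i j) z = 0 := by
  have hd : ∀ σ π : Equiv.Perm (Fin n), DifferentiableAt ℝ
      (fun w => ∏ l' ∈ Finset.univ.erase l, hess (p l') w (σ l') (π l')) z := fun σ π =>
    (Div_prod (m := 1) hp (by norm_num) σ π).differentiableAt one_ne_zero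
  have h1 : ∀ i, wd (ev i) (fun w => cof (fun l' => hess (p l') w) l i j) z =
      ∑ σ : Equiv.Perm (Fin n), ∑ π : Equiv.Perm (Fin n),
        (if σ l = i ∧ π l = j then
          ((Equiv.Perm.sign σ : ℤ) : ℂ) * ((Equiv.Perm.sign π : ℤ) : ℂ) else 0) *
        wd (ev i) (fun w => ∏ l' ∈ Finset.univ.erase l, hess (p l') w (σ l') (π l')) z := by
    intro i
    rw [Div_cof, wd_sum _ (fun σ _ => DifferentiableAt.fun_sum fun π _ => (hd σ π).const_mul _)]
    refine Finset.sum_congr rfl fun σ _ => ?_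
    rw [wd_sum _ (fun π _ => (hd σ π).const_mul _)]
    exact Finset.sum_congr rfl fun π _ => wd_const_mul _ _ _ _
  simp only [h1]
  rw [Finset.sum_comm]
  have h2 : ∀ σ : Equiv.Perm (Fin n), ∑ i, ∑ π : Equiv.Perm (Fin n),
      (if σ l = i ∧ π l = j then
          ((Equiv.Perm.sign σ : ℤ) : ℂ) * ((Equiv.Perm.sign π : ℤ) : ℂ) else 0) *
        wd (ev i) (fun w => ∏ l' ∈ Finset.univ.erase l, hess (p l') w (σ l') (π l')) z =
      ∑ π : Equiv.Perm (Fin n), ∑ l' ∈ Finset.univ.erase l,
        (if π l = j then ((Equiv.Perm.sign π : ℤ) : ℂ) else 0) * (((Equiv.Perm.sign σ : ℤ) : ℂ) *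
          (wd (ev (σ l)) (wd (ev (σ l')) (wb (ev (π l')) fun w => (p l' w : ℂ))) z *
            ∏ k ∈ (Finset.univ.erase l).erase l', hess (p k) z (σ k) (π k))) := by
    intro σ
    rw [Finset.sum_eq_single (σ l) (fun i _ hi => Finset.sum_eq_zero fun π _ => by
      rw [if_neg (fun h => hi h.1.symm), zero_mul]) (fun h => absurd (Finset.mem_univ _) h)]
    refine Finset.sum_congr rfl fun π _ => ?_
    rw [wd_prod _ (fun l' hl' => (contDiffAt_hess (m := 1) (hp l' (Finset.ne_of_mem_erase hl'))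
      (by norm_num) _ _).differentiableAt one_ne_zero), Finset.mul_sum]
    refine Finset.sum_congr rfl fun l' _ => ?_
    by_cases h : π l = j
    · rw [if_pos ⟨rfl, h⟩, if_pos h]
      simp only [hess_apply]
      ring
    · rw [if_neg (fun h' => h h'.2), if_neg h, zero_mul, zero_mul]
  simp only [h2]
  rw [Finset.sum_comm]
  refine Finset.sum_eq_zero fun π _ => ?_
  rw [Finset.sum_comm]
  refine Finset.sum_eq_zero fun l' hl' => ?_
  have hne := Finset.ne_of_mem_erase hl'
  rw [← Finset.mul_sum, Div_alt hne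
    (fun a b => wd (ev a) (wd (ev b) (wb (ev (π l')) fun w => (p l' w : ℂ))) z)
    (fun k c => hess (p k) z c (π k))
    (fun a b => wd_wd_comm (contDiffAt_wb (Div_ofReal (hp l' hne)) (by norm_num) _) _ _), mul_zero]

/-- Same proof with the roles of `σ` and `π` exchanged, or by conjugation. -/
theorem cof_div_wb (hp : ∀ l', l' ≠ l → ContDiffAt ℝ 3 (p l') z) (i : Fin n) :
    ∑ j, wb (ev j) (fun w => cof (fun l' => hess (p l') w) l i j) z = 0 := by
  have hd : ∀ σ π : Equiv.Perm (Fin n), DifferentiableAt ℝ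
      (fun w => ∏ l' ∈ Finset.univ.erase l, hess (p l') w (σ l') (π l')) z := fun σ π =>
    (Div_prod (m := 1) hp (by norm_num) σ π).differentiableAt one_ne_zero
  have h1 : ∀ j, wb (ev j) (fun w => cof (fun l' => hess (p l') w) l i j) z =
      ∑ π : Equiv.Perm (Fin n), ∑ σ : Equiv.Perm (Fin n),
        (if σ l = i ∧ π l = j then
          ((Equiv.Perm.sign σ : ℤ) : ℂ) * ((Equiv.Perm.sign π : ℤ) : ℂ) else 0) *
        wb (ev j) (fun w => ∏ l' ∈ Finset.univ.erase l, hess (p l') w (σ l') (π l')) z := by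
    intro j
    rw [Div_cof, wb_sum _ (fun σ _ => DifferentiableAt.fun_sum fun π _ => (hd σ π).const_mul _),
      Finset.sum_comm]
    refine Finset.sum_congr rfl fun σ _ => ?_
    rw [wb_sum _ (fun π _ => (hd σ π).const_mul _)]
    exact Finset.sum_congr rfl fun π _ => wb_const_mul _ _ _ _
  simp only [h1]
  rw [Finset.sum_comm]
  have h2 : ∀ π : Equiv.Perm (Fin n), ∑ j, ∑ σ : Equiv.Perm (Fin n),
      (if σ l = i ∧ π l = j then
          ((Equiv.Perm.sign σ : ℤ) : ℂ) * ((Equiv.Perm.sign π : ℤ) : ℂ) else 0) *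
        wb (ev j) (fun w => ∏ l' ∈ Finset.univ.erase l, hess (p l') w (σ l') (π l')) z =
      ∑ σ : Equiv.Perm (Fin n), ∑ l' ∈ Finset.univ.erase l,
        (if σ l = i then ((Equiv.Perm.sign σ : ℤ) : ℂ) else 0) * (((Equiv.Perm.sign π : ℤ) : ℂ) *
          (wb (ev (π l)) (wd (ev (σ l')) (wb (ev (π l')) fun w => (p l' w : ℂ))) z *
            ∏ k ∈ (Finset.univ.erase l).erase l', hess (p k) z (σ k) (π k))) := by
    intro π
    rw [Finset.sum_eq_single (π l) (fun j _ hj => Finset.sum_eq_zero fun σ _ => by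
      rw [if_neg (fun h => hj h.2.symm), zero_mul]) (fun h => absurd (Finset.mem_univ _) h)]
    refine Finset.sum_congr rfl fun σ _ => ?_
    rw [wb_prod _ (fun l' hl' => (contDiffAt_hess (m := 1) (hp l' (Finset.ne_of_mem_erase hl'))
      (by norm_num) _ _).differentiableAt one_ne_zero), Finset.mul_sum]
    refine Finset.sum_congr rfl fun l' _ => ?_
    by_cases h : σ l = i
    · rw [if_pos ⟨h, rfl⟩, if_pos h]
      simp only [hess_apply]
      ring
    · rw [if_neg (fun h' => h h'.1), if_neg h, zero_mul, zero_mul]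
  simp only [h2]
  rw [Finset.sum_comm]
  refine Finset.sum_eq_zero fun σ _ => ?_
  rw [Finset.sum_comm]
  refine Finset.sum_eq_zero fun l' hl' => ?_
  have hne := Finset.ne_of_mem_erase hl'
  have h3 := Div_ofReal (hp l' hne)
  have h4 : ∀ a b : E n, wb a (wd (ev (σ l')) (wb b fun w => (p l' w : ℂ))) z =
      wb a (wb b (wd (ev (σ l')) fun w => (p l' w : ℂ))) z := by
    intro a b
    refine (wb_congr ?_ a).self_of_nhds
    filter_upwards [(h3.of_le (m := 2) (by norm_num)).eventually (by simp)] with w hw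
    exact wd_wb_comm hw _ _
  rw [← Finset.mul_sum, Div_alt hne
    (fun a b => wb (ev a) (wd (ev (σ l')) (wb (ev b) fun w => (p l' w : ℂ))) z)
    (fun k c => hess (p k) z (σ k) c)
    (fun a b => by
      rw [h4, h4]
      exact wb_wb_comm (contDiffAt_wd h3 (by norm_num) _) _ _), mul_zero]

/-- Divergence form: near `z`, `∑ j, wb (ev j) (cof i j * a) = ∑ j, cof i j * wb (ev j) a`. -/
theorem mdC_eq_div (hp : ∀ l', l' ≠ l → ContDiffAt ℝ 4 (p l') z) {a : E n → ℝ}
    (ha : ContDiffAt ℝ 2 a z) :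
    mdC (update (fun l' => hess (p l') z) l (hess a z)) =
      ∑ i, ∑ j, wd (ev i) (wb (ev j) fun w => cof (fun l' => hess (p l') w) l i j * (a w : ℂ)) z := by
  have ha' := Div_ofReal ha
  have hc : ∀ i j, ContDiffAt ℝ 2 (fun w => cof (fun l' => hess (p l') w) l i j) z := fun i j =>
    contDiffAt_cof hp (by norm_num) i j
  have hp3 : ∀ᶠ w in 𝓝 z, ∀ l', l' ≠ l → ContDiffAt ℝ 3 (p l') w := by
    refine eventually_all.2 fun l' => ?_
    by_cases h : l' = l
    · exact Eventually.of_forall fun w h' => absurd h h'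
    · filter_upwards [((hp l' h).of_le (m := 3) (by norm_num)).eventually (by simp)] with w hw _
      exact hw
  have hb : ∀ j, DifferentiableAt ℝ (wb (ev j) fun w => (a w : ℂ)) z := fun j =>
    (contDiffAt_wb (m := 1) ha' (by norm_num) _).differentiableAt one_ne_zero
  have h1 : ∀ i, ∑ j, wd (ev i)
      (wb (ev j) fun w => cof (fun l' => hess (p l') w) l i j * (a w : ℂ)) z =
      ∑ j, (wd (ev i) (fun w => cof (fun l' => hess (p l') w) l i j) z *
        wb (ev j) (fun w => (a w : ℂ)) z + hess a z i j * cof (fun l' => hess (p l') z) l i j) := by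
    intro i
    rw [← wd_sum _ (fun j _ => (contDiffAt_wb (m := 1) ((hc i j).mul ha') (by norm_num)
      _).differentiableAt one_ne_zero)]
    have h2 : (fun w => ∑ j, wb (ev j)
        (fun w => cof (fun l' => hess (p l') w) l i j * (a w : ℂ)) w) =ᶠ[𝓝 z]
        fun w => ∑ j, cof (fun l' => hess (p l') w) l i j * wb (ev j) (fun w => (a w : ℂ)) w := by
      filter_upwards [hp3, ha'.eventually (by simp)] with w hw hw'
      have h3 : ∀ j, wb (ev j) (fun w => cof (fun l' => hess (p l') w) l i j * (a w : ℂ)) w =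
          wb (ev j) (fun w => cof (fun l' => hess (p l') w) l i j) w * (a w : ℂ) +
            cof (fun l' => hess (p l') w) l i j * wb (ev j) (fun w => (a w : ℂ)) w := fun j =>
        wb_mul ((contDiffAt_cof (m := 1) hw (by norm_num) i j).differentiableAt one_ne_zero)
          (hw'.differentiableAt two_ne_zero)
      simp only [h3]
      rw [Finset.sum_add_distrib, ← Finset.sum_mul, cof_div_wb hw i, zero_mul, zero_add]
    rw [(wd_congr h2 (ev i)).self_of_nhds,
      wd_sum _ (fun j _ => ((hc i j).differentiableAt two_ne_zero).fun_mul (hb j))]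
    refine Finset.sum_congr rfl fun j _ => ?_
    rw [wd_mul ((hc i j).differentiableAt two_ne_zero) (hb j), hess_apply, mul_comm (cof _ _ _ _)]
  simp only [h1, Finset.sum_add_distrib]
  rw [mdC_update_eq, Finset.sum_comm (f := fun i j => wd (ev i) _ z * _)]
  have h4 : ∀ j, ∑ i, wd (ev i) (fun w => cof (fun l' => hess (p l') w) l i j) z *
      wb (ev j) (fun w => (a w : ℂ)) z = 0 := fun j => by
    rw [← Finset.sum_mul, cof_div_wd hp3.self_of_nhds j, zero_mul]
  simp only [h4, Finset.sum_const_zero, zero_add]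

end Pool.Agent.Lib.MP_a47f92_an
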