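import Pool.Agent.Lib.MP_a47f92_an.EqmA

set_option autoImplicit false
set_option linter.unusedSectionVars false

/-! Properties of the equilibrium measure. -/

namespace Pool.Agent.Lib.MP_a47f92_an

open MeasureTheory Filter Topology Set Complex Metric Function
open scoped ContDiff ComplexConjugate ComplexOrder Matrix ENNReal NNReal

variable {n : ℕ}

variable {s d : ℕ} {F : E (s + 2) → E (s + 2)} {u ψ b g : E (s + 2) → ℝ}
  {ν : Measure (E (s + 2))}

/-- Horizontality (`mdC_horiz` in the slot `1` with `e = z`, `euler_hess`). -/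
theorem md_fam_horiz {p : E (s + 2) → ℝ} (hp : SPot p) (hg : SPot g) (hF : IsLift d F)
    {z : E (s + 2)} (hz : z ≠ 0) :
    md (fam (hess p z) (hess (fun w => ‖F w‖ ^ 2) z) (hess g z)) =
      (d : ℝ) ^ 2 * ‖F z‖ ^ 2 / ‖z‖ ^ 2 * md (fam (hess p z) 1 (hess g z)) := by
  have h := mdC_horiz (A := fam (hess p z) 0 (hess g z)) (l := 1) hz
    (fam_forall_ne_one (p := fun M : Mat (s + 2) =>
      (∀ j, ∑ i, z i * M i j = 0) ∧ ∀ i, ∑ j, conj (z j) * M i j = 0) 0
      (euler_hess hp.smooth hp.hom hz) (euler_hess hg.smooth hg.hom hz))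
    (hess (fun w => ‖F w‖ ^ 2) z)
  rw [fam_update_one, fam_update_one, qf_hess_normSq_comp hF] at h
  have h1 := congrArg Complex.re h
  rw [Complex.re_ofReal_mul, Complex.re_ofReal_mul] at h1
  have h2 : ‖z‖ ^ 2 ≠ 0 := pow_ne_zero _ (norm_ne_zero_iff.2 hz)
  rw [div_mul_eq_mul_div, eq_div_iff h2, mul_comm]
  exact h1

theorem Eqm_sq (hF : IsLift d F) : ContDiff ℝ ∞ fun w => ‖F w‖ ^ 2 :=
  contDiff_normSq.comp hF.contDiffR

theorem Eqm_test (hψ : IsTest ψ) (hF : IsLift d F) :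
    IsTest fun z => (d : ℝ) ^ 2 * ‖F z‖ ^ 2 / ‖z‖ ^ 2 * ψ z := by
  have hs : tsupport (fun z => (d : ℝ) ^ 2 * ‖F z‖ ^ 2 / ‖z‖ ^ 2 * ψ z) ⊆ tsupport ψ :=
    tsupport_mul_subset_right
  refine ⟨contDiff_iff_contDiffAt.2 fun z => ?_, hψ.2.1.mul_left, fun h => hψ.2.2 (hs h)⟩
  by_cases hz : z = 0
  · have h1 : (fun z => (d : ℝ) ^ 2 * ‖F z‖ ^ 2 / ‖z‖ ^ 2 * ψ z) =ᶠ[𝓝 z] 0 :=
      notMem_tsupport_iff_eventuallyEq.1 fun h => hψ.2.2 (hz ▸ hs h)
    exact contDiffAt_const.congr_of_eventuallyEq h1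
  · exact ((contDiffAt_const.mul (Eqm_sq hF).contDiffAt).div contDiff_normSq.contDiffAt
      (pow_ne_zero _ (norm_ne_zero_iff.2 hz))).mul hψ.1.contDiffAt

/-- For the approximants of `exists_approx` use `eqp_smooth` twice and `md_fam_horiz`; pass to the
limit with `isCC_fam`. -/
theorem eqp_twist (hu : IsPot u) (hψ : IsTest ψ) (hg : SPot g) (hF : IsLift d F) :
    IsTest (fun z => (d : ℝ) ^ 2 * ‖F z‖ ^ 2 / ‖z‖ ^ 2 * ψ z) ∧
    eqp u ψ (fun w => ‖F w‖ ^ 2) g =
      eqp u (fun z => (d : ℝ) ^ 2 * ‖F z‖ ^ 2 / ‖z‖ ^ 2 * ψ z) (fun w => ‖w‖ ^ 2) g := by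
  have ht := Eqm_test hψ hF
  refine ⟨ht, ?_⟩
  obtain ⟨p, C, h1, -, -, -, h5, -, -⟩ := exists_approx (by omega) hu
  have l1 := h5 _ (isCC_fam hψ (Eqm_sq hF).contDiffOn hg.smooth)
  have l2 := h5 _ (isCC_fam ht contDiff_normSq.contDiffOn hg.smooth)
  refine tendsto_nhds_unique l1 (l2.congr fun i => ?_)
  have e1 := eqp_smooth (h1 i).smooth hψ (Eqm_sq hF).contDiffOn hg.smooth
  have e2 := eqp_smooth (h1 i).smooth ht contDiff_normSq.contDiffOn hg.smooth
  refine e2.trans (Eq.trans ?_ e1.symm)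
  refine integral_congr_ae (Eventually.of_forall fun z => ?_)
  by_cases hz : z = 0
  · have : ψ z = 0 := image_eq_zero_of_notMem_tsupport (hz ▸ hψ.2.2)
    simp only [this, mul_zero, zero_mul]
  · simp only [md_fam_horiz (h1 i) hg hF hz, hess_normSq]
    ring

/-- For a point of `O` take a test function `ψ ≥ 0` supported in `O` with `ψ = 1` near the point;
`eqp u ψ _ _ = 0` by the last property of `exists_approx`; `measure_null_of_locally_null`. -/
theorem IsEqMeasure.null (h : IsEqMeasure d F u ν) (hF : IsLift d F) (hd : 1 ≤ d) (hu : IsPot u)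
    {O : Set (E (s + 2))} (hO : IsOpen O) (hph : WPh u O) : ν (O \ {0}) = 0 := by
  have := h.fin
  refine measure_null_of_locally_null _ fun x hx => ?_
  have hO' : IsOpen (O \ {0}) := hO.sdiff isClosed_singleton
  obtain ⟨ψ, h1, h2, h3, h4, h5⟩ := exists_contDiff_tsupport_subset (n := ⊤) (hO'.mem_nhds hx)
  have hψ : IsTest ψ := ⟨h3, h2, fun h0 => (h1 h0).2 rfl⟩
  have h0 : ∀ z, 0 ≤ ψ z := fun z => (h4 (mem_range_self z)).1
  obtain ⟨p, C, k1, -, -, -, k5, -, k7⟩ := exists_approx (by omega) hu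
  have hz : ∀ m, eqp u ψ (fun w => ‖w‖ ^ 2) (green d F m) = 0 := by
    intro m
    have hg := green_spot hF hd m
    have l1 := k5 _ (isCC_fam hψ contDiff_normSq.contDiffOn hg.smooth)
    refine tendsto_nhds_unique l1 (tendsto_const_nhds.congr' ?_)
    filter_upwards [k7 O (tsupport ψ) hO hph h2 (h1.trans sdiff_subset) hψ.2.2] with i hi
    refine Eq.symm ((eqp_smooth (k1 i).smooth hψ contDiff_normSq.contDiffOn hg.smooth).trans ?_)
    refine integral_eq_zero_of_ae (Eventually.of_forall fun z => ?_)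
    by_cases hz : z ∈ tsupport ψ
    · have : mdC (fam (hess (p i) z) (hess (fun w => ‖w‖ ^ 2) z) (hess (green d F m) z)) = 0 :=
        mdC_eq_zero (l := 0) (hi z hz)
      simp only [md, this, Complex.zero_re, mul_zero, Pi.zero_apply]
    · simp only [image_eq_zero_of_notMem_tsupport hz, zero_mul, Pi.zero_apply]
  have hI : ∫ z, ψ z ∂ν = 0 :=
    tendsto_nhds_unique (h.tendsto hψ) (tendsto_const_nhds.congr fun m => (hz m).symm)
  rw [integral_eq_zero_iff_of_nonneg h0 (h3.continuous.integrable_of_hasCompactSupport h2)] at hI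
  refine ⟨support ψ, mem_nhdsWithin_of_mem_nhds (h3.continuous.isOpen_support.mem_nhds ?_), hI⟩
  rw [mem_support, h5]
  exact one_ne_zero

end Pool.Agent.Lib.MP_a47f92_an
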