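import Pool.Agent.Lib.MP_a47f92_an.UniqA

set_option autoImplicit false
set_option linter.unusedSectionVars false

/-! Measures determined by test functions; polar decomposition. -/

namespace Pool.Agent.Lib.MP_a47f92_an

open MeasureTheory Filter Topology Set Complex Metric Function
open scoped ContDiff ComplexConjugate ComplexOrder Matrix ENNReal NNReal

variable {n : ℕ}

theorem Uniq_meas {A : Set (Sph n)} (hA : MeasurableSet A) :
    MeasurableSet {z : E n | ‖z‖⁻¹ • z ∈ Subtype.val '' A} :=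
  (measurable_norm.inv.smul measurable_id)
    ((MeasurableEmbedding.subtype_coe isClosed_sphere.measurableSet).measurableSet_image.2 hA)

theorem Uniq_meas' {A : Set (Sph n)} (hA : MeasurableSet A) :
    MeasurableSet {z : E n | ‖z‖ < 1 ∧ ‖z‖⁻¹ • z ∈ Subtype.val '' A} :=
  (measurableSet_lt measurable_norm measurable_const).inter (Uniq_meas hA)

theorem Uniq_norm (a : Sph n) {t : ℝ} (ht : 0 < t) :
    ‖t • (a : E n)‖⁻¹ • t • (a : E n) = a := by
  rw [norm_smul, sph_norm, mul_one, Real.norm_of_nonneg ht.le, smul_smul, inv_mul_cancel₀ ht.ne',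
    one_smul]

theorem Uniq_int {k : ℕ} {c ρ : ℝ} (hρ : 0 < ρ) (h : ρ ^ (k + 1) * c = 1) :
    ∫⁻ σ in Ioi (0 : ℝ), (Iio ρ).indicator
      (fun σ => ENNReal.ofReal (2 * (k + 1) * c ^ 2 * σ ^ (2 * k + 1))) σ = 1 := by
  rw [lintegral_indicator measurableSet_Iio, Measure.restrict_restrict measurableSet_Iio,
    Iio_inter_Ioi, ← ofReal_integral_eq_lintegral_ofReal, ← integral_Ioc_eq_integral_Ioo,
    ← intervalIntegral.integral_of_le hρ.le, intervalIntegral.integral_const_mul, integral_pow,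
    ← ENNReal.ofReal_one]
  · congr 1
    have e : ρ ^ (2 * k + 1 + 1) = (ρ ^ (k + 1)) ^ 2 := by ring
    rw [e, zero_pow (by omega), sub_zero]
    push_cast
    calc _ = (ρ ^ (k + 1) * c) ^ 2 := by field_simp; ring
      _ = 1 := by rw [h, one_pow]
  · exact (Continuous.integrableOn_Icc (by fun_prop)).mono_set Ioo_subset_Icc_self
  · filter_upwards [ae_restrict_mem measurableSet_Ioo] with σ hσ
    have := hσ.1
    simp only [Pi.zero_apply]
    positivity

theorem Uniq_main {d : ℕ} {F : E n → E n} (hF : IsLift d F) (hd : 1 ≤ d) {ν : Measure (E n)}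
    {νS : Measure (Sph n)} (h : Polar ν νS) {A : Set (Sph n)} (hA : MeasurableSet A) :
    ∫⁻ z in {0}ᶜ, ENNReal.ofReal (d * ‖F z‖ ^ 2 / ‖z‖ ^ 2) *
      {z : E n | ‖z‖ < 1 ∧ ‖z‖⁻¹ • z ∈ Subtype.val '' A}.indicator 1 (F z) ∂ν =
      νS (sf F ⁻¹' A) := by
  have hm : Measurable F := hF.differentiable.continuous.measurable
  have hg : Measurable fun z => ENNReal.ofReal (d * ‖F z‖ ^ 2 / ‖z‖ ^ 2) *
      {z : E n | ‖z‖ < 1 ∧ ‖z‖⁻¹ • z ∈ Subtype.val '' A}.indicator 1 (F z) :=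
    (((hm.norm.pow_const 2).const_mul _).div (measurable_norm.pow_const 2)).ennreal_ofReal.mul
      ((measurable_one.indicator (Uniq_meas' hA)).comp hm)
  rw [h _ hg, ← lintegral_indicator_one ((continuous_sf hF).measurable hA)]
  refine lintegral_congr fun a => ?_
  have hc : 0 < ‖F a‖ := norm_pos_iff.2 (hF.ne (sph_ne a))
  have h1 : ∀ σ : ℝ, 0 < σ → (‖F (σ • (a : E n))‖⁻¹ • F (σ • (a : E n)) ∈ Subtype.val '' A ↔
      sf F a ∈ A) := fun σ hσ => by
    rw [← Subtype.val_injective.mem_set_image (s := A), coe_sf hF, ← nm_smul hF hσ, nm]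
  by_cases ha : sf F a ∈ A
  · obtain ⟨ρ, hρ, e⟩ := exists_scale hd hc
    obtain ⟨k, rfl⟩ : ∃ k, d = k + 1 := ⟨d - 1, by omega⟩
    rw [indicator_of_mem (show a ∈ sf F ⁻¹' A from ha), Pi.one_apply, ← Uniq_int hρ e]
    refine setLIntegral_congr_fun measurableSet_Ioi fun σ hσ => ?_
    have hσ' : (0 : ℝ) < σ := hσ
    have h2 : ‖F (σ • (a : E n))‖ = σ ^ (k + 1) * ‖F a‖ := by
      rw [hF.homR, norm_smul, Real.norm_of_nonneg (by positivity)]
    have h3 : ‖F (σ • (a : E n))‖ < 1 ↔ σ < ρ := by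
      rw [h2, ← e, mul_lt_mul_iff_left₀ hc, pow_lt_pow_iff_left₀ hσ'.le hρ.le (by omega)]
    by_cases h4 : σ < ρ
    · have h5 : F (σ • (a : E n)) ∈ {z : E n | ‖z‖ < 1 ∧ ‖z‖⁻¹ • z ∈ Subtype.val '' A} :=
        ⟨h3.2 h4, (h1 σ hσ').2 ha⟩
      rw [indicator_of_mem h5,
        indicator_of_mem (show σ ∈ Iio ρ from h4), Pi.one_apply, mul_one,
        ← ENNReal.ofReal_mul (by positivity), h2, norm_smul, sph_norm, Real.norm_of_nonneg hσ'.le]
      congr 1
      push_cast
      field_simp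
      ring
    · rw [indicator_of_notMem (fun h5 => h4 (h3.1 h5.1)), indicator_of_notMem (show σ ∉ Iio ρ from h4),
        mul_zero, mul_zero]
  · rw [indicator_of_notMem (show a ∉ sf F ⁻¹' A from ha)]
    refine setLIntegral_eq_zero measurableSet_Ioi fun σ hσ => ?_
    rw [indicator_of_notMem (fun h5 => ha ((h1 σ hσ).1 h5.2)), mul_zero, mul_zero, Pi.zero_apply]

theorem Uniq_id {ν : Measure (E n)} {νS : Measure (Sph n)} (h : Polar ν νS) {A : Set (Sph n)}
    (hA : MeasurableSet A) :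
    ∫⁻ z in {0}ᶜ, {z : E n | ‖z‖ < 1 ∧ ‖z‖⁻¹ • z ∈ Subtype.val '' A}.indicator 1 z ∂ν = νS A := by
  have hid : IsLift 1 (id : E n → E n) := ⟨analyticOnNhd_id, fun c z => by simp, fun _ h => h⟩
  have h1 : sf (id : E n → E n) = id := funext fun a => Subtype.ext (by
    rw [coe_sf hid, nm, id_eq, sph_norm, inv_one, one_smul, id_eq])
  have h2 := Uniq_main hid le_rfl h hA
  rw [h1, preimage_id] at h2
  rw [← h2]
  refine setLIntegral_congr_fun (measurableSet_singleton _).compl fun z hz => ?_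
  have h3 : ‖z‖ ^ 2 ≠ 0 := pow_ne_zero _ (norm_ne_zero_iff.2 hz)
  simp only [id_eq, Nat.cast_one, one_mul, div_self h3, ENNReal.ofReal_one]

/-- A measurable set invariant under positive dilations is null if its trace on the sphere is. -/
theorem Polar.ae {ν : Measure (E n)} {νS : Measure (Sph n)} (h : Polar ν νS) {B : Set (Sph n)}
    (hB : MeasurableSet B) (h0 : νS B = 0) :
    ∀ᵐ z ∂ν, z ≠ 0 → ∀ a ∈ B, ∀ t : ℝ, 0 < t → z ≠ t • (a : E n) := by
  have h1 := h _ (measurable_one.indicator (Uniq_meas hB))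
  rw [lintegral_indicator_one (Uniq_meas hB), lintegral_congr_ae (g := fun _ => 0),
    lintegral_zero] at h1
  · have h2 := (ae_restrict_iff' (measurableSet_singleton (0 : E n)).compl).1
      (measure_eq_zero_iff_ae_notMem.1 h1)
    filter_upwards [h2] with z hz h3 a ha t ht e
    refine hz h3 ?_
    rw [e, Uniq_norm a ht]
    exact mem_image_of_mem _ ha
  · filter_upwards [measure_eq_zero_iff_ae_notMem.1 h0] with a ha
    refine setLIntegral_eq_zero measurableSet_Ioi fun t ht => ?_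
    rw [indicator_of_notMem, mul_zero, Pi.zero_apply]
    rw [mem_ofPred_eq, Uniq_norm a ht, Subtype.val_injective.mem_set_image]
    exact ha

theorem Polar.null {ν : Measure (E n)} {νS : Measure (Sph n)} (h : Polar ν νS) {O : Set (E n)}
    (hO : IsOpen O) (hc : IsCone O) (h0 : ν (O \ {0}) = 0) : νS {a | (a : E n) ∈ O} = 0 := by
  have hA : MeasurableSet {a : Sph n | (a : E n) ∈ O} :=
    (hO.preimage continuous_subtype_val).measurableSet
  rw [← Uniq_id h hA, lintegral_indicator_one (Uniq_meas' hA),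
    Measure.restrict_apply (Uniq_meas' hA)]
  refine measure_mono_null (t := O \ {0}) (fun z hz => ⟨?_, hz.2⟩) h0
  obtain ⟨⟨-, a, ha, e⟩, hz0⟩ := hz
  have h1 : ‖z‖ ≠ 0 := norm_ne_zero_iff.2 hz0
  have h2 := hc (‖z‖ : ℝ) (ofReal_ne_zero.2 h1) _ ha
  rwa [Complex.coe_smul, e, smul_smul, mul_inv_cancel₀ h1, one_smul] at h2

/-- Apply the hypothesis and `Polar` to `g z = 1` if `‖z‖ < 1` and `‖z‖⁻¹ • z ∈ A`, `0` otherwise.
With `c = ‖F a‖`, `∫ 2 σ d σ ^ (2 d - 2) c ^ 2 dσ` over `σ ^ d c < 1` equals `1`. -/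
theorem Polar.invariant {d : ℕ} {F : E n → E n} (hF : IsLift d F) (hd : 1 ≤ d) {ν : Measure (E n)}
    {νS : Measure (Sph n)} (h : Polar ν νS)
    (hi : ∀ g : E n → ℝ≥0∞, Measurable g →
      ∫⁻ z in {0}ᶜ, ENNReal.ofReal (d * ‖F z‖ ^ 2 / ‖z‖ ^ 2) * g (F z) ∂ν = ∫⁻ z in {0}ᶜ, g z ∂ν) :
    MeasurePreserving (sf F) νS νS := by
  have hm := (continuous_sf hF).measurable
  refine ⟨hm, Measure.ext fun A hA => ?_⟩
  rw [Measure.map_apply hm hA, ← Uniq_main hF hd h hA,
    hi _ (measurable_one.indicator (Uniq_meas' hA)), Uniq_id h hA]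

end Pool.Agent.Lib.MP_a47f92_an
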