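import Pool.Agent.Lib.MP_a47f92_an.Norm
import Pool.Agent.Lib.MP_a47f92_an.Uniq

set_option autoImplicit false
set_option linter.unusedSectionVars false

/-! Properties of the equilibrium measure. -/

namespace Pool.Agent.Lib.MP_a47f92_an

open MeasureTheory Filter Topology Set Complex Metric Function
open scoped ContDiff ComplexConjugate ComplexOrder Matrix ENNReal NNReal

variable {n : ℕ}

variable {s d : ℕ} {F : E (s + 2) → E (s + 2)} {u ψ b g : E (s + 2) → ℝ}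
  {ν : Measure (E (s + 2))}

theorem IsEqMeasure.tendsto (h : IsEqMeasure d F u ν) (hψ : IsTest ψ) :
    Tendsto (fun m => eqp u ψ (fun w => ‖w‖ ^ 2) (green d F m)) atTop (𝓝 (∫ z, ψ z ∂ν)) := by
  simpa only [eqp, hess_normSq] using h.lim ψ hψ

theorem EqmA_upd (a ψ b g : E (s + 2) → ℝ) (z : E (s + 2)) :
    update (fun l' => hess (fam (s := s) a b g l') z) 0 (hess ψ z) =
      fam (hess ψ z) (hess b z) (hess g z) := by
  rw [fam_map fun f : E (s + 2) → ℝ => hess f z, fam_update_zero]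

theorem EqmA_sm (a : E (s + 2) → ℝ) (hb : ContDiffOn ℝ ∞ b {0}ᶜ) (hg : ContDiffOn ℝ ∞ g {0}ᶜ) :
    ∀ l', l' ≠ 0 → ContDiffOn ℝ ∞ (fam (s := s) a b g l') {0}ᶜ :=
  fam_forall_ne_zero (p := fun f : E (s + 2) → ℝ => ContDiffOn ℝ ∞ f {0}ᶜ) a hb hg

theorem isCC_fam (hψ : IsTest ψ) (hb : ContDiffOn ℝ ∞ b {0}ᶜ) (hg : ContDiffOn ℝ ∞ g {0}ᶜ) :
    IsCC fun z => md (fam (hess ψ z) (hess b z) (hess g z)) := by
  simpa only [EqmA_upd] using isCC_md_update (EqmA_sm ψ hb hg) hψ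

/-- `byparts` in the slot `0`. -/
theorem eqp_smooth {p : E (s + 2) → ℝ} (hp : ContDiffOn ℝ ∞ p {0}ᶜ) (hψ : IsTest ψ)
    (hb : ContDiffOn ℝ ∞ b {0}ᶜ) (hg : ContDiffOn ℝ ∞ g {0}ᶜ) :
    eqp p ψ b g = ∫ z, ψ z * md (fam (hess p z) (hess b z) (hess g z)) := by
  simpa only [EqmA_upd, eqp] using byparts isOpen_compl_singleton (EqmA_sm ψ hb hg) hp hψ.1 hψ.2.1
    (subset_compl_singleton_iff.2 hψ.2.2)

theorem eqp_add_const (hu : LocallyIntegrable u) (c : ℝ) (hψ : IsTest ψ)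
    (hb : ContDiffOn ℝ ∞ b {0}ᶜ) (hg : ContDiffOn ℝ ∞ g {0}ᶜ) :
    eqp (fun z => u z + c) ψ b g = eqp u ψ b g := by
  have h0 := integral_md_update isOpen_compl_singleton (EqmA_sm ψ hb hg) hψ.1 hψ.2.1
    (subset_compl_singleton_iff.2 hψ.2.2)
  simp only [EqmA_upd] at h0
  have hc := isCC_fam hψ hb hg
  simp only [eqp, add_mul]
  rw [integral_add (hc.integrable_mul hu) (hc.integrable_mul (locallyIntegrable_const c)),
    integral_const_mul, h0, mul_zero, add_zero]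

/-- Substitute `z = a⁻¹ • y`: the volume gives `a ^ (-2 (s + 2))`, `hess_comp_smul` gives `a ^ 2` for
`ψ`, and `hess g (a⁻¹ • y) = a ^ 2 • hess g y` by homogeneity; `u (a⁻¹ • y) = u y - log a`. -/
theorem eqp_scale (hu : IsPot u) (hψ : IsTest ψ) (hg : SPot g) {a : ℝ} (ha : 0 < a) :
    eqp u (fun z => ψ (a • z)) (fun w => ‖w‖ ^ 2) g = (a ^ 2)⁻¹ * eqp u ψ (fun w => ‖w‖ ^ 2) g := by
  have h2 : (2 : WithTop ℕ∞) ≤ (∞ : WithTop ℕ∞) := WithTop.coe_le_coe.2 (le_top (a := (2 : ℕ∞)))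
  have hn : ‖(a : ℂ)‖ = a := by rw [norm_real, Real.norm_of_nonneg ha.le]
  have ha' : (a : ℂ) ≠ 0 := ofReal_ne_zero.2 ha.ne'
  have hg2 : ∀ z : E (s + 2), z ≠ 0 → hess g z = ((a ^ 2 : ℝ) : ℂ) • hess g (a • z) := by
    intro z hz
    have h1 : (fun w => g (a • w)) =ᶠ[𝓝 z] fun w => g w + Real.log a := by
      filter_upwards [isOpen_ne.mem_nhds hz] with w hw
      have := hg.hom a ha' w hw
      rwa [coe_smul, hn, one_mul] at this
    rw [← hess_comp_smul ((hg.smooth.contDiffAt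
      (isOpen_compl_singleton.mem_nhds (smul_ne_zero ha.ne' hz))).of_le h2),
      (hess_congr h1).eq_of_nhds, hess_add_const]
  have h3 : eqp u (fun z => ψ (a • z)) (fun w => ‖w‖ ^ 2) g = ∫ z, (a ^ 2) ^ (s + 1) *
      (fun y => (u y + -Real.log a) * md (fam (hess ψ y) 1 (hess g y))) (a • z) := by
    refine integral_congr_ae ?_
    filter_upwards [hu.hom a ha', compl_mem_ae_iff.2 (measure_singleton (0 : E (s + 2)))]
      with z hz hz0
    rw [coe_smul, hn] at hz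
    have h4 := mdC_fam_smul ((a ^ 2 : ℝ) : ℂ) 1 ((a ^ 2 : ℝ) : ℂ) (hess ψ (a • z)) 1
      (hess g (a • z))
    rw [one_smul, mul_one, ← pow_succ', ← ofReal_pow] at h4
    rw [hess_normSq, hess_comp_smul (hψ.1.contDiffAt.of_le h2), hg2 z hz0, hz]
    simp only [md]
    rw [h4, re_ofReal_mul]
    ring
  have h5 := eqp_add_const hu.int (-Real.log a) hψ contDiff_normSq.contDiffOn hg.smooth
  rw [h3, integral_const_mul, Measure.integral_comp_smul volume
    (fun y => (u y + -Real.log a) * md (fam (hess ψ y) 1 (hess g y))) a, ← h5,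
    finrank_real_of_complex, finrank_euclideanSpace_fin, abs_of_pos (by positivity)]
  simp only [eqp, hess_normSq, smul_eq_mul]
  rw [← mul_assoc, pow_mul]
  congr 1
  field_simp
  ring

theorem IsEqMeasure.scale (h : IsEqMeasure d F u ν) (hF : IsLift d F) (hd : 1 ≤ d) (hu : IsPot u)
    (a : ℝ) (ha : 0 < a) (ψ : E (s + 2) → ℝ) (hψ : IsTest ψ) :
    ∫ z, ψ (a • z) ∂ν = (a ^ 2)⁻¹ * ∫ z, ψ z ∂ν := by
  have ht : IsTest fun z => ψ (a • z) := by
    refine ⟨hψ.1.comp (contDiff_const_smul a), hψ.2.1.comp_smul ha.ne', ?_⟩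
    have h1 : Tendsto (fun z : E (s + 2) => a • z) (𝓝 0) (𝓝 0) :=
      (continuous_const_smul a).tendsto' 0 0 (smul_zero a)
    exact notMem_tsupport_iff_eventuallyEq.2
      (h1.eventually (notMem_tsupport_iff_eventuallyEq.1 hψ.2.2))
  refine tendsto_nhds_unique (h.tendsto ht) ?_
  simpa only [fun m => eqp_scale hu hψ (green_spot hF hd m) ha] using
    (h.tendsto hψ).const_mul (a ^ 2)⁻¹

end Pool.Agent.Lib.MP_a47f92_an
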