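import Pool.Agent.Lib.MP_a47f92_an.Fix3A

set_option autoImplicit false
set_option linter.unusedSectionVars false

/-! The support of the attracting current and the counting estimate. -/

namespace Pool.Agent.Lib.MP_a47f92_an

open MeasureTheory Filter Topology Set Complex Metric Function
open scoped ContDiff ComplexConjugate ComplexOrder Matrix ENNReal NNReal

variable {n : ℕ}

variable {d : ℕ} {F : E n → E n} {D : Set (E n)} {u φ : E n → ℝ}

theorem Fix3_ae_ne (hn : 1 ≤ n) : ∀ᵐ z : E n, z ≠ 0 := by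
  have : Nonempty (Fin n) := ⟨⟨0, hn⟩⟩
  have h : ({0}ᶜ : Set (E n)) ∈ ae (volume : Measure (E n)) :=
    compl_mem_ae_iff.2 (measure_singleton _)
  exact h

theorem Fix3_tel (hF : IsLift d F) (hd : 1 ≤ d) (φ : E n → ℝ) (j : ℕ) :
    ∀ᵐ q, push d F j (fun z => φ z - push d F 1 φ z) q = push d F j φ q - push d F (j + 1) φ q := by
  filter_upwards [push_succ' hF hd j φ, tr_add (hF.iterate j) (Nat.one_le_pow _ _ hd)
    (fun z => φ z - push d F 1 φ z) (push d F 1 φ)] with q h1 h2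
  rw [h1]
  simp only [sub_add_cancel] at h2
  have h3 : tr F^[j] φ q = tr F^[j] (fun z => φ z - push d F 1 φ z) q +
      tr F^[j] (push d F 1 φ) q := h2
  rw [push, push, push, h3]
  ring

theorem Fix3_fix (hF : IsLift d F) (hd : 1 ≤ d) (hfix : ∀ᵐ q, push d F 1 u q = u q) (m : ℕ) :
    ∀ᵐ q, push d F m u q = u q := by
  induction m with
  | zero => simp [push_zero]
  | succ m ih =>
    filter_upwards [ih, push_succ' hF hd m u, tr_congr (hF.iterate m) hfix] with q h1 h2 h3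
    rw [h2, ← h1, push, push, h3]

theorem Fix3_count (hF : IsLift d F) (hd : 1 ≤ d) {Ψ : E n → ℝ} {W : Set (E n)} {η : ℝ}
    (hη : 0 < η) (h : ∀ᵐ z, η * W.indicator 1 z ≤ Ψ z) (j : ℕ) :
    ∀ᵐ q, ∀ T : Finset (E n), (∀ w ∈ T, w ∈ W ∧ F^[j] w = q) →
      η * ((T.card : ℝ) / ((d : ℝ) ^ (n - 1)) ^ j) ≤ push d F j Ψ q := by
  filter_upwards [ae_good (hF.iterate j) (Nat.one_le_pow _ _ hd), ae_fib (hF.iterate j) h]
    with q h1 h2 T hT
  have h3 : η * (T.card : ℝ) ≤ tr F^[j] Ψ q := by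
    rw [tr_eq_sum h1.1]
    calc η * (T.card : ℝ) = ∑ _w ∈ T, η := by rw [Finset.sum_const, nsmul_eq_mul, mul_comm]
      _ ≤ ∑ w ∈ T, Ψ w := Finset.sum_le_sum fun w hw => by
          have := h2 w (hT w hw).2
          rwa [indicator_of_mem (hT w hw).1, Pi.one_apply, mul_one] at this
      _ ≤ _ := by
          refine Finset.sum_le_sum_of_subset_of_nonneg (fun w hw => ?_) fun w hw _ => ?_
          · simpa using (hT w hw).2
          · refine le_trans (mul_nonneg hη.le ?_) (h2 w (by simpa using hw))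
            exact indicator_nonneg (fun _ _ => zero_le_one) _
  rw [push, pow_mul, ← mul_div_assoc, div_eq_inv_mul]
  exact mul_le_mul_of_nonneg_left h3 (by positivity)

theorem Fix3_avg (hu : LocallyIntegrable u) {y : E n} {r A : ℝ} (hr : 0 < r)
    (h : ∀ᵐ q, q ∈ ball y r → u q ≤ A) : ⨍ q in ball y r, u q ≤ A := by
  have hi : IntegrableOn u (ball y r) :=
    (hu.integrableOn_isCompact (isCompact_closedBall y r)).mono_set ball_subset_closedBall
  have hf : volume (ball y r) ≠ ⊤ := measure_ball_lt_top.ne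
  have hp : 0 < volume.real (ball y r) :=
    ENNReal.toReal_pos (measure_ball_pos _ _ hr).ne' hf
  have h1 : ∫ q in ball y r, u q ≤ ∫ _q in ball y r, A :=
    setIntegral_mono_on_ae hi (integrableOn_const hf) measurableSet_ball h
  rw [setIntegral_const, smul_eq_mul] at h1
  rw [setAverage_eq, smul_eq_mul, inv_mul_le_iff₀ hp]
  exact h1

/-- `Θ = φ - sm κ (2 b) v` with `v = push d F 1 φ` is continuous off the origin, `XHom 0`,
nonnegative (`sm_mono`, `sm_ge`), positive off `phSet v` (`wph_of_sm_sm`), and `Θ ≤ φ - v` almost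
everywhere (`sm_ge`). On the compact set `sphere \ phSet v` it is at least `2 η`; take
`W = {z ≠ 0 | η < Θ z}` and a thickening. -/
theorem exists_gap (hn : 1 ≤ n) (κ : Ker n) {b : ℝ} (hb : 0 < b) (hb' : b ≤ 1 / 4) {v : E n → ℝ}
    (hv : IsPot v) (hφ : SPot φ) (hfix : ∀ z, z ≠ 0 → φ z = sm κ (2 * b) (sm κ b v) z) :
    ∃ (W : Set (E n)) (η δ : ℝ), 0 < η ∧ 0 < δ ∧ IsCone W ∧
      (∀ x, ‖x‖ = 1 → x ∉ phSet v → ball x δ ⊆ W) ∧
      ∀ᵐ z, v z + η * W.indicator 1 z ≤ φ z := by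
  have hb2 : 0 < 2 * b := by linarith
  have hp : SPot (sm κ (2 * b) v) := hv.sm_spot κ hn hb2 (by linarith)
  have hge : ∀ {r : ℝ}, 0 < r → r < 1 → ∀ᵐ z, v z ≤ sm κ r v z := fun hr hr1 => by
    filter_upwards [sm_ge κ hn hr hr1 hv.int isOpen_univ (hv.wpsh univ) isOpen_univ
      fun _ _ _ => subset_univ _] with z hz using hz (mem_univ _)
  set Θ : E n → ℝ := fun z => φ z - sm κ (2 * b) v z with hΘ
  have hc : ContinuousOn Θ {0}ᶜ := hφ.smooth.continuousOn.sub hp.smooth.continuousOn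
  have h0 : ∀ z, z ≠ 0 → 0 ≤ Θ z := fun z hz => by
    rw [hΘ, sub_nonneg, hfix z hz]
    refine sm_mono κ hb2 hv.int (sm_locInt κ hn hb (by linarith) hv.int) hz ?_
    filter_upwards [hge hb (by linarith)] with y hy _ using hy
  have hK : IsCompact (sphere (0 : E n) 1 \ phSet v) := (isCompact_sphere _ _).diff (isOpen_phSet v)
  have hK0 : ∀ x ∈ sphere (0 : E n) 1 \ phSet v, x ≠ 0 := fun x hx h => by
    have := hx.1
    rw [h] at this
    simp at this
  have hpos : ∀ x ∈ sphere (0 : E n) 1 \ phSet v, 0 < Θ x := fun x hx => by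
    refine (h0 x (hK0 x hx)).lt_of_ne fun h => hx.2 ⟨hK0 x hx, ?_⟩
    refine wph_of_sm_sm κ hn hb hb' hv (hK0 x hx) ?_
    rw [← hfix x (hK0 x hx)]
    exact sub_eq_zero.1 h.symm
  obtain ⟨a, ha, hle⟩ := hK.exists_forall_le' (hc.mono hK0) hpos
  have hW : IsOpen ({0}ᶜ ∩ Θ ⁻¹' Ioi (a / 2)) :=
    hc.isOpen_inter_preimage isOpen_compl_singleton isOpen_Ioi
  obtain ⟨δ, hδ, hth⟩ := hK.exists_thickening_subset_open hW fun x hx =>
    ⟨hK0 x hx, lt_of_lt_of_le (half_lt_self ha) (hle x hx)⟩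
  refine ⟨_, a / 2, δ, half_pos ha, hδ, ?_, fun x hx hx' =>
    (ball_subset_thickening (mem_sdiff_of_mem (mem_sphere_zero_iff_norm.2 hx) hx') δ).trans hth, ?_⟩
  · intro c hc0 z hz
    refine ⟨smul_ne_zero hc0 hz.1, ?_⟩
    have h2 : a / 2 < φ z - sm κ (2 * b) v z := hz.2
    show a / 2 < φ (c • z) - sm κ (2 * b) v (c • z)
    rw [hφ.hom c hc0 z hz.1, hp.hom c hc0 z hz.1]
    linarith
  · filter_upwards [hge hb2 (by linarith), Fix3_ae_ne hn] with z h1 h2
    have h3 : 0 ≤ φ z - sm κ (2 * b) v z := h0 z h2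
    by_cases hz : z ∈ {0}ᶜ ∩ Θ ⁻¹' Ioi (a / 2)
    · have h4 : a / 2 < φ z - sm κ (2 * b) v z := hz.2
      rw [indicator_of_mem hz, Pi.one_apply]
      linarith
    · rw [indicator_of_notMem hz]
      linarith

/-- Telescoping: with `Ψ = φ - push d F 1 φ ≥ η 1_W`, for almost every `q`
`∑_{j<N} push j Ψ q = φ q - push N φ q ≤ φ q - u q`, and `η c j / d ^ ((n - 1) j) ≤ push j Ψ q` for
almost every `q` in the ball (`ae_fib`, `ae_good` for `F^[j]`). Average over the ball and use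
`IsPot.mean_lower` and a bound of `φ` on `1 / 2 ≤ ‖q‖ ≤ 3 / 2`. -/
theorem ag_of_gap (hn : 2 ≤ n) (hF : IsLift d F) (hd : 1 ≤ d) (hu : IsPot u)
    (hfix : ∀ᵐ q, push d F 1 u q = u q) (hφ : SPot φ) (hle : ∀ᵐ z, u z ≤ φ z) {W : Set (E n)}
    {η : ℝ} (hη : 0 < η) (h : ∀ᵐ z, push d F 1 φ z + η * W.indicator 1 z ≤ φ z) :
    ∃ C, AG d F W C := by
  obtain ⟨C, hC, hm⟩ := hu.mean_lower hn
  obtain ⟨M, hM⟩ := hφ.hom.bound hφ.smooth.continuousOn
  have hΨ : ∀ᵐ z, η * W.indicator 1 z ≤ φ z - push d F 1 φ z := by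
    filter_upwards [h] with z hz
    linarith
  refine ⟨(|M| + 1 + C) / η, fun y r N c hy hr hr' hc => ?_⟩
  have hL : 0 ≤ Real.log r⁻¹ := Real.log_nonneg (one_le_inv_iff₀.2 ⟨hr, by linarith⟩)
  have key : ∀ᵐ q, q ∈ ball y r →
      u q ≤ |M| + 1 - η * ∑ j ∈ Finset.range N, (c j : ℝ) / ((d : ℝ) ^ (n - 1)) ^ j := by
    filter_upwards [ae_all_iff.2 (Fix3_tel hF hd φ), ae_all_iff.2 (Fix3_count hF hd hη hΨ),
      Fix3_fix hF hd hfix N, push_mono hF hd N hle] with q h1 h2 h3 h4 hq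
    have h5 : η * ∑ j ∈ Finset.range N, (c j : ℝ) / ((d : ℝ) ^ (n - 1)) ^ j ≤
        ∑ j ∈ Finset.range N, (push d F j φ q - push d F (j + 1) φ q) := by
      rw [Finset.mul_sum]
      refine Finset.sum_le_sum fun j hj => ?_
      obtain ⟨T, hT, hT'⟩ := hc j (Finset.mem_range.1 hj) q hq
      rw [← h1 j, ← hT]
      exact h2 j T hT'
    rw [Finset.sum_range_sub' (fun j => push d F j φ q), push_zero] at h5
    rw [mem_ball, dist_eq_norm] at hq
    have h6 : ‖q‖ ≤ 3 / 2 := by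
      have := norm_sub_norm_le q y
      linarith
    have h7 : 0 < ‖q‖ := by
      have := norm_sub_norm_le y q
      rw [norm_sub_rev] at this
      linarith
    have h8 := (abs_le.1 (hM q (norm_pos_iff.1 h7))).2
    have h9 := Real.log_le_sub_one_of_pos h7
    have h10 := le_abs_self M
    linarith
  have h1 := (hm y hy r hr hr').trans (Fix3_avg hu.int hr key)
  rw [div_mul_eq_mul_div, le_div_iff₀ hη]
  have h2 : 0 ≤ (|M| + 1) * Real.log r⁻¹ := mul_nonneg (by positivity) hL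
  nlinarith

end Pool.Agent.Lib.MP_a47f92_an
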