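import Pool.Agent.Lib.MP_a47f92_an.Fix2
import Pool.Agent.Lib.MP_a47f92_an.Fix3

set_option autoImplicit false
set_option linter.unusedSectionVars false

/-! Summary of the pluripotential part. -/

namespace Pool.Agent.Lib.MP_a47f92_an

open MeasureTheory Filter Topology Set Complex Metric Function
open scoped ContDiff ComplexConjugate ComplexOrder Matrix ENNReal NNReal

variable {n : ℕ}

variable {d : ℕ} {F : E n → E n} {D : Set (E n)} {u : E n → ℝ}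

theorem exists_ag (hn : 2 ≤ n) (hF : IsLift d F) (hd : 2 ≤ d) (hD : Trap F D)
    (hne : ∃ z, z ≠ 0 ∧ z ∉ D) (hu : IsPot u) (hs : SuppIn u D) (ha : Attracting d F D u) :
    (∀ᵐ q, tr F (fun _ => 1) q = ((d ^ n : ℕ) : ℝ)) ∧ (∃ c, ∀ᵐ q, push d F 1 u q = u q + c) ∧
    ∃ (O W : Set (E n)) (δ C : ℝ), IsOpen O ∧ IsCone O ∧ WPh u O ∧ 0 < δ ∧ IsCone W ∧
      (∀ x, ‖x‖ = 1 → x ∉ O → ball x δ ⊆ W) ∧ AG d F W C := by
  have hn1 : 1 ≤ n := by omega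
  have hd1 : 1 ≤ d := by omega
  obtain ⟨hN, c, hc⟩ := push_eq hn hF hd1 hD hu hs ha
  refine ⟨hN, ⟨c, hc⟩, ?_⟩
  obtain ⟨c', hc'⟩ := exists_normalised hn1 hF hd hN hc
  obtain ⟨κ⟩ := exists_ker hn1
  obtain ⟨b, φ, hb, hb', hφ, hsφ, hle, hfix⟩ :=
    exists_fixed hn hF hd1 hD hne (hu.add_const c') (hs.add_const hu c') hN hc' κ
  have hv := hφ.push_isPot hn1 hF hd1 hN
  obtain ⟨W, η, δ, hη, hδ, hW, hball, hgap⟩ := exists_gap hn1 κ hb hb' hv hφ hfix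
  obtain ⟨C, hC⟩ := ag_of_gap hn hF hd1 (hu.add_const c') hc' hφ hle hη hgap
  exact ⟨_, W, δ, C, isOpen_phSet _, isCone_phSet hv,
    wph_phSet hn1 hF hd1 hN κ hb hb' hφ hfix hsφ ha, hδ, hW, hball, hC⟩

end Pool.Agent.Lib.MP_a47f92_an
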