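import Pool.Agent.Lib.MP_a47f92_an.Norm

set_option autoImplicit false
set_option linter.unusedSectionVars false

/-! A smooth fixed point of the smoothed push-forward. -/

namespace Pool.Agent.Lib.MP_a47f92_an

open MeasureTheory Filter Topology Set Complex Metric Function
open scoped ContDiff ComplexConjugate ComplexOrder Matrix ENNReal NNReal

variable {n : ℕ}

variable {d : ℕ} {F : E n → E n} {D K : Set (E n)} {u : E n → ℝ}

/-- The smoothed push-forward. -/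
noncomputable def stp (κ : Ker n) (b : ℝ) (d : ℕ) (F : E n → E n) (g : E n → ℝ) : E n → ℝ :=
  sm κ (2 * b) (sm κ b (push d F 1 g))

theorem Fix1_ae_ne (hn : 1 ≤ n) : ∀ᵐ z : E n, z ≠ 0 := by
  have : Nonempty (Fin n) := ⟨⟨0, hn⟩⟩
  exact Measure.ae_ne volume 0

theorem Fix1_abs_le {a x c : ℝ} (h1 : a ≤ x) (h2 : x ≤ c) : |x| ≤ |a| + |c| :=
  abs_le.2 ⟨by linarith [neg_abs_le a, abs_nonneg c], by linarith [le_abs_self c, abs_nonneg a]⟩

theorem Fix1_locInt {a c : E n → ℝ} (ha : LocallyIntegrable a) (hc : LocallyIntegrable c) :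
    LocallyIntegrable fun z => |a z| + |c z| := fun x =>
  (ha x).norm.add (hc x).norm

/-- Choice of the radius. -/
theorem exists_radius (hK : IsClosed K) (hc : IsCone K) (hD : IsOpen D) (hDc : IsCone D)
    (h : K \ {0} ⊆ D) : ∃ b : ℝ, 0 < b ∧ b ≤ 1 / 4 ∧ nb (2 * b) (nb b K) \ {0} ⊆ D := by
  obtain ⟨ρ, hρ, hs⟩ := exists_nb_subset hK hc hD hDc h
  have h1 : min (1 / 4) (ρ / 4) ≤ 1 / 4 := min_le_left _ _
  have h2 : min (1 / 4) (ρ / 4) ≤ ρ / 4 := min_le_right _ _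
  have h0 : 0 < min (1 / 4) (ρ / 4) := by positivity
  refine ⟨min (1 / 4) (ρ / 4), h0, h1, ?_⟩
  generalize min (1 / 4) (ρ / 4) = b at h0 h1 h2
  rintro z ⟨⟨y, ⟨x, hx, hxy⟩, hyz⟩, hz⟩
  refine hs ⟨⟨x, hx, ?_⟩, hz⟩
  have t1 := norm_sub_le_norm_sub_add_norm_sub x y z
  have t2 : ‖y‖ ≤ ‖y - z‖ + ‖z‖ := norm_le_norm_sub_add _ _
  have t3 := norm_nonneg z
  have t4 : ‖y‖ ≤ 2 * ‖z‖ := by nlinarith
  have t5 : b * ‖y‖ ≤ b * (2 * ‖z‖) := mul_le_mul_of_nonneg_left t4 h0.le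
  nlinarith

/-- Two smoothings of a potential which is pluriharmonic off `K`. For the last statement use
`sm_eq_of_wph` twice, with `Ω = Kᶜ`, `Ω' = (nb b K)ᶜ` and then `Ω = (nb b K)ᶜ`,
`Ω' = (nb (2 b) (nb b K))ᶜ`. -/
theorem sm_sm_props (hn : 1 ≤ n) (κ : Ker n) {b : ℝ} (hb : 0 < b) (hb' : b ≤ 1 / 4)
    (hK : IsClosed K) {v : E n → ℝ} (hv : IsPot v) (h : WPh v Kᶜ) :
    SPot (sm κ (2 * b) (sm κ b v)) ∧ (∀ᵐ z, v z ≤ sm κ (2 * b) (sm κ b v) z) ∧
    (∀ z, z ≠ 0 → z ∉ nb (2 * b) (nb b K) → hess (sm κ (2 * b) (sm κ b v)) z = 0) ∧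
    ∀ᵐ z, z ∉ nb (2 * b) (nb b K) → sm κ (2 * b) (sm κ b v) z = v z := by
  have hb1 : b < 1 := by linarith
  have hb2 : 0 < 2 * b := by linarith
  have hb3 : 2 * b < 1 := by linarith
  have h1 : IsPot (sm κ b v) := (hv.sm_spot κ hn hb hb1).isPot hn
  have h2 : WPh (sm κ b v) (nb b K)ᶜ :=
    sm_wph κ hn hb hb1 hv.int h fun z hz _ => closedBall_subset_of_notMem_nb hz
  refine ⟨h1.sm_spot κ hn hb2 hb3, ?_, fun z hz hz' =>
    hess_sm_eq_zero κ hn hb2 hb3 h1.int (isClosed_nb hK) h2 hz hz', ?_⟩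
  · filter_upwards [sm_ge κ hn hb hb1 hv.int isOpen_univ (hv.wpsh univ) isOpen_univ
      fun _ _ _ => subset_univ _, sm_ge κ hn hb2 hb3 h1.int isOpen_univ (h1.wpsh univ) isOpen_univ
      fun _ _ _ => subset_univ _] with z e1 e2
    exact (e1 (mem_univ z)).trans (e2 (mem_univ z))
  · filter_upwards [sm_eq_of_wph κ hn hb hb1 hv.int hK.isOpen_compl h
      (isClosed_nb (r := b) hK).isOpen_compl fun z hz _ => closedBall_subset_of_notMem_nb hz,
      sm_eq_of_wph κ hn hb2 hb3 h1.int (isClosed_nb hK).isOpen_compl h2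
      (isClosed_nb (r := 2 * b) (isClosed_nb hK)).isOpen_compl
      fun z hz _ => closedBall_subset_of_notMem_nb hz] with z e1 e2 hz
    rw [e2 hz, e1 fun hz' => hz (subset_nb hb2.le hz')]

theorem stp_mono (hn : 1 ≤ n) (hF : IsLift d F) (hd : 1 ≤ d) (κ : Ker n) {b : ℝ} (hb : 0 < b)
    (hb' : b ≤ 1 / 4) {g g' : E n → ℝ} (hg : LocallyIntegrable g) (hg' : LocallyIntegrable g')
    (h : g ≤ᵐ[volume] g') {z : E n} (hz : z ≠ 0) : stp κ b d F g z ≤ stp κ b d F g' z := by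
  have hb1 : b < 1 := by linarith
  have i1 := push_locInt hF hd 1 hg
  have i2 := push_locInt hF hd 1 hg'
  refine sm_mono κ (by linarith) (sm_locInt κ hn hb hb1 i1) (sm_locInt κ hn hb hb1 i2) hz ?_
  filter_upwards [Fix1_ae_ne hn] with y hy _
  refine sm_mono κ hb i1 i2 hy ?_
  filter_upwards [push_mono hF hd 1 h] with q hq _ using hq

/-- The push-forward of a smooth potential supported in `D` is pluriharmonic off `closure (F '' D)`
(`pair_tr_eq_zero`). -/
theorem push_wph (hn : 1 ≤ n) (hF : IsLift d F) (hd : 1 ≤ d) {p : E n → ℝ} (hp : SPot p)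
    (h : ∀ z, z ≠ 0 → z ∉ D → hess p z = 0) : WPh (push d F 1 p) (closure (F '' D))ᶜ := by
  intro ψ hψ _ hs v
  have e : push d F 1 p = fun q => ((d : ℝ) ^ (n - 1))⁻¹ * tr F p q := funext (push_one d F p)
  rw [e, pair_const_mul, pair_tr_eq_zero hn hF hd (hp.isPot hn).int hp.smooth hψ, mul_zero]
  intro z hz
  refine h z ?_ fun hD => hs hz (subset_closure (mem_image_of_mem F hD))
  rintro rfl
  rw [hF.zero hd] at hz
  exact hψ.2.2 hz

/-- If `g = u` almost everywhere off `D`, then the push-forwards agree off `F '' D` (`ae_fib`). -/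
theorem push_congr_off (hF : IsLift d F) {g : E n → ℝ} (h : ∀ᵐ z, z ∉ D → g z = u z) :
    ∀ᵐ q, q ∉ F '' D → push d F 1 g q = push d F 1 u q := by
  filter_upwards [ae_fib hF h] with q hq hq'
  rw [push_one, push_one]
  congr 1
  exact finsum_mem_congr rfl fun w hw => hq w hw fun hD => hq' ⟨w, hD, hw⟩

/-- Dominated convergence through the three operations (`tr_tendsto`, `sm_tendsto` twice; the
dominating functions are `|push g₀| + |push g₁|` and then `|sm (push g₀)| + |sm (push g₁)|`, by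
monotonicity). -/
theorem stp_tendsto (hn : 1 ≤ n) (hF : IsLift d F) (hd : 1 ≤ d) (κ : Ker n) {b : ℝ} (hb : 0 < b)
    (hb' : b ≤ 1 / 4) {gs : ℕ → E n → ℝ} {g g₀ g₁ : E n → ℝ} (hs : ∀ i, LocallyIntegrable (gs i))
    (h₀ : LocallyIntegrable g₀) (h₁ : LocallyIntegrable g₁)
    (hb₀ : ∀ i, g₀ ≤ᵐ[volume] gs i) (hb₁ : ∀ i, gs i ≤ᵐ[volume] g₁)
    (h : ∀ᵐ z, Tendsto (fun i => gs i z) atTop (𝓝 (g z))) :
    LocallyIntegrable g ∧
    (∀ ψ, IsTest ψ → ∀ v, Tendsto (fun i => pair (gs i) ψ v) atTop (𝓝 (pair g ψ v))) ∧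
    ∀ z, z ≠ 0 → Tendsto (fun i => stp κ b d F (gs i) z) atTop (𝓝 (stp κ b d F g z)) := by
  have hb1 : b < 1 := by linarith
  have hB := Fix1_locInt h₀ h₁
  have hle : ∀ i, ∀ᵐ z, |gs i z| ≤ |g₀ z| + |g₁ z| := fun i => by
    filter_upwards [hb₀ i, hb₁ i] with z e1 e2 using Fix1_abs_le e1 e2
  refine ⟨hB.mono (aestronglyMeasurable_of_tendsto_ae atTop
    (fun i => (hs i).aestronglyMeasurable) h) ?_, fun ψ hψ v => ?_, fun z hz => ?_⟩
  · filter_upwards [ae_all_iff.2 hle, h] with z e1 e2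
    exact (le_of_tendsto' e2.abs e1).trans (le_abs_self _)
  · refine tendsto_integral_of_dominated_convergence
      (fun z => ‖(|g₀ z| + |g₁ z|) * levi ψ z v‖)
      (fun i => ((hψ.isCC_levi v).integrable_mul (hs i)).aestronglyMeasurable)
      ((hψ.isCC_levi v).integrable_mul hB).norm (fun i => ?_) ?_
    · filter_upwards [hle i] with z e
      rw [norm_mul, norm_mul]
      exact mul_le_mul_of_nonneg_right (e.trans (le_abs_self _)) (norm_nonneg _)
    · filter_upwards [h] with z e using e.mul_const _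
  have i0 := push_locInt hF hd 1 h₀
  have i1 := push_locInt hF hd 1 h₁
  have i2 := fun i => push_locInt hF hd 1 (hs i)
  have m0 := fun i => push_mono hF hd 1 (hb₀ i)
  have m1 := fun i => push_mono hF hd 1 (hb₁ i)
  have hl : ∀ᵐ q, Tendsto (fun i => push d F 1 (gs i) q) atTop (𝓝 (push d F 1 g q)) := by
    filter_upwards [tr_tendsto hF hd h] with q e
    simp only [push_one]
    exact e.const_mul _
  refine sm_tendsto κ (by linarith)
    (fun i => (sm_locInt κ hn hb hb1 (i2 i)).aestronglyMeasurable)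
    (Fix1_locInt (sm_locInt κ hn hb hb1 i0) (sm_locInt κ hn hb hb1 i1)) (fun i => ?_) ?_ hz
  · filter_upwards [Fix1_ae_ne hn] with y hy
    refine Fix1_abs_le (sm_mono κ hb i0 (i2 i) hy ?_) (sm_mono κ hb (i2 i) i1 hy ?_)
    · filter_upwards [m0 i] with q hq _ using hq
    · filter_upwards [m1 i] with q hq _ using hq
  · filter_upwards [Fix1_ae_ne hn] with y hy
    refine sm_tendsto κ hb (fun i => (i2 i).aestronglyMeasurable) (Fix1_locInt i0 i1)
      (fun i => ?_) hl hy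
    filter_upwards [m0 i, m1 i] with q e1 e2 using Fix1_abs_le e1 e2

end Pool.Agent.Lib.MP_a47f92_an
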