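import Pool.Agent.Lib.MP_a47f92_an.Fix1

set_option autoImplicit false
set_option linter.unusedSectionVars false

/-! Existence of the fixed point. -/

namespace Pool.Agent.Lib.MP_a47f92_an

open MeasureTheory Filter Topology Set Complex Metric Function
open scoped ContDiff ComplexConjugate ComplexOrder Matrix ENNReal NNReal

variable {n : ℕ}

variable {d : ℕ} {F : E n → E n} {D : Set (E n)} {u : E n → ℝ}

theorem Fix2_ae_ne (hn : 1 ≤ n) : ∀ᵐ z : E n, z ≠ 0 := by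
  have : Nonempty (Fin n) := ⟨⟨0, hn⟩⟩
  exact compl_mem_ae_iff.2 (measure_singleton (0 : E n))

/-- One step of the iteration. -/
theorem Fix2_step (hn : 1 ≤ n) (κ : Ker n) {b : ℝ} (hb : 0 < b) (hb' : b ≤ 1 / 4)
    {K : Set (E n)} (hK : IsClosed K) (hKD : F '' D ⊆ K) {g : E n → ℝ}
    (h1 : IsPot (push d F 1 g)) (h2 : WPh (push d F 1 g) Kᶜ)
    (h3 : ∀ᵐ q, q ∉ F '' D → push d F 1 g q = u q) :
    (SPot (stp κ b d F g) ∧
      (∀ z, z ≠ 0 → z ∉ nb (2 * b) (nb b K) → hess (stp κ b d F g) z = 0) ∧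
      ∀ᵐ z, z ∉ nb (2 * b) (nb b K) → stp κ b d F g z = u z) ∧
    ∀ᵐ z, push d F 1 g z ≤ stp κ b d F g z := by
  obtain ⟨k1, k2, k3, k4⟩ := sm_sm_props hn κ hb hb' hK h1 h2
  refine ⟨⟨k1, k3, ?_⟩, k2⟩
  filter_upwards [k4, h3] with z hz hz' hz2
  have : z ∉ F '' D := fun h => hz2 (subset_nb (by linarith) (subset_nb hb.le (hKD h)))
  exact (hz hz2).trans (hz' this)

theorem Fix2_bound {p : E n → ℝ} (hp : XHom 1 p) {M : ℝ} (h : ∀ x, ‖x‖ = 1 → p x ≤ M) {z : E n}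
    (hz : z ≠ 0) : p z ≤ M + Real.log ‖z‖ := by
  have h0 : ‖z‖ ≠ 0 := norm_ne_zero_iff.2 hz
  have h1 : ((‖z‖⁻¹ : ℝ) : ℂ) ≠ 0 := by exact_mod_cast inv_ne_zero h0
  have h2 := hp _ h1 z hz
  have h3 : ‖((‖z‖⁻¹ : ℝ) : ℂ)‖ = ‖z‖⁻¹ := by
    rw [Complex.norm_real, norm_inv, norm_norm]
  have h4 := h (((‖z‖⁻¹ : ℝ) : ℂ) • z) (by rw [norm_smul, h3, inv_mul_cancel₀ h0])
  rw [h3, Real.log_inv] at h2
  linarith

/-- Let `K₀` be given by `hs`, `K = K₀ ∪ closure (F '' D)`, `b` from `exists_radius`,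
`K₂ = nb (2 b) (nb b K)`, and `φ i = (stp κ b d F)^[i + 1] u`. By induction (`sm_sm_props`,
`SPot.push_isPot`, `push_wph`, `push_congr_off`; for the first step `push d F 1 u = u` almost
everywhere): `φ i` is a smooth potential, `hess (φ i) = 0` off `K₂`, `φ i = u` almost everywhere off
`K₂`, `u ≤ φ 0` and `φ i ≤ φ (i + 1)` off the origin (`stp_mono`). The open cone `K₂ᶜ` contains a
ball `ball y r` with `‖y‖ = 1`, so `mean_lower` bounds `φ i` on the sphere: `φ i z ≤ C + log ‖z‖`.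
Let `φ z = ⨆ i, φ i z`. By `stp_tendsto`, `φ = stp κ b d F φ` off the origin, so `φ` is smooth there
(`sm_contDiffOn`); it is `XHom 1`, weakly plurisubharmonic and weakly pluriharmonic off `K₂` as a
limit. -/
theorem exists_fixed (hn : 2 ≤ n) (hF : IsLift d F) (hd : 1 ≤ d) (hD : Trap F D)
    (hne : ∃ z, z ≠ 0 ∧ z ∉ D) (hu : IsPot u) (hs : SuppIn u D)
    (hN : ∀ᵐ q, tr F (fun _ => 1) q = ((d ^ n : ℕ) : ℝ)) (hfix : ∀ᵐ q, push d F 1 u q = u q)
    (κ : Ker n) : ∃ (b : ℝ) (φ : E n → ℝ), 0 < b ∧ b ≤ 1 / 4 ∧ SPot φ ∧ SuppIn φ D ∧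
      (∀ᵐ z, u z ≤ φ z) ∧ ∀ z, z ≠ 0 → φ z = stp κ b d F φ z := by
  have hn1 : 1 ≤ n := by omega
  obtain ⟨K₀, hK₀, hK₀c, hK₀D, hK₀p⟩ := hs
  set K := K₀ ∪ closure (F '' D) with hKdef
  have hK : IsClosed K := hK₀.union isClosed_closure
  have hKc : IsCone K := fun c hc z hz => hz.elim (fun h => Or.inl (hK₀c c hc z h))
    fun h => Or.inr ((hF.cone_image hd hD.cone).closure c hc z h)
  have hKD : K \ {0} ⊆ D := fun z hz => hz.1.elim (fun h => hK₀D ⟨h, hz.2⟩)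
    fun h => hD.trap ⟨h, hz.2⟩
  have hFK : F '' D ⊆ K := subset_closure.trans subset_union_right
  obtain ⟨b, hb, hb', hbD⟩ := exists_radius hK hKc hD.op hD.cone hKD
  set K₂ := nb (2 * b) (nb b K) with hK₂def
  have hK₂ : IsClosed K₂ := isClosed_nb (isClosed_nb hK)
  have hK₂c : IsCone K₂ := isCone_nb (isCone_nb hKc)
  have hoff : ∀ z, z ≠ 0 → z ∉ D → z ∉ K₂ := fun z hz hz' h => hz' (hbD ⟨h, hz⟩)
  have hae := Fix2_ae_ne hn1
  have hpc : ∀ ψ v, pair (push d F 1 u) ψ v = pair u ψ v := fun ψ v =>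
    pair_congr (hfix.mono fun z hz _ => hz)
  have h0 := Fix2_step (D := D) (u := u) hn1 κ hb hb' hK hFK (g := u)
    (IsPot.of (push_locInt hF hd 1 hu.int) (push_lhom hn1 hF hd hN hu.lhom)
      fun ψ h1 h2 _ v => by rw [hpc]; exact hu.psh ψ h1 h2 v)
    (fun ψ h1 _ h3 v => by
      rw [hpc]
      exact hK₀p ψ h1 (Set.disjoint_left.2 fun z hz hz' => h3 hz (Or.inl hz')) v)
    (hfix.mono fun z hz _ => hz)
  set φ : ℕ → E n → ℝ := fun i => (stp κ b d F)^[i + 1] u with hφdef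
  have hsucc : ∀ i, φ (i + 1) = stp κ b d F (φ i) := fun i => iterate_succ_apply' _ _ _
  have hQ : ∀ i, SPot (φ i) ∧ (∀ z, z ≠ 0 → z ∉ K₂ → hess (φ i) z = 0) ∧
      ∀ᵐ z, z ∉ K₂ → φ i z = u z := by
    intro i
    induction i with
    | zero => exact h0.1
    | succ i ih =>
      obtain ⟨i1, i2, i3⟩ := ih
      rw [hsucc]
      refine (Fix2_step (D := D) (u := u) hn1 κ hb hb' hK hFK (i1.push_isPot hn1 hF hd hN)
        ((push_wph (D := D) hn1 hF hd i1 fun z hz hz' => i2 z hz (hoff z hz hz')).mono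
          (compl_subset_compl.2 subset_union_right)) ?_).1
      have h1 : ∀ᵐ z, z ∉ D → φ i z = u z := by
        filter_upwards [i3, hae] with z hz hz0 hz' using hz (hoff z hz0 hz')
      filter_upwards [push_congr_off hF h1, hfix] with q hq hq' hq2 using (hq hq2).trans hq'
  have hint : ∀ i, LocallyIntegrable (φ i) := fun i => ((hQ i).1.isPot hn1).int
  have hu0 : u ≤ᵐ[volume] φ 0 := by
    filter_upwards [h0.2, hfix] with z hz hz'
    rw [← hz']; exact hz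
  have hstep : ∀ i z, z ≠ 0 → φ i z ≤ φ (i + 1) z := by
    intro i
    induction i with
    | zero => exact fun z hz => stp_mono hn1 hF hd κ hb hb' hu.int (hint 0) hu0 hz
    | succ i ih =>
      intro z hz
      rw [hsucc (i + 1)]
      conv_lhs => rw [hsucc i]
      exact stp_mono hn1 hF hd κ hb hb' (hint i) (hint (i + 1)) (hae.mono ih) hz
  have hmono : ∀ z, z ≠ 0 → Monotone fun i => φ i z := fun z hz =>
    monotone_nat_of_le_succ fun i => hstep i z hz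
  obtain ⟨M, hM⟩ : ∃ M, ∀ i x, ‖x‖ = 1 → φ i x ≤ M := by
    obtain ⟨z₀, hz₀, hz₀D⟩ := hne
    have h1 : ‖z₀‖ ≠ 0 := norm_ne_zero_iff.2 hz₀
    have h2 : ((‖z₀‖ : ℝ) : ℂ) ≠ 0 := by exact_mod_cast h1
    set y : E n := ((‖z₀‖ : ℝ) : ℂ)⁻¹ • z₀ with hy
    have hy1 : ‖y‖ = 1 := by
      rw [hy, norm_smul, norm_inv, Complex.norm_real, norm_norm, inv_mul_cancel₀ h1]
    have hy2 : y ∉ K₂ := fun h => hoff z₀ hz₀ hz₀D (by
      have := hK₂c _ h2 y h
      rwa [hy, smul_inv_smul₀ h2] at this)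
    obtain ⟨ε, hε, hball⟩ := Metric.isOpen_iff.1 hK₂.isOpen_compl y hy2
    obtain ⟨C, -, hC⟩ := mean_lower hn
    refine ⟨(⨍ q in ball y (min ε 1), u q) + C * (1 + Real.log (min ε 1)⁻¹), fun i x hx => ?_⟩
    have h3 := hC _ (hQ i).1 x y hx hy1 (min ε 1) (lt_min hε one_pos) (min_le_right _ _)
    have h4 : ⨍ q in ball y (min ε 1), φ i q = ⨍ q in ball y (min ε 1), u q := by
      refine setAverage_congr_fun measurableSet_ball ?_
      filter_upwards [(hQ i).2.2] with z hz hz'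
      exact hz (hball (ball_subset_ball (min_le_left _ _) hz'))
    linarith
  have hup : ∀ i z, z ≠ 0 → φ i z ≤ M + Real.log ‖z‖ := fun i z hz =>
    Fix2_bound (hQ i).1.hom (hM i) hz
  have hbdd : ∀ z, z ≠ 0 → BddAbove (range fun i => φ i z) := fun z hz =>
    ⟨_, forall_mem_range.2 fun i => hup i z hz⟩
  set Φ : E n → ℝ := fun z => ⨆ i, φ i z with hΦ
  have hlim : ∀ z, z ≠ 0 → Tendsto (fun i => φ i z) atTop (𝓝 (Φ z)) := fun z hz =>
    tendsto_atTop_ciSup (hmono z hz) (hbdd z hz)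
  obtain ⟨t1, t2, t3⟩ := stp_tendsto hn1 hF hd κ hb hb' (g := Φ) (g₀ := φ 0)
    (g₁ := fun z => M + Real.log ‖z‖) hint (hint 0)
    ((locallyIntegrable_const M).add (locInt_log hn1))
    (fun i => hae.mono fun z hz => hmono z hz (Nat.zero_le i))
    (fun i => hae.mono fun z hz => hup i z hz) (hae.mono hlim)
  have hfx : ∀ z, z ≠ 0 → Φ z = stp κ b d F Φ z := by
    intro z hz
    have h1 := (hlim z hz).comp (tendsto_add_atTop_nat 1)
    refine tendsto_nhds_unique h1 ((t3 z hz).congr fun i => ?_)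
    simp only [Function.comp, hsucc]
  have hsm : ContDiffOn ℝ ∞ Φ {0}ᶜ :=
    (sm_contDiffOn κ (by linarith : 0 < 2 * b)
      (sm_locInt κ hn1 hb (by linarith) (push_locInt hF hd 1 t1))).congr fun z hz => hfx z hz
  refine ⟨b, Φ, hb, hb', ⟨hsm, fun a ha z hz => ?_, fun z hz v => ?_⟩,
    ⟨K₂, hK₂, hK₂c, hbD, fun ψ hψ hdis v => ?_⟩, ?_, hfx⟩
  · refine tendsto_nhds_unique (hlim _ (smul_ne_zero ha hz))
      (((hlim z hz).add_const _).congr fun i => ?_)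
    exact ((hQ i).1.hom a ha z hz).symm
  · refine levi_nonneg_of_wpsh isOpen_univ (by rwa [← compl_eq_univ_sdiff])
      (fun ψ h1 h2 _ v => ?_) (mem_univ z) hz v
    exact ge_of_tendsto' (t2 ψ h1 v) fun i => ((hQ i).1.isPot hn1).psh ψ h1 h2 v
  · refine tendsto_nhds_unique (t2 ψ hψ v) (tendsto_const_nhds.congr fun i => ?_)
    exact (pair_eq_zero_of_hess (hQ i).1.smooth hψ (fun z hz => (hQ i).2.1 z
      (fun h => hψ.2.2 (h ▸ hz)) (Set.disjoint_left.1 hdis hz)) v).symm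
  · filter_upwards [hu0, hae] with z hz hz0
    exact hz.trans (le_ciSup (hbdd z hz0) 0)

end Pool.Agent.Lib.MP_a47f92_an
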