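import Pool.Agent.Lib.MP_a47f92_an.Fix1

set_option autoImplicit false
set_option linter.unusedSectionVars false

/-! The support of the attracting current and the counting estimate. -/

namespace Pool.Agent.Lib.MP_a47f92_an

open MeasureTheory Filter Topology Set Complex Metric Function
open scoped ContDiff ComplexConjugate ComplexOrder Matrix ENNReal NNReal

variable {n : ℕ}

variable {d : ℕ} {F : E n → E n} {D : Set (E n)} {u φ : E n → ℝ}

/-- The points near which `v` is weakly pluriharmonic. -/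
def phSet (v : E n → ℝ) : Set (E n) := {z | z ≠ 0 ∧ ∃ N, IsOpen N ∧ z ∈ N ∧ WPh v N}

theorem isOpen_phSet (v : E n → ℝ) : IsOpen (phSet v) := by
  rw [isOpen_iff_forall_mem_open]
  rintro z ⟨hz, N, hN, hzN, hw⟩
  refine ⟨{0}ᶜ ∩ N, ?_, isOpen_compl_singleton.inter hN, hz, hzN⟩
  rintro y ⟨hy, hyN⟩
  exact ⟨hy, N, hN, hyN, hw⟩

theorem isCone_phSet {v : E n → ℝ} (hv : IsPot v) : IsCone (phSet v) := by
  rintro c hc z ⟨hz, N, hN, hzN, hw⟩
  refine ⟨smul_ne_zero hc hz, (fun z => c • z) '' N, isOpenMap_smul₀ hc N hN, ⟨z, hzN, rfl⟩, ?_⟩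
  exact WPh.smul hv.int hv.lhom hw hc

/-- If `F z ∈ O = phSet (push d F 1 φ)` then `hess φ = 0` near `z` (`hess_eq_zero_of_tr`), so `φ` is
weakly pluriharmonic near `z`, and `wph_of_sm` twice gives `z ∈ O`. -/
theorem phSet_back (hn : 1 ≤ n) (hF : IsLift d F) (hd : 1 ≤ d)
    (hN : ∀ᵐ q, tr F (fun _ => 1) q = ((d ^ n : ℕ) : ℝ)) (κ : Ker n) {b : ℝ} (hb : 0 < b)
    (hb' : b ≤ 1 / 4) (hφ : SPot φ) (hfix : ∀ z, z ≠ 0 → φ z = stp κ b d F φ z) {z : E n}
    (hz : F z ∈ phSet (push d F 1 φ)) : hess φ z = 0 ∧ z ∈ phSet (push d F 1 φ) := by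
  obtain ⟨hz0, N, hNo, hzN, hw⟩ := hz
  have hd0 : (0 : ℝ) < d := by exact_mod_cast hd
  have hz1 : z ≠ 0 := by
    rintro rfl
    exact hz0 (hF.zero hd)
  have hr : (Reg F).Nonempty :=
    reg_nonempty_of_tr hF hd (by exact_mod_cast (pow_pos (by omega : 0 < d) n).ne') hN
  have htr : WPh (tr F φ) N := by
    intro ψ h1 h2 h3 v
    have h4 := hw ψ h1 h2 h3 v
    have h5 : push d F 1 φ = fun q => ((d : ℝ) ^ (n - 1))⁻¹ * tr F φ q :=
      funext fun q => push_one d F φ q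
    rw [h5, pair_const_mul] at h4
    exact (mul_eq_zero.1 h4).resolve_left (inv_ne_zero (pow_pos hd0 _).ne')
  have hh : ∀ y, y ≠ 0 → F y ∈ N → hess φ y = 0 := fun y hy hy' =>
    hess_eq_zero_of_tr hn hF hd hr hφ hNo htr hy hy'
  have hw1 : IsPot (push d F 1 φ) := hφ.push_isPot hn hF hd hN
  have hw2 : IsPot (sm κ b (push d F 1 φ)) := (IsPot.sm_spot κ hn hb (by linarith) hw1).isPot hn
  have h3 : WPh (sm κ (2 * b) (sm κ b (push d F 1 φ))) (F ⁻¹' N) := by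
    intro ψ h1 _ h3 v
    have h0 : ∀ y ∈ tsupport ψ, y ≠ 0 := fun y hy h => h1.2.2 (h ▸ hy)
    rw [← pair_eq_zero_of_hess hφ.smooth h1 (fun y hy => hh y (h0 y hy) (h3 hy)) v]
    exact pair_congr (Eventually.of_forall fun y hy => (hfix y (h0 y hy)).symm)
  have h4 : WPh (sm κ b (push d F 1 φ)) (F ⁻¹' N) :=
    wph_of_sm κ hn (by linarith) (by linarith) hw2.int (hw2.wpsh univ) h3
  have h5 : WPh (push d F 1 φ) (F ⁻¹' N) :=
    wph_of_sm κ hn hb (by linarith) hw1.int (hw1.wpsh univ) h4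
  exact ⟨hh z hz1 hzN, hz1, F ⁻¹' N, hNo.preimage hF.differentiable.continuous, hzN, h5⟩

/-- For a test function supported in `O`, `pair (push d F m φ) ψ v = 0` for `m ≥ 1`
(`pair_tr_eq_zero` for `F^[m]`, `phSet_back` iterated). -/
theorem wph_phSet (hn : 1 ≤ n) (hF : IsLift d F) (hd : 1 ≤ d)
    (hN : ∀ᵐ q, tr F (fun _ => 1) q = ((d ^ n : ℕ) : ℝ)) (κ : Ker n) {b : ℝ} (hb : 0 < b)
    (hb' : b ≤ 1 / 4) (hφ : SPot φ) (hfix : ∀ z, z ≠ 0 → φ z = stp κ b d F φ z)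
    (hs : SuppIn φ D) (ha : Attracting d F D u) : WPh u (phSet (push d F 1 φ)) := by
  have key : ∀ (m : ℕ) (z : E n), F^[m + 1] z ∈ phSet (push d F 1 φ) →
      hess φ z = 0 ∧ z ∈ phSet (push d F 1 φ) := by
    intro m
    induction m with
    | zero => exact fun z hz => phSet_back hn hF hd hN κ hb hb' hφ hfix hz
    | succ m ih =>
      intro z hz
      rw [iterate_succ_apply] at hz
      exact phSet_back hn hF hd hN κ hb hb' hφ hfix (ih _ hz).2
  intro ψ h1 _ h3 v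
  have h4 := tendsto_div_of_cesaro (ha φ (hφ.isPot hn) hφ.smooth hs ψ h1 v)
  have h5 : ∀ m : ℕ, pair (push d F (m + 1) φ) ψ v = 0 := by
    intro m
    have h6 : push d F (m + 1) φ =
        fun q => ((d : ℝ) ^ ((n - 1) * (m + 1)))⁻¹ * tr F^[m + 1] φ q := rfl
    rw [h6, pair_const_mul, pair_tr_eq_zero hn (hF.iterate (m + 1)) (Nat.one_le_pow _ _ hd)
      (hφ.isPot hn).int hφ.smooth h1 (fun z hz => (key m z (h3 hz)).1) v, mul_zero]
  simp only [h5, Finset.sum_const_zero, mul_zero] at h4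
  exact (tendsto_nhds_unique tendsto_const_nhds h4).symm

end Pool.Agent.Lib.MP_a47f92_an
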