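import Pool.Agent.Lib.MP_a47f92_an.Lift

set_option autoImplicit false
set_option linter.unusedSectionVars false

/-! The approximants of the Green function; the map on the sphere. -/

namespace Pool.Agent.Lib.MP_a47f92_an

open MeasureTheory Filter Topology Set Complex Metric Function
open scoped ContDiff ComplexConjugate ComplexOrder Matrix ENNReal NNReal

variable {n : ℕ}

variable {d : ℕ} {F : E n → E n}

theorem GreenA_two : (2 : WithTop ℕ∞) ≤ ((⊤ : ℕ∞) : WithTop ℕ∞) :=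
  WithTop.coe_le_coe.2 (le_top (a := (2 : ℕ∞)))

theorem green_add (d : ℕ) (F : E n → E n) (m j : ℕ) (z : E n) :
    green d F (m + j) z = ((d : ℝ) ^ j)⁻¹ * green d F m (F^[j] z) := by
  simp only [green, iterate_add_apply, pow_add, mul_inv]
  ring

/-- `|green (m + 1) z - green m z| ≤ C / d ^ (m + 1)` from `IsLift.bounds`. -/
theorem green_bound (hF : IsLift d F) (hd : 2 ≤ d) :
    ∃ C : ℝ, 0 ≤ C ∧ ∀ m z, z ≠ 0 → |green d F m z - Real.log ‖z‖| ≤ C := by
  obtain ⟨c, C, hc, hC, h⟩ := hF.bounds (by omega)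
  have hd' : (2 : ℝ) ≤ d := by exact_mod_cast hd
  have hM : ∀ z : E n, z ≠ 0 →
      |Real.log ‖F z‖ - d * Real.log ‖z‖| ≤ |Real.log c| + |Real.log C| := by
    intro z hz
    have hz' : 0 < ‖z‖ := norm_pos_iff.2 hz
    have hp : 0 < ‖z‖ ^ d := pow_pos hz' d
    have h1 := Real.log_le_log (mul_pos hc hp) (h z).1
    have h2 := Real.log_le_log (norm_pos_iff.2 (hF.ne hz)) (h z).2
    rw [Real.log_mul hc.ne' hp.ne', Real.log_pow] at h1
    rw [Real.log_mul hC.ne' hp.ne', Real.log_pow] at h2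
    rw [abs_le]
    constructor
    · linarith [neg_abs_le (Real.log c), abs_nonneg (Real.log C)]
    · linarith [le_abs_self (Real.log C), abs_nonneg (Real.log c)]
  set M := |Real.log c| + |Real.log C| with hMd
  have hM0 : 0 ≤ M := by positivity
  refine ⟨M, hM0, fun m => ?_⟩
  induction m with
  | zero => intro z _; simpa [green] using hM0
  | succ m ih =>
    intro z hz
    have hd0 : (0 : ℝ) < d := by linarith
    have h1 := ih (F z) (hF.ne hz)
    have h2 := hM z hz
    have h3 : green d F (m + 1) z - Real.log ‖z‖ = (d : ℝ)⁻¹ *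
        ((green d F m (F z) - Real.log ‖F z‖) + (Real.log ‖F z‖ - d * Real.log ‖z‖)) := by
      rw [green_add, pow_one, iterate_one]
      field_simp
      ring
    rw [h3, abs_mul, abs_of_pos (inv_pos.2 hd0), inv_mul_le_iff₀ hd0]
    refine (abs_add_le _ _).trans ?_
    nlinarith

/-- `levi_comp` and `spot_log`. -/
theorem green_spot (hF : IsLift d F) (hd : 1 ≤ d) (m : ℕ) : SPot (green d F m) := by
  have hG := hF.iterate m
  have hd0 : (0 : ℝ) < (d : ℝ) ^ m := pow_pos (by exact_mod_cast hd) m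
  refine ⟨?_, fun a ha z hz => ?_, fun z hz v => ?_⟩
  · exact contDiffOn_const.mul
      (contDiffOn_log.comp hG.contDiffR.contDiffOn fun z hz => hG.ne hz)
  · simp only [green]
    rw [hG.hom, norm_smul, norm_pow, Real.log_mul (pow_ne_zero _ (norm_ne_zero_iff.2 ha))
      (norm_ne_zero_iff.2 (hG.ne hz)), Real.log_pow]
    push_cast
    field_simp
    ring
  · have h1 : levi (green d F m) z v = ((d : ℝ) ^ m)⁻¹ *
        levi (fun w => Real.log ‖F^[m] w‖) z v := levi_const_mul _ _ z v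
    have h2 := levi_comp (ψ := fun w : E n => Real.log ‖w‖) (Φ := F^[m]) (z := z)
      (hG.contDiff.contDiffAt.of_le GreenA_two)
      ((contDiffOn_log.contDiffAt (isOpen_compl_singleton.mem_nhds (hG.ne hz))).of_le
        GreenA_two) v
    rw [h1, h2]
    exact mul_nonneg (inv_pos.2 hd0).le (spot_log.psh _ (hG.ne hz) _)

theorem hess_green_add (hF : IsLift d F) (hd : 1 ≤ d) (m j : ℕ) {z : E n} (hz : z ≠ 0) :
    hess (green d F (m + j)) z = ((((d : ℝ) ^ j)⁻¹ : ℝ) : ℂ) •
      cong (cmat (fderiv ℂ F^[j] z)) (hess (green d F m) (F^[j] z)) := by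
  have hG := hF.iterate j
  have h1 : green d F (m + j) = fun w => ((d : ℝ) ^ j)⁻¹ * green d F m (F^[j] w) :=
    funext (green_add d F m j)
  rw [h1, hess_const_mul, hess_comp (hG.contDiff.contDiffAt.of_le GreenA_two)
    (((green_spot hF hd m).smooth.contDiffAt
      (isOpen_compl_singleton.mem_nhds (hG.ne hz))).of_le GreenA_two)]

theorem hess_normSq_comp (hF : IsLift d F) (z : E n) :
    hess (fun w => ‖F w‖ ^ 2) z = cong (cmat (fderiv ℂ F z)) 1 := by
  rw [hess_comp (ψ := fun w : E n => ‖w‖ ^ 2)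
    (hF.contDiff.contDiffAt.of_le GreenA_two)
    (contDiff_normSq.contDiffAt.of_le GreenA_two), hess_normSq]

theorem qf_hess_normSq_comp (hF : IsLift d F) (z : E n) :
    qf (hess (fun w => ‖F w‖ ^ 2) z) z = (((d : ℝ) ^ 2 * ‖F z‖ ^ 2 : ℝ) : ℂ) := by
  rw [hess_normSq_comp hF, qf_cong, qf_one, hF.euler, norm_smul, mul_pow, Complex.norm_natCast]

/-- If `‖F ^ j x‖ ∈ [1 / 2, 2]` then all intermediate points have comparable norm:
`green (j - i) (F ^ i x) = log ‖F ^ j x‖ / d ^ (j - i)`. -/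
theorem orbit_bound (hF : IsLift d F) (hd : 2 ≤ d) : ∃ b B : ℝ, 0 < b ∧ 0 < B ∧
    ∀ j x, 1 / 2 ≤ ‖F^[j] x‖ → ‖F^[j] x‖ ≤ 2 → ∀ i ≤ j, b ≤ ‖F^[i] x‖ ∧ ‖F^[i] x‖ ≤ B := by
  obtain ⟨C, hC, h⟩ := green_bound hF hd
  refine ⟨Real.exp (-(C + 1)), Real.exp (C + 1), Real.exp_pos _, Real.exp_pos _,
    fun j x h1 h2 i hi => ?_⟩
  obtain ⟨m, rfl⟩ := Nat.exists_eq_add_of_le' hi
  rw [iterate_add_apply] at h1 h2
  have hy : F^[i] x ≠ 0 := by
    intro h0
    rw [h0, (hF.iterate m).zero (Nat.one_le_pow _ _ (by omega)), norm_zero] at h1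
    norm_num at h1
  have h3 := h m _ hy
  have hl2 : Real.log 2 ≤ 1 := by
    have := Real.log_le_sub_one_of_pos (show (0 : ℝ) < 2 by norm_num)
    linarith
  have h4 : |Real.log ‖F^[m] (F^[i] x)‖| ≤ 1 := by
    have h5 := Real.log_le_log (by norm_num) h1
    have h6 := Real.log_le_log (by linarith) h2
    rw [one_div, Real.log_inv] at h5
    rw [abs_le]
    constructor <;> linarith
  have hd1 : (1 : ℝ) ≤ (d : ℝ) ^ m := one_le_pow₀ (by exact_mod_cast (by omega : 1 ≤ d))
  have h5 : |green d F m (F^[i] x)| ≤ 1 := by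
    rw [green, abs_mul, abs_of_pos (inv_pos.2 (by linarith))]
    exact mul_le_one₀ (inv_le_one_of_one_le₀ hd1) (abs_nonneg _) h4
  have hp : 0 < ‖F^[i] x‖ := norm_pos_iff.2 hy
  rw [abs_le] at h3 h5
  rw [← Real.le_log_iff_exp_le hp, ← Real.log_le_iff_le_exp hp]
  constructor <;> linarith [h3.1, h3.2, h5.1, h5.2]

/-- `F` is `K`-Lipschitz on the ball of radius `B + 1`; induction on `i ≤ j`. -/
theorem iterate_lip (hF : IsLift d F) (B : ℝ) : ∃ K : ℝ, 1 ≤ K ∧ ∀ j x z,
    (∀ i ≤ j, ‖F^[i] x‖ ≤ B) → ‖z - x‖ ≤ (K ^ j)⁻¹ → ‖F^[j] z - F^[j] x‖ ≤ K ^ j * ‖z - x‖ := by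
  obtain ⟨K₀, hK₀⟩ := ContDiffOn.exists_lipschitzOnWith (s := closedBall (0 : E n) (B + 1))
    hF.contDiffR.contDiffOn (by simp) (convex_closedBall _ _) (isCompact_closedBall _ _)
  refine ⟨max 1 K₀, le_max_left _ _, fun j x z hx hz => ?_⟩
  set K : ℝ := max 1 K₀ with hK
  have hK1 : 1 ≤ K := le_max_left _ _
  have key : ∀ i ≤ j, ‖F^[i] z - F^[i] x‖ ≤ K ^ i * ‖z - x‖ := by
    intro i
    induction i with
    | zero => intro _; simp
    | succ i ih =>
      intro hi
      have h1 := ih (by omega)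
      have h2 : K ^ i * ‖z - x‖ ≤ 1 := by
        calc K ^ i * ‖z - x‖ ≤ K ^ j * (K ^ j)⁻¹ :=
              mul_le_mul (pow_le_pow_right₀ hK1 (by omega)) hz (norm_nonneg _) (by positivity)
          _ = 1 := mul_inv_cancel₀ (by positivity)
      have h3 := hx i (by omega)
      have h4 : F^[i] x ∈ closedBall (0 : E n) (B + 1) := by
        rw [mem_closedBall_zero_iff]
        linarith
      have h5 : F^[i] z ∈ closedBall (0 : E n) (B + 1) := by
        rw [mem_closedBall_zero_iff]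
        have := norm_le_insert' (F^[i] z) (F^[i] x)
        linarith
      have h6 := hK₀.dist_le_mul _ h5 _ h4
      rw [dist_eq_norm, dist_eq_norm] at h6
      rw [iterate_succ_apply', iterate_succ_apply']
      calc _ ≤ (K₀ : ℝ) * ‖F^[i] z - F^[i] x‖ := h6
        _ ≤ K * (K ^ i * ‖z - x‖) :=
            mul_le_mul (le_max_right _ _) h1 (norm_nonneg _) (by positivity)
        _ = _ := by ring
  exact key j le_rfl

end Pool.Agent.Lib.MP_a47f92_an
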