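import Pool.Agent.Lib.MP_a47f92_an.Sm3A

set_option autoImplicit false
set_option linter.unusedSectionVars false

/-! The smoothing operator increases plurisubharmonic functions. -/

namespace Pool.Agent.Lib.MP_a47f92_an

open MeasureTheory Filter Topology Set Complex Metric Function
open scoped ContDiff ComplexConjugate ComplexOrder Matrix ENNReal NNReal

variable {n : ℕ}

variable (κ : Ker n) {r : ℝ} {g p : E n → ℝ} {z : E n} {Ω Ω' K D : Set (E n)}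

theorem nb_mono {r' : ℝ} {K' : Set (E n)} (hr : r ≤ r') (h : K ⊆ K') : nb r K ⊆ nb r' K' := by
  rintro z ⟨y, hy, h1⟩
  exact ⟨y, h hy, h1.trans (mul_le_mul_of_nonneg_right hr (norm_nonneg z))⟩

theorem subset_nb (hr : 0 ≤ r) : K ⊆ nb r K := by
  intro z hz
  exact ⟨z, hz, by rw [sub_self, norm_zero]; positivity⟩

theorem isClosed_nb (hK : IsClosed K) : IsClosed (nb r K) := by
  refine IsSeqClosed.isClosed fun x z hx hz => ?_
  choose y hy h using hx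
  obtain ⟨C, hC⟩ := hz.norm.bddAbove_range
  have hb : ∀ i, y i ∈ K ∩ closedBall 0 (C + |r| * C) := fun i => ⟨hy i, by
    have h1 : ‖x i‖ ≤ C := hC ⟨i, rfl⟩
    have h2 := norm_le_norm_add_norm_sub' (y i) (x i)
    have h3 : r * ‖x i‖ ≤ |r| * C := mul_le_mul (le_abs_self r) h1 (norm_nonneg _) (abs_nonneg r)
    rw [mem_closedBall_zero_iff]
    linarith [h i]⟩
  obtain ⟨a, ha, φ, hφ, h1⟩ := ((isCompact_closedBall _ _).inter_left hK).tendsto_subseq hb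
  have h2 := hz.comp hφ.tendsto_atTop
  exact ⟨a, ha.1, le_of_tendsto_of_tendsto' (h1.sub h2).norm (h2.norm.const_mul r) fun i => h _⟩

theorem isCone_nb (hK : IsCone K) : IsCone (nb r K) := by
  rintro c hc z ⟨y, hy, h⟩
  refine ⟨c • y, hK c hc y hy, ?_⟩
  rw [← smul_sub, norm_smul, norm_smul, mul_left_comm]
  exact mul_le_mul_of_nonneg_left h (norm_nonneg c)

theorem closedBall_subset_of_notMem_nb (h : z ∉ nb r K) : closedBall z (r * ‖z‖) ⊆ Kᶜ := by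
  intro y hy hK
  exact h ⟨y, hK, mem_closedBall_iff_norm.1 hy⟩

/-- Compactness of `K ∩ sphere`. -/
theorem exists_nb_subset (hK : IsClosed K) (hc : IsCone K) (hD : IsOpen D) (hDc : IsCone D)
    (h : K \ {0} ⊆ D) : ∃ ρ : ℝ, 0 < ρ ∧ nb ρ K \ {0} ⊆ D := by
  obtain ⟨δ, hδ, hs⟩ := ((isCompact_sphere (0 : E n) 1).inter_left hK).exists_cthickening_subset_open
    hD fun y hy => h ⟨hy.1, fun h0 => by
      have := mem_sphere_zero_iff_norm.1 hy.2
      rw [mem_singleton_iff.1 h0, norm_zero] at this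
      exact zero_ne_one this⟩
  refine ⟨min (1 / 2) (δ / 2), by positivity, ?_⟩
  rintro z ⟨⟨y, hy, h1⟩, h0⟩
  have hz : 0 < ‖z‖ := norm_pos_iff.2 h0
  have h2 := h1.trans (mul_le_mul_of_nonneg_right (min_le_left _ _) hz.le)
  have h3 := h1.trans (mul_le_mul_of_nonneg_right (min_le_right _ _) hz.le)
  have h4 := norm_le_norm_add_norm_sub y z
  have h5 : 0 < ‖y‖ := by linarith
  have h6 : ((‖y‖ : ℝ) : ℂ) ≠ 0 := by exact_mod_cast h5.ne'
  have h7 : ‖((‖y‖ : ℝ) : ℂ)⁻¹‖ = ‖y‖⁻¹ := by simp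
  have h8 : ((‖y‖ : ℝ) : ℂ)⁻¹ • z ∈ D := by
    refine hs (mem_cthickening_of_dist_le _ (((‖y‖ : ℝ) : ℂ)⁻¹ • y) _ _
      ⟨hc _ (inv_ne_zero h6) y hy, ?_⟩ ?_)
    · rw [mem_sphere_zero_iff_norm, norm_smul, h7, inv_mul_cancel₀ h5.ne']
    · rw [dist_comm, dist_eq_norm, ← smul_sub, norm_smul, h7, inv_mul_le_iff₀ h5]
      nlinarith
  simpa [smul_smul, mul_inv_cancel₀ h6] using hDc _ h6 _ h8

theorem hess_sm_eq_zero (hn : 1 ≤ n) (hr : 0 < r) (hr1 : r < 1) (hg : LocallyIntegrable g)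
    (hK : IsClosed K) (h : WPh g Kᶜ) (hz : z ≠ 0) (hz' : z ∉ nb r K) : hess (sm κ r g) z = 0 := by
  exact hess_eq_zero_of_wph (isClosed_nb hK).isOpen_compl
    ((sm_contDiffOn κ hr hg).mono fun _ hy => hy.2)
    (sm_wph κ hn hr hr1 hg h fun _ hy _ => closedBall_subset_of_notMem_nb hy) hz' hz

theorem suppIn_of_hess (hp : ContDiffOn ℝ ∞ p {0}ᶜ) (hK : IsClosed K) (hc : IsCone K)
    (hD : K \ {0} ⊆ D) (h : ∀ z, z ≠ 0 → z ∉ K → hess p z = 0) : SuppIn p D := by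
  exact ⟨K, hK, hc, hD, fun ψ hψ hd v => pair_eq_zero_of_hess hp hψ
    (fun z hz => h z (fun h0 => hψ.2.2 (h0 ▸ hz)) (disjoint_left.1 hd hz)) v⟩

end Pool.Agent.Lib.MP_a47f92_an
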