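import Pool.Agent.Lib.MP_a47f92_an.Pair

set_option autoImplicit false
set_option linter.unusedSectionVars false

/-! Basic properties of homogeneous lifts. -/

namespace Pool.Agent.Lib.MP_a47f92_an

open MeasureTheory Filter Topology Set Complex Metric Function
open scoped ContDiff ComplexConjugate ComplexOrder Matrix ENNReal NNReal

variable {n : ℕ}

variable {d : ℕ} {F : E n → E n}

theorem IsLift.contDiff (hF : IsLift d F) : ContDiff ℂ ∞ F := by
  exact hF.an.contDiff

theorem IsLift.contDiffR (hF : IsLift d F) : ContDiff ℝ ∞ F := by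
  exact hF.contDiff.restrict_scalars ℝ

theorem IsLift.differentiable (hF : IsLift d F) : Differentiable ℂ F := by
  exact fun z => (hF.an z (mem_univ z)).differentiableAt

theorem IsLift.zero (hF : IsLift d F) (hd : 1 ≤ d) : F 0 = 0 := by
  have h := hF.hom 0 0
  rwa [zero_smul, zero_pow (by omega), zero_smul] at h

theorem IsLift.ne (hF : IsLift d F) {z : E n} (hz : z ≠ 0) : F z ≠ 0 := fun h => hz (hF.nz z h)

theorem IsLift.homR (hF : IsLift d F) (c : ℝ) (z : E n) : F (c • z) = c ^ d • F z := by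
  rw [← Complex.coe_smul, hF.hom, ← ofReal_pow, Complex.coe_smul]

theorem IsLift.comp {d' : ℕ} {G : E n → E n} (hF : IsLift d F) (hG : IsLift d' G) :
    IsLift (d * d') (F ∘ G) := by
  refine ⟨hF.an.comp hG.an (mapsTo_univ _ _), fun c z => ?_, fun z hz => hG.nz z (hF.nz _ hz)⟩
  rw [comp_apply, comp_apply, hG.hom, hF.hom, ← pow_mul, mul_comm]

theorem IsLift.iterate (hF : IsLift d F) (m : ℕ) : IsLift (d ^ m) F^[m] := by
  induction m with
  | zero => exact ⟨analyticOnNhd_id, fun c z => by simp, fun _ h => h⟩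
  | succ m ih => exact ih.comp hF

theorem IsLift.bounds (hF : IsLift d F) (hd : 1 ≤ d) : ∃ c C : ℝ, 0 < c ∧ 0 < C ∧
    ∀ z, c * ‖z‖ ^ d ≤ ‖F z‖ ∧ ‖F z‖ ≤ C * ‖z‖ ^ d := by
  have hc := hF.contDiff.continuous.norm.continuousOn (s := sphere (0 : E n) 1)
  obtain ⟨c, hc0, h1⟩ := (isCompact_sphere (0 : E n) 1).exists_forall_le' hc (a := 0)
    fun x hx => norm_pos_iff.2 (hF.ne (ne_zero_of_mem_unit_sphere ⟨x, hx⟩))
  obtain ⟨C, h2⟩ := (isCompact_sphere (0 : E n) 1).exists_bound_of_continuousOn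
    hF.contDiff.continuous.continuousOn
  refine ⟨c, max C 1, hc0, lt_max_of_lt_right one_pos, fun z => ?_⟩
  rcases eq_or_ne z 0 with rfl | hz
  · simp [hF.zero hd, zero_pow (show d ≠ 0 by omega)]
  have h0 := norm_pos_iff.2 hz
  have h3 : ‖z‖⁻¹ • z ∈ sphere (0 : E n) 1 := by simp [norm_smul, h0.ne']
  have h4 : ‖F z‖ = ‖F (‖z‖⁻¹ • z)‖ * ‖z‖ ^ d := by
    rw [hF.homR, norm_smul, norm_pow, norm_inv, norm_norm, inv_pow]
    field_simp
  rw [h4]
  exact ⟨mul_le_mul_of_nonneg_right (h1 _ h3) (by positivity),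
    mul_le_mul_of_nonneg_right ((h2 _ h3).trans (le_max_left _ _)) (by positivity)⟩

theorem IsLift.isCompact_preimage (hF : IsLift d F) (hd : 1 ≤ d) {K : Set (E n)}
    (hK : IsCompact K) : IsCompact (F ⁻¹' K) := by
  obtain ⟨c, C, hc, -, h⟩ := hF.bounds hd
  obtain ⟨R, hR⟩ := hK.isBounded.exists_norm_le
  refine isCompact_of_isClosed_isBounded (hK.isClosed.preimage hF.contDiff.continuous)
    (isBounded_iff_forall_norm_le.2 ⟨max 1 (R / c), fun z hz => ?_⟩)
  rcases le_total ‖z‖ 1 with h1 | h1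
  · exact le_max_of_le_left h1
  · refine le_max_of_le_right ((le_self_pow₀ h1 (show d ≠ 0 by omega)).trans ?_)
    rw [le_div_iff₀' hc]
    exact (h z).1.trans (hR _ hz)

theorem IsLift.euler (hF : IsLift d F) (z : E n) : fderiv ℂ F z z = (d : ℂ) • F z := by
  have h1 : HasDerivAt (fun c : ℂ => F (c • z)) (fderiv ℂ F z z) 1 := by
    have h2 := (hF.differentiable ((1 : ℂ) • z)).hasFDerivAt.comp_hasDerivAt (1 : ℂ)
      ((hasDerivAt_id (1 : ℂ)).smul_const z)
    simp only [one_smul] at h2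
    exact h2
  simp only [hF.hom] at h1
  simpa using h1.unique ((hasDerivAt_pow d (1 : ℂ)).smul_const (F z))

theorem IsLift.fderiv_smul (hF : IsLift d F) (hd : 1 ≤ d) {c : ℂ} (hc : c ≠ 0) (z : E n) :
    fderiv ℂ F (c • z) = c ^ (d - 1) • fderiv ℂ F z := by
  have h1 : HasFDerivAt (fun w => F (c • w)) _ z :=
    (hF.differentiable (c • z)).hasFDerivAt.comp z ((hasFDerivAt_id z).const_smul c)
  simp only [hF.hom] at h1
  have h2 := h1.unique ((hF.differentiable z).hasFDerivAt.const_smul (c ^ d))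
  refine smul_right_injective _ hc ?_
  simp only
  rw [smul_smul, ← pow_succ', Nat.sub_add_cancel hd, ← h2]
  ext1 v
  simp

theorem IsLift.tsupport_comp (hF : IsLift d F) (ψ : E n → ℝ) :
    tsupport (fun z => ψ (F z)) ⊆ F ⁻¹' tsupport ψ := by
  exact closure_minimal (fun z hz => subset_tsupport ψ hz)
    ((isClosed_tsupport ψ).preimage hF.contDiff.continuous)

theorem IsLift.test_comp (hF : IsLift d F) (hd : 1 ≤ d) {ψ : E n → ℝ} (hψ : IsTest ψ) :
    IsTest fun z => ψ (F z) := by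
  refine ⟨hψ.1.comp hF.contDiffR, (hF.isCompact_preimage hd hψ.2.1).of_isClosed_subset
    (isClosed_tsupport _) (hF.tsupport_comp ψ), fun h => hψ.2.2 ?_⟩
  simpa [hF.zero hd] using hF.tsupport_comp ψ h

theorem IsLift.cc_comp (hF : IsLift d F) (hd : 1 ≤ d) {h : E n → ℝ} (hh : IsCC h) :
    IsCC fun z => h (F z) := by
  refine ⟨hh.1.comp hF.contDiff.continuous, (hF.isCompact_preimage hd hh.2.1).of_isClosed_subset
    (isClosed_tsupport _) (hF.tsupport_comp h), fun h0 => hh.2.2 ?_⟩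
  simpa [hF.zero hd] using hF.tsupport_comp h h0

/-- Every nonzero complex number is a `d`-th power. -/
theorem IsLift.cone_image (hF : IsLift d F) (hd : 1 ≤ d) {D : Set (E n)} (hD : IsCone D) :
    IsCone (F '' D) := by
  rintro c hc _ ⟨w, hw, rfl⟩
  obtain ⟨b, rfl⟩ := IsAlgClosed.exists_pow_nat_eq c (show 0 < d from hd)
  exact ⟨b • w, hD b (ne_zero_pow (by omega) hc) w hw, hF.hom b w⟩

theorem IsCone.closure {D : Set (E n)} (hD : IsCone D) : IsCone (closure D) := by
  exact fun c hc z hz => map_mem_closure (continuous_const_smul c) hz (hD c hc)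

theorem IsLift.continuous_jac (hF : IsLift d F) : Continuous (jac F) := by
  exact (ContinuousLinearMap.continuous_det.comp
    (hF.contDiff.continuous_fderiv (by simp))).norm.pow 2

theorem IsLift.isOpen_reg (hF : IsLift d F) : IsOpen (Reg F) := by
  exact isOpen_ne_fun (ContinuousLinearMap.continuous_det.comp
    (hF.contDiff.continuous_fderiv (by simp))) continuous_const

theorem IsLift.cone_reg (hF : IsLift d F) (hd : 1 ≤ d) : IsCone (Reg F) := by
  intro c hc z hz
  change LinearMap.det (fderiv ℂ F (c • z) : E n →ₗ[ℂ] E n) ≠ 0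
  rw [hF.fderiv_smul hd hc, ContinuousLinearMap.toLinearMap_smul, LinearMap.det_smul]
  exact mul_ne_zero (pow_ne_zero _ (pow_ne_zero _ hc)) hz

end Pool.Agent.Lib.MP_a47f92_an
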