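import Pool.Agent.Lib.MP_a47f92_an.LiftA

set_option autoImplicit false
set_option linter.unusedSectionVars false

/-! Basic properties of homogeneous lifts. -/

namespace Pool.Agent.Lib.MP_a47f92_an

open MeasureTheory Filter Topology Set Complex Metric Function
open scoped ContDiff ComplexConjugate ComplexOrder Matrix ENNReal NNReal

variable {n : ℕ}

variable {d : ℕ} {F : E n → E n}

theorem Lift_det_comp (S T : E n →L[ℂ] E n) : (S.comp T).det = S.det * T.det := by
  rw [← cmat_det, cmat_comp, Matrix.det_mul, cmat_det, cmat_det]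

theorem IsLift.mem_reg_comp {d' : ℕ} {G : E n → E n} (hF : IsLift d F) (hG : IsLift d' G)
    (z : E n) : z ∈ Reg (F ∘ G) ↔ G z ∈ Reg F ∧ z ∈ Reg G := by
  simp only [Reg, mem_ofPred_eq]
  rw [fderiv_comp z (hF.differentiable _) (hG.differentiable _), Lift_det_comp, mul_ne_zero_iff]

theorem IsLift.mem_reg_iterate (hF : IsLift d F) (m : ℕ) (z : E n) :
    z ∈ Reg F^[m] ↔ ∀ i < m, F^[i] z ∈ Reg F := by
  induction m with
  | zero =>
    simp only [Reg, mem_ofPred_eq, iterate_zero, fderiv_id, Nat.not_lt_zero, false_imp_iff,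
      implies_true, iff_true]
    rw [← cmat_det, cmat_id, Matrix.det_one]
    exact one_ne_zero
  | succ m ih =>
    rw [iterate_succ', hF.mem_reg_comp (hF.iterate m), ih, Nat.forall_lt_succ_right, and_comm]

/-- `z ↦ det (fderiv F z) = (cmat (fderiv F z)).det` is analytic (`AnalyticOnNhd.fderiv`,
`Matrix.det_apply`); identity theorem `AnalyticOnNhd.eq_of_eventuallyEq`. -/
theorem IsLift.dense_reg (hF : IsLift d F) (h : (Reg F).Nonempty) : Dense (Reg F) := by
  have ha : AnalyticOnNhd ℂ (fun z => (fderiv ℂ F z).det) univ := by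
    simp only [← cmat_det, Matrix.det_apply']
    refine Finset.analyticOnNhd_fun_sum _ fun σ _ => analyticOnNhd_const.mul
      (Finset.analyticOnNhd_fun_prod _ fun i _ => ?_)
    exact ((EuclideanSpace.proj (σ i) : E n →L[ℂ] ℂ).comp
      (ContinuousLinearMap.apply ℂ (E n) (ev i))).comp_analyticOnNhd hF.an.fderiv
  intro z
  by_contra hz
  obtain ⟨w, hw⟩ := h
  refine hw (congrFun (ha.eq_of_eventuallyEq (g := fun _ => 0) (z₀ := z) analyticOnNhd_const ?_) w)
  filter_upwards [isClosed_closure.isOpen_compl.mem_nhds hz] with y hy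
  exact not_not.1 fun h0 => hy (subset_closure h0)

theorem exists_equiv_of_det {T : E n →L[ℂ] E n} (h : T.det ≠ 0) :
    ∃ T' : E n ≃L[ℂ] E n, (T' : E n →L[ℂ] E n) = T := by
  exact ⟨T.toContinuousLinearEquivOfDetNeZero h, T.coe_toContinuousLinearEquivOfDetNeZero h⟩

/-- Local inverse at a regular point (`ContDiffAt.toOpenPartialHomeomorph`). -/
theorem IsLift.exists_local (hF : IsLift d F) {z : E n} (hz : z ∈ Reg F) :
    ∃ e : OpenPartialHomeomorph (E n) (E n), z ∈ e.source ∧ (e : E n → E n) = F := by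
  obtain ⟨T, hT⟩ := exists_equiv_of_det hz
  have h1 : HasFDerivAt F (T : E n →L[ℂ] E n) z := hT ▸ (hF.differentiable z).hasFDerivAt
  have h2 : ContDiffAt ℂ 1 F z := (hF.an z (mem_univ z)).contDiffAt
  exact ⟨h2.toOpenPartialHomeomorph F h1 one_ne_zero,
    h2.mem_toOpenPartialHomeomorph_source h1 one_ne_zero, rfl⟩

/-- A point of the image of a differentiable section is regular (chain rule). -/
theorem IsLift.mem_reg_of_section (hF : IsLift d F) {H : E n → E n} {q : E n} {c : ℂ} (hc : c ≠ 0)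
    (hH : DifferentiableAt ℂ H q) (h : ∀ᶠ q' in 𝓝 q, F (H q') = c • q') : H q ∈ Reg F := by
  have h1 : HasFDerivAt (F ∘ H) (c • ContinuousLinearMap.id ℂ (E n)) q :=
    ((hasFDerivAt_id q).const_smul c).congr_of_eventuallyEq h
  have h2 := h1.fderiv
  rw [fderiv_comp q (hF.differentiable _) hH] at h2
  have h3 := congrArg ContinuousLinearMap.det h2
  rw [Lift_det_comp] at h3
  intro h0
  rw [h0, zero_mul, ContinuousLinearMap.det, ContinuousLinearMap.toLinearMap_smul,
    LinearMap.det_smul,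
    ContinuousLinearMap.coe_id, LinearMap.det_id, mul_one] at h3
  exact pow_ne_zero _ hc h3.symm

/-- Uniqueness of lifts: the set where `g₁ = g₂` is open and closed in `s`. -/
theorem IsLift.lift_unique (hF : IsLift d F) {s : Set (E n)} (hs : IsPreconnected s)
    {g₁ g₂ : E n → E n} (h₁ : ContinuousOn g₁ s) (h₂ : ContinuousOn g₂ s)
    (hr : ∀ q ∈ s, g₁ q ∈ Reg F) (he : ∀ q ∈ s, F (g₁ q) = F (g₂ q)) {a : E n} (ha : a ∈ s)
    (h : g₁ a = g₂ a) : EqOn g₁ g₂ s := by
  have := isPreconnected_iff_preconnectedSpace.1 hs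
  have c₁ := continuousOn_iff_continuous_domRestrict.1 h₁
  have c₂ := continuousOn_iff_continuous_domRestrict.1 h₂
  have hc : IsClopen {q : s | g₁ q = g₂ q} := by
    refine ⟨isClosed_eq c₁ c₂, isOpen_iff_mem_nhds.2 fun q hq => ?_⟩
    obtain ⟨e, he1, he2⟩ := hF.exists_local (hr q q.2)
    have h3 : g₂ q ∈ e.source := (show g₁ q = g₂ q from hq) ▸ he1
    filter_upwards [c₁.continuousAt.preimage_mem_nhds (e.open_source.mem_nhds he1),
      c₂.continuousAt.preimage_mem_nhds (e.open_source.mem_nhds h3)] with y y1 y2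
    exact e.injOn y1 y2 (by rw [he2]; exact he y y.2)
  intro q hq
  have h4 := hc.eq_univ ⟨⟨a, ha⟩, h⟩
  exact (h4 ▸ mem_univ _ : (⟨q, hq⟩ : s) ∈ {q : s | g₁ q = g₂ q})

end Pool.Agent.Lib.MP_a47f92_an
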