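import Pool.Agent.Lib.MP_a47f92_an.Coc3

set_option autoImplicit false
set_option linter.unusedSectionVars false

/-! The shadowing hypothesis on the sphere. -/

namespace Pool.Agent.Lib.MP_a47f92_an

open MeasureTheory Filter Topology Set Complex Metric Function
open scoped ContDiff ComplexConjugate ComplexOrder Matrix ENNReal NNReal

variable {n : ℕ}

variable {d : ℕ} {F : E n → E n} {μ νS : Measure (Sph n)}

theorem dist_normalise {x v : E n} (hx : ‖x‖ = 1) (hv : v ≠ 0) : ‖‖v‖⁻¹ • v - x‖ ≤ 2 * ‖v - x‖ := by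
  have hv' : 0 < ‖v‖ := norm_pos_iff.2 hv
  have h1 : ‖‖v‖⁻¹ • v - v‖ ≤ ‖v - x‖ := by
    have e : ‖v‖⁻¹ • v - v = (‖v‖⁻¹ - 1) • v := by rw [sub_smul, one_smul]
    have e2 : ‖(‖v‖⁻¹ - 1) • v‖ = |‖x‖ - ‖v‖| := by
      rw [norm_smul, Real.norm_eq_abs, hx]
      have : (1 : ℝ) - ‖v‖ = (‖v‖⁻¹ - 1) * ‖v‖ := by field_simp
      rw [this, abs_mul, abs_of_pos hv']
    rw [e, e2, norm_sub_rev]
    exact abs_norm_sub_norm_le x v
  calc ‖‖v‖⁻¹ • v - x‖ = ‖(‖v‖⁻¹ • v - v) + (v - x)‖ := by congr 1; abel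
    _ ≤ ‖‖v‖⁻¹ • v - v‖ + ‖v - x‖ := norm_add_le _ _
    _ ≤ 2 * ‖v - x‖ := by linarith

theorem Geo_coe_smul (t : ℝ) (z : E n) : ((t : ℝ) : ℂ) • z = t • z := by
  ext i
  simp

theorem Geo_reg_smul {D : ℕ} {G : E n → E n} (hG : IsLift D G) (hD : 1 ≤ D) {t : ℝ} (ht : t ≠ 0)
    {z : E n} (hz : z ∈ Reg G) : t • z ∈ Reg G := by
  rw [← Geo_coe_smul]
  exact hG.cone_reg hD _ (by exact_mod_cast ht) z hz

/-- Properties of the shadowing point `a = ‖h y'‖⁻¹ • h y'` for `y'` in the ball. -/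
theorem NB.shadow {D : ℕ} {G : E n → E n} (hG : IsLift D G) {J : ℕ} {x y' : Sph n} {r L : ℝ}
    {h : E n → E n} (hD : 1 ≤ D) (hb : NB G J x r L h) (hy : (y' : E n) ∈ ball (nm G^[J] x) r) :
    ∃ a : Sph n, (∃ t : ℝ, 0 < t ∧ (a : E n) = t • h y') ∧ (sf G)^[J] a = y' ∧
      (a : E n) ∈ Reg G^[J] ∧
      ∀ i ≤ J, dist ((sf G)^[i] a) ((sf G)^[i] x) ≤ 2 * L * dist y' ((sf G)^[J] x) := by
  have hGJ := hG.iterate J
  have hDJ : 1 ≤ D ^ J := Nat.one_le_pow _ _ hD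
  have hx0 : G^[J] (x : E n) ≠ 0 := hGJ.ne (sph_ne x)
  have hx1 : 0 < ‖G^[J] (x : E n)‖ := norm_pos_iff.2 hx0
  have hinv := hb.inv _ hy
  have h0 : h y' ≠ 0 := by
    intro h0
    rw [h0, hGJ.zero hDJ] at hinv
    exact smul_ne_zero hx1.ne' (sph_ne y') hinv.symm
  have h1 : 0 < ‖h y'‖ := norm_pos_iff.2 h0
  have hmem : ‖h y'‖⁻¹ • h y' ∈ sphere (0 : E n) 1 := by
    rw [mem_sphere_zero_iff_norm, norm_smul, norm_inv, norm_norm, inv_mul_cancel₀ h1.ne']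
  have hco : ∀ i, (((sf G)^[i] ⟨_, hmem⟩ : Sph n) : E n) = nm G^[i] (h y') := by
    intro i
    rw [coe_sf_iterate hG]
    exact nm_smul (hG.iterate i) (inv_pos.2 h1) _
  refine ⟨⟨_, hmem⟩, ⟨_, inv_pos.2 h1, rfl⟩, ?_, ?_, fun i hi => ?_⟩
  · apply Subtype.ext
    rw [hco, nm, hinv, norm_smul, norm_norm, sph_norm, mul_one, smul_smul,
      inv_mul_cancel₀ hx1.ne', one_smul]
  · refine Geo_reg_smul hGJ hDJ (inv_pos.2 h1).ne' ?_
    refine hGJ.mem_reg_of_section (c := ((‖G^[J] (x : E n)‖ : ℝ) : ℂ))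
      (by exact_mod_cast hx1.ne') ?_ ?_
    · exact (hb.smooth.contDiffAt (isOpen_ball.mem_nhds hy)).differentiableAt (by simp)
    · filter_upwards [isOpen_ball.mem_nhds hy] with q hq
      rw [hb.inv q hq, Geo_coe_smul]
  · have hi0 : G^[i] (x : E n) ≠ 0 := (hG.iterate i).ne (sph_ne x)
    have hi1 : 0 < ‖G^[i] (x : E n)‖ := norm_pos_iff.2 hi0
    have hi2 : G^[i] (h y') ≠ 0 := (hG.iterate i).ne h0
    have hv : ‖G^[i] (x : E n)‖⁻¹ • G^[i] (h y') ≠ 0 := smul_ne_zero (inv_pos.2 hi1).ne' hi2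
    have hn1 : ‖nm G^[i] (x : E n)‖ = 1 := by rw [← coe_sf_iterate hG]; exact sph_norm _
    have h2 := dist_normalise hn1 hv
    have e : ‖‖G^[i] (x : E n)‖⁻¹ • G^[i] (h y')‖⁻¹ • ‖G^[i] (x : E n)‖⁻¹ • G^[i] (h y') =
        nm G^[i] (h y') := by
      rw [nm, norm_smul, norm_inv, norm_norm, smul_smul]
      congr 1
      have := norm_pos_iff.2 hi2
      field_simp
    rw [e] at h2
    rw [Subtype.dist_eq, Subtype.dist_eq, dist_eq_norm, dist_eq_norm, hco, coe_sf_iterate hG,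
      coe_sf_iterate hG]
    have h3 := hb.lip _ hy i hi
    linarith

theorem Geo_point {D : ℕ} {G : E n → E n} (hG : IsLift D G) {J : ℕ} {x y' : Sph n} {r L R : ℝ}
    {h : E n → E n} (hD : 1 ≤ D) (hb : NB G J x r L h) (hR : 0 < R)
    (hy : dist y' ((sf G)^[J] x) + R ≤ r) :
    ∃ (a : Sph n) (H : E n → E n), ContDiffOn ℂ ∞ H (ball (y' : E n) R) ∧
      (∀ q ∈ ball (y' : E n) R, G^[J] (H q) = q) ∧ (∃ t : ℝ, 0 < t ∧ H y' = t • (a : E n)) ∧
      (∃ s : ℝ, 0 < s ∧ (x : E n) = s • H ((sf G)^[J] x : Sph n)) ∧ (sf G)^[J] a = y' ∧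
      (a : E n) ∈ Reg G^[J] ∧
      ∀ i ≤ J, dist ((sf G)^[i] a) ((sf G)^[i] x) ≤ 2 * L * dist y' ((sf G)^[J] x) := by
  have hGJ := hG.iterate J
  have hDJ : 1 ≤ D ^ J := Nat.one_le_pow _ _ hD
  have hx0 : G^[J] (x : E n) ≠ 0 := hGJ.ne (sph_ne x)
  have hx1 : 0 < ‖G^[J] (x : E n)‖ := norm_pos_iff.2 hx0
  have hsub : ball (y' : E n) R ⊆ ball (nm G^[J] x) r := by
    refine ball_subset_ball' ?_
    rw [← coe_sf_iterate hG, ← Subtype.dist_eq]
    linarith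
  obtain ⟨a, ⟨t, ht, hat⟩, h1, h2, h3⟩ := hb.shadow hG hD (hsub (mem_ball_self hR))
  obtain ⟨s, hs, hs'⟩ := exists_scale hDJ hx1
  refine ⟨a, fun q => s • h q, ?_, fun q hq => ?_, ⟨s / t, by positivity, ?_⟩,
    ⟨s⁻¹, inv_pos.2 hs, ?_⟩, h1, h2, h3⟩
  · have := (hb.smooth.mono hsub).const_smul ((s : ℝ) : ℂ)
    simpa only [Geo_coe_smul] using this
  · rw [hGJ.homR, hb.inv q (hsub hq), smul_smul, hs', one_smul]
  · beta_reduce
    rw [hat, smul_smul, div_mul_cancel₀ _ ht.ne']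
  · beta_reduce
    rw [coe_sf_iterate hG, hb.ctr, smul_smul, inv_mul_cancel₀ hs.ne', one_smul]

theorem Geo_unique {D : ℕ} {G : E n → E n} (hG : IsLift D G) (hD : 1 ≤ D) {y a : E n} {R : ℝ}
    (hR : 0 < R) (ha : a ≠ 0) {H H' : E n → E n} (h1 : ContDiffOn ℂ ∞ H (ball y R))
    (h1' : ContDiffOn ℂ ∞ H' (ball y R)) (h2 : ∀ q ∈ ball y R, G (H q) = q)
    (h2' : ∀ q ∈ ball y R, G (H' q) = q) {t t' : ℝ} (ht : 0 < t) (ht' : 0 < t')
    (h3 : H y = t • a) (h3' : H' y = t' • a) : EqOn H H' (ball y R) := by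
  have hy := mem_ball_self (x := y) hR
  have e : t ^ D • G a = t' ^ D • G a := by
    rw [← hG.homR, ← hG.homR, ← h3, ← h3', h2 y hy, h2' y hy]
  have e1 : t ^ D = t' ^ D := smul_left_injective ℝ (hG.ne ha) e
  have e2 : t = t' := (pow_left_inj₀ ht.le ht'.le (by omega)).1 e1
  refine hG.lift_unique (convex_ball y R).isPreconnected h1.continuousOn h1'.continuousOn
    (fun q hq => ?_) (fun q hq => by rw [h2 q hq, h2' q hq]) hy (by rw [h3, h3', e2])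
  refine hG.mem_reg_of_section (c := 1) one_ne_zero
    ((h1.contDiffAt (isOpen_ball.mem_nhds hq)).differentiableAt (by simp)) ?_
  filter_upwards [isOpen_ball.mem_nhds hq] with q' hq'
  rw [h2 q' hq', one_smul]

theorem Geo_pow {ρ τ C₁ : ℝ} (hρ : 0 < ρ) (hτ : 0 ≤ τ) (k : ℕ) (hk : 2 * (k : ℝ) ≤ C₁) :
    (ρ * Real.exp (-2 * τ))⁻¹ ^ k ≤ ρ⁻¹ ^ k * Real.exp (C₁ * τ) := by
  rw [mul_inv, mul_pow, ← Real.exp_neg, ← Real.exp_nat_mul]
  refine mul_le_mul_of_nonneg_left (Real.exp_le_exp.2 ?_) (by positivity)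
  nlinarith

/-- Take `S = RegI F`, `m` from `small_ell`, `G = F^[m]`, `ℓ = ell G`, `c` from `exists_nb`,
`C₁ = 2 (2 n + p)`. Given `δ`, `J`, `τ` let `R = min (c / 2) (δ / 2) (1 / 2) * exp (-2 τ)`,
`Y` a `c₀ R`-net (`exists_net`). For a good point `x` with branch `h` choose `y' ∈ Y` close to
`(sf G)^[J] x` and let `π x` be the point of `NB.shadow`. If `π x = π x' = p`, then `y'` is the same,
the rescaled branches `H`, `H'` of `F^[m J]` (`exists_scale`) agree at `y'` (both values are positive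
multiples of `p` with the same image), hence on `ball y' R` (`IsLift.lift_unique`), so `x'` belongs
to the set estimated in `Img` for `H`. -/
theorem geo_sphere [IsProbabilityMeasure μ] (hF : IsLift d F) (hd : 2 ≤ d)
    (hf : MeasurePreserving (sf F) μ μ) (hB : ∀ᵐ x ∂μ, x ∈ Bad F) {C : ℝ} (hC : 0 ≤ C)
    (hle : ∀ A, μ A ≤ ENNReal.ofReal C * νS A) (hI : Img d F νS) :
    Geo (sf F) {x | (x : E n) ∈ Reg F} μ ((d : ℝ) ^ (n - 1)) := by
  obtain ⟨c₀, CI, p, hc₀, hc₀1, hCI, hI⟩ := hI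
  obtain ⟨CN, hCN, hnet⟩ := exists_net n
  have hd1 : 1 ≤ d := by omega
  refine ⟨2 * (2 * n + p), RegI F, by positivity, hB.mono fun x hx => hx.1, fun ε hε => ?_⟩
  obtain ⟨m, hm, hint, hsm⟩ := small_ell hF hd hf hB hε
  have hG := hF.iterate m
  have hD : 1 ≤ d ^ m := Nat.one_le_pow _ _ hd1
  obtain ⟨c, hc, hnb⟩ := exists_nb hG hD
  refine ⟨m, ell F^[m], hm, measurable_ell hG, ell_nonneg _, hint, hsm, fun δ hδ => ?_⟩
  set ρ : ℝ := min (c / 2) (min (δ / 2) (1 / 2)) with hρ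
  have hρ0 : 0 < ρ := lt_min (by positivity) (lt_min (by positivity) (by norm_num))
  have hρ1 : ρ ≤ c / 2 := min_le_left _ _
  have hρ2 : ρ ≤ δ / 2 := (min_le_right _ _).trans (min_le_left _ _)
  have hρ3 : ρ ≤ 1 / 2 := (min_le_right _ _).trans (min_le_right _ _)
  refine ⟨CN * (c₀ * ρ)⁻¹ ^ (2 * n) + C * CI * m * ρ⁻¹ ^ p, fun J τ hτ => ?_⟩
  set R : ℝ := ρ * Real.exp (-2 * τ) with hR
  have hR0 : 0 < R := by positivity
  have he1 : Real.exp (-2 * τ) ≤ 1 := Real.exp_le_one_iff.2 (by linarith)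
  have hR1 : R ≤ 1 / 2 := by
    calc R ≤ ρ * 1 := mul_le_mul_of_nonneg_left he1 hρ0.le
      _ ≤ 1 / 2 := by linarith
  have hcR : c₀ * R ≤ R := by nlinarith
  obtain ⟨Y, hYc, hY⟩ := hnet (c₀ * R) (by positivity) (by linarith)
  have hsf : (sf F)^[m] = sf F^[m] := (sf_iterate hF m).symm
  have key : ∀ x : Sph n, ∃ a : Sph n, x ∈ RegI F →
      birkhoffSum (sf F)^[m] (ell F^[m]) J x ≤ τ → ∃ y' ∈ Y, ∃ H : E n → E n,
      dist ((sf F^[m])^[J] x) y' < c₀ * R ∧ ContDiffOn ℂ ∞ H (ball (y' : E n) R) ∧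
      (∀ q ∈ ball (y' : E n) R, (F^[m])^[J] (H q) = q) ∧ (∃ t : ℝ, 0 < t ∧ H y' = t • (a : E n)) ∧
      (∃ s : ℝ, 0 < s ∧ (x : E n) = s • H ((sf F^[m])^[J] x : Sph n)) ∧ (sf F^[m])^[J] a = y' ∧
      (a : E n) ∈ Reg (F^[m])^[J] ∧ ∀ i ≤ J, dist ((sf F^[m])^[i] a) ((sf F^[m])^[i] x) ≤ δ := by
    intro x
    by_cases hx : x ∈ RegI F ∧ birkhoffSum (sf F)^[m] (ell F^[m]) J x ≤ τ
    swap
    · exact ⟨x, fun h1 h2 => absurd ⟨h1, h2⟩ hx⟩
    obtain ⟨hx1, hx2⟩ := hx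
    rw [hsf] at hx2
    obtain ⟨h, hb⟩ := hnb J x (regI_iterate hF hd1 hx1 m)
    obtain ⟨y', hy', hdy⟩ := hY ((sf F^[m])^[J] x)
    set b := birkhoffSum (sf F^[m]) (ell F^[m]) J x with hbdef
    have hle2 : 2 * R ≤ c * Real.exp (-2 * b) := by
      calc 2 * R = (2 * ρ) * Real.exp (-2 * τ) := by rw [hR]; ring
        _ ≤ c * Real.exp (-2 * b) := by
          refine mul_le_mul (by linarith) (Real.exp_le_exp.2 (by linarith)) (by positivity) hc.le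
    obtain ⟨a, H, h1, h2, h3, h4, h5, h6, h7⟩ := Geo_point (y' := y') hG hD hb hR0
      (by rw [dist_comm]; linarith)
    refine ⟨a, fun _ _ => ⟨y', hy', H, hdy, h1, h2, h3, h4, h5, h6, fun i hi => ?_⟩⟩
    refine (h7 i hi).trans ?_
    rw [dist_comm] at hdy
    have e1 : Real.exp b * Real.exp (-2 * τ) ≤ 1 := by
      rw [← Real.exp_add]
      exact Real.exp_le_one_iff.2 (by linarith)
    calc 2 * Real.exp b * dist y' ((sf F^[m])^[J] x) ≤ 2 * Real.exp b * R :=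
          mul_le_mul_of_nonneg_left (by linarith) (by positivity)
      _ = (2 * ρ) * (Real.exp b * Real.exp (-2 * τ)) := by rw [hR]; ring
      _ ≤ δ * 1 := mul_le_mul (by linarith) e1 (by positivity) hδ.le
      _ = δ := mul_one δ
  choose π hπ using key
  have hA : 0 ≤ CN * (c₀ * ρ)⁻¹ ^ (2 * n) := by positivity
  have hA' : 0 ≤ C * CI * m * ρ⁻¹ ^ p := by positivity
  refine ⟨Y, π, ?_, fun x hx hx2 => ?_, fun q => ?_⟩
  · refine hYc.trans ?_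
    have h1 : (c₀ * R)⁻¹ ^ (2 * n) ≤
        (c₀ * ρ)⁻¹ ^ (2 * n) * Real.exp (2 * (2 * n + p) * τ) := by
      rw [hR, ← mul_assoc]
      refine Geo_pow (by positivity) hτ _ ?_
      push_cast
      have : (0 : ℝ) ≤ p := by positivity
      linarith
    calc CN * (c₀ * R)⁻¹ ^ (2 * n)
        ≤ CN * ((c₀ * ρ)⁻¹ ^ (2 * n) * Real.exp (2 * (2 * n + p) * τ)) :=
          mul_le_mul_of_nonneg_left h1 hCN
      _ = CN * (c₀ * ρ)⁻¹ ^ (2 * n) * Real.exp (2 * (2 * n + p) * τ) := by ring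
      _ ≤ _ := mul_le_mul_of_nonneg_right (by linarith) (by positivity)
  · obtain ⟨y', hy', H, -, -, -, -, -, h5, h6, h7⟩ := hπ x hx hx2
    refine ⟨?_, fun i hi => ?_, fun i hi => ?_⟩
    · rw [Function.iterate_mul, hsf, h5]
      exact hy'
    · rw [← Function.iterate_mul, hF.mem_reg_iterate] at h6
      change (((sf F)^[i] (π x) : Sph n) : E n) ∈ Reg F
      rw [coe_sf_iterate hF, nm]
      refine Geo_reg_smul hF hd1 ?_ (h6 i hi)
      exact inv_ne_zero (norm_ne_zero_iff.2 ((hF.iterate i).ne (sph_ne _)))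
    · rw [Function.iterate_mul, hsf]
      exact h7 i hi.le
  · rcases Set.eq_empty_or_nonempty
      {x | x ∈ RegI F ∧ birkhoffSum (sf F)^[m] (ell F^[m]) J x ≤ τ ∧ π x = q} with h0 | ⟨x₀, hx₀⟩
    · rw [h0, measure_empty]
      exact bot_le
    obtain ⟨y₀, -, H₀, -, g1, g2, ⟨t₀, ht₀, g3⟩, -, g5, -, -⟩ := hπ x₀ hx₀.1 hx₀.2.1
    have hsub : {x | x ∈ RegI F ∧ birkhoffSum (sf F)^[m] (ell F^[m]) J x ≤ τ ∧ π x = q} ⊆
        {a : Sph n | ∃ z ∈ ball (y₀ : E n) (c₀ * R), ∃ t : ℝ, 0 < t ∧ (a : E n) = t • H₀ z} := by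
      intro x hx
      obtain ⟨y', -, H, h0, h1, h2, ⟨t, ht, h3⟩, ⟨s, hs, h4⟩, h5, -, -⟩ := hπ x hx.1 hx.2.1
      have e : y' = y₀ := by rw [← h5, ← g5, hx.2.2, hx₀.2.2]
      subst e
      rw [hx.2.2] at h3
      rw [hx₀.2.2] at g3
      have hEq := Geo_unique (hG.iterate J) (Nat.one_le_pow _ _ hD) hR0 (sph_ne q) h1 g1 h2 g2
        ht ht₀ h3 g3
      have hz : (((sf F^[m])^[J] x : Sph n) : E n) ∈ ball (y' : E n) (c₀ * R) := by
        rw [mem_ball, ← Subtype.dist_eq]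
        exact h0
      refine ⟨_, hz, s, hs, ?_⟩
      rw [← hEq (ball_subset_ball hcR hz)]
      exact h4
    have h1 := hI (m * J) y₀ R H₀ (sph_norm y₀) hR0 hR1 g1
      (fun z hz => by rw [Function.iterate_mul]; exact g2 z hz)
    refine (measure_mono hsub).trans ((hle _).trans ?_)
    refine (mul_le_mul_right h1 _).trans ?_
    rw [← ENNReal.ofReal_mul hC]
    refine ENNReal.ofReal_le_ofReal ?_
    rw [← mul_div_assoc]
    refine div_le_div_of_nonneg_right ?_ (by positivity)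
    have h2 : R⁻¹ ^ p ≤ ρ⁻¹ ^ p * Real.exp (2 * (2 * n + p) * τ) := by
      refine Geo_pow hρ0 hτ _ ?_
      have : (0 : ℝ) ≤ n := by positivity
      linarith
    have hm1 : (1 : ℝ) ≤ m := by exact_mod_cast hm
    have h3 : (1 : ℝ) + ((m * J : ℕ) : ℝ) ≤ m * (1 + J) := by
      push_cast
      linarith
    calc C * (CI * (1 + ((m * J : ℕ) : ℝ)) * R⁻¹ ^ p)
        ≤ C * (CI * (m * (1 + J)) * (ρ⁻¹ ^ p * Real.exp (2 * (2 * n + p) * τ))) := by
          gcongr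
      _ = C * CI * m * ρ⁻¹ ^ p * (1 + J) * Real.exp (2 * (2 * n + p) * τ) := by ring
      _ ≤ _ := by
          gcongr
          linarith

end Pool.Agent.Lib.MP_a47f92_an
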