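import Pool.Agent.Lib.MP_a47f92_an.GreenA

set_option autoImplicit false
set_option linter.unusedSectionVars false

/-! The approximants of the Green function; the map on the sphere. -/

namespace Pool.Agent.Lib.MP_a47f92_an

open MeasureTheory Filter Topology Set Complex Metric Function
open scoped ContDiff ComplexConjugate ComplexOrder Matrix ENNReal NNReal

variable {n : ℕ}

variable {d : ℕ} {F : E n → E n}

theorem sph_norm (x : Sph n) : ‖(x : E n)‖ = 1 := mem_sphere_zero_iff_norm.1 x.2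

theorem sph_ne (x : Sph n) : (x : E n) ≠ 0 :=
  norm_ne_zero_iff.1 (by rw [sph_norm]; exact one_ne_zero)

theorem coe_sf (hF : IsLift d F) (x : Sph n) : (sf F x : E n) = nm F x := by
  unfold sf
  rw [dif_neg (hF.ne (sph_ne x))]

theorem nm_smul (hF : IsLift d F) {t : ℝ} (ht : 0 < t) (z : E n) : nm F (t • z) = nm F z := by
  have h : t ^ d ≠ 0 := pow_ne_zero _ ht.ne'
  unfold nm
  rw [hF.homR, norm_smul, smul_smul, Real.norm_of_nonneg (pow_pos ht d).le, mul_inv_rev,
    mul_assoc, inv_mul_cancel₀ h, mul_one]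

theorem coe_sf_iterate (hF : IsLift d F) (m : ℕ) (x : Sph n) :
    ((sf F)^[m] x : E n) = nm F^[m] x := by
  induction m with
  | zero => simp [nm]
  | succ m ih =>
    have h : 0 < ‖F^[m] x‖⁻¹ := inv_pos.2 (norm_pos_iff.2 ((hF.iterate m).ne (sph_ne x)))
    rw [iterate_succ_apply', coe_sf hF, ih]
    show nm F (‖F^[m] x‖⁻¹ • F^[m] x) = _
    rw [nm_smul hF h]
    unfold nm
    rw [iterate_succ_apply']

theorem sf_iterate (hF : IsLift d F) (m : ℕ) : sf F^[m] = (sf F)^[m] := by
  funext x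
  exact Subtype.ext (by rw [coe_sf (hF.iterate m), coe_sf_iterate hF])

theorem continuous_sf (hF : IsLift d F) : Continuous (sf F) := by
  refine continuous_induced_rng.2 ?_
  have e : (Subtype.val ∘ sf F : Sph n → E n) = fun x : Sph n => ‖F x‖⁻¹ • F x :=
    funext fun x => coe_sf hF x
  have hc : Continuous fun x : Sph n => F x :=
    hF.differentiable.continuous.comp continuous_subtype_val
  rw [e]
  exact (hc.norm.inv₀ fun x => norm_ne_zero_iff.2 (hF.ne (sph_ne x))).smul hc

theorem regI_maps (F : E n → E n) : MapsTo (sf F) (RegI F) (RegI F) := by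
  intro x hx i
  exact hx (i + 1)

theorem measurableSet_regI (hF : IsLift d F) : MeasurableSet (RegI F) := by
  have e : RegI F = ⋂ i : ℕ, (fun x : Sph n => (((sf F)^[i] x : Sph n) : E n)) ⁻¹' Reg F := by
    ext x
    simp [RegI]
  rw [e]
  exact MeasurableSet.iInter fun i => (hF.isOpen_reg.preimage
    (continuous_subtype_val.comp ((continuous_sf hF).iterate i))).measurableSet

theorem mem_reg_iterate_of_regI (hF : IsLift d F) (hd : 1 ≤ d) {x : Sph n} (hx : x ∈ RegI F)
    (m : ℕ) : (x : E n) ∈ Reg F^[m] := by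
  rw [hF.mem_reg_iterate]
  intro i _
  have h : ‖F^[i] x‖ ≠ 0 := norm_ne_zero_iff.2 ((hF.iterate i).ne (sph_ne x))
  have h1 := hx i
  rw [coe_sf_iterate hF] at h1
  have h2 := hF.cone_reg hd (‖F^[i] x‖ : ℝ) (by exact_mod_cast h) _ h1
  rwa [Complex.coe_smul, nm, smul_smul, mul_inv_cancel₀ h, one_smul] at h2

theorem regI_iterate (hF : IsLift d F) (hd : 1 ≤ d) {x : Sph n} (hx : x ∈ RegI F) (m : ℕ) :
    x ∈ RegI F^[m] := by
  intro i
  rw [sf_iterate hF, ← iterate_mul]
  exact mem_reg_iterate_of_regI hF hd ((regI_maps F).iterate _ hx) m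

/-- Rescaling to an honest preimage: `t = ‖F z‖⁻¹ ^ (1 / d)`. -/
theorem exists_scale (hd : 1 ≤ d) {lam : ℝ} (h : 0 < lam) : ∃ t : ℝ, 0 < t ∧ t ^ d * lam = 1 := by
  refine ⟨lam⁻¹ ^ ((d : ℝ)⁻¹), Real.rpow_pos_of_pos (inv_pos.2 h) _, ?_⟩
  rw [Real.rpow_inv_natCast_pow (inv_pos.2 h).le (by omega), inv_mul_cancel₀ h.ne']

/-- The map on the sphere is a local homeomorphism at regular points. Injectivity: if
`sf F x = sf F x'` then `F x' = F (t • x)` with `t > 0` close to `1`, so `x' = t • x` and `t = 1`.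
Openness: normalise the local inverse of `F` at `‖F x‖ • y`. Fibres: rescale the points of `T` to
distinct regular preimages of `y` under `F`. -/
theorem locH_sf (hF : IsLift d F) (hd : 1 ≤ d) {L : ℕ}
    (hL : ∀ q (T : Finset (E n)), (∀ w ∈ T, w ∈ Reg F ∧ F w = q) → T.card ≤ L) :
    LocH (sf F) {x | (x : E n) ∈ Reg F} L := by
  classical
  have hc : Continuous fun x : Sph n => F x :=
    hF.differentiable.continuous.comp continuous_subtype_val
  have hp : ∀ x : Sph n, 0 < ‖F x‖⁻¹ := fun x => inv_pos.2 (norm_pos_iff.2 (hF.ne (sph_ne x)))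
  set t : Sph n → ℝ := fun x => ‖F x‖⁻¹ ^ ((d : ℝ)⁻¹) with ht
  have htp : ∀ x, 0 < t x := fun x => Real.rpow_pos_of_pos (hp x) _
  set g : Sph n → E n := fun x => t x • (x : E n) with hg
  have hgc : Continuous g :=
    ((hc.norm.inv₀ fun x => norm_ne_zero_iff.2 (hF.ne (sph_ne x))).rpow_const
      fun x => Or.inl (hp x).ne').smul continuous_subtype_val
  have hgn : ∀ x, ‖g x‖ = t x := fun x => by
    rw [hg, norm_smul, sph_norm, mul_one, Real.norm_of_nonneg (htp x).le]
  have hgx : ∀ x, ‖g x‖⁻¹ • g x = x := fun x => by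
    rw [hgn, hg, smul_smul, inv_mul_cancel₀ (htp x).ne', one_smul]
  have hgi : Injective g := fun x y h => Subtype.ext (by rw [← hgx x, h, hgx])
  have hFg : ∀ x, F (g x) = sf F x := fun x => by
    rw [hg, hF.homR, ht, Real.rpow_inv_natCast_pow (hp x).le (by omega), coe_sf hF]
    rfl
  have hgr : ∀ x : Sph n, (x : E n) ∈ Reg F → g x ∈ Reg F := fun x hx => by
    have h2 := hF.cone_reg hd (t x : ℝ) (by exact_mod_cast (htp x).ne') _ hx
    rwa [Complex.coe_smul] at h2
  refine ⟨continuous_sf hF, hF.isOpen_reg.preimage continuous_subtype_val, ?_, ?_, ?_⟩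
  · intro x hx
    obtain ⟨e, he, heF⟩ := hF.exists_local (hgr x hx)
    refine ⟨g ⁻¹' e.source, hgc.continuousAt.preimage_mem_nhds (e.open_source.mem_nhds he), ?_⟩
    intro a ha b hb hab
    refine hgi (e.injOn ha hb ?_)
    rw [heF, hFg, hFg, hab]
  · intro x hx U hU
    obtain ⟨e, he, heF⟩ := hF.exists_local (hgr x hx)
    have h1 : (sf F x : E n) ∈ e.target := by
      rw [← hFg, ← heF]
      exact e.map_source he
    have h2 : e.symm (sf F x) = g x := by
      rw [← hFg, ← heF]
      exact e.left_inv he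
    have hV : ∀ᶠ y : Sph n in 𝓝 (sf F x), (y : E n) ∈ e.target :=
      continuous_subtype_val.continuousAt.preimage_mem_nhds (e.open_target.mem_nhds h1)
    have h3 : ∀ y : Sph n, (y : E n) ∈ e.target → F (e.symm y) = y := fun y hy => by
      rw [← heF]
      exact e.right_inv hy
    have h4 : ∀ y : Sph n, (y : E n) ∈ e.target → e.symm y ≠ 0 := fun y hy h0 => by
      have := h3 y hy
      rw [h0, hF.zero hd] at this
      exact sph_ne y this.symm
    have h5 : ∀ y : Sph n, (y : E n) ∈ e.target →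
        (sf e.symm y : E n) = ‖e.symm y‖⁻¹ • e.symm y := fun y hy => by
      unfold sf
      rw [dif_neg (h4 y hy)]
      rfl
    have h6 : ContinuousAt (fun y : Sph n => e.symm y) (sf F x) :=
      (e.continuousAt_symm h1).comp continuous_subtype_val.continuousAt
    have h7 : Tendsto (sf e.symm) (𝓝 (sf F x)) (𝓝 x) := by
      rw [tendsto_subtype_rng]
      have h8 : Tendsto (fun y : Sph n => ‖e.symm y‖⁻¹ • e.symm y) (𝓝 (sf F x))
          (𝓝 (‖e.symm (sf F x)‖⁻¹ • e.symm (sf F x))) :=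
        ((h6.norm.inv₀ (norm_ne_zero_iff.2 (h4 _ h1))).smul h6).tendsto
      rw [h2, hgx] at h8
      exact h8.congr' (hV.mono fun y hy => (h5 y hy).symm)
    filter_upwards [hV, h7 hU] with y hy hyU
    refine ⟨_, hyU, Subtype.ext ?_⟩
    rw [coe_sf hF, h5 y hy, nm_smul hF (inv_pos.2 (norm_pos_iff.2 (h4 y hy))), nm, h3 y hy,
      sph_norm, inv_one, one_smul]
  · intro y T hT
    rw [← Finset.card_image_of_injective T hgi]
    refine hL y _ fun w hw => ?_
    obtain ⟨x, hx, rfl⟩ := Finset.mem_image.1 hw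
    exact ⟨hgr x (hT x hx).1, by rw [hFg, (hT x hx).2]⟩

end Pool.Agent.Lib.MP_a47f92_an
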