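import Pool.Agent.Lib.MP_a47f92_an.Wirt

set_option autoImplicit false
set_option linter.unusedSectionVars false

/-! Second order Wirtinger calculus and the complex Hessian. -/

namespace Pool.Agent.Lib.MP_a47f92_an

open MeasureTheory Filter Topology Set Complex Metric Function
open scoped ContDiff ComplexConjugate ComplexOrder Matrix ENNReal NNReal

variable {n : ℕ}

variable {f : E n → ℂ} {ψ φ : E n → ℝ} {z : E n}


theorem HessA_has (hf : ContDiffAt ℝ 2 f z) (b : E n) :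
    HasFDerivAt (fun w => fderiv ℝ f w b)
      ((ContinuousLinearMap.apply ℝ ℂ b).comp (fderiv ℝ (fderiv ℝ f) z)) z := by
  have h1 : DifferentiableAt ℝ (fderiv ℝ f) z :=
    (hf.fderiv_right (m := 1) (by norm_num)).differentiableAt (by norm_num)
  exact (ContinuousLinearMap.apply ℝ ℂ b).hasFDerivAt.comp z h1.hasFDerivAt

theorem HessA_symm (hf : ContDiffAt ℝ 2 f z) (a b : E n) :
    fderiv ℝ (fderiv ℝ f) z a b = fderiv ℝ (fderiv ℝ f) z b a :=
  (hf.isSymmSndFDerivAt (by simp)).eq a b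

theorem HessA_fd_wd (hf : ContDiffAt ℝ 2 f z) (a b : E n) :
    fderiv ℝ (wd b f) z a =
      (fderiv ℝ (fderiv ℝ f) z a b - I * fderiv ℝ (fderiv ℝ f) z a (I • b)) / 2 := by
  have h := (((HessA_has hf b).sub ((HessA_has hf (I • b)).const_mul I)).mul_const (2 : ℂ)⁻¹)
  have e : wd b f = fun w => (fderiv ℝ f w b - I * fderiv ℝ f w (I • b)) * (2 : ℂ)⁻¹ := by
    funext w; rw [wd, div_eq_mul_inv]
  rw [e]
  erw [h.fderiv]
  simp
  ring

theorem HessA_fd_wb (hf : ContDiffAt ℝ 2 f z) (a b : E n) :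
    fderiv ℝ (wb b f) z a =
      (fderiv ℝ (fderiv ℝ f) z a b + I * fderiv ℝ (fderiv ℝ f) z a (I • b)) / 2 := by
  have h := (((HessA_has hf b).add ((HessA_has hf (I • b)).const_mul I)).mul_const (2 : ℂ)⁻¹)
  have e : wb b f = fun w => (fderiv ℝ f w b + I * fderiv ℝ f w (I • b)) * (2 : ℂ)⁻¹ := by
    funext w; rw [wb, div_eq_mul_inv]
  rw [e]
  erw [h.fderiv]
  simp
  ring

theorem HessA_cd {m : WithTop ℕ∞} (h : ContDiffAt ℝ m ψ z) :
    ContDiffAt ℝ m (fun w => (ψ w : ℂ)) z :=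
  ofRealCLM.contDiff.contDiffAt.comp z h

theorem HessA_ofReal (ψ : E n → ℝ) (w u : E n) :
    fderiv ℝ (fun w => (ψ w : ℂ)) w u = (fderiv ℝ ψ w u : ℝ) := by
  by_cases h : DifferentiableAt ℝ ψ w
  · have := (ofRealCLM.hasFDerivAt.comp w h.hasFDerivAt).fderiv
    erw [this]
    simp
  · have h' : ¬ DifferentiableAt ℝ (fun w => (ψ w : ℂ)) w := fun h' =>
      h (by simpa [Function.comp_def] using reCLM.differentiableAt.comp w h')
    rw [fderiv_zero_of_not_differentiableAt h, fderiv_zero_of_not_differentiableAt h']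
    simp

/-- Symmetry of second derivatives (`ContDiffAt.isSymmSndFDerivAt`). -/
theorem wd_wd_comm (hf : ContDiffAt ℝ 2 f z) (a b : E n) : wd a (wd b f) z = wd b (wd a f) z := by

  rw [wd, wd, HessA_fd_wd hf, HessA_fd_wd hf, HessA_fd_wd hf, HessA_fd_wd hf,
    HessA_symm hf b a, HessA_symm hf b (I • a), HessA_symm hf (I • b) a,
    HessA_symm hf (I • b) (I • a)]
  ring

theorem wd_wb_comm (hf : ContDiffAt ℝ 2 f z) (a b : E n) : wd a (wb b f) z = wb b (wd a f) z := by

  rw [wd, wb, HessA_fd_wb hf, HessA_fd_wb hf, HessA_fd_wd hf, HessA_fd_wd hf,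
    HessA_symm hf b a, HessA_symm hf b (I • a), HessA_symm hf (I • b) a,
    HessA_symm hf (I • b) (I • a)]
  ring

theorem wb_wb_comm (hf : ContDiffAt ℝ 2 f z) (a b : E n) : wb a (wb b f) z = wb b (wb a f) z := by

  rw [wb, wb, HessA_fd_wb hf, HessA_fd_wb hf, HessA_fd_wb hf, HessA_fd_wb hf,
    HessA_symm hf b a, HessA_symm hf b (I • a), HessA_symm hf (I • b) a,
    HessA_symm hf (I • b) (I • a)]
  ring

theorem hess_apply (ψ : E n → ℝ) (z : E n) (i j : Fin n) :
    hess ψ z i j = wd (ev i) (wb (ev j) fun w => (ψ w : ℂ)) z := rfl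

theorem hess_congr (h : ψ =ᶠ[𝓝 z] φ) : hess ψ =ᶠ[𝓝 z] hess φ := by

  have h' : (fun w => (ψ w : ℂ)) =ᶠ[𝓝 z] fun w => (φ w : ℂ) := h.mono fun w hw => by
    simp only [hw]
  have : ∀ᶠ w in 𝓝 z, ∀ i j, hess ψ w i j = hess φ w i j :=
    eventually_all.2 fun i => eventually_all.2 fun j => wd_congr (wb_congr h' (ev j)) (ev i)
  exact this.mono fun w hw => Matrix.ext hw

theorem hess_const (c : ℝ) (z : E n) : hess (fun _ => c) z = 0 := by

  ext i j
  have : wb (ev j) (fun _ : E n => (c : ℂ)) = fun _ => 0 := funext fun w => wb_const _ _ w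
  rw [hess_apply, this, wd_const]
  rfl

theorem hess_add (h : ContDiffAt ℝ 2 ψ z) (h' : ContDiffAt ℝ 2 φ z) :
    hess (fun w => ψ w + φ w) z = hess ψ z + hess φ z := by

  ext i j
  have e : wb (ev j) (fun w => ((ψ w + φ w : ℝ) : ℂ)) =ᶠ[𝓝 z]
      fun w => wb (ev j) (fun w => (ψ w : ℂ)) w + wb (ev j) (fun w => (φ w : ℂ)) w := by
    filter_upwards [(HessA_cd h).eventually (by simp), (HessA_cd h').eventually (by simp)]
      with w h1 h2
    simp only [ofReal_add]
    exact wb_add (h1.differentiableAt (by norm_num)) (h2.differentiableAt (by norm_num))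
  rw [hess_apply, (wd_congr e (ev i)).eq_of_nhds, Matrix.add_apply, hess_apply, hess_apply]
  exact wd_add
    ((contDiffAt_wb (m := 1) (HessA_cd h) (by norm_num) _).differentiableAt (by norm_num))
    ((contDiffAt_wb (m := 1) (HessA_cd h') (by norm_num) _).differentiableAt (by norm_num))

theorem hess_const_mul (c : ℝ) (ψ : E n → ℝ) (z : E n) :
    hess (fun w => c * ψ w) z = (c : ℂ) • hess ψ z := by

  ext i j
  have e : wb (ev j) (fun w => ((c * ψ w : ℝ) : ℂ)) =
      fun w => (c : ℂ) * wb (ev j) (fun w => (ψ w : ℂ)) w := by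
    funext w
    simp only [ofReal_mul]
    exact wb_const_mul _ _ _ _
  rw [hess_apply, e, wd_const_mul, Matrix.smul_apply, hess_apply, smul_eq_mul]

/-- No differentiability is needed (`fderiv_add_const`). -/
theorem hess_add_const (c : ℝ) (ψ : E n → ℝ) (z : E n) :
    hess (fun w => ψ w + c) z = hess ψ z := by

  ext i j
  have e : wb (ev j) (fun w => ((ψ w + c : ℝ) : ℂ)) = wb (ev j) (fun w => (ψ w : ℂ)) := by
    funext w
    simp only [ofReal_add, wb, fderiv_add_const]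
  rw [hess_apply, e, hess_apply]

theorem hess_of_notMem_tsupport (h : z ∉ tsupport ψ) : hess ψ z = 0 := by

  rw [(hess_congr (notMem_tsupport_iff_eventuallyEq.1 h)).eq_of_nhds]
  exact hess_const 0 z

theorem contDiffAt_hess {m m' : WithTop ℕ∞} (h : ContDiffAt ℝ m' ψ z) (hm : m + 2 ≤ m')
    (i j : Fin n) : ContDiffAt ℝ m (fun w => hess ψ w i j) z := by

  have e : m + 1 + 1 ≤ m' := by rwa [add_assoc, one_add_one_eq_two]
  exact contDiffAt_wd (contDiffAt_wb (HessA_cd h) e (ev j)) le_rfl (ev i)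

theorem contDiffOn_hess {Ω : Set (E n)} (hΩ : IsOpen Ω) (h : ContDiffOn ℝ ∞ ψ Ω) (i j : Fin n) :
    ContDiffOn ℝ ∞ (fun w => hess ψ w i j) Ω := by

  intro w hw
  exact (contDiffAt_hess (h.contDiffAt (hΩ.mem_nhds hw)) le_rfl i j).contDiffWithinAt

theorem contDiffOn_levi {Ω : Set (E n)} (hΩ : IsOpen Ω) (h : ContDiffOn ℝ ∞ ψ Ω) (v : E n) :
    ContDiffOn ℝ ∞ (fun w => levi ψ w v) Ω := by

  have : ContDiffOn ℝ ∞ (fun w => ∑ i, ∑ j, v i * conj (v j) * hess ψ w i j) Ω :=
    ContDiffOn.sum fun i _ => ContDiffOn.sum fun j _ =>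
      contDiffOn_const.mul (contDiffOn_hess hΩ h i j)
  exact reCLM.contDiff.comp_contDiffOn this

theorem hess_isHermitian (h : ContDiffAt ℝ 2 ψ z) : (hess ψ z).IsHermitian := by

  ext i j
  have e : (fun w => conj (wb (ev i) (fun w => (ψ w : ℂ)) w)) = wd (ev i) fun w => (ψ w : ℂ) := by
    funext w
    rw [← wd_conj]
    simp only [conj_ofReal]
  rw [Matrix.conjTranspose_apply, hess_apply, hess_apply, wd_wb_comm (HessA_cd h) (ev i), ← e,
    wb_conj]
  rfl

theorem qf_hess (h : ContDiffAt ℝ 2 ψ z) (v : E n) :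
    qf (hess ψ z) v = wd v (wb v fun w => (ψ w : ℂ)) z := by

  have e : wb v (fun w => (ψ w : ℂ)) =
      fun w => ∑ j, conj (v j) * wb (ev j) (fun w => (ψ w : ℂ)) w :=
    funext fun w => wb_vec _ _ _
  rw [wd_vec, qf]
  refine Finset.sum_congr rfl fun i _ => ?_
  rw [e, wd_sum, Finset.mul_sum]
  · refine Finset.sum_congr rfl fun j _ => ?_
    rw [wd_const_mul, hess_apply, mul_assoc]
  · intro j _
    exact ((contDiffAt_wb (m := 1) (HessA_cd h) (by norm_num) _).differentiableAt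
      (by norm_num)).const_mul _

/-- The Levi form as a quarter of the Laplacian in the complex direction `v`. -/
theorem levi_eq_real (h : ContDiffAt ℝ 2 ψ z) (v : E n) :
    levi ψ z v = (fderiv ℝ (fun w => fderiv ℝ ψ w v) z v +
      fderiv ℝ (fun w => fderiv ℝ ψ w (I • v)) z (I • v)) / 4 := by

  have e : ∀ a b : E n, fderiv ℝ (fderiv ℝ fun w => (ψ w : ℂ)) z a b =
      (fderiv ℝ (fun w => fderiv ℝ ψ w b) z a : ℝ) := by
    intro a b
    rw [← HessA_ofReal]
    simp only [← HessA_ofReal]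
    rw [(HessA_has (HessA_cd h) b).fderiv]
    rfl
  rw [levi_eq_qf, qf_hess h, wd, HessA_fd_wb (HessA_cd h), HessA_fd_wb (HessA_cd h), e, e, e, e]
  simp
  ring

end Pool.Agent.Lib.MP_a47f92_an
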