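import Pool.Agent.Lib.MP_a47f92_an.Green

set_option autoImplicit false
set_option linter.unusedSectionVars false

/-! A quantitative inverse function theorem and branches along orbits. -/

namespace Pool.Agent.Lib.MP_a47f92_an

open MeasureTheory Filter Topology Set Complex Metric Function
open scoped ContDiff ComplexConjugate ComplexOrder Matrix ENNReal NNReal

variable {n : ℕ}

/-- On `s = ball x ρ`, `ρ = 2 c / α` with `2 c = min 1 (1 / (2 M))`, the map `g` approximates `A` with
constant `1 / (2 α)` (`Convex.norm_image_sub_le_of_norm_hasFDerivWithin_le'`). Use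
`ApproximatesLinearOn.toOpenPartialHomeomorph`, `surjOn_closedBall_of_nonlinearRightInverse`,
`antilipschitz`, and `OpenPartialHomeomorph.contDiffAt_symm` (the derivative at points of `s` is
invertible since it is `1 / (2 α)`-close to `A`). -/
theorem quant_ift {M : ℝ} (hM : 0 < M) : ∃ c : ℝ, 0 < c ∧ ∀ (g : E n → E n) (x : E n)
    (A : E n ≃L[ℂ] E n) (α : ℝ), ContDiff ℂ ∞ g → fderiv ℂ g x = A → 1 ≤ α →
    ‖(A.symm : E n →L[ℂ] E n)‖ ≤ α → (∀ z, ‖z - x‖ ≤ 1 → ‖fderiv ℂ g z - fderiv ℂ g x‖ ≤ M * ‖z - x‖) →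
    ∃ h : E n → E n, ContDiffOn ℂ ∞ h (ball (g x) (c / α ^ 2)) ∧ h (g x) = x ∧
      ∀ q ∈ ball (g x) (c / α ^ 2), g (h q) = q ∧ ‖h q - x‖ ≤ 2 * α * ‖q - g x‖ := by
  have hr0 : 0 < min 1 (1 / (2 * M)) := lt_min one_pos (by positivity)
  have hr1 : min 1 (1 / (2 * M)) ≤ 1 := min_le_left _ _
  have hr2 : M * min 1 (1 / (2 * M)) ≤ 1 / 2 :=
    (mul_le_mul_of_nonneg_left (min_le_right _ _) hM.le).trans (le_of_eq (by field_simp))
  generalize min 1 (1 / (2 * M)) = r at hr0 hr1 hr2
  refine ⟨r / 4, by positivity, fun g x A α hg hA hα hN hL => ?_⟩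
  have hα0 : 0 < α := one_pos.trans_le hα
  have hd : Differentiable ℂ g := hg.differentiable (by simp)
  have hD : ∀ z ∈ ball x (r / α), ‖fderiv ℂ g z - (A : E n →L[ℂ] E n)‖ ≤ 1 / (2 * α) := by
    intro z hz
    have h1 : ‖z - x‖ ≤ r / α := (mem_ball_iff_norm.1 hz).le
    have h2 := hL z (h1.trans ((div_le_self hr0.le hα).trans hr1))
    rw [hA] at h2
    calc _ ≤ M * (r / α) := h2.trans (mul_le_mul_of_nonneg_left h1 hM.le)
      _ = M * r / α := by ring
      _ ≤ 1 / 2 / α := by gcongr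
      _ = _ := by ring
  have hlow : ∀ v : E n, ‖v‖ ≤ α * ‖A v‖ := fun v => by
    have h1 := (A.symm : E n →L[ℂ] E n).le_opNorm (A v)
    simp only [ContinuousLinearEquiv.coe_coe, ContinuousLinearEquiv.symm_apply_apply] at h1
    exact h1.trans (mul_le_mul_of_nonneg_right hN (norm_nonneg _))
  have hap : ApproximatesLinearOn g (A : E n →L[ℂ] E n) (ball x (r / α))
      ⟨1 / (2 * α), by positivity⟩ := fun y hy z hz =>
    (convex_ball x _).norm_image_sub_le_of_norm_fderiv_le' (fun w _ => hd w) hD hz hy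
  have hc : Subsingleton (E n) ∨ (⟨1 / (2 * α), by positivity⟩ : ℝ≥0) <
      ‖(A.symm : E n →L[ℂ] E n)‖₊⁻¹ := by
    rcases A.subsingleton_or_nnnorm_symm_pos with h | h
    · exact Or.inl h
    · refine Or.inr ?_
      have h1 : 0 < ‖(A.symm : E n →L[ℂ] E n)‖ := h
      change 1 / (2 * α) < ‖(A.symm : E n →L[ℂ] E n)‖⁻¹
      rw [← one_div]
      exact one_div_lt_one_div_of_lt h1 (by linarith)
  let B : (A : E n →L[ℂ] E n).NonlinearRightInverse :=
    { toFun := A.symm
      nnnorm := ⟨α, hα0.le⟩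
      bound' := fun y => (hlow (A.symm y)).trans_eq (by rw [A.apply_symm_apply]; rfl)
      right_inv' := fun y => A.apply_symm_apply y }
  have hsurj := hap.surjOn_closedBall_of_nonlinearRightInverse B (ε := r / α / 2) (b := x)
    (by positivity) (closedBall_subset_ball (half_lt_self (by positivity)))
  let P := hap.toOpenPartialHomeomorph g _ hc isOpen_ball
  have htar : ∀ q ∈ ball (g x) (r / 4 / α ^ 2), q ∈ P.target := fun q hq => by
    have h1 : q ∈ closedBall (g x) ((α⁻¹ - 1 / (2 * α)) * (r / α / 2)) := by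
      rw [show (α⁻¹ - 1 / (2 * α)) * (r / α / 2) = r / 4 / α ^ 2 by field_simp; ring]
      exact ball_subset_closedBall hq
    exact image_mono (closedBall_subset_ball (half_lt_self (by positivity))) (hsurj h1)
  have hx : x ∈ ball x (r / α) := mem_ball_self (by positivity)
  have hκ : α * (1 / (2 * α)) = 1 / 2 := by field_simp
  refine ⟨P.symm, fun q hq => ?_, P.left_inv hx, fun q hq => ⟨P.right_inv (htar q hq), ?_⟩⟩
  · have hy : P.symm q ∈ ball x (r / α) := P.map_target (htar q hq)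
    have hinj : (fderiv ℂ g (P.symm q)).ker = ⊥ := by
      refine LinearMap.ker_eq_bot'.2 fun v hv => ?_
      have h1 := (fderiv ℂ g (P.symm q) - (A : E n →L[ℂ] E n)).le_of_opNorm_le (hD _ hy) v
      have h2 : fderiv ℂ g (P.symm q) v = 0 := hv
      rw [sub_apply, h2, zero_sub, norm_neg] at h1
      have h3 := (hlow v).trans (mul_le_mul_of_nonneg_left h1 hα0.le)
      rw [← mul_assoc, hκ] at h3
      exact norm_le_zero_iff.1 (by linarith)
    refine (P.contDiffAt_symm (f₀' := ContinuousLinearEquiv.ofBijective _ hinj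
      (LinearMap.ker_eq_bot_iff_range_eq_top.1 hinj)) (htar q hq) ?_
        hg.contDiffAt).contDiffWithinAt
    rw [ContinuousLinearEquiv.coe_ofBijective]
    exact (hd _).hasFDerivAt
  · have hy : P.symm q ∈ ball x (r / α) := P.map_target (htar q hq)
    have h1 : ‖g (P.symm q) - g x - A (P.symm q - x)‖ ≤ 1 / (2 * α) * ‖P.symm q - x‖ :=
      hap _ hy _ hx
    have h2 : g (P.symm q) = q := P.right_inv (htar q hq)
    rw [h2] at h1
    have h3 : ‖A (P.symm q - x)‖ ≤ ‖q - g x‖ + 1 / (2 * α) * ‖P.symm q - x‖ :=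
      (norm_le_norm_add_norm_sub (q - g x) _).trans (by linarith)
    have h4 := (hlow _).trans (mul_le_mul_of_nonneg_left h3 hα0.le)
    rw [mul_add, ← mul_assoc, hκ] at h4
    linarith

end Pool.Agent.Lib.MP_a47f92_an
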