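import Pool.Agent.Lib.MP_a47f92_an.Img1A

set_option autoImplicit false
set_option linter.unusedSectionVars false

/-! Inverse branches: potentials along a branch. -/

namespace Pool.Agent.Lib.MP_a47f92_an

open MeasureTheory Filter Topology Set Complex Metric Function
open scoped ContDiff ComplexConjugate ComplexOrder Matrix ENNReal NNReal

variable {n : ℕ}

variable {d : ℕ} {F : E n → E n}

theorem Img1_reg {D : ℕ} {G H : E n → E n} (hG : IsLift D G) {y : E n} {R : ℝ}
    (hH : DifferentiableOn ℂ H (ball y R)) (h : ∀ q ∈ ball y R, G (H q) = q) {q : E n}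
    (hq : q ∈ ball y R) : H q ∈ Reg G := by
  have hb := isOpen_ball.mem_nhds hq
  refine hG.mem_reg_of_section (c := 1) one_ne_zero (hH.differentiableAt hb) ?_
  filter_upwards [hb] with q' hq'
  rw [h q' hq', one_smul]

/-- A point where the potential is not too small along the branch. Let `x = H y`; by `orbit_bound`
and `iterate_lip`, `F^[j]` maps `ball x ρ'`, `ρ' = min b ρ / (2 K ^ j)`, into `ball y ρ`, and
`H ∘ F^[j] = id` on this ball (`IsLift.lift_unique`). By `mean_lower` applied at `x / ‖x‖` (or by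
homogeneity and `setAverage_ball`) there is a point `z₀` of the ball with
`p z₀ ≥ -C (1 + j + log ρ⁻¹)` (`exists_average_le`-type lemmas); `q₀ = F^[j] z₀`. -/
theorem exists_good_point (hn : 2 ≤ n) (hF : IsLift d F) (hd : 2 ≤ d) (C₀ : ℝ) : ∃ C : ℝ, 0 ≤ C ∧
    ∀ (p : E n → ℝ) (j : ℕ) (y : E n) (ρ : ℝ) (H : E n → E n), SPot p →
      (∃ x, ‖x‖ = 1 ∧ -C₀ ≤ p x) → ‖y‖ = 1 → 0 < ρ → ρ ≤ 1 / 2 →
      DifferentiableOn ℂ H (ball y ρ) → (∀ q ∈ ball y ρ, F^[j] (H q) = q) →
      ∃ q₀ ∈ ball y ρ, -(C * (1 + j + Real.log ρ⁻¹)) ≤ p (H q₀) := by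
  obtain ⟨b, B, hb, hB, hbB⟩ := orbit_bound hF hd
  obtain ⟨K, hK, hlip⟩ := iterate_lip hF B
  obtain ⟨C₁, hC₁, hmean⟩ := mean_lower hn
  have hB1 : 1 ≤ max 1 B := le_max_left _ _
  have hlB : 0 ≤ Real.log (max 1 B) := Real.log_nonneg hB1
  have hlK : 0 ≤ Real.log K := Real.log_nonneg hK
  refine ⟨|C₀| + C₁ * (1 + Real.log (max 1 B)) + |Real.log b| + C₁ * Real.log K + C₁,
    by positivity, ?_⟩
  rintro p j y ρ H hp ⟨x₁, hx₁, hpx₁⟩ hy hρ hρ' hH h
  have hG := hF.iterate j
  have hyy : F^[j] (H y) = y := h y (mem_ball_self hρ)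
  have horb := hbB j (H y) (by rw [hyy, hy]; norm_num) (by rw [hyy, hy]; norm_num)
  obtain ⟨hs1, hs2⟩ : b ≤ ‖H y‖ ∧ ‖H y‖ ≤ B := horb 0 (Nat.zero_le _)
  set x := H y with hx
  set s := ‖x‖ with hs
  have hs0 : 0 < s := hb.trans_le hs1
  have hKj : 1 ≤ K ^ j := one_le_pow₀ hK
  have hKj0 : 0 < K ^ j := one_pos.trans_le hKj
  set r := ρ / (max 1 B * K ^ j) with hr
  have hr0 : 0 < r := by positivity
  have hrρ : r ≤ ρ := div_le_self hρ.le (one_le_mul_of_one_le_of_one_le hB1 hKj)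
  have hsr : s * r ≤ ρ / K ^ j := by
    calc s * r ≤ max 1 B * r := mul_le_mul_of_nonneg_right (hs2.trans (le_max_right _ _)) hr0.le
      _ = ρ / K ^ j := by
        rw [hr]
        field_simp
  have hmap : ∀ z ∈ ball x (s * r), F^[j] z ∈ ball y ρ := by
    intro z hz
    rw [mem_ball, dist_eq_norm] at hz ⊢
    have h1 : ‖z - x‖ < ρ / K ^ j := hz.trans_le hsr
    have h2 : ρ / K ^ j ≤ (K ^ j)⁻¹ := by
      rw [div_eq_mul_inv]
      exact mul_le_of_le_one_left (inv_nonneg.2 hKj0.le) (by linarith)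
    have h3 := hlip j x z (fun i hi => (horb i hi).2) (h1.le.trans h2)
    rw [hyy] at h3
    refine h3.trans_lt ?_
    rw [lt_div_iff₀ hKj0] at h1
    linarith
  have hid : EqOn (fun z => H (F^[j] z)) (fun z => z) (ball x (s * r)) := by
    refine hG.lift_unique (convex_ball _ _).isPreconnected
      (hH.continuousOn.comp hG.differentiable.continuous.continuousOn hmap) continuousOn_id
      (fun z hz => Img1_reg hG hH h (hmap z hz)) (fun z hz => h _ (hmap z hz))
      (mem_ball_self (mul_pos hs0 hr0)) ?_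
    exact congrArg H hyy
  have hx' : ‖s⁻¹ • x‖ = 1 := by
    rw [norm_smul, norm_inv, Real.norm_of_nonneg hs0.le, ← hs, inv_mul_cancel₀ hs0.ne']
  have hm := hmean p hp x₁ (s⁻¹ • x) hx₁ hx' r hr0 (by linarith)
  have hint : IntegrableOn p (ball (s⁻¹ • x) r) :=
    ((hp.isPot (by omega)).int.integrableOn_isCompact (isCompact_closedBall _ _)).mono_set
      ball_subset_closedBall
  obtain ⟨w, hw, hpw⟩ := exists_setAverage_le (measure_ball_pos volume _ hr0).ne'
    measure_ball_lt_top.ne hint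
  rw [mem_ball, dist_eq_norm] at hw
  have hw0 : w ≠ 0 := by
    rintro rfl
    rw [zero_sub, norm_neg, hx'] at hw
    linarith
  have hz : s • w ∈ ball x (s * r) := by
    rw [mem_ball, dist_eq_norm]
    have h1 : s • w - x = s • (w - s⁻¹ • x) := by
      rw [smul_sub, smul_inv_smul₀ hs0.ne']
    rw [h1, norm_smul, Real.norm_of_nonneg hs0.le]
    exact mul_lt_mul_of_pos_left hw hs0
  refine ⟨F^[j] (s • w), hmap _ hz, ?_⟩
  have h1 : H (F^[j] (s • w)) = s • w := hid hz
  have h2 : p (s • w) = p w + Real.log s := by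
    have := hp.hom (s : ℂ) (by exact_mod_cast hs0.ne') w hw0
    rwa [Complex.coe_smul, Complex.norm_real, Real.norm_of_nonneg hs0.le, one_mul] at this
  have h3 : Real.log r⁻¹ = Real.log ρ⁻¹ + Real.log (max 1 B) + j * Real.log K := by
    rw [Real.log_inv, Real.log_inv, hr, Real.log_div hρ.ne' (by positivity),
      Real.log_mul (by positivity) hKj0.ne', Real.log_pow]
    ring
  have h4 : Real.log b ≤ Real.log s := Real.log_le_log hb hs1
  have h5 : 0 ≤ Real.log ρ⁻¹ := Real.log_nonneg (one_le_inv_iff₀.2 ⟨hρ, by linarith⟩)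
  rw [h1, h2]
  rw [h3] at hm
  generalize Real.log ρ⁻¹ = L at h5 hm ⊢
  have h6 := neg_abs_le (Real.log b)
  have h7 := le_abs_self C₀
  have hj : (0 : ℝ) ≤ j := Nat.cast_nonneg j
  have h8 : 0 ≤ (|C₀| + C₁ * (1 + Real.log (max 1 B)) + |Real.log b|) * (j + L) := by positivity
  have h9 : 0 ≤ C₁ * Real.log K * (1 + L) := by positivity
  have h10 : 0 ≤ C₁ * (1 + j) := by positivity
  nlinarith

/-- Euler relation for a branch: `ρ ↦ ρ ^ (-1 / D) • H (ρ • q)` is constant; equivalently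
`H (t ^ D • q) = t • H q`. Use `IsLift.lift_unique`-style uniqueness on the segment from `q` to
`t ^ D • q`: the map `q' ↦ (‖q'‖ / ‖q‖) ^ (1 / D) • H q` is another lift on this segment. -/
theorem branch_smul {D : ℕ} {G H : E n → E n} (hG : IsLift D G) (hD : 1 ≤ D) {y : E n} {R : ℝ}
    (h0 : (0 : E n) ∉ ball y R) (hH : DifferentiableOn ℂ H (ball y R))
    (h : ∀ q ∈ ball y R, G (H q) = q) {q : E n} (hq : q ∈ ball y R) {t : ℝ} (ht : 0 < t)
    (hq' : t ^ D • q ∈ ball y R) : H (t ^ D • q) = t • H q := by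
  have hq0 : ‖q‖ ≠ 0 := norm_ne_zero_iff.2 fun h1 => h0 (h1 ▸ hq)
  have hD0 : D ≠ 0 := by omega
  have hsub : segment ℝ q (t ^ D • q) ⊆ ball y R := (convex_ball y R).segment_subset hq hq'
  have hn : ∀ c : ℝ, 0 ≤ c → ‖c • q‖ / ‖q‖ = c := fun c hc => by
    rw [norm_smul, Real.norm_of_nonneg hc, mul_div_cancel_right₀ _ hq0]
  have key : EqOn H (fun q' => (‖q'‖ / ‖q‖) ^ ((D : ℝ)⁻¹) • H q) (segment ℝ q (t ^ D • q)) := by
    refine hG.lift_unique (convex_segment _ _).isPreconnected (hH.continuousOn.mono hsub)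
      (Continuous.continuousOn ?_) (fun z hz => Img1_reg hG hH h (hsub hz)) ?_
      (left_mem_segment _ _ _) ?_
    · exact ((continuous_norm.div_const _).rpow_const fun _ => Or.inr (by positivity)).smul
        continuous_const
    · intro z hz
      rw [h z (hsub hz)]
      obtain ⟨a, c, ha, hc, -, rfl⟩ := hz
      have h1 : 0 ≤ a + c * t ^ D := by positivity
      rw [smul_smul, ← add_smul, hn _ h1, hG.homR, Real.rpow_inv_natCast_pow h1 hD0, h q hq]
    · simp only [div_self hq0, Real.one_rpow, one_smul]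
  have h2 := key (right_mem_segment _ _ _)
  simp only at h2
  rw [h2, hn _ (by positivity), Real.pow_rpow_inv_natCast ht.le hD0]

end Pool.Agent.Lib.MP_a47f92_an
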