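import Pool.Agent.Lib.MP_a47f92_an.CLN
import Pool.Agent.Lib.MP_a47f92_an.Eqm

set_option autoImplicit false
set_option linter.unusedSectionVars false

/-! Inverse branches: potentials along a branch. -/

namespace Pool.Agent.Lib.MP_a47f92_an

open MeasureTheory Filter Topology Set Complex Metric Function
open scoped ContDiff ComplexConjugate ComplexOrder Matrix ENNReal NNReal

variable {n : ℕ}

variable {d : ℕ} {F : E n → E n}

/-- The image of a branch is open and the branch inverts `G` on it
(`IsLift.mem_reg_of_section`, `IsLift.exists_local`). -/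
theorem isOpen_branch_image {D : ℕ} {G H : E n → E n} (hG : IsLift D G) {U : Set (E n)}
    (hU : IsOpen U) (hH : DifferentiableOn ℂ H U) (h : ∀ q ∈ U, G (H q) = q) :
    IsOpen (H '' U) := by
  refine isOpen_iff_mem_nhds.2 ?_
  rintro _ ⟨q, hq, rfl⟩
  have hd := hH.differentiableAt (hU.mem_nhds hq)
  obtain ⟨e, he, rfl⟩ := hG.exists_local (hG.mem_reg_of_section one_ne_zero hd
    (eventually_of_mem (hU.mem_nhds hq) fun q' hq' => (h q' hq').trans (one_smul ℂ q').symm))
  have h1 : Tendsto e (𝓝 (H q)) (𝓝 q) :=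
    (e.continuousAt he).tendsto.mono_right (congrArg 𝓝 (h q hq)).le
  filter_upwards [e.open_source.mem_nhds he, h1.eventually (hU.mem_nhds hq),
    (hd.continuousAt.tendsto.comp h1).eventually (e.open_source.mem_nhds he)] with z a b c
  exact ⟨e z, b, e.injOn c a (h _ b)⟩

/-- Extension by zero of the pull-back of a cut-off function. Its support is `H '' tsupport χ`. -/
theorem branch_test {D : ℕ} {G H : E n → E n} (hG : IsLift D G) (hD : 1 ≤ D) {U : Set (E n)}
    (hU : IsOpen U) (h0 : (0 : E n) ∉ U) (hH : DifferentiableOn ℂ H U) (h : ∀ q ∈ U, G (H q) = q)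
    {χ : E n → ℝ} (hχ : ContDiff ℝ ∞ χ) (hc : HasCompactSupport χ) (hs : tsupport χ ⊆ U) :
    IsTest ((H '' U).indicator fun z => χ (G z)) := by
  have hK : IsCompact (H '' tsupport χ) :=
    hc.isCompact.image_of_continuousOn (hH.continuousOn.mono hs)
  have h1 : tsupport ((H '' U).indicator fun z => χ (G z)) ⊆ H '' tsupport χ := by
    refine closure_minimal (fun z hz => ?_) hK.isClosed
    rw [support_indicator] at hz
    obtain ⟨⟨q, hq, rfl⟩, a⟩ := hz
    exact ⟨q, subset_tsupport _ (by rwa [mem_support, h q hq] at a), rfl⟩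
  refine ⟨contDiff_iff_contDiffAt.2 fun z => ?_, hK.of_isClosed_subset (isClosed_tsupport _) h1,
    fun a => ?_⟩
  · by_cases hz : z ∈ tsupport ((H '' U).indicator fun z => χ (G z))
    · refine (hχ.comp hG.contDiffR).contDiffAt.congr_of_eventuallyEq ?_
      filter_upwards [(isOpen_branch_image hG hU hH h).mem_nhds (image_mono hs (h1 hz))]
        with w hw using indicator_of_mem hw _
    · exact contDiffAt_const.congr_of_eventuallyEq (notMem_tsupport_iff_eventuallyEq.1 hz)
  · obtain ⟨q, hq, e⟩ := h1 a
    have b := h q (hs hq)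
    rw [e, hG.zero hD] at b
    exact h0 (b ▸ hs hq)

end Pool.Agent.Lib.MP_a47f92_an
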