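import Pool.Agent.Lib.MP_a47f92_an.Img2A

set_option autoImplicit false
set_option linter.unusedSectionVars false

/-! The mass of the image of an inverse branch. -/

namespace Pool.Agent.Lib.MP_a47f92_an

open MeasureTheory Filter Topology Set Complex Metric Function
open scoped ContDiff ComplexConjugate ComplexOrder Matrix ENNReal NNReal

variable {n : ℕ}

variable {s d : ℕ} {F : E (s + 2) → E (s + 2)} {u : E (s + 2) → ℝ} {ν : Measure (E (s + 2))}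

theorem Img2_norm {y q : E n} {R : ℝ} (hy : ‖y‖ = 1) (hR : R ≤ 1 / 2) (hq : q ∈ ball y R) :
    1 / 2 ≤ ‖q‖ ∧ ‖q‖ ≤ 2 := by
  have h1 := mem_ball_iff_norm.1 hq
  have h2 := abs_norm_sub_norm_le q y
  rw [abs_le, hy] at h2
  constructor <;> linarith [h2.1, h2.2]

theorem Img2_log {t : ℝ} (h1 : 1 / 2 ≤ t) (h2 : t ≤ 2) : |Real.log t| ≤ 1 := by
  have h0 : 0 < t := by linarith
  have a1 := Real.log_le_sub_one_of_pos h0
  have a2 := Real.log_le_sub_one_of_pos (inv_pos.2 h0)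
  have a3 : t⁻¹ ≤ 2 := by
    rw [inv_le_comm₀ h0 two_pos]
    linarith
  rw [Real.log_inv] at a2
  rw [abs_le]
  constructor <;> linarith

theorem Img2_upper {p : E n → ℝ} (hp : SPot p) {C : ℝ} (hC : ∀ x, ‖x‖ = 1 → p x ≤ C) {w : E n}
    (hw : w ≠ 0) : p w ≤ C + ‖w‖ := by
  have h0 : 0 < ‖w‖ := norm_pos_iff.2 hw
  have h1 : ‖((‖w‖⁻¹ : ℝ) : ℂ)‖ = ‖w‖⁻¹ := by
    rw [norm_real, Real.norm_of_nonneg (inv_nonneg.2 h0.le)]
  have h2 := hp.hom ((‖w‖⁻¹ : ℝ) : ℂ) (ofReal_ne_zero.2 (inv_ne_zero h0.ne')) w hw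
  have h3 := hC (((‖w‖⁻¹ : ℝ) : ℂ) • w) (by rw [norm_smul, h1, inv_mul_cancel₀ h0.ne'])
  rw [h1, Real.log_inv] at h2
  have h4 := Real.log_le_sub_one_of_pos h0
  linarith

theorem Img2_branch {p : E n → ℝ} (hp : SPot p) {H : E n → E n} {U : Set (E n)} (hU : IsOpen U)
    (hH : ContDiffOn ℂ ∞ H U) (h0 : ∀ q ∈ U, H q ≠ 0) :
    ContDiffOn ℝ ∞ (fun w => p (H w)) U ∧ ∀ z ∈ U, ∀ v, 0 ≤ levi (fun w => p (H w)) z v := by
  refine ⟨hp.smooth.comp (hH.restrict_scalars ℝ) fun q hq => h0 q hq, fun z hz v => ?_⟩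
  have h2 : (2 : WithTop ℕ∞) ≤ ((⊤ : ℕ∞) : WithTop ℕ∞) :=
    WithTop.coe_le_coe.2 (le_top (a := (2 : ℕ∞)))
  rw [levi_comp ((hH.contDiffAt (hU.mem_nhds hz)).of_le h2)
    ((hp.smooth.contDiffAt (isOpen_compl_singleton.mem_nhds (h0 z hz))).of_le h2)]
  exact hp.psh _ (h0 z hz) _

theorem Img2_core (hF : IsLift d F) (hd : 2 ≤ d) (C₀ : ℝ) : ∃ (C : ℝ) (P : ℕ), 0 ≤ C ∧
    ∀ (p : E (s + 2) → ℝ) (j m : ℕ) (y : E (s + 2)) (R : ℝ) (H : E (s + 2) → E (s + 2)), SPot p →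
      (∀ x, ‖x‖ = 1 → p x ≤ C₀) → (∃ x, ‖x‖ = 1 ∧ -C₀ ≤ p x) → ‖y‖ = 1 → 0 < R → R ≤ 1 / 2 →
      ContDiffOn ℂ ∞ H (ball y R) → (∀ q ∈ ball y R, F^[j] (H q) = q) →
      ∫ q in ball y (R / 2 ^ (s + 3)),
        md (fam (hess (fun w => p (H w)) q) 1 (hess (green d F m) q)) ≤ C * (1 + j) * R⁻¹ ^ P := by
  obtain ⟨C₁, hC₁, hcln⟩ := cln_fam s
  obtain ⟨C₂, hC₂, hg⟩ := green_bound hF hd
  obtain ⟨b, B, hb, hB, horb⟩ := orbit_bound hF hd
  obtain ⟨C₃, hC₃, hgood⟩ := exists_good_point (Nat.le_add_left 2 s) hF hd C₀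
  set V : ℝ := (volume (ball (0 : E (s + 2)) 1)).toReal with hV
  have hV0 : 0 ≤ V := ENNReal.toReal_nonneg
  refine ⟨C₁ * (C₂ + 1) ^ s * ((2 ^ (s + 3)) ^ 2) ^ (s + 1) * (V * (|C₀| + B + 5 * C₃)),
    2 * (s + 1) + 1, by positivity, ?_⟩
  intro p j m y R H hp hup hlow hy hR hR2 hH hinv
  have hn : ∀ q ∈ ball y R, 1 / 2 ≤ ‖q‖ ∧ ‖q‖ ≤ 2 := fun q hq => Img2_norm hy hR2 hq
  have hq0 : ∀ q ∈ ball y R, q ≠ 0 := fun q hq => norm_pos_iff.1 (by linarith [(hn q hq).1])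
  have hHn : ∀ q ∈ ball y R, b ≤ ‖H q‖ ∧ ‖H q‖ ≤ B := fun q hq =>
    horb j (H q) (by rw [hinv q hq]; exact (hn q hq).1) (by rw [hinv q hq]; exact (hn q hq).2) 0
      (Nat.zero_le _)
  have hH0 : ∀ q ∈ ball y R, H q ≠ 0 := fun q hq => norm_pos_iff.1 (hb.trans_le (hHn q hq).1)
  obtain ⟨ha1, ha2⟩ := Img2_branch hp isOpen_ball hH hH0
  have hM : ∀ z ∈ ball y R, p (H z) ≤ |C₀| + B := fun z hz =>
    (Img2_upper hp hup (hH0 z hz)).trans (add_le_add (le_abs_self _) (hHn z hz).2)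
  have hgs := green_spot hF (one_le_two.trans hd) m
  have e1 : (2 : ℝ) ^ (s + 2) * (R / 2 ^ (s + 3)) = R / 2 := by
    field_simp
    ring
  have e2 : (2 : ℝ) ^ (s + 1) * (R / 2 ^ (s + 3)) = R / 4 := by
    field_simp
    ring
  have e3 : 4 * (R / 4) = R := by ring
  have s1 : ball y (R / 2) ⊆ ball y R := ball_subset_ball (by linarith)
  have s2 : ball y (R / 4) ⊆ ball y R := ball_subset_ball (by linarith)
  have hh : ∀ z, hess (fun w => p (H w) + -(|C₀| + B)) z = hess (fun w => p (H w)) z :=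
    fun z => hess_add_const _ _ z
  have h1 := hcln y (R / 2 ^ (s + 3)) (C₂ + 1) (fun w => p (H w) + -(|C₀| + B)) (green d F m)
    (by positivity) (by positivity)
    (by rw [e1]; exact (ha1.mono s1).add contDiffOn_const)
    (by rw [e1]; exact hgs.smooth.mono fun z hz => hq0 z (s1 hz))
    (by
      rw [e1]
      intro z hz v
      rw [levi_eq_qf, hh, ← levi_eq_qf]
      exact ha2 z (s1 hz) v)
    (by rw [e1]; exact fun z hz v => hgs.psh z (hq0 z (s1 hz)) v)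
    (by
      rw [e1]
      intro z hz
      have a1 := hg m z (hq0 z (s1 hz))
      have a2 := Img2_log (hn z (s1 hz)).1 (hn z (s1 hz)).2
      have a3 := abs_add_le (green d F m z - Real.log ‖z‖) (Real.log ‖z‖)
      rw [sub_add_cancel] at a3
      linarith)
  simp only [hh, e2] at h1
  simp only [← sub_eq_add_neg] at h1
  obtain ⟨q₀, hq₀, hq₁⟩ := hgood p j y (R / 4) H hp hlow hy (by positivity) (by linarith)
    ((hH.differentiableOn (by simp)).mono s2) fun q hq => hinv q (s2 hq)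
  have h2 := l1_bound (y := y) (a := fun w => p (H w)) (ρ := R / 4) (M := |C₀| + B) (by positivity)
    (by rw [e3]; exact ha1) (by rw [e3]; exact ha2) (by rw [e3]; exact hM) hq₀
  have hR1 : 1 ≤ R⁻¹ := (one_le_inv₀ hR).2 (by linarith)
  have h3 : (volume (ball (0 : E (s + 2)) (2 * (R / 4)))).toReal ≤ V :=
    ENNReal.toReal_mono measure_ball_lt_top.ne (measure_mono (ball_subset_ball (by linarith)))
  have h4 : |C₀| + B - p (H q₀) ≤ (|C₀| + B + 5 * C₃) * ((1 + j) * R⁻¹) := by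
    have a1 : Real.log (R / 4)⁻¹ ≤ 4 * R⁻¹ := by
      have := Real.log_le_sub_one_of_pos (inv_pos.2 (by positivity : 0 < R / 4))
      rw [inv_div, div_eq_mul_inv] at this ⊢
      linarith
    have hj : (0 : ℝ) ≤ j := Nat.cast_nonneg j
    have a2 : 1 + (j : ℝ) ≤ (1 + j) * R⁻¹ := le_mul_of_one_le_right (by positivity) hR1
    have a3 : R⁻¹ ≤ (1 + j) * R⁻¹ := le_mul_of_one_le_left (by positivity) (by linarith)
    have a4 : (|C₀| + B) * 1 ≤ (|C₀| + B) * ((1 + j) * R⁻¹) :=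
      mul_le_mul_of_nonneg_left (by linarith) (by positivity)
    have a5 : C₃ * (1 + j + Real.log (R / 4)⁻¹) ≤ C₃ * (5 * ((1 + j) * R⁻¹)) :=
      mul_le_mul_of_nonneg_left (by linarith) hC₃
    linarith
  have h5 : 0 ≤ |C₀| + B - p (H q₀) := sub_nonneg.2 (hM q₀ (s2 hq₀))
  have h6 := h2.trans (mul_le_mul h3 h4 h5 hV0)
  have e4 : ((R / 2 ^ (s + 3)) ^ 2)⁻¹ ^ (s + 1) =
      ((2 ^ (s + 3)) ^ 2) ^ (s + 1) * R⁻¹ ^ (2 * (s + 1)) := by
    rw [← inv_pow, inv_div, div_eq_mul_inv, mul_pow, mul_pow, ← pow_mul R⁻¹]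
  refine h1.trans ((mul_le_mul_of_nonneg_left h6 (by positivity)).trans (le_of_eq ?_))
  rw [e4]
  ring

theorem Img2_cut {χ a g : E (s + 2) → ℝ} {H : E (s + 2) → E (s + 2)} {y : E (s + 2)} {r R B : ℝ}
    (hr : r < R) (hy : ‖y‖ = 1) (hR : R ≤ 1 / 2) (hs : tsupport χ ⊆ ball y r) (h0 : ∀ z, 0 ≤ χ z)
    (h1 : ∀ z, χ z ≤ 1) (hB : ∀ q ∈ ball y R, ‖H q‖ ≤ B) (ha : ContDiffOn ℝ ∞ a (ball y R))
    (ha' : ∀ z ∈ ball y R, ∀ v, 0 ≤ levi a z v) (hg : SPot g) :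
    ∫ q in ball y R, χ q * (‖H q‖ ^ 2 / ‖q‖ ^ 2) * md (fam (hess a q) 1 (hess g q)) ≤
      4 * B ^ 2 * ∫ q in ball y r, md (fam (hess a q) 1 (hess g q)) := by
  have s1 : ball y r ⊆ ball y R := ball_subset_ball hr.le
  have hn : ∀ q ∈ ball y R, 1 / 2 ≤ ‖q‖ ∧ ‖q‖ ≤ 2 := fun q hq => Img2_norm hy hR hq
  have hq0 : ∀ q ∈ ball y R, q ≠ 0 := fun q hq => norm_pos_iff.1 (by linarith [(hn q hq).1])
  have hg1 : ContDiffOn ℝ ∞ g (ball y R) := hg.smooth.mono fun z hz => hq0 z hz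
  have h2 : (2 : WithTop ℕ∞) ≤ ((⊤ : ℕ∞) : WithTop ℕ∞) :=
    WithTop.coe_le_coe.2 (le_top (a := (2 : ℕ∞)))
  have hpos : ∀ q ∈ ball y R, 0 ≤ md (fam (hess a q) 1 (hess g q)) := fun q hq =>
    md_nonneg (fam_forall
      (psd_hess ((ha.contDiffAt (isOpen_ball.mem_nhds hq)).of_le h2) (ha' q hq))
      Matrix.PosSemidef.one
      (psd_hess ((hg1.contDiffAt (isOpen_ball.mem_nhds hq)).of_le h2) (hg.psh q (hq0 q hq))))
  have hcont : ContinuousOn (fun q => md (fam (hess a q) 1 (hess g q))) (ball y R) := by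
    have := continuousOn_md (p := fam a (fun w => ‖w‖ ^ 2) g) isOpen_ball
      (fam_forall (p := fun f => ContDiffOn ℝ ∞ f (ball y R)) ha contDiff_normSq.contDiffOn hg1)
    refine this.congr fun q _ => ?_
    have e := fam_map (s := s) (fun f => hess f q) a (fun w => ‖w‖ ^ 2) g
    simp only [hess_normSq] at e
    simp only [e]
  have hint : IntegrableOn (fun q => md (fam (hess a q) 1 (hess g q))) (ball y r) :=
    ((hcont.mono (closedBall_subset_ball hr)).integrableOn_compact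
      (isCompact_closedBall y r)).mono_set ball_subset_closedBall
  rw [setIntegral_eq_of_subset_of_forall_sdiff_eq_zero measurableSet_ball s1 fun x hx => by
    rw [image_eq_zero_of_notMem_tsupport fun h => hx.2 (hs h), zero_mul, zero_mul],
    ← integral_const_mul]
  refine integral_mono_of_nonneg ?_ (hint.const_mul _) ?_
  · filter_upwards [ae_restrict_mem measurableSet_ball] with q hq
    exact mul_nonneg (mul_nonneg (h0 q) (by positivity)) (hpos q (s1 hq))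
  · filter_upwards [ae_restrict_mem measurableSet_ball] with q hq
    refine mul_le_mul_of_nonneg_right ?_ (hpos q (s1 hq))
    have a1 := (hn q (s1 hq)).1
    have a2 : ‖H q‖ ^ 2 / ‖q‖ ^ 2 ≤ B ^ 2 / (1 / 2) ^ 2 :=
      div_le_div₀ (by positivity) (pow_le_pow_left₀ (norm_nonneg _) (hB q (s1 hq)) 2)
        (by positivity) (pow_le_pow_left₀ (by positivity) a1 2)
    calc χ q * (‖H q‖ ^ 2 / ‖q‖ ^ 2) ≤ 1 * (B ^ 2 / (1 / 2) ^ 2) :=
          mul_le_mul (h1 q) a2 (by positivity) zero_le_one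
      _ = 4 * B ^ 2 := by ring

/-- Let `ρ = R / 2 ^ (s + 4)` and `χ` the bump of `exists_bump` for `y`, `ρ`. For the approximants
`p i` put `a = p i ∘ H - M`, where `M` bounds `p i ∘ H` on `ball y R` (`orbit_bound` with `i = 0`).
Bound the right side of `eqp_branch` with `cln_fam` (radius `2 ρ`), `l1_bound` (radius
`2 ^ (s + 2) ρ = R / 4`) and `exists_good_point`, uniformly in `i` and `m` (`green_bound`). Let
`i → ∞` (`isCC_fam`) and `m → ∞`. Use `log R⁻¹ ≤ R⁻¹`. -/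
theorem img_cone (h : IsEqMeasure d F u ν) (hF : IsLift d F) (hd : 2 ≤ d) (hu : IsPot u) :
    ∃ (c₀ C : ℝ) (p : ℕ), 0 < c₀ ∧ c₀ ≤ 1 ∧ 0 ≤ C ∧
      ∀ (j : ℕ) (y : E (s + 2)) (R : ℝ) (H : E (s + 2) → E (s + 2)), ‖y‖ = 1 → 0 < R → R ≤ 1 / 2 →
        ContDiffOn ℂ ∞ H (ball y R) → (∀ q ∈ ball y R, F^[j] (H q) = q) →
        ν (H '' ball y (c₀ * R)) ≤
          ENNReal.ofReal (C * (1 + j) * R⁻¹ ^ p / ((d : ℝ) ^ j) ^ (s + 2)) := by
  obtain ⟨p, C₀, hp, -, hup, hlow, hlim, -⟩ := exists_approx (Nat.le_add_left 1 (s + 1)) hu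
  obtain ⟨C, P, hC, hcore⟩ := Img2_core hF hd C₀
  obtain ⟨b, B, hb, hB, horb⟩ := orbit_bound hF hd
  obtain ⟨Cb, -, hbump⟩ := exists_bump (s + 2)
  have hd1 : 1 ≤ d := one_le_two.trans hd
  have hpow : (1 : ℝ) < 2 ^ (s + 3) := one_lt_pow₀ one_lt_two (Nat.succ_ne_zero _)
  refine ⟨1 / 2 ^ (s + 3) / 2, 4 * B ^ 2 * C, P, by positivity, ?_, by positivity, ?_⟩
  · have : (1 : ℝ) / 2 ^ (s + 3) ≤ 1 := (div_le_one (by positivity)).2 hpow.le
    linarith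
  intro j y R H hy hR hR2 hH hinv
  obtain ⟨χ, hχ, hc, hs, h0, h1, h2, -⟩ := hbump y (1 / 2 ^ (s + 3) / 2 * R) (by positivity)
  rw [show 2 * (1 / 2 ^ (s + 3) / 2 * R) = R / 2 ^ (s + 3) by ring] at hs
  have hr : R / 2 ^ (s + 3) < R := div_lt_self hR hpow
  have hn : ∀ q ∈ ball y R, 1 / 2 ≤ ‖q‖ ∧ ‖q‖ ≤ 2 := fun q hq => Img2_norm hy hR2 hq
  have hU0 : (0 : E (s + 2)) ∉ ball y R := fun h => by
    have := (hn 0 h).1
    rw [norm_zero] at this
    linarith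
  have hHn : ∀ q ∈ ball y R, b ≤ ‖H q‖ ∧ ‖H q‖ ≤ B := fun q hq =>
    horb j (H q) (by rw [hinv q hq]; exact (hn q hq).1) (by rw [hinv q hq]; exact (hn q hq).2) 0
      (Nat.zero_le _)
  have hH0 : ∀ q ∈ ball y R, H q ≠ 0 := fun q hq => norm_pos_iff.1 (hb.trans_le (hHn q hq).1)
  have hs' : tsupport χ ⊆ ball y R := hs.trans (ball_subset_ball hr.le)
  have hψ := branch_test (hF.iterate j) (Nat.one_le_pow _ _ hd1) isOpen_ball hU0
    (hH.differentiableOn (by simp)) hinv hχ hc hs'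
  set ψ : E (s + 2) → ℝ := (H '' ball y R).indicator fun z => χ (F^[j] z) with hψd
  have b1 : ∀ m i, eqp (p i) ψ (fun w => ‖w‖ ^ 2) (green d F (m + j)) ≤
      4 * B ^ 2 * C * (1 + j) * R⁻¹ ^ P / ((d : ℝ) ^ j) ^ (s + 2) := by
    intro m i
    obtain ⟨ha1, ha2⟩ := Img2_branch (hp i) isOpen_ball hH hH0
    rw [hψd, eqp_branch hF hd1 j m isOpen_ball hU0 hH hinv hχ hc hs' (hp i), div_eq_inv_mul]
    refine mul_le_mul_of_nonneg_left ?_ (by positivity)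
    refine (Img2_cut hr hy hR2 hs h0 h1 (fun q hq => (hHn q hq).2) ha1 ha2
      (green_spot hF hd1 m)).trans ?_
    refine (mul_le_mul_of_nonneg_left
      (hcore (p i) j m y R H (hp i) (hup i) (hlow i) hy hR hR2 hH hinv) (by positivity)).trans ?_
    exact le_of_eq (by ring)
  have b2 : ∀ m, eqp u ψ (fun w => ‖w‖ ^ 2) (green d F (m + j)) ≤
      4 * B ^ 2 * C * (1 + j) * R⁻¹ ^ P / ((d : ℝ) ^ j) ^ (s + 2) := fun m =>
    le_of_tendsto' (hlim _ (isCC_fam hψ contDiff_normSq.contDiffOn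
      (green_spot hF hd1 (m + j)).smooth)) (b1 m)
  have b3 := le_of_tendsto' ((h.tendsto hψ).comp (tendsto_add_atTop_nat j)) b2
  refine le_trans ?_ (ENNReal.ofReal_le_ofReal b3)
  have := h.fin
  refine (hψ.1.continuous.integrable_of_hasCompactSupport hψ.2.1).measure_le_integral
    (Eventually.of_forall fun z => indicator_nonneg (fun w _ => h0 _) z) ?_
  rintro _ ⟨q, hq, rfl⟩
  have hq' : q ∈ ball y R := by
    refine ball_subset_ball ?_ hq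
    have : 1 / 2 ^ (s + 3) / 2 * R = R / 2 ^ (s + 3) / 2 := by ring
    have h3 : 0 < R / 2 ^ (s + 3) := by positivity
    linarith
  rw [hψd, indicator_of_mem (mem_image_of_mem H hq'), hinv q hq', h2 q (ball_subset_closedBall hq)]

end Pool.Agent.Lib.MP_a47f92_an
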