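import Pool.Agent.Lib.MP_a47f92_an.Img1

set_option autoImplicit false
set_option linter.unusedSectionVars false

/-! The mass of the image of an inverse branch. -/

namespace Pool.Agent.Lib.MP_a47f92_an

open MeasureTheory Filter Topology Set Complex Metric Function
open scoped ContDiff ComplexConjugate ComplexOrder Matrix ENNReal NNReal

variable {n : ℕ}

variable {s d : ℕ} {F : E (s + 2) → E (s + 2)} {u : E (s + 2) → ℝ} {ν : Measure (E (s + 2))}

/-- Change of variables along the branch, `G = F^[j]`, `D = d ^ j`, `Ω = H '' U`. For `z ∈ Ω`: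
`p = (p ∘ H) ∘ G` near `z`, so `hess p z = cong P (hess (p ∘ H) (G z))`; by `md_fam_horiz`,
`hess_normSq_comp`, `hess_green_add`, `mdC_fam_smul`, `mdC_fam_cong`,
`md (fam (hess p z) 1 (hess (green (m + j)) z))` equals
`‖z‖ ^ 2 / (D ^ 2 ‖G z‖ ^ 2) * D ^ (-s) * jac G z * md (fam (hess (p ∘ H) q) 1 (hess (green m) q))`
with `q = G z`. Then `integral_image_lift` on `Ω`, `G '' Ω = U`. -/
theorem eqp_branch (hF : IsLift d F) (hd : 1 ≤ d) (j m : ℕ) {U : Set (E (s + 2))} (hU : IsOpen U)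
    (h0 : (0 : E (s + 2)) ∉ U) {H : E (s + 2) → E (s + 2)} (hH : ContDiffOn ℂ ∞ H U)
    (h : ∀ q ∈ U, F^[j] (H q) = q) {χ p : E (s + 2) → ℝ} (hχ : ContDiff ℝ ∞ χ)
    (hc : HasCompactSupport χ) (hs : tsupport χ ⊆ U) (hp : SPot p) :
    eqp p ((H '' U).indicator fun z => χ (F^[j] z)) (fun w => ‖w‖ ^ 2) (green d F (m + j)) =
      (((d : ℝ) ^ j) ^ (s + 2))⁻¹ * ∫ q in U, χ q * (‖H q‖ ^ 2 / ‖q‖ ^ 2) *
        md (fam (hess (fun w => p (H w)) q) 1 (hess (green d F m) q)) := by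
  have hG := hF.iterate j
  have hD : 1 ≤ d ^ j := Nat.one_le_pow _ _ hd
  have hHd : DifferentiableOn ℂ H U := hH.differentiableOn (by simp)
  have hΩ := isOpen_branch_image hG hU hHd h
  have hg := green_spot hF hd (m + j)
  have h2 : (2 : WithTop ℕ∞) ≤ ((⊤ : ℕ∞) : WithTop ℕ∞) := by
    rw [show (2 : WithTop ℕ∞) = ((2 : ℕ∞) : WithTop ℕ∞) from rfl]
    exact WithTop.coe_le_coe.2 le_top
  have hHG : ∀ z ∈ H '' U, H (F^[j] z) = z := by
    rintro _ ⟨q, hq, rfl⟩
    rw [h q hq]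
  have hi : InjOn F^[j] (H '' U) := fun z hz z' hz' e => by rw [← hHG z hz, e, hHG z' hz']
  have him : F^[j] '' (H '' U) = U := by
    rw [image_image]
    exact (image_congr h).trans (image_id' U)
  rw [eqp_smooth hp.smooth (branch_test hG hD hU h0 hHd h hχ hc hs) contDiff_normSq.contDiffOn
    hg.smooth]
  simp only [hess_normSq]
  rw [funext fun z => (indicator_mul_left (H '' U) (fun z => χ (F^[j] z))
    (fun z => md (fam (hess p z) 1 (hess (green d F (m + j)) z))) (i := z)).symm,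
    integral_indicator hΩ.measurableSet]
  conv_rhs => rw [← him, integral_image_lift hG hΩ.measurableSet hi, ← integral_const_mul]
  refine setIntegral_congr_fun hΩ.measurableSet fun z hz => ?_
  have hq : F^[j] z ∈ U := him ▸ mem_image_of_mem _ hz
  have hq0 : F^[j] z ≠ 0 := fun e => h0 (e ▸ hq)
  have hz0 : z ≠ 0 := fun e => hq0 (by rw [e, hG.zero hD])
  have h3 : hess p z =
      cong (cmat (fderiv ℂ F^[j] z)) (hess (fun w => p (H w)) (F^[j] z)) := by
    have e : p =ᶠ[𝓝 z] fun w => (fun w' => p (H w')) (F^[j] w) := by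
      filter_upwards [hΩ.mem_nhds hz] with w hw
      rw [hHG w hw]
    rw [(hess_congr e).eq_of_nhds]
    refine hess_comp (ψ := fun w' => p (H w')) (hG.contDiff.contDiffAt.of_le h2) ?_
    refine ContDiffAt.comp (g := p) (f := H) _ ?_
      (((hH.contDiffAt (hU.mem_nhds hq)).restrict_scalars ℝ).of_le h2)
    rw [hHG z hz]
    exact (hp.smooth.contDiffAt (isOpen_compl_singleton.mem_nhds hz0)).of_le h2
  have h4 := md_fam_horiz hp hg hG hz0
  have h5 := mdC_fam_smul (s := s) 1 1 ((((d : ℝ) ^ j)⁻¹ : ℝ) : ℂ) (hess p z)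
    (hess (fun w => ‖F^[j] w‖ ^ 2) z)
    (cong (cmat (fderiv ℂ F^[j] z)) (hess (green d F m) (F^[j] z)))
  rw [one_smul, one_smul, ← hess_green_add hF hd m j hz0] at h5
  rw [md, h5, hess_normSq_comp hG, h3, mdC_fam_cong, ← h3, cmat_det, one_mul, one_mul,
    ← ofReal_pow, re_ofReal_mul, re_ofReal_mul, Nat.cast_pow] at h4
  have p1 : (0 : ℝ) < (d : ℝ) ^ j := by positivity
  have p2 : 0 < ‖z‖ := norm_pos_iff.2 hz0
  have p3 : 0 < ‖F^[j] z‖ := norm_pos_iff.2 hq0
  have h6 : md (fam (hess p z) 1 (hess (green d F (m + j)) z)) =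
      ‖z‖ ^ 2 / (((d : ℝ) ^ j) ^ 2 * ‖F^[j] z‖ ^ 2) * ((((d : ℝ) ^ j)⁻¹) ^ s * (jac F^[j] z *
        md (fam (hess (fun w => p (H w)) (F^[j] z)) 1 (hess (green d F m) (F^[j] z))))) := by
    rw [jac, h4]
    field_simp
  rw [h6, hHG z hz, inv_pow, pow_add _ s 2]
  field_simp

end Pool.Agent.Lib.MP_a47f92_an
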