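import Pool.Agent.Lib.MP_a47f92_an.Img1

set_option autoImplicit false
set_option linter.unusedSectionVars false

/-! From the cone to the sphere. -/

namespace Pool.Agent.Lib.MP_a47f92_an

open MeasureTheory Filter Topology Set Complex Metric Function
open scoped ContDiff ComplexConjugate ComplexOrder Matrix ENNReal NNReal

variable {n : ℕ}

variable {d : ℕ} {F : E n → E n}

theorem Img3_pow {D : ℕ} (hD : 1 ≤ D) {r τ : ℝ} (hr : 0 < r) (hr' : r ≤ 1 / 2) (h1 : 1 ≤ τ)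
    (h2 : τ ≤ 1 + r / (8 * D)) : τ ^ D ≤ 1 + r / 4 := by
  have hD' : (0 : ℝ) < D := by exact_mod_cast hD
  have h3 : τ ≤ Real.exp (r / (8 * D)) := by linarith [Real.add_one_le_exp (r / (8 * D))]
  have h4 : τ ^ D ≤ Real.exp (r / 8) := by
    refine (pow_le_pow_left₀ (by linarith) h3 D).trans (le_of_eq ?_)
    rw [← Real.exp_nat_mul]
    congr 1
    field_simp
  have h5 : |r / 8| = r / 8 := abs_of_pos (by linarith)
  have h6 := Real.abs_exp_sub_one_le (x := r / 8) (by rw [h5]; linarith)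
  rw [h5] at h6
  linarith [le_abs_self (Real.exp (r / 8) - 1)]

theorem Img3_inner {D : ℕ} {G H : E n → E n} (hG : IsLift D G) (hD : 1 ≤ D) {y : E n} {r b : ℝ}
    (hy : ‖y‖ = 1) (hr : 0 < r) (hr' : r ≤ 1 / 2) (hH : DifferentiableOn ℂ H (ball y r))
    (h : ∀ q ∈ ball y r, G (H q) = q) {q : E n} (hq : q ∈ ball y (r / 2)) (hb : 0 < b)
    (hb' : b ≤ ‖H q‖) {a : E n} (ha : ‖a‖ = 1) {t : ℝ} (ht : 0 < t) (hat : a = t • H q) :
    ENNReal.ofReal (b ^ 2 * r / (4 * D)) ≤ ∫⁻ σ in Ioi (0 : ℝ), ENNReal.ofReal (2 * σ) *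
      (H '' ball y r).indicator (1 : E n → ℝ≥0∞) (σ • a) := by
  have hD' : (0 : ℝ) < D := by exact_mod_cast hD
  set N := ‖H q‖ with hN
  have hN0 : 0 < N := hb.trans_le hb'
  have htN : t * N = 1 := by
    rw [← ha, hat, norm_smul, Real.norm_of_nonneg ht.le]
  have hq1 : ‖q - y‖ < r / 2 := mem_ball_iff_norm.1 hq
  have hq2 : ‖q‖ ≤ 2 := by
    have := norm_le_insert' q y
    linarith
  have h0 : (0 : E n) ∉ ball y r := by
    rw [mem_ball_iff_norm, zero_sub, norm_neg, hy]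
    linarith
  have hε : 0 < r / (8 * D) := by positivity
  have hsub : Icc N (N + N * (r / (8 * D))) ⊆ Ioi 0 := fun σ hσ => hN0.trans_le hσ.1
  refine le_trans ?_ (lintegral_mono_set hsub)
  refine le_trans ?_ (setLIntegral_mono' (f := fun _ => ENNReal.ofReal (2 * b)) measurableSet_Icc
    fun σ hσ => ?_)
  · rw [setLIntegral_const, Real.volume_Icc, ← ENNReal.ofReal_mul (by positivity)]
    refine ENNReal.ofReal_le_ofReal ?_
    have h1 : b * (r / (8 * D)) ≤ N * (r / (8 * D)) := mul_le_mul_of_nonneg_right hb' hε.le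
    have h2 : b ^ 2 * r / (4 * D) = 2 * b * (b * (r / (8 * D))) := by
      field_simp
      ring
    rw [h2, add_sub_cancel_left]
    exact mul_le_mul_of_nonneg_left h1 (by positivity)
  · have h1 : 1 ≤ σ * t := by nlinarith [hσ.1]
    have h2 : σ * t ≤ 1 + r / (8 * D) := by
      have h3 := mul_le_mul_of_nonneg_right hσ.2 ht.le
      have h4 : (N + N * (r / (8 * D))) * t = (t * N) * (1 + r / (8 * D)) := by ring
      rwa [h4, htN, one_mul] at h3
    have h3 := Img3_pow hD hr hr' h1 h2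
    have h4 : 1 ≤ (σ * t) ^ D := one_le_pow₀ h1
    have h5 : (σ * t) ^ D • q ∈ ball y r := by
      rw [mem_ball_iff_norm, show (σ * t) ^ D • q - y = ((σ * t) ^ D - 1) • q + (q - y) by
        rw [sub_smul, one_smul]; abel]
      refine (norm_add_le _ _).trans_lt ?_
      rw [norm_smul, Real.norm_of_nonneg (by linarith)]
      nlinarith [norm_nonneg q]
    have h6 := branch_smul hG hD h0 hH h (ball_subset_ball (by linarith) hq) (by linarith) h5
    have h7 : σ • a ∈ H '' ball y r := ⟨_, h5, by rw [h6, hat, smul_smul]⟩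
    rw [indicator_of_mem h7, Pi.one_apply, mul_one]
    exact ENNReal.ofReal_le_ofReal (by linarith [hσ.1])

/-- Let `r = c₀ R`, `D = d ^ j`, `Ω = H '' ball y r` (open). If `a = t • H q` with `q ∈ ball y (r / 2)`
then for `1 ≤ τ ≤ 1 + r / (8 D)` we have `τ ^ D ≤ exp (r / 8) ≤ 1 + r / 4`, so `τ ^ D • q ∈ ball y r`
and `(τ ‖H q‖) • a = H (τ ^ D • q) ∈ Ω` (`branch_smul`). With `‖H q‖ ≥ b` (`orbit_bound`) the inner
integral in `Polar` for the indicator function of `Ω` is at least `b ^ 2 r / (4 D)`. Conclude with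
`mul_meas_ge_le_lintegral`-type inequalities (the inner integral is measurable in `a`, or use
`lintegral_mono` with `le_lintegral`-type bounds for the measurable hull). -/
theorem img_sphere (hn : 1 ≤ n) (hF : IsLift d F) (hd : 2 ≤ d) {ν : Measure (E n)}
    {νS : Measure (Sph n)} (hP : Polar ν νS) {c₀ C : ℝ} {p : ℕ} (hc : 0 < c₀) (hc' : c₀ ≤ 1)
    (hC : 0 ≤ C)
    (h : ∀ (j : ℕ) (y : E n) (R : ℝ) (H : E n → E n), ‖y‖ = 1 → 0 < R → R ≤ 1 / 2 →
      ContDiffOn ℂ ∞ H (ball y R) → (∀ q ∈ ball y R, F^[j] (H q) = q) →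
      ν (H '' ball y (c₀ * R)) ≤ ENNReal.ofReal (C * (1 + j) * R⁻¹ ^ p / ((d : ℝ) ^ j) ^ n)) :
    Img d F νS := by
  obtain ⟨b, B, hb, -, hbB⟩ := orbit_bound hF hd
  refine ⟨c₀ / 2, 4 * C / (b ^ 2 * c₀), p + 1, by positivity, by linarith, by positivity,
    fun j y R H hy hR hR' hH hFH => ?_⟩
  have hr : 0 < c₀ * R := mul_pos hc hR
  have hrR : c₀ * R ≤ R := mul_le_of_le_one_left hR.le hc'
  have hsub : ball y (c₀ * R) ⊆ ball y R := ball_subset_ball hrR
  have hHd : DifferentiableOn ℂ H (ball y (c₀ * R)) :=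
    (hH.differentiableOn (by simp)).mono hsub
  have hFH' : ∀ q ∈ ball y (c₀ * R), F^[j] (H q) = q := fun q hq => hFH q (hsub hq)
  have hD : 1 ≤ d ^ j := Nat.one_le_pow _ _ (by omega)
  have hd0 : (0 : ℝ) < d := by exact_mod_cast (by omega : 0 < d)
  have hΩ : MeasurableSet (H '' ball y (c₀ * R)) :=
    (isOpen_branch_image (hF.iterate j) isOpen_ball hHd hFH').measurableSet
  have hg : Measurable ((H '' ball y (c₀ * R)).indicator (1 : E n → ℝ≥0∞)) :=
    measurable_one.indicator hΩ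
  set δ := b ^ 2 * (c₀ * R) / (4 * ((d ^ j : ℕ) : ℝ)) with hδ
  have hδ0 : 0 < δ := by positivity
  set I : Sph n → ℝ≥0∞ := fun a => ∫⁻ σ in Ioi (0 : ℝ), ENNReal.ofReal (2 * σ) *
      (H '' ball y (c₀ * R)).indicator (1 : E n → ℝ≥0∞) (σ • (a : E n)) with hI
  have hIm : Measurable I := by
    refine Measurable.lintegral_prod_right' (f := fun x : Sph n × ℝ => ENNReal.ofReal (2 * x.2) *
      (H '' ball y (c₀ * R)).indicator (1 : E n → ℝ≥0∞) (x.2 • (x.1 : E n))) ?_
    refine (ENNReal.measurable_ofReal.comp (measurable_snd.const_mul 2)).mul (hg.comp ?_)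
    exact (continuous_snd.smul (continuous_subtype_val.comp continuous_fst)).measurable
  have h1 : {a : Sph n | ∃ q ∈ ball y (c₀ / 2 * R), ∃ t : ℝ, 0 < t ∧ (a : E n) = t • H q} ⊆
      {a | ENNReal.ofReal δ ≤ I a} := by
    rintro a ⟨q, hq, t, ht, hat⟩
    rw [show c₀ / 2 * R = c₀ * R / 2 by ring] at hq
    have hq1 : ‖q - y‖ < c₀ * R / 2 := mem_ball_iff_norm.1 hq
    have hq' := hFH' q (ball_subset_ball (by linarith) hq)
    have hq2 := norm_le_insert' q y
    have hq3 := norm_le_insert q y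
    have hb' := (hbB j (H q) (by rw [hq']; linarith) (by rw [hq']; linarith) 0 (Nat.zero_le j)).1
    exact Img3_inner (hF.iterate j) hD hy hr (by linarith) hHd hFH' hq hb hb' (sph_norm a) ht hat
  have h2 : ∫⁻ a, I a ∂νS ≤ ν (H '' ball y (c₀ * R)) := by
    rw [← hP _ hg, ← lintegral_indicator_one hΩ]
    exact lintegral_mono' Measure.restrict_le_self le_rfl
  have h3 := (mul_meas_ge_le_lintegral₀ (μ := νS) hIm.aemeasurable (ENNReal.ofReal δ)).trans
    (h2.trans (h j y R H hy hR hR' hH hFH))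
  have h4 : C * (1 + j) * R⁻¹ ^ p / ((d : ℝ) ^ j) ^ n =
      δ * (4 * C / (b ^ 2 * c₀) * (1 + j) * R⁻¹ ^ (p + 1) / ((d : ℝ) ^ (n - 1)) ^ j) := by
    obtain ⟨k, rfl⟩ : ∃ k, n = k + 1 := ⟨n - 1, by omega⟩
    rw [hδ, Nat.add_sub_cancel, Nat.cast_pow, ← pow_mul (d : ℝ) k j, mul_comm k j,
      pow_mul (d : ℝ) j k, pow_succ ((d : ℝ) ^ j) k, pow_succ R⁻¹ p]
    field_simp
  rw [h4, ENNReal.ofReal_mul hδ0.le] at h3
  exact (measure_mono h1).trans ((ENNReal.mul_le_mul_iff_right (ENNReal.ofReal_pos.2 hδ0).ne'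
    ENNReal.ofReal_ne_top).1 h3)

end Pool.Agent.Lib.MP_a47f92_an
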