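import Pool.Agent.Lib.MP_a47f92_an.Def

set_option autoImplicit false
set_option linter.unusedSectionVars false

/-! Internal definitions. -/

namespace Pool.Agent.Lib.MP_a47f92_an

open MeasureTheory Filter Topology Set Complex Metric Function
open scoped ContDiff ComplexConjugate ComplexOrder Matrix ENNReal NNReal

variable {n : ℕ}

/-- Real part of the mixed discriminant. -/
noncomputable abbrev md (A : Fin n → Mat n) : ℝ := (mdC A).re

/-- The sesquilinear form of a matrix on the diagonal. -/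
noncomputable def qf (H : Mat n) (v : E n) : ℂ := ∑ i, ∑ j, v i * conj (v j) * H i j

theorem levi_eq_qf (ψ : E n → ℝ) (z v : E n) : levi ψ z v = (qf (hess ψ z) v).re := rfl

/-- Congruence (pull-back of a form of bidegree `(1,1)` by the matrix `P`). -/
noncomputable def cong (P H : Mat n) : Mat n := Pᵀ * H * P.map conj

/-- The rank one matrix of a linear form. -/
noncomputable def r1 (ℓ : E n →L[ℂ] ℂ) : Mat n := Matrix.of fun i j => ℓ (ev i) * conj (ℓ (ev j))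

/-- Coefficient of the entry `(i, j)` of the slot `l` in the mixed discriminant. -/
noncomputable def cof (A : Fin n → Mat n) (l i j : Fin n) : ℂ :=
  mdC (update A l (Matrix.single i j 1))

/-- The matrix of a continuous linear map. -/
noncomputable def cmat (T : E n →L[ℂ] E n) : Mat n := Matrix.of fun i j => T (ev j) i

/-- The real Jacobian determinant of a holomorphic map. -/
noncomputable def jac (F : E n → E n) (z : E n) : ℝ := ‖(fderiv ℂ F z).det‖ ^ 2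

/-- Regular points. -/
def Reg (F : E n → E n) : Set (E n) := {z | (fderiv ℂ F z).det ≠ 0}

/-- Weakly plurisubharmonic on `Ω` (minus the origin). -/
def WPsh (u : E n → ℝ) (Ω : Set (E n)) : Prop :=
  ∀ ψ, IsTest ψ → (∀ z, 0 ≤ ψ z) → tsupport ψ ⊆ Ω → ∀ v, 0 ≤ pair u ψ v

/-- Weakly pluriharmonic on `Ω` (minus the origin). -/
def WPh (u : E n → ℝ) (Ω : Set (E n)) : Prop :=
  ∀ ψ, IsTest ψ → (∀ z, 0 ≤ ψ z) → tsupport ψ ⊆ Ω → ∀ v, pair u ψ v = 0

/-- Almost everywhere logarithmic homogeneity with coefficient `c`. -/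
def LHom (c : ℝ) (u : E n → ℝ) : Prop :=
  ∀ a : ℂ, a ≠ 0 → ∀ᵐ z, u (a • z) = u z + c * Real.log ‖a‖

/-- Exact logarithmic homogeneity with coefficient `c`. -/
def XHom (c : ℝ) (p : E n → ℝ) : Prop :=
  ∀ a : ℂ, a ≠ 0 → ∀ z, z ≠ 0 → p (a • z) = p z + c * Real.log ‖a‖

/-- Smooth potentials. -/
structure SPot (p : E n → ℝ) : Prop where
  smooth : ContDiffOn ℝ ∞ p {0}ᶜ
  hom : XHom 1 p
  psh : ∀ z, z ≠ 0 → ∀ v, 0 ≤ levi p z v

/-- Continuous functions with compact support in the complement of the origin. -/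
def IsCC (h : E n → ℝ) : Prop := Continuous h ∧ HasCompactSupport h ∧ 0 ∉ tsupport h

theorem IsTest.isCC {ψ : E n → ℝ} (h : IsTest ψ) : IsCC ψ := ⟨h.1.continuous, h.2⟩

theorem IsPot.lhom {u : E n → ℝ} (h : IsPot u) : LHom 1 u := fun a ha => by
  simpa only [one_mul] using h.hom a ha

theorem IsPot.wpsh {u : E n → ℝ} (h : IsPot u) (Ω : Set (E n)) : WPsh u Ω :=
  fun ψ h1 h2 _ v => h.psh ψ h1 h2 v

theorem IsPot.of {u : E n → ℝ} (h1 : LocallyIntegrable u) (h2 : LHom 1 u) (h3 : WPsh u univ) :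
    IsPot u :=
  ⟨h1, fun a ha => by simpa only [one_mul] using h2 a ha,
    fun ψ h4 h5 v => h3 ψ h4 h5 (subset_univ _) v⟩

theorem WPsh.mono {u : E n → ℝ} {Ω Ω' : Set (E n)} (h : WPsh u Ω) (h' : Ω' ⊆ Ω) : WPsh u Ω' :=
  fun ψ h1 h2 h3 v => h ψ h1 h2 (h3.trans h') v

theorem WPh.mono {u : E n → ℝ} {Ω Ω' : Set (E n)} (h : WPh u Ω) (h' : Ω' ⊆ Ω) : WPh u Ω' :=
  fun ψ h1 h2 h3 v => h ψ h1 h2 (h3.trans h') v

theorem pair_neg (u ψ : E n → ℝ) (v : E n) : pair (fun z => -u z) ψ v = -pair u ψ v := by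
  simp only [pair, neg_mul, integral_neg]

theorem wph_iff {u : E n → ℝ} {Ω : Set (E n)} : WPh u Ω ↔ WPsh u Ω ∧ WPsh (fun z => -u z) Ω := by
  refine ⟨fun h => ⟨fun ψ h1 h2 h3 v => (h ψ h1 h2 h3 v).ge, fun ψ h1 h2 h3 v => ?_⟩,
    fun h ψ h1 h2 h3 v => le_antisymm ?_ (h.1 ψ h1 h2 h3 v)⟩
  · rw [pair_neg, h ψ h1 h2 h3 v, neg_zero]
  · have := h.2 ψ h1 h2 h3 v
    rwa [pair_neg, neg_nonneg] at this

/-- The smoothing kernel: a probability measure `m` on the unit ball of matrices such that the law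
of `A z` is that of `‖z‖ w`, where `w` has the smooth density `k`. -/
structure Ker (n : ℕ) where
  m : Measure (E n →L[ℂ] E n)
  k : E n → ℝ
  prob : IsProbabilityMeasure m
  le_one : ∀ᵐ A ∂m, ‖A‖ ≤ 1
  pos : ∀ ε : ℝ, 0 < ε → 0 < m (ball 0 ε)
  smooth : ContDiff ℝ ∞ k
  nonneg : ∀ w, 0 ≤ k w
  pos_iff : ∀ w, 0 < k w ↔ ‖w‖ < 1
  rot : ∀ c : ℂ, ‖c‖ = 1 → ∀ w, k (c • w) = k w
  law : ∀ z : E n, z ≠ 0 → m.map (fun A => A z) =
    (volume.withDensity fun w => ENNReal.ofReal (k w)).map fun w => ‖z‖ • w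

/-- The smoothing operator. -/
noncomputable def sm (κ : Ker n) (r : ℝ) (g : E n → ℝ) (z : E n) : ℝ :=
  ∫ w, g (z + (r * ‖z‖) • w) * κ.k w

/-- Relative closed neighbourhood of a cone. -/
def nb (r : ℝ) (K : Set (E n)) : Set (E n) := {z | ∃ y ∈ K, ‖y - z‖ ≤ r * ‖z‖}

/-- The unit sphere. -/
abbrev Sph (n : ℕ) := sphere (0 : E n) 1

/-- Normalised image. -/
noncomputable def nm (G : E n → E n) (z : E n) : E n := ‖G z‖⁻¹ • G z

open Classical in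
/-- The map induced on the unit sphere. -/
noncomputable def sf (G : E n → E n) (x : Sph n) : Sph n :=
  if h : G x = 0 then x else ⟨nm G x, by
    rw [mem_sphere_zero_iff_norm, nm, norm_smul, norm_inv, norm_norm,
      inv_mul_cancel₀ (norm_ne_zero_iff.2 h)]⟩

/-- Points of the sphere with a regular forward orbit. -/
def RegI (G : E n → E n) : Set (Sph n) := {x | ∀ i, (((sf G)^[i] x : Sph n) : E n) ∈ Reg G}

/-- Normalised derivative. -/
noncomputable def nd (G : E n → E n) (z : E n) : E n →L[ℂ] E n :=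
  ((‖G z‖⁻¹ : ℝ) : ℂ) • fderiv ℂ G z

/-- Logarithmic size of the inverse of the normalised derivative. -/
noncomputable def ell (G : E n → E n) (x : Sph n) : ℝ :=
  Real.log (2 * max 1 ‖(nd G x).inverse‖)

/-- Orthogonal projection along the unit vector `x`. -/
noncomputable def prj (x : E n) : E n →L[ℂ] E n :=
  ContinuousLinearMap.id ℂ (E n) - (innerSL ℂ x).smulRight x

/-- Norm of the inverse of the derivative on projective space. -/
noncomputable def beta (G : E n → E n) (x : Sph n) : ℝ := ‖(prj x).comp (nd G x).inverse‖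

/-- Points with regular orbit at which the smallest exponent is not negative. -/
def Bad (F : E n → E n) : Set (Sph n) :=
  {x | x ∈ RegI F ∧ ∀ ε : ℝ, 0 < ε → ∃ᶠ m : ℕ in atTop, beta F^[m] x ≤ Real.exp (ε * m)}

/-- `h` is a normalised inverse branch of `G ^ J` at `x` on a ball of radius `r`, with Lipschitz
control `L` at the centre at all intermediate times. -/
structure NB (G : E n → E n) (J : ℕ) (x : E n) (r L : ℝ) (h : E n → E n) : Prop where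
  smooth : ContDiffOn ℂ ∞ h (ball (nm G^[J] x) r)
  ctr : h (nm G^[J] x) = x
  inv : ∀ q ∈ ball (nm G^[J] x) r, G^[J] (h q) = ‖G^[J] x‖ • q
  lip : ∀ q ∈ ball (nm G^[J] x) r, ∀ i ≤ J,
    ‖‖G^[i] x‖⁻¹ • G^[i] (h q) - nm G^[i] x‖ ≤ L * ‖q - nm G^[J] x‖

/-- Polar decomposition of a measure which scales like a two-dimensional measure. -/
def Polar (ν : Measure (E n)) (νS : Measure (Sph n)) : Prop :=
  ∀ g : E n → ℝ≥0∞, Measurable g →
    ∫⁻ z in {0}ᶜ, g z ∂ν = ∫⁻ a, (∫⁻ σ in Ioi (0 : ℝ), ENNReal.ofReal (2 * σ) * g (σ • (a : E n))) ∂νS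

/-- The pairing which defines the equilibrium measure. -/
noncomputable def eqp {s : ℕ} (u ψ b g : E (s + 2) → ℝ) : ℝ :=
  ∫ z, u z * md (fam (hess ψ z) (hess b z) (hess g z))

/-- The counting estimate: few preimages stay in `W`. -/
def AG (d : ℕ) (F : E n → E n) (W : Set (E n)) (C : ℝ) : Prop :=
  ∀ (y : E n) (r : ℝ) (N : ℕ) (c : ℕ → ℕ), ‖y‖ = 1 → 0 < r → r ≤ 1 / 2 →
    (∀ j < N, ∀ q ∈ ball y r, ∃ T : Finset (E n), T.card = c j ∧ ∀ w ∈ T, w ∈ W ∧ F^[j] w = q) →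
    ∑ j ∈ Finset.range N, (c j : ℝ) / ((d : ℝ) ^ (n - 1)) ^ j ≤ C * (1 + Real.log r⁻¹)

/-- The mass estimate for images of inverse branches. -/
def Img (d : ℕ) (F : E n → E n) (νS : Measure (Sph n)) : Prop :=
  ∃ (c₀ C : ℝ) (p : ℕ), 0 < c₀ ∧ c₀ ≤ 1 ∧ 0 ≤ C ∧ ∀ (j : ℕ) (y : E n) (R : ℝ) (H : E n → E n),
    ‖y‖ = 1 → 0 < R → R ≤ 1 / 2 → ContDiffOn ℂ ∞ H (ball y R) → (∀ q ∈ ball y R, F^[j] (H q) = q) →
    νS {a | ∃ q ∈ ball y (c₀ * R), ∃ t : ℝ, 0 < t ∧ (a : E n) = t • H q} ≤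
      ENNReal.ofReal (C * (1 + j) * R⁻¹ ^ p / ((d : ℝ) ^ (n - 1)) ^ j)

section Abstract

variable {X : Type} [MetricSpace X]

/-- `f` is locally a homeomorphism on `R` with at most `L` points of `R` in each fibre. -/
structure LocH (f : X → X) (R : Set X) (L : ℕ) : Prop where
  cont : Continuous f
  op : IsOpen R
  inj : ∀ x ∈ R, ∃ U ∈ 𝓝 x, InjOn f U
  opn : ∀ x ∈ R, ∀ U ∈ 𝓝 x, f '' U ∈ 𝓝 (f x)
  fib : ∀ y (T : Finset X), (∀ x ∈ T, x ∈ R ∧ f x = y) → T.card ≤ L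

/-- The transfer operator without weights. -/
noncomputable def Lop (f : X → X) (R : Set X) (g : X → ℝ≥0∞) (y : X) : ℝ≥0∞ :=
  ∑' x, (R ∩ f ⁻¹' {y}).indicator g x

/-- Continuous sub-probability weights on the fibres. -/
structure CWt (f : X → X) (R : Set X) (w : X → ℝ) : Prop where
  cont : Continuous w
  pos : ∀ x, 0 < w x
  le_one : ∀ x, w x ≤ 1
  fib : ∀ y (T : Finset X), (∀ x ∈ T, x ∈ R ∧ f x = y) → ∑ x ∈ T, w x ≤ 1

variable [MeasurableSpace X]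

/-- The pull-back of `μ` by `f` restricted to `R`. -/
structure IsPull (f : X → X) (R : Set X) (μ μ' : Measure X) : Prop where
  fin : IsFiniteMeasure μ'
  meas : ∀ g : X → ℝ≥0∞, Measurable g → Measurable (Lop f R g)
  eq : ∀ g : X → ℝ≥0∞, Measurable g → ∫⁻ x, g x ∂μ' = ∫⁻ y, Lop f R g y ∂μ
  le : μ ≤ μ'

/-- Counting hypothesis of the abstract argument. -/
def Cnt (f : X → X) (μ : Measure X) (lam : ℝ) : Prop :=
  ∃ (C : ℝ) (S : Set X), MeasurableSet S ∧ (∀ᵐ x ∂μ, x ∈ S) ∧ ∀ ε : ℝ, 0 < ε →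
    ∃ (t : ℕ → X → ℝ) (C' : ℝ), (∀ j, Measurable (t j)) ∧ (∀ j x, 0 ≤ t j x) ∧
      (∀ j, Integrable (t j) μ ∧ ∫ x, t j x ∂μ ≤ C' + ε * j) ∧
      ∀ (y : X) (N : ℕ) (τ : ℝ) (T : ℕ → Finset X), 0 ≤ τ →
        (∀ j < N, ∀ x ∈ T j, x ∈ S ∧ f^[j] x = y ∧ t j x ≤ τ) →
        ∑ j ∈ Finset.range N, ((T j).card : ℝ) / lam ^ j ≤ C * (1 + τ)

/-- Shadowing hypothesis of the abstract argument. -/
def Geo (f : X → X) (R : Set X) (μ : Measure X) (lam : ℝ) : Prop :=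
  ∃ (C₁ : ℝ) (S : Set X), 0 ≤ C₁ ∧ (∀ᵐ x ∂μ, x ∈ S) ∧ ∀ ε : ℝ, 0 < ε →
    ∃ (m : ℕ) (ℓ : X → ℝ), 1 ≤ m ∧ Measurable ℓ ∧ (∀ x, 0 ≤ ℓ x) ∧ Integrable ℓ μ ∧
      ∫ x, ℓ x ∂μ ≤ ε * m ∧ ∀ δ : ℝ, 0 < δ → ∃ C₂ : ℝ, ∀ (J : ℕ) (τ : ℝ), 0 ≤ τ →
        ∃ (Y : Finset X) (π : X → X), (Y.card : ℝ) ≤ C₂ * Real.exp (C₁ * τ) ∧
          (∀ x ∈ S, birkhoffSum f^[m] ℓ J x ≤ τ → f^[m * J] (π x) ∈ Y ∧
            (∀ i < m * J, f^[i] (π x) ∈ R) ∧ ∀ i < J, dist (f^[m * i] (π x)) (f^[m * i] x) ≤ δ) ∧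
          ∀ p, μ {x | x ∈ S ∧ birkhoffSum f^[m] ℓ J x ≤ τ ∧ π x = p} ≤
            ENNReal.ofReal (C₂ * (1 + J) * Real.exp (C₁ * τ) / lam ^ (m * J))

end Abstract

end Pool.Agent.Lib.MP_a47f92_an
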