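import Pool.Agent.Lib.MP_a47f92_an.Eqm

set_option autoImplicit false
set_option linter.unusedSectionVars false

/-! Invariance of the equilibrium measure. -/

namespace Pool.Agent.Lib.MP_a47f92_an

open MeasureTheory Filter Topology Set Complex Metric Function
open scoped ContDiff ComplexConjugate ComplexOrder Matrix ENNReal NNReal

variable {n : ℕ}

variable {s d : ℕ} {F : E (s + 2) → E (s + 2)} {u ψ : E (s + 2) → ℝ} {ν : Measure (E (s + 2))}

theorem Inv_md (hF : IsLift d F) (hd : 1 ≤ d) (hψ : IsTest ψ) (m : ℕ) {z : E (s + 2)} (hz : z ≠ 0) :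
    md (fam (hess (fun z => ψ (F z)) z) (hess (fun w => ‖F w‖ ^ 2) z) (hess (green d F (m + 1)) z)) =
      ((d : ℝ) ^ s)⁻¹ * (jac F z * md (fam (hess ψ (F z))
        (hess (fun w : E (s + 2) => ‖w‖ ^ 2) (F z)) (hess (green d F m) (F z)))) := by
  have h1 := mdC_fam_smul 1 1 ((((d : ℝ) ^ 1)⁻¹ : ℝ) : ℂ)
    (cong (cmat (fderiv ℂ F z)) (hess ψ (F z))) (cong (cmat (fderiv ℂ F z)) 1)
    (cong (cmat (fderiv ℂ F z)) (hess (green d F m) (F z)))
  rw [one_smul, one_smul, mdC_fam_cong, cmat_det, one_mul, one_mul, ← ofReal_pow, pow_one,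
    inv_pow] at h1
  have h2 : (2 : WithTop ℕ∞) ≤ ((⊤ : ℕ∞) : WithTop ℕ∞) := WithTop.coe_le_coe.2 le_top
  rw [hess_comp (hF.contDiff.contDiffAt.of_le h2) (hψ.1.contDiffAt.of_le h2),
    hess_normSq_comp hF, hess_green_add hF hd m 1 hz, hess_normSq, iterate_one, pow_one, md, h1,
    re_ofReal_mul, re_ofReal_mul, jac]

theorem Inv_bound (hF : IsLift d F) (hd : 1 ≤ d) {K : Set (E (s + 2))} (hK : IsCompact K) :
    ∃ B : ℝ, ∀ z ∈ K, d * ‖F z‖ ^ 2 / ‖z‖ ^ 2 ≤ B := by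
  obtain ⟨c, C, -, -, h⟩ := hF.bounds hd
  obtain ⟨B, hB⟩ := hK.exists_bound_of_continuousOn
    (f := fun z => (d : ℝ) * (C * ‖z‖ ^ (d - 1)) ^ 2) (by fun_prop)
  refine ⟨B, fun z hz => le_trans ?_ ((le_abs_self _).trans (hB z hz))⟩
  refine div_le_of_le_mul₀ (by positivity) (by positivity) ?_
  rw [mul_assoc, ← mul_pow, mul_assoc, ← pow_succ, Nat.sub_add_cancel hd]
  gcongr
  exact (h z).2

/-- Pointwise the integrand is `d ^ (-s) jac F z * md (…) (F z)` (`hess_comp`, `hess_normSq_comp`,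
`hess_green_add` with `j = 1`, `mdC_fam_smul`, `mdC_fam_cong`); then `area_mul`, `isCC_fam`,
`tr F u = d ^ (s + 1) (u + c)` almost everywhere and `eqp_add_const`. -/
theorem eqp_pull (hF : IsLift d F) (hd : 1 ≤ d) (hu : IsPot u) {c : ℝ}
    (hc : ∀ᵐ q, push d F 1 u q = u q + c) (hψ : IsTest ψ) (m : ℕ) :
    eqp u (fun z => ψ (F z)) (fun w => ‖F w‖ ^ 2) (green d F (m + 1)) =
      d * eqp u ψ (fun w => ‖w‖ ^ 2) (green d F m) := by
  have hg := (green_spot hF hd m).smooth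
  have hb : ContDiffOn ℝ ∞ (fun w : E (s + 2) => ‖w‖ ^ 2) {0}ᶜ := contDiff_normSq.contDiffOn
  have hd0 : (d : ℝ) ≠ 0 := Nat.cast_ne_zero.2 (by omega)
  have h0 : ∀ᵐ z : E (s + 2), z ≠ 0 := by simp [ae_iff]
  have h1 := area_mul hF hd hu.int (isCC_fam hψ hb hg)
  rw [← eqp_add_const hu.int c hψ hb hg, eqp, eqp, integral_congr_ae (h0.mono fun z hz => by
    rw [Inv_md hF hd hψ m hz, mul_left_comm]), integral_const_mul, ← h1, ← integral_const_mul,
    ← integral_const_mul]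
  refine integral_congr_ae (hc.mono fun q hq => ?_)
  simp only
  rw [← hq, push_one, show s + 2 - 1 = s + 1 from rfl]
  field_simp
  ring

theorem IsEqMeasure.pull_test (h : IsEqMeasure d F u ν) (hF : IsLift d F) (hd : 1 ≤ d)
    (hu : IsPot u) {c : ℝ} (hc : ∀ᵐ q, push d F 1 u q = u q + c) (hψ : IsTest ψ) :
    ∫ z, (d * ‖F z‖ ^ 2 / ‖z‖ ^ 2) * ψ (F z) ∂ν = ∫ z, ψ z ∂ν := by
  have hd0 : (d : ℝ) ≠ 0 := Nat.cast_ne_zero.2 (by omega)
  have h1 := fun m => eqp_twist hu (hF.test_comp hd hψ) (green_spot hF hd m) hF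
  have h2 := (h.tendsto (h1 0).1).comp (tendsto_add_atTop_nat 1)
  have h3 := tendsto_nhds_unique h2 (((h.tendsto hψ).const_mul (d : ℝ)).congr fun m =>
    (eqp_pull hF hd hu hc hψ m).symm.trans (h1 (m + 1)).2)
  refine mul_left_cancel₀ hd0 ?_
  rw [← h3, ← integral_const_mul]
  congr 1
  funext z
  ring

/-- Apply `restrict_eq_of_test` to `ν` and the image under `F` of `ν.restrict {0}ᶜ` with density
`d ‖F z‖ ^ 2 / ‖z‖ ^ 2 ≤ C ‖z‖ ^ (2 d - 2)`, which is finite on compact sets and gives no mass to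
the origin. -/
theorem IsEqMeasure.pull (h : IsEqMeasure d F u ν) (hF : IsLift d F) (hd : 1 ≤ d)
    (hu : IsPot u) {c : ℝ} (hc : ∀ᵐ q, push d F 1 u q = u q + c) (g : E (s + 2) → ℝ≥0∞)
    (hg : Measurable g) :
    ∫⁻ z in {0}ᶜ, ENNReal.ofReal (d * ‖F z‖ ^ 2 / ‖z‖ ^ 2) * g (F z) ∂ν = ∫⁻ z in {0}ᶜ, g z ∂ν := by
  have := h.fin
  have hFm := hF.contDiff.continuous.measurable
  have hρ : Measurable fun z => ENNReal.ofReal (d * ‖F z‖ ^ 2 / ‖z‖ ^ 2) := by fun_prop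
  have : IsFiniteMeasureOnCompacts
      ((ν.withDensity fun z => ENNReal.ofReal (d * ‖F z‖ ^ 2 / ‖z‖ ^ 2)).map F) := ⟨fun K hK => by
    have hK' := hF.isCompact_preimage hd hK
    obtain ⟨B, hB⟩ := Inv_bound hF hd hK'
    rw [Measure.map_apply hFm hK.measurableSet, withDensity_apply _ hK'.measurableSet]
    refine (setLIntegral_mono' hK'.measurableSet fun z hz =>
      ENNReal.ofReal_le_ofReal (hB z hz)).trans_lt ?_
    rw [setLIntegral_const]
    exact ENNReal.mul_lt_top ENNReal.ofReal_lt_top hK'.measure_lt_top⟩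
  have h1 := restrict_eq_of_test (ν := ν)
    (μ := (ν.withDensity fun z => ENNReal.ofReal (d * ‖F z‖ ^ 2 / ‖z‖ ^ 2)).map F) fun ψ hψ => by
      rw [integral_map hFm.aemeasurable hψ.1.continuous.aestronglyMeasurable,
        integral_withDensity_eq_integral_toReal_smul hρ (ae_of_all _ fun _ => ENNReal.ofReal_lt_top),
        ← h.pull_test hF hd hu hc hψ]
      congr 1
      funext z
      rw [ENNReal.toReal_ofReal (by positivity), smul_eq_mul]
  have h2 : F ⁻¹' {0}ᶜ = {0}ᶜ :=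
    Set.ext fun z => ⟨fun h1 h2 => h1 (by rw [mem_singleton_iff.1 h2]; exact hF.zero hd), hF.ne⟩
  have h3 : MeasurableSet ({0}ᶜ : Set (E (s + 2))) := (measurableSet_singleton 0).compl
  conv_rhs => rw [← h1]
  rw [Measure.restrict_map hFm h3, h2, restrict_withDensity h3, lintegral_map hg hFm,
    lintegral_withDensity_eq_lintegral_mul _ hρ (g := fun z => g (F z)) (hg.comp hFm)]
  rfl

end Pool.Agent.Lib.MP_a47f92_an
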