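import Pool.Agent.Lib.MP_a47f92_an.Int

set_option autoImplicit false
set_option linter.unusedSectionVars false

/-! Elementary ergodic lemmas. -/

namespace Pool.Agent.Lib.MP_a47f92_an

open MeasureTheory Filter Topology Set Complex Metric Function
open scoped ContDiff ComplexConjugate ComplexOrder Matrix ENNReal NNReal

variable {n : ℕ}

variable {X : Type} [MeasurableSpace X] {f : X → X} {μ : Measure X}

theorem KWA_pt {c : ℕ → X → ℝ} {S : Set X} (hi : MapsTo f S S) (h0 : ∀ k x, 0 ≤ c k x)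
    (sub : ∀ a b, ∀ x ∈ S, c (a + b) x ≤ c a x + c b (f^[a] x)) {L : ℝ} (hL : 0 ≤ L) (M : ℕ)
    {g : X → ℝ} (hg : ∀ x, 0 ≤ g x) (hB : ∀ x, c 1 x ≤ g x ∨ ∃ k, 1 ≤ k ∧ k ≤ M ∧ c k x ≤ L * k)
    (N : ℕ) : 1 ≤ N → ∀ x ∈ S, c N x ≤ ∑ i ∈ Finset.range N,
      (L + g (f^[i] x) + if N ≤ i + M then c 1 (f^[i] x) else 0) := by
  induction N using Nat.strong_induction_on with
  | _ N ih =>
    intro hN x hx
    have hn : ∀ i, 0 ≤ if N ≤ i + M then c 1 (f^[i] x) else 0 := fun i => by
      split_ifs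
      exacts [h0 _ _, le_rfl]
    obtain ⟨k, hk, hkN, h⟩ : ∃ k, 1 ≤ k ∧ k ≤ N ∧ c k x ≤ ∑ i ∈ Finset.range k,
        (L + g (f^[i] x) + if N ≤ i + M then c 1 (f^[i] x) else 0) := by
      rcases hB x with h | ⟨k, hk, hkM, h⟩
      · refine ⟨1, le_rfl, hN, ?_⟩
        rw [Finset.sum_range_one]
        linarith [hn 0, show g (f^[0] x) = g x from rfl]
      · rcases le_total k N with h1 | h1
        · refine ⟨k, hk, h1, h.trans ?_⟩
          have := Finset.card_nsmul_le_sum (Finset.range k) (fun i =>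
            L + g (f^[i] x) + if N ≤ i + M then c 1 (f^[i] x) else 0) L fun i _ => by
              linarith [hn i, hg (f^[i] x)]
          rwa [Finset.card_range, nsmul_eq_mul, mul_comm] at this
        · refine ⟨1, le_rfl, hN, ?_⟩
          rw [Finset.sum_range_one, if_pos (by omega)]
          linarith [hg (f^[0] x), show c 1 (f^[0] x) = c 1 x from rfl]
    obtain ⟨r, rfl⟩ := Nat.exists_eq_add_of_le hkN
    rcases Nat.eq_zero_or_pos r with rfl | hr
    · exact h
    · rw [Finset.sum_range_add]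
      refine (sub k r x hx).trans (add_le_add h ((ih r (by omega) hr _ (hi.iterate k hx)).trans
        (le_of_eq (Finset.sum_congr rfl fun i _ => ?_))))
      simp only [add_assoc k, add_le_add_iff_left]
      rw [add_comm k i, iterate_add_apply]

theorem KWA_int (hf : MeasurePreserving f μ μ) {g : X → ℝ} (hg : Integrable g μ) (i : ℕ) :
    Integrable (fun x => g (f^[i] x)) μ ∧ ∫ x, g (f^[i] x) ∂μ = ∫ x, g x ∂μ := by
  have h := hf.iterate i
  refine ⟨h.integrable_comp_of_integrable hg, ?_⟩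
  rw [← integral_map h.measurable.aemeasurable (h.map_eq.symm ▸ hg.aestronglyMeasurable), h.map_eq]

/-- The stopping time argument. Let `B M = {x | ∀ k, 1 ≤ k ≤ M → L k < c k x}`; `μ (B M) → 0`. By
strong induction on `N`, for `x ∈ S`,
`c N x ≤ L N + ∑_{i<N} (1_{B M} c 1) (f^[i] x) + ∑_{N - M ≤ i < N} c 1 (f^[i] x)` for `N ≥ 1`
(convenient form: put `c' 0 = 0`, `c' N = c N`). Integrate, take `M` large, then `N` large. -/
theorem kw [IsProbabilityMeasure μ] (hf : MeasurePreserving f μ μ) {c : ℕ → X → ℝ} {S : Set X}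
    (hS : ∀ᵐ x ∂μ, x ∈ S) (hi : MapsTo f S S) (hm : ∀ k, Measurable (c k))
    (h0 : ∀ k x, 0 ≤ c k x) (sub : ∀ a b, ∀ x ∈ S, c (a + b) x ≤ c a x + c b (f^[a] x))
    (h1 : Integrable (c 1) μ) {L : ℝ} (hL : 0 ≤ L) (h : ∀ᵐ x ∂μ, ∃ k, 1 ≤ k ∧ c k x ≤ L * k)
    {ε : ℝ} (hε : 0 < ε) : ∃ N, 1 ≤ N ∧ Integrable (c N) μ ∧ ∫ x, c N x ∂μ ≤ (L + ε) * N := by
  set B : ℕ → Set X := fun M => ⋂ k ∈ Icc 1 M, {x | L * k < c k x} with hB
  have hBm : ∀ M, MeasurableSet (B M) := fun M =>
    MeasurableSet.biInter (to_countable _) fun k _ => measurableSet_lt measurable_const (hm k)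
  have hlim : Tendsto (fun M => ∫ x, (B M).indicator (c 1) x ∂μ) atTop (𝓝 (∫ _, 0 ∂μ)) := by
    refine tendsto_integral_of_dominated_convergence (c 1)
      (fun M => (h1.indicator (hBm M)).aestronglyMeasurable) h1
      (fun M => .of_forall fun x => (norm_indicator_le_norm_self _ _).trans
        (Real.norm_of_nonneg (h0 _ _)).le) (h.mono ?_)
    rintro x ⟨k, hk, hx⟩
    refine tendsto_const_nhds.congr' ((eventually_ge_atTop k).mono fun M hM => ?_)
    exact (indicator_of_notMem (fun hx' => (mem_iInter₂.1 hx' k ⟨hk, hM⟩).not_ge hx) _).symm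
  rw [integral_zero] at hlim
  obtain ⟨M, hM⟩ := (hlim.eventually_le_const (half_pos hε)).exists
  have hA : 0 ≤ ∫ x, c 1 x ∂μ := integral_nonneg (h0 1)
  obtain ⟨N, hN⟩ := exists_nat_gt (M * (∫ x, c 1 x ∂μ) / (ε / 2))
  have hN0 : (0 : ℝ) < N := lt_of_le_of_lt (by positivity) hN
  rw [div_lt_iff₀ (half_pos hε)] at hN
  have hN1 : 1 ≤ N := by exact_mod_cast hN0
  have hg := h1.indicator (hBm M)
  have hpt := KWA_pt hi h0 sub hL M (g := (B M).indicator (c 1))
    (fun x => indicator_nonneg (fun y _ => h0 1 y) x) (fun x => by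
      by_cases hx : x ∈ B M
      · exact Or.inl (indicator_of_mem hx _).ge
      · simp only [hB, mem_iInter, not_forall, mem_ofPred_eq, not_lt] at hx
        obtain ⟨k, hk, hx⟩ := hx
        exact Or.inr ⟨k, hk.1, hk.2, hx⟩) N hN1
  have hif : ∀ i, Integrable (fun x => if N ≤ i + M then c 1 (f^[i] x) else 0) μ ∧
      ∫ x, (if N ≤ i + M then c 1 (f^[i] x) else 0) ∂μ =
        if N ≤ i + M then ∫ x, c 1 x ∂μ else 0 := fun i => by
    split_ifs
    exacts [KWA_int hf h1 i, ⟨integrable_zero _ _ _, integral_zero _ _⟩]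
  have ht : ∀ i, Integrable (fun x => L + (B M).indicator (c 1) (f^[i] x) +
      if N ≤ i + M then c 1 (f^[i] x) else 0) μ := fun i =>
    ((integrable_const L).add (KWA_int hf hg i).1).add (hif i).1
  have hG := integrable_finsetSum (Finset.range N) fun i _ => ht i
  have hle := hS.mono hpt
  have hc : Integrable (c N) μ := hG.mono' (hm N).aestronglyMeasurable
    (hle.mono fun x hx => (Real.norm_of_nonneg (h0 _ _)).le.trans hx)
  refine ⟨N, hN1, hc, (integral_mono_ae hc hG hle).trans ?_⟩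
  have he : ∀ i, ∫ x, (L + (B M).indicator (c 1) (f^[i] x) +
      if N ≤ i + M then c 1 (f^[i] x) else 0) ∂μ = L + ∫ x, (B M).indicator (c 1) x ∂μ +
        if N ≤ i + M then ∫ x, c 1 x ∂μ else 0 := fun i => by
    rw [integral_add ((integrable_const L).fun_add (KWA_int hf hg i).1) (hif i).1,
      integral_add (integrable_const L) (KWA_int hf hg i).1, (hif i).2, (KWA_int hf hg i).2]
    simp
  have hcard : (((Finset.range N).filter fun i => N ≤ i + M).card : ℝ) ≤ M := by
    have := Finset.card_le_card (s := (Finset.range N).filter fun i => N ≤ i + M)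
      (t := Finset.Ico (N - M) N) fun i hi => by
        simp only [Finset.mem_filter, Finset.mem_range, Finset.mem_Ico] at hi ⊢
        omega
    rw [Nat.card_Ico] at this
    exact_mod_cast this.trans (by omega)
  rw [integral_finsetSum _ fun i _ => ht i, Finset.sum_congr rfl fun i _ => he i,
    Finset.sum_add_distrib, ← Finset.sum_filter, Finset.sum_const, Finset.sum_const,
    Finset.card_range, nsmul_eq_mul, nsmul_eq_mul]
  nlinarith [mul_le_mul_of_nonneg_right hcard hA, mul_le_mul_of_nonneg_left hM hN0.le]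

theorem integral_birkhoffSum (hf : MeasurePreserving f μ μ) {g : X → ℝ} (hg : Integrable g μ)
    (N : ℕ) : Integrable (birkhoffSum f g N) μ ∧ ∫ x, birkhoffSum f g N x ∂μ = N * ∫ x, g x ∂μ := by
  have e : birkhoffSum f g N = fun x => ∑ i ∈ Finset.range N, g (f^[i] x) := rfl
  rw [e]
  refine ⟨integrable_finsetSum _ fun i _ => (KWA_int hf hg i).1, ?_⟩
  rw [integral_finsetSum _ fun i _ => (KWA_int hf hg i).1,
    Finset.sum_congr rfl fun i _ => (KWA_int hf hg i).2, Finset.sum_const, Finset.card_range,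
    nsmul_eq_mul]

theorem measurable_birkhoffSum (hf : Measurable f) {g : X → ℝ} (hg : Measurable g) (N : ℕ) :
    Measurable (birkhoffSum f g N) :=
  Finset.measurable_fun_sum _ fun i _ => hg.comp (hf.iterate i)

/-- Apply `kw` to the Birkhoff sums of the truncations `min g T`, and let `T → ∞` (monotone
convergence). -/
theorem integrable_of_birkhoff [IsProbabilityMeasure μ] (hf : MeasurePreserving f μ μ) {g : X → ℝ}
    (hm : Measurable g) (h0 : ∀ x, 0 ≤ g x) {L : ℝ}
    (h : ∀ᵐ x ∂μ, ∃ k, 1 ≤ k ∧ birkhoffSum f g k x ≤ L * k) : Integrable g μ := by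
  have hT : ∀ T : ℕ, ∫⁻ x, ENNReal.ofReal (min (g x) T) ∂μ ≤ ENNReal.ofReal (|L| + 1) := by
    intro T
    have hm' : Measurable fun x => min (g x) T := hm.min measurable_const
    have h0' : ∀ x, 0 ≤ min (g x) T := fun x => le_min (h0 x) T.cast_nonneg
    have hi : Integrable (fun x => min (g x) T) μ := .of_bound hm'.aestronglyMeasurable T
      (.of_forall fun x => (Real.norm_of_nonneg (h0' x)).le.trans (min_le_right _ _))
    obtain ⟨N, hN, -, h2⟩ := kw hf (c := birkhoffSum f fun x => min (g x) T) (S := univ)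
      (.of_forall mem_univ) (mapsTo_univ _ _) (measurable_birkhoffSum hf.measurable hm')
      (fun k x => Finset.sum_nonneg fun i _ => h0' _) (fun a b x _ => (birkhoffSum_add ..).le)
      (integral_birkhoffSum hf hi 1).1 (abs_nonneg L) (h.mono fun x ⟨k, hk, hx⟩ => ⟨k, hk,
        (Finset.sum_le_sum fun i _ => min_le_left _ _).trans (hx.trans
          (mul_le_mul_of_nonneg_right (le_abs_self L) k.cast_nonneg))⟩) one_pos
    rw [(integral_birkhoffSum hf hi N).2, mul_comm] at h2
    rw [← ofReal_integral_eq_lintegral_ofReal hi (.of_forall h0')]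
    exact ENNReal.ofReal_le_ofReal (le_of_mul_le_mul_right h2 (by exact_mod_cast hN))
  refine ⟨hm.aestronglyMeasurable, (hasFiniteIntegral_iff_ofReal (.of_forall h0)).2 ?_⟩
  refine lt_of_le_of_lt (lintegral_mono (g := fun x => ⨆ T : ℕ, ENNReal.ofReal (min (g x) T))
    fun x => le_iSup_of_le ⌈g x⌉₊ (by rw [min_eq_left (Nat.le_ceil _)])) ?_
  rw [lintegral_iSup (fun T => (hm.min measurable_const).ennreal_ofReal) fun a b hab x =>
    ENNReal.ofReal_le_ofReal (min_le_min_left _ (by exact_mod_cast hab))]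
  exact (iSup_le hT).trans_lt ENNReal.ofReal_lt_top

end Pool.Agent.Lib.MP_a47f92_an
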