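import Pool.Agent.Lib.MP_a47f92_an.Int

set_option autoImplicit false
set_option linter.unusedSectionVars false

/-! Algebra of the mixed discriminant, first part. -/

namespace Pool.Agent.Lib.MP_a47f92_an

open MeasureTheory Filter Topology Set Complex Metric Function
open scoped ContDiff ComplexConjugate ComplexOrder Matrix ENNReal NNReal

variable {n : ℕ}

variable {A : Fin n → Mat n} {l : Fin n}

theorem MDiscA_prod (A : Fin n → Mat n) (l : Fin n) (B : Mat n) (σ π : Equiv.Perm (Fin n)) :
    ∏ l', update A l B l' (σ l') (π l') =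
      B (σ l) (π l) * ∏ l' ∈ Finset.univ.erase l, A l' (σ l') (π l') := by
  rw [← Finset.mul_prod_erase Finset.univ _ (Finset.mem_univ l), update_self]
  congr 1
  exact Finset.prod_congr rfl fun l' hl' => by rw [update_of_ne (Finset.ne_of_mem_erase hl')]

theorem MDiscA_left (A : Fin n → Mat n) : mdC A = ∑ π : Equiv.Perm (Fin n),
    ((Equiv.Perm.sign π : ℤ) : ℂ) * (Matrix.of fun i l => A l i (π l)).det := by
  unfold mdC
  rw [Finset.sum_comm]
  refine Finset.sum_congr rfl fun π _ => ?_
  rw [Matrix.det_apply', Finset.mul_sum]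
  refine Finset.sum_congr rfl fun σ _ => ?_
  simp only [Matrix.of_apply]
  ring

theorem MDiscA_transpose (A : Fin n → Mat n) : mdC (fun l => (A l)ᵀ) = mdC A := by
  unfold mdC
  rw [Finset.sum_comm]
  refine Finset.sum_congr rfl fun π _ => Finset.sum_congr rfl fun σ _ => ?_
  simp only [Matrix.transpose_apply]
  ring

theorem mdC_update_add (A : Fin n → Mat n) (l : Fin n) (B C : Mat n) :
    mdC (update A l (B + C)) = mdC (update A l B) + mdC (update A l C) := by
  unfold mdC
  simp only [MDiscA_prod, Matrix.add_apply, add_mul, mul_add, Finset.sum_add_distrib]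

theorem mdC_update_smul (A : Fin n → Mat n) (l : Fin n) (c : ℂ) (B : Mat n) :
    mdC (update A l (c • B)) = c * mdC (update A l B) := by
  unfold mdC
  simp only [MDiscA_prod, Matrix.smul_apply, smul_eq_mul, Finset.mul_sum]
  refine Finset.sum_congr rfl fun σ _ => Finset.sum_congr rfl fun π _ => ?_
  ring

theorem mdC_eq_zero (h : A l = 0) : mdC A = 0 := by
  unfold mdC
  refine Finset.sum_eq_zero fun σ _ => Finset.sum_eq_zero fun π _ => ?_
  rw [Finset.prod_eq_zero (Finset.mem_univ l) (by rw [h]; rfl), mul_zero]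

theorem mdC_update_sum {ι : Type} (A : Fin n → Mat n) (l : Fin n) (s : Finset ι) (B : ι → Mat n) :
    mdC (update A l (∑ i ∈ s, B i)) = ∑ i ∈ s, mdC (update A l (B i)) := by
  classical
  induction s using Finset.induction_on with
  | empty => exact mdC_eq_zero (l := l) (by simp)
  | insert i s hi ih => rw [Finset.sum_insert hi, Finset.sum_insert hi, mdC_update_add, ih]

theorem mdC_update_eq (A : Fin n → Mat n) (l : Fin n) (B : Mat n) :
    mdC (update A l B) = ∑ i, ∑ j, B i j * cof A l i j := by
  conv_lhs => rw [Matrix.matrix_eq_sum_single B]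
  rw [mdC_update_sum]
  refine Finset.sum_congr rfl fun i _ => ?_
  rw [mdC_update_sum]
  refine Finset.sum_congr rfl fun j _ => ?_
  rw [cof, ← mdC_update_smul, Matrix.smul_single, smul_eq_mul, mul_one]

/-- Explicit formula for the cofactors. -/
theorem cof_eq (A : Fin n → Mat n) (l i j : Fin n) :
    cof A l i j = ∑ σ : Equiv.Perm (Fin n), ∑ π : Equiv.Perm (Fin n),
      if σ l = i ∧ π l = j then ((Equiv.Perm.sign σ : ℤ) : ℂ) * ((Equiv.Perm.sign π : ℤ) : ℂ) *
        ∏ l' ∈ Finset.univ.erase l, A l' (σ l') (π l') else 0 := by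
  unfold cof mdC
  refine Finset.sum_congr rfl fun σ _ => Finset.sum_congr rfl fun π _ => ?_
  rw [MDiscA_prod, Matrix.single_apply]
  by_cases h : σ l = i ∧ π l = j
  · rw [if_pos h, if_pos ⟨h.1.symm, h.2.symm⟩, one_mul]
  · rw [if_neg h, if_neg fun h' => h ⟨h'.1.symm, h'.2.symm⟩, zero_mul, mul_zero]

theorem mdC_smul (c : Fin n → ℂ) (A : Fin n → Mat n) :
    mdC (fun l => c l • A l) = (∏ l, c l) * mdC A := by
  unfold mdC
  simp only [Matrix.smul_apply, smul_eq_mul, Finset.prod_mul_distrib, Finset.mul_sum]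
  refine Finset.sum_congr rfl fun σ _ => Finset.sum_congr rfl fun π _ => ?_
  ring

/-- Reindex both permutations by `τ`. -/
theorem mdC_perm (A : Fin n → Mat n) (τ : Equiv.Perm (Fin n)) : mdC (A ∘ τ) = mdC A := by
  unfold mdC
  rw [← Equiv.sum_comp (Equiv.mulRight τ)]
  refine Finset.sum_congr rfl fun σ _ => ?_
  rw [← Equiv.sum_comp (Equiv.mulRight τ)]
  refine Finset.sum_congr rfl fun π _ => ?_
  have h1 : ((Equiv.Perm.sign τ : ℤ) : ℂ) * ((Equiv.Perm.sign τ : ℤ) : ℂ) = 1 := by
    rw [← Int.cast_mul, ← Units.val_mul, Int.units_mul_self, Units.val_one, Int.cast_one]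
  have h2 := Equiv.prod_comp τ fun l => A l (σ l) (π l)
  simp only [Equiv.coe_mulRight, Equiv.Perm.sign_mul, Units.val_mul, Int.cast_mul, comp_apply,
    Equiv.Perm.coe_mul]
  rw [h2]
  linear_combination (((Equiv.Perm.sign σ : ℤ) : ℂ) * ((Equiv.Perm.sign π : ℤ) : ℂ) *
    ∏ l, A l (σ l) (π l)) * h1

/-- For fixed `π` the sum over `σ` is the determinant of the matrix with entries `A l i (π l)` at
position `(i, l)`; left multiplication of all `A l` by `Q` multiplies this matrix by `Q`. The same
on the right. -/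
theorem mdC_mul_left (Q : Mat n) (A : Fin n → Mat n) :
    mdC (fun l => Q * A l) = Q.det * mdC A := by
  rw [MDiscA_left, MDiscA_left, Finset.mul_sum]
  refine Finset.sum_congr rfl fun π _ => ?_
  have h : (Matrix.of fun i l => (Q * A l) i (π l)) = Q * Matrix.of fun i l => A l i (π l) := by
    ext i l
    simp only [Matrix.of_apply, Matrix.mul_apply]
  rw [h, Matrix.det_mul]
  ring

theorem mdC_mul_right (Q : Mat n) (A : Fin n → Mat n) :
    mdC (fun l => A l * Q) = Q.det * mdC A := by
  rw [← MDiscA_transpose]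
  simp only [Matrix.transpose_mul]
  rw [mdC_mul_left Qᵀ fun l => (A l)ᵀ, Matrix.det_transpose, MDiscA_transpose]

theorem mdC_cong (P : Mat n) (A : Fin n → Mat n) :
    mdC (fun l => cong P (A l)) = ((‖P.det‖ ^ 2 : ℝ) : ℂ) * mdC A := by
  have h : (P.map conj).det = conj P.det := ((starRingEnd ℂ).map_det P).symm
  unfold cong
  rw [mdC_mul_right (P.map conj) fun l => Pᵀ * A l, mdC_mul_left, Matrix.det_transpose, h,
    ← mul_assoc, Complex.conj_mul']
  push_cast
  rfl

theorem mdC_rank_one (a : Fin n → Fin n → ℂ) :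
    mdC (fun l => Matrix.of fun i j => a l i * conj (a l j)) =
      ((‖(Matrix.of a).det‖ ^ 2 : ℝ) : ℂ) := by
  have h : ∀ π : Equiv.Perm (Fin n), (Matrix.of fun i l =>
      (Matrix.of fun i j => a l i * conj (a l j) : Mat n) i (π l)).det =
      (∏ l, conj (a l (π l))) * (Matrix.of a).det := by
    intro π
    rw [← Matrix.det_transpose (Matrix.of a), ← Matrix.det_mul_row]
    congr 1
    ext i l
    simp only [Matrix.of_apply, Matrix.transpose_apply, mul_comm]
  have h2 : conj (Matrix.of a).det = ∑ π : Equiv.Perm (Fin n),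
      ((Equiv.Perm.sign π : ℤ) : ℂ) * ∏ l, conj (a l (π l)) := by
    rw [← Matrix.det_transpose, Matrix.det_apply', map_sum]
    refine Finset.sum_congr rfl fun π _ => ?_
    simp only [map_mul, map_intCast, map_prod, Matrix.transpose_apply, Matrix.of_apply]
  rw [MDiscA_left]
  simp only [h, ← mul_assoc, ← Finset.sum_mul]
  rw [← h2, Complex.conj_mul']
  push_cast
  rfl

theorem mdC_conj (A : Fin n → Mat n) : conj (mdC A) = mdC fun l => (A l)ᴴ := by
  unfold mdC
  rw [Finset.sum_comm, map_sum]
  refine Finset.sum_congr rfl fun π _ => ?_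
  rw [map_sum]
  refine Finset.sum_congr rfl fun σ _ => ?_
  simp only [map_mul, map_intCast, map_prod, Matrix.conjTranspose_apply, Complex.star_def]
  ring

theorem mdC_im (h : ∀ l, (A l).IsHermitian) : (mdC A).im = 0 := by
  rw [← Complex.conj_eq_iff_im, mdC_conj]
  congr 1
  funext l
  exact h l

end Pool.Agent.Lib.MP_a47f92_an
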