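import Pool.Agent.Lib.MP_a47f92_an.Fix
import Pool.Agent.Lib.MP_a47f92_an.Inv
import Pool.Agent.Lib.MP_a47f92_an.Img2
import Pool.Agent.Lib.MP_a47f92_an.Img3
import Pool.Agent.Lib.MP_a47f92_an.Core
import Pool.Agent.Lib.MP_a47f92_an.Cnt
import Pool.Agent.Lib.MP_a47f92_an.Geo

set_option autoImplicit false
set_option linter.unusedSectionVars false

/-! The main theorem. -/

namespace Pool.Agent.Lib.MP_a47f92_an

open MeasureTheory Filter Topology Set Complex Metric Function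
open scoped ContDiff ComplexConjugate ComplexOrder Matrix ENNReal NNReal

variable {n : ℕ}

theorem main (s d : ℕ) (hd : 2 ≤ d) (F : E (s + 2) → E (s + 2)) (hF : IsLift d F)
    (D : Set (E (s + 2))) (hD : Trap F D) (hne : ∃ z, z ≠ 0 ∧ z ∉ D) (u : E (s + 2) → ℝ)
    (hu : IsPot u) (hs : SuppIn u D) (ha : Attracting d F D u) (ν : Measure (E (s + 2)))
    (hν : IsEqMeasure d F u ν) : ∀ᵐ z ∂ν, z ≠ 0 → NegExp F z := by
  have hn : 2 ≤ s + 2 := by omega
  have hd1 : 1 ≤ d := by omega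
  obtain ⟨hN, ⟨c, hc⟩, O, W, δ, C, hO, hOc, hph, hδ, hW, hball, hAG⟩ :=
    exists_ag hn hF hd hD hne hu hs ha
  have := hν.fin
  obtain ⟨νS, hfin, hP⟩ := exists_polar (hν.scale hF hd1 hu)
  have hinv := hP.invariant hF hd1 (hν.pull hF hd1 hu hc)
  have hnull := hP.null hO hOc (hν.null hF hd1 hu hO hph)
  obtain ⟨c₀, C₁, p, hc₀, hc₀', hC₁, himg⟩ := img_cone hν hF hd hu
  have hI : Img d F νS := img_sphere (by omega) hF hd hP hc₀ hc₀' hC₁ himg
  have h0 : νS (Bad F) = 0 := by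
    by_contra h0
    obtain ⟨μ, C₂, hμ, hf, hB, hC₂, hle⟩ :=
      exists_restrict hinv (measurableSet_bad hF) (bad_maps hF hd1) h0
    have hO' : ∀ᵐ x : Sph (s + 2) ∂μ, (x : E (s + 2)) ∉ O := by
      rw [ae_iff]
      have := hle {a | (a : E (s + 2)) ∈ O}
      rw [hnull, mul_zero] at this
      simpa using this
    refine core (locH_sf hF hd1 (card_le_of_tr hF hd1 hN)) hf ?_ (by positivity)
      (cnt_sphere hF hd hf hB hO hO' hδ hW hball hAG) (geo_sphere hF hd hf hB hC₂ hle hI)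
    filter_upwards [hB] with x hx using hx.1 0
  filter_upwards [hP.ae (measurableSet_bad hF) h0] with z hz h0
  have hn0 : 0 < ‖z‖ := norm_pos_iff.2 h0
  let a : Sph (s + 2) := ⟨‖z‖⁻¹ • z, by
    rw [mem_sphere_zero_iff_norm, norm_smul, norm_inv, norm_norm, inv_mul_cancel₀ hn0.ne']⟩
  have ha' : z = ‖z‖ • (a : E (s + 2)) := by
    simp only [a, smul_smul, mul_inv_cancel₀ hn0.ne', one_smul]
  by_contra hneg
  refine hz h0 a (mem_bad hF hd1 fun h => hneg ?_) _ hn0 ha'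
  rw [ha']
  exact h.smul hF hd1 hn0

end Pool.Agent.Lib.MP_a47f92_an
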