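import Pool.Agent.Lib.MP_a47f92_an.PF

set_option autoImplicit false
set_option linter.unusedSectionVars false

/-! The attracting current is invariant. -/

namespace Pool.Agent.Lib.MP_a47f92_an

open MeasureTheory Filter Topology Set Complex Metric Function
open scoped ContDiff ComplexConjugate ComplexOrder Matrix ENNReal NNReal

variable {n : ℕ}

variable {d : ℕ} {F : E n → E n} {D : Set (E n)} {u : E n → ℝ}

theorem tendsto_div_of_cesaro {a : ℕ → ℝ} {L : ℝ}
    (h : Tendsto (fun N : ℕ => (N : ℝ)⁻¹ * ∑ m ∈ Finset.range N, a m) atTop (𝓝 L)) :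
    Tendsto (fun N : ℕ => (N : ℝ)⁻¹ * ∑ m ∈ Finset.range N, a (m + 1)) atTop (𝓝 L) := by
  have h1 := h.comp (tendsto_add_atTop_nat 1)
  have h2 : Tendsto (fun N : ℕ => (N : ℝ)⁻¹) atTop (𝓝 0) := tendsto_inv_atTop_nhds_zero_nat
  have h3 := ((h2.const_add 1).mul h1).sub (h2.mul_const (a 0))
  simp only [add_zero, one_mul, zero_mul, sub_zero] at h3
  refine h3.congr' ((eventually_ge_atTop 1).mono fun N hN => ?_)
  have hN' : (0 : ℝ) < N := by exact_mod_cast hN
  simp only [Function.comp, Finset.sum_range_succ']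
  push_cast
  field_simp
  ring

/-- There is an admissible smooth potential: `R = sm κ r u` (`exists_nb_subset`, `hess_sm_eq_zero`,
`suppIn_of_hess`). -/
theorem exists_admissible (hn : 1 ≤ n) (hD : Trap F D) (hu : IsPot u) (hs : SuppIn u D) :
    ∃ R, SPot R ∧ SuppIn R D := by
  obtain ⟨κ⟩ := exists_ker hn
  obtain ⟨K, hK, hc, hKD, hz⟩ := hs
  obtain ⟨ρ, hρ, hρD⟩ := exists_nb_subset hK hc hD.op hD.cone hKD
  have hr : 0 < min ρ (1 / 2) := lt_min hρ one_half_pos
  have hr1 : min ρ (1 / 2) < 1 := (min_le_right _ _).trans_lt one_half_lt_one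
  have hw : WPh u Kᶜ := fun ψ h1 _ h3 v => hz ψ h1 (subset_compl_iff_disjoint_right.1 h3) v
  have hp := hu.sm_spot κ hn hr hr1
  exact ⟨_, hp, suppIn_of_hess hp.smooth (isClosed_nb hK) (isCone_nb hc)
    ((sdiff_subset_sdiff_left (nb_mono (min_le_left _ _) Subset.rfl)).trans hρD)
    fun z h1 h2 => hess_sm_eq_zero κ hn hr hr1 hu.int hK hw h1 h2⟩

theorem Norm_push_one (d : ℕ) (F : E n → E n) (g : E n → ℝ) :
    push d F 1 g = fun q => ((d : ℝ) ^ (n - 1))⁻¹ * tr F g q := funext (push_one d F g)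

theorem Norm_locInt_mul {g : E n → ℝ} (hg : LocallyIntegrable g) (c : ℝ) :
    LocallyIntegrable fun z => c * g z := hg.smul c

theorem Norm_lhom_mul {g : E n → ℝ} {a : ℝ} (hg : LHom a g) (c : ℝ) :
    LHom (c * a) fun z => c * g z := fun b hb => (hg b hb).mono fun z hz => by
  simp only [hz]
  ring

theorem Norm_lhom_sub {g g' : E n → ℝ} {a a' : ℝ} (hg : LHom a g) (hg' : LHom a' g') :
    LHom (a - a') fun z => g z - g' z := fun b hb => by
  filter_upwards [hg b hb, hg' b hb] with z h1 h2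
  simp only [h1, h2]
  ring

theorem Norm_pow (hn : 1 ≤ n) (x : ℝ) : x ^ n = x ^ (n - 1) * x := by
  rw [← pow_succ, Nat.sub_add_cancel hn]

/-- Apply `pair_tr_tendsto` to the Cesàro means `S N = N⁻¹ ∑ push d F m R`; `push d F 1 (S N)` is
almost everywhere `N⁻¹ ∑ push d F (m + 1) R`. -/
theorem pair_push_eq (hn : 1 ≤ n) (hF : IsLift d F) (hd : 1 ≤ d) (hD : Trap F D) (hu : IsPot u)
    (hs : SuppIn u D) (ha : Attracting d F D u) {ψ : E n → ℝ} (hψ : IsTest ψ) (v : E n) :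
    pair (push d F 1 u) ψ v = pair u ψ v := by
  obtain ⟨R, hR, hRs⟩ := exists_admissible hn hD hu hs
  have hRp := hR.isPot hn
  have hP : ∀ m, LocallyIntegrable (push d F m R) := fun m => push_locInt hF hd m hRp.int
  have hsum : ∀ {g : ℕ → E n → ℝ}, (∀ m, LocallyIntegrable (g m)) → ∀ N : ℕ,
      LocallyIntegrable fun z => ∑ m ∈ Finset.range N, g m z := fun hg N =>
    locallyIntegrable_finsetSum _ fun m _ => hg m
  have h1 := pair_tr_tendsto hn hF hd
    (gs := fun N z => (N : ℝ)⁻¹ * ∑ m ∈ Finset.range N, push d F m R z)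
    (fun N => Norm_locInt_mul (hsum hP N) _) hu.int (fun χ hχ w => by
      refine (ha R hRp hR.smooth hRs χ hχ w).congr fun N => ?_
      rw [pair_const_mul, pair_sum _ (fun m _ => hP m) hχ]) hψ v
  have h2 := tendsto_div_of_cesaro (ha R hRp hR.smooth hRs ψ hψ v)
  rw [Norm_push_one, pair_const_mul]
  refine tendsto_nhds_unique (h1.const_mul _) (h2.congr fun N => ?_)
  rw [← pair_const_mul, ← pair_sum _ (fun m _ => hP (m + 1)) hψ, ← pair_const_mul]
  refine pair_congr ?_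
  filter_upwards [tr_sum hF hd (Finset.range N) fun m => push d F m R,
    ae_all_iff.2 fun m => push_succ hF hd m R] with q h3 h4 _
  rw [tr_const_mul, h3, mul_left_comm]
  congr 1
  rw [Finset.mul_sum]
  exact Finset.sum_congr rfl fun m _ => by rw [h4 m, push_one]

/-- `g = push d F 1 u - u` is weakly pluriharmonic and `LHom (N / d ^ n - 1)`; `const_of_wph`. -/
theorem push_eq (hn : 2 ≤ n) (hF : IsLift d F) (hd : 1 ≤ d) (hD : Trap F D) (hu : IsPot u)
    (hs : SuppIn u D) (ha : Attracting d F D u) :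
    (∀ᵐ q, tr F (fun _ => 1) q = ((d ^ n : ℕ) : ℝ)) ∧ ∃ c, ∀ᵐ q, push d F 1 u q = u q + c := by
  have hn1 : 1 ≤ n := by omega
  obtain ⟨N, hN⟩ := exists_degree hn1 hF hd
  have hd0 : (0 : ℝ) < d := by exact_mod_cast hd
  have h1 : LHom (((d : ℝ) ^ (n - 1))⁻¹ * (1 * N / d)) (push d F 1 u) := by
    rw [Norm_push_one]
    exact Norm_lhom_mul (tr_lhom hF hd hu.lhom hN) _
  have hi := push_locInt hF hd 1 hu.int
  obtain ⟨h2, c, h3⟩ := const_of_wph hn (hi.sub hu.int) (Norm_lhom_sub h1 hu.lhom)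
    fun ψ hψ _ _ v => by
      have := pair_sub hi hu.int hψ v
      rw [pair_push_eq hn1 hF hd hD hu hs ha hψ, sub_self] at this
      exact this
  refine ⟨?_, c, h3.mono fun q hq => ?_⟩
  · have : N = ((d ^ n : ℕ) : ℝ) := by
      push_cast
      rw [Norm_pow hn1]
      field_simp at h2
      linarith
    rwa [← this]
  · have : push d F 1 u q - u q = c := hq
    linarith

/-- `push d F 1 (u + c') = u + c + d c'`; take `c' = -c / (d - 1)`. -/
theorem exists_normalised (hn : 1 ≤ n) (hF : IsLift d F) (hd : 2 ≤ d)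
    (hN : ∀ᵐ q, tr F (fun _ => 1) q = ((d ^ n : ℕ) : ℝ)) {c : ℝ}
    (h : ∀ᵐ q, push d F 1 u q = u q + c) :
    ∃ c', ∀ᵐ q, push d F 1 (fun z => u z + c') q = u q + c' := by
  have hd1 : 1 ≤ d := by omega
  have hd2 : (2 : ℝ) ≤ d := by exact_mod_cast hd
  refine ⟨-c / (d - 1), ?_⟩
  filter_upwards [tr_add hF hd1 u fun _ => -c / (d - 1), hN, h] with q h1 h2 h3
  have h4 := tr_const_mul F (-c / (d - 1)) (fun _ => 1) q
  simp only [mul_one] at h4
  rw [push_one] at h3 ⊢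
  rw [h1, h4, h2, mul_add, h3]
  push_cast
  rw [Norm_pow hn]
  have : (d : ℝ) - 1 ≠ 0 := by linarith
  have : (d : ℝ) ≠ 0 := by linarith
  field_simp
  ring

theorem IsPot.add_const (hu : IsPot u) (c : ℝ) : IsPot fun z => u z + c := by
  refine ⟨hu.int.add (locallyIntegrable_const c), fun a ha => (hu.hom a ha).mono fun z hz => ?_,
    fun ψ h1 h2 v => ?_⟩
  · simp only [hz]
    ring
  · rw [pair_add_const hu.int c h1]
    exact hu.psh ψ h1 h2 v

theorem SuppIn.add_const (hu : IsPot u) (hs : SuppIn u D) (c : ℝ) : SuppIn (fun z => u z + c) D := by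
  obtain ⟨K, h1, h2, h3, h4⟩ := hs
  exact ⟨K, h1, h2, h3, fun ψ hψ h5 v => by rw [pair_add_const hu.int c hψ, h4 ψ hψ h5]⟩

theorem Attracting.add_const (hu : IsPot u) (ha : Attracting d F D u) (c : ℝ) :
    Attracting d F D fun z => u z + c := by
  intro R h1 h2 h3 ψ hψ v
  rw [pair_add_const hu.int c hψ]
  exact ha R h1 h2 h3 ψ hψ v

theorem push_lhom (hn : 1 ≤ n) (hF : IsLift d F) (hd : 1 ≤ d)
    (hN : ∀ᵐ q, tr F (fun _ => 1) q = ((d ^ n : ℕ) : ℝ)) {g : E n → ℝ} (hg : LHom 1 g) :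
    LHom 1 (push d F 1 g) := by
  have hd0 : (0 : ℝ) < d := by exact_mod_cast hd
  have h1 := Norm_lhom_mul (tr_lhom hF hd hg hN) ((d : ℝ) ^ (n - 1))⁻¹
  have h2 : ((d : ℝ) ^ (n - 1))⁻¹ * (1 * ((d ^ n : ℕ) : ℝ) / d) = 1 := by
    push_cast
    rw [Norm_pow hn]
    field_simp
  rw [h2] at h1
  rwa [Norm_push_one]

theorem SPot.push_isPot (hn : 1 ≤ n) (hF : IsLift d F) (hd : 1 ≤ d)
    (hN : ∀ᵐ q, tr F (fun _ => 1) q = ((d ^ n : ℕ) : ℝ)) {p : E n → ℝ} (hp : SPot p) :
    IsPot (push d F 1 p) := by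
  have hi := (hp.isPot hn).int
  refine IsPot.of (push_locInt hF hd 1 hi) (push_lhom hn hF hd hN (hp.isPot hn).lhom)
    fun ψ h1 h2 h3 v => ?_
  rw [Norm_push_one, pair_const_mul]
  exact mul_nonneg (by positivity)
    (tr_wpsh hn hF hd hi hp.smooth (fun z hz _ w => hp.psh z hz w) ψ h1 h2 h3 v)

end Pool.Agent.Lib.MP_a47f92_an
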