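import Pool.Agent.Lib.MP_a47f92_an.Main

set_option autoImplicit false

namespace Pool.Agent.Lib.MP_a47f92_an.OldCodimOne

open MeasureTheory Pool.Agent.Lib.MP_a47f92_an

/-- The equilibrium measure of an attracting current of codimension one on the projective space of
dimension `s + 1` has a negative Lyapunov exponent. -/
theorem result (s d : ℕ) (hd : 2 ≤ d) (F : E (s + 2) → E (s + 2)) (hF : IsLift d F)
    (D : Set (E (s + 2))) (hD : Trap F D) (hne : ∃ z, z ≠ 0 ∧ z ∉ D) (u : E (s + 2) → ℝ)
    (hu : IsPot u) (hs : SuppIn u D) (ha : Attracting d F D u) (ν : Measure (E (s + 2)))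
    (hν : IsEqMeasure d F u ν) : ∀ᵐ z ∂ν, z ≠ 0 → NegExp F z :=
  main s d hd F hF D hD hne u hu hs ha ν hν

end Pool.Agent.Lib.MP_a47f92_an.OldCodimOne
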