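import Pool.Agent.Lib.MP_a47f92_an.G.WMain

set_option autoImplicit false

namespace Pool.Agent.Lib.MP_a47f92_an.OldHyperbolic

open MeasureTheory Pool.Agent.Lib.MP_a47f92_an

/-- The equilibrium measure of an attracting current of bidimension `(s, s)` on the projective
space of dimension `k` is a well defined probability measure and it is hyperbolic: almost
everywhere a subspace of dimension `k - s` of the tangent space is contracted exponentially and
all other tangent vectors are expanded exponentially. The current `τ` is any closed real current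
of order zero, so that both conventions for positivity are covered. -/
theorem result (k s d : ℕ) (hd : 2 ≤ d) (F : E (k + 1) → E (k + 1)) (hF : IsLift d F)
    (U D : Set (E (k + 1))) (hU : Trap F U) (hD : Trap F D) (hDU : D ⊆ U)
    (hA : ¬ ∃ S : Measure (Fr (k + 1) (s + 1)), InC (⋂ m, F^[m] '' U) S)
    (τ : Cu (k + 1) s) (hτ : InR D τ) (ha : AttrR d F D τ) :
    (∃ ν, IsEqR d F τ ν) ∧
      ∀ ν, IsEqR d F τ ν → IsProbabilityMeasure ν ∧ ∀ᵐ z ∂ν, Hyp F s z :=
  wmain hd hF hU hD hDU hA hτ ha

end Pool.Agent.Lib.MP_a47f92_an.OldHyperbolic
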