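import Pool.Agent.Lib.MP_a47f92_an.PFA

set_option autoImplicit false
set_option linter.unusedSectionVars false

/-! Push-forward of potentials. -/

namespace Pool.Agent.Lib.MP_a47f92_an

open MeasureTheory Filter Topology Set Complex Metric Function
open scoped ContDiff ComplexConjugate ComplexOrder Matrix ENNReal NNReal

variable {n : ℕ}

variable {d : ℕ} {F : E n → E n} {g φ ψ : E n → ℝ} {Ω : Set (E n)}


theorem PF_update {α β : Type} (G : α → β) (p : Fin n → α) (l : Fin n) (a : α) :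
    update (fun l' => G (p l')) l (G a) = fun l' => G (update p l a l') := by
  funext l'
  by_cases h : l' = l
  · subst h; simp
  · simp [update_of_ne h]

theorem PF_point {T : E n ≃L[ℂ] E n} {l : Fin n} {w : E n} {ℓ : Fin n → E n →L[ℂ] ℂ} {c : ℝ}
    (hc : ∀ B : Mat n, qf B (T w) = c * mdC (update (fun l' => r1 (ℓ l')) l B)) (H : Mat n) :
    c * md (update (fun l' => cong (cmat (T : E n →L[ℂ] E n)) (r1 (ℓ l'))) l H) =
      ‖(T : E n →L[ℂ] E n).det‖ ^ 2 * (qf H w).re := by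
  have e1 : H = cong (cmat (T : E n →L[ℂ] E n)) (cong (cmat (T.symm : E n →L[ℂ] E n)) H) := by
    rw [cong_cong, ← cmat_comp, ContinuousLinearEquiv.coe_symm_comp_coe, cmat_id, cong_one]
  have e2 : qf H w = qf (cong (cmat (T.symm : E n →L[ℂ] E n)) H) (T w) := by
    rw [qf_cong]; simp
  rw [e2, hc]
  conv_lhs => rw [e1]
  rw [PF_update (cong (cmat (T : E n →L[ℂ] E n))) (fun l' => r1 (ℓ l')) l, md, mdC_cong, cmat_det,
    re_ofReal_mul, re_ofReal_mul]
  ring

theorem PF_reg (hn : 1 ≤ n) (hF : IsLift d F) (hd : 1 ≤ d)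
    (hφ : SPot φ) (hΩ : IsOpen Ω) (h : WPh (tr F φ) Ω) {z : E n} (hz : z ≠ 0) (hz' : F z ∈ Ω)
    (hr : z ∈ Reg F) : hess φ z = 0 := by
  have h2 : ∀ y, y ≠ 0 → ContDiffAt ℝ 2 φ y := fun y hy =>
    (hφ.smooth.contDiffAt (isOpen_compl_singleton.mem_nhds hy)).of_le
      (WithTop.coe_le_coe.2 (le_top : (2 : ℕ∞) ≤ ⊤))
  refine hess_eq_zero (h2 z hz) fun w => ?_
  obtain ⟨T, hT⟩ := exists_equiv_of_det hr
  let l : Fin n := ⟨0, hn⟩
  obtain ⟨ℓ, c, hc0, hc⟩ := exists_r1 l (T w)
  obtain ⟨χ, hχs, hχc, hχd, hχr, hχ1⟩ := exists_contDiff_tsupport_subset (n := ⊤)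
    ((hΩ.inter isOpen_compl_singleton).mem_nhds (⟨hz', hF.ne hz⟩ : F z ∈ Ω ∩ {0}ᶜ))
  have hχ : IsTest χ := ⟨hχd, hχc, fun h0 => (hχs h0).2 rfl⟩
  have hχ0 : ∀ y, 0 ≤ χ y := fun y => (hχr (mem_range_self y)).1
  have hi : LocallyIntegrable φ := hφ.hom.locInt hn hφ.smooth.continuousOn
  have e := h χ hχ hχ0 (hχs.trans inter_subset_left) (T w)
  rw [pair_tr_smooth hF hd hc hi hφ.smooth hχ, ← integral_const_mul] at e
  have hcc := hF.cc_comp hd hχ.isCC
  have hmd : ContinuousOn (fun y => md (update (fun l' => hess (aux F ℓ l') y) l (hess φ y)))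
      {0}ᶜ := by
    have := continuousOn_md (p := update (aux F ℓ) l φ) isOpen_compl_singleton (fun l' => by
      by_cases hl : l' = l
      · subst hl; rw [update_self]; exact hφ.smooth
      · rw [update_of_ne hl]; exact (contDiff_aux hF ℓ l').contDiffOn)
    refine this.congr fun y _ => ?_
    exact congrArg md (PF_update (fun q => hess q y) (aux F ℓ) l φ)
  have hcont : Continuous fun y =>
      c * (χ (F y) * md (update (fun l' => hess (aux F ℓ l') y) l (hess φ y))) := by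
    refine continuous_const.mul ?_
    have := continuous_mul_of_tsupport isOpen_compl_singleton hmd hcc.1
      (fun y hy h0 => hcc.2.2 (by rw [mem_singleton_iff.1 h0] at hy; exact hy))
    simpa only [mul_comm] using this
  have hsupp : HasCompactSupport fun y =>
      c * (χ (F y) * md (update (fun l' => hess (aux F ℓ l') y) l (hess φ y))) :=
    (hcc.2.1.mul_right).mul_left
  have hnn : ∀ y, 0 ≤
      c * (χ (F y) * md (update (fun l' => hess (aux F ℓ l') y) l (hess φ y))) := by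
    intro y
    by_cases hy : y = 0
    · have : χ (F y) = 0 := by
        rw [hy]; exact image_eq_zero_of_notMem_tsupport (f := fun z => χ (F z)) hcc.2.2
      rw [this, zero_mul, mul_zero]
    · refine mul_nonneg hc0 (mul_nonneg (hχ0 _) (md_nonneg fun l' => ?_))
      by_cases hl : l' = l
      · subst hl; rw [update_self]; exact psd_hess (h2 y hy) (hφ.psh y hy)
      · rw [update_of_ne hl, hess_aux hF]; exact cong_psd _ (r1_psd _)
  have hae := (integral_eq_zero_iff_of_nonneg hnn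
    (hcont.integrable_of_hasCompactSupport hsupp)).1 e
  have hz0 := congrFun ((hcont.ae_eq_iff_eq volume continuous_zero).1 hae) z
  simp only [hχ1, one_mul, Pi.zero_apply, hess_aux hF, ← hT] at hz0
  rw [PF_point hc] at hz0
  have hdet : ‖(T : E n →L[ℂ] E n).det‖ ^ 2 ≠ 0 := by
    rw [hT]; exact pow_ne_zero _ (norm_ne_zero_iff.2 hr)
  exact (mul_eq_zero.1 hz0).resolve_left hdet

/-- In `pair_tr_smooth` the integrand is continuous and nonnegative, so it vanishes. At a regular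
point `z` with `ψ (F z) > 0`, writing `hess φ z = cong P (cong P⁻¹ (hess φ z))`, we get
`c * md (…) = jac F z * levi φ z (P⁻¹ v)`; so `hess φ z = 0` on `Reg F ∩ F ⁻¹' Ω`, and everywhere on
`F ⁻¹' Ω \ {0}` by `IsLift.dense_reg` and continuity. -/
theorem hess_eq_zero_of_tr (hn : 1 ≤ n) (hF : IsLift d F) (hd : 1 ≤ d) (hr : (Reg F).Nonempty)
    (hφ : SPot φ) (hΩ : IsOpen Ω) (h : WPh (tr F φ) Ω) {z : E n} (hz : z ≠ 0) (hz' : F z ∈ Ω) :
    hess φ z = 0 := by

  have hU : IsOpen ({0}ᶜ ∩ F ⁻¹' Ω) :=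
    isOpen_compl_singleton.inter (hΩ.preimage hF.differentiable.continuous)
  have hcl : z ∈ closure (({0}ᶜ ∩ F ⁻¹' Ω) ∩ Reg F) :=
    (hF.dense_reg hr).open_subset_closure_inter hU ⟨hz, hz'⟩
  ext i j
  have hc : ContinuousAt (fun w => hess φ w i j) z :=
    (contDiffOn_hess isOpen_compl_singleton hφ.smooth i j).continuousOn.continuousAt
      (isOpen_compl_singleton.mem_nhds hz)
  have hfr : ∃ᶠ w in 𝓝 z, hess φ w i j = 0 :=
    (mem_closure_iff_frequently.1 hcl).mono fun w hw => by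
      rw [PF_reg hn hF hd hφ hΩ h hw.1.1 hw.1.2 hw.2]; rfl
  exact tendsto_nhds_unique_of_frequently_eq hc tendsto_const_nhds hfr

/-- Weak continuity: `pair_tr` and `md_dec`. -/
theorem pair_tr_tendsto (hn : 1 ≤ n) (hF : IsLift d F) (hd : 1 ≤ d) {gs : ℕ → E n → ℝ}
    (hs : ∀ i, LocallyIntegrable (gs i)) (hg : LocallyIntegrable g)
    (h : ∀ ψ, IsTest ψ → ∀ v, Tendsto (fun i => pair (gs i) ψ v) atTop (𝓝 (pair g ψ v)))
    (hψ : IsTest ψ) (v : E n) :
    Tendsto (fun i => pair (tr F (gs i)) ψ v) atTop (𝓝 (pair (tr F g) ψ v)) := by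

  let l : Fin n := ⟨0, hn⟩
  obtain ⟨ℓ, c, -, hc⟩ := exists_r1 l v
  obtain ⟨ι, _, χ, w, hχ, he⟩ := md_dec (p := aux F ℓ) (l := l)
    (fun l' _ => (contDiff_aux hF ℓ l').contDiffOn) (hF.test_comp hd hψ)
  have key : ∀ u : E n → ℝ, LocallyIntegrable u →
      pair (tr F u) ψ v = c * ∑ i, pair u (χ i) (w i) := by
    intro u hu
    rw [pair_tr hF hd hc hu hψ]
    congr 1
    simp_rw [he, Finset.mul_sum]
    exact integral_finsetSum _ fun i _ => ((hχ i).isCC_levi (w i)).integrable_mul hu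
  simp_rw [key _ (hs _), key _ hg]
  exact (tendsto_finsetSum _ fun i _ => h _ (hχ i) _).const_mul c

/-- The number of preimages is weakly pluriharmonic and homogeneous of degree zero. -/
theorem exists_degree (hn : 1 ≤ n) (hF : IsLift d F) (hd : 1 ≤ d) :
    ∃ N : ℝ, ∀ᵐ q, tr F (fun _ => 1) q = N := by

  refine const_of_wpsh hn (tr_locInt hF hd (locallyIntegrable_const 1)) (tr_one_lhom hF hd) ?_
  exact tr_wpsh hn hF hd (locallyIntegrable_const 1) contDiffOn_const
    fun z _ _ v => (levi_of_hess_eq_zero (hess_const 1 z) v).ge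

end Pool.Agent.Lib.MP_a47f92_an
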