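import Pool.Agent.Lib.MP_a47f92_an.Area2
import Pool.Agent.Lib.MP_a47f92_an.MDisc2
import Pool.Agent.Lib.MP_a47f92_an.Approx

set_option autoImplicit false
set_option linter.unusedSectionVars false

/-! Push-forward of potentials. -/

namespace Pool.Agent.Lib.MP_a47f92_an

open MeasureTheory Filter Topology Set Complex Metric Function
open scoped ContDiff ComplexConjugate ComplexOrder Matrix ENNReal NNReal

variable {n : ℕ}

variable {d : ℕ} {F : E n → E n} {g φ ψ : E n → ℝ} {Ω : Set (E n)}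

/-- The auxiliary functions `‖ℓ l (F z)‖ ^ 2`. -/
noncomputable def aux (F : E n → E n) (ℓ : Fin n → E n →L[ℂ] ℂ) (l : Fin n) (z : E n) : ℝ :=
  ‖ℓ l (F z)‖ ^ 2

theorem PFA_two_le : (2 : WithTop ℕ∞) ≤ ((⊤ : ℕ∞) : WithTop ℕ∞) :=
  WithTop.coe_le_coe.2 (le_top : (2 : ℕ∞) ≤ ⊤)

theorem contDiff_aux (hF : IsLift d F) (ℓ : Fin n → E n →L[ℂ] ℂ) (l : Fin n) :
    ContDiff ℝ ∞ (aux F ℓ l) := by
  exact ContDiff.norm_sq ℂ (((ℓ l).restrictScalars ℝ).contDiff.comp hF.contDiffR)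

theorem hess_aux (hF : IsLift d F) (ℓ : Fin n → E n →L[ℂ] ℂ) (l : Fin n) (z : E n) :
    hess (aux F ℓ l) z = cong (cmat (fderiv ℂ F z)) (r1 (ℓ l)) := by
  have h1 : ContDiff ℝ 2 fun w : E n => ‖ℓ l w‖ ^ 2 :=
    ContDiff.norm_sq ℂ ((ℓ l).restrictScalars ℝ).contDiff
  have h2 := hess_comp (ψ := fun w : E n => ‖ℓ l w‖ ^ 2) (Φ := F) (z := z)
    (hF.contDiff.of_le PFA_two_le).contDiffAt h1.contDiffAt
  rw [hess_r1] at h2
  exact h2

/-- `area_mul`, and pointwise `jac F z * levi ψ (F z) v = c * md (…)` by `hess_comp`, `mdC_cong`,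
`cmat_det`. -/
theorem pair_tr (hF : IsLift d F) (hd : 1 ≤ d) {l : Fin n} {v : E n} {ℓ : Fin n → E n →L[ℂ] ℂ}
    {c : ℝ} (hc : ∀ B : Mat n, qf B v = c * mdC (update (fun l' => r1 (ℓ l')) l B))
    (hg : LocallyIntegrable g) (hψ : IsTest ψ) :
    pair (tr F g) ψ v = c * ∫ z, g z *
      md (update (fun l' => hess (aux F ℓ l') z) l (hess (fun w => ψ (F w)) z)) := by
  unfold pair
  rw [area_mul hF hd hg (hψ.isCC_levi v), ← integral_const_mul]
  refine integral_congr_ae (Eventually.of_forall fun z => ?_)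
  have h1 : update (fun l' => hess (aux F ℓ l') z) l (hess (fun w => ψ (F w)) z) =
      fun l' => cong (cmat (fderiv ℂ F z))
        (update (fun l' => r1 (ℓ l')) l (hess ψ (F z)) l') := by
    funext l'
    by_cases h : l' = l
    · subst h
      rw [update_self, update_self]
      exact hess_comp (hF.contDiff.of_le PFA_two_le).contDiffAt
        (hψ.1.of_le PFA_two_le).contDiffAt
    · rw [update_of_ne h, update_of_ne h, hess_aux hF]
  simp only [md]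
  rw [h1, mdC_cong, cmat_det, levi_eq_qf, hc, re_ofReal_mul, re_ofReal_mul, jac]
  ring

/-- `pair_tr` and `byparts` on the complement of the origin. -/
theorem pair_tr_smooth (hF : IsLift d F) (hd : 1 ≤ d) {l : Fin n} {v : E n}
    {ℓ : Fin n → E n →L[ℂ] ℂ} {c : ℝ}
    (hc : ∀ B : Mat n, qf B v = c * mdC (update (fun l' => r1 (ℓ l')) l B))
    (hi : LocallyIntegrable φ) (hφ : ContDiffOn ℝ ∞ φ {0}ᶜ) (hψ : IsTest ψ) :
    pair (tr F φ) ψ v = c * ∫ z, ψ (F z) *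
      md (update (fun l' => hess (aux F ℓ l') z) l (hess φ z)) := by
  have ht := hF.test_comp hd hψ
  rw [pair_tr hF hd hc hi hψ, byparts (p := aux F ℓ) (Ω := {0}ᶜ) isOpen_compl_singleton
    (fun l' _ => (contDiff_aux hF ℓ l').contDiffOn) hφ ht.1 ht.2.1
    (subset_compl_singleton_iff.2 ht.2.2)]

theorem tr_wpsh (hn : 1 ≤ n) (hF : IsLift d F) (hd : 1 ≤ d) (hi : LocallyIntegrable φ)
    (hφ : ContDiffOn ℝ ∞ φ {0}ᶜ) (h : ∀ z, z ≠ 0 → F z ∈ Ω → ∀ v, 0 ≤ levi φ z v) :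
    WPsh (tr F φ) Ω := by
  intro ψ hψ h0 hs v
  obtain ⟨ℓ, c, hc0, hc⟩ := exists_r1 (⟨0, hn⟩ : Fin n) v
  rw [pair_tr_smooth hF hd hc hi hφ hψ]
  refine mul_nonneg hc0 (integral_nonneg fun z => ?_)
  by_cases hz : ψ (F z) = 0
  · simp [hz]
  have h1 : F z ∈ tsupport ψ := subset_tsupport ψ hz
  have h2 : z ≠ 0 := by
    rintro rfl
    rw [hF.zero hd] at h1
    exact hψ.2.2 h1
  refine mul_nonneg (h0 _) (md_nonneg fun l' => ?_)
  by_cases hl : l' = ⟨0, hn⟩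
  · subst hl
    rw [update_self]
    exact psd_hess ((hφ.contDiffAt (isOpen_compl_singleton.mem_nhds h2)).of_le
      PFA_two_le) (h z h2 (hs h1))
  · rw [update_of_ne hl, hess_aux hF]
    exact cong_psd _ (r1_psd _)

theorem pair_tr_eq_zero (hn : 1 ≤ n) (hF : IsLift d F) (hd : 1 ≤ d) (hi : LocallyIntegrable φ)
    (hφ : ContDiffOn ℝ ∞ φ {0}ᶜ) (hψ : IsTest ψ)
    (h : ∀ z, F z ∈ tsupport ψ → hess φ z = 0) (v : E n) : pair (tr F φ) ψ v = 0 := by
  obtain ⟨ℓ, c, -, hc⟩ := exists_r1 (⟨0, hn⟩ : Fin n) v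
  rw [pair_tr_smooth hF hd hc hi hφ hψ]
  refine mul_eq_zero_of_right _ (integral_eq_zero_of_ae (Eventually.of_forall fun z => ?_))
  by_cases hz : F z ∈ tsupport ψ
  · have h1 : mdC (update (fun l' => hess (aux F ℓ l') z) ⟨0, hn⟩ (hess φ z)) = 0 :=
      mdC_eq_zero (l := ⟨0, hn⟩) (by rw [update_self, h z hz])
    simp [md, h1]
  · simp [image_eq_zero_of_notMem_tsupport hz]

end Pool.Agent.Lib.MP_a47f92_an
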