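import Pool.Agent.Lib.MP_a47f92_an.Parts
import Pool.Agent.Lib.MP_a47f92_an.Chain

set_option autoImplicit false
set_option linter.unusedSectionVars false

/-! The pairing with test functions. -/

namespace Pool.Agent.Lib.MP_a47f92_an

open MeasureTheory Filter Topology Set Complex Metric Function
open scoped ContDiff ComplexConjugate ComplexOrder Matrix ENNReal NNReal

variable {n : ℕ}

variable {u u' p ψ : E n → ℝ} {Ω : Set (E n)}

theorem PairA_two : (2 : WithTop ℕ∞) ≤ ((⊤ : ℕ∞) : WithTop ℕ∞) := WithTop.coe_le_coe.2 le_top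

theorem PairA_levi {z : E n} (h : ContDiffAt ℝ 2 ψ z) (v : E n) :
    wd v (wb v fun w => (ψ w : ℂ)) z = (levi ψ z v : ℂ) := by
  rw [← qf_hess h, levi_eq_qf]
  exact Complex.ext rfl (qf_im (hess_isHermitian h) v)

theorem IsCC.integrable_mul {h : E n → ℝ} (hh : IsCC h) (hu : LocallyIntegrable u) :
    Integrable fun z => u z * h z := by
  exact hu.integrable_smul_right_of_hasCompactSupport hh.1 hh.2.1

theorem pair_congr {v : E n} (h : ∀ᵐ z, z ∈ tsupport ψ → u z = u' z) : pair u ψ v = pair u' ψ v := by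
  refine integral_congr_ae (h.mono fun z hz => ?_)
  by_cases a : z ∈ tsupport ψ
  · simp only [hz a]
  · simp only [levi_of_hess_eq_zero (hess_of_notMem_tsupport a), mul_zero]

theorem pair_add (hu : LocallyIntegrable u) (hu' : LocallyIntegrable u') (hψ : IsTest ψ) (v : E n) :
    pair (fun z => u z + u' z) ψ v = pair u ψ v + pair u' ψ v := by
  simp only [pair, add_mul]
  exact integral_add ((hψ.isCC_levi v).integrable_mul hu) ((hψ.isCC_levi v).integrable_mul hu')

theorem pair_sub (hu : LocallyIntegrable u) (hu' : LocallyIntegrable u') (hψ : IsTest ψ) (v : E n) :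
    pair (fun z => u z - u' z) ψ v = pair u ψ v - pair u' ψ v := by
  simp only [pair, sub_mul]
  exact integral_sub ((hψ.isCC_levi v).integrable_mul hu) ((hψ.isCC_levi v).integrable_mul hu')

theorem pair_const_mul (c : ℝ) (u ψ : E n → ℝ) (v : E n) :
    pair (fun z => c * u z) ψ v = c * pair u ψ v := by
  simp only [pair, mul_assoc, integral_const_mul]

theorem pair_sum {ι : Type} (s : Finset ι) {g : ι → E n → ℝ} (hg : ∀ i ∈ s, LocallyIntegrable (g i))
    (hψ : IsTest ψ) (v : E n) : pair (fun z => ∑ i ∈ s, g i z) ψ v = ∑ i ∈ s, pair (g i) ψ v := by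
  simp only [pair, Finset.sum_mul]
  exact integral_finsetSum s fun i hi => (hψ.isCC_levi v).integrable_mul (hg i hi)

/-- `integral_mul_wd_wb` and `qf_hess`. -/
theorem pair_smooth (hΩ : IsOpen Ω) (hp : ContDiffOn ℝ ∞ p Ω) (hψ : ContDiff ℝ ∞ ψ)
    (hc : HasCompactSupport ψ) (hs : tsupport ψ ⊆ Ω) (v : E n) :
    pair p ψ v = ∫ z, ψ z * levi p z v := by
  have h := integral_mul_wd_wb hΩ (f := fun z => (p z : ℂ)) (g := fun z => (ψ z : ℂ))
    (ofRealCLM.contDiff.comp_contDiffOn hp) (ofRealCLM.contDiff.comp hψ)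
    (hc.comp_left ofReal_zero) ((tsupport_comp_subset ofReal_zero ψ).trans hs) v v
  refine ofReal_injective ?_
  rw [pair, ← integral_complex_ofReal, ← integral_complex_ofReal]
  refine (integral_congr_ae (.of_forall fun z => ?_)).trans
    (h.trans (integral_congr_ae (.of_forall fun z => ?_)))
  · simp only [ofReal_mul, PairA_levi (hψ.contDiffAt.of_le PairA_two)]
  · by_cases a : z ∈ tsupport ψ
    · simp only [ofReal_mul, PairA_levi ((hp.contDiffAt (hΩ.mem_nhds (hs a))).of_le PairA_two)]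
    · simp only [image_eq_zero_of_notMem_tsupport a, ofReal_zero, zero_mul]

theorem pair_const (c : ℝ) (hψ : IsTest ψ) (v : E n) : pair (fun _ => c) ψ v = 0 := by
  simp only [pair_smooth isOpen_univ contDiffOn_const hψ.1 hψ.2.1 (subset_univ _),
    levi_of_hess_eq_zero (hess_const c _), mul_zero, integral_zero]

theorem pair_add_const (hu : LocallyIntegrable u) (c : ℝ) (hψ : IsTest ψ) (v : E n) :
    pair (fun z => u z + c) ψ v = pair u ψ v := by
  rw [pair_add hu (locallyIntegrable_const c) hψ, pair_const c hψ, add_zero]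

theorem wpsh_of_levi (hΩ : IsOpen Ω) (hp : ContDiffOn ℝ ∞ p (Ω \ {0}))
    (h : ∀ z ∈ Ω, z ≠ 0 → ∀ v, 0 ≤ levi p z v) : WPsh p Ω := by
  intro ψ h1 h2 h3 v
  rw [pair_smooth (hΩ.sdiff isClosed_singleton) hp h1.1 h1.2.1
    (subset_sdiff_singleton h3 h1.2.2)]
  refine integral_nonneg fun z => ?_
  by_cases a : z ∈ tsupport ψ
  · exact mul_nonneg (h2 z) (h z (h3 a) (ne_of_mem_of_not_mem a h1.2.2) v)
  · simp only [image_eq_zero_of_notMem_tsupport a, zero_mul, Pi.zero_apply, le_refl]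

theorem pair_eq_zero_of_hess (hp : ContDiffOn ℝ ∞ p {0}ᶜ) (hψ : IsTest ψ)
    (h : ∀ z ∈ tsupport ψ, hess p z = 0) (v : E n) : pair p ψ v = 0 := by
  rw [pair_smooth isOpen_compl_singleton hp hψ.1 hψ.2.1 (subset_compl_singleton_iff.2 hψ.2.2)]
  refine integral_eq_zero_of_ae (.of_forall fun z => ?_)
  by_cases a : z ∈ tsupport ψ
  · simp only [levi_of_hess_eq_zero (h z a), mul_zero, Pi.zero_apply]
  · simp only [image_eq_zero_of_notMem_tsupport a, zero_mul, Pi.zero_apply]

/-- Test with a bump function near a point where the continuous function `levi p · v` is negative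
(`exists_contDiff_tsupport_subset`). -/
theorem levi_nonneg_of_wpsh (hΩ : IsOpen Ω) (hp : ContDiffOn ℝ ∞ p (Ω \ {0})) (h : WPsh p Ω)
    {z : E n} (hz : z ∈ Ω) (h0 : z ≠ 0) (v : E n) : 0 ≤ levi p z v := by
  by_contra hn
  have ho := hΩ.sdiff (isClosed_singleton (x := (0 : E n)))
  have hc := (contDiffOn_levi ho hp v).continuousOn
  obtain ⟨f, f1, f2, f3, f4, f5⟩ := exists_contDiff_tsupport_subset (n := ⊤) (inter_mem
    (ho.mem_nhds ⟨hz, h0⟩) ((hc.continuousAt (ho.mem_nhds ⟨hz, h0⟩)).eventually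
      (gt_mem_nhds (not_le.1 hn))))
  have f0 : ∀ y, 0 ≤ f y := fun y => (f4 (mem_range_self y)).1
  have f6 : tsupport f ⊆ Ω \ {0} := fun y hy => (f1 hy).1
  have h1 := h f ⟨f3, f2, fun a => (f6 a).2 rfl⟩ f0 (fun y hy => (f6 hy).1) v
  have h2 := (continuous_mul_of_tsupport ho hc.neg f3.continuous
    f6).integral_pos_of_hasCompactSupport_nonneg_nonzero (μ := volume) (x := z) f2.mul_left
    (fun y => by
      by_cases a : y ∈ tsupport f
      · exact mul_nonneg (neg_nonneg.2 (le_of_lt (f1 a).2)) (f0 y)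
      · simp only [image_eq_zero_of_notMem_tsupport a, mul_zero, Pi.zero_apply, le_refl])
    (by simpa [f5] using (not_le.1 hn).ne)
  rw [pair_smooth ho hp f3 f2 f6] at h1
  simp only [Pi.neg_apply, mul_neg, integral_neg, mul_comm _ (f _)] at h2
  linarith

theorem hess_eq_zero_of_wph (hΩ : IsOpen Ω) (hp : ContDiffOn ℝ ∞ p (Ω \ {0})) (h : WPh p Ω)
    {z : E n} (hz : z ∈ Ω) (h0 : z ≠ 0) : hess p z = 0 := by
  refine hess_eq_zero ((hp.contDiffAt ((hΩ.sdiff isClosed_singleton).mem_nhds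
    ⟨hz, h0⟩)).of_le PairA_two) fun v => le_antisymm ?_
      (levi_nonneg_of_wpsh hΩ hp (wph_iff.1 h).1 hz h0 v)
  have a := levi_nonneg_of_wpsh hΩ hp.neg (wph_iff.1 h).2 hz h0 v
  rwa [levi_neg, neg_nonneg] at a

end Pool.Agent.Lib.MP_a47f92_an
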