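import Pool.Agent.Lib.MP_a47f92_an.PartsA

set_option autoImplicit false
set_option linter.unusedSectionVars false

/-! Integration by parts. -/

namespace Pool.Agent.Lib.MP_a47f92_an

open MeasureTheory Filter Topology Set Complex Metric Function
open scoped ContDiff ComplexConjugate ComplexOrder Matrix ENNReal NNReal

variable {n : ℕ}

variable {p : Fin n → E n → ℝ} {l : Fin n} {Ω : Set (E n)} {a b : E n → ℝ}

theorem Parts_le (k : ℕ) : (k : WithTop ℕ∞) ≤ ((⊤ : ℕ∞) : WithTop ℕ∞) := by exact_mod_cast le_top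

theorem Parts_sub {Y : Type} [Zero Y] {g : E n → Y} (h0 : ∀ z, z ∉ tsupport b → g z = 0) :
    tsupport g ⊆ tsupport b :=
  closure_minimal (fun z hz => by_contra fun h => mem_support.1 hz (h0 z h)) (isClosed_tsupport b)

theorem Parts_cof (hΩ : IsOpen Ω) (hp : ∀ l', l' ≠ l → ContDiffOn ℝ ∞ (p l') Ω) (i j : Fin n) :
    ContDiffOn ℝ ∞ (fun z => cof (fun l' => hess (p l') z) l i j) Ω := fun _ hz =>
  (contDiffAt_cof (m' := ∞) (fun l' h => (hp l' h).contDiffAt (hΩ.mem_nhds hz)) le_rfl
    i j).contDiffWithinAt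

theorem Parts_int {f g : E n → ℂ} (hΩ : IsOpen Ω) (hf : ContDiffOn ℝ ∞ f Ω) (hg : ContDiff ℝ ∞ g)
    (hc : HasCompactSupport b) (hs : tsupport b ⊆ Ω) (h0 : ∀ z, z ∉ tsupport b → g z = 0) :
    Integrable fun z => f z * g z :=
  (contDiff_mul_of_tsupport hΩ hf hg
    ((Parts_sub h0).trans hs)).continuous.integrable_of_hasCompactSupport
    (HasCompactSupport.intro hc fun z hz => by rw [h0 z hz, mul_zero])

theorem Parts_test (hb : IsTest b) (ha : ContDiff ℝ ∞ a) (h0 : ∀ z, z ∉ tsupport b → a z = 0) :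
    IsTest a :=
  ⟨ha, HasCompactSupport.intro hb.2.1 h0, fun h => hb.2.2 (Parts_sub h0 h)⟩

theorem Parts_mul (hb : IsTest b) (c : ℝ) : IsTest fun z => c * b z :=
  Parts_test hb (contDiff_const.mul hb.1) fun z hz => by
    rw [image_eq_zero_of_notMem_tsupport hz, mul_zero]

theorem Parts_qf' (H : Mat n) (i : Fin n) : qf H (ev i) = H i i := by
  simp [qf, ev, apply_ite conj]

theorem Parts_qf (H : Mat n) (i j : Fin n) (c : ℂ) :
    qf H (ev i + c • ev j) = H i i + conj c * H i j + c * H j i + c * conj c * H j j := by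
  simp [qf, ev, apply_ite conj, add_mul, mul_add, Finset.sum_add_distrib]
  ring

theorem Parts_split {g : E n → ℂ} (hg : ContDiff ℝ ∞ g) (i j : Fin n) (z : E n) :
    wd (ev i) (wb (ev j) g) z =
      hess (fun w => (g w).re) z i j + I * hess (fun w => (g w).im) z i j := by
  have h1 : ContDiff ℝ ∞ fun w => ((g w).re : ℂ) :=
    ofRealCLM.contDiff.comp (reCLM.contDiff.comp hg)
  have h2 : ContDiff ℝ ∞ fun w => ((g w).im : ℂ) :=
    ofRealCLM.contDiff.comp (imCLM.contDiff.comp hg)
  have e : g = fun w => ((g w).re : ℂ) + I * ((g w).im : ℂ) := funext fun w => by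
    rw [mul_comm, re_add_im]
  have e2 : wb (ev j) g = fun w => wb (ev j) (fun w => ((g w).re : ℂ)) w +
      I * wb (ev j) (fun w => ((g w).im : ℂ)) w := funext fun w => by
    conv_lhs => rw [e]
    rw [wb_add (h1.differentiable (by simp) w) ((h2.differentiable (by simp) w).const_mul I),
      wb_const_mul]
  rw [e2, wd_add ((contDiffAt_wb (m := ∞) h1.contDiffAt le_rfl _).differentiableAt (by simp))
    (((contDiffAt_wb (m := ∞) h2.contDiffAt le_rfl _).differentiableAt (by simp)).const_mul I),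
    wd_const_mul, hess_apply, hess_apply]

/-- Expand the left side with `mdC_update_eq`, apply `integral_mul_wd_wb` with `f = cof i j * a`,
`g = b`, and recombine with `mdC_eq_div` on the support of `b`. -/
theorem byparts (hΩ : IsOpen Ω) (hp : ∀ l', l' ≠ l → ContDiffOn ℝ ∞ (p l') Ω)
    (ha : ContDiffOn ℝ ∞ a Ω) (hb : ContDiff ℝ ∞ b) (hc : HasCompactSupport b)
    (hs : tsupport b ⊆ Ω) :
    ∫ z, a z * md (update (fun l' => hess (p l') z) l (hess b z)) =
      ∫ z, b z * md (update (fun l' => hess (p l') z) l (hess a z)) := by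
  have hb' : ContDiff ℝ ∞ fun z => (b z : ℂ) := ofRealCLM.contDiff.comp hb
  have hb0 : ∀ z, z ∉ tsupport b → (b z : ℂ) = 0 := fun z hz => by
    rw [image_eq_zero_of_notMem_tsupport hz, ofReal_zero]
  have hf : ∀ i j, ContDiffOn ℝ ∞
      (fun z => cof (fun l' => hess (p l') z) l i j * (a z : ℂ)) Ω := fun i j =>
    (Parts_cof hΩ hp i j).mul (ofRealCLM.contDiff.comp_contDiffOn ha)
  have h1 : ∀ i j, Integrable fun z => cof (fun l' => hess (p l') z) l i j * (a z : ℂ) *
      wd (ev i) (wb (ev j) fun w => (b w : ℂ)) z := fun i j =>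
    Parts_int hΩ (hf i j) (contDiffOn_univ.1 (contDiffOn_hess isOpen_univ hb.contDiffOn i j)) hc hs
      fun z hz => by rw [← hess_apply, hess_of_notMem_tsupport hz, Matrix.zero_apply]
  have h2 : ∀ i j, Integrable fun z => (b z : ℂ) * wd (ev i) (wb (ev j)
      fun w => cof (fun l' => hess (p l') w) l i j * (a w : ℂ)) z := fun i j => by
    simp only [mul_comm (b _ : ℂ)]
    exact Parts_int hΩ (fun z hz => (contDiffAt_wd (m' := ∞) (contDiffAt_wb (m' := ∞)
      ((hf i j).contDiffAt (hΩ.mem_nhds hz)) le_rfl _) le_rfl _).contDiffWithinAt) hb' hc hs hb0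
  have e1 : ∀ z, a z * md (update (fun l' => hess (p l') z) l (hess b z)) =
      RCLike.re (∑ i, ∑ j, cof (fun l' => hess (p l') z) l i j * (a z : ℂ) *
        wd (ev i) (wb (ev j) fun w => (b w : ℂ)) z) := fun z => by
    rw [RCLike.re_to_complex, ← re_ofReal_mul, mdC_update_eq, Finset.mul_sum]
    congr 1
    refine Finset.sum_congr rfl fun i _ => ?_
    rw [Finset.mul_sum]
    exact Finset.sum_congr rfl fun j _ => by rw [hess_apply]; ring
  have e2 : ∀ z, b z * md (update (fun l' => hess (p l') z) l (hess a z)) =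
      RCLike.re (∑ i, ∑ j, (b z : ℂ) * wd (ev i) (wb (ev j)
        fun w => cof (fun l' => hess (p l') w) l i j * (a w : ℂ)) z) := fun z => by
    rw [RCLike.re_to_complex, ← re_ofReal_mul]
    by_cases hz : z ∈ Ω
    · rw [mdC_eq_div (fun l' h => ((hp l' h).contDiffAt (hΩ.mem_nhds hz)).of_le (Parts_le 4))
        ((ha.contDiffAt (hΩ.mem_nhds hz)).of_le (Parts_le 2))]
      simp only [Finset.mul_sum]
    · simp only [hb0 z fun h => hz (hs h), zero_mul, Finset.sum_const_zero]
  simp only [e1, e2]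
  rw [integral_re (integrable_finsetSum _ fun i _ => integrable_finsetSum _ fun j _ => h1 i j),
    integral_re (integrable_finsetSum _ fun i _ => integrable_finsetSum _ fun j _ => h2 i j),
    integral_finsetSum _ fun i _ => integrable_finsetSum _ fun j _ => h1 i j,
    integral_finsetSum _ fun i _ => integrable_finsetSum _ fun j _ => h2 i j]
  congr 1
  refine Finset.sum_congr rfl fun i _ => ?_
  rw [integral_finsetSum _ fun j _ => h1 i j, integral_finsetSum _ fun j _ => h2 i j]
  have hs' : tsupport (fun z => (b z : ℂ)) ⊆ tsupport b := Parts_sub hb0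
  exact Finset.sum_congr rfl fun j _ => integral_mul_wd_wb hΩ (hf i j) hb'
    (HasCompactSupport.intro hc hb0) (hs'.trans hs) _ _

theorem integral_md_update (hΩ : IsOpen Ω) (hp : ∀ l', l' ≠ l → ContDiffOn ℝ ∞ (p l') Ω)
    (hb : ContDiff ℝ ∞ b) (hc : HasCompactSupport b) (hs : tsupport b ⊆ Ω) :
    ∫ z, md (update (fun l' => hess (p l') z) l (hess b z)) = 0 := by
  have h := byparts (a := fun _ => 1) hΩ hp contDiffOn_const hb hc hs
  have h0 : ∀ z, md (update (fun l' => hess (p l') z) l (hess (fun _ => (1 : ℝ)) z)) = 0 :=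
    fun z => by rw [md, mdC_eq_zero (l := l) (by rw [update_self, hess_const]), zero_re]
  simpa only [one_mul, h0, mul_zero, integral_zero] using h

/-- By `mdC_eq_div` the left side is `∑ i j, re (wd (ev i) (wb (ev j) (α + I β)))` with test
functions `α = re (cof i j) * b`, `β = im (cof i j) * b`, that is
`re (hess α z i j) - im (hess β z i j)`. For a Hermitian matrix `H`,
`2 re (H i j) = qf (e_i + e_j) - qf e_i - qf e_j` and
`2 im (H i j) = qf (e_i + I e_j) - qf e_i - qf e_j`; constants are absorbed by `levi_const_mul`. -/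
theorem md_dec (hp : ∀ l', l' ≠ l → ContDiffOn ℝ ∞ (p l') {0}ᶜ) (hb : IsTest b) :
    ∃ (ι : Type) (_ : Fintype ι) (ψ : ι → E n → ℝ) (v : ι → E n), (∀ i, IsTest (ψ i)) ∧
      ∀ z, md (update (fun l' => hess (p l') z) l (hess b z)) = ∑ i, levi (ψ i) z (v i) := by
  have hb0 : ∀ z, z ∉ tsupport b → (b z : ℂ) = 0 := fun z hz => by
    rw [image_eq_zero_of_notMem_tsupport hz, ofReal_zero]
  have hs' : tsupport (fun z => (b z : ℂ)) ⊆ tsupport b := Parts_sub hb0
  have hg : ∀ i j, ContDiff ℝ ∞ fun z => cof (fun l' => hess (p l') z) l i j * (b z : ℂ) :=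
    fun i j => contDiff_mul_of_tsupport isOpen_compl_singleton
      (Parts_cof isOpen_compl_singleton hp i j) (ofRealCLM.contDiff.comp hb.1)
      (hs'.trans (subset_compl_singleton_iff.2 hb.2.2))
  obtain ⟨g, hge⟩ : ∃ g : Fin n → Fin n → E n → ℂ,
      g = fun i j z => cof (fun l' => hess (p l') z) l i j * (b z : ℂ) := ⟨_, rfl⟩
  have hg' : ∀ i j, ContDiff ℝ ∞ (g i j) := by rw [hge]; exact hg
  have hg0 : ∀ i j z, z ∉ tsupport b → g i j z = 0 := fun i j z hz => by
    simp only [hge, hb0 z hz, mul_zero]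
  have hα : ∀ i j, IsTest fun z => (g i j z).re := fun i j =>
    Parts_test hb (reCLM.contDiff.comp (hg' i j)) fun z hz => by rw [hg0 i j z hz, zero_re]
  have hβ : ∀ i j, IsTest fun z => (g i j z).im := fun i j =>
    Parts_test hb (imCLM.contDiff.comp (hg' i j)) fun z hz => by rw [hg0 i j z hz, zero_im]
  refine ⟨Fin n × Fin n × Fin 6, inferInstance, fun x =>
    ![fun z => 1 / 2 * (g x.1 x.2.1 z).re, fun z => -1 / 2 * (g x.1 x.2.1 z).re,
      fun z => -1 / 2 * (g x.1 x.2.1 z).re, fun z => -1 / 2 * (g x.1 x.2.1 z).im,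
      fun z => 1 / 2 * (g x.1 x.2.1 z).im, fun z => 1 / 2 * (g x.1 x.2.1 z).im] x.2.2,
    fun x => ![ev x.1 + (1 : ℂ) • ev x.2.1, ev x.1, ev x.2.1, ev x.1 + I • ev x.2.1, ev x.1,
      ev x.2.1] x.2.2, fun x => ?_, fun z => ?_⟩
  · obtain ⟨i, j, k⟩ := x
    fin_cases k
    exacts [Parts_mul (hα i j) _, Parts_mul (hα i j) _, Parts_mul (hα i j) _,
      Parts_mul (hβ i j) _, Parts_mul (hβ i j) _, Parts_mul (hβ i j) _]
  have e : mdC (update (fun l' => hess (p l') z) l (hess b z)) =
      ∑ i, ∑ j, wd (ev i) (wb (ev j) (g i j)) z := by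
    by_cases hz : z = 0
    · have h0 : z ∉ tsupport b := hz ▸ hb.2.2
      rw [mdC_eq_zero (l := l) (by rw [update_self, hess_of_notMem_tsupport h0])]
      refine (Finset.sum_eq_zero fun i _ => Finset.sum_eq_zero fun j _ => ?_).symm
      have h1 : g i j =ᶠ[𝓝 z] fun _ => 0 := by
        filter_upwards [(isClosed_tsupport b).isOpen_compl.mem_nhds h0] with w hw using hg0 i j w hw
      rw [(wd_congr (wb_congr h1 _) _).eq_of_nhds, funext (wb_const 0 (ev j)), wd_const]
    · rw [mdC_eq_div (fun l' h => ((hp l' h).contDiffAt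
        (isOpen_compl_singleton.mem_nhds hz)).of_le (Parts_le 4))
        (hb.1.contDiffAt.of_le (Parts_le 2)), hge]
  rw [md, e, re_sum, Fintype.sum_prod_type]
  refine Finset.sum_congr rfl fun i _ => ?_
  rw [re_sum, Fintype.sum_prod_type]
  refine Finset.sum_congr rfl fun j _ => ?_
  have a1 := (hess_isHermitian (z := z) ((hα i j).1.contDiffAt.of_le (Parts_le 2))).apply j i
  have a2 := (hess_isHermitian (z := z) ((hβ i j).1.contDiffAt.of_le (Parts_le 2))).apply j i
  rw [Parts_split (hg' i j), Fin.sum_univ_six]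
  simp only [Matrix.cons_val, levi_const_mul]
  simp only [levi_eq_qf, Parts_qf, Parts_qf']
  rw [← a1, ← a2]
  simp
  ring

end Pool.Agent.Lib.MP_a47f92_an
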