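import Pool.Agent.Lib.MP_a47f92_an.Div

set_option autoImplicit false
set_option linter.unusedSectionVars false

/-! Integration by parts. -/

namespace Pool.Agent.Lib.MP_a47f92_an

open MeasureTheory Filter Topology Set Complex Metric Function
open scoped ContDiff ComplexConjugate ComplexOrder Matrix ENNReal NNReal

variable {n : ℕ}

variable {p : Fin n → E n → ℝ} {l : Fin n} {Ω : Set (E n)} {a b : E n → ℝ}

/-- A product of a function smooth on `Ω` and a smooth function supported in `Ω` is smooth. -/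
theorem contDiff_mul_of_tsupport {f g : E n → ℂ} (hΩ : IsOpen Ω) (hf : ContDiffOn ℝ ∞ f Ω)
    (hg : ContDiff ℝ ∞ g) (hs : tsupport g ⊆ Ω) : ContDiff ℝ ∞ fun z => f z * g z := by
  refine contDiff_iff_contDiffAt.2 fun z => ?_
  by_cases hz : z ∈ tsupport g
  · exact (hf.contDiffAt (hΩ.mem_nhds (hs hz))).mul hg.contDiffAt
  · have h1 : (fun z => f z * g z) =ᶠ[𝓝 z] 0 :=
      notMem_tsupport_iff_eventuallyEq.1 fun h => hz (tsupport_mul_subset_right h)
    exact contDiffAt_const.congr_of_eventuallyEq h1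

theorem continuous_mul_of_tsupport {f g : E n → ℝ} (hΩ : IsOpen Ω) (hf : ContinuousOn f Ω)
    (hg : Continuous g) (hs : tsupport g ⊆ Ω) : Continuous fun z => f z * g z := by
  refine continuous_iff_continuousAt.2 fun z => ?_
  by_cases hz : z ∈ tsupport g
  · exact (hf.continuousAt (hΩ.mem_nhds (hs hz))).mul hg.continuousAt
  · have h1 : (fun z => f z * g z) =ᶠ[𝓝 z] 0 :=
      notMem_tsupport_iff_eventuallyEq.1 fun h => hz (tsupport_mul_subset_right h)
    exact continuousAt_const.congr h1.symm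

theorem PartsA_wb_supp (g : E n → ℂ) (w : E n) : tsupport (wb w g) ⊆ tsupport g :=
  closure_minimal (fun _ hz => by_contra fun h => hz (wb_of_notMem_tsupport h w))
    (isClosed_tsupport g)

theorem PartsA_wd_supp (g : E n → ℂ) (w : E n) : tsupport (wd w g) ⊆ tsupport g :=
  closure_minimal (fun _ hz => by_contra fun h => hz (wd_of_notMem_tsupport h w))
    (isClosed_tsupport g)

theorem PartsA_wd_on {f : E n → ℂ} (hΩ : IsOpen Ω) (hf : ContDiffOn ℝ ∞ f Ω) (v : E n) :
    ContDiffOn ℝ ∞ (wd v f) Ω := fun _ hz =>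
  (contDiffAt_wd (hf.contDiffAt (hΩ.mem_nhds hz)) le_rfl v).contDiffWithinAt

theorem PartsA_wb_on {f : E n → ℂ} (hΩ : IsOpen Ω) (hf : ContDiffOn ℝ ∞ f Ω) (v : E n) :
    ContDiffOn ℝ ∞ (wb v f) Ω := fun _ hz =>
  (contDiffAt_wb (hf.contDiffAt (hΩ.mem_nhds hz)) le_rfl v).contDiffWithinAt

theorem PartsA_int {f g : E n → ℂ} (hΩ : IsOpen Ω) (hf : ContDiffOn ℝ ∞ f Ω)
    (hg : ContDiff ℝ ∞ g) (hc : HasCompactSupport g) (hs : tsupport g ⊆ Ω) :
    Integrable fun z => f z * g z :=
  (contDiff_mul_of_tsupport hΩ hf hg hs).continuous.integrable_of_hasCompactSupport hc.mul_left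

/-- `∫ f ∂_a ∂bar_b g = ∫ g ∂_a ∂bar_b f`: apply `integral_wd` to `f * wb b g` and `integral_wb` to
`wd a f * g`. -/
theorem integral_mul_wd_wb {f g : E n → ℂ} (hΩ : IsOpen Ω) (hf : ContDiffOn ℝ ∞ f Ω)
    (hg : ContDiff ℝ ∞ g) (hc : HasCompactSupport g) (hs : tsupport g ⊆ Ω) (v w : E n) :
    ∫ z, f z * wd v (wb w g) z = ∫ z, g z * wd v (wb w f) z := by
  have one : (1 : WithTop ℕ∞) ≤ ((⊤ : ℕ∞) : WithTop ℕ∞) := WithTop.coe_le_coe.2 le_top
  have two : (2 : WithTop ℕ∞) ≤ ((⊤ : ℕ∞) : WithTop ℕ∞) := WithTop.coe_le_coe.2 le_top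
  have s1 := PartsA_wb_supp g w
  have s2 := (PartsA_wd_supp (wb w g) v).trans s1
  have c1 : HasCompactSupport (wb w g) := hc.of_isClosed_subset (isClosed_tsupport _) s1
  have c2 : HasCompactSupport (wd v (wb w g)) := hc.of_isClosed_subset (isClosed_tsupport _) s2
  have d1 : ContDiff ℝ ∞ (wb w g) := contDiffOn_univ.1 (PartsA_wb_on isOpen_univ hg.contDiffOn w)
  have d2 : ContDiff ℝ ∞ (wd v (wb w g)) :=
    contDiffOn_univ.1 (PartsA_wd_on isOpen_univ d1.contDiffOn v)
  have f1 := PartsA_wd_on hΩ hf v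
  have f2 := PartsA_wb_on hΩ f1 w
  have i1 := integral_wd ((contDiff_mul_of_tsupport hΩ hf d1 (s1.trans hs)).of_le one)
    c1.mul_left v
  have i2 := integral_wb ((contDiff_mul_of_tsupport hΩ f1 hg hs).of_le one) hc.mul_left w
  have e1 : ∀ z, wd v (fun z => f z * wb w g z) z =
      wd v f z * wb w g z + f z * wd v (wb w g) z := by
    intro z
    by_cases hz : z ∈ tsupport g
    · exact wd_mul ((hf.contDiffAt (hΩ.mem_nhds (hs hz))).differentiableAt (by simp))
        (d1.differentiable (by simp) z)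
    · rw [wd_of_notMem_tsupport fun h => hz (s1 (tsupport_mul_subset_right h)),
        wb_of_notMem_tsupport hz, wd_of_notMem_tsupport (f := wb w g) fun h => hz (s1 h)]
      simp
  have e2 : ∀ z, wb w (fun z => wd v f z * g z) z =
      wb w (wd v f) z * g z + wd v f z * wb w g z := by
    intro z
    by_cases hz : z ∈ tsupport g
    · exact wb_mul ((f1.contDiffAt (hΩ.mem_nhds (hs hz))).differentiableAt (by simp))
        (hg.differentiable (by simp) z)
    · rw [wb_of_notMem_tsupport fun h => hz (tsupport_mul_subset_right h),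
        wb_of_notMem_tsupport hz, image_eq_zero_of_notMem_tsupport hz]
      simp
  have e3 : ∀ z, g z * wd v (wb w f) z = wb w (wd v f) z * g z := by
    intro z
    by_cases hz : z ∈ tsupport g
    · rw [wd_wb_comm ((hf.contDiffAt (hΩ.mem_nhds (hs hz))).of_le two), mul_comm]
    · rw [image_eq_zero_of_notMem_tsupport hz]
      simp
  simp only [e1] at i1
  simp only [e2] at i2
  simp only [e3]
  rw [integral_add (PartsA_int hΩ f1 d1 c1 (s1.trans hs)) (PartsA_int hΩ hf d2 c2 (s2.trans hs))]
    at i1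
  rw [integral_add (PartsA_int hΩ f2 hg hc hs) (PartsA_int hΩ f1 d1 c1 (s1.trans hs))] at i2
  linear_combination i1 - i2

theorem continuousOn_md (hΩ : IsOpen Ω) (hp : ∀ l, ContDiffOn ℝ ∞ (p l) Ω) :
    ContinuousOn (fun z => md fun l => hess (p l) z) Ω := by
  refine Complex.continuous_re.comp_continuousOn ?_
  unfold mdC
  refine continuousOn_finsetSum _ fun σ _ => continuousOn_finsetSum _ fun π _ =>
    continuousOn_const.mul (continuousOn_finsetProd _ fun l _ => ?_)
  exact (contDiffOn_hess hΩ (hp l) _ _).continuousOn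

theorem md_update_of_notMem {z : E n} (h : z ∉ tsupport b) :
    md (update (fun l' => hess (p l') z) l (hess b z)) = 0 := by
  have : mdC (update (fun l' => hess (p l') z) l (hess b z)) = 0 :=
    mdC_eq_zero (l := l) (by rw [update_self, hess_of_notMem_tsupport h])
  simp only [md, this, Complex.zero_re]

theorem continuous_md_update (hΩ : IsOpen Ω) (hp : ∀ l', l' ≠ l → ContDiffOn ℝ ∞ (p l') Ω)
    (hb : ContDiff ℝ ∞ b) (hs : tsupport b ⊆ Ω) :
    Continuous fun z => md (update (fun l' => hess (p l') z) l (hess b z)) := by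
  refine continuous_iff_continuousAt.2 fun z => ?_
  by_cases hz : z ∈ tsupport b
  · have h1 := continuousOn_md (p := update p l b) hΩ fun l' => by
      by_cases h : l' = l
      · rw [h, update_self]; exact hb.contDiffOn
      · rw [update_of_ne h]; exact hp l' h
    have e : ∀ z, (fun l' => hess (update p l b l') z) =
        update (fun l' => hess (p l') z) l (hess b z) := fun z =>
      funext fun l' => apply_update (fun _ q => hess q z) p l b l'
    simp only [e] at h1
    exact h1.continuousAt (hΩ.mem_nhds (hs hz))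
  · refine (continuousAt_const (y := (0 : ℝ))).congr ?_
    filter_upwards [(isClosed_tsupport b).isOpen_compl.mem_nhds hz] with y hy
    exact (md_update_of_notMem hy).symm

theorem isCC_md_update (hp : ∀ l', l' ≠ l → ContDiffOn ℝ ∞ (p l') {0}ᶜ) (hb : IsTest b) :
    IsCC fun z => md (update (fun l' => hess (p l') z) l (hess b z)) := by
  have hs : tsupport (fun z => md (update (fun l' => hess (p l') z) l (hess b z))) ⊆ tsupport b :=
    closure_minimal (fun _ hz => by_contra fun h => hz (md_update_of_notMem h))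
      (isClosed_tsupport b)
  exact ⟨continuous_md_update isOpen_compl_singleton hp hb.1 fun z hz h => hb.2.2 (h ▸ hz),
    hb.2.1.of_isClosed_subset (isClosed_tsupport _) hs, fun h => hb.2.2 (hs h)⟩

end Pool.Agent.Lib.MP_a47f92_an
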