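import Pool.Agent.Lib.MP_a47f92_an.Sm1A

set_option autoImplicit false
set_option linter.unusedSectionVars false

/-! The smoothing operator: elementary properties. -/

namespace Pool.Agent.Lib.MP_a47f92_an

open MeasureTheory Filter Topology Set Complex Metric Function
open scoped ContDiff ComplexConjugate ComplexOrder Matrix ENNReal NNReal

variable {n : ℕ}

variable (κ : Ker n) {r : ℝ} {g g' : E n → ℝ} {z : E n}

theorem Sm1_zero (hr : 0 < r) (hz : z ≠ 0) {x : E n} (hx : r * ‖z‖ ≤ ‖x‖) :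
    κ.k ((r * ‖z‖)⁻¹ • x) = 0 := by
  have h : 0 < r * ‖z‖ := mul_pos hr (norm_pos_iff.2 hz)
  refine κ.eq_zero ?_
  rw [norm_smul, norm_inv, Real.norm_of_nonneg h.le, ← div_eq_inv_mul, one_le_div h]
  exact hx

/-- `contDiffOn_convolution_right_with_param` with the parameter `ρ = r ‖z‖` in a bounded interval
and kernel `x ↦ ρ ^ (-2 n) k (-ρ⁻¹ • x)`; compose with `z ↦ (r ‖z‖, z)`. -/
theorem sm_contDiffOn (hr : 0 < r) (hg : LocallyIntegrable g) :
    ContDiffOn ℝ ∞ (sm κ r g) {0}ᶜ := by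
  intro z₀ hz₀
  have hs : IsOpen (({0}ᶜ : Set (E n)) ∩ ball 0 (‖z₀‖ + 1)) :=
    isOpen_compl_singleton.inter isOpen_ball
  have hm : z₀ ∈ ({0}ᶜ : Set (E n)) ∩ ball 0 (‖z₀‖ + 1) := ⟨hz₀, mem_ball_zero_iff.2 (by linarith)⟩
  have key := contDiffOn_convolution_right_with_param_comp (𝕜 := ℝ) (n := ⊤) (μ := volume)
    (ContinuousLinearMap.mul ℝ ℝ) (v := fun p : E n => p) contDiffOn_id (f := g)
    (g := fun p x => ((r * ‖p‖) ^ (2 * n))⁻¹ * κ.k ((r * ‖p‖)⁻¹ • (-x)))
    (k := closedBall 0 (r * (‖z₀‖ + 1))) hs (isCompact_closedBall _ _) ?_ hg ?_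
  · refine ((key.congr fun z hz => ?_).contDiffAt (hs.mem_nhds hm)).contDiffWithinAt
    rw [sm_eq_conv κ hr g hz.1, convolution_def]
    simp only [ContinuousLinearMap.mul_apply', neg_sub]
  · intro p x hp hx
    rw [Sm1_zero κ hr hp.1, mul_zero]
    rw [mem_closedBall_zero_iff, not_le] at hx
    rw [norm_neg]
    exact le_trans (mul_le_mul_of_nonneg_left (mem_ball_zero_iff.1 hp.2).le hr.le) hx.le
  · rintro ⟨p, x⟩ ⟨hp, -⟩
    have h0 : p ≠ 0 := hp.1
    have h1 : r * ‖p‖ ≠ 0 := mul_ne_zero hr.ne' (norm_ne_zero_iff.2 h0)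
    have h2 : ContDiffAt ℝ ∞ (fun q : E n × E n => r * ‖q.1‖) (p, x) :=
      contDiffAt_const.mul (ContDiffAt.norm ℂ contDiffAt_fst h0)
    exact (((h2.pow _).inv (pow_ne_zero _ h1)).mul (κ.smooth.contDiffAt.comp _
      ((h2.inv h1).smul contDiffAt_snd.neg))).contDiffWithinAt

/-- Fubini in `sm_eq_conv`: `h' y = ∫ z, h z * (r ‖z‖) ^ (-2 n) k ((r ‖z‖)⁻¹ • (y - z))`. -/
theorem sm_adjoint (hr : 0 < r) (hr1 : r < 1) {h : E n → ℝ} (hh : IsCC h) :
    ∃ h', IsCC h' ∧ ∀ g, LocallyIntegrable g → ∫ z, sm κ r g z * h z = ∫ y, g y * h' y := by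
  obtain ⟨hc, hK, h0⟩ := hh
  obtain ⟨b, hb⟩ := hK.isCompact.isBounded.subset_closedBall 0
  obtain ⟨a, ha, ha'⟩ := Metric.isOpen_iff.1 (isClosed_tsupport h).isOpen_compl 0 h0
  set Φ : E n × E n → ℝ := fun p =>
    h p.1 * (((r * ‖p.1‖) ^ (2 * n))⁻¹ * κ.k ((r * ‖p.1‖)⁻¹ • (p.2 - p.1))) with hΦ
  set K₁ : Set (E n) := closedBall 0 ((1 + r) * b) \ ball 0 ((1 - r) * a) with hK₁
  have hK₁c : IsCompact K₁ := (isCompact_closedBall _ _).diff isOpen_ball
  have hΦc : Continuous Φ := by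
    refine continuous_iff_continuousAt.2 fun p => ?_
    by_cases hp : p.1 = 0
    · have h1 : h =ᶠ[𝓝 p.1] 0 := notMem_tsupport_iff_eventuallyEq.1 (hp ▸ h0)
      have h2 : Φ =ᶠ[𝓝 p] fun _ => 0 := by
        filter_upwards [continuousAt_fst.tendsto.eventually h1] with q hq
        simp only [hΦ]
        rw [hq, Pi.zero_apply, zero_mul]
      exact continuousAt_const.congr h2.symm
    · have h1 : r * ‖p.1‖ ≠ 0 := mul_ne_zero hr.ne' (norm_ne_zero_iff.2 hp)
      have h2 : ContinuousAt (fun q : E n × E n => r * ‖q.1‖) p := by fun_prop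
      exact (hc.continuousAt.comp continuousAt_fst).mul
        (((h2.pow _).inv₀ (pow_ne_zero _ h1)).mul (κ.smooth.continuous.continuousAt.comp
          ((h2.inv₀ h1).smul (continuousAt_snd.sub continuousAt_fst))))
  have hz1 : ∀ z y, z ∉ tsupport h → Φ (z, y) = 0 := fun z y hz => by
    simp only [hΦ]
    rw [image_eq_zero_of_notMem_tsupport hz, zero_mul]
  have hz2 : ∀ z y, y ∉ K₁ → Φ (z, y) = 0 := by
    intro z y hy
    by_cases hz : z ∈ tsupport h
    swap
    · exact hz1 z y hz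
    have e1 : ‖z‖ ≤ b := mem_closedBall_zero_iff.1 (hb hz)
    have e2 : a ≤ ‖z‖ := not_lt.1 fun e => ha' (mem_ball_zero_iff.2 e) hz
    have e3 : z ≠ 0 := norm_pos_iff.1 (ha.trans_le e2)
    simp only [hΦ]
    rw [Sm1_zero κ hr e3, mul_zero, mul_zero]
    by_contra hlt
    rw [not_le] at hlt
    have t1 : ‖y‖ ≤ ‖y - z‖ + ‖z‖ := norm_le_norm_sub_add _ _
    have t2 : ‖z‖ ≤ ‖y - z‖ + ‖y‖ := by
      rw [norm_sub_rev]
      exact norm_le_norm_sub_add _ _
    refine hy ⟨mem_closedBall_zero_iff.2 (by nlinarith), fun e => ?_⟩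
    rw [mem_ball_zero_iff] at e
    nlinarith
  have hΦs : HasCompactSupport Φ := by
    refine HasCompactSupport.intro (hK.isCompact.prod hK₁c) ?_
    rintro ⟨z, y⟩ hp
    by_cases hz : z ∈ tsupport h
    · exact hz2 z y fun hy => hp ⟨hz, hy⟩
    · exact hz1 z y hz
  obtain ⟨M, hM⟩ := hΦc.bounded_above_of_compact_support hΦs
  have hsup : ∀ y, y ∉ K₁ → ∫ z, Φ (z, y) = 0 := fun y hy => by
    simp only [hz2 _ y hy, integral_zero]
  refine ⟨fun y => ∫ z, Φ (z, y), ⟨?_, HasCompactSupport.intro hK₁c hsup, fun hmem => ?_⟩,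
    fun g hg => ?_⟩
  · rw [← continuousOn_univ]
    exact continuousOn_integral_of_compact_support (f := fun y z => Φ (z, y)) hK.isCompact
      (hΦc.comp continuous_swap).continuousOn fun y z _ hz => hz1 z y hz
  · have : tsupport (fun y => ∫ z, Φ (z, y)) ⊆ K₁ :=
      closure_minimal (fun y hy => by
        by_contra hy'
        exact hy (hsup y hy')) hK₁c.isClosed
    exact (this hmem).2 (mem_ball_self (mul_pos (by linarith) ha))
  have hint : Integrable (uncurry fun z y : E n => g y * Φ (z, y)) (volume.prod volume) := by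
    have i1 : Integrable ((tsupport h).indicator fun _ : E n => (1 : ℝ)) :=
      (integrable_indicator_iff (isClosed_tsupport h).measurableSet).2
        (continuousOn_const.integrableOn_compact hK.isCompact)
    have i2 : Integrable (K₁.indicator g) :=
      (integrable_indicator_iff hK₁c.measurableSet).2 (hg.integrableOn_isCompact hK₁c)
    refine ((i1.mul_prod i2).mul_bdd hΦc.aestronglyMeasurable (Eventually.of_forall hM)).congr
      (Eventually.of_forall ?_)
    rintro ⟨z, y⟩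
    simp only [uncurry]
    by_cases hz : z ∈ tsupport h
    · by_cases hy : y ∈ K₁
      · rw [indicator_of_mem hz, indicator_of_mem hy, one_mul]
      · rw [hz2 z y hy, mul_zero, mul_zero]
    · rw [hz1 z y hz, mul_zero, mul_zero]
  have e1 : ∀ z, sm κ r g z * h z = ∫ y, g y * Φ (z, y) := by
    intro z
    by_cases hz : z = 0
    · have : z ∉ tsupport h := hz ▸ h0
      simp only [hz1 z _ this, image_eq_zero_of_notMem_tsupport this, mul_zero, integral_zero]
    · rw [sm_eq_conv κ hr g hz, ← integral_mul_const]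
      refine integral_congr_ae (Eventually.of_forall fun y => ?_)
      simp only [hΦ]
      ring
  simp only [e1]
  rw [integral_integral_swap hint]
  simp only [integral_const_mul]

end Pool.Agent.Lib.MP_a47f92_an
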