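import Pool.Agent.Lib.MP_a47f92_an.Pair

set_option autoImplicit false
set_option linter.unusedSectionVars false

/-! The smoothing operator: elementary properties. -/

namespace Pool.Agent.Lib.MP_a47f92_an

open MeasureTheory Filter Topology Set Complex Metric Function
open scoped ContDiff ComplexConjugate ComplexOrder Matrix ENNReal NNReal

variable {n : ℕ}

variable (κ : Ker n) {r : ℝ} {g g' : E n → ℝ} {z : E n}

theorem Ker.eq_zero {w : E n} (hw : 1 ≤ ‖w‖) : κ.k w = 0 := by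
  exact le_antisymm (not_lt.1 fun h => absurd ((κ.pos_iff w).1 h) (not_lt.2 hw)) (κ.nonneg w)

theorem Ker.hasCompactSupport : HasCompactSupport κ.k := by
  refine HasCompactSupport.intro (isCompact_closedBall (0 : E n) 1) fun w hw => κ.eq_zero ?_
  rw [mem_closedBall_zero_iff, not_le] at hw
  exact hw.le

theorem Sm1A_finrank : Module.finrank ℝ (E n) = 2 * n := by
  rw [← Module.finrank_mul_finrank ℝ ℂ (E n)]
  simp

theorem Sm1A_integrable_k : Integrable κ.k :=
  κ.smooth.continuous.integrable_of_hasCompactSupport κ.hasCompactSupport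

/-- Compare total masses in `κ.law` (there is a nonzero `z` since `n ≥ 1`). -/
theorem Ker.integral_eq (hn : 1 ≤ n) : ∫ w, κ.k w = 1 := by
  have hz : (ev (⟨0, hn⟩ : Fin n) : E n) ≠ 0 := by
    intro h
    have := congrArg (fun v : E n => v ⟨0, hn⟩) h
    simp [ev] at this
  have h1 := congrArg (fun μ : Measure (E n) => μ univ) (κ.law _ hz)
  have hm1 : Measurable fun A : E n →L[ℂ] E n => A (ev (⟨0, hn⟩ : Fin n)) :=
    Continuous.measurable (by fun_prop)
  have hm2 : Measurable fun w : E n => ‖(ev (⟨0, hn⟩ : Fin n) : E n)‖ • w :=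
    Continuous.measurable (by fun_prop)
  have := κ.prob
  simp only [Measure.map_apply hm1 MeasurableSet.univ, Measure.map_apply hm2 MeasurableSet.univ,
    preimage_univ, measure_univ, withDensity_apply _ MeasurableSet.univ,
    Measure.restrict_univ] at h1
  rw [← ofReal_integral_eq_lintegral_ofReal (Sm1A_integrable_k κ)
    (Eventually.of_forall κ.nonneg)] at h1
  exact ENNReal.ofReal_eq_one.1 h1.symm

theorem qmp_affine (z : E n) {a : ℝ} (ha : a ≠ 0) :
    Measure.QuasiMeasurePreserving fun w : E n => z + a • w := by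
  exact (measurePreserving_add_left volume z).quasiMeasurePreserving.comp
    (Measure.quasiMeasurePreserving_smul volume ha)

theorem Sm1A_cancel (z w : E n) {a : ℝ} (ha : a ≠ 0) : a⁻¹ • (z + a • w - z) = w := by
  rw [add_sub_cancel_left, smul_smul, inv_mul_cancel₀ ha, one_smul]

theorem Sm1A_ae {P : E n → Prop} (z : E n) {a : ℝ} (ha : 0 < a)
    (h : ∀ᵐ y, y ∈ ball z a → P y) : ∀ᵐ w : E n, ‖w‖ < 1 → P (z + a • w) := by
  filter_upwards [(qmp_affine z ha.ne').ae h] with w hw h1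
  refine hw ?_
  rw [mem_ball, dist_eq_norm, add_sub_cancel_left, norm_smul, Real.norm_of_nonneg ha.le]
  exact mul_lt_of_lt_one_right ha h1

theorem sm_integrable (hr : 0 < r) (hg : LocallyIntegrable g) (hz : z ≠ 0) :
    Integrable fun w => g (z + (r * ‖z‖) • w) * κ.k w := by
  have hρ : 0 < r * ‖z‖ := mul_pos hr (norm_pos_iff.2 hz)
  have hc : Continuous fun y : E n => κ.k ((r * ‖z‖)⁻¹ • (y - z)) :=
    κ.smooth.continuous.comp (by fun_prop)
  have hs : HasCompactSupport fun y : E n => κ.k ((r * ‖z‖)⁻¹ • (y - z)) := by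
    refine HasCompactSupport.intro (isCompact_closedBall z (r * ‖z‖)) fun y hy => κ.eq_zero ?_
    rw [mem_closedBall, not_le, dist_eq_norm] at hy
    rw [norm_smul, norm_inv, Real.norm_of_nonneg hρ.le, ← div_eq_inv_mul, le_div_iff₀ hρ, one_mul]
    exact hy.le
  have h1 := ((hg.integrable_smul_right_of_hasCompactSupport hc hs).comp_add_left z).comp_smul
    hρ.ne'
  simpa only [smul_eq_mul, Sm1A_cancel _ _ hρ.ne'] using h1

/-- The smoothing as a convolution. -/
theorem sm_eq_conv (hr : 0 < r) (g : E n → ℝ) (hz : z ≠ 0) :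
    sm κ r g z = ∫ y, g y * (((r * ‖z‖) ^ (2 * n))⁻¹ * κ.k ((r * ‖z‖)⁻¹ • (y - z))) := by
  have hρ : 0 < r * ‖z‖ := mul_pos hr (norm_pos_iff.2 hz)
  have h1 := Measure.integral_comp_smul (volume : Measure (E n))
    (fun x => g (z + x) * κ.k ((r * ‖z‖)⁻¹ • (z + x - z))) (r * ‖z‖)
  rw [integral_add_left_eq_self (fun y => g y * κ.k ((r * ‖z‖)⁻¹ • (y - z))) z] at h1
  simp only [Sm1A_cancel _ _ hρ.ne'] at h1
  rw [sm, h1, Sm1A_finrank, abs_of_pos (by positivity), smul_eq_mul, ← integral_const_mul]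
  refine integral_congr_ae (Eventually.of_forall fun y => ?_)
  simp only
  ring

theorem sm_mono (hr : 0 < r) (hg : LocallyIntegrable g) (hg' : LocallyIntegrable g') (hz : z ≠ 0)
    (h : ∀ᵐ y, y ∈ ball z (r * ‖z‖) → g y ≤ g' y) : sm κ r g z ≤ sm κ r g' z := by
  have hρ : 0 < r * ‖z‖ := mul_pos hr (norm_pos_iff.2 hz)
  refine integral_mono_ae (sm_integrable κ hr hg hz) (sm_integrable κ hr hg' hz) ?_
  filter_upwards [Sm1A_ae z hρ h] with w hw
  rcases lt_or_ge ‖w‖ 1 with h1 | h1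
  · exact mul_le_mul_of_nonneg_right (hw h1) (κ.nonneg w)
  · simp only [κ.eq_zero h1, mul_zero, le_refl]

theorem sm_congr (hr : 0 < r) (hz : z ≠ 0) (h : ∀ᵐ y, y ∈ ball z (r * ‖z‖) → g y = g' y) :
    sm κ r g z = sm κ r g' z := by
  have hρ : 0 < r * ‖z‖ := mul_pos hr (norm_pos_iff.2 hz)
  refine integral_congr_ae ?_
  filter_upwards [Sm1A_ae z hρ h] with w hw
  rcases lt_or_ge ‖w‖ 1 with h1 | h1
  · rw [hw h1]
  · simp only [κ.eq_zero h1, mul_zero]

theorem sm_sub (hr : 0 < r) (hg : LocallyIntegrable g) (hg' : LocallyIntegrable g') (hz : z ≠ 0) :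
    sm κ r (fun y => g y - g' y) z = sm κ r g z - sm κ r g' z := by
  rw [sm, sm, sm, ← integral_sub (sm_integrable κ hr hg hz) (sm_integrable κ hr hg' hz)]
  simp only [sub_mul]

theorem sm_neg (r : ℝ) (g : E n → ℝ) (z : E n) : sm κ r (fun y => -g y) z = -sm κ r g z := by
  simp only [sm, neg_mul, integral_neg]

theorem sm_const (hn : 1 ≤ n) (r c : ℝ) (z : E n) : sm κ r (fun _ => c) z = c := by
  rw [sm, integral_const_mul, κ.integral_eq hn, mul_one]

theorem sm_tendsto (hr : 0 < r) {gs : ℕ → E n → ℝ} {b : E n → ℝ}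
    (hm : ∀ i, AEStronglyMeasurable (gs i)) (hb : LocallyIntegrable b)
    (h : ∀ i, ∀ᵐ y, |gs i y| ≤ b y) (hl : ∀ᵐ y, Tendsto (fun i => gs i y) atTop (𝓝 (g y)))
    (hz : z ≠ 0) : Tendsto (fun i => sm κ r (gs i) z) atTop (𝓝 (sm κ r g z)) := by
  have hρ : 0 < r * ‖z‖ := mul_pos hr (norm_pos_iff.2 hz)
  have hq := qmp_affine z hρ.ne'
  refine tendsto_integral_of_dominated_convergence (fun w => b (z + (r * ‖z‖) • w) * κ.k w)
    (fun i => ?_) (sm_integrable κ hr hb hz) (fun i => ?_) ?_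
  · exact ((hm i).comp_quasiMeasurePreserving hq).mul κ.smooth.continuous.aestronglyMeasurable
  · filter_upwards [hq.ae (h i)] with w hw
    rw [norm_mul, Real.norm_of_nonneg (κ.nonneg w)]
    exact mul_le_mul_of_nonneg_right hw (κ.nonneg w)
  · filter_upwards [hq.ae hl] with w hw
    exact hw.mul_const _

theorem ae_eq_zero_of_sm (hr : 0 < r) (hg : LocallyIntegrable g) (h0 : ∀ᵐ y, 0 ≤ g y) (hz : z ≠ 0)
    (h : sm κ r g z = 0) : ∀ᵐ y, y ∈ ball z (r * ‖z‖) → g y = 0 := by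
  have hρ : 0 < r * ‖z‖ := mul_pos hr (norm_pos_iff.2 hz)
  have hq := qmp_affine z hρ.ne'
  have h1 : (fun w => g (z + (r * ‖z‖) • w) * κ.k w) =ᵐ[volume] 0 := by
    refine (integral_eq_zero_iff_of_nonneg_ae ?_ (sm_integrable κ hr hg hz)).1 h
    filter_upwards [hq.ae h0] with w hw
    exact mul_nonneg hw (κ.nonneg w)
  filter_upwards [(qmp_affine (-((r * ‖z‖)⁻¹ • z)) (inv_ne_zero hρ.ne')).ae h1] with y hy hb
  have e1 : -((r * ‖z‖)⁻¹ • z) + (r * ‖z‖)⁻¹ • y = (r * ‖z‖)⁻¹ • (y - z) := by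
    rw [smul_sub]
    abel
  have e2 : z + (r * ‖z‖) • (r * ‖z‖)⁻¹ • (y - z) = y := by
    rw [smul_smul, mul_inv_cancel₀ hρ.ne', one_smul, add_sub_cancel]
  have e3 : 0 < κ.k ((r * ‖z‖)⁻¹ • (y - z)) := by
    rw [κ.pos_iff, norm_smul, norm_inv, Real.norm_of_nonneg hρ.le, ← div_eq_inv_mul,
      div_lt_one hρ, ← dist_eq_norm]
    exact hb
  simp only [e1, e2, Pi.zero_apply] at hy
  exact (mul_eq_zero.1 hy).resolve_right e3.ne'

theorem Sm1A_rot {b : ℂ} (hb : ‖b‖ = 1) (f : E n → ℝ) : ∫ w, f (b • w) = ∫ w, f w := by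
  have hb0 : b ≠ 0 := by
    rintro rfl
    simp at hb
  let T : E n ≃L[ℂ] E n := ContinuousLinearEquiv.smulLeft (Units.mk0 b hb0)
  have hT : ∀ w, T w = b • w := fun w => rfl
  have hd : (T : E n →L[ℂ] E n).det = b ^ n := by
    have e : ((T : E n →L[ℂ] E n) : E n →ₗ[ℂ] E n) = b • LinearMap.id := by
      ext1 w
      exact hT w
    rw [ContinuousLinearMap.det, e, LinearMap.det_smul]
    simp
  have h1 := integral_comp_equiv T f
  simp only [hT, hd, norm_pow, hb, one_pow, inv_one, one_mul] at h1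
  exact h1

/-- Substitute `w ↦ (‖a‖ / a) • w`, a rotation (`integral_comp_equiv`, `κ.rot`). -/
theorem sm_xhom (hn : 1 ≤ n) (hr : 0 < r) {c : ℝ} (hg : LocallyIntegrable g) (hh : LHom c g) :
    XHom c (sm κ r g) := by
  intro a ha z hz
  have hρ : 0 < r * ‖z‖ := mul_pos hr (norm_pos_iff.2 hz)
  have ha' : 0 < ‖a‖ := norm_pos_iff.2 ha
  have hb : ‖a / (‖a‖ : ℂ)‖ = 1 := by
    rw [norm_div, Complex.norm_real, norm_norm, div_self ha'.ne']
  have e : ∀ w : E n, a • z + (r * ‖a • z‖) • (a / (‖a‖ : ℂ)) • w = a • (z + (r * ‖z‖) • w) := by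
    intro w
    have ha2 : (‖a‖ : ℂ) ≠ 0 := by exact_mod_cast ha'.ne'
    rw [smul_add, ← Complex.coe_smul, ← Complex.coe_smul, smul_smul, smul_smul, norm_smul]
    congr 2
    push_cast
    field_simp
  rw [sm, ← Sm1A_rot hb]
  simp only [e, κ.rot _ hb]
  have h1 : (fun w => g (a • (z + (r * ‖z‖) • w)) * κ.k w) =ᵐ[volume]
      fun w => g (z + (r * ‖z‖) • w) * κ.k w + c * Real.log ‖a‖ * κ.k w := by
    filter_upwards [(qmp_affine z hρ.ne').ae (hh a ha)] with w hw
    rw [hw, add_mul]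
  rw [integral_congr_ae h1, integral_add (sm_integrable κ hr hg hz)
    ((Sm1A_integrable_k κ).const_mul _), integral_const_mul, κ.integral_eq hn, mul_one, sm]

end Pool.Agent.Lib.MP_a47f92_an
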