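import Pool.Agent.Lib.MP_a47f92_an.Sm2A

set_option autoImplicit false
set_option linter.unusedSectionVars false

/-! The smoothing operator as an average over linear maps. -/

namespace Pool.Agent.Lib.MP_a47f92_an

open MeasureTheory Filter Topology Set Complex Metric Function
open scoped ContDiff ComplexConjugate ComplexOrder Matrix ENNReal NNReal

variable {n : ℕ}

variable (κ : Ker n) {r : ℝ} {g : E n → ℝ} {z : E n} {Ω Ω' : Set (E n)}

theorem Sm2_norm (hr : 0 < r) {A : E n →L[ℂ] E n} (hA : ‖A‖ ≤ 1) : ‖r • A‖ ≤ r := by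
  rw [norm_smul, Real.norm_of_nonneg hr.le]
  exact mul_le_of_le_one_right hr.le hA

theorem Sm2_det (hr1 : r < 1) : ∃ C : ℝ, ∀ B : E n →L[ℂ] E n, ‖B‖ ≤ r →
    (‖(1 + B).det‖ ^ 2)⁻¹ ≤ C := by
  have := FiniteDimensional.proper ℂ (E n →L[ℂ] E n)
  have h1 : Continuous fun B : E n →L[ℂ] E n => ‖(1 + B).det‖ ^ 2 :=
    (ContinuousLinearMap.continuous_det.comp (continuous_const.add continuous_id)).norm.pow 2
  obtain ⟨C, hC⟩ := (isCompact_closedBall (0 : E n →L[ℂ] E n) r).exists_bound_of_continuousOn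
    (h1.continuousOn.inv₀ fun B hB => by
      obtain ⟨T, hT, -⟩ := exists_equiv_one_add ((mem_closedBall_zero_iff.1 hB).trans_lt hr1)
      rw [show 1 + B = (T : E n →L[ℂ] E n) from ContinuousLinearMap.ext fun z => (hT z).symm]
      exact pow_ne_zero _ (norm_ne_zero_iff.2 T.toLinearEquiv.isUnit_det'.ne_zero))
  exact ⟨C, fun B hB => (le_abs_self _).trans (hC B (mem_closedBall_zero_iff.2 hB))⟩

theorem Sm2_ae (hn : 1 ≤ n) : ∀ᵐ z : E n, z ≠ 0 := by
  have : Nonempty (Fin n) := ⟨⟨0, hn⟩⟩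
  simp [ae_iff]

theorem Sm2_lint (hn : 1 ≤ n) (hr : 0 < r) (hr1 : r < 1) (hg : LocallyIntegrable g)
    (hm : Measurable g) (R : ℝ) : ∫⁻ z in ball 0 R, ‖sm κ r g z‖ₑ < ⊤ := by
  have := κ.prob
  obtain ⟨C, hC⟩ := Sm2_det (n := n) hr1
  have h1 : ∫⁻ y, (ball (0 : E n) (2 * R)).indicator (fun y => ‖g y‖ₑ) y < ⊤ := by
    rw [lintegral_indicator measurableSet_ball]
    exact ((hg.integrableOn_isCompact (isCompact_closedBall 0 (2 * R))).mono_set
      ball_subset_closedBall).2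
  have h2 : Measurable fun q : E n × (E n →L[ℂ] E n) => ‖g (q.1 + r • q.2 q.1)‖ₑ :=
    (hm.comp (Continuous.measurable (by fun_prop))).enorm
  calc _ ≤ ∫⁻ z in ball 0 R, ∫⁻ A, ‖g (z + r • A z)‖ₑ ∂κ.m := by
        refine lintegral_mono_ae (ae_restrict_of_ae ((Sm2_ae hn).mono fun z hz => ?_))
        rw [(sm_eq_matrix κ hr hg hz).2]
        exact enorm_integral_le_lintegral_enorm _
    _ = ∫⁻ A, (∫⁻ z in ball 0 R, ‖g (z + r • A z)‖ₑ) ∂κ.m :=
        lintegral_lintegral_swap h2.aemeasurable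
    _ ≤ ∫⁻ _, (ENNReal.ofReal C *
          ∫⁻ y, (ball (0 : E n) (2 * R)).indicator (fun y => ‖g y‖ₑ) y) ∂κ.m := by
        refine lintegral_mono_ae (κ.le_one.mono fun A hA => ?_)
        have h3 := Sm2_norm hr hA
        obtain ⟨T, hT, -⟩ := exists_equiv_one_add (h3.trans_lt hr1)
        have h4 := hC _ h3
        rw [show 1 + r • A = (T : E n →L[ℂ] E n) from
          ContinuousLinearMap.ext fun z => (hT z).symm] at h4
        refine le_trans ?_ (mul_le_mul_left (ENNReal.ofReal_le_ofReal h4) _)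
        rw [← lintegral_comp_equiv, ← lintegral_indicator measurableSet_ball]
        refine lintegral_mono (indicator_le fun z hz => ?_)
        have h5 : T z ∈ ball (0 : E n) (2 * R) := by
          rw [mem_ball_zero_iff] at hz ⊢
          have h6 := norm_add_le z ((r • A) z)
          have h7 := (r • A).le_of_opNorm_le (h3.trans hr1.le) z
          rw [hT]
          linarith
        rw [indicator_of_mem h5, hT]
        rfl
    _ < ⊤ := by
        rw [lintegral_const, measure_univ, mul_one]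
        exact ENNReal.mul_lt_top ENNReal.ofReal_lt_top h1

theorem Sm2_pair {B : E n →L[ℂ] E n} (hB : ‖B‖ < 1) (h : WPsh g Ω) {ψ : E n → ℝ} (hψ : IsTest ψ)
    (h0 : ∀ z, 0 ≤ ψ z) (hs : ∀ z ∈ tsupport ψ, z + B z ∈ Ω) (v : E n) :
    0 ≤ ∫ z, g (z + B z) * levi ψ z v := by
  obtain ⟨T, hT, -⟩ := exists_equiv_one_add hB
  simp only [← hT] at hs ⊢
  refine le_of_le_of_eq (mul_nonneg (by positivity) (h _ (hψ.comp_equiv T).1 (fun _ => h0 _) ?_ _))
    (pair_comp_equiv T g hψ v).symm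
  rw [(hψ.comp_equiv T).2]
  exact image_subset_iff.2 hs

theorem Sm2_cont (hg : LocallyIntegrable g) {h : E n → ℝ} (hh : IsCC h) :
    ContinuousAt (fun B : E n →L[ℂ] E n => ∫ z, g (z + B z) * h z) 0 :=
  (continuousOn_inner hg hh).continuousAt (ball_mem_nhds _ one_pos)

/-- Local integrability at the origin: Tonelli and `lintegral_comp_equiv`; the determinant of
`1 + r A` is bounded below on the compact set `‖A‖ ≤ 1`. -/
theorem sm_locInt (hn : 1 ≤ n) (hr : 0 < r) (hr1 : r < 1) (hg : LocallyIntegrable g) :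
    LocallyIntegrable (sm κ r g) := by
  have hm := hg.aestronglyMeasurable
  have h1 : sm κ r (hm.mk g) =ᵐ[volume] sm κ r g := (Sm2_ae hn).mono fun z hz =>
    sm_congr κ hr hz (hm.ae_eq_mk.mono fun y hy _ => hy.symm)
  have h2 : AEStronglyMeasurable (sm κ r g) := by
    have h3 := (sm_contDiffOn κ hr hg).continuousOn.aestronglyMeasurable (μ := volume)
      (measurableSet_singleton 0).compl
    rwa [Measure.restrict_eq_self_of_ae_mem (s := {0}ᶜ) (Sm2_ae hn)] at h3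
  refine fun x => ⟨ball 0 (‖x‖ + 1), isOpen_ball.mem_nhds (by simp), h2.restrict, ?_⟩
  refine lt_of_eq_of_lt (lintegral_congr_ae (ae_restrict_of_ae (h1.mono fun z hz => ?_)))
    (Sm2_lint κ hn hr hr1 (fun y => ?_) hm.stronglyMeasurable_mk.measurable _)
  · simp only [hz]
  · obtain ⟨s, hs, h3⟩ := hg y
    exact ⟨s, hs, h3.congr_fun_ae (ae_restrict_of_ae hm.ae_eq_mk)⟩

theorem sm_weak_tendsto (hn : 1 ≤ n) (hg : LocallyIntegrable g) {h : E n → ℝ} (hh : IsCC h) :
    Tendsto (fun r => ∫ z, sm κ r g z * h z) (𝓝[>] 0) (𝓝 (∫ z, g z * h z)) := by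
  have := κ.prob
  have := FiniteDimensional.proper ℂ (E n →L[ℂ] E n)
  obtain ⟨C, hC⟩ := (isCompact_closedBall (0 : E n →L[ℂ] E n) (1 / 2)).exists_bound_of_continuousOn
    ((continuousOn_inner hg hh).mono (closedBall_subset_ball one_half_lt_one))
  have h1 : ∀ᶠ r in 𝓝[>] (0 : ℝ), r ∈ Ioo 0 (1 / 2) := Ioo_mem_nhdsGT one_half_pos
  have h2 := tendsto_integral_filter_of_dominated_convergence (μ := κ.m) (l := 𝓝[>] (0 : ℝ))
    (F := fun r (A : E n →L[ℂ] E n) => ∫ z, g (z + r • A z) * h z) (f := fun _ => ∫ z, g z * h z)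
    (fun _ => C) (h1.mono fun r hr =>
      (sm_fubini κ hn hr.1 (hr.2.trans one_half_lt_one) hg hh).1.aestronglyMeasurable)
    (h1.mono fun r hr => κ.le_one.mono fun A hA =>
      hC (r • A) (mem_closedBall_zero_iff.2 ((Sm2_norm hr.1 hA).trans hr.2.le)))
    (integrable_const C) (ae_of_all _ fun A => by
      have h3 : Tendsto (fun r : ℝ => r • A) (𝓝[>] 0) (𝓝 0) := by
        have h4 : Continuous fun r : ℝ => r • A := by fun_prop
        exact (h4.tendsto' 0 0 (by ext; simp)).mono_left nhdsWithin_le_nhds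
      simpa [Function.comp_def] using (Sm2_cont hg hh).tendsto.comp h3)
  rw [integral_const, probReal_univ, one_smul] at h2
  exact h2.congr' (h1.mono fun r hr =>
    (sm_fubini κ hn hr.1 (hr.2.trans one_half_lt_one) hg hh).2.symm)

/-- `sm_fubini` and `pair_comp_equiv`. -/
theorem sm_wpsh (hn : 1 ≤ n) (hr : 0 < r) (hr1 : r < 1) (hg : LocallyIntegrable g) (h : WPsh g Ω)
    (h' : ∀ z ∈ Ω', z ≠ 0 → closedBall z (r * ‖z‖) ⊆ Ω) : WPsh (sm κ r g) Ω' := by
  intro ψ hψ h0 hs v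
  rw [pair, (sm_fubini κ hn hr hr1 hg (hψ.isCC_levi v)).2]
  refine integral_nonneg_of_ae (κ.le_one.mono fun A hA => ?_)
  refine Sm2_pair ((Sm2_norm hr hA).trans_lt hr1) h hψ h0 (fun z hz => h' z (hs hz) ?_ ?_) v
  · rintro rfl
    exact hψ.2.2 hz
  · rw [mem_closedBall, dist_self_add_left]
    exact (r • A).le_of_opNorm_le (Sm2_norm hr hA) z

theorem sm_wph (hn : 1 ≤ n) (hr : 0 < r) (hr1 : r < 1) (hg : LocallyIntegrable g) (h : WPh g Ω)
    (h' : ∀ z ∈ Ω', z ≠ 0 → closedBall z (r * ‖z‖) ⊆ Ω) : WPh (sm κ r g) Ω' := by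
  rw [wph_iff] at h ⊢
  refine ⟨sm_wpsh κ hn hr hr1 hg h.1 h', ?_⟩
  simp only [← sm_neg]
  exact sm_wpsh κ hn hr hr1 hg.neg h.2 h'

/-- `Q A = pair (g ∘ (1 + r A)) ψ v` is nonnegative and continuous for `‖A‖ ≤ 1` with integral zero,
so it vanishes almost everywhere, hence at `0` by `κ.pos`. -/
theorem wph_of_sm (hn : 1 ≤ n) (hr : 0 < r) (hr1 : r < 1) (hg : LocallyIntegrable g)
    (h : WPsh g univ) (h' : WPh (sm κ r g) Ω) : WPh g Ω := by
  intro ψ hψ h0 hs v
  obtain ⟨h1, h2⟩ := sm_fubini κ hn hr hr1 hg (hψ.isCC_levi v)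
  have h3 := (integral_eq_zero_iff_of_nonneg_ae (κ.le_one.mono fun A hA => Sm2_pair
    ((Sm2_norm hr hA).trans_lt hr1) h hψ h0 (fun _ _ => mem_univ _) v) h1).1
    (h2.symm.trans (h' ψ hψ h0 hs v))
  by_contra hne
  have h4 : Tendsto (fun A : E n →L[ℂ] E n => r • A) (𝓝 0) (𝓝 0) := by
    have h5 : Continuous fun A : E n →L[ℂ] E n => r • A := by fun_prop
    exact h5.tendsto' 0 0 (by ext; simp)
  obtain ⟨ε, hε, h5⟩ := Metric.eventually_nhds_iff_ball.1 (h4.eventually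
    ((Sm2_cont hg (hψ.isCC_levi v)).eventually_ne (y := 0) (by simpa [pair] using hne)))
  exact (κ.pos ε hε).ne' (measure_mono_null (fun A hA => h5 A hA) h3)

theorem IsPot.sm_spot (hn : 1 ≤ n) (hr : 0 < r) (hr1 : r < 1) (hg : IsPot g) :
    SPot (sm κ r g) := by
  have h1 := sm_contDiffOn κ hr hg.int
  exact ⟨h1, sm_xhom κ hn hr hg.int hg.lhom, fun z hz v => levi_nonneg_of_wpsh isOpen_univ
    (h1.mono fun _ h => h.2) (sm_wpsh κ hn hr hr1 hg.int (hg.wpsh univ) fun _ _ _ => subset_univ _)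
    (mem_univ z) hz v⟩

end Pool.Agent.Lib.MP_a47f92_an
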