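import Pool.Agent.Lib.MP_a47f92_an.Sm1

set_option autoImplicit false
set_option linter.unusedSectionVars false

/-! The smoothing operator as an average over linear maps. -/

namespace Pool.Agent.Lib.MP_a47f92_an

open MeasureTheory Filter Topology Set Complex Metric Function
open scoped ContDiff ComplexConjugate ComplexOrder Matrix ENNReal NNReal

variable {n : ℕ}

variable (κ : Ker n) {r : ℝ} {g : E n → ℝ} {z : E n} {Ω Ω' : Set (E n)}

theorem sm_eq_matrix (hr : 0 < r) (hg : LocallyIntegrable g) (hz : z ≠ 0) :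
    Integrable (fun A : E n →L[ℂ] E n => g (z + r • A z)) κ.m ∧
      sm κ r g z = ∫ A, g (z + r • A z) ∂κ.m := by
  have hz' : ‖z‖ ≠ 0 := norm_ne_zero_iff.2 hz
  have hs : Measure.QuasiMeasurePreserving fun w : E n => ‖z‖ • w := by
    simpa only [zero_add] using qmp_affine (0 : E n) hz'
  have hk : Measurable fun w => ENNReal.ofReal (κ.k w) :=
    κ.smooth.continuous.measurable.ennreal_ofReal
  have hφ : AEStronglyMeasurable (fun y : E n => g (z + r • y))
      ((volume.withDensity fun w => ENNReal.ofReal (κ.k w)).map fun w => ‖z‖ • w) :=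
    (hg.aestronglyMeasurable.comp_quasiMeasurePreserving (qmp_affine z hr.ne')).mono_ac
      (((withDensity_absolutelyContinuous _ _).map hs.measurable).trans hs.absolutelyContinuous)
  have hA : Measurable fun A : E n →L[ℂ] E n => A z := by fun_prop
  have hφ' : AEStronglyMeasurable (fun y : E n => g (z + r • y)) (κ.m.map fun A => A z) := by
    rwa [κ.law z hz]
  have ht : ∀ w, (ENNReal.ofReal (κ.k w)).toReal = κ.k w := fun w =>
    ENNReal.toReal_ofReal (κ.nonneg w)
  constructor
  · refine (integrable_map_measure hφ' hA.aemeasurable).1 ?_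
    rw [κ.law z hz, integrable_map_measure hφ hs.measurable.aemeasurable,
      integrable_withDensity_iff hk (Eventually.of_forall fun _ => ENNReal.ofReal_lt_top)]
    simpa only [ht, comp_apply, smul_smul] using sm_integrable κ hr hg hz
  · rw [← integral_map hA.aemeasurable hφ', κ.law z hz, integral_map hs.measurable.aemeasurable hφ,
      integral_withDensity_eq_integral_toReal_smul hk
        (Eventually.of_forall fun _ => ENNReal.ofReal_lt_top)]
    simp only [ht, smul_smul, smul_eq_mul, sm, mul_comm]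

/-- `1 + B` is invertible for `‖B‖ < 1` (`Units.oneSub`, `ContinuousLinearEquiv.unitsEquiv`). -/
theorem exists_equiv_one_add {B : E n →L[ℂ] E n} (hB : ‖B‖ < 1) :
    ∃ T : E n ≃L[ℂ] E n, (∀ z, T z = z + B z) ∧ ∀ y, (1 - ‖B‖) * ‖T.symm y‖ ≤ ‖y‖ := by
  let T : E n ≃L[ℂ] E n :=
    ContinuousLinearEquiv.unitsEquiv ℂ (E n) (Units.oneSub (-B) (by rwa [norm_neg]))
  have hT : ∀ z, T z = z + B z := fun z => by
    simp [T]
  refine ⟨T, hT, fun y => ?_⟩
  have h1 := hT (T.symm y)
  rw [T.apply_symm_apply] at h1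
  have h2 := B.le_opNorm (T.symm y)
  have h3 : ‖T.symm y‖ ≤ ‖y‖ + ‖B (T.symm y)‖ := by
    have := norm_sub_le y (B (T.symm y))
    rwa [show y - B (T.symm y) = T.symm y from (eq_sub_of_add_eq h1.symm).symm] at this
  linarith

theorem Sm2A_equiv {B : E n →L[ℂ] E n} (hB : ‖B‖ < 1) :
    ∃ T : E n ≃L[ℂ] E n, (∀ z, T z = z + B z) ∧ (T : E n →L[ℂ] E n) = 1 + B ∧
      ∀ y, Ring.inverse (1 + B) y = T.symm y := by
  obtain ⟨T, hT, -⟩ := exists_equiv_one_add hB
  have h1 : (T : E n →L[ℂ] E n) = 1 + B := ContinuousLinearMap.ext fun z => by simpa using hT z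
  refine ⟨T, hT, h1, fun y => ?_⟩
  rw [← h1, ← ContinuousLinearMap.ringInverse_eq_inverse.symm, ContinuousLinearMap.inverse_equiv]
  rfl

/-- After the substitution `y = z + B z` the integrand is
`g y * ‖det (1 + B)‖⁻² * h (Ring.inverse (1 + B) y)`; dominated convergence, the supports stay in a
fixed ball for `‖B‖ < 1`. -/
theorem continuousOn_inner (hg : LocallyIntegrable g) {h : E n → ℝ} (hh : IsCC h) :
    ContinuousOn (fun B : E n →L[ℂ] E n => ∫ z, g (z + B z) * h z) (ball 0 1) := by
  obtain ⟨hc, hs, -⟩ := hh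
  obtain ⟨M, hM⟩ := hc.bounded_above_of_compact_support hs
  obtain ⟨R, hR⟩ := hs.isCompact.isBounded.subset_closedBall 0
  have hu : ∀ B : E n →L[ℂ] E n, B ∈ ball 0 1 → ContinuousAt (fun B => Ring.inverse (1 + B)) B := by
    intro B hB
    have h1 := NormedRing.inverse_continuousAt
      (Units.oneSub (-B) (by rwa [norm_neg, ← mem_ball_zero_iff]))
    rw [Units.val_oneSub, sub_neg_eq_add] at h1
    exact ContinuousAt.comp (f := fun B : E n →L[ℂ] E n => 1 + B) h1 (by fun_prop)
  have h1 : ContinuousOn (fun B : E n →L[ℂ] E n => ∫ y, g y * h (Ring.inverse (1 + B) y))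
      (ball 0 1) := by
    refine continuousOn_of_dominated
      (bound := (closedBall (0 : E n) (2 * R)).indicator fun y => ‖g y‖ * M) (fun B _ => ?_)
      (fun B hB => Eventually.of_forall fun y => ?_) ?_ (Eventually.of_forall fun y B hB => ?_)
    · exact hg.aestronglyMeasurable.mul
        (hc.comp (Ring.inverse (1 + B)).continuous).aestronglyMeasurable
    · obtain ⟨T, hT, -, hi⟩ := Sm2A_equiv (mem_ball_zero_iff.1 hB)
      rw [hi, norm_mul]
      by_cases hy : y ∈ closedBall (0 : E n) (2 * R)
      · rw [indicator_of_mem hy]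
        exact mul_le_mul_of_nonneg_left (hM _) (norm_nonneg _)
      · rw [indicator_of_notMem hy, image_eq_zero_of_notMem_tsupport (f := h), norm_zero, mul_zero]
        intro h2
        refine hy (mem_closedBall_zero_iff.2 ?_)
        have h3 := mem_closedBall_zero_iff.1 (hR h2)
        have h4 := hT (T.symm y)
        rw [T.apply_symm_apply] at h4
        have h5 := B.le_opNorm (T.symm y)
        have h6 := norm_add_le (T.symm y) (B (T.symm y))
        have h7 := mul_le_mul_of_nonneg_right (mem_ball_zero_iff.1 hB).le (norm_nonneg (T.symm y))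
        rw [← h4] at h6
        linarith
    · exact (integrable_indicator_iff measurableSet_closedBall).2
        ((hg.integrableOn_isCompact (isCompact_closedBall _ _)).norm.mul_const M)
    · exact (continuousAt_const.mul (hc.continuousAt.comp
        ((hu B hB).clm_apply continuousAt_const))).continuousWithinAt
  have h2 : ContinuousOn (fun B : E n →L[ℂ] E n => (‖(1 + B).det‖ ^ 2)⁻¹) (ball 0 1) := by
    refine ContinuousOn.inv₀ (((ContinuousLinearMap.continuous_det.comp
      (continuous_const.add continuous_id)).norm.pow 2).continuousOn) fun B hB => ?_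
    obtain ⟨T, -, hT, -⟩ := Sm2A_equiv (mem_ball_zero_iff.1 hB)
    rw [← hT]
    exact pow_ne_zero _ (norm_ne_zero_iff.2 T.toLinearEquiv.isUnit_det'.ne_zero)
  refine (h2.mul h1).congr fun B hB => ?_
  obtain ⟨T, hT, hT', hi⟩ := Sm2A_equiv (mem_ball_zero_iff.1 hB)
  have h3 := integral_comp_equiv T fun y => g y * h (T.symm y)
  simp only [T.symm_apply_apply] at h3
  simp only [Pi.mul_apply, hi, ← hT]
  rw [← hT']
  exact h3

/-- Fubini. Joint measurability: replace `g` by a measurable modification `g'`, the two sides do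
not change (`sm_congr`, `qmp_equiv`). Integrability: apply `continuousOn_inner` to `|g|`, `|h|` on the
compact set `closedBall 0 r`. -/
theorem sm_fubini (hn : 1 ≤ n) (hr : 0 < r) (hr1 : r < 1) (hg : LocallyIntegrable g) {h : E n → ℝ}
    (hh : IsCC h) : Integrable (fun A : E n →L[ℂ] E n => ∫ z, g (z + r • A z) * h z) κ.m ∧
      ∫ z, sm κ r g z * h z = ∫ A, (∫ z, g (z + r • A z) * h z) ∂κ.m := by
  have := κ.prob
  have hm := hg.aestronglyMeasurable
  have hgg := hm.ae_eq_mk
  have hsm := hm.stronglyMeasurable_mk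
  generalize hm.mk g = g' at hgg hsm
  have hg' : LocallyIntegrable g' := fun x => by
    obtain ⟨s, hs, h1⟩ := hg x
    exact ⟨s, hs, h1.congr_fun_ae (ae_restrict_of_ae hgg)⟩
  have hn1 : ∀ A : E n →L[ℂ] E n, ‖A‖ ≤ 1 → ‖(r : ℂ) • A‖ ≤ r := fun A hA => by
    rw [norm_smul, norm_real, Real.norm_of_nonneg hr.le]
    exact mul_le_of_le_one_right hr.le hA
  have hT : ∀ A : E n →L[ℂ] E n, ‖A‖ ≤ 1 → ∃ T : E n ≃L[ℂ] E n, ∀ z, z + r • A z = T z := by
    intro A hA
    obtain ⟨T, hT, -⟩ := exists_equiv_one_add ((hn1 A hA).trans_lt hr1)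
    exact ⟨T, fun z => by rw [hT, smul_apply, coe_smul]⟩
  have hΦ : AEStronglyMeasurable
      (fun p : (E n →L[ℂ] E n) × E n => g' (p.2 + r • p.1 p.2) * h p.2) (κ.m.prod volume) := by
    have h1 : Continuous fun p : (E n →L[ℂ] E n) × E n => p.2 + r • p.1 p.2 := by fun_prop
    exact ((hsm.comp_measurable h1.measurable).mul
      (hh.1.comp continuous_snd).stronglyMeasurable).aestronglyMeasurable
  have hh' : IsCC fun z => ‖h z‖ :=
    ⟨hh.1.norm, hh.2.1.norm, fun h0 =>
      hh.2.2 (closure_mono (fun y hy => norm_ne_zero_iff.1 hy) h0)⟩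
  obtain ⟨C, hC⟩ := (isCompact_closedBall (0 : E n →L[ℂ] E n) r).exists_bound_of_continuousOn
    ((continuousOn_inner (g := fun y => ‖g' y‖) (fun x => (hg' x).norm) hh').mono
      (closedBall_subset_ball hr1))
  have hI : Integrable (fun p : (E n →L[ℂ] E n) × E n => g' (p.2 + r • p.1 p.2) * h p.2)
      (κ.m.prod volume) := by
    refine (integrable_prod_iff hΦ).2 ⟨?_, Integrable.of_bound hΦ.norm.integral_prod_right' C ?_⟩
    · filter_upwards [κ.le_one] with A hA
      obtain ⟨T, hT⟩ := hT A hA
      simp only [hT]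
      exact hh.integrable_mul (locInt_comp_equiv T hg')
    · filter_upwards [κ.le_one] with A hA
      simpa only [norm_mul, smul_apply, coe_smul] using
        hC _ (mem_closedBall_zero_iff.2 (hn1 A hA))
  have he : ∀ᵐ A ∂κ.m, ∫ z, g' (z + r • A z) * h z = ∫ z, g (z + r • A z) * h z := by
    filter_upwards [κ.le_one] with A hA
    obtain ⟨T, hT⟩ := hT A hA
    simp only [hT]
    refine integral_congr_ae ?_
    filter_upwards [(qmp_equiv T).ae_eq_comp hgg] with z hz
    exact congrArg (· * h z) hz.symm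
  refine ⟨hI.integral_prod_left.congr he, ?_⟩
  rw [← integral_congr_ae he, integral_integral_swap hI]
  refine integral_congr_ae (Eventually.of_forall fun z => ?_)
  by_cases hz : z = 0
  · have h0 : h z = 0 := image_eq_zero_of_notMem_tsupport (hz ▸ hh.2.2)
    simp [h0]
  · simp only
    rw [integral_mul_const, ← (sm_eq_matrix κ hr hg' hz).2,
      sm_congr κ hr hz (hgg.mono fun y hy _ => hy)]

end Pool.Agent.Lib.MP_a47f92_an
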