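import Pool.Agent.Lib.MP_a47f92_an.Sm2
import Pool.Agent.Lib.MP_a47f92_an.Circle2

set_option autoImplicit false
set_option linter.unusedSectionVars false

/-! The smoothing operator increases plurisubharmonic functions. -/

namespace Pool.Agent.Lib.MP_a47f92_an

open MeasureTheory Filter Topology Set Complex Metric Function
open scoped ContDiff ComplexConjugate ComplexOrder Matrix ENNReal NNReal

variable {n : ℕ}

variable (κ : Ker n) {r : ℝ} {g p : E n → ℝ} {z : E n} {Ω Ω' K D : Set (E n)}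

theorem Sm3A_ae (hn : 1 ≤ n) : ∀ᵐ z : E n, z ≠ 0 := by
  have : Nonempty (Fin n) := ⟨⟨0, hn⟩⟩
  exact Measure.ae_ne volume 0

theorem Sm3A_disc {w : E n} {ρ : ℝ} {ζ : ℂ} (hw : ‖w‖ ≤ 1) (hζ : ‖ζ‖ ≤ ρ) :
    z + ζ • w ∈ closedBall z ρ := by
  rw [mem_closedBall, dist_self_add_left, norm_smul]
  exact (mul_le_of_le_one_right (norm_nonneg _) hw).trans hζ

theorem Sm3A_core (hn : 1 ≤ n) (hr : 0 < r) (hΩ : IsOpen Ω) (hp : ContDiffOn ℝ ∞ p Ω)
    (hl : ∀ y ∈ Ω, ∀ v, 0 ≤ levi p y v) (hz : z ≠ 0) (h : closedBall z (r * ‖z‖) ⊆ Ω) :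
    (0 ≤ fun w => (cm p z w (r * ‖z‖) - p z) * κ.k w) ∧
      (Integrable fun w => (cm p z w (r * ‖z‖) - p z) * κ.k w) ∧
      ∫ w, (cm p z w (r * ‖z‖) - p z) * κ.k w = sm κ r p z - p z := by
  have hρ : 0 < r * ‖z‖ := mul_pos hr (norm_pos_iff.2 hz)
  have hk : Integrable κ.k := κ.smooth.continuous.integrable_of_hasCompactSupport κ.hasCompactSupport
  have hi : Integrable fun w => p (z + (r * ‖z‖) • w) * κ.k w := by
    refine IntegrableOn.integrable_of_forall_notMem_eq_zero (s := closedBall 0 1)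
      (ContinuousOn.integrableOn_compact (isCompact_closedBall _ _) ?_) fun w hw => ?_
    · refine (hp.continuousOn.comp (by fun_prop) fun w hw => h ?_).mul
        κ.smooth.continuous.continuousOn
      rw [mem_closedBall, dist_self_add_left, norm_smul, Real.norm_eq_abs, abs_of_pos hρ]
      exact mul_le_of_le_one_right hρ.le (mem_closedBall_zero_iff.1 hw)
    · rw [κ.eq_zero (not_le.1 fun h1 => hw (mem_closedBall_zero_iff.2 h1)).le, mul_zero]
  obtain ⟨h1, h2⟩ := integral_rot κ.rot hi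
  refine ⟨fun w => ?_, ?_, ?_⟩
  · by_cases hw : 1 ≤ ‖w‖
    · simp only [κ.eq_zero hw, mul_zero, Pi.zero_apply, le_refl]
    · refine mul_nonneg (sub_nonneg.2 ?_) (κ.nonneg w)
      rw [← cm_zero p z w]
      exact cm_mono hΩ hp hl (fun ζ hζ => h (Sm3A_disc (not_le.1 hw).le hζ)) ⟨le_rfl, hρ.le⟩
        ⟨hρ.le, le_rfl⟩ hρ.le
  · simp only [sub_mul]
    exact h1.sub (hk.const_mul _)
  · simp only [sub_mul]
    rw [integral_sub h1 (hk.const_mul _), integral_const_mul, κ.integral_eq hn, mul_one, ← h2, sm]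

/-- `integral_rot` and `cm_mono`. -/
theorem sm_ge_smooth (hn : 1 ≤ n) (hr : 0 < r) (hΩ : IsOpen Ω) (hp : ContDiffOn ℝ ∞ p Ω)
    (hl : ∀ y ∈ Ω, ∀ v, 0 ≤ levi p y v) (hz : z ≠ 0) (h : closedBall z (r * ‖z‖) ⊆ Ω) :
    p z ≤ sm κ r p z := by
  obtain ⟨h1, -, h3⟩ := Sm3A_core κ hn hr hΩ hp hl hz h
  have h4 := integral_nonneg (μ := volume) h1
  linarith

/-- The nonnegative function `(cm p z w (r ‖z‖) - p z) * k w` has integral zero, but by `cm_strict`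
it is positive on the nonempty open set of `w` in the unit ball with `0 < levi p z w`. -/
theorem levi_eq_zero_of_sm (hn : 1 ≤ n) (hr : 0 < r) (hΩ : IsOpen Ω) (hp : ContDiffOn ℝ ∞ p Ω)
    (hl : ∀ y ∈ Ω, ∀ v, 0 ≤ levi p y v) (hz : z ≠ 0) (h : closedBall z (r * ‖z‖) ⊆ Ω)
    (he : sm κ r p z = p z) (v : E n) : levi p z v = 0 := by
  obtain ⟨h1, h2, h3⟩ := Sm3A_core κ hn hr hΩ hp hl hz h
  have hρ : 0 < r * ‖z‖ := mul_pos hr (norm_pos_iff.2 hz)
  by_contra hv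
  have hv' : 0 < levi p z v := (hl z (h (mem_closedBall_self hρ.le)) v).lt_of_ne' hv
  rw [he, sub_self, integral_eq_zero_iff_of_nonneg h1 h2] at h3
  have hc : Continuous fun w => levi p z w := by
    unfold levi
    fun_prop
  have hU : IsOpen {w : E n | ‖w‖ < 1 ∧ 0 < levi p z w} :=
    (isOpen_lt continuous_norm continuous_const).inter (isOpen_lt continuous_const hc)
  have hne : {w : E n | ‖w‖ < 1 ∧ 0 < levi p z w}.Nonempty := by
    have h4 : 0 < ‖v‖ + 1 := by positivity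
    have h5 : ‖(((‖v‖ + 1)⁻¹ : ℝ) : ℂ)‖ = (‖v‖ + 1)⁻¹ := by
      rw [norm_real, Real.norm_eq_abs, abs_of_pos (inv_pos.2 h4)]
    refine ⟨(((‖v‖ + 1)⁻¹ : ℝ) : ℂ) • v, ?_, ?_⟩
    · rw [norm_smul, h5, inv_mul_lt_iff₀ h4]
      linarith
    · rw [levi_smul, h5]
      positivity
  refine (hU.measure_pos volume hne).ne' (measure_mono_null (fun w hw => ?_) (ae_iff.1 h3))
  have h4 := cm_strict hΩ hp hl hρ (fun ζ hζ => h (Sm3A_disc hw.1.le hζ)) hw.2
  exact (mul_pos (sub_pos.2 h4) ((κ.pos_iff w).2 hw.1)).ne'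

/-- A compactness lemma: room for a second, small smoothing. The set
`K' = ⋃ z ∈ K, closedBall z (r ‖z‖)` is compact, contained in `Ω \ {0}`; use a thickening. -/
theorem exists_room (hr : 0 ≤ r) (hr1 : r < 1) (hΩ : IsOpen Ω) (hK : IsCompact K) (h0 : (0 : E n) ∉ K)
    (h : ∀ z ∈ K, closedBall z (r * ‖z‖) ⊆ Ω) : ∃ Ω₁, IsOpen Ω₁ ∧ (0 : E n) ∉ Ω₁ ∧
      (∀ z ∈ K, closedBall z (r * ‖z‖) ⊆ Ω₁) ∧
      ∀ᶠ s in 𝓝[>] (0 : ℝ), ∀ y ∈ Ω₁, closedBall y (s * ‖y‖) ⊆ Ω := by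
  obtain ⟨M, hM⟩ := hK.isBounded.exists_norm_le
  have hS : IsCompact {q : E n × E n | q.1 ∈ K ∧ dist q.2 q.1 ≤ r * ‖q.1‖} := by
    refine (hK.prod (isCompact_closedBall (0 : E n) (2 * M))).of_isClosed_subset
      ((hK.isClosed.preimage continuous_fst).inter (isClosed_le (continuous_snd.dist continuous_fst)
        (continuous_const.mul continuous_fst.norm)))
      fun q hq => ⟨hq.1, ?_⟩
    have h1 := hM _ hq.1
    have h2 := hq.2
    have h3 : ‖q.2‖ ≤ ‖q.1‖ + dist q.2 q.1 := by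
      rw [dist_eq_norm]
      exact norm_le_norm_add_norm_sub' _ _
    have h4 := mul_le_mul_of_nonneg_right hr1.le (norm_nonneg q.1)
    rw [mem_closedBall_zero_iff]
    linarith
  have hK' := hS.image continuous_snd
  obtain ⟨M', hM'0, hM'⟩ := hK'.isBounded.exists_pos_norm_le
  obtain ⟨δ, hδ, hsub⟩ := hK'.exists_thickening_subset_open (hΩ.inter isOpen_compl_singleton)
    (t := Ω ∩ {0}ᶜ) (by
      rintro _ ⟨q, hq, rfl⟩
      refine ⟨h _ hq.1 hq.2, fun h1 => ?_⟩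
      have h2 := hq.2
      rw [show q.2 = 0 from h1, dist_zero_left] at h2
      have h3 : 0 < ‖q.1‖ := norm_pos_iff.2 fun h4 => h0 (h4 ▸ hq.1)
      nlinarith)
  refine ⟨thickening (δ / 2) _, isOpen_thickening,
    fun h1 => (hsub (thickening_mono (half_le_self hδ.le) _ h1)).2 rfl,
    fun z hz y hy => self_subset_thickening (half_pos hδ) _ ⟨(z, y), ⟨hz, hy⟩, rfl⟩, ?_⟩
  have hB : 0 < M' + δ / 2 := by positivity
  filter_upwards [Ioo_mem_nhdsGT (show 0 < δ / 2 / (M' + δ / 2) by positivity)] with s hs y hy x hx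
  obtain ⟨a, ha, hya⟩ := mem_thickening_iff.1 hy
  refine (hsub (mem_thickening_iff.2 ⟨a, ha, ?_⟩)).1
  have h1 : ‖y‖ ≤ ‖a‖ + dist y a := by
    rw [dist_eq_norm]
    exact norm_le_norm_add_norm_sub' _ _
  have h2 := hM' a ha
  have h3 := (lt_div_iff₀ hB).1 hs.2
  have h4 : s * ‖y‖ ≤ s * (M' + δ / 2) := mul_le_mul_of_nonneg_left (by linarith) hs.1.le
  have h5 := dist_triangle x y a
  have h6 : dist x y ≤ s * ‖y‖ := hx
  linarith

/-- Test with `h ≥ 0` (`ae_nonneg_of_cc`): for small `s`, `sm s g ≤ sm r (sm s g)` on the support of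
`h` (`exists_room`, `sm_wpsh`, `levi_nonneg_of_wpsh`, `sm_ge_smooth`); let `s → 0` using
`sm_adjoint` and `sm_weak_tendsto`. -/
theorem sm_ge (hn : 1 ≤ n) (hr : 0 < r) (hr1 : r < 1) (hg : LocallyIntegrable g) (hΩ : IsOpen Ω)
    (h : WPsh g Ω) (hΩ' : IsOpen Ω') (h' : ∀ z ∈ Ω', z ≠ 0 → closedBall z (r * ‖z‖) ⊆ Ω) :
    ∀ᵐ z, z ∈ Ω' → g z ≤ sm κ r g z := by
  have hs := sm_locInt κ hn hr hr1 hg
  have h1 := ae_nonneg_of_cc (u := fun z => sm κ r g z - g z) hΩ' (hs.sub hg) fun φ hφ hφ0 hφs => by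
    obtain ⟨Ω₁, hΩ₁, h0, hK, hev⟩ := exists_room hr.le hr1 hΩ hφ.2.1 hφ.2.2
      fun z hz => h' z (hφs hz) fun h0 => hφ.2.2 (h0 ▸ hz)
    obtain ⟨φ', hφ', had⟩ := sm_adjoint κ hr hr1 hφ
    have h2 : ∫ z, g z * φ z ≤ ∫ z, g z * φ' z := by
      refine le_of_tendsto_of_tendsto (sm_weak_tendsto κ hn hg hφ) (sm_weak_tendsto κ hn hg hφ') ?_
      filter_upwards [hev, Ioo_mem_nhdsGT (zero_lt_one' ℝ)] with s hs1 hs2
      have hq := sm_locInt κ hn hs2.1 hs2.2 hg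
      have hc := sm_contDiffOn κ hs2.1 hg
      have hw : WPsh (sm κ s g) Ω₁ := sm_wpsh κ hn hs2.1 hs2.2 hg h fun y hy _ => hs1 y hy
      rw [← had _ hq]
      refine integral_mono (hφ.integrable_mul hq) (hφ.integrable_mul (sm_locInt κ hn hr hr1 hq))
        fun z => ?_
      by_cases hz : z ∈ tsupport φ
      · refine mul_le_mul_of_nonneg_right ?_ (hφ0 z)
        exact sm_ge_smooth κ hn hr hΩ₁ (hc.mono fun y hy h3 => h0 (h3 ▸ hy))
          (fun y hy v => levi_nonneg_of_wpsh hΩ₁ (hc.mono fun _ h3 => h3.2) hw hy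
            (fun h3 => h0 (h3 ▸ hy)) v) (fun h3 => hφ.2.2 (h3 ▸ hz)) (hK z hz)
      · simp only [image_eq_zero_of_notMem_tsupport hz, mul_zero, le_refl]
    simp only [sub_mul]
    rw [integral_sub (hφ.integrable_mul hs) (hφ.integrable_mul hg), had g hg]
    linarith
  filter_upwards [h1, Sm3A_ae hn] with z h2 h3 h4
  linarith [h2 h4 h3]

theorem sm_eq_of_wph (hn : 1 ≤ n) (hr : 0 < r) (hr1 : r < 1) (hg : LocallyIntegrable g)
    (hΩ : IsOpen Ω) (h : WPh g Ω) (hΩ' : IsOpen Ω')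
    (h' : ∀ z ∈ Ω', z ≠ 0 → closedBall z (r * ‖z‖) ⊆ Ω) : ∀ᵐ z, z ∈ Ω' → sm κ r g z = g z := by
  obtain ⟨h1, h2⟩ := wph_iff.1 h
  filter_upwards [sm_ge κ hn hr hr1 hg hΩ h1 hΩ' h', sm_ge κ hn hr hr1 hg.neg hΩ h2 hΩ' h']
    with z h3 h4 h5
  have h6 : -g z ≤ sm κ r (fun y => -g y) z := h4 h5
  rw [sm_neg] at h6
  linarith [h3 h5]

/-- `θ = sm r g - g ≥ 0` vanishes almost everywhere on `ball z (2 r ‖z‖)` (`ae_eq_zero_of_sm`). With
`p = sm r g` we get `sm r p y = sm r g y = p y` for `y` near `z`, so `levi p y = 0` there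
(`levi_eq_zero_of_sm`), and `g = p` almost everywhere near `z`. -/
theorem wph_of_sm_sm (hn : 1 ≤ n) (hr : 0 < r) (hr1 : r ≤ 1 / 4) (hg : IsPot g) (hz : z ≠ 0)
    (h : sm κ (2 * r) (sm κ r g) z = sm κ (2 * r) g z) : ∃ N, IsOpen N ∧ z ∈ N ∧ WPh g N := by
  have hr2 : r < 1 := by linarith
  have hs := sm_locInt κ hn hr hr2 hg.int
  have hp := IsPot.sm_spot κ hn hr hr2 hg
  have hz' : 0 < ‖z‖ := norm_pos_iff.2 hz
  have h1 : ∀ᵐ y, 0 ≤ sm κ r g y - g y :=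
    (sm_ge κ hn hr hr2 hg.int isOpen_univ (hg.wpsh univ) isOpen_univ
      fun _ _ _ => subset_univ _).mono fun y hy => sub_nonneg.2 (hy trivial)
  have h2 := ae_eq_zero_of_sm κ (r := 2 * r) (g := fun y => sm κ r g y - g y) (by linarith)
    (hs.sub hg.int) h1 hz (by rw [sm_sub κ (by linarith) hs hg.int hz, h, sub_self])
  have hρ : 0 < r * ‖z‖ := mul_pos hr hz'
  have hρ' : r * ‖z‖ ≤ 1 / 4 * ‖z‖ := mul_le_mul_of_nonneg_right hr1 hz'.le
  have hN : ∀ y ∈ ball z (r * ‖z‖ / 2), y ≠ 0 ∧ ball y (r * ‖y‖) ⊆ ball z (2 * r * ‖z‖) := by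
    intro y hy
    have h3 : dist y z < r * ‖z‖ / 2 := hy
    refine ⟨fun h0 => ?_, fun x hx => ?_⟩
    · rw [h0, dist_zero_left] at h3
      linarith
    · have h4 : ‖y‖ ≤ ‖z‖ + dist y z := by
        rw [dist_eq_norm]
        exact norm_le_norm_add_norm_sub' _ _
      have h5 : r * ‖y‖ ≤ r * (5 / 4 * ‖z‖) := mul_le_mul_of_nonneg_left (by linarith) hr.le
      have h6 : dist x y < r * ‖y‖ := hx
      have h7 := dist_triangle x y z
      rw [mem_ball]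
      linarith
  refine ⟨ball z (r * ‖z‖ / 2), isOpen_ball, mem_ball_self (by positivity),
    fun ψ hψ _ hsub v => ?_⟩
  rw [pair_congr (u' := sm κ r g) (h2.mono fun y hy h3 =>
    (sub_eq_zero.1 (hy (ball_subset_ball (by linarith) (hsub h3)))).symm)]
  refine pair_eq_zero_of_hess hp.smooth hψ (fun y hy => ?_) v
  obtain ⟨h3, h4⟩ := hN y (hsub hy)
  refine hess_eq_zero ((hp.smooth.contDiffAt (isOpen_compl_singleton.mem_nhds h3)).of_le
    (WithTop.coe_le_coe.2 (le_top (a := (2 : ℕ∞))))) ?_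
  refine levi_eq_zero_of_sm κ hn hr isOpen_compl_singleton hp.smooth hp.psh h3 (fun x hx h0 => ?_)
    (sm_congr κ hr h3 (h2.mono fun x hx h5 => sub_eq_zero.1 (hx (h4 h5))))
  have h5 : dist x y ≤ r * ‖y‖ := hx
  rw [show x = 0 from h0, dist_zero_left] at h5
  nlinarith [norm_pos_iff.2 h3]

end Pool.Agent.Lib.MP_a47f92_an
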