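import Pool.Agent.Lib.MP_a47f92_an.Pair
import Pool.Agent.Lib.MP_a47f92_an.Green

set_option autoImplicit false
set_option linter.unusedSectionVars false

/-! Measures determined by test functions; polar decomposition. -/

namespace Pool.Agent.Lib.MP_a47f92_an

open MeasureTheory Filter Topology Set Complex Metric Function
open scoped ContDiff ComplexConjugate ComplexOrder Matrix ENNReal NNReal Pointwise

variable {n : ℕ}

theorem UniqA_le {μ ν : Measure (E n)} [IsFiniteMeasureOnCompacts μ]
    [IsFiniteMeasureOnCompacts ν] (h : ∀ ψ, IsTest ψ → ∫ z, ψ z ∂μ = ∫ z, ψ z ∂ν)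
    {U : Set (E n)} (hU : IsOpen U) (h0 : (0 : E n) ∉ U) : μ U ≤ ν U := by
  rw [hU.measure_eq_iSup_isCompact μ]
  refine iSup_le fun K => iSup_le fun hKU => iSup_le fun hK => ?_
  obtain ⟨L, hL, hKL, hLU⟩ := exists_compact_between hK hU hKU
  obtain ⟨f, hf1, hf0, hf⟩ := exists_contMDiffMap_one_nhds_of_subset_interior
    (modelWithCornersSelf ℝ (E n)) (n := ⊤) hK.isClosed hKL
  have hs : tsupport f ⊆ L := closure_minimal (fun x hx => by
    by_contra hx'
    exact hx (hf0 x hx')) hL.isClosed
  have hc : HasCompactSupport f := hL.of_isClosed_subset (isClosed_tsupport _) hs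
  have hd : ContDiff ℝ ∞ f := f.contMDiff.contDiff
  have h1 : μ.real K ≤ ∫ z, f z ∂μ := by
    rw [← integral_indicator_one hK.measurableSet]
    refine integral_mono ((integrable_indicator_iff hK.measurableSet).2
      (integrableOn_const hK.measure_lt_top.ne)) (hd.continuous.integrable_of_hasCompactSupport hc)
      fun x => ?_
    by_cases hx : x ∈ K
    · rw [indicator_of_mem hx]
      exact (hf1.self_of_nhdsSet x hx).ge
    · rw [indicator_of_notMem hx]
      exact (hf x).1
  have h2 : ∫ z, f z ∂ν ≤ ν.real L := by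
    rw [← integral_indicator_one hL.measurableSet]
    refine integral_mono (hd.continuous.integrable_of_hasCompactSupport hc)
      ((integrable_indicator_iff hL.measurableSet).2 (integrableOn_const hL.measure_lt_top.ne))
      fun x => ?_
    by_cases hx : x ∈ L
    · rw [indicator_of_mem hx]
      exact (hf x).2
    · rw [indicator_of_notMem hx]
      exact (hf0 x hx).le
  have h3 : μ.real K ≤ ν.real L := h1.trans ((h f ⟨hd, hc, fun hx => h0 (hLU (hs hx))⟩).le.trans h2)
  exact ((ENNReal.toReal_le_toReal hK.measure_lt_top.ne hL.measure_lt_top.ne).1 h3).trans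
    (measure_mono hLU)

/-- For a bounded open set `U` whose closure avoids the origin, the indicator function of `U` is an
increasing limit of test functions (`IsOpen.exists_contDiff_support_eq` gives `χ` with support `U`;
take `1 - exp (-i χ)`, whose support has compact closure avoiding `0`). These sets form a π-system
which generates the Borel sets of the complement of the origin. Alternatively approximate functions
in `IsCC` uniformly by test functions and use regularity. -/
theorem restrict_eq_of_test {μ ν : Measure (E n)} [IsFiniteMeasureOnCompacts μ]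
    [IsFiniteMeasureOnCompacts ν] (h : ∀ ψ, IsTest ψ → ∫ z, ψ z ∂μ = ∫ z, ψ z ∂ν) :
    μ.restrict {0}ᶜ = ν.restrict {0}ᶜ := by
  refine Measure.OuterRegular.ext_isOpen fun U hU => ?_
  rw [Measure.restrict_apply hU.measurableSet, Measure.restrict_apply hU.measurableSet]
  have h1 : IsOpen (U ∩ {0}ᶜ) := hU.inter isOpen_compl_singleton
  have h2 : (0 : E n) ∉ U ∩ {0}ᶜ := fun hx => hx.2 rfl
  exact le_antisymm (UniqA_le h h1 h2) (UniqA_le (fun ψ hψ => (h ψ hψ).symm) h1 h2)

theorem UniqA_scale {ν : Measure (E n)} [IsFiniteMeasureOnCompacts ν] {a : ℝ} (ha : 0 < a)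
    (h : ∀ ψ, IsTest ψ → ∫ z, ψ (a • z) ∂ν = (a ^ 2)⁻¹ * ∫ z, ψ z ∂ν) {B : Set (E n)}
    (hB : MeasurableSet B) (h0 : B ⊆ {0}ᶜ) :
    ν ((fun z => a • z) ⁻¹' B) = ENNReal.ofReal (a ^ 2)⁻¹ * ν B := by
  let T : E n ≃ₜ E n := Homeomorph.smulOfNeZero a ha.ne'
  have : IsFiniteMeasureOnCompacts (ν.map T) := ⟨fun K hK => by
    rw [T.measurableEmbedding.map_apply]
    exact (T.isCompact_preimage.2 hK).measure_lt_top⟩
  have : IsFiniteMeasureOnCompacts (ENNReal.ofReal (a ^ 2)⁻¹ • ν) :=
    IsFiniteMeasureOnCompacts.smul _ ENNReal.ofReal_ne_top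
  have h1 := restrict_eq_of_test (μ := ν.map T) (ν := ENNReal.ofReal (a ^ 2)⁻¹ • ν) fun ψ hψ => by
    rw [T.measurableEmbedding.integral_map, integral_smul_measure,
      ENNReal.toReal_ofReal (by positivity)]
    exact h ψ hψ
  have h2 := congrArg (fun m : Measure (E n) => m B) h1
  simp only [Measure.restrict_apply hB, inter_eq_left.2 h0] at h2
  rw [T.measurableEmbedding.map_apply] at h2
  exact h2

/-- Let `νS A = ν {z | 0 < ‖z‖ < 1, ‖z‖⁻¹ • z ∈ A}`. The scaling hypothesis gives (by
`restrict_eq_of_test`) `ν (a • B) = a ^ 2 ν B` off the origin, so the push-forward of `ν` to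
`Sph n × Ioi 0` (`homeomorphUnitSphereProd`) and `νS.prod (2 σ dσ)` agree on the sets `A × Iio ρ`;
imitate `Measure.measurePreserving_homeomorphUnitSphereProd` (`Measure.prod_eq_generateFrom`). -/
theorem exists_polar {ν : Measure (E n)} [IsFiniteMeasureOnCompacts ν]
    (h : ∀ a : ℝ, 0 < a → ∀ ψ, IsTest ψ → ∫ z, ψ (a • z) ∂ν = (a ^ 2)⁻¹ * ∫ z, ψ z ∂ν) :
    ∃ νS : Measure (Sph n), IsFiniteMeasure νS ∧ Polar ν νS := by
  have hm : MeasurableSet ({0}ᶜ : Set (E n)) := (measurableSet_singleton _).compl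
  let H := homeomorphUnitSphereProd (E n)
  let νS : Measure (Sph n) := ((ν.comap (Subtype.val ∘ H.symm)).restrict
    (univ ×ˢ Iio ⟨1, mem_Ioi.2 one_pos⟩)).fst
  have hS : ∀ s : Set (Sph n), MeasurableSet s →
      νS s = ν (Ioo (0 : ℝ) 1 • (Subtype.val '' s)) := fun s hs => by
    rw [Measure.fst_apply hs, Measure.restrict_apply (measurable_fst hs),
      ((MeasurableEmbedding.subtype_coe hm).comp (Homeomorph.measurableEmbedding _)).comap_apply,
      image_comp, Homeomorph.image_symm, univ_prod, ← Set.prod_eq, Measure.toSphere_apply_aux]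
  have hfin : IsFiniteMeasure νS := ⟨by
    rw [hS _ .univ]
    refine lt_of_le_of_lt (measure_mono ?_) (isCompact_closedBall (0 : E n) 1).measure_lt_top
    rintro _ ⟨t, ht, _, ⟨x, -, rfl⟩, rfl⟩
    rw [mem_closedBall_zero_iff, norm_smul, sph_norm, mul_one, Real.norm_of_nonneg ht.1.le]
    exact ht.2.le⟩
  have hp : MeasurePreserving H (ν.comap Subtype.val)
      (((2 : ℝ≥0) • νS).prod (Measure.volumeIoiPow 1)) := by
    refine ⟨H.measurable, .symm ?_⟩
    refine Measure.prod_eq_generateFrom MeasurableSpace.generateFrom_measurableSet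
      ((borel_eq_generateFrom_Iio _).symm.trans BorelSpace.measurable_eq.symm)
      MeasurableSpace.isPiSystem_measurableSet isPiSystem_Iio
      ((2 : ℝ≥0) • νS).toFiniteSpanningSetsIn (Measure.finiteSpanningSetsIn_volumeIoiPow_range_Iio _)
      fun s hs => forall_mem_range.2 fun r => ?_
    have hr : (0 : ℝ) < r := r.2
    have h1 := UniqA_scale hr (h r hr) (B := Subtype.val '' (H ⁻¹' s ×ˢ Iio r))
      ((MeasurableEmbedding.subtype_coe hm).measurableSet_image.2
        (H.measurable (MeasurableSet.prod hs measurableSet_Iio))) (Subtype.coe_image_subset _ _)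
    have h2 : (fun z : E n => (r : ℝ) • z) ⁻¹' (Subtype.val '' (H ⁻¹' s ×ˢ Iio r)) =
        Ioo (0 : ℝ) 1 • (Subtype.val '' s) := by
      have h3 : Subtype.val '' (H ⁻¹' s ×ˢ Iio r) = Ioo (0 : ℝ) r • (Subtype.val '' s) := by
        rw [← image2_smul, image2_image_right, ← Homeomorph.image_symm, image_image,
          ← image_subtype_val_Ioi_Iio, image2_image_left, image2_swap, ← image_prod]
        rfl
      have h4 : Ioo (0 : ℝ) r = r.1 • Ioo (0 : ℝ) 1 := by simp [LinearOrderedField.smul_Ioo hr]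
      rw [h3, h4, smul_assoc]
      ext z
      exact smul_mem_smul_set_iff₀ hr.ne' _ _
    rw [H.measurableEmbedding.map_apply, comap_subtype_coe_apply hm, Measure.smul_apply, hS s hs,
      ← h2, h1, Measure.volumeIoiPow_apply_Iio, ENNReal.smul_def, smul_eq_mul, ← mul_assoc,
      mul_right_comm, ← ENNReal.ofReal_coe_nnreal, ← ENNReal.ofReal_mul (by positivity),
      ← ENNReal.ofReal_mul (by positivity)]
    have h5 : ((2 : ℝ≥0) : ℝ) * ((r : ℝ) ^ 2)⁻¹ * ((r : ℝ) ^ (1 + 1) / (((1 : ℕ) : ℝ) + 1)) = 1 := by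
      push_cast
      field_simp
      norm_num
    rw [h5, ENNReal.ofReal_one, one_mul]
  refine ⟨νS, hfin, fun g hg => ?_⟩
  have hg' : Measurable fun p : Sph n × Ioi (0 : ℝ) => g ((p.2 : ℝ) • (p.1 : E n)) :=
    hg.comp (by fun_prop : Continuous fun p : Sph n × Ioi (0 : ℝ) =>
      (p.2 : ℝ) • (p.1 : E n)).measurable
  rw [← lintegral_subtype_comap hm,
    ← (hp.symm H.toMeasurableEquiv).lintegral_comp_emb H.symm.measurableEmbedding]
  change ∫⁻ p : Sph n × Ioi (0 : ℝ), g ((p.2 : ℝ) • (p.1 : E n)) ∂_ = _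
  rw [lintegral_prod _ hg'.aemeasurable, lintegral_smul_measure, ENNReal.smul_def, smul_eq_mul,
    ← lintegral_const_mul' _ _ ENNReal.coe_ne_top]
  refine lintegral_congr fun a => ?_
  have hg2 : Measurable fun y : Ioi (0 : ℝ) => g (((a, y).2 : ℝ) • ((a, y).1 : E n)) :=
    hg'.comp measurable_prodMk_left
  rw [Measure.volumeIoiPow, lintegral_withDensity_eq_lintegral_mul _ (by fun_prop) hg2,
    ← lintegral_const_mul' _ _ ENNReal.coe_ne_top,
    ← lintegral_subtype_comap measurableSet_Ioi]
  refine lintegral_congr fun σ => ?_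
  rw [ENNReal.ofReal_mul zero_le_two, mul_assoc]
  simp

end Pool.Agent.Lib.MP_a47f92_an
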