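import Pool.Agent.Lib.MP_a47f92_an.Int

set_option autoImplicit false
set_option linter.unusedSectionVars false

/-! First order Wirtinger calculus. -/

namespace Pool.Agent.Lib.MP_a47f92_an

open MeasureTheory Filter Topology Set Complex Metric Function
open scoped ContDiff ComplexConjugate ComplexOrder Matrix ENNReal NNReal

variable {n : ℕ}

variable {f g : E n → ℂ} {z v : E n}

theorem wd_congr (h : f =ᶠ[𝓝 z] g) (v : E n) : wd v f =ᶠ[𝓝 z] wd v g := by
  filter_upwards [h.fderiv (𝕜 := ℝ)] with w hw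
  simp only [wd, hw]

theorem wb_congr (h : f =ᶠ[𝓝 z] g) (v : E n) : wb v f =ᶠ[𝓝 z] wb v g := by
  filter_upwards [h.fderiv (𝕜 := ℝ)] with w hw
  simp only [wb, hw]

theorem wd_const (c : ℂ) (v z : E n) : wd v (fun _ => c) z = 0 := by
  simp [wd]

theorem wb_const (c : ℂ) (v z : E n) : wb v (fun _ => c) z = 0 := by
  simp [wb]

theorem wd_add (hf : DifferentiableAt ℝ f z) (hg : DifferentiableAt ℝ g z) :
    wd v (fun w => f w + g w) z = wd v f z + wd v g z := by
  simp only [wd, fderiv_fun_add hf hg, add_apply]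
  ring

theorem wb_add (hf : DifferentiableAt ℝ f z) (hg : DifferentiableAt ℝ g z) :
    wb v (fun w => f w + g w) z = wb v f z + wb v g z := by
  simp only [wb, fderiv_fun_add hf hg, add_apply]
  ring

theorem wd_mul (hf : DifferentiableAt ℝ f z) (hg : DifferentiableAt ℝ g z) :
    wd v (fun w => f w * g w) z = wd v f z * g z + f z * wd v g z := by
  simp only [wd, fderiv_fun_mul hf hg, add_apply,
    smul_apply, smul_eq_mul]
  ring

theorem wb_mul (hf : DifferentiableAt ℝ f z) (hg : DifferentiableAt ℝ g z) :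
    wb v (fun w => f w * g w) z = wb v f z * g z + f z * wb v g z := by
  simp only [wb, fderiv_fun_mul hf hg, add_apply,
    smul_apply, smul_eq_mul]
  ring

theorem Wirt_const_mul (c : ℂ) (f : E n → ℂ) (v z : E n) :
    fderiv ℝ (fun w => c * f w) z v = c * fderiv ℝ f z v := by
  have h : fderiv ℝ (c • f) = c • fderiv ℝ f := fderiv_const_smul_field c
  have e : (fun w => c * f w) = c • f := rfl
  rw [e, h]
  rfl

/-- No differentiability is needed (`fderiv_const_mul_field` or a case split on `c = 0`). -/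
theorem wd_const_mul (c : ℂ) (f : E n → ℂ) (v z : E n) :
    wd v (fun w => c * f w) z = c * wd v f z := by
  simp only [wd, Wirt_const_mul]
  ring

theorem wb_const_mul (c : ℂ) (f : E n → ℂ) (v z : E n) :
    wb v (fun w => c * f w) z = c * wb v f z := by
  simp only [wb, Wirt_const_mul]
  ring

theorem wd_sum {ι : Type} (s : Finset ι) {f : ι → E n → ℂ}
    (h : ∀ i ∈ s, DifferentiableAt ℝ (f i) z) :
    wd v (fun w => ∑ i ∈ s, f i w) z = ∑ i ∈ s, wd v (f i) z := by
  simp only [wd, fderiv_fun_sum h, sum_apply, Finset.mul_sum]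
  rw [← Finset.sum_sub_distrib, Finset.sum_div]

theorem wb_sum {ι : Type} (s : Finset ι) {f : ι → E n → ℂ}
    (h : ∀ i ∈ s, DifferentiableAt ℝ (f i) z) :
    wb v (fun w => ∑ i ∈ s, f i w) z = ∑ i ∈ s, wb v (f i) z := by
  simp only [wb, fderiv_fun_sum h, sum_apply, Finset.mul_sum]
  rw [← Finset.sum_add_distrib, Finset.sum_div]

theorem wd_prod {ι : Type} [DecidableEq ι] (s : Finset ι) {f : ι → E n → ℂ}
    (h : ∀ i ∈ s, DifferentiableAt ℝ (f i) z) :
    wd v (fun w => ∏ i ∈ s, f i w) z = ∑ i ∈ s, wd v (f i) z * ∏ j ∈ s.erase i, f j z := by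
  simp only [wd, fderiv_finsetProd h, sum_apply, Finset.mul_sum,
    smul_apply, smul_eq_mul]
  rw [← Finset.sum_sub_distrib, Finset.sum_div]
  refine Finset.sum_congr rfl fun i _ => ?_
  ring

theorem wb_prod {ι : Type} [DecidableEq ι] (s : Finset ι) {f : ι → E n → ℂ}
    (h : ∀ i ∈ s, DifferentiableAt ℝ (f i) z) :
    wb v (fun w => ∏ i ∈ s, f i w) z = ∑ i ∈ s, wb v (f i) z * ∏ j ∈ s.erase i, f j z := by
  simp only [wb, fderiv_finsetProd h, sum_apply, Finset.mul_sum,
    smul_apply, smul_eq_mul]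
  rw [← Finset.sum_add_distrib, Finset.sum_div]
  refine Finset.sum_congr rfl fun i _ => ?_
  ring

theorem Wirt_conj (f : E n → ℂ) (v z : E n) :
    fderiv ℝ (fun w => conj (f w)) z v = conj (fderiv ℝ f z v) := by
  have h := ContinuousLinearEquiv.comp_fderiv conjCLE (f := f) (x := z)
  have e : (fun w => conj (f w)) = conjCLE ∘ f := rfl
  rw [e, h]
  rfl

/-- Use `ContinuousLinearEquiv.comp_fderiv` with `conjCLE`; no differentiability is needed. -/
theorem wb_conj (f : E n → ℂ) (v z : E n) :
    wb v (fun w => conj (f w)) z = conj (wd v f z) := by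
  simp only [wd, wb, Wirt_conj, map_div₀, map_sub, map_mul, conj_I, map_ofNat]
  ring

theorem wd_conj (f : E n → ℂ) (v z : E n) :
    wd v (fun w => conj (f w)) z = conj (wb v f z) := by
  simp only [wd, wb, Wirt_conj, map_div₀, map_add, map_mul, conj_I, map_ofNat]
  ring

theorem sum_ev (v : E n) : ∑ i, v i • ev i = v := by
  ext j
  simp [ev, Pi.single_apply]

theorem Wirt_smul (L : E n →L[ℝ] ℂ) (c : ℂ) (v : E n) :
    L (c • v) = c.re * L v + c.im * L (I • v) := by
  have e : c • v = c.re • v + c.im • (I • v) := by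
    conv_lhs => rw [← re_add_im c]
    rw [add_smul, mul_smul, coe_smul, coe_smul]
  rw [e, map_add, map_smul, map_smul, real_smul, real_smul]

/-- `wd v f z` is complex linear in `v`. -/
theorem wd_smul (c : ℂ) (f : E n → ℂ) (v z : E n) : wd (c • v) f z = c * wd v f z := by
  simp only [wd]
  rw [smul_comm I c v, Wirt_smul _ c v, Wirt_smul _ c (I • v), smul_smul, I_mul_I, neg_smul,
    one_smul, map_neg]
  conv_rhs => rw [← re_add_im c]
  
  linear_combination ((c.im : ℂ) * (fderiv ℝ f z) (I • v) / 2) * I_mul_I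

theorem wb_smul (c : ℂ) (f : E n → ℂ) (v z : E n) : wb (c • v) f z = conj c * wb v f z := by
  simp only [wb]
  rw [smul_comm I c v, Wirt_smul _ c v, Wirt_smul _ c (I • v), smul_smul, I_mul_I, neg_smul,
    one_smul, map_neg]
  conv_rhs => rw [← re_add_im c]
  simp only [map_add, map_mul, conj_ofReal, conj_I]
  linear_combination ((c.im : ℂ) * (fderiv ℝ f z) (I • v) / 2) * I_mul_I

theorem wd_vec (f : E n → ℂ) (v z : E n) : wd v f z = ∑ i, v i * wd (ev i) f z := by
  conv_lhs => rw [← sum_ev v]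
  simp only [← wd_smul]
  simp only [wd, Finset.smul_sum, map_sum, Finset.mul_sum]
  rw [← Finset.sum_sub_distrib, Finset.sum_div]

theorem wb_vec (f : E n → ℂ) (v z : E n) : wb v f z = ∑ i, conj (v i) * wb (ev i) f z := by
  conv_lhs => rw [← sum_ev v]
  simp only [← wb_smul]
  simp only [wb, Finset.smul_sum, map_sum, Finset.mul_sum]
  rw [← Finset.sum_add_distrib, Finset.sum_div]

theorem fderiv_eq_wd_add_wb (f : E n → ℂ) (v z : E n) : fderiv ℝ f z v = wd v f z + wb v f z := by
  simp only [wd, wb]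
  ring

theorem wd_holo (hf : DifferentiableAt ℂ f z) : wd v f z = fderiv ℂ f z v := by
  simp only [wd, hf.fderiv_restrictScalars ℝ, ContinuousLinearMap.coe_restrictScalars', map_smul,
    smul_eq_mul]
  linear_combination (-(fderiv ℂ f z) v / 2) * I_mul_I

theorem wb_holo (hf : DifferentiableAt ℂ f z) : wb v f z = 0 := by
  simp only [wb, hf.fderiv_restrictScalars ℝ, ContinuousLinearMap.coe_restrictScalars', map_smul,
    smul_eq_mul]
  linear_combination ((fderiv ℂ f z) v / 2) * I_mul_I

/-- Chain rule with a holomorphic inner map. -/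
theorem wd_comp {Φ : E n → E n} (hΦ : DifferentiableAt ℂ Φ z) (hf : DifferentiableAt ℝ f (Φ z)) :
    wd v (fun w => f (Φ w)) z = wd (fderiv ℂ Φ z v) f (Φ z) := by
  simp only [wd, fderiv_fun_comp z hf (hΦ.restrictScalars ℝ), hΦ.fderiv_restrictScalars ℝ,
    ContinuousLinearMap.comp_apply, ContinuousLinearMap.coe_restrictScalars', map_smul]

theorem wb_comp {Φ : E n → E n} (hΦ : DifferentiableAt ℂ Φ z) (hf : DifferentiableAt ℝ f (Φ z)) :
    wb v (fun w => f (Φ w)) z = wb (fderiv ℂ Φ z v) f (Φ z) := by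
  simp only [wb, fderiv_fun_comp z hf (hΦ.restrictScalars ℝ), hΦ.fderiv_restrictScalars ℝ,
    ContinuousLinearMap.comp_apply, ContinuousLinearMap.coe_restrictScalars', map_smul]

theorem contDiffAt_wd {m m' : WithTop ℕ∞} (hf : ContDiffAt ℝ m' f z) (h : m + 1 ≤ m') (v : E n) :
    ContDiffAt ℝ m (wd v f) z := by
  have h1 : ∀ w : E n, ContDiffAt ℝ m (fun y => fderiv ℝ f y w) z := fun w =>
    (hf.fderiv_right h).clm_apply contDiffAt_const
  exact ((h1 v).sub (contDiffAt_const.mul (h1 _))).div_const 2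

theorem contDiffAt_wb {m m' : WithTop ℕ∞} (hf : ContDiffAt ℝ m' f z) (h : m + 1 ≤ m') (v : E n) :
    ContDiffAt ℝ m (wb v f) z := by
  have h1 : ∀ w : E n, ContDiffAt ℝ m (fun y => fderiv ℝ f y w) z := fun w =>
    (hf.fderiv_right h).clm_apply contDiffAt_const
  exact ((h1 v).add (contDiffAt_const.mul (h1 _))).div_const 2

theorem wd_of_notMem_tsupport (h : z ∉ tsupport f) (v : E n) : wd v f z = 0 := by
  simp [wd, fderiv_of_notMem_tsupport ℝ h]

theorem wb_of_notMem_tsupport (h : z ∉ tsupport f) (v : E n) : wb v f z = 0 := by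
  simp [wb, fderiv_of_notMem_tsupport ℝ h]

theorem Wirt_int (hf : ContDiff ℝ 1 f) (hc : HasCompactSupport f) (v : E n) :
    Integrable (fun z => fderiv ℝ f z v) ∧ ∫ z, fderiv ℝ f z v = 0 := by
  have h1 : Integrable (fun z => fderiv ℝ f z v) :=
    ((hf.continuous_fderiv one_ne_zero).clm_apply continuous_const).integrable_of_hasCompactSupport
      (hc.fderiv_apply ℝ v)
  refine ⟨h1, ?_⟩
  have h := integral_mul_fderiv_eq_neg_fderiv_mul_of_integrable (μ := (volume : Measure (E n)))
    (f := fun _ => (1 : ℂ)) (g := f) (v := v) (by simp) (by simpa using h1)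
    (by simpa using hf.continuous.integrable_of_hasCompactSupport hc)
    (fun x _ => differentiableAt_const _)
    (fun x _ => (hf.differentiable one_ne_zero).differentiableAt)
  simpa using h

/-- Use `integral_mul_fderiv_eq_neg_fderiv_mul_of_integrable` with the constant function one. -/
theorem integral_wd (hf : ContDiff ℝ 1 f) (hc : HasCompactSupport f) (v : E n) :
    ∫ z, wd v f z = 0 := by
  simp only [wd]
  rw [integral_div, integral_sub (Wirt_int hf hc v).1 ((Wirt_int hf hc _).1.const_mul I),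
    integral_const_mul, (Wirt_int hf hc v).2, (Wirt_int hf hc _).2]
  simp

theorem integral_wb (hf : ContDiff ℝ 1 f) (hc : HasCompactSupport f) (v : E n) :
    ∫ z, wb v f z = 0 := by
  simp only [wb]
  rw [integral_div, integral_add (Wirt_int hf hc v).1 ((Wirt_int hf hc _).1.const_mul I),
    integral_const_mul, (Wirt_int hf hc v).2, (Wirt_int hf hc _).2]
  simp

end Pool.Agent.Lib.MP_a47f92_an
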