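import Pool.Agent.Lib.MP_a47f92_an.Int

set_option autoImplicit false
set_option linter.unusedSectionVars false

/-! The pull-back measure. -/

namespace Pool.Agent.Lib.MP_a47f92_an

open MeasureTheory Filter Topology Set Complex Metric Function
open scoped ContDiff ComplexConjugate ComplexOrder Matrix ENNReal NNReal

variable {n : ℕ}

variable {X : Type} [MetricSpace X] [CompactSpace X] [MeasurableSpace X] [BorelSpace X]
  {f : X → X} {R : Set X} {L : ℕ} {μ : Measure X}

theorem LocH.exists_pieces (h : LocH f R L) : ∃ P : ℕ → Set X, (∀ i, MeasurableSet (P i)) ∧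
    Pairwise (Disjoint on P) ∧ (⋃ i, P i) = R ∧ ∀ i, InjOn f (P i) := by

  have hc : (insert ∅ {U ∈ TopologicalSpace.countableBasis X | U ⊆ R ∧ InjOn f U}).Countable :=
    ((TopologicalSpace.countable_countableBasis X).mono (sep_subset _ _)).insert _
  obtain ⟨g, hg⟩ := hc.exists_eq_range (insert_nonempty _ _)
  have hgm : ∀ i, IsOpen (g i) ∧ g i ⊆ R ∧ InjOn f (g i) := by
    intro i
    have : g i ∈ insert ∅ {U ∈ TopologicalSpace.countableBasis X | U ⊆ R ∧ InjOn f U} :=
      hg ▸ mem_range_self i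
    rcases this with e | ⟨e1, e2, e3⟩
    · rw [e]; exact ⟨isOpen_empty, empty_subset _, injOn_empty _⟩
    · exact ⟨TopologicalSpace.isOpen_of_mem_countableBasis e1, e2, e3⟩
  refine ⟨disjointed g, MeasurableSet.disjointed fun i => (hgm i).1.measurableSet,
    disjoint_disjointed g, ?_, fun i => (hgm i).2.2.mono (disjointed_subset g i)⟩
  rw [iUnion_disjointed]
  refine Subset.antisymm (iUnion_subset fun i => (hgm i).2.1) fun x hx => ?_
  obtain ⟨U, hU, hinj⟩ := h.inj x hx
  obtain ⟨V, hV, hxV, hVU⟩ := (TopologicalSpace.isBasis_countableBasis X).mem_nhds_iff.1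
    (inter_mem hU (h.op.mem_nhds hx))
  have : V ∈ range g := by
    rw [← hg]
    exact Or.inr ⟨hV, hVU.trans inter_subset_right, hinj.mono (hVU.trans inter_subset_left)⟩
  obtain ⟨i, rfl⟩ := this
  exact mem_iUnion.2 ⟨i, hxV⟩

theorem LocH.lop_one_le (h : LocH f R L) (y : X) : Lop f R (fun _ => 1) y ≤ L := by

  classical
  refine ENNReal.summable.tsum_le_of_sum_le fun T => ?_
  have e : ∑ x ∈ T, (R ∩ f ⁻¹' {y}).indicator (fun _ => (1 : ℝ≥0∞)) x =
      ((T.filter fun x => x ∈ R ∩ f ⁻¹' {y}).card : ℝ≥0∞) := by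
    rw [Finset.card_filter, Nat.cast_sum]
    refine Finset.sum_congr rfl fun x _ => ?_
    rw [indicator_apply]
    split_ifs <;> simp
  rw [e]
  exact Nat.cast_le.2 (h.fib y _ fun x hx => (Finset.mem_filter.1 hx).2)


theorem Wt1_lop {P : ℕ → Set X} (hPd : Pairwise (Disjoint on P)) (hPU : (⋃ i, P i) = R)
    (hPi : ∀ i, InjOn f (P i)) (g : X → ℝ≥0∞) (y : X) :
    Lop f R g y = ∑' i, extend ((P i).domRestrict f) (fun x : P i => g x) (fun _ => 0) y := by
  have e1 : ∀ x, (R ∩ f ⁻¹' {y}).indicator g x = ∑' i, (P i ∩ f ⁻¹' {y}).indicator g x := by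
    intro x
    by_cases hx : x ∈ R ∩ f ⁻¹' {y}
    · obtain ⟨i, hi⟩ := mem_iUnion.1 (hPU.symm ▸ hx.1 : x ∈ ⋃ i, P i)
      rw [indicator_of_mem hx, tsum_eq_single i, indicator_of_mem (show x ∈ P i ∩ f ⁻¹' {y} from ⟨hi, hx.2⟩)]
      intro j hj
      exact indicator_of_notMem (fun hxj => (hPd hj).notMem_of_mem_left hxj.1 hi) _
    · rw [indicator_of_notMem hx, eq_comm, ENNReal.tsum_eq_zero]
      intro j
      refine indicator_of_notMem (fun hxj => hx ⟨?_, hxj.2⟩) _
      rw [← hPU]
      exact mem_iUnion.2 ⟨j, hxj.1⟩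
  rw [Lop]
  simp_rw [e1]
  rw [ENNReal.tsum_comm]
  refine tsum_congr fun i => ?_
  by_cases hy : ∃ a : P i, (P i).domRestrict f a = y
  · obtain ⟨a, rfl⟩ := hy
    rw [(injOn_iff_injective.1 (hPi i)).extend_apply, tsum_eq_single (a : X),
      indicator_of_mem (show (a : X) ∈ P i ∩ f ⁻¹' {(P i).domRestrict f a} from ⟨a.2, rfl⟩)]
    intro x hx
    exact indicator_of_notMem (fun hxj => hx (hPi i hxj.1 a.2 hxj.2)) _
  · rw [extend_apply' _ _ _ hy, ENNReal.tsum_eq_zero]
    intro x
    exact indicator_of_notMem (fun hxj => hy ⟨⟨x, hxj.1⟩, hxj.2⟩) _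

/-- The restriction `e i` of `f` to the subtype `P i` is a measurable embedding
(`ContinuousOn.measurableEmbedding`); put `μ' = sum fun i => (μ.comap (e i)).map Subtype.val`.
`Lop f R g y = ∑' i, extend (e i) (g ∘ val) 0 y`. For `μ ≤ μ'`:
`μ (A ∩ P i) ≤ μ (f ⁻¹' (f '' (A ∩ P i))) = μ (f '' (A ∩ P i))`. -/
theorem LocH.exists_pull [IsProbabilityMeasure μ] (h : LocH f R L) (hf : MeasurePreserving f μ μ)
    (hR : ∀ᵐ x ∂μ, x ∈ R) : ∃ μ', IsPull f R μ μ' := by

  obtain ⟨P, hPm, hPd, hPU, hPi⟩ := h.exists_pieces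
  have he : ∀ i, MeasurableEmbedding ((P i).domRestrict f) := fun i =>
    ContinuousOn.measurableEmbedding (hPm i) h.cont.continuousOn (hPi i)
  have hext : ∀ (i : ℕ) (g : X → ℝ≥0∞), Measurable g →
      Measurable (extend ((P i).domRestrict f) (fun x : P i => g x) (fun _ => 0)) :=
    fun i g hg => (he i).measurable_extend (hg.comp measurable_subtype_coe) measurable_const
  have heq : ∀ g : X → ℝ≥0∞, Measurable g →
      ∫⁻ x, g x ∂(Measure.sum fun i => (μ.comap ((P i).domRestrict f)).map Subtype.val) =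
        ∫⁻ y, Lop f R g y ∂μ := by
    intro g hg
    rw [lintegral_sum_measure]
    simp_rw [Wt1_lop hPd hPU hPi g]
    rw [lintegral_tsum fun i => (hext i g hg).aemeasurable]
    refine tsum_congr fun i => ?_
    rw [lintegral_map hg measurable_subtype_coe]
    have e1 : ∀ a : P i, g a = extend ((P i).domRestrict f) (fun x : P i => g x) (fun _ => 0)
        ((P i).domRestrict f a) := fun a =>
      ((he i).injective.extend_apply (fun x : P i => g x) _ a).symm
    rw [lintegral_congr e1, ← (he i).lintegral_map, (he i).map_comap,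
      ← lintegral_indicator (he i).measurableSet_range]
    refine lintegral_congr fun y => ?_
    by_cases hy : y ∈ range ((P i).domRestrict f)
    · rw [indicator_of_mem hy]
    · rw [indicator_of_notMem hy, extend_apply' _ _ _ hy]
  refine ⟨Measure.sum fun i => (μ.comap ((P i).domRestrict f)).map Subtype.val, ⟨?_⟩, ?_, heq, ?_⟩
  · rw [← lintegral_one, heq _ measurable_const]
    calc ∫⁻ y, Lop f R (fun _ => 1) y ∂μ ≤ ∫⁻ _, (L : ℝ≥0∞) ∂μ := lintegral_mono h.lop_one_le
      _ = L := by simp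
      _ < ⊤ := ENNReal.natCast_lt_top L
  · intro g hg
    have : Lop f R g = fun y => ∑' i,
        extend ((P i).domRestrict f) (fun x : P i => g x) (fun _ => 0) y :=
      funext (Wt1_lop hPd hPU hPi g)
    rw [this]
    exact Measurable.tsum fun i => hext i g hg
  · rw [Measure.le_iff]
    intro A hA
    rw [Measure.sum_apply _ hA]
    have e1 : μ A = μ (A ∩ R) := (measure_inter_conull hR).symm
    rw [e1, ← hPU, inter_iUnion]
    refine (measure_iUnion_le _).trans (ENNReal.tsum_le_tsum fun i => ?_)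
    rw [Measure.map_apply measurable_subtype_coe hA, (he i).comap_apply]
    refine le_trans (measure_mono ?_) (hf.measure_preimage_le _)
    rintro x ⟨hxA, hxP⟩
    exact ⟨⟨x, hxP⟩, hxA, rfl⟩

end Pool.Agent.Lib.MP_a47f92_an
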