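import Pool.Agent.Lib.MP_a47f92_an.Wt1

set_option autoImplicit false
set_option linter.unusedSectionVars false

/-! Conditional probabilities of preimages. -/

namespace Pool.Agent.Lib.MP_a47f92_an

open MeasureTheory Filter Topology Set Complex Metric Function
open scoped ContDiff ComplexConjugate ComplexOrder Matrix ENNReal NNReal

variable {n : ℕ}

variable {X : Type} [MetricSpace X] [CompactSpace X] [MeasurableSpace X] [BorelSpace X]
  {f : X → X} {R : Set X} {L : ℕ} {μ μ' : Measure X}

/-- The conditional probability of a point among the preimages of its image. -/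
noncomputable def wt (μ μ' : Measure X) (x : X) : ℝ := (μ.rnDeriv μ' x).toReal

theorem measurable_wt (μ μ' : Measure X) : Measurable (wt μ μ') :=
  (Measure.measurable_rnDeriv μ μ').ennreal_toReal

theorem Wt2_mul (f : X → X) (R : Set X) (g P : X → ℝ≥0∞) (y : X) :
    Lop f R (fun x => g x * P (f x)) y = Lop f R g y * P y := by
  rw [Lop, Lop, ← ENNReal.tsum_mul_right]
  refine tsum_congr fun x => ?_
  by_cases hx : x ∈ R ∩ f ⁻¹' {y}
  · rw [indicator_of_mem hx, indicator_of_mem hx, show f x = y from hx.2]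
  · rw [indicator_of_notMem hx, indicator_of_notMem hx, zero_mul]

/-- `Measure.rnDeriv_le_one_of_le`, `Measure.rnDeriv_pos`. -/
theorem IsPull.wt_mem [IsProbabilityMeasure μ] (h : IsPull f R μ μ') :
    (∀ᵐ x ∂μ', wt μ μ' x ≤ 1) ∧ ∀ᵐ x ∂μ, 0 < wt μ μ' x ∧ wt μ μ' x ≤ 1 := by
  have := h.fin
  have hac : μ ≪ μ' := Measure.absolutelyContinuous_of_le h.le
  have h1 : ∀ᵐ x ∂μ', μ.rnDeriv μ' x ≤ 1 := Measure.rnDeriv_le_one_of_le h.le
  have h2 : ∀ᵐ x ∂μ', wt μ μ' x ≤ 1 := h1.mono fun x hx => by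
    simpa [wt] using ENNReal.toReal_mono ENNReal.one_ne_top hx
  refine ⟨h2, ?_⟩
  filter_upwards [hac.ae_le h1, hac.ae_le h2, Measure.rnDeriv_pos hac] with x h3 h4 h5
  exact ⟨ENNReal.toReal_pos h5.ne' (ne_top_of_le_ne_top ENNReal.one_ne_top h3), h4⟩

theorem IsPull.lintegral_inv [IsProbabilityMeasure μ] (h : IsPull f R μ μ') {g : X → ℝ≥0∞}
    (hg : Measurable g) :
    ∫⁻ x, g x * ENNReal.ofReal (wt μ μ' x)⁻¹ ∂μ ≤ ∫⁻ y, Lop f R g y ∂μ := by
  have := h.fin
  have hac : μ ≪ μ' := Measure.absolutelyContinuous_of_le h.le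
  have hm : Measurable fun x => g x * ENNReal.ofReal (wt μ μ' x)⁻¹ :=
    hg.mul (measurable_wt μ μ').inv.ennreal_ofReal
  rw [← lintegral_rnDeriv_mul hac hm.aemeasurable, ← h.eq g hg]
  refine lintegral_mono fun x => ?_
  have h1 : μ.rnDeriv μ' x * ENNReal.ofReal (wt μ μ' x)⁻¹ ≤ 1 := by
    rw [wt, ← ENNReal.toReal_inv]
    exact (mul_le_mul_right ENNReal.ofReal_toReal_le _).trans (ENNReal.mul_inv_le_one _)
  simp only []
  rw [mul_left_comm]
  exact (mul_le_mul_right h1 _).trans (mul_one _).le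

/-- `-log w ≤ w⁻¹`. -/
theorem IsPull.integrable_log [IsProbabilityMeasure μ] (h : IsPull f R μ μ') :
    Integrable (fun x => Real.log (wt μ μ' x)) μ := by
  have := h.fin
  have h1 := h.lintegral_inv (g := fun _ => 1) measurable_const
  rw [← h.eq _ measurable_const] at h1
  simp only [one_mul, lintegral_const] at h1
  refine ⟨(measurable_wt μ μ').log.aestronglyMeasurable, ?_⟩
  refine lt_of_le_of_lt (lintegral_mono_ae ?_) (h1.trans_lt (measure_lt_top _ _))
  filter_upwards [h.wt_mem.2] with x hx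
  rw [← ofReal_norm, Real.norm_eq_abs, abs_of_nonpos (Real.log_nonpos hx.1.le hx.2),
    ← Real.log_inv]
  exact ENNReal.ofReal_le_ofReal
    ((Real.log_le_sub_one_of_pos (inv_pos.2 hx.1)).trans (by linarith))

/-- Induction on `j` generalising `g`: apply `lintegral_inv` to
`g x * ∏ i ∈ range j, (wt (f^[i] (f x)))⁻¹`, whose `Lop` is `Lop g y * ∏ …`, then the induction
hypothesis to `Lop f R g`, and regroup the double sum. -/
theorem IsPull.lintegral_prod [IsProbabilityMeasure μ] (h : IsPull f R μ μ') (hf : Measurable f)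
    (j : ℕ) {g : X → ℝ≥0∞} (hg : Measurable g) :
    ∫⁻ x, g x * ENNReal.ofReal (∏ i ∈ Finset.range j, (wt μ μ' (f^[i] x))⁻¹) ∂μ ≤
      ∫⁻ y, ∑' x, (f^[j] ⁻¹' {y}).indicator g x ∂μ := by
  classical
  induction j generalizing g with
  | zero =>
    refine lintegral_mono fun y => ?_
    simp only [Finset.range_zero, Finset.prod_empty, ENNReal.ofReal_one, mul_one, iterate_zero,
      preimage_id_eq, id_eq]
    exact le_trans (by simp) (ENNReal.le_tsum y)
  | succ j ih =>
    have hP : Measurable fun y => ENNReal.ofReal (∏ i ∈ Finset.range j, (wt μ μ' (f^[i] y))⁻¹) :=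
      (Finset.measurable_prod _ fun i _ =>
        ((measurable_wt μ μ').comp (hf.iterate i)).inv).ennreal_ofReal
    have h1 := h.lintegral_inv (hg.mul (hP.comp hf))
    have e1 : ∀ x, g x * ENNReal.ofReal (∏ i ∈ Finset.range (j + 1), (wt μ μ' (f^[i] x))⁻¹) =
        g x * ENNReal.ofReal (∏ i ∈ Finset.range j, (wt μ μ' (f^[i] (f x)))⁻¹) *
          ENNReal.ofReal (wt μ μ' x)⁻¹ := by
      intro x
      have h0 : 0 ≤ (wt μ μ' (f^[0] x))⁻¹ := inv_nonneg.2 ENNReal.toReal_nonneg
      rw [Finset.prod_range_succ', ENNReal.ofReal_mul' h0, mul_assoc]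
      rfl
    simp only [e1]
    refine h1.trans ?_
    simp only [comp_def, Pi.mul_def, Wt2_mul f R g
      fun y => ENNReal.ofReal (∏ i ∈ Finset.range j, (wt μ μ' (f^[i] y))⁻¹)]
    refine (ih (h.meas g hg)).trans (lintegral_mono fun y => ?_)
    calc ∑' z, (f^[j] ⁻¹' {y}).indicator (Lop f R g) z
        ≤ ∑' z, ∑' x, if z = f x then (f^[j + 1] ⁻¹' {y}).indicator g x else 0 := by
          refine ENNReal.tsum_le_tsum fun z => ?_
          by_cases hz : z ∈ f^[j] ⁻¹' {y}
          · rw [indicator_of_mem hz]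
            refine ENNReal.tsum_le_tsum fun x => ?_
            by_cases hx : x ∈ R ∩ f ⁻¹' {z}
            · have h2 : f x = z := hx.2
              have h3 : x ∈ f^[j + 1] ⁻¹' {y} := by
                rw [mem_preimage, iterate_succ_apply, h2]
                exact hz
              rw [indicator_of_mem hx, if_pos h2.symm, indicator_of_mem h3]
            · rw [indicator_of_notMem hx]
              exact bot_le
          · rw [indicator_of_notMem hz]
            exact bot_le
      _ = _ := by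
          rw [ENNReal.tsum_comm]
          exact tsum_congr fun x => tsum_ite_eq (f x) fun _ => (f^[j + 1] ⁻¹' {y}).indicator g x

/-- Almost every fibre has total weight one: for measurable `A`,
`∫⁻_A Lop (rnDeriv) dμ = ∫⁻_{f ⁻¹' A} rnDeriv dμ' = μ (f ⁻¹' A) = μ A`. -/
theorem IsPull.lop_wt [IsProbabilityMeasure μ] (h : IsPull f R μ μ')
    (hf : MeasurePreserving f μ μ) :
    ∀ᵐ y ∂μ, Lop f R (fun x => ENNReal.ofReal (wt μ μ' x)) y = 1 := by
  have := h.fin
  have hac : μ ≪ μ' := Measure.absolutelyContinuous_of_le h.le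
  have hG : Measurable fun x => ENNReal.ofReal (wt μ μ' x) := (measurable_wt μ μ').ennreal_ofReal
  refine ae_eq_of_forall_setLIntegral_eq_of_sigmaFinite (g := fun _ => 1) (h.meas _ hG)
    measurable_const fun A hA _ => ?_
  have hI : Measurable (A.indicator fun _ => (1 : ℝ≥0∞)) := measurable_const.indicator hA
  have h1 := h.eq _ (hG.mul (hI.comp hf.measurable))
  simp only [comp_def, Pi.mul_def, Wt2_mul f R _ (A.indicator fun _ => (1 : ℝ≥0∞))] at h1
  have h2 : ∀ y, Lop f R (fun x => ENNReal.ofReal (wt μ μ' x)) y * A.indicator (fun _ => 1) y =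
      A.indicator (Lop f R fun x => ENNReal.ofReal (wt μ μ' x)) y := fun y => by
    by_cases hy : y ∈ A <;> simp [hy]
  have h3 : ∀ᵐ x ∂μ', ENNReal.ofReal (wt μ μ' x) * A.indicator (fun _ => 1) (f x) =
      (f ⁻¹' A).indicator (μ.rnDeriv μ') x := by
    filter_upwards [Measure.rnDeriv_lt_top μ μ'] with x hx
    by_cases hy : f x ∈ A
    · rw [indicator_of_mem hy, indicator_of_mem (show x ∈ f ⁻¹' A from hy), mul_one, wt,
        ENNReal.ofReal_toReal hx.ne]
    · rw [indicator_of_notMem hy, indicator_of_notMem (show x ∉ f ⁻¹' A from hy), mul_zero]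
  simp only [h2] at h1
  rw [lintegral_congr_ae h3, lintegral_indicator (hf.measurable hA), lintegral_indicator hA,
    Measure.setLIntegral_rnDeriv hac, hf.measure_preimage hA.nullMeasurableSet] at h1
  rw [← h1, setLIntegral_one]

end Pool.Agent.Lib.MP_a47f92_an
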