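import Pool.Agent.Lib.MP_a47f92_an.Wt3A

set_option autoImplicit false
set_option linter.unusedSectionVars false

/-! Continuous approximation of the weights. -/

namespace Pool.Agent.Lib.MP_a47f92_an

open MeasureTheory Filter Topology Set Complex Metric Function
open scoped ContDiff ComplexConjugate ComplexOrder Matrix ENNReal NNReal

variable {n : ℕ}

variable {X : Type} [MetricSpace X] [CompactSpace X] [MeasurableSpace X] [BorelSpace X]
  {f : X → X} {R : Set X} {L : ℕ} {μ μ' : Measure X}

theorem Wt3_compl (h : IsPull f R μ μ') (hR : IsOpen R) : μ' Rᶜ = 0 := by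
  have hm : MeasurableSet Rᶜ := hR.measurableSet.compl
  rw [← lintegral_indicator_one hm, h.eq _ (measurable_one.indicator hm)]
  have e : ∀ y, Lop f R (Rᶜ.indicator 1) y = 0 := fun y =>
    ENNReal.tsum_eq_zero.2 fun x => indicator_apply_eq_zero.2 fun hx =>
      indicator_of_notMem (notMem_compl_iff.2 hx.1) _
  simp only [e, lintegral_zero]

theorem Wt3_trunc {a w : ℝ} (h0 : 0 ≤ w) (h1 : w ≤ 1) : |max 0 (min 1 a) - w| ≤ |w - a| := by
  have h2 := le_abs_self (w - a)
  have h3 := neg_abs_le (w - a)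
  have h4 := abs_nonneg (w - a)
  rw [abs_le]
  rcases le_total 1 a with h | h
  · rw [min_eq_left h, max_eq_right zero_le_one]
    constructor <;> linarith
  · rw [min_eq_right h]
    rcases le_total 0 a with h' | h'
    · rw [max_eq_right h']
      constructor <;> linarith
    · rw [max_eq_left h']
      constructor <;> linarith

/-- `μ'` is carried by the open set `R` (apply `eq` to the indicator function of `Rᶜ`). Approximate
`w` in `L¹ (μ')` by a continuous function (`Integrable.exists_boundedContinuous_integral_sub_le`),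
truncate it to `[0, 1]` and multiply by a continuous cut-off supported in `R` which is one on a
compact set `K ⊆ R` with `μ' (R \ K)` small (`exists_continuous_one_zero_of_isCompact`-type
lemmas). -/
theorem IsPull.exists_cont [IsProbabilityMeasure μ] (h : IsPull f R μ μ') (hR : IsOpen R) {ε : ℝ}
    (hε : 0 < ε) : ∃ g : X → ℝ, Continuous g ∧ tsupport g ⊆ R ∧ (∀ x, 0 ≤ g x) ∧ (∀ x, g x ≤ 1) ∧
      ∫ x, |g x - wt μ μ' x| ∂μ' ≤ ε := by
  have := h.fin
  have h0 : ∀ x, 0 ≤ wt μ μ' x := fun x => ENNReal.toReal_nonneg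
  have hw : Integrable (wt μ μ') μ' := Integrable.of_bound (measurable_wt μ μ').aestronglyMeasurable 1
    (h.wt_mem.1.mono fun x hx => by rwa [Real.norm_of_nonneg (h0 x)])
  obtain ⟨g, hg, hgi⟩ := hw.exists_boundedContinuous_integral_sub_le (half_pos hε)
  obtain ⟨K, hKR, hK, hKm⟩ := hR.measurableSet.exists_isCompact_sdiff_lt (measure_ne_top μ' R)
    (ENNReal.ofReal_pos.2 (half_pos hε)).ne'
  obtain ⟨θ, h1, -, h2, h3⟩ := exists_continuousMap_one_of_isCompact_subset_isOpen hK hR hKR
  have a0 : ∀ x, 0 ≤ θ x * max 0 (min 1 (g x)) := fun x => mul_nonneg (h3 x).1 (le_max_left _ _)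
  have a1 : ∀ x, θ x * max 0 (min 1 (g x)) ≤ 1 := fun x =>
    mul_le_one₀ (h3 x).2 (le_max_left _ _) (max_le zero_le_one (min_le_left _ _))
  have hm : MeasurableSet Kᶜ := hK.measurableSet.compl
  have h4 : μ'.real Kᶜ ≤ ε / 2 := by
    refine ENNReal.toReal_le_of_le_ofReal (half_pos hε).le (le_trans ?_ hKm.le)
    refine (measure_mono (t := R \ K ∪ Rᶜ) fun x hx => ?_).trans ((measure_union_le _ _).trans ?_)
    · exact (em (x ∈ R)).imp (fun h' => ⟨h', hx⟩) id
    · rw [Wt3_compl h hR, add_zero]
  have i1 : Integrable (fun x => ‖wt μ μ' x - g x‖) μ' := (hw.sub hgi).norm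
  have i2 : Integrable (Kᶜ.indicator (1 : X → ℝ)) μ' := (integrable_const (1 : ℝ)).indicator hm
  refine ⟨fun x => θ x * max 0 (min 1 (g x)), by fun_prop, tsupport_mul_subset_left.trans h2, a0, a1,
    (integral_mono_of_nonneg (.of_forall fun x => abs_nonneg _) (i1.add i2)
      (h.wt_mem.1.mono fun x hx => ?_)).trans ?_⟩
  · change |θ x * max 0 (min 1 (g x)) - wt μ μ' x| ≤ |wt μ μ' x - g x| + Kᶜ.indicator 1 x
    by_cases hxK : x ∈ K
    · rw [h1 hxK, indicator_of_notMem (notMem_compl_iff.2 hxK), Pi.one_apply, one_mul, add_zero]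
      exact Wt3_trunc (h0 x) hx
    · rw [indicator_of_mem (mem_compl hxK), Pi.one_apply]
      refine le_trans (abs_le.2 ⟨?_, ?_⟩) (le_add_of_nonneg_left (abs_nonneg _))
      · linarith [a0 x]
      · linarith [a1 x, h0 x]
  · rw [integral_add' i1 i2, integral_indicator_one hm]
    linarith

end Pool.Agent.Lib.MP_a47f92_an
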