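import Pool.Agent.Lib.MP_a47f92_an.Wt2

set_option autoImplicit false
set_option linter.unusedSectionVars false

/-! Continuous approximation of the weights. -/

namespace Pool.Agent.Lib.MP_a47f92_an

open MeasureTheory Filter Topology Set Complex Metric Function
open scoped ContDiff ComplexConjugate ComplexOrder Matrix ENNReal NNReal

variable {n : ℕ}

variable {X : Type} [MetricSpace X] [CompactSpace X] [MeasurableSpace X] [BorelSpace X]
  {f : X → X} {R : Set X} {L : ℕ} {μ μ' : Measure X}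

/-- The real fibre sum. -/
noncomputable def fsum (f : X → X) (R : Set X) (g : X → ℝ) (y : X) : ℝ :=
  ∑ᶠ x ∈ R ∩ f ⁻¹' {y}, g x

theorem LocH.finite (h : LocH f R L) (y : X) : (R ∩ f ⁻¹' {y}).Finite := by
  by_contra hc
  obtain ⟨T, hT, hcard⟩ := Set.Infinite.exists_subset_card_eq hc (L + 1)
  have := h.fib y T fun x hx => hT hx
  omega

theorem LocH.lop_ofReal (h : LocH f R L) {g : X → ℝ} (h0 : ∀ x, 0 ≤ g x) (y : X) :
    Lop f R (fun x => ENNReal.ofReal (g x)) y = ENNReal.ofReal (fsum f R g y) := by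
  have hf := h.finite y
  rw [Lop, fsum, finsum_mem_eq_finite_toFinset_sum _ hf,
    ENNReal.ofReal_sum_of_nonneg fun x _ => h0 x, tsum_eq_sum (s := hf.toFinset)]
  · exact Finset.sum_congr rfl fun x hx => indicator_of_mem (hf.mem_toFinset.1 hx) _
  · exact fun x hx => indicator_of_notMem (fun hx' => hx (hf.mem_toFinset.2 hx')) _

/-- Continuity at `y₀`. Choose disjoint open neighbourhoods `N x ⊆ R` of the points `x` of the
finite fibre, on which `f` is injective and `|g - g x| < ε`. The set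
`f '' (tsupport g \ ⋃ N x)` is compact and does not contain `y₀`; on the intersection `V` of its
complement with all `f '' N x`, every `y` has exactly one preimage in each `N x`, and the other
preimages lie outside `tsupport g`. -/
theorem LocH.continuous_fsum (h : LocH f R L) {g : X → ℝ} (hg : Continuous g)
    (hs : tsupport g ⊆ R) : Continuous (fsum f R g) := by
  refine continuous_iff_continuousAt.2 fun y₀ => ?_
  have hf := h.finite y₀
  obtain ⟨U, hU, hd⟩ := hf.t2_separation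
  have h1 : ∀ x, ∃ N : Set X, x ∈ R → IsOpen N ∧ x ∈ N ∧ N ⊆ R ∧ N ⊆ U x ∧ InjOn f N := by
    intro x
    by_cases hx : x ∈ R
    · obtain ⟨V, hV, hi⟩ := h.inj x hx
      exact ⟨interior V ∩ (R ∩ U x), fun _ => ⟨isOpen_interior.inter (h.op.inter (hU x).2),
        ⟨mem_interior_iff_mem_nhds.2 hV, hx, (hU x).1⟩, fun _ hz => hz.2.1, fun _ hz => hz.2.2,
        hi.mono fun _ hz => interior_subset hz.1⟩⟩
    · exact ⟨∅, fun hx' => absurd hx' hx⟩
  choose N hN using h1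
  have : Nonempty X := ⟨y₀⟩
  let σ : X → X → X := fun x y => invFunOn f (N x) y
  have h2 : ∀ x ∈ R ∩ f ⁻¹' {y₀}, Tendsto (σ x) (𝓝 y₀) (𝓝 x) := by
    rintro x ⟨hx, hxy⟩ W hW
    obtain ⟨o, m, -, -, i⟩ := hN x hx
    have h3 := h.opn x hx _ (inter_mem hW (o.mem_nhds m))
    rw [show f x = y₀ from hxy] at h3
    refine mem_map.2 (mem_of_superset h3 ?_)
    rintro _ ⟨z, hz, rfl⟩
    have : σ x (f z) = z := i.leftInvOn_invFunOn hz.2
    rw [mem_preimage, this]
    exact hz.1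
  have h3 : IsCompact (f '' (tsupport g \ ⋃ x ∈ R ∩ f ⁻¹' {y₀}, N x)) :=
    ((isClosed_tsupport g).isCompact.diff (isOpen_biUnion fun x hx => (hN x hx.1).1)).image h.cont
  have h4 : (f '' (tsupport g \ ⋃ x ∈ R ∩ f ⁻¹' {y₀}, N x))ᶜ ∈ 𝓝 y₀ := by
    refine h3.isClosed.isOpen_compl.mem_nhds ?_
    rintro ⟨z, hz, hzy⟩
    exact hz.2 (mem_biUnion (show z ∈ R ∩ f ⁻¹' {y₀} from ⟨hs hz.1, hzy⟩) (hN z (hs hz.1)).2.1)
  have h5 : ∀ᶠ y in 𝓝 y₀, ∀ x ∈ R ∩ f ⁻¹' {y₀}, y ∈ f '' N x := by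
    refine (eventually_all_finite hf).2 fun x hx => ?_
    have := h.opn x hx.1 _ ((hN x hx.1).1.mem_nhds (hN x hx.1).2.1)
    rwa [show f x = y₀ from hx.2] at this
  have h6 : ∀ᶠ y in 𝓝 y₀, ∑ x ∈ hf.toFinset, g (σ x y) = fsum f R g y := by
    filter_upwards [h4, h5] with y hy1 hy2
    have a1 : ∀ x ∈ R ∩ f ⁻¹' {y₀}, σ x y ∈ N x ∧ f (σ x y) = y := fun x hx =>
      invFunOn_pos (hy2 x hx)
    rw [← finsum_mem_eq_finite_toFinset_sum (fun x => g (σ x y)) hf, fsum,
      ← finsum_mem_image (f := g) (g := fun x => σ x y)]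
    · refine finsum_mem_inter_support_eq' _ _ _ fun z hz => ⟨?_, fun hz' => ?_⟩
      · rintro ⟨x, hx, rfl⟩
        exact ⟨(hN x hx.1).2.2.1 (a1 x hx).1, (a1 x hx).2⟩
      · have a2 : z ∈ ⋃ x ∈ R ∩ f ⁻¹' {y₀}, N x := by
          by_contra hc
          exact hy1 ⟨z, ⟨subset_tsupport g hz, hc⟩, hz'.2⟩
        obtain ⟨x, hx, hzx⟩ := mem_iUnion₂.1 a2
        exact ⟨x, hx, (hN x hx.1).2.2.2.2 (a1 x hx).1 hzx ((a1 x hx).2.trans hz'.2.symm)⟩
    · intro x hx x' hx' hxx
      by_contra hc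
      refine Set.disjoint_left.1 (hd hx hx' hc) ((hN x hx.1).2.2.2.1 (a1 x hx).1) ?_
      have hxx' : σ x y = σ x' y := hxx
      rw [hxx']
      exact (hN x' hx'.1).2.2.2.1 (a1 x' hx').1
  refine Tendsto.congr' h6 ?_
  rw [fsum, finsum_mem_eq_finite_toFinset_sum _ hf]
  exact tendsto_finsetSum _ fun x hx => (hg.tendsto x).comp (h2 x (hf.mem_toFinset.1 hx))

end Pool.Agent.Lib.MP_a47f92_an
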